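import Pool.Agent.TH498.HF.T1
import Pool.Agent.TH498.KB.Tors

/-!
Members of the families by conductor: the members of bounded height (after `TH498.HF.L1`,
`TH498.KB.Core2`)
-/

set_option autoImplicit false

namespace Pool.Agent.Q10.KT

open Finset Polynomial Pool.Agent.TH498.HF Pool.Agent.TH498.KB Pool.Agent.W4.CF Pool.Agent.W4.VC

/-- many members with a small conductor and a small height -/
theorem low2 (A B : ℤ[X]) (k m : ℕ) (f : Fin m → ℤ[X]) (n : Fin m → ℕ)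
    (hF : FamB A B k m f n) (hR : Rev A B k m f n) :
    ∃ (c K2 : ℝ) (N0 : ℕ), 0 < c ∧ 0 < K2 ∧ ∀ N : ℕ, N0 ≤ N → ∀ S : Set (ℤ × ℤ), S.Finite →
      (∀ a b : ℤ, MinS a b → Mem A B a b → Cond a b ≤ N →
        max (|(a : ℝ)| ^ 3) ((b : ℝ) ^ 2) ≤ K2 * (N : ℝ) ^ (12 * (k : ℝ) / ((∑ i, n i : ℕ) : ℝ)) →
        (a, b) ∈ S) →
      c * (N : ℝ) ^ (2 / ((∑ i, n i : ℕ) : ℝ)) ≤ S.ncard := by
  classical
  obtain ⟨hk, hA, hB, hlead, hcop, hn, hsq, hdeg, -, -, -⟩ := hF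
  obtain ⟨j, N1, G, hN1, hG, hGd⟩ := hR
  obtain ⟨M, K, hM, hK, hbez⟩ := bez2 A B k hk hA hB hlead hcop
  set F : ℤ[X] := ∏ i, f i with hFdef
  set q : ℕ := ∑ i, n i with hq
  have hle : F.natDegree ≤ q :=
    (natDegree_prod_le _ _).trans (Finset.sum_le_sum fun i _ => hn i)
  have hj : 1 ≤ j := by
    rcases Nat.eq_zero_or_pos j with h | h
    · rw [h] at hGd; omega
    · exact h
  have hq1 : 1 ≤ q := by
    rcases Nat.eq_zero_or_pos q with h | h
    · rw [h] at hGd; omega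
    · exact h
  have hF0 : F ≠ 0 := by
    intro h0
    rw [h0] at hsq
    simp at hsq
  obtain ⟨C1, hC1, hsize⟩ := Pool.Agent.W505.VC.t_HOM.2.1 F q
  obtain ⟨CA, hCA, hsizeA⟩ := Pool.Agent.W505.VC.t_HOM.2.1 A (4 * k)
  obtain ⟨CB, hCB, hsizeB⟩ := Pool.Agent.W505.VC.t_HOM.2.1 B (6 * k)
  have hmul := Pool.Agent.W505.VC.t_HOM.1
  have hDd : (4 * A ^ 3 - 27 * B ^ 2 : ℤ[X]).natDegree ≤ 12 * k := by
    refine (natDegree_sub_le _ _).trans (max_le ?_ ?_)
    · have h1 := natDegree_C_mul_le (4 : ℤ) (A ^ 3)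
      have h2 : (C (4 : ℤ) : ℤ[X]) = 4 := by simp
      rw [h2] at h1
      have h3 := (h1.trans natDegree_pow_le)
      omega
    · have h1 := natDegree_C_mul_le (27 : ℤ) (B ^ 2)
      have h2 : (C (27 : ℤ) : ℤ[X]) = 27 := by simp
      rw [h2] at h1
      have h3 := (h1.trans natDegree_pow_le)
      omega
  -- powers of the form
  have hpow : ∀ (i : ℕ) (a b : ℤ), hom (F ^ i) (i * q) a b = (hom F q a b) ^ i := by
    intro i a b
    induction i with
    | zero =>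
      rw [pow_zero, pow_zero, Nat.zero_mul, ← C_1, hom_C, pow_zero, mul_one]
    | succ i ih =>
      rw [pow_succ, Nat.succ_mul, hmul (F ^ i) F (i * q) q (natDegree_pow_le.trans
        (Nat.mul_le_mul_left _ hle)) hle, ih, pow_succ]
  have hD : ∀ a b : ℤ, hom (4 * A ^ 3 - 27 * B ^ 2) (12 * k) a b *
      hom G (j * q - 12 * k) a b = N1 * (hom F q a b) ^ j := by
    intro a b
    rw [← hmul _ G (12 * k) (j * q - 12 * k) hDd (by omega) a b, hG]
    have h1 : 12 * k + (j * q - 12 * k) = 0 + j * q := by omega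
    have h2 : ((N1 : ℤ[X])) = C (N1 : ℤ) := by simp
    rw [h1, h2, hmul (C (N1 : ℤ)) (F ^ j) 0 (j * q) (by simp) (natDegree_pow_le.trans
        (Nat.mul_le_mul_left _ hle)) a b, hpow, hom_C, pow_zero, mul_one]
  have hDAB : ∀ a b : ℤ, b ≠ 0 → hom (4 * A ^ 3 - 27 * B ^ 2) (12 * k) a b =
      4 * (hom A (4 * k) a b) ^ 3 - 27 * (hom B (6 * k) a b) ^ 2 := by
    intro a b hb
    have hden : (b : ℚ) ≠ 0 := by exact_mod_cast hb
    have hAe := hom_eval A (4 * k) hA a b hden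
    have hBe := hom_eval B (6 * k) hB a b hden
    have hDe := hom_eval (4 * A ^ 3 - 27 * B ^ 2) (12 * k) hDd a b hden
    have h4 : ((4 : ℤ[X]).map (Int.castRingHom ℚ)) = Polynomial.C 4 := by
      rw [Polynomial.map_ofNat]; rfl
    have h27 : ((27 : ℤ[X]).map (Int.castRingHom ℚ)) = Polynomial.C 27 := by
      rw [Polynomial.map_ofNat]; rfl
    simp only [Polynomial.map_mul, Polynomial.map_sub, Polynomial.map_pow, eval_mul, eval_sub,
      eval_pow] at hDe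
    rw [h4, h27, eval_C, eval_C] at hDe
    have : ((hom (4 * A ^ 3 - 27 * B ^ 2) (12 * k) a b : ℤ) : ℚ) =
        ((4 * (hom A (4 * k) a b) ^ 3 - 27 * (hom B (6 * k) a b) ^ 2 : ℤ) : ℚ) := by
      push_cast
      rw [hDe, hAe, hBe]
      ring
    exact_mod_cast this
  -- parameters
  set C2 : ℝ := N1 * C1 * M with hC2
  have hN1' : (1 : ℝ) ≤ N1 := by exact_mod_cast Nat.one_le_iff_ne_zero.mpr hN1
  have hM' : (1 : ℝ) ≤ M := by exact_mod_cast hM
  have hC2' : 1 ≤ C2 := by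
    have h1 : 1 ≤ (N1 : ℝ) * C1 := one_le_mul_of_one_le_of_one_le hN1' hC1
    exact one_le_mul_of_one_le_of_one_le h1 hM'
  have hq0 : (0 : ℝ) < q := by exact_mod_cast hq1
  have hkey : ∀ (N H : ℕ), C2 * (H : ℝ) ^ q ≤ N → ∀ S : Set (ℤ × ℤ), S.Finite →
      (∀ a b : ℤ, MinS a b → Mem A B a b → Cond a b ≤ N → |(a : ℝ)| ≤ CA * (H : ℝ) ^ (4 * k) →
        |(b : ℝ)| ≤ CB * (H : ℝ) ^ (6 * k) → (a, b) ∈ S) →
      (H : ℝ) ^ 2 / 4 ≤ 12 * k * S.ncard + q := by
    intro N H hNH S hS hmem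
    set P := (cpr H).filter (fun p : ℕ × ℕ => hom F q (p.1 : ℤ) (p.2 : ℤ) ≠ 0) with hP
    -- few pairs are lost
    have hinj : ∀ p ∈ cpr H, ∀ p' ∈ cpr H, ((p.1 : ℤ) : ℚ) / ((p.2 : ℤ) : ℚ) =
        ((p'.1 : ℤ) : ℚ) / ((p'.2 : ℤ) : ℚ) → p = p' := by
      intro p hp p' hp' heq
      obtain ⟨h1, h2⟩ := mem_filter.mp hp
      obtain ⟨h1', h2'⟩ := mem_filter.mp hp'
      obtain ⟨-, h3⟩ := mem_product.mp h1
      obtain ⟨-, h3'⟩ := mem_product.mp h1'
      have h4 := (mem_Ioc.mp h3).1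
      have h4' := (mem_Ioc.mp h3').1
      have g1 := Rat.div_int_inj (a := (p.1 : ℤ)) (b := (p.2 : ℤ)) (c := (p'.1 : ℤ))
        (d := (p'.2 : ℤ)) (by exact_mod_cast h4) (by exact_mod_cast h4')
        (by simpa using h2) (by simpa using h2') heq
      ext
      · exact_mod_cast g1.1
      · exact_mod_cast g1.2
    have hlost : ((cpr H).filter (fun p : ℕ × ℕ => ¬ hom F q (p.1 : ℤ) (p.2 : ℤ) ≠ 0)).card ≤ q := by
      have hF' : F.map (Int.castRingHom ℚ) ≠ 0 :=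
        (Polynomial.map_ne_zero_iff Int.cast_injective).mpr hF0
      calc ((cpr H).filter (fun p : ℕ × ℕ => ¬ hom F q (p.1 : ℤ) (p.2 : ℤ) ≠ 0)).card
          ≤ (F.map (Int.castRingHom ℚ)).roots.toFinset.card := by
            refine card_le_card_of_injOn (fun p => ((p.1 : ℤ) : ℚ) / ((p.2 : ℤ) : ℚ)) ?_ ?_
            · intro p hp
              obtain ⟨hp1, hp2⟩ := mem_filter.mp hp
              push Not at hp2
              obtain ⟨h1, h2⟩ := mem_filter.mp hp1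
              have h4 := (mem_Ioc.mp (mem_product.mp h1).2).1
              have hb : ((p.2 : ℤ) : ℚ) ≠ 0 := by exact_mod_cast (by omega : p.2 ≠ 0)
              have h5 := hom_eval F q hle (p.1 : ℤ) (p.2 : ℤ) hb
              rw [hp2] at h5
              rw [mem_coe, Multiset.mem_toFinset, mem_roots hF', IsRoot.def]
              have h6 : (((p.2 : ℤ) : ℚ)) ^ q ≠ 0 := pow_ne_zero _ hb
              have h7 : (((p.2 : ℤ) : ℚ)) ^ q * eval (((p.1 : ℤ) : ℚ) / ((p.2 : ℤ) : ℚ))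
                  (F.map (Int.castRingHom ℚ)) = 0 := by
                rw [← h5]; simp
              exact (mul_eq_zero.mp h7).resolve_left h6
            · intro p hp p' hp' heq
              exact hinj p (mem_filter.mp hp).1 p' (mem_filter.mp hp').1 heq
        _ ≤ (F.map (Int.castRingHom ℚ)).roots.card := Multiset.toFinset_card_le _
        _ ≤ (F.map (Int.castRingHom ℚ)).natDegree := card_roots' _
        _ ≤ q := natDegree_map_le.trans hle
    have hPc : (H : ℝ) ^ 2 / 4 ≤ (P.card : ℝ) + q := by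
      have h1 := cpr_card H
      have h2 : (cpr H).card = P.card +
          ((cpr H).filter (fun p : ℕ × ℕ => ¬ hom F q (p.1 : ℤ) (p.2 : ℤ) ≠ 0)).card :=
        (card_filter_add_card_filter_not (s := cpr H) _).symm
      have h3 : ((cpr H).card : ℝ) ≤ (P.card : ℝ) + q := by
        rw [h2]
        push_cast
        have : (((cpr H).filter (fun p : ℕ × ℕ =>
          ¬ hom F q (p.1 : ℤ) (p.2 : ℤ) ≠ 0)).card : ℝ) ≤ q := by exact_mod_cast hlost
        linarith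
      linarith
    -- the models
    have hex : ∀ p ∈ P, ∃ x : ℤ × ℤ, x ∈ S ∧ 4 * x.1 ^ 3 - 27 * x.2 ^ 2 ≠ 0 ∧ ∃ v : ℚ, v ≠ 0 ∧
        (A.map (Int.castRingHom ℚ)).eval (((p.1 : ℤ) : ℚ) / ((p.2 : ℤ) : ℚ)) = v ^ 4 * x.1 ∧
        (B.map (Int.castRingHom ℚ)).eval (((p.1 : ℤ) : ℚ) / ((p.2 : ℤ) : ℚ)) = v ^ 6 * x.2 := by
      intro p hp
      obtain ⟨hp1, hp2⟩ := mem_filter.mp hp
      obtain ⟨h1, h2⟩ := mem_filter.mp hp1
      obtain ⟨h3, h4⟩ := mem_product.mp h1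
      have h3' := mem_Ioc.mp h3
      have h4' := mem_Ioc.mp h4
      have hbZ : (p.2 : ℤ) ≠ 0 := by exact_mod_cast (by omega : p.2 ≠ 0)
      have hb : ((p.2 : ℤ) : ℚ) ≠ 0 := by exact_mod_cast hbZ
      have hco : IsCoprime (p.1 : ℤ) (p.2 : ℤ) := Nat.isCoprime_iff_coprime.mpr h2
      set Ah := hom A (4 * k) (p.1 : ℤ) (p.2 : ℤ) with hAh
      set Bh := hom B (6 * k) (p.1 : ℤ) (p.2 : ℤ) with hBh
      set Fh := hom F q (p.1 : ℤ) (p.2 : ℤ) with hFh
      have hDh := hD (p.1 : ℤ) (p.2 : ℤ)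
      rw [hDAB _ _ hbZ] at hDh
      have hne : 4 * Ah ^ 3 - 27 * Bh ^ 2 ≠ 0 := by
        intro h0
        rw [h0, zero_mul] at hDh
        have h5 : (N1 : ℤ) * Fh ^ j ≠ 0 :=
          mul_ne_zero (by exact_mod_cast hN1) (pow_ne_zero _ hp2)
        exact h5 hDh.symm
      obtain ⟨u, A0, B0, hu1, huM, hA0, hB0, hmin⟩ := min_model Ah Bh M hM hne
        (hbez _ _ hco).1
      have hu0 : (u : ℚ) ≠ 0 := by exact_mod_cast (by omega : u ≠ 0)
      have hAe := hom_eval A (4 * k) hA (p.1 : ℤ) (p.2 : ℤ) hb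
      have hBe := hom_eval B (6 * k) hB (p.1 : ℤ) (p.2 : ℤ) hb
      set x : ℚ := ((p.1 : ℤ) : ℚ) / ((p.2 : ℤ) : ℚ) with hx
      set y : ℚ := ((p.2 : ℤ) : ℚ) with hy
      have hyk : y ^ k ≠ 0 := pow_ne_zero _ hb
      have e1 : (A.map (Int.castRingHom ℚ)).eval x = (u / y ^ k) ^ 4 * A0 := by
        have h5 : (Ah : ℚ) = (u : ℚ) ^ 4 * A0 := by rw [hA0]; push_cast; ring
        rw [← hAh, h5] at hAe
        have h6 : y ^ (4 * k) = (y ^ k) ^ 4 := by rw [← pow_mul]; congr 1; ring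
        rw [h6] at hAe
        rw [div_pow]
        field_simp
        linarith
      have e2 : (B.map (Int.castRingHom ℚ)).eval x = (u / y ^ k) ^ 6 * B0 := by
        have h5 : (Bh : ℚ) = (u : ℚ) ^ 6 * B0 := by rw [hB0]; push_cast; ring
        rw [← hBh, h5] at hBe
        have h6 : y ^ (6 * k) = (y ^ k) ^ 6 := by rw [← pow_mul]; congr 1; ring
        rw [h6] at hBe
        rw [div_pow]
        field_simp
        linarith
      have hv0 : (u / y ^ k : ℚ) ≠ 0 := div_ne_zero hu0 hyk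
      refine ⟨(A0, B0), ?_, hmin.1, u / y ^ k, hv0, e1, e2⟩
      have hmaxH : (max |(((p.1 : ℕ) : ℤ) : ℝ)| |(((p.2 : ℕ) : ℤ) : ℝ)|) ≤ (H : ℝ) := by
        have a1 : (p.1 : ℝ) ≤ H := by exact_mod_cast h3'.2
        have a2 : (p.2 : ℝ) ≤ H := by exact_mod_cast h4'.2
        refine max_le ?_ ?_
        · push_cast
          rw [abs_of_nonneg (Nat.cast_nonneg _)]
          exact a1
        · push_cast
          rw [abs_of_nonneg (Nat.cast_nonneg _)]
          exact a2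
      have hu1r : (1 : ℝ) ≤ (u : ℝ) := by exact_mod_cast hu1
      have hbA : |(A0 : ℝ)| ≤ CA * (H : ℝ) ^ (4 * k) := by
        have g1 := hsizeA (p.1 : ℤ) (p.2 : ℤ)
        rw [← hAh, hA0] at g1
        push_cast at g1
        rw [abs_mul, abs_of_nonneg (by positivity : (0 : ℝ) ≤ (u : ℝ) ^ 4)] at g1
        have g2 : |(A0 : ℝ)| ≤ (u : ℝ) ^ 4 * |(A0 : ℝ)| :=
          le_mul_of_one_le_left (abs_nonneg _) (one_le_pow₀ hu1r)
        refine g2.trans (g1.trans ?_)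
        refine mul_le_mul_of_nonneg_left ?_ (by linarith)
        refine pow_le_pow_left₀ (le_max_of_le_left (abs_nonneg _)) ?_ _
        exact_mod_cast hmaxH
      have hbB : |(B0 : ℝ)| ≤ CB * (H : ℝ) ^ (6 * k) := by
        have g1 := hsizeB (p.1 : ℤ) (p.2 : ℤ)
        rw [← hBh, hB0] at g1
        push_cast at g1
        rw [abs_mul, abs_of_nonneg (by positivity : (0 : ℝ) ≤ (u : ℝ) ^ 6)] at g1
        have g2 : |(B0 : ℝ)| ≤ (u : ℝ) ^ 6 * |(B0 : ℝ)| :=
          le_mul_of_one_le_left (abs_nonneg _) (one_le_pow₀ hu1r)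
        refine g2.trans (g1.trans ?_)
        refine mul_le_mul_of_nonneg_left ?_ (by linarith)
        refine pow_le_pow_left₀ (le_max_of_le_left (abs_nonneg _)) ?_ _
        exact_mod_cast hmaxH
      refine hmem A0 B0 hmin ⟨x, (u / y ^ k)⁻¹, inv_ne_zero hv0, ?_, ?_⟩ ?_ hbA hbB
      · rw [e1, ← mul_assoc, ← mul_pow, inv_mul_cancel₀ hv0, one_pow, one_mul]
      · rw [e2, ← mul_assoc, ← mul_pow, inv_mul_cancel₀ hv0, one_pow, one_mul]
      · have hcd := cond_le A0 B0 M (N1 * Fh.natAbs) (by omega)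
          (mul_ne_zero hN1 (Int.natAbs_ne_zero.mpr hp2)) (by
            intro d hd1 hd2
            refine (hbez _ _ hco).1 d ?_ ?_
            · rw [← hAh, hA0]; exact Dvd.dvd.mul_left hd1 _
            · rw [← hBh, hB0]; exact Dvd.dvd.mul_left hd2 _) (by
            intro l hl hl5 hld
            have hlZ : Prime (l : ℤ) := Nat.prime_iff_prime_int.mp hl
            have h5 : (l : ℤ) ∣ (N1 : ℤ) * Fh ^ j := by
              rw [← hDh]
              refine Dvd.dvd.mul_right ?_ _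
              have h6 : 4 * Ah ^ 3 - 27 * Bh ^ 2 = (u : ℤ) ^ 12 * (4 * A0 ^ 3 - 27 * B0 ^ 2) := by
                rw [hA0, hB0]; ring
              rw [h6]
              exact Dvd.dvd.mul_left hld _
            rcases hlZ.dvd_or_dvd h5 with h6 | h6
            · exact Dvd.dvd.mul_right (by exact_mod_cast h6) _
            · exact Dvd.dvd.mul_left (Int.natCast_dvd.mp (hlZ.dvd_of_dvd_pow h6)) _)
        have h7 : ((Cond A0 B0 : ℕ) : ℝ) ≤ ((N : ℕ) : ℝ) := by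
          refine le_trans ?_ hNH
          have h8 := hsize (p.1 : ℤ) (p.2 : ℤ)
          rw [← hFh] at h8
          have h9 : ((Cond A0 B0 : ℕ) : ℝ) ≤ (N1 : ℝ) * |(Fh : ℝ)| * M := by
            have h10 : ((Fh.natAbs : ℕ) : ℝ) = |(Fh : ℝ)| := by
              rw [Nat.cast_natAbs]; push_cast; rfl
            rw [← h10]
            exact_mod_cast hcd
          have h11 : max |(((p.1 : ℕ) : ℤ) : ℝ)| |(((p.2 : ℕ) : ℤ) : ℝ)| ≤ H := by
            have a1 : (p.1 : ℝ) ≤ H := by exact_mod_cast h3'.2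
            have a2 : (p.2 : ℝ) ≤ H := by exact_mod_cast h4'.2
            refine max_le ?_ ?_
            · push_cast
              rw [abs_of_nonneg (Nat.cast_nonneg _)]
              exact a1
            · push_cast
              rw [abs_of_nonneg (Nat.cast_nonneg _)]
              exact a2
          have h12 : (max |(((p.1 : ℕ) : ℤ) : ℝ)| |(((p.2 : ℕ) : ℤ) : ℝ)|) ^ q ≤ (H : ℝ) ^ q :=
            pow_le_pow_left₀ (le_max_of_le_left (abs_nonneg _)) h11 q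
          calc ((Cond A0 B0 : ℕ) : ℝ) ≤ (N1 : ℝ) * |(Fh : ℝ)| * M := h9
            _ ≤ (N1 : ℝ) * (C1 * (H : ℝ) ^ q) * M := by
                gcongr
                exact h8.trans (mul_le_mul_of_nonneg_left h12 (by linarith))
            _ = C2 * (H : ℝ) ^ q := by rw [hC2]; ring
        exact_mod_cast h7
    choose! φ hφS hφD v hv hφA hφB using hex
    have hfib : P.card ≤ (12 * k) * (P.image φ).card := by
      refine card_le_mul_card_image P (12 * k) fun x hx => ?_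
      obtain ⟨p0, hp0, rfl⟩ := mem_image.mp hx
      have h1 : (P.filter (fun p => φ p = φ p0)).card =
          ((P.filter (fun p => φ p = φ p0)).image
            (fun p : ℕ × ℕ => ((p.1 : ℤ) : ℚ) / ((p.2 : ℤ) : ℚ))).card := by
        rw [card_image_of_injOn]
        intro p hp p' hp' heq
        exact hinj p (mem_filter.mp (mem_filter.mp hp).1).1 p'
          (mem_filter.mp (mem_filter.mp hp').1).1 heq
      rw [h1]
      refine fibre A B k hk hA hB hlead hcop (φ p0).1 (φ p0).2 (hφD p0 hp0) _ ?_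
      intro t ht
      obtain ⟨p, hp, rfl⟩ := mem_image.mp ht
      obtain ⟨hp1, hp2⟩ := mem_filter.mp hp
      refine ⟨v p, hv p hp1, ?_, ?_⟩
      · rw [hφA p hp1, hp2]
      · rw [hφB p hp1, hp2]
    have himg : (P.image φ).card ≤ S.ncard := by
      rw [Set.ncard_eq_toFinset_card _ hS]
      refine card_le_card fun x hx => ?_
      obtain ⟨p, hp, rfl⟩ := mem_image.mp hx
      rw [Set.Finite.mem_toFinset]
      exact hφS p hp
    have h5 : (P.card : ℝ) ≤ 12 * k * S.ncard := by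
      have : P.card ≤ 12 * k * S.ncard := hfib.trans (Nat.mul_le_mul_left _ himg)
      exact_mod_cast this
    linarith
  -- the choice of `H`
  have hk0 : (0 : ℝ) < k := by exact_mod_cast hk
  refine ⟨C2 ^ (-(2 / (q : ℝ))) / (384 * k), CA ^ 3 + CB ^ 2, ⌈C2 * (32 * q) ^ q⌉₊, by positivity,
    by positivity, ?_⟩
  intro N hN S hS hmem
  have hC20 : 0 < C2 := by linarith
  have hN' : C2 * (32 * (q : ℝ)) ^ q ≤ N := Nat.ceil_le.mp hN
  have hq1' : (1 : ℝ) ≤ q := by exact_mod_cast hq1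
  set y : ℝ := ((N : ℝ) / C2) ^ (1 / (q : ℝ)) with hy
  have hy0 : 0 ≤ y := by positivity
  have hyq : y ^ q = N / C2 := by
    rw [hy, ← Real.rpow_natCast, ← Real.rpow_mul (by positivity), one_div_mul_cancel hq0.ne',
      Real.rpow_one]
  have hy32 : 32 * (q : ℝ) ≤ y := by
    refine le_of_pow_le_pow_left₀ (n := q) (by omega) hy0 ?_
    rw [hyq, le_div_iff₀ hC20]
    linarith
  have hfl : (⌊y⌋₊ : ℝ) ≤ y := Nat.floor_le hy0
  have hfl2 : y - 1 ≤ (⌊y⌋₊ : ℝ) := (Nat.sub_one_lt_floor y).le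
  have h := hkey N ⌊y⌋₊ (by
    calc C2 * ((⌊y⌋₊ : ℕ) : ℝ) ^ q ≤ C2 * y ^ q := by gcongr
      _ = N := by rw [hyq]; field_simp) S hS (fun a b g1 g2 g3 g4 g5 => hmem a b g1 g2 g3 (by
    have hyN : y ≤ (N : ℝ) ^ (1 / (q : ℝ)) := by
      rw [hy]
      refine Real.rpow_le_rpow (by positivity) ?_ (by positivity)
      exact div_le_self (Nat.cast_nonneg _) hC2'
    have hHk : ((⌊y⌋₊ : ℕ) : ℝ) ^ (12 * k) ≤ (N : ℝ) ^ (12 * (k : ℝ) / (q : ℝ)) := by
      calc ((⌊y⌋₊ : ℕ) : ℝ) ^ (12 * k) ≤ ((N : ℝ) ^ (1 / (q : ℝ))) ^ (12 * k) :=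
            pow_le_pow_left₀ (Nat.cast_nonneg _) (hfl.trans hyN) _
        _ = (N : ℝ) ^ (12 * (k : ℝ) / (q : ℝ)) := by
            rw [← Real.rpow_natCast, ← Real.rpow_mul (Nat.cast_nonneg _)]
            congr 1
            push_cast
            ring
    have hNk : 0 ≤ (N : ℝ) ^ (12 * (k : ℝ) / (q : ℝ)) := by positivity
    refine max_le ?_ ?_
    · calc |(a : ℝ)| ^ 3 ≤ (CA * ((⌊y⌋₊ : ℕ) : ℝ) ^ (4 * k)) ^ 3 :=
            pow_le_pow_left₀ (abs_nonneg _) g4 3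
        _ = CA ^ 3 * ((⌊y⌋₊ : ℕ) : ℝ) ^ (12 * k) := by
            rw [mul_pow, ← pow_mul]; congr 2; ring
        _ ≤ CA ^ 3 * (N : ℝ) ^ (12 * (k : ℝ) / (q : ℝ)) :=
            mul_le_mul_of_nonneg_left hHk (by positivity)
        _ ≤ (CA ^ 3 + CB ^ 2) * (N : ℝ) ^ (12 * (k : ℝ) / (q : ℝ)) :=
            mul_le_mul_of_nonneg_right (le_add_of_nonneg_right (by positivity)) hNk
    · calc (b : ℝ) ^ 2 = |(b : ℝ)| ^ 2 := (sq_abs _).symm
        _ ≤ (CB * ((⌊y⌋₊ : ℕ) : ℝ) ^ (6 * k)) ^ 2 :=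
            pow_le_pow_left₀ (abs_nonneg _) g5 2
        _ = CB ^ 2 * ((⌊y⌋₊ : ℕ) : ℝ) ^ (12 * k) := by
            rw [mul_pow, ← pow_mul]; congr 2; ring
        _ ≤ CB ^ 2 * (N : ℝ) ^ (12 * (k : ℝ) / (q : ℝ)) :=
            mul_le_mul_of_nonneg_left hHk (by positivity)
        _ ≤ (CA ^ 3 + CB ^ 2) * (N : ℝ) ^ (12 * (k : ℝ) / (q : ℝ)) :=
            mul_le_mul_of_nonneg_right (le_add_of_nonneg_left (by positivity)) hNk))
  have hy2 : y ^ 2 = C2 ^ (-(2 / (q : ℝ))) * (N : ℝ) ^ (2 / (q : ℝ)) := by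
    rw [hy, ← Real.rpow_natCast, ← Real.rpow_mul (by positivity),
      Real.div_rpow (Nat.cast_nonneg _) hC20.le, Real.rpow_neg hC20.le]
    have : 1 / (q : ℝ) * ((2 : ℕ) : ℝ) = 2 / q := by push_cast; ring
    rw [this]
    field_simp
  have h8 : y / 2 ≤ (⌊y⌋₊ : ℝ) := by linarith
  have h9 : (y / 2) ^ 2 ≤ (⌊y⌋₊ : ℝ) ^ 2 := pow_le_pow_left₀ (by positivity) h8 2
  have h10 : y ^ 2 / 32 ≤ 12 * k * S.ncard := by nlinarith
  have h11 : C2 ^ (-(2 / (q : ℝ))) / (384 * k) * (N : ℝ) ^ (2 / (q : ℝ)) = y ^ 2 / (384 * k) := by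
    rw [hy2]; ring
  rw [h11, div_le_iff₀ (by positivity)]
  linarith


/-- few members with a small conductor and a height at most a power of it -/
theorem lim (A B : ℤ[X]) (k w L : ℕ) (hF : Fam A B k w L) (κ ε : ℝ) (hκ : 0 < κ) (hε : 0 < ε) :
    ∃ C : ℝ, 0 < C ∧ ∀ N : ℝ, 1 ≤ N → ∀ S : Set (ℤ × ℤ),
      (∀ p ∈ S, MinS p.1 p.2 ∧ Mem A B p.1 p.2 ∧ (Cond p.1 p.2 : ℝ) ≤ N ∧
        max (|(p.1 : ℝ)| ^ 3) ((p.2 : ℝ) ^ 2) ≤ N ^ κ) →
      S.Finite ∧ (S.ncard : ℝ) ≤ C * N ^ ((2 : ℝ) / (L + 2 * w) + ε) := by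
  obtain ⟨C, hC, h⟩ := core A B k w L hF 1 (ε / κ) (by positivity)
  refine ⟨C, hC, fun N hN S hS => fin_of_bound _ _ fun s hs => ?_⟩
  have hN0 : 0 < N := by linarith
  have hZ : 1 ≤ N ^ κ := Real.one_le_rpow hN hκ.le
  have h1 := h (N ^ κ) N hZ hN s fun p hp => by
    obtain ⟨g1, g2, g3, g4⟩ := hS p (hs hp)
    refine ⟨g1.1, g2, fun r h4 h6 => by
      have := prim_of_minS _ _ g1 r h4 h6
      exact_mod_cast this, ?_, ?_, ?_⟩
    · have g5 := (le_max_left _ _).trans g4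
      by_cases h0 : |(p.1 : ℝ)| ≤ 1
      · exact h0.trans hZ
      · push Not at h0
        exact (le_self_pow₀ h0.le (by norm_num)).trans g5
    · have g5 := (le_max_right _ _).trans g4
      rw [← sq_abs] at g5
      by_cases h0 : |(p.2 : ℝ)| ≤ 1
      · exact h0.trans hZ
      · push Not at h0
        exact (le_self_pow₀ h0.le (by norm_num)).trans g5
    · exact le_trans (by exact_mod_cast rad5_le_cond p.1 p.2) g3
  refine h1.trans (le_of_eq ?_)
  rw [← Real.rpow_mul hN0.le, mul_assoc, ← Real.rpow_add hN0]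
  congr 2
  field_simp
  ring

/-! ### The families `y² + a₁(t) x y + a₃(t) y = x³ + a₂(t) x²` -/

theorem km_mem (a1 a2 a3 : ℤ[X]) (V : ℚ → WeierstrassCurve ℚ) (hV : ∀ t, V t = crv a1 a2 a3 t)
    (a b : ℤ) : KM V a b ↔ Mem (27 * c4p a1 a2 a3) (54 * c6p a1 a2 a3) a b := by
  constructor
  · rintro ⟨t, D, hD⟩
    rw [hV t] at hD
    exact mem_short a1 a2 a3 t D _ _ hD
  · intro h
    obtain ⟨t, D, hD⟩ := short_mem a1 a2 a3 a b h
    exact ⟨t, D, by rw [hV t]; exact hD⟩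

end Pool.Agent.Q10.KT
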