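import Pool.Agent.Q10.KT1
import Pool.Agent.TH867.SQ.Line

/-!
Pairs of any height where the radical of a form is small: blocks of factors, among them blocks of
linear factors (after `TH498.HF.BF`, `TH498.HF.CF`, `TH867.SQ.Line`)
-/

set_option autoImplicit false

namespace Pool.Agent.Q10.KT

open Finset Polynomial Pool.Agent.TH498.HF Pool.Agent.TH498.KB Pool.Agent.W4.CF Pool.Agent.W4.VC

/-- coprime pairs, of any height, where the form has a small radical -/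
def CountB (f : ℤ[X]) (n : ℕ) (g : ℝ) : Prop := ∀ m : ℕ, 1 ≤ m → ∃ C : ℝ, 0 < C ∧
  ∀ Y : ℝ, 1 ≤ Y → ∀ s : Finset (ℤ × ℤ),
    (∀ x ∈ s, IsCoprime x.1 x.2 ∧ hom f n x.1 x.2 ≠ 0 ∧
      (radp m (hom f n x.1 x.2).natAbs : ℝ) ≤ Y) → (s.card : ℝ) ≤ C * Y ^ g

theorem log_pow_le (k : ℕ) {δ : ℝ} (hδ : 0 < δ) : ∃ D : ℝ, 0 < D ∧ ∀ Y : ℝ, 1 ≤ Y →
    (1 + Real.log Y) ^ k ≤ D * Y ^ δ := by
  rcases Nat.eq_zero_or_pos k with rfl | hk
  · refine ⟨1, one_pos, fun Y hY => ?_⟩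
    rw [pow_zero, one_mul]
    exact Real.one_le_rpow hY hδ.le
  have hk0 : (0 : ℝ) < k := by exact_mod_cast hk
  obtain ⟨a, ha⟩ : ∃ a : ℝ, a = δ / k := ⟨_, rfl⟩
  have ha0 : 0 < a := by rw [ha]; positivity
  refine ⟨(1 + 1 / a) ^ k, by positivity, fun Y hY => ?_⟩
  have hY0 : 0 < Y := by linarith
  have h1 : Real.log Y ≤ Y ^ a / a := Real.log_le_rpow_div hY0.le ha0
  have h2 : 1 ≤ Y ^ a := Real.one_le_rpow hY ha0.le
  have h3 : 1 + Real.log Y ≤ (1 + 1 / a) * Y ^ a := by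
    have : (1 + 1 / a) * Y ^ a = Y ^ a + Y ^ a / a := by ring
    rw [this]
    linarith
  have h4 : 0 ≤ 1 + Real.log Y := by
    have := Real.log_nonneg hY
    linarith
  refine (pow_le_pow_left₀ h4 h3 k).trans (le_of_eq ?_)
  rw [mul_pow]
  congr 1
  rw [← Real.rpow_natCast, ← Real.rpow_mul hY0.le, ha]
  congr 1
  field_simp

theorem tm_count (f : ℤ[X]) (n : ℕ) (hf : Sqf f n) (hn : 3 ≤ n) {δ : ℝ} (hδ : 0 < δ) :
    CountB f n (1 + δ) := by
  intro m hm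
  obtain ⟨C, k, hC, h⟩ := TMsum f n hf hn m hm
  obtain ⟨D, hD, hlog⟩ := log_pow_le k hδ
  refine ⟨C * D, by positivity, fun Y hY s hs => (h Y hY s hs).trans ?_⟩
  have hY0 : 0 < Y := by linarith
  calc C * Y * (1 + Real.log Y) ^ k ≤ C * Y * (D * Y ^ δ) :=
        mul_le_mul_of_nonneg_left (hlog Y hY) (by positivity)
    _ = C * D * Y ^ (1 + δ) := by
        rw [Real.rpow_add hY0, Real.rpow_one]
        ring

open Pool.Agent.TH867.QF Pool.Agent.TH867.SQ in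
/-- the radicals of the values of linear forms -/
theorem sr_le' {r : ℕ} (L : Fm r) {P : ℤ × ℤ} (h : Pt L P) (m : ℕ) (hm : 1 ≤ m) :
    ∑ i, lr (va L P i) ≤ Real.log (radp m (∏ i, va L P i) : ℕ) + r * Real.log (m * Rs L : ℕ) := by
  classical
  have hRs := Rs_pos L
  have hmR : 0 < m * Rs L := Nat.mul_pos hm hRs
  have h1 : ∀ i, lr (va L P i) ≤ ∑ p ∈ (va L P i).primeFactors.filter (fun p => ¬ p ∣ m * Rs L),
      Real.log (p : ℝ) + Real.log (m * Rs L : ℕ) := by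
    intro i
    unfold lr
    rw [← Finset.sum_filter_add_sum_filter_not _ (fun p => p ∣ m * Rs L), add_comm]
    refine add_le_add le_rfl ?_
    have h2 : ∑ p ∈ (va L P i).primeFactors.filter (fun p => p ∣ m * Rs L), Real.log (p : ℝ) =
        Real.log ((∏ p ∈ (va L P i).primeFactors.filter (fun p => p ∣ m * Rs L), p : ℕ) : ℝ) := by
      push_cast
      rw [Real.log_prod]
      intro p hp
      exact_mod_cast (Nat.prime_of_mem_primeFactors (mem_filter.1 hp).1).ne_zero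
    rw [h2]
    refine Real.log_le_log ?_ ?_
    · exact_mod_cast Finset.prod_pos fun p hp =>
        (Nat.prime_of_mem_primeFactors (mem_filter.1 hp).1).pos
    · exact_mod_cast Nat.le_of_dvd hmR (Finset.prod_primes_dvd _
        (fun p hp => (Nat.prime_of_mem_primeFactors (mem_filter.1 hp).1).prime)
        fun p hp => (mem_filter.1 hp).2)
  have h2 : ∑ i, lr (va L P i) ≤
      ∑ i, ∑ p ∈ (va L P i).primeFactors.filter (fun p => ¬ p ∣ m * Rs L),
      Real.log (p : ℝ) + r * Real.log (m * Rs L : ℕ) := by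
    refine (Finset.sum_le_sum fun i _ => h1 i).trans (le_of_eq ?_)
    rw [Finset.sum_add_distrib, Finset.sum_const, Finset.card_univ, Fintype.card_fin, nsmul_eq_mul]
  refine h2.trans (add_le_add ?_ le_rfl)
  have hV : ∏ i, va L P i ≠ 0 := (Finset.prod_pos fun i _ => va_pos h i).ne'
  have hrad : Real.log (radp m (∏ i, va L P i) : ℕ) =
      ∑ p ∈ (∏ i, va L P i).primeFactors.filter (fun p => ¬ p ∣ m), Real.log (p : ℝ) := by
    unfold radp
    push_cast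
    rw [Real.log_prod]
    intro p hp
    exact_mod_cast (Nat.prime_of_mem_primeFactors (mem_filter.1 hp).1).ne_zero
  rw [hrad, ← Finset.sum_biUnion]
  · refine Finset.sum_le_sum_of_subset_of_nonneg ?_ fun p _ _ => Real.log_natCast_nonneg _
    intro p hp
    obtain ⟨i, -, hi⟩ := mem_biUnion.1 hp
    have h3 := (mem_filter.1 hi).1
    refine mem_filter.2 ⟨Nat.mem_primeFactors.2 ⟨Nat.prime_of_mem_primeFactors h3, ?_, hV⟩, ?_⟩
    · exact (Nat.dvd_of_mem_primeFactors h3).trans (Finset.dvd_prod_of_mem _ (mem_univ i))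
    · exact fun h4 => (mem_filter.1 hi).2 (h4.mul_right _)
  · intro i _ j _ hij
    rw [Function.onFun, Finset.disjoint_left]
    intro p hi hj
    have k1 := Nat.dvd_of_mem_primeFactors (mem_filter.1 hi).1
    have k2 := Nat.dvd_of_mem_primeFactors (mem_filter.1 hj).1
    have k3 := Pool.Agent.TH867.QF.dvd_rs h (i := i) (j := j) (d := (p : ℤ)) (Int.natCast_dvd.2 k1)
      (Int.natCast_dvd.2 k2)
    exact (mem_filter.1 hi).2 (((Int.natCast_dvd.1 k3).trans (rs_dvd L hij)).mul_left m)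

open Pool.Agent.TH867.QF Pool.Agent.TH867.SQ in
theorem lin_count {ι : Type} [DecidableEq ι] (F : ι → ℤ[X]) (d : ι → ℕ) (J : Finset ι) (q : ℕ)
    (hq : J.card = q + 3) (hd : ∀ k ∈ J, (F k).natDegree ≤ 1 ∧ d k = 1)
    (hres : ∀ k ∈ J, ∀ l ∈ J, k ≠ l →
      (F k).coeff 1 * (F l).coeff 0 - (F l).coeff 1 * (F k).coeff 0 ≠ 0) {δ : ℝ} (hδ : 0 < δ) :
    CountB (∏ k ∈ J, F k) (∑ k ∈ J, d k) (2 / ((q : ℝ) + 3) + δ) := by
  classical
  intro m hm
  obtain ⟨e⟩ : Nonempty (Fin (q + 3) ≃ J) := ⟨(J.equivFinOfCardEq hq).symm⟩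
  let L : Fm (q + 3) :=
    { u := fun i => (F (e i)).coeff 1
      w := fun i => (F (e i)).coeff 0
      res := fun i j hij => hres _ (e i).2 _ (e j).2 (fun h => hij (e.injective (Subtype.ext h))) }
  obtain ⟨D, hD, hline⟩ := line_all L δ hδ
  obtain ⟨W, hW⟩ : ∃ W : ℝ, W = ((m * Rs L : ℕ) : ℝ) ^ (q + 3) := ⟨_, rfl⟩
  have hmR : 0 < m * Rs L := Nat.mul_pos hm (Rs_pos L)
  have hmR1 : (1 : ℝ) ≤ ((m * Rs L : ℕ) : ℝ) := by exact_mod_cast hmR
  have hW1 : 1 ≤ W := by rw [hW]; exact one_le_pow₀ hmR1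
  have hW0 : 0 < W := by linarith
  refine ⟨D * W ^ (2 / ((q : ℝ) + 3) + δ), by positivity, fun Y hY s hs => ?_⟩
  have hY0 : 0 < Y := by linarith
  have hev : ∀ x : ℤ × ℤ, ∀ i, ev L x i = hom (F (e i)) (d (e i)) x.1 x.2 := by
    intro x i
    rw [(hd _ (e i).2).2]
    show (F (e i)).coeff 1 * x.1 + (F (e i)).coeff 0 * x.2 = _
    unfold hom
    rw [Finset.sum_range_succ, Finset.sum_range_one]
    simp
    ring
  have hprod : ∀ x : ℤ × ℤ, hom (∏ k ∈ J, F k) (∑ k ∈ J, d k) x.1 x.2 = ∏ i, ev L x i := by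
    intro x
    rw [(hom_prod J F d (fun k hk => by rw [(hd k hk).2]; exact (hd k hk).1) x.1 x.2).2]
    rw [← Finset.prod_coe_sort J, ← Equiv.prod_comp e]
    exact Finset.prod_congr rfl fun i _ => (hev x i).symm
  have h1 := hline (Y * W) (one_le_mul_of_one_le_of_one_le hY hW1) s fun x hx => by
    obtain ⟨g1, g2, g3⟩ := hs x hx
    rw [hprod] at g2 g3
    have hne : ∀ i, ev L x i ≠ 0 := fun i => Finset.prod_ne_zero_iff.1 g2 i (mem_univ i)
    have hpt : Pt L x := ⟨g1, hne⟩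
    refine ⟨hpt, ?_⟩
    have g4 := sr_le' L hpt m hm
    have e1 : (∏ i, ev L x i).natAbs = ∏ i, va L x i := map_prod Int.natAbsHom _ _
    rw [e1] at g3
    have hrp : (0 : ℝ) < (radp m (∏ i, va L x i) : ℕ) := by exact_mod_cast radp_pos _ _
    have g5 := Real.log_le_log hrp g3
    rw [Real.log_mul hY0.ne' hW0.ne', hW, Real.log_pow]
    push_cast at g4 g5 ⊢
    linarith
  refine h1.trans (le_of_eq ?_)
  rw [Real.mul_rpow hY0.le hW0.le]
  ring

/-- **Blocks.** If for all nonnegative numbers `x k` with sum at most one there is a block `b` with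
`∑ k ∈ B b, x k ≤ τ b`, then one of the blocks has a small radical. -/
theorem blocksG {ι β : Type} [Fintype ι] [DecidableEq ι] [Fintype β] [DecidableEq β] [Nonempty β]
    (F : ι → ℤ[X]) (d : ι → ℕ) (hd : ∀ k, (F k).natDegree ≤ d k)
    (hsq : Sqf (∏ k, F k) (∑ k, d k)) (B : β → Finset ι) (g τ : β → ℝ)
    (hcnt : ∀ b, CountB (∏ k ∈ B b, F k) (∑ k ∈ B b, d k) (g b)) (hτ : ∀ b, 0 ≤ τ b)
    (hcov : ∀ x : ι → ℝ, (∀ k, 0 ≤ x k) → ∑ k, x k ≤ 1 → ∃ b, ∑ k ∈ B b, x k ≤ τ b) (E : ℝ)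
    (hE : ∀ b, τ b * g b ≤ E) :
    CountB (∏ k, F k) (∑ k, d k) E := by
  classical
  intro m hm
  -- every factor is almost prime to the others
  have hsub : ∀ J : Finset ι, ∃ M : ℕ, 1 ≤ M ∧
      ∀ a b : ℤ, IsCoprime a b → ∀ p : ℕ, p.Prime →
        (p : ℤ) ∣ ∏ k ∈ J, hom (F k) (d k) a b → (p : ℤ) ∣ ∏ k ∈ Jᶜ, hom (F k) (d k) a b →
        p ∣ M := by
    intro J
    have h1 : (∏ k ∈ J, F k) * (∏ k ∈ Jᶜ, F k) = ∏ k, F k := prod_mul_prod_compl J F
    have h2 : (∑ k ∈ J, d k) + (∑ k ∈ Jᶜ, d k) = ∑ k, d k := sum_add_sum_compl J d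
    have hp := fun (K : Finset ι) (a b : ℤ) => hom_prod K F d (fun i _ => hd i) a b
    have h3 := Pool.Agent.W290.VC.t_RES (∏ k ∈ J, F k) (∏ k ∈ Jᶜ, F k) (∑ k ∈ J, d k)
      (∑ k ∈ Jᶜ, d k) (hp J 0 0).1 (hp Jᶜ 0 0).1 (by rw [h1, h2]; exact hsq)
    obtain ⟨-, -, M, hM, h4⟩ := h3
    refine ⟨M, hM, ?_⟩
    intro a b hab p hpp x1 x2
    rw [← (hp J a b).2] at x1
    rw [← (hp Jᶜ a b).2] at x2
    exact h4 a b hab p hpp x1 x2
  choose M hM hMp using hsub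
  set M0 : ℕ := ∏ k : ι, M {k} with hM0
  have hM01 : 1 ≤ M0 := by
    rw [hM0]
    exact Nat.one_le_iff_ne_zero.mpr (prod_ne_zero_iff.mpr fun k _ => by
      have := hM {k}
      omega)
  have hmM : 1 ≤ m * M0 := Nat.one_le_iff_ne_zero.mpr (by
    have : m ≠ 0 := by omega
    have : M0 ≠ 0 := by omega
    positivity)
  have hsm := fun b : β => hcnt b (m * M0) hmM
  choose D hD hDs using hsm
  refine ⟨∑ b, D b, sum_pos (fun b _ => hD b) univ_nonempty, ?_⟩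
  intro R hR s hs
  have hR0 : 0 < R := by linarith
  have hT0 : ∀ b, 0 < R ^ τ b := fun b => by positivity
  have hT1 : ∀ b, 1 ≤ R ^ τ b := fun b => Real.one_le_rpow hR (hτ b)
  have hval : ∀ p ∈ s, (∀ k, hom (F k) (d k) p.1 p.2 ≠ 0) ∧
      ((∏ k, radp (m * M0) (hom (F k) (d k) p.1 p.2).natAbs : ℕ) : ℝ) ≤ R := by
    intro p hp
    obtain ⟨hcop, b3, b4⟩ := hs p hp
    have hh := (hom_prod univ F d (fun i _ => hd i) p.1 p.2).2
    rw [hh] at b3 b4
    have hne : ∀ k, hom (F k) (d k) p.1 p.2 ≠ 0 := fun k => prod_ne_zero_iff.mp b3 k (mem_univ k)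
    refine ⟨hne, ?_⟩
    refine le_trans ?_ b4
    have e1 : (∏ k, hom (F k) (d k) p.1 p.2).natAbs = ∏ k, (hom (F k) (d k) p.1 p.2).natAbs :=
      map_prod Int.natAbsHom _ _
    rw [e1]
    have e2 : ∏ k, radp (m * M0) (hom (F k) (d k) p.1 p.2).natAbs ≤
        radp (m * M0) (∏ k, (hom (F k) (d k) p.1 p.2).natAbs) := by
      apply prod_radp_le
      · intro k
        exact Int.natAbs_ne_zero.mpr (hne k)
      · intro k k' hkk' q hq q1 q2
        have f1 : (q : ℤ) ∣ ∏ l ∈ ({k} : Finset ι), hom (F l) (d l) p.1 p.2 := by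
          rw [prod_singleton]
          exact Int.natCast_dvd.mpr q1
        have f2 : (q : ℤ) ∣ ∏ l ∈ ({k} : Finset ι)ᶜ, hom (F l) (d l) p.1 p.2 := by
          refine (Int.natCast_dvd.mpr q2).trans (dvd_prod_of_mem _ ?_)
          rw [mem_compl, mem_singleton]
          exact Ne.symm hkk'
        have f3 := hMp {k} p.1 p.2 hcop q hq f1 f2
        exact (f3.trans (dvd_prod_of_mem (fun k => M {k}) (mem_univ k))).mul_left m
    exact_mod_cast e2.trans (radp_mono_left m M0 _)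
  have hex : ∀ p ∈ s, ∃ b : β,
      (radp (m * M0) (hom (∏ k ∈ B b, F k) (∑ k ∈ B b, d k) p.1 p.2).natAbs : ℝ) ≤ R ^ τ b := by
    intro p hp
    obtain ⟨hne, hle⟩ := hval p hp
    have hr0 : ∀ k, (1 : ℝ) ≤ ((radp (m * M0) (hom (F k) (d k) p.1 p.2).natAbs : ℕ) : ℝ) :=
      fun k => by exact_mod_cast radp_pos _ _
    have hlr : ∀ k, 0 ≤ Real.log ((radp (m * M0) (hom (F k) (d k) p.1 p.2).natAbs : ℕ) : ℝ) :=
      fun k => Real.log_nonneg (hr0 k)
    have hlR : 0 ≤ Real.log R := Real.log_nonneg hR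
    have hsumlog : ∑ k, Real.log ((radp (m * M0) (hom (F k) (d k) p.1 p.2).natAbs : ℕ) : ℝ) ≤
        Real.log R := by
      rw [← Real.log_prod (fun k _ => by have := hr0 k; positivity)]
      refine Real.log_le_log (prod_pos fun k _ => by have := hr0 k; positivity) ?_
      rw [← Nat.cast_prod]
      exact hle
    obtain ⟨b, hb⟩ := hcov (fun k =>
      Real.log ((radp (m * M0) (hom (F k) (d k) p.1 p.2).natAbs : ℕ) : ℝ) / Real.log R)
      (fun k => div_nonneg (hlr k) hlR) (by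
        rw [← sum_div]
        exact div_le_one_of_le₀ hsumlog hlR)
    refine ⟨b, ?_⟩
    rw [(hom_prod (B b) F d (fun i _ => hd i) p.1 p.2).2]
    have e1 : (∏ k ∈ B b, hom (F k) (d k) p.1 p.2).natAbs =
        ∏ k ∈ B b, (hom (F k) (d k) p.1 p.2).natAbs := map_prod Int.natAbsHom _ _
    rw [e1]
    have h1 : ((radp (m * M0) (∏ k ∈ B b, (hom (F k) (d k) p.1 p.2).natAbs) : ℕ) : ℝ) ≤
        ((∏ k ∈ B b, radp (m * M0) (hom (F k) (d k) p.1 p.2).natAbs : ℕ) : ℝ) := by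
      exact_mod_cast radp_prod_le (m * M0) (B b) _ (fun k _ => Int.natAbs_ne_zero.mpr (hne k))
    refine h1.trans ?_
    rw [Nat.cast_prod]
    have hpos : 0 < ∏ k ∈ B b, ((radp (m * M0) (hom (F k) (d k) p.1 p.2).natAbs : ℕ) : ℝ) :=
      prod_pos fun k _ => by have := hr0 k; positivity
    rw [← Real.log_le_log_iff hpos (hT0 b), Real.log_rpow hR0,
      Real.log_prod (fun k _ => by have := hr0 k; positivity)]
    rcases hlR.eq_or_lt with h0 | h0
    · rw [← h0, mul_zero]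
      refine le_trans ?_ (hsumlog.trans h0.symm.le)
      exact sum_le_sum_of_subset_of_nonneg (subset_univ _) fun k _ _ => hlr k
    · rw [← sum_div, div_le_iff₀ h0] at hb
      exact hb
  have hcover : s ⊆ univ.biUnion (fun b : β => s.filter (fun p =>
      (radp (m * M0) (hom (∏ k ∈ B b, F k) (∑ k ∈ B b, d k) p.1 p.2).natAbs : ℝ) ≤
        R ^ τ b)) := by
    intro p hp
    obtain ⟨b, hb⟩ := hex p hp
    rw [mem_biUnion]
    exact ⟨b, mem_univ b, mem_filter.mpr ⟨hp, hb⟩⟩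
  have hb : ∀ b : β, ((s.filter (fun p =>
      (radp (m * M0) (hom (∏ k ∈ B b, F k) (∑ k ∈ B b, d k) p.1 p.2).natAbs : ℝ) ≤
        R ^ τ b)).card : ℝ) ≤ D b * R ^ E := by
    intro b
    have h1 := hDs b (R ^ τ b) (hT1 b) (s.filter (fun p =>
      (radp (m * M0) (hom (∏ k ∈ B b, F k) (∑ k ∈ B b, d k) p.1 p.2).natAbs : ℝ) ≤ R ^ τ b)) (by
      intro p hp
      rw [mem_filter] at hp
      obtain ⟨hcop, b3, b4⟩ := hs p hp.1
      refine ⟨hcop, ?_, hp.2⟩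
      rw [(hom_prod (B b) F d (fun i _ => hd i) p.1 p.2).2]
      exact prod_ne_zero_iff.mpr fun k _ => (hval p hp.1).1 k)
    refine h1.trans (mul_le_mul_of_nonneg_left ?_ (hD b).le)
    rw [← Real.rpow_mul hR0.le]
    exact Real.rpow_le_rpow_of_exponent_le hR (hE b)
  calc (s.card : ℝ) ≤ ((univ.biUnion (fun b : β => s.filter (fun p =>
      (radp (m * M0) (hom (∏ k ∈ B b, F k) (∑ k ∈ B b, d k) p.1 p.2).natAbs : ℝ) ≤
        R ^ τ b))).card : ℝ) := by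
        exact_mod_cast card_le_card hcover
    _ ≤ ∑ b : β, ((s.filter (fun p =>
      (radp (m * M0) (hom (∏ k ∈ B b, F k) (∑ k ∈ B b, d k) p.1 p.2).natAbs : ℝ) ≤
        R ^ τ b)).card : ℝ) := by
        exact_mod_cast card_biUnion_le
    _ ≤ ∑ b : β, D b * R ^ E := sum_le_sum fun b _ => hb b
    _ = (∑ b, D b) * R ^ E := by rw [← sum_mul]

/-- a block of total degree at least three -/
theorem blk_tm {ι : Type} [Fintype ι] [DecidableEq ι] (F : ι → ℤ[X]) (d : ι → ℕ)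
    (hd : ∀ k, (F k).natDegree ≤ d k) (hsq : Sqf (∏ k, F k) (∑ k, d k)) (J : Finset ι)
    (hJ : 3 ≤ ∑ k ∈ J, d k) {δ : ℝ} (hδ : 0 < δ) :
    CountB (∏ k ∈ J, F k) (∑ k ∈ J, d k) (1 + δ) := by
  have h1 : (∏ k ∈ J, F k) * (∏ k ∈ Jᶜ, F k) = ∏ k, F k := prod_mul_prod_compl J F
  have h2 : (∑ k ∈ J, d k) + (∑ k ∈ Jᶜ, d k) = ∑ k, d k := sum_add_sum_compl J d
  have hp := fun (K : Finset ι) (a b : ℤ) => hom_prod K F d (fun i _ => hd i) a b
  have h3 := Pool.Agent.W290.VC.t_RES (∏ k ∈ J, F k) (∏ k ∈ Jᶜ, F k) (∑ k ∈ J, d k)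
    (∑ k ∈ Jᶜ, d k) (hp J 0 0).1 (hp Jᶜ 0 0).1 (by rw [h1, h2]; exact hsq)
  exact tm_count _ _ h3.1 hJ hδ

end Pool.Agent.Q10.KT
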