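import Pool.Agent.Q10.KT2

/-!
Rational points of the projective line of any height and a finite set of points which is stable
under the Galois group: the radical of the values of a form with `L` rational zeros and `w` classes
of conjugate irrational zeros, `u` of them quadratic
-/

set_option autoImplicit false

namespace Pool.Agent.Q10.KT

open Finset Polynomial Pool.Agent.TH498.HF Pool.Agent.TH498.KB Pool.Agent.W4.CF Pool.Agent.W4.VC

/-- the sum over cyclically consecutive pairs -/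
theorem cyc_sum (u : ℕ) (hu : u ≠ 1) (y : Fin u → ℝ) (e : ℝ)
    (h : ∀ i j, i ≠ j → e < y i + y j) : (u : ℝ) * e / 2 ≤ ∑ i, y i := by
  rcases Nat.eq_zero_or_pos u with rfl | hu0
  · simp
  have h1 : ∀ i : Fin u, e ≤ y i + y (finRotate u i) := by
    intro i
    refine (h i _ ?_).le
    intro h2
    have h3 : finRotate u i = i := h2.symm
    obtain ⟨v, rfl⟩ : ∃ v, u = v + 1 := ⟨u - 1, by omega⟩
    rw [finRotate_apply] at h3
    have h4 : (1 : Fin (v + 1)) = 0 := by simpa using h3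
    have h5 := congrArg Fin.val h4
    rw [Fin.val_one', Fin.val_zero, Nat.mod_eq_of_lt (by omega)] at h5
    omega
  have h2 : ∑ _i : Fin u, e ≤ ∑ i, (y i + y (finRotate u i)) := sum_le_sum fun i _ => h1 i
  rw [sum_add_distrib, Equiv.sum_comp (finRotate u) y, sum_const, card_univ, Fintype.card_fin,
    nsmul_eq_mul] at h2
  linarith

/-- the covering property -/
theorem cov (L w : ℕ) (hL : 3 ≤ L) (Q : Finset (Fin w)) (x : Fin w ⊕ Fin L → ℝ)
    (hx : ∀ k, 0 ≤ x k)
    (hs : ∑ k, x k ≤ 1) (e : ℝ) (he0 : 0 < e) (he : e * (L + 2 * w - Q.card) = 2)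
    (hlin : e * L / 2 < ∑ i, x (Sum.inr i))
    (hcub : ∀ k, k ∉ Q → e < x (Sum.inl k))
    (hqq : ∀ i ∈ Q, ∀ j ∈ Q, i ≠ j → e < x (Sum.inl i) + x (Sum.inl j))
    (hql : ∀ i ∈ Q, ∀ j, e < x (Sum.inl i) + x (Sum.inr j)) : False := by
  classical
  rw [Fintype.sum_sum_type] at hs
  have h0 : ∑ k, x (Sum.inl k) = ∑ k ∈ Q, x (Sum.inl k) + ∑ k ∈ Qᶜ, x (Sum.inl k) :=
    (sum_add_sum_compl Q _).symm
  have hc : ((Qᶜ).card : ℝ) = w - Q.card := by
    have h1 := card_compl_add_card Q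
    rw [Fintype.card_fin] at h1
    have h2 : (((Qᶜ).card + Q.card : ℕ) : ℝ) = w := by exact_mod_cast h1
    push_cast at h2
    linarith
  have h3 : ((Qᶜ).card : ℝ) * e ≤ ∑ k ∈ Qᶜ, x (Sum.inl k) := by
    have h1 : ∑ _k ∈ Qᶜ, e ≤ ∑ k ∈ Qᶜ, x (Sum.inl k) :=
      sum_le_sum fun k hk => (hcub k (mem_compl.1 hk)).le
    rwa [sum_const, nsmul_eq_mul] at h1
  rw [hc] at h3
  rw [h0] at hs
  by_cases hu : Q.card = 1
  · obtain ⟨k0, hk0⟩ := card_eq_one.1 hu
    have h4 : ∑ k ∈ Q, x (Sum.inl k) = x (Sum.inl k0) := by rw [hk0, sum_singleton]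
    have hk0Q : k0 ∈ Q := by rw [hk0]; exact mem_singleton_self _
    have h5 : (L : ℝ) * (e - x (Sum.inl k0)) ≤ ∑ i, x (Sum.inr i) := by
      have h1 : ∑ _k : Fin L, (e - x (Sum.inl k0)) ≤ ∑ i, x (Sum.inr i) :=
        sum_le_sum fun k _ => by
          have := hql k0 hk0Q k
          linarith
      rwa [sum_const, card_univ, Fintype.card_fin, nsmul_eq_mul] at h1
    rw [h4] at hs
    have hL' : (3 : ℝ) ≤ L := by exact_mod_cast hL
    have hQ1 : (Q.card : ℝ) = 1 := by exact_mod_cast hu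
    rw [hQ1] at he h3
    nlinarith
  · have h4 := cyc_sum Q.card hu (fun i => x (Sum.inl (Q.equivFin.symm i : Fin w))) e (by
      intro i j hij
      refine hqq _ (Q.equivFin.symm i).2 _ (Q.equivFin.symm j).2 ?_
      intro h1
      exact hij (Q.equivFin.symm.injective (Subtype.ext h1)))
    have h5 : ∑ i : Fin Q.card, x (Sum.inl (Q.equivFin.symm i : Fin w)) =
        ∑ k ∈ Q, x (Sum.inl k) := by
      rw [Equiv.sum_comp Q.equivFin.symm (fun k : Q => x (Sum.inl (k : Fin w))),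
        Finset.sum_coe_sort Q (fun k => x (Sum.inl k))]
    rw [h5] at h4
    nlinarith

/-- two linear factors are not proportional -/
theorem lin_res (f g : ℤ[X]) (hf : f.natDegree ≤ 1) (hg : g.natDegree ≤ 1) (h : Sqf (f * g) 2) :
    f.coeff 1 * g.coeff 0 - g.coeff 1 * f.coeff 0 ≠ 0 := by
  intro h0
  obtain ⟨hsq, -, hdeg⟩ := h
  have ef : f = C (f.coeff 1) * X + C (f.coeff 0) := eq_X_add_C_of_natDegree_le_one hf
  have eg : g = C (g.coeff 1) * X + C (g.coeff 0) := eq_X_add_C_of_natDegree_le_one hg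
  by_cases hf1 : f.coeff 1 = 0
  · rw [hf1, zero_mul, zero_sub, neg_eq_zero] at h0
    rcases mul_eq_zero.1 h0 with h1 | h1
    · obtain ⟨a, ha⟩ : ∃ a, f = C a := ⟨_, by rw [hf1, C_0, zero_mul, zero_add] at ef; exact ef⟩
      obtain ⟨b, hb⟩ : ∃ b, g = C b := ⟨_, by rw [h1, C_0, zero_mul, zero_add] at eg; exact eg⟩
      rw [ha, hb, ← C_mul, natDegree_C] at hdeg
      omega
    · rw [hf1, h1] at ef
      rw [ef] at hsq
      simp at hsq
  · have h1 : C (f.coeff 1) * g = C (g.coeff 1) * f := by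
      rw [ef, eg]
      simp only [coeff_add, coeff_C_mul, coeff_X_one, coeff_C_zero, coeff_C_succ, mul_one, add_zero,
        coeff_X_zero, mul_zero, zero_add]
      have h2 : f.coeff 1 * g.coeff 0 = g.coeff 1 * f.coeff 0 := by linarith
      have h3 : (C (f.coeff 1 * g.coeff 0) : ℤ[X]) = C (g.coeff 1 * f.coeff 0) := by rw [h2]
      rw [C_mul, C_mul] at h3
      linear_combination h3
    have h2 := congrArg (Polynomial.map (Int.castRingHom ℚ)) h1
    rw [Polynomial.map_mul, Polynomial.map_mul, Polynomial.map_C, Polynomial.map_C] at h2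
    have hq : ((Int.castRingHom ℚ) (f.coeff 1)) ≠ 0 := by
      rw [eq_intCast]
      exact_mod_cast hf1
    have h3 : g.map (Int.castRingHom ℚ) = C ((Int.castRingHom ℚ) (g.coeff 1) /
        (Int.castRingHom ℚ) (f.coeff 1)) * f.map (Int.castRingHom ℚ) := by
      have h4 : C ((Int.castRingHom ℚ) (f.coeff 1))⁻¹ * (C ((Int.castRingHom ℚ) (f.coeff 1)) *
          g.map (Int.castRingHom ℚ)) = g.map (Int.castRingHom ℚ) := by
        rw [← mul_assoc, ← C_mul, inv_mul_cancel₀ hq, C_1, one_mul]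
      rw [← h4, h2, ← mul_assoc, ← C_mul]
      congr 2
      ring
    have hu : IsUnit (f.map (Int.castRingHom ℚ)) := by
      refine hsq _ ?_
      rw [Polynomial.map_mul, h3]
      exact ⟨C ((Int.castRingHom ℚ) (g.coeff 1) / (Int.castRingHom ℚ) (f.coeff 1)), by ring⟩
    have hd := natDegree_eq_zero_of_isUnit hu
    rw [natDegree_map_eq_of_injective Int.cast_injective] at hd
    rw [natDegree_eq_zero] at hd
    obtain ⟨c, hc⟩ := hd
    rw [← hc] at hf1
    exact hf1 (by rw [coeff_C, if_neg one_ne_zero])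

/-- **Points of any height.** -/
theorem form_up (w L : ℕ) (hL : 3 ≤ L) (g : Fin w → ℤ[X]) (n : Fin w → ℕ)
    (hg : ∀ j, (g j).natDegree ≤ n j) (hn : ∀ j, 2 ≤ n j) (h : Fin L → ℤ[X])
    (hh : ∀ i, (h i).natDegree ≤ 1) (hsq : Sqf ((∏ j, g j) * ∏ i, h i) (∑ j, n j + L))
    (ε : ℝ) (hε : 0 < ε) :
    CountB ((∏ j, g j) * ∏ i, h i) (∑ j, n j + L)
      (2 / ((L : ℝ) + 2 * w - (univ.filter fun j => n j = 2).card) + ε) := by
  classical
  obtain ⟨Q, hQ⟩ : ∃ Q : Finset (Fin w), Q = univ.filter fun j => n j = 2 := ⟨_, rfl⟩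
  rw [← hQ]
  let F : Fin w ⊕ Fin L → ℤ[X] := Sum.elim g h
  let d : Fin w ⊕ Fin L → ℕ := Sum.elim n (fun _ => 1)
  have hF : ∏ k, F k = (∏ j, g j) * ∏ i, h i := by
    rw [Fintype.prod_sum_type]
    rfl
  have hdd : ∑ k, d k = ∑ j, n j + L := by
    rw [Fintype.sum_sum_type]
    simp [d]
  have hdF : ∀ k, (F k).natDegree ≤ d k := by
    rintro (j | i)
    · exact hg j
    · exact hh i
  have hsq' : Sqf (∏ k, F k) (∑ k, d k) := by rw [hF, hdd]; exact hsq
  obtain ⟨D, hD⟩ : ∃ D : ℝ, D = (L : ℝ) + 2 * w - Q.card := ⟨_, rfl⟩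
  have hLr : (3 : ℝ) ≤ L := by exact_mod_cast hL
  have hQw : (Q.card : ℝ) ≤ w := by
    have h1 := Q.card_le_univ
    rw [Fintype.card_fin] at h1
    exact_mod_cast h1
  have hw0 : (0 : ℝ) ≤ w := Nat.cast_nonneg w
  have hDL : (L : ℝ) ≤ D := by rw [hD]; linarith
  have hD0 : 0 < D := by linarith
  rw [← hD]
  obtain ⟨e, he⟩ : ∃ e : ℝ, e = 2 / D := ⟨_, rfl⟩
  have he0 : 0 < e := by rw [he]; positivity
  have heD : e * D = 2 := by rw [he]; field_simp
  rw [← he]
  let Lin : Finset (Fin w ⊕ Fin L) := univ.image Sum.inr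
  have hLin : Lin.card = (L - 3) + 3 := by
    rw [card_image_of_injective _ Sum.inr_injective, card_univ, Fintype.card_fin]
    omega
  let β := Option {J : Finset (Fin w ⊕ Fin L) // 3 ≤ ∑ k ∈ J, d k}
  let B : β → Finset (Fin w ⊕ Fin L) := fun b => b.elim Lin fun J => J.1
  have hL2 : e * L / 2 ≤ 1 := by nlinarith
  have heL : e ≤ e * L / 2 := by nlinarith
  rw [← hF, ← hdd]
  refine blocksG (β := β) F d hdF hsq' B (fun b => b.elim (2 / (((L - 3 : ℕ) : ℝ) + 3) + ε)
    fun _ => 1 + ε) (fun b => b.elim (e * L / 2) fun _ => e) ?_ ?_ ?_ (e + ε) ?_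
  · rintro (_ | J)
    · refine lin_count F d Lin (L - 3) hLin ?_ ?_ hε
      · intro k hk
        obtain ⟨i, -, rfl⟩ := mem_image.1 hk
        exact ⟨hh i, rfl⟩
      · intro k hk l hl hkl
        obtain ⟨i, -, rfl⟩ := mem_image.1 hk
        obtain ⟨j, -, rfl⟩ := mem_image.1 hl
        have hij : i ≠ j := fun h' => hkl (by rw [h'])
        refine lin_res _ _ (hh i) (hh j) ?_
        have h1 : (∏ k ∈ ({Sum.inr i, Sum.inr j} : Finset (Fin w ⊕ Fin L)), F k) *
            (∏ k ∈ ({Sum.inr i, Sum.inr j} : Finset (Fin w ⊕ Fin L))ᶜ, F k) = ∏ k, F k :=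
          prod_mul_prod_compl _ F
        have h2 : (∑ k ∈ ({Sum.inr i, Sum.inr j} : Finset (Fin w ⊕ Fin L)), d k) +
            (∑ k ∈ ({Sum.inr i, Sum.inr j} : Finset (Fin w ⊕ Fin L))ᶜ, d k) = ∑ k, d k :=
          sum_add_sum_compl _ d
        have hp := fun (K : Finset (Fin w ⊕ Fin L)) (a b : ℤ) =>
          hom_prod K F d (fun i _ => hdF i) a b
        have h3 := Pool.Agent.W290.VC.t_RES _ _ _ _
          (hp {Sum.inr i, Sum.inr j} 0 0).1 (hp ({Sum.inr i, Sum.inr j} : Finset _)ᶜ 0 0).1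
          (by rw [h1, h2]; exact hsq')
        have h4 := h3.1
        rw [prod_pair hkl, sum_pair hkl] at h4
        exact h4
    · exact blk_tm F d hdF hsq' J.1 J.2 hε
  · rintro (_ | J)
    · show 0 ≤ e * L / 2
      positivity
    · exact he0.le
  · intro x hx hs
    by_contra hcon
    push Not at hcon
    have hJ : ∀ J : Finset (Fin w ⊕ Fin L), 3 ≤ ∑ k ∈ J, d k → e < ∑ k ∈ J, x k := fun J hJ =>
      hcon (some ⟨J, hJ⟩)
    have hlin : e * L / 2 < ∑ i, x (Sum.inr i) := by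
      have h1 : e * L / 2 < ∑ k ∈ Lin, x k := hcon none
      rwa [sum_image (fun a _ b _ hab => Sum.inr_injective hab)] at h1
    refine cov L w hL Q x hx hs e he0 (by rw [← hD]; exact heD) hlin ?_ ?_ ?_
    · intro k hk
      have h1 := hJ {Sum.inl k} (by
        rw [sum_singleton]
        show 3 ≤ n k
        have h2 := hn k
        have h3 : n k ≠ 2 := fun h4 => hk (by rw [hQ]; exact mem_filter.2 ⟨mem_univ _, h4⟩)
        omega)
      rwa [sum_singleton] at h1
    · intro i hi j hj hij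
      have hij' : (Sum.inl i : Fin w ⊕ Fin L) ≠ Sum.inl j := fun h' => hij (Sum.inl_injective h')
      have h1 := hJ {Sum.inl i, Sum.inl j} (by
        rw [sum_pair hij']
        show 3 ≤ n i + n j
        have h2 := hn i
        have h3 := hn j
        omega)
      rwa [sum_pair hij'] at h1
    · intro i hi j
      have hij' : (Sum.inl i : Fin w ⊕ Fin L) ≠ Sum.inr j := by simp
      have h1 := hJ {Sum.inl i, Sum.inr j} (by
        rw [sum_pair hij']
        show 3 ≤ n i + 1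
        have h2 := hn i
        omega)
      rwa [sum_pair hij'] at h1
  · rintro (_ | J)
    · show e * L / 2 * (2 / (((L - 3 : ℕ) : ℝ) + 3) + ε) ≤ e + ε
      have h1 : (((L - 3 : ℕ) : ℝ) + 3) = L := by
        rw [Nat.cast_sub hL]
        push_cast
        ring
      rw [h1, mul_add]
      have h2 : e * L / 2 * (2 / (L : ℝ)) = e := by
        have : (L : ℝ) ≠ 0 := by linarith
        field_simp
      rw [h2]
      have h3 : e * L / 2 * ε ≤ 1 * ε := mul_le_mul_of_nonneg_right hL2 hε.le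
      linarith
    · show e * (1 + ε) ≤ e + ε
      have h3 : e * ε ≤ 1 * ε := mul_le_mul_of_nonneg_right (heL.trans hL2) hε.le
      linarith

end Pool.Agent.Q10.KT
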