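import Pool.Agent.Q10.KT3
import Pool.Agent.Q10.KT5

/-!
Kubert's families: the counts
-/

set_option autoImplicit false

namespace Pool.Agent.Q10.KT

open Finset Polynomial Pool.Agent.TH498.HF Pool.Agent.TH498.KB Pool.Agent.W4.CF Pool.Agent.W4.VC

theorem famB_cnt (A B : ℤ[X]) (k m : ℕ) (f : Fin m → ℤ[X]) (n : Fin m → ℕ)
    (hF : FamB A B k m f n) (w L : ℕ) (hL : 3 ≤ L) (g : Fin w → ℤ[X]) (n' : Fin w → ℕ)
    (hg : ∀ j, (g j).natDegree ≤ n' j) (hn : ∀ j, 2 ≤ n' j) (h : Fin L → ℤ[X])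
    (hh : ∀ i, (h i).natDegree ≤ 1) (e1 : ∏ i, f i = (∏ j, g j) * ∏ i, h i)
    (e2 : ∑ i, n i = ∑ j, n' j + L) (E : ℝ)
    (hE : 2 / ((L : ℝ) + 2 * w - (univ.filter fun j => n' j = 2).card) = E) (ε : ℝ) (hε : 0 < ε) :
    CountB (∏ i, f i) (∑ i, n i) (E + ε) := by
  have hle : (∏ i, f i).natDegree ≤ ∑ i, n i :=
    (natDegree_prod_le _ _).trans (Finset.sum_le_sum fun i _ => hF.hn i)
  have hsq : Sqf (∏ i, f i) (∑ i, n i) := ⟨hF.hsq, hle, hF.hdeg⟩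
  rw [← hE, e1, e2]
  rw [e1, e2] at hsq
  exact form_up w L hL g n' hg hn h hh hsq ε hε

theorem cnt_z5 (ε : ℝ) (hε : 0 < ε) : CountB (∏ i, f_z5 i) (∑ i, n_z5 i) (1 + ε) := by
  have hle : (∏ i, f_z5 i).natDegree ≤ ∑ i, n_z5 i :=
    (natDegree_prod_le _ _).trans (Finset.sum_le_sum fun i _ => famB_z5.hn i)
  exact tm_count _ _ ⟨famB_z5.hsq, hle, famB_z5.hdeg⟩ (by decide) hε

theorem cnt_z7 (ε : ℝ) (hε : 0 < ε) : CountB (∏ i, f_z7 i) (∑ i, n_z7 i) (2 / 5 + ε) := by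
  refine famB_cnt _ _ _ _ _ _ famB_z7 1 3 le_rfl ![X ^ 3 - 8 * X ^ 2 + 5 * X + 1] ![3]
    ?_ ?_ ![X, X - 1, 1] ?_ ?_ (by decide) _ ?_ ε hε
  · intro j; fin_cases j; simp; compute_degree
  · intro j; fin_cases j; simp
  · intro i; fin_cases i <;> simp <;> compute_degree
  · simp [f_z7, Fin.prod_univ_succ]; ring
  · have : (univ.filter fun j : Fin 1 => (![3] : Fin 1 → ℕ) j = 2).card = 0 := by decide
    rw [this]; norm_num

theorem cnt_z8 (ε : ℝ) (hε : 0 < ε) : CountB (∏ i, f_z8 i) (∑ i, n_z8 i) (2 / 5 + ε) := by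
  refine famB_cnt _ _ _ _ _ _ famB_z8 1 4 (by norm_num) ![8 * X ^ 2 - 8 * X + 1] ![2]
    ?_ ?_ ![X, X - 1, 2 * X - 1, 1] ?_ ?_ (by decide) _ ?_ ε hε
  · intro j; fin_cases j <;> simp <;> compute_degree
  · intro j; fin_cases j <;> simp
  · intro i; fin_cases i <;> simp <;> compute_degree
  · simp [f_z8, Fin.prod_univ_succ]; ring
  · have : (univ.filter fun j : Fin 1 => (![2] : Fin 1 → ℕ) j = 2).card = 1 := by decide
    rw [this]; norm_num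

theorem cnt_z9 (ε : ℝ) (hε : 0 < ε) : CountB (∏ i, f_z9 i) (∑ i, n_z9 i) (1 / 3 + ε) := by
  refine famB_cnt _ _ _ _ _ _ famB_z9 2 3 (by norm_num) ![X ^ 2 - X + 1, X ^ 3 - 6 * X ^ 2 + 3 * X + 1] ![2, 3]
    ?_ ?_ ![X, X - 1, 1] ?_ ?_ (by decide) _ ?_ ε hε
  · intro j; fin_cases j <;> simp <;> compute_degree
  · intro j; fin_cases j <;> simp
  · intro i; fin_cases i <;> simp <;> compute_degree
  · simp [f_z9, Fin.prod_univ_succ]; ring
  · have : (univ.filter fun j : Fin 2 => (![2, 3] : Fin 2 → ℕ) j = 2).card = 1 := by decide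
    rw [this]; norm_num

theorem cnt_z10 (ε : ℝ) (hε : 0 < ε) : CountB (∏ i, f_z10 i) (∑ i, n_z10 i) (1 / 3 + ε) := by
  refine famB_cnt _ _ _ _ _ _ famB_z10 2 4 (by norm_num) ![X ^ 2 - 3 * X + 1, 4 * X ^ 2 - 2 * X - 1] ![2, 2]
    ?_ ?_ ![X, X - 1, 2 * X - 1, 1] ?_ ?_ (by decide) _ ?_ ε hε
  · intro j; fin_cases j <;> simp <;> compute_degree
  · intro j; fin_cases j <;> simp
  · intro i; fin_cases i <;> simp <;> compute_degree
  · simp [f_z10, Fin.prod_univ_succ]; ring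
  · have : (univ.filter fun j : Fin 2 => (![2, 2] : Fin 2 → ℕ) j = 2).card = 2 := by decide
    rw [this]; norm_num

theorem cnt_z12 (ε : ℝ) (hε : 0 < ε) : CountB (∏ i, f_z12 i) (∑ i, n_z12 i) (2 / 7 + ε) := by
  refine famB_cnt _ _ _ _ _ _ famB_z12 3 4 (by norm_num) ![2 * X ^ 2 - 2 * X + 1, 3 * X ^ 2 - 3 * X + 1, 6 * X ^ 2 - 6 * X + 1] ![2, 2, 2]
    ?_ ?_ ![X, X - 1, 2 * X - 1, 1] ?_ ?_ (by decide) _ ?_ ε hε
  · intro j; fin_cases j <;> simp <;> compute_degree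
  · intro j; fin_cases j <;> simp
  · intro i; fin_cases i <;> simp <;> compute_degree
  · simp [f_z12, Fin.prod_univ_succ]; ring
  · have : (univ.filter fun j : Fin 3 => (![2, 2, 2] : Fin 3 → ℕ) j = 2).card = 3 := by decide
    rw [this]; norm_num

theorem cnt_z2x8 (ε : ℝ) (hε : 0 < ε) : CountB (∏ i, f_z2x8 i) (∑ i, n_z2x8 i) (2 / 7 + ε) := by
  refine famB_cnt _ _ _ _ _ _ famB_z2x8 3 4 (by norm_num) ![2 * X ^ 2 - 1, 2 * X ^ 2 + 2 * X + 1, 2 * X ^ 2 + 4 * X + 1] ![2, 2, 2]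
    ?_ ?_ ![X, X + 1, 2 * X + 1, 1] ?_ ?_ (by decide) _ ?_ ε hε
  · intro j; fin_cases j <;> simp <;> compute_degree
  · intro j; fin_cases j <;> simp
  · intro i; fin_cases i <;> simp <;> compute_degree
  · simp [f_z2x8, Fin.prod_univ_succ]; ring
  · have : (univ.filter fun j : Fin 3 => (![2, 2, 2] : Fin 3 → ℕ) j = 2).card = 3 := by decide
    rw [this]; norm_num

end Pool.Agent.Q10.KT
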