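import Pool.Agent.W462.QD.CntQ
import Pool.Agent.W4.CF.Htq
import Pool.Agent.Q10.KT5

/-!
The truncated counting function of the zeros of a form at the rational points: upper and lower
bounds for the number of the points by the value of the counting function
-/

set_option autoImplicit false

namespace Pool.Agent.Q10.KV

open NumberField IsDedekindDomain Finset Polynomial Pool.Agent.W4.CF Pool.Agent.W4.VC
open Pool.Agent.H691R3 Pool.Agent.Q10.KT

variable {K : Type} [Field K] [NumberField K]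

theorem deg_pos : (0 : ℝ) < Module.finrank ℚ K := by exact_mod_cast Module.finrank_pos

theorem hr_eq (x : K) : hr (aff x) = (Module.finrank ℚ K : ℝ) * heightK x := by
  have hd : (0 : ℝ) < Module.finrank ℚ K := deg_pos
  unfold heightK
  rw [mul_div_cancel₀ _ hd.ne']
  rfl

/-- the counting function is at most `q` times the height -/
theorem countingK_le (T : Set (HeightOneSpectrum (𝓞 K))) {q : ℕ} (α : Fin q → K × K)
    (hα0 : ∀ i, α i ≠ 0) : ∃ C : ℝ, 0 ≤ C ∧ ∀ x : K,
      (∀ l, x * (α l).2 - 1 * (α l).1 ≠ 0) → countingK T α x ≤ q * heightK x + C := by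
  classical
  have hd : (0 : ℝ) < Module.finrank ℚ K := deg_pos
  refine ⟨|∑ l, (hr (α l) + lossK K)| / (Module.finrank ℚ K : ℝ), by positivity,
    fun x hx => ?_⟩
  have hfin := fun l => lamF_support_finite (Pool.Agent.W240.CD.pz_ne x) (hα0 l) (hx l)
  set F : Finset (HeightOneSpectrum (𝓞 K)) := univ.biUnion fun l => (hfin l).toFinset with hF
  have hsupp : Function.support (Set.indicator Tᶜ (Pool.Agent.W462.QD.gt α x)) ⊆ (F : Set _) := by
    intro w hw
    rw [Function.mem_support] at hw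
    rw [hF, Finset.coe_biUnion, Set.mem_iUnion]
    by_contra hc
    push Not at hc
    apply hw
    have h0 : Pool.Agent.W462.QD.gt α x w = 0 := by
      unfold Pool.Agent.W462.QD.gt
      refine Finset.sum_eq_zero fun l _ => ?_
      have h1 : lamA (fv w) (x, 1) (α l) = 0 := by
        by_contra h2
        apply hc l
        simp only [Finset.coe_univ, Set.mem_univ, Set.iUnion_true, Set.Finite.coe_toFinset,
          Set.mem_ofPred_eq]
        exact h2
      rw [h1, zero_div]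
      exact min_eq_left (div_nonneg (log_Nv_pos w).le hd.le)
    by_cases hT : w ∈ Tᶜ
    · rw [Set.indicator_of_mem hT, h0]
    · rw [Set.indicator_of_notMem hT]
  rw [Pool.Agent.W462.QD.count_eq, finsum_eq_sum_of_support_subset _ hsupp]
  have h1 : ∀ w ∈ F, Set.indicator Tᶜ (Pool.Agent.W462.QD.gt α x) w ≤
      ∑ l, lamA (fv w) (x, 1) (α l) / (Module.finrank ℚ K : ℝ) := by
    intro w _
    have h0 : Pool.Agent.W462.QD.gt α x w ≤
        ∑ l, lamA (fv w) (x, 1) (α l) / (Module.finrank ℚ K : ℝ) := by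
      unfold Pool.Agent.W462.QD.gt
      exact Finset.sum_le_sum fun l _ => min_le_left _ _
    by_cases hT : w ∈ Tᶜ
    · rw [Set.indicator_of_mem hT]
      exact h0
    · rw [Set.indicator_of_notMem hT]
      exact (Pool.Agent.W462.QD.gt_nonneg hα0 hx w).trans h0
  refine (Finset.sum_le_sum h1).trans ?_
  rw [Finset.sum_comm]
  have h2 : ∀ l, ∑ w ∈ F, lamA (fv w) (x, 1) (α l) / (Module.finrank ℚ K : ℝ) ≤
      heightK x + (hr (α l) + lossK K) / (Module.finrank ℚ K : ℝ) := by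
    intro l
    rw [← Finset.sum_div]
    have h3 := sum_lam_le (Pool.Agent.W240.CD.pz_ne x) (hα0 l) (hx l)
      (F.map ⟨Sum.inr, Sum.inr_injective⟩)
    rw [Finset.sum_map] at h3
    have h4 : hr ((x, 1) : K × K) = (Module.finrank ℚ K : ℝ) * heightK x := hr_eq x
    rw [h4] at h3
    rw [div_le_iff₀ hd]
    have h5 : (heightK x + (hr (α l) + lossK K) / (Module.finrank ℚ K : ℝ)) *
        (Module.finrank ℚ K : ℝ) = (Module.finrank ℚ K : ℝ) * heightK x + hr (α l) + lossK K := by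
      field_simp
      ring
    rw [h5]
    exact h3
  refine (Finset.sum_le_sum fun l _ => h2 l).trans ?_
  rw [Finset.sum_add_distrib, Finset.sum_const, Finset.card_univ, Fintype.card_fin, nsmul_eq_mul,
    ← Finset.sum_div]
  gcongr
  exact le_abs_self _

/-- the rational points with a small counting function -/
def Pts (T : Set (HeightOneSpectrum (𝓞 K))) {q : ℕ} (α : Fin q → K × K) (X : ℝ) : Set ℚ :=
  {x : ℚ | (∀ l, (x : K) * (α l).2 - 1 * (α l).1 ≠ 0) ∧ countingK T α (x : K) ≤ Real.log X}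

theorem num_inj : Function.Injective (fun x : ℚ => ((x.num, (x.den : ℤ)) : ℤ × ℤ)) := by
  intro x y h
  have h1 : x.num = y.num := congrArg Prod.fst h
  have h2 : (x.den : ℤ) = (y.den : ℤ) := congrArg Prod.snd h
  exact Rat.ext h1 (by exact_mod_cast h2)

theorem height_rat (x : ℚ) : heightK (x : K) = Real.log (max |(x.num : ℝ)| |((x.den : ℤ) : ℝ)|) := by
  have hxeq : (x : K) = ((x.num : ℤ) : K) / (((x.den : ℤ)) : K) := by
    push_cast
    exact (Rat.cast_def x)
  rw [hxeq]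
  refine t_HTQ K _ _ ?_ (by exact_mod_cast x.den_nz)
  rw [Int.isCoprime_iff_gcd_eq_one]
  exact x.reduced

theorem rat_radp (T : Set (HeightOneSpectrum (𝓞 K))) (hT : T.Finite) {q : ℕ}
    (α : Fin q → K × K) (hα0 : ∀ i, α i ≠ 0)
    (hα : ∀ i j, i ≠ j → (α i).1 * (α j).2 - (α i).2 * (α j).1 ≠ 0) (f : ℤ[X]) (hf0 : f ≠ 0)
    (hfq : f.natDegree ≤ q)
    (hF : ∀ i, ∑ j ∈ range (q + 1), (f.coeff j : K) * (α i).1 ^ j * (α i).2 ^ (q - j) = 0) :
    ∃ m : ℕ, 1 ≤ m ∧ ∀ X : ℝ, 1 ≤ X → ∀ x ∈ Pts T α X, IsCoprime x.num (x.den : ℤ) ∧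
      hom f q x.num (x.den : ℤ) ≠ 0 ∧ (radp m (hom f q x.num (x.den : ℤ)).natAbs : ℝ) ≤ X := by
  classical
  obtain ⟨m, hm, hcnt⟩ := Pool.Agent.W462.QD.t_CNTQ K T hT q α hα0 hα f hf0 hfq hF
  refine ⟨m, hm, ?_⟩
  -- the form vanishes only at the points
  have hzero : ∀ x : ℚ, (∀ l, (x : K) * (α l).2 - 1 * (α l).1 ≠ 0) →
      hom f q x.num (x.den : ℤ) ≠ 0 := by
    intro x hx h0
    have hinjK : Function.Injective (Int.castRingHom K) := Int.cast_injective
    obtain ⟨c, hc, hfac⟩ := Pool.Agent.W462.QD.fac α hα0 hα (f.map (Int.castRingHom K))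
      ((Polynomial.map_ne_zero_iff hinjK).mpr hf0)
      ((natDegree_map_le).trans hfq) (by
        intro i
        have := hF i
        unfold Pool.Agent.W462.QD.hK
        simpa [coeff_map] using this)
    have h1 := hfac (x.num : K) (x.den : K)
    have h4 : Pool.Agent.W462.QD.hK (f.map (Int.castRingHom K)) q (x.num : K) (x.den : K) = 0 := by
      have h5 : ((hom f q x.num (x.den : ℤ) : ℤ) : K) = 0 := by rw [h0]; exact Int.cast_zero
      unfold hom at h5
      unfold Pool.Agent.W462.QD.hK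
      push_cast at h5
      simpa [coeff_map] using h5
    rw [h4] at h1
    rcases mul_eq_zero.mp h1.symm with h6 | h6
    · exact hc h6
    · obtain ⟨l, -, hl⟩ := prod_eq_zero_iff.mp h6
      apply hx l
      have hd : (x.den : K) ≠ 0 := by exact_mod_cast x.den_nz
      have e : (x : K) = (x.num : K) / (x.den : K) := Rat.cast_def x
      rw [e]
      have : (x.num : K) / (x.den : K) * (α l).2 - 1 * (α l).1 =
          ((x.num : K) * (α l).2 - (x.den : K) * (α l).1) / (x.den : K) := by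
        field_simp
      rw [this, hl, zero_div]
  rintro X hX x ⟨hx1, hx2⟩
  have hcop : IsCoprime x.num (x.den : ℤ) := by
    rw [Int.isCoprime_iff_gcd_eq_one]
    exact x.reduced
  have hden : (x.den : ℤ) ≠ 0 := by exact_mod_cast x.den_nz
  have hxeq : (x : K) = ((x.num : ℤ) : K) / (((x.den : ℤ)) : K) := by
    push_cast
    exact (Rat.cast_def x)
  have hhom0 := hzero x hx1
  refine ⟨hcop, hhom0, ?_⟩
  have h1 := hcnt x.num (x.den : ℤ) hcop hden hhom0
  rw [← hxeq] at h1
  have h4 : Real.log (radp m (hom f q x.num (x.den : ℤ)).natAbs : ℝ) ≤ Real.log X := by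
    unfold radp
    rw [Nat.cast_prod, Real.log_prod (fun p hp => by
      have := (Nat.prime_of_mem_primeFactors (mem_filter.mp hp).1).ne_zero
      exact_mod_cast this)]
    exact h1.trans hx2
  have hrad0 : (0 : ℝ) < (radp m (hom f q x.num (x.den : ℤ)).natAbs : ℝ) := by
    have : 0 < radp m (hom f q x.num (x.den : ℤ)).natAbs := by
      unfold radp
      exact Finset.prod_pos fun p hp => (Nat.prime_of_mem_primeFactors (mem_filter.mp hp).1).pos
    exact_mod_cast this
  exact (Real.log_le_log_iff hrad0 (by linarith)).mp h4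

/-- many points -/
theorem many (T : Set (HeightOneSpectrum (𝓞 K))) {q : ℕ} (hq : 1 ≤ q)
    (α : Fin q → K × K) (hα0 : ∀ i, α i ≠ 0) :
    ∃ c : ℝ, 0 < c ∧ ∃ X₀ : ℝ, 1 ≤ X₀ ∧ ∀ X : ℝ, X₀ ≤ X → ∀ S : Set ℚ, S.Finite →
      (∀ x ∈ Pts T α X, heightK (x : K) ≤ Real.log X / q → x ∈ S) →
      c * X ^ (2 / (q : ℝ)) ≤ S.ncard := by
  classical
  obtain ⟨C, hC, hup⟩ := countingK_le T α hα0
  have hq0 : (0 : ℝ) < q := by exact_mod_cast hq
  obtain ⟨u, hu⟩ : ∃ u : ℝ, u = Real.exp (C / q) := ⟨_, rfl⟩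
  have hu1 : 1 ≤ u := by rw [hu]; exact Real.one_le_exp (by positivity)
  have hu0 : 0 < u := by linarith
  refine ⟨1 / (32 * u ^ 2), by positivity, (u * (8 * q)) ^ q, ?_, fun X hX S hS hmem => ?_⟩
  · refine one_le_pow₀ ?_
    have : (1 : ℝ) ≤ 8 * q := by
      have : (1 : ℝ) ≤ q := by exact_mod_cast hq
      linarith
    exact one_le_mul_of_one_le_of_one_le hu1 this
  have hX0 : 0 < X := lt_of_lt_of_le (by positivity) hX
  obtain ⟨Y, hY⟩ : ∃ Y : ℝ, Y = X ^ (1 / (q : ℝ)) := ⟨_, rfl⟩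
  have hY0 : 0 < Y := by rw [hY]; positivity
  have hYu : u * (8 * q) ≤ Y := by
    rw [hY]
    have h1 := Real.rpow_le_rpow (by positivity) hX (by positivity : 0 ≤ 1 / (q : ℝ))
    rw [← Real.rpow_natCast, ← Real.rpow_mul (by positivity), mul_one_div_cancel hq0.ne',
      Real.rpow_one] at h1
    exact h1
  obtain ⟨H, hH⟩ : ∃ H : ℕ, H = ⌊Y / u⌋₊ := ⟨_, rfl⟩
  have hH1 : (H : ℝ) ≤ Y / u := by rw [hH]; exact Nat.floor_le (by positivity)
  have hH2 : Y / u < H + 1 := by rw [hH]; exact Nat.lt_floor_add_one _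
  have hYq : 8 * (q : ℝ) ≤ Y / u := by rw [le_div_iff₀ hu0]; linarith
  have hq1 : (1 : ℝ) ≤ q := by exact_mod_cast hq
  -- the points
  let φ : ℕ × ℕ → ℚ := fun p => (p.1 : ℚ) / (p.2 : ℚ)
  have hφ : ∀ p ∈ Pool.Agent.TH498.HF.cpr H, (φ p).num = (p.1 : ℤ) ∧ ((φ p).den : ℤ) = (p.2 : ℤ) := by
    intro p hp
    obtain ⟨h1, h2⟩ := mem_filter.mp hp
    have h3 := (mem_Ioc.mp (mem_product.mp h1).2).1
    have e : φ p = ((p.1 : ℤ) : ℚ) / ((p.2 : ℤ) : ℚ) := by simp [φ]
    rw [e]
    have hc : Nat.Coprime (p.1 : ℤ).natAbs (p.2 : ℤ).natAbs := by simpa using h2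
    exact ⟨Rat.num_div_eq_of_coprime (by exact_mod_cast h3) hc,
      Rat.den_div_eq_of_coprime (by exact_mod_cast h3) hc⟩
  have hinj : Set.InjOn φ (Pool.Agent.TH498.HF.cpr H) := by
    intro p hp p' hp' h
    obtain ⟨h1, h2⟩ := hφ p hp
    obtain ⟨h1', h2'⟩ := hφ p' hp'
    ext
    · have : (p.1 : ℤ) = p'.1 := by rw [← h1, ← h1', h]
      exact_mod_cast this
    · have : (p.2 : ℤ) = p'.2 := by rw [← h2, ← h2', h]
      exact_mod_cast this
  set G := (Pool.Agent.TH498.HF.cpr H).filter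
    (fun p => ∀ l, ((φ p : ℚ) : K) * (α l).2 - 1 * (α l).1 ≠ 0) with hG
  have hlost : ((Pool.Agent.TH498.HF.cpr H).filter
      (fun p => ¬ ∀ l, ((φ p : ℚ) : K) * (α l).2 - 1 * (α l).1 ≠ 0)).card ≤ q := by
    have hex : ∀ p : ℕ × ℕ, ∃ l : Fin q, (¬ ∀ l, ((φ p : ℚ) : K) * (α l).2 - 1 * (α l).1 ≠ 0) →
        ((φ p : ℚ) : K) * (α l).2 - 1 * (α l).1 = 0 := by
      intro p
      by_cases h : ∀ l, ((φ p : ℚ) : K) * (α l).2 - 1 * (α l).1 ≠ 0
      · exact ⟨⟨0, hq⟩, fun h' => absurd h h'⟩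
      · push Not at h
        obtain ⟨l, hl⟩ := h
        exact ⟨l, fun _ => hl⟩
    choose L hL using hex
    calc _ ≤ (univ : Finset (Fin q)).card := by
          refine card_le_card_of_injOn L (fun p _ => Finset.mem_coe.mpr (mem_univ _)) ?_
          intro p hp p' hp' h
          obtain ⟨hp1, hp2⟩ := mem_filter.mp (Finset.mem_coe.mp hp)
          obtain ⟨hp1', hp2'⟩ := mem_filter.mp (Finset.mem_coe.mp hp')
          have e1 := hL p hp2
          have e2 := hL p' hp2'
          rw [← h] at e2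
          have h2 : (α (L p)).2 ≠ 0 := by
            intro h0
            rw [h0, mul_zero, one_mul, zero_sub, neg_eq_zero] at e1
            exact hα0 (L p) (Prod.ext e1 h0)
          have h3 : ((φ p : ℚ) : K) = ((φ p' : ℚ) : K) := by
            have : (((φ p : ℚ) : K) - ((φ p' : ℚ) : K)) * (α (L p)).2 = 0 := by
              linear_combination e1 - e2
            rcases mul_eq_zero.mp this with h4 | h4
            · exact sub_eq_zero.mp h4
            · exact absurd h4 h2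
          exact hinj hp1 hp1' (Rat.cast_injective h3)
      _ = q := by simp
  have hcard : ((Pool.Agent.TH498.HF.cpr H).card : ℝ) ≤ G.card + q := by
    have h2 : (Pool.Agent.TH498.HF.cpr H).card = G.card +
        ((Pool.Agent.TH498.HF.cpr H).filter
          (fun p => ¬ ∀ l, ((φ p : ℚ) : K) * (α l).2 - 1 * (α l).1 ≠ 0)).card :=
      (card_filter_add_card_filter_not (s := Pool.Agent.TH498.HF.cpr H) _).symm
    have h3 : (Pool.Agent.TH498.HF.cpr H).card ≤ G.card + q := by omega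
    exact_mod_cast h3
  have hsub : ((G.image φ : Finset ℚ) : Set ℚ) ⊆ S := by
    intro x hx
    obtain ⟨p, hp, rfl⟩ := mem_image.mp (Finset.mem_coe.mp hx)
    obtain ⟨hp1, hp2⟩ := mem_filter.mp hp
    obtain ⟨h1, -⟩ := mem_filter.mp hp1
    obtain ⟨h5, h6⟩ := mem_product.mp h1
    obtain ⟨e1, e2⟩ := hφ p hp1
    have hh : heightK ((φ p : ℚ) : K) ≤ Real.log Y - C / q := by
      rw [height_rat, e1, e2]
      have h7 : max |(((p.1 : ℕ) : ℤ) : ℝ)| |(((p.2 : ℕ) : ℤ) : ℝ)| ≤ Y / u := by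
        refine max_le ?_ ?_
        · rw [Int.cast_natCast, abs_of_nonneg (Nat.cast_nonneg _)]
          refine le_trans ?_ hH1
          exact_mod_cast (mem_Ioc.mp h5).2
        · rw [Int.cast_natCast, abs_of_nonneg (Nat.cast_nonneg _)]
          refine le_trans ?_ hH1
          exact_mod_cast (mem_Ioc.mp h6).2
      have h8 : 0 < max |(((p.1 : ℕ) : ℤ) : ℝ)| |(((p.2 : ℕ) : ℤ) : ℝ)| := by
        refine lt_of_lt_of_le ?_ (le_max_right _ _)
        rw [Int.cast_natCast, abs_of_nonneg (Nat.cast_nonneg _)]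
        exact_mod_cast (mem_Ioc.mp h6).1
      refine (Real.log_le_log h8 h7).trans (le_of_eq ?_)
      rw [Real.log_div hY0.ne' hu0.ne', hu, Real.log_exp]
    have hlY : Real.log Y = Real.log X / q := by
      rw [hY, Real.log_rpow hX0]
      ring
    refine hmem _ ⟨hp2, ?_⟩ ?_
    · refine (hup _ hp2).trans ?_
      have h9 : (q : ℝ) * heightK ((φ p : ℚ) : K) ≤ q * (Real.log Y - C / q) :=
        mul_le_mul_of_nonneg_left hh hq0.le
      have h10 : (q : ℝ) * (Real.log Y - C / q) = Real.log X - C := by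
        rw [hlY]
        field_simp
      linarith
    · rw [← hlY]
      have : 0 ≤ C / q := by positivity
      linarith
  have hfinal : (G.card : ℝ) ≤ S.ncard := by
    have h1 : (G.image φ).card ≤ S.ncard := by
      rw [← Set.ncard_coe_finset]
      exact Set.ncard_le_ncard hsub hS
    rw [Finset.card_image_of_injOn (fun a ha b hb h => hinj (mem_filter.mp ha).1
      (mem_filter.mp hb).1 h)] at h1
    exact_mod_cast h1
  refine le_trans ?_ hfinal
  have h0 := Pool.Agent.TH498.HF.cpr_card H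
  have hYY : X ^ (2 / (q : ℝ)) = Y ^ 2 := by
    rw [hY, ← Real.rpow_natCast (X ^ (1 / (q : ℝ))) 2, ← Real.rpow_mul hX0.le]
    congr 1
    push_cast
    ring
  rw [hYY]
  have e5 : 1 / (32 * u ^ 2) * Y ^ 2 = (Y / u) ^ 2 / 32 := by field_simp
  rw [e5]
  have hZ : 7 / 8 * (Y / u) ≤ H := by
    have : 1 ≤ (1 / 8) * (Y / u) := by linarith
    linarith
  have hZ2 : (7 / 8 * (Y / u)) ^ 2 ≤ (H : ℝ) ^ 2 := pow_le_pow_left₀ (by positivity) hZ 2
  have hZ3 : (q : ℝ) ≤ (Y / u) ^ 2 / 64 := by nlinarith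
  nlinarith

theorem fin_of_cards {α : Type} (S : Set α) (b : ℝ) (h : ∀ s : Finset α, (↑s : Set α) ⊆ S →
    (s.card : ℝ) ≤ b) : S.Finite ∧ (S.ncard : ℝ) ≤ b := by
  have hfin : S.Finite := by
    by_contra hinf
    obtain ⟨t, ht, hc⟩ := Set.Infinite.exists_subset_card_eq hinf (⌊b⌋₊ + 1)
    have h1 := h t ht
    rw [hc] at h1
    have h2 := Nat.lt_floor_add_one b
    push_cast at h1
    linarith
  refine ⟨hfin, ?_⟩
  rw [Set.ncard_eq_toFinset_card _ hfin]
  exact h _ (by simp)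

end Pool.Agent.Q10.KV
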