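import Pool.Agent.Q10.KT3
import Pool.Agent.TH498.KB.Tors
import Pool.Agent.H510R2.Div
import Pool.Agent.TH4.HS.Sqf

/-!
Twists of the members of a family of elliptic curves over the rationals whose singular fibres are
multiplicative and need not be rational: parameters and conductors (after `Y679.Kf`)
-/

set_option autoImplicit false

namespace Pool.Agent.Q10.KW

open Finset Polynomial
open Pool.Agent.TH498.KB (Mem MinS Cond bez hom_eval prim_of_minS)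
open Pool.Agent.W4.VC (hom)

/-- the discriminant form -/
def Ds (A B : ℤ[X]) (k : ℕ) (P : ℤ × ℤ) : ℤ :=
  4 * hom A (2 * k) P.1 P.2 ^ 3 - 27 * hom B (3 * k) P.1 P.2 ^ 2

/-- the data of a family; `V` is the form of the singular fibres -/
structure RG (A B : ℤ[X]) (k : ℕ) (V : ℤ × ℤ → ℤ) (c : ℤ) (j : ℕ) : Prop where
  hk : 1 ≤ k
  hA : A.natDegree ≤ 2 * k
  hB : B.natDegree ≤ 3 * k
  hlead : A.natDegree = 2 * k ∨ B.natDegree = 3 * k
  hcop : IsCoprime (A.map (Int.castRingHom ℚ)) (B.map (Int.castRingHom ℚ))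
  hc : c ≠ 0
  d1 : ∀ P : ℤ × ℤ, P.2 ≠ 0 → V P ∣ Ds A B k P
  d2 : ∀ P : ℤ × ℤ, P.2 ≠ 0 → Ds A B k P ∣ c * V P ^ j

/-- a point that is not a zero of the form -/
structure PtV (V : ℤ × ℤ → ℤ) (P : ℤ × ℤ) : Prop where
  cop : IsCoprime P.1 P.2
  ne : V P ≠ 0

/-- the absolute value of the form -/
def Vp (V : ℤ × ℤ → ℤ) (P : ℤ × ℤ) : ℕ := (V P).natAbs

/-- twists of the members of the family -/
def TwMem (A B : ℤ[X]) (a b : ℤ) : Prop :=
  ∃ t δ : ℚ, δ ≠ 0 ∧ (a : ℚ) = δ ^ 2 * (A.map (Int.castRingHom ℚ)).eval t ∧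
    (b : ℚ) = δ ^ 3 * (B.map (Int.castRingHom ℚ)).eval t

variable {A B : ℤ[X]} {k : ℕ} {V : ℤ × ℤ → ℤ} {c : ℤ} {j : ℕ}

theorem Vp_ne {P : ℤ × ℤ} (h : PtV V P) : Vp V P ≠ 0 := Int.natAbs_ne_zero.2 h.ne

theorem Ds_ne (h : RG A B k V c j) {P : ℤ × ℤ} (hP : P.2 ≠ 0) (hp : PtV V P) :
    Ds A B k P ≠ 0 := by
  intro h0
  have h1 := h.d2 P hP
  rw [h0, zero_dvd_iff] at h1
  exact mul_ne_zero h.hc (pow_ne_zero _ hp.ne) h1

theorem ne_of_Ds (h : RG A B k V c j) {P : ℤ × ℤ} (hP : P.2 ≠ 0) (hD : Ds A B k P ≠ 0) :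
    V P ≠ 0 := by
  intro h0
  have h1 := h.d1 P hP
  rw [h0, zero_dvd_iff] at h1
  exact hD h1

/-- the relation between a model, a point, and a twist -/
structure Rel (A B : ℤ[X]) (k : ℕ) (a b : ℤ) (P : ℤ × ℤ) (q s : ℤ) : Prop where
  h1 : a * s ^ 2 = q ^ 2 * hom A (2 * k) P.1 P.2
  h2 : b * s ^ 3 = q ^ 3 * hom B (3 * k) P.1 P.2

theorem Rel.disc {a b q s : ℤ} {P : ℤ × ℤ} (hr : Rel A B k a b P q s) :
    (4 * a ^ 3 - 27 * b ^ 2) * s ^ 6 = q ^ 6 * Ds A B k P := by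
  have e1 : (4 * a ^ 3 - 27 * b ^ 2) * s ^ 6 = 4 * (a * s ^ 2) ^ 3 - 27 * (b * s ^ 3) ^ 2 := by ring
  rw [e1, hr.h1, hr.h2]
  unfold Ds
  ring

/-- a common divisor of the two values divides `M` -/
def GcdM (A B : ℤ[X]) (k : ℕ) (M : ℕ) : Prop :=
  ∀ a b : ℤ, IsCoprime a b → ∀ d : ℤ, d ∣ hom A (2 * k) a b → d ∣ hom B (3 * k) a b → d ∣ (M : ℤ)

theorem gcdM_ex (h : RG A B k V c j) : ∃ M : ℕ, 1 ≤ M ∧ GcdM A B k M := by
  have hk := h.hk
  rcases h.hlead with h3 | h3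
  · obtain ⟨M, K, h1, -, h2⟩ := bez A B (2 * k) (3 * k) (by omega) (by omega) h.hA h.hB h.hcop (by
      rw [← h3]
      intro h0
      have h1 : A = 0 := leadingCoeff_eq_zero.mp h0
      rw [h1, natDegree_zero] at h3
      omega)
    exact ⟨M, h1, fun a b hab d hd1 hd2 => (h2 a b hab).1 d hd1 hd2⟩
  · obtain ⟨M, K, h1, -, h2⟩ := bez B A (3 * k) (2 * k) (by omega) (by omega) h.hB h.hA
      h.hcop.symm (by
        rw [← h3]
        intro h0
        have h1 : B = 0 := leadingCoeff_eq_zero.mp h0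
        rw [h1, natDegree_zero] at h3
        omega)
    exact ⟨M, h1, fun a b hab d hd1 hd2 => (h2 a b hab).1 d hd2 hd1⟩

/-- **the parameters of a minimal model** -/
theorem par (h : RG A B k V c j) {M : ℕ} (hM : GcdM A B k M) {a b : ℤ} (hmin : MinS a b)
    {t δ : ℚ} (hδ : δ ≠ 0) (ha : (a : ℚ) = δ ^ 2 * (A.map (Int.castRingHom ℚ)).eval t)
    (hb : (b : ℚ) = δ ^ 3 * (B.map (Int.castRingHom ℚ)).eval t) :
    PtV V (t.num, (t.den : ℤ)) ∧
    ((δ / (t.den : ℚ) ^ k).den : ℤ) ∣ M ∧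
    (δ / (t.den : ℚ) ^ k).num ≠ 0 ∧
    Squarefree (δ / (t.den : ℚ) ^ k).num ∧
    Rel A B k a b (t.num, (t.den : ℤ)) (δ / (t.den : ℚ) ^ k).num
      ((δ / (t.den : ℚ) ^ k).den : ℤ) := by
  obtain ⟨ρ, hρ⟩ : ∃ ρ : ℚ, ρ = δ / (t.den : ℚ) ^ k := ⟨_, rfl⟩
  rw [← hρ]
  have hn0 : (t.den : ℚ) ≠ 0 := by exact_mod_cast t.den_nz
  have hn0' : (((t.den : ℤ)) : ℚ) ≠ 0 := by exact_mod_cast t.den_nz
  have hρ0 : ρ ≠ 0 := by rw [hρ]; exact div_ne_zero hδ (pow_ne_zero _ hn0)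
  have hδρ : δ = ρ * (t.den : ℚ) ^ k := by
    rw [hρ, div_mul_cancel₀ _ (pow_ne_zero _ hn0)]
  obtain ⟨q, hq⟩ : ∃ q : ℤ, q = ρ.num := ⟨_, rfl⟩
  obtain ⟨s, hs⟩ : ∃ s : ℤ, s = (ρ.den : ℤ) := ⟨_, rfl⟩
  rw [← hq, ← hs]
  have hs0 : s ≠ 0 := by rw [hs]; exact_mod_cast ρ.den_nz
  have hsQ : (s : ℚ) ≠ 0 := by exact_mod_cast hs0
  have hq0 : q ≠ 0 := by rw [hq]; exact Rat.num_ne_zero.2 hρ0
  have hqs : ρ = (q : ℚ) / s := by
    rw [hq, hs]
    push_cast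
    exact (Rat.num_div_den ρ).symm
  have hcop : IsCoprime q s := by
    rw [hq, hs, Int.isCoprime_iff_gcd_eq_one]
    exact ρ.reduced
  have htt : ((t.num : ℤ) : ℚ) / ((t.den : ℤ) : ℚ) = t := by
    push_cast
    exact Rat.num_div_den t
  -- the relation
  have hrel : Rel A B k a b (t.num, (t.den : ℤ)) q s := by
    have eA := hom_eval A (2 * k) h.hA t.num (t.den : ℤ) hn0'
    have eB := hom_eval B (3 * k) h.hB t.num (t.den : ℤ) hn0'
    rw [htt] at eA eB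
    have p1 : (((t.den : ℤ)) : ℚ) ^ (2 * k) = ((t.den : ℚ) ^ k) ^ 2 := by
      push_cast; rw [← pow_mul]; congr 1; ring
    have p2 : (((t.den : ℤ)) : ℚ) ^ (3 * k) = ((t.den : ℚ) ^ k) ^ 3 := by
      push_cast; rw [← pow_mul]; congr 1; ring
    rw [p1] at eA
    rw [p2] at eB
    constructor
    · have : ((a * s ^ 2 : ℤ) : ℚ) = ((q ^ 2 * hom A (2 * k) t.num (t.den : ℤ) : ℤ) : ℚ) := by
        push_cast
        rw [eA, ha, hδρ, hqs]
        field_simp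
      exact_mod_cast this
    · have : ((b * s ^ 3 : ℤ) : ℚ) = ((q ^ 3 * hom B (3 * k) t.num (t.den : ℤ) : ℤ) : ℚ) := by
        push_cast
        rw [eB, hb, hδρ, hqs]
        field_simp
      exact_mod_cast this
  have hden0 : ((t.den : ℤ)) ≠ 0 := by exact_mod_cast t.den_nz
  have hcopt : IsCoprime t.num (t.den : ℤ) := by
    rw [Int.isCoprime_iff_gcd_eq_one]
    exact t.reduced
  have hd := hrel.disc
  have hne : Ds A B k (t.num, (t.den : ℤ)) ≠ 0 := by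
    intro h0
    rw [h0, mul_zero] at hd
    exact mul_ne_zero hmin.1 (pow_ne_zero _ hs0) hd
  refine ⟨⟨hcopt, ne_of_Ds h hden0 hne⟩, ?_, hq0, ?_, hrel⟩
  · -- the denominator
    have c1 : s ^ 2 ∣ hom A (2 * k) t.num (t.den : ℤ) := by
      have : s ^ 2 ∣ q ^ 2 * hom A (2 * k) t.num (t.den : ℤ) := ⟨a, by rw [← hrel.h1]; ring⟩
      exact (hcop.symm.pow).dvd_of_dvd_mul_left this
    have c2 : s ^ 3 ∣ hom B (3 * k) t.num (t.den : ℤ) := by
      have : s ^ 3 ∣ q ^ 3 * hom B (3 * k) t.num (t.den : ℤ) := ⟨b, by rw [← hrel.h2]; ring⟩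
      exact (hcop.symm.pow).dvd_of_dvd_mul_left this
    exact hM _ _ hcopt s ((dvd_pow_self s two_ne_zero).trans c1)
      ((dvd_pow_self s three_ne_zero).trans c2)
  · -- squarefree
    rw [Int.squarefree_natAbs.symm]
    rw [Nat.squarefree_iff_prime_squarefree]
    intro p hp hpp
    have hpq : ((p : ℤ)) ^ 2 ∣ q := by
      rw [← Int.dvd_natAbs]
      have : p * p ∣ q.natAbs := hpp
      have h3 : ((p * p : ℕ) : ℤ) ∣ (q.natAbs : ℤ) := Int.natCast_dvd_natCast.2 this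
      push_cast at h3 ⊢
      rw [pow_two]
      exact h3
    obtain ⟨q', hq'⟩ := hpq
    have hps : IsCoprime ((p : ℤ)) s := by
      refine hcop.of_isCoprime_of_dvd_left ?_
      rw [hq']
      exact (dvd_pow_self _ two_ne_zero).mul_right _
    have d1 : (p : ℤ) ^ 4 ∣ a := by
      have : (p : ℤ) ^ 4 ∣ a * s ^ 2 := by
        rw [hrel.h1, hq']
        exact ⟨q' ^ 2 * hom A (2 * k) t.num (t.den : ℤ), by ring⟩
      exact (hps.pow).dvd_of_dvd_mul_right this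
    have d2 : (p : ℤ) ^ 6 ∣ b := by
      have : (p : ℤ) ^ 6 ∣ b * s ^ 3 := by
        rw [hrel.h2, hq']
        exact ⟨q' ^ 3 * hom B (3 * k) t.num (t.den : ℤ), by ring⟩
      exact (hps.pow).dvd_of_dvd_mul_right this
    have d3 := prim_of_minS a b hmin (p : ℤ) d1 d2
    have d4 : (2 : ℤ) ≤ p := by exact_mod_cast hp.two_le
    rw [abs_of_nonneg (by positivity)] at d3
    push_cast at d3
    omega

/-- the parameters of a minimal model of a twist -/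
theorem par2 (h : RG A B k V c j) {M : ℕ} (hM : GcdM A B k M) {a b : ℤ} (hmin : MinS a b)
    (hmem : TwMem A B a b) : ∃ (P : ℤ × ℤ) (q s : ℤ), 0 < P.2 ∧ PtV V P ∧ 0 < s ∧ s ∣ M ∧ q ≠ 0 ∧
      Squarefree q.natAbs ∧ Rel A B k a b P q s := by
  obtain ⟨t, δ, hδ, ha, hb⟩ := hmem
  obtain ⟨h1, h2, h3, h4, h5⟩ := par h hM hmin hδ ha hb
  refine ⟨(t.num, (t.den : ℤ)), _, _, ?_, h1, ?_, h2, h3, ?_, h5⟩
  · simp only
    exact_mod_cast t.den_pos
  · exact_mod_cast Rat.den_pos _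
  · exact Int.squarefree_natAbs.2 h4

/-- the product of the primes dividing `n` -/
def rd (n : ℕ) : ℕ := ∏ p ∈ n.primeFactors, p

theorem rd_pos (n : ℕ) : 0 < rd n := Finset.prod_pos fun p hp => (Nat.prime_of_mem_primeFactors hp).pos

theorem rd_dvd (n : ℕ) : rd n ∣ n := Nat.prod_primeFactors_dvd n

theorem rd_le {n : ℕ} (hn : n ≠ 0) : rd n ≤ n := Nat.le_of_dvd (Nat.pos_of_ne_zero hn) (rd_dvd n)

/-- the weight -/
def Wt (V q : ℕ) : ℕ := ∏ p ∈ (q * V).primeFactors, if p ∣ q then p ^ 2 else p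

/-- the common primes -/
def gg (V q : ℕ) : ℕ := ∏ p ∈ q.primeFactors ∩ V.primeFactors, p

theorem gg_pos (V q : ℕ) : 0 < gg V q :=
  Finset.prod_pos fun p hp => (Nat.prime_of_mem_primeFactors (mem_inter.1 hp).1).pos

theorem gg_dvd_rd (V q : ℕ) : gg V q ∣ rd V :=
  Finset.prod_dvd_prod_of_subset _ _ _ Finset.inter_subset_right

theorem gg_dvd (V q : ℕ) : gg V q ∣ q :=
  (Finset.prod_dvd_prod_of_subset _ _ _ Finset.inter_subset_left).trans (rd_dvd q)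

theorem Wt_gg {V q : ℕ} (hV : V ≠ 0) (hq : Squarefree q) : Wt V q * gg V q = q ^ 2 * rd V := by
  have hq0 : q ≠ 0 := hq.ne_zero
  have e1 : q = ∏ p ∈ q.primeFactors, p := (Nat.prod_primeFactors_of_squarefree hq).symm
  have e2 : Wt V q = (∏ p ∈ q.primeFactors, p ^ 2) * ∏ p ∈ V.primeFactors \ q.primeFactors, p := by
    unfold Wt
    rw [Nat.primeFactors_mul hq0 hV, ← Finset.union_sdiff_self_eq_union,
      Finset.prod_union Finset.disjoint_sdiff]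
    congr 1
    · refine Finset.prod_congr rfl fun p hp => ?_
      rw [if_pos (Nat.dvd_of_mem_primeFactors hp)]
    · refine Finset.prod_congr rfl fun p hp => ?_
      obtain ⟨h1, h2⟩ := mem_sdiff.1 hp
      rw [if_neg]
      intro h3
      exact h2 (Nat.mem_primeFactors.2 ⟨Nat.prime_of_mem_primeFactors h1, h3, hq0⟩)
  have e3 : rd V = (∏ p ∈ V.primeFactors \ q.primeFactors, p) * gg V q := by
    unfold rd gg
    rw [← Finset.prod_sdiff (Finset.inter_subset_right (s₁ := q.primeFactors)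
      (s₂ := V.primeFactors))]
    congr 1
    refine Finset.prod_congr ?_ fun _ _ => rfl
    ext p
    simp only [mem_sdiff, mem_inter]
    tauto
  rw [e2, e3, Finset.prod_pow, ← e1]
  ring

theorem Wt_le {V q : ℕ} (hV : V ≠ 0) (hq : Squarefree q) : Wt V q ≤ q ^ 2 * rd V := by
  rw [← Wt_gg hV hq]
  exact Nat.le_mul_of_pos_right _ (gg_pos V q)

theorem rd_le_Wt {V q : ℕ} (hV : V ≠ 0) (hq : Squarefree q) : q * rd V ≤ Wt V q := by
  have h1 := Wt_gg hV hq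
  have h2 : gg V q ≤ q := Nat.le_of_dvd (Nat.pos_of_ne_zero hq.ne_zero) (gg_dvd V q)
  have h3 : q * (q * rd V) ≤ q * Wt V q := by
    calc q * (q * rd V) = q ^ 2 * rd V := by ring
      _ = Wt V q * gg V q := h1.symm
      _ ≤ Wt V q * q := Nat.mul_le_mul_left _ h2
      _ = q * Wt V q := by ring
  exact Nat.le_of_mul_le_mul_left h3 (Nat.pos_of_ne_zero hq.ne_zero)

/-- comparing two products of primes and squares of primes -/
theorem prod_cmp {M : ℕ} (hM : M ≠ 0) (S T : Finset ℕ) (f g : ℕ → ℕ)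
    (hS : ∀ p ∈ S, p.Prime ∧ f p ≤ p ^ 2) (hT : ∀ p ∈ T, 1 ≤ g p)
    (h : ∀ p ∈ S, ¬ p ∣ M → p ∈ T ∧ f p ≤ g p) : ∏ p ∈ S, f p ≤ M ^ 2 * ∏ p ∈ T, g p := by
  classical
  rw [← Finset.prod_filter_mul_prod_filter_not S (fun p => p ∣ M)]
  refine Nat.mul_le_mul ?_ ?_
  · calc ∏ p ∈ S.filter (fun p => p ∣ M), f p ≤ ∏ p ∈ S.filter (fun p => p ∣ M), p ^ 2 :=
        Finset.prod_le_prod' fun p hp => (hS p (mem_filter.1 hp).1).2
      _ = (∏ p ∈ S.filter (fun p => p ∣ M), p) ^ 2 := Finset.prod_pow _ _ _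
      _ ≤ M ^ 2 := by
        refine Nat.pow_le_pow_left (Nat.le_of_dvd (Nat.pos_of_ne_zero hM) ?_) 2
        exact Finset.prod_primes_dvd _ (fun p hp => (hS p (mem_filter.1 hp).1).1.prime)
          fun p hp => (mem_filter.1 hp).2
  · calc ∏ p ∈ S.filter (fun p => ¬ p ∣ M), f p ≤ ∏ p ∈ S.filter (fun p => ¬ p ∣ M), g p :=
        Finset.prod_le_prod' fun p hp => (h p (mem_filter.1 hp).1 (mem_filter.1 hp).2).2
      _ ≤ ∏ p ∈ T, g p := by
        refine Finset.prod_le_prod_of_subset_of_one_le' ?_ fun p hp _ => hT p hp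
        intro p hp
        exact (h p (mem_filter.1 hp).1 (mem_filter.1 hp).2).1

/-- the primes outside `M'` -/
theorem primes_rel (h : RG A B k V c j) {M : ℕ} (hM : GcdM A B k M)
    {a b q s : ℤ} {P : ℤ × ℤ} (hP : P.2 ≠ 0) (hpt : PtV V P) (hs : s ∣ M)
    (hr : Rel A B k a b P q s) {p : ℕ} (hp : p.Prime) (hpM : ¬ p ∣ 6 * M * c.natAbs) :
    ((p : ℤ) ∣ 4 * a ^ 3 - 27 * b ^ 2 ↔ p ∣ q.natAbs * Vp V P) ∧
    (p ∣ q.natAbs → (p : ℤ) ∣ a) ∧ (¬ p ∣ q.natAbs → p ∣ Vp V P → ¬ (p : ℤ) ∣ a) := by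
  have hpZ : Prime (p : ℤ) := Nat.prime_iff_prime_int.1 hp
  have hp6 : ¬ p ∣ 6 := fun h1 => hpM ((h1.mul_right _).mul_right _)
  have hpM1 : ¬ p ∣ M := fun h1 => hpM ((h1.mul_left _).mul_right _)
  have hpc : ¬ p ∣ c.natAbs := fun h1 => hpM (h1.mul_left _)
  have hpcZ : ¬ (p : ℤ) ∣ c := fun h1 => hpc (Int.natCast_dvd.1 h1)
  have hps : ¬ (p : ℤ) ∣ s := fun h1 => hpM1 (Int.natCast_dvd_natCast.1 (h1.trans hs))
  have hqZ : (p : ℤ) ∣ q ↔ p ∣ q.natAbs := Int.natCast_dvd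
  have hd := hr.disc
  have hVZ : p ∣ Vp V P ↔ (p : ℤ) ∣ V P := (Int.natCast_dvd).symm
  have hDs : (p : ℤ) ∣ Ds A B k P ↔ (p : ℤ) ∣ V P := by
    constructor
    · intro h1
      rcases hpZ.dvd_mul.1 (h1.trans (h.d2 P hP)) with h2 | h2
      · exact absurd h2 hpcZ
      · exact hpZ.dvd_of_dvd_pow h2
    · intro h1
      exact h1.trans (h.d1 P hP)
  refine ⟨?_, ?_, ?_⟩
  · constructor
    · intro h1
      have h2 : (p : ℤ) ∣ q ^ 6 * Ds A B k P := by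
        rw [← hd]; exact h1.mul_right _
      rcases hpZ.dvd_mul.1 h2 with h3 | h3
      · exact (hqZ.1 (hpZ.dvd_of_dvd_pow h3)).mul_right _
      · exact (hVZ.2 (hDs.1 h3)).mul_left _
    · intro h1
      have h2 : (p : ℤ) ∣ q ^ 6 * Ds A B k P := by
        rcases hp.dvd_mul.1 h1 with h3 | h3
        · exact (dvd_pow (hqZ.2 h3) (by norm_num)).mul_right _
        · exact (hDs.2 (hVZ.1 h3)).mul_left _
      rw [← hd] at h2
      rcases hpZ.dvd_mul.1 h2 with h3 | h3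
      · exact h3
      · exact absurd (hpZ.dvd_of_dvd_pow h3) hps
  · intro h1
    have h2 : (p : ℤ) ∣ a * s ^ 2 := by
      rw [hr.h1]
      exact (dvd_pow (hqZ.2 h1) (by norm_num)).mul_right _
    rcases hpZ.dvd_mul.1 h2 with h3 | h3
    · exact h3
    · exact absurd (hpZ.dvd_of_dvd_pow h3) hps
  · intro h1 h2 h3
    have h4 : (p : ℤ) ∣ q ^ 2 * hom A (2 * k) P.1 P.2 := by
      rw [← hr.h1]; exact h3.mul_right _
    have h5 : (p : ℤ) ∣ hom A (2 * k) P.1 P.2 := by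
      rcases hpZ.dvd_mul.1 h4 with h6 | h6
      · exact absurd (hqZ.1 (hpZ.dvd_of_dvd_pow h6)) h1
      · exact h6
    have h6 : (p : ℤ) ∣ 27 * hom B (3 * k) P.1 P.2 ^ 2 := by
      have e1 : 27 * hom B (3 * k) P.1 P.2 ^ 2 = 4 * hom A (2 * k) P.1 P.2 ^ 3 - Ds A B k P := by
        unfold Ds; ring
      rw [e1]
      exact dvd_sub ((dvd_pow h5 (by norm_num)).mul_left _) (hDs.2 (hVZ.1 h2))
    have h7 : (p : ℤ) ∣ hom B (3 * k) P.1 P.2 := by
      rcases hpZ.dvd_mul.1 h6 with h8 | h8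
      · exfalso
        have h9 : p ∣ 27 := by exact_mod_cast h8
        have h10 : p ∣ 3 := hp.dvd_of_dvd_pow (show p ∣ 3 ^ 3 by norm_num; exact h9)
        exact hp6 (h10.trans (by norm_num))
      · exact hpZ.dvd_of_dvd_pow h8
    exact hpM1 (Int.natCast_dvd_natCast.1 (hM _ _ hpt.cop _ h5 h7))

/-- the constant -/
def Mc (M : ℕ) (c : ℤ) : ℕ := 6 * M * c.natAbs

theorem Mc_ne {M : ℕ} (hM : 1 ≤ M) {c : ℤ} (hc : c ≠ 0) : Mc M c ≠ 0 := by
  unfold Mc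
  have := Int.natAbs_ne_zero.2 hc
  positivity

theorem cond_ge (h : RG A B k V c j) {M : ℕ} (hM1 : 1 ≤ M) (hM : GcdM A B k M)
    {a b q s : ℤ} {P : ℤ × ℤ} (hP : P.2 ≠ 0) (hpt : PtV V P) (hs : s ∣ M)
    (hD : 4 * a ^ 3 - 27 * b ^ 2 ≠ 0)
    (hr : Rel A B k a b P q s) : Wt (Vp V P) q.natAbs ≤ Mc M c ^ 2 * Cond a b := by
  unfold Wt Cond
  refine prod_cmp (Mc_ne hM1 h.hc) _ _ _ _ ?_ ?_ ?_
  · intro p hp
    have hpp := Nat.prime_of_mem_primeFactors hp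
    refine ⟨hpp, ?_⟩
    split_ifs
    · exact le_rfl
    · exact Nat.le_self_pow (by norm_num) p
  · intro p hp
    have hpp := Nat.prime_of_mem_primeFactors (mem_filter.1 hp).1
    split_ifs
    · exact Nat.one_le_pow _ _ hpp.pos
    · exact hpp.one_le
  · intro p hp hpM
    have hpp := Nat.prime_of_mem_primeFactors hp
    obtain ⟨k1, k2, k3⟩ := primes_rel h hM hP hpt hs hr hpp hpM
    have h1 := k1.2 (Nat.dvd_of_mem_primeFactors hp)
    have h5 : 5 ≤ p := by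
      by_contra hcon
      have h6 : p = 2 ∨ p = 3 := by
        have := hpp.two_le
        have h4 : p ≠ 4 := by rintro rfl; exact absurd hpp (by norm_num)
        omega
      have h7 : p ∣ 6 := by rcases h6 with rfl | rfl <;> norm_num
      exact hpM ((h7.mul_right _).mul_right _)
    refine ⟨mem_filter.2 ⟨Nat.mem_primeFactors.2 ⟨hpp, Int.natCast_dvd.1 h1,
      Int.natAbs_ne_zero.2 hD⟩, h5⟩, ?_⟩
    by_cases hpq : p ∣ q.natAbs
    · rw [if_pos hpq, if_pos (k2 hpq)]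
    · rw [if_neg hpq]
      split_ifs
      · exact Nat.le_self_pow (by norm_num) p
      · exact le_rfl

theorem cond_le (h : RG A B k V c j) {M : ℕ} (hM1 : 1 ≤ M) (hM : GcdM A B k M)
    {a b q s : ℤ} {P : ℤ × ℤ} (hP : P.2 ≠ 0) (hpt : PtV V P) (hs : s ∣ M) (hq : q ≠ 0)
    (hr : Rel A B k a b P q s) : Cond a b ≤ Mc M c ^ 2 * Wt (Vp V P) q.natAbs := by
  unfold Wt Cond
  refine prod_cmp (Mc_ne hM1 h.hc) _ _ _ _ ?_ ?_ ?_
  · intro p hp
    have hpp := Nat.prime_of_mem_primeFactors (mem_filter.1 hp).1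
    refine ⟨hpp, ?_⟩
    split_ifs
    · exact le_rfl
    · exact Nat.le_self_pow (by norm_num) p
  · intro p hp
    have hpp := Nat.prime_of_mem_primeFactors hp
    split_ifs
    · exact Nat.one_le_pow _ _ hpp.pos
    · exact hpp.one_le
  · intro p hp hpM
    obtain ⟨hp1, hp5⟩ := mem_filter.1 hp
    have hpp := Nat.prime_of_mem_primeFactors hp1
    obtain ⟨k1, k2, k3⟩ := primes_rel h hM hP hpt hs hr hpp hpM
    have h1 : (p : ℤ) ∣ 4 * a ^ 3 - 27 * b ^ 2 := Int.natCast_dvd.2 (Nat.dvd_of_mem_primeFactors hp1)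
    have h2 := k1.1 h1
    refine ⟨Nat.mem_primeFactors.2 ⟨hpp, h2, Nat.mul_ne_zero (Int.natAbs_ne_zero.2 hq)
      (Vp_ne hpt)⟩, ?_⟩
    by_cases hpq : p ∣ q.natAbs
    · rw [if_pos hpq, if_pos (k2 hpq)]
    · have hV : p ∣ Vp V P := by
        rcases hpp.dvd_mul.1 h2 with h3 | h3
        · exact absurd h3 hpq
        · exact h3
      rw [if_neg hpq, if_neg (k3 hpq hV)]

end Pool.Agent.Q10.KW
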