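import Pool.Agent.Q10.KW2

/-!
Counting the twists of the members of a family by the conductor (after `Y679.Kf.Cnt`,
`Y679.Kf.TwM`)
-/

set_option autoImplicit false

namespace Pool.Agent.Q10.KW

open Finset Polynomial
open Pool.Agent.TH498.KB (Mem MinS Cond hom_eval prim_of_minS)
open Pool.Agent.W4.VC (hom)

/-- the number of the twists with a given point -/
theorem q_count {V : ℕ} (hV : V ≠ 0) {T G : ℝ} (hT : 0 ≤ T) (hG : 0 < G) (F : Finset ℕ)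
    (hF : ∀ q ∈ F, Squarefree q ∧ (Wt V q : ℝ) ≤ T ∧ G ≤ gg V q) :
    (F.card : ℝ) ≤ (rd V).divisors.card * Real.sqrt (T / (G * rd V)) := by
  classical
  have hR : (0 : ℝ) < rd V := by exact_mod_cast rd_pos V
  obtain ⟨z, hz⟩ : ∃ z : ℕ, z = ⌊Real.sqrt (T / (G * rd V))⌋₊ := ⟨_, rfl⟩
  have hzz : (z : ℝ) ≤ Real.sqrt (T / (G * rd V)) := by
    rw [hz]; exact Nat.floor_le (Real.sqrt_nonneg _)
  have hmem : ∀ q ∈ F, (gg V q, q / gg V q) ∈ (rd V).divisors ×ˢ Finset.Ioc 0 z := by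
    intro q hq
    obtain ⟨h1, h2, h3⟩ := hF q hq
    have hg := gg_pos V q
    have hd := gg_dvd V q
    obtain ⟨q', hq'⟩ := hd
    have hq0 : 0 < q' := by
      rcases Nat.eq_zero_or_pos q' with h4 | h4
      · rw [h4, mul_zero] at hq'
        exact absurd hq' h1.ne_zero
      · exact h4
    have hdiv : q / gg V q = q' := Nat.div_eq_of_eq_mul_right hg hq'
    rw [mem_product, Nat.mem_divisors, mem_Ioc]
    simp only
    refine ⟨⟨gg_dvd_rd V q, (rd_pos V).ne'⟩, ?_⟩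
    rw [hdiv]
    refine ⟨hq0, ?_⟩
    rw [hz]
    refine Nat.le_floor ?_
    refine Real.le_sqrt_of_sq_le ?_
    rw [le_div_iff₀ (by positivity)]
    have h5 : Wt V q = q' ^ 2 * gg V q * rd V := by
      have h6 := Wt_gg hV h1
      have h7 : Wt V q * gg V q = (q' ^ 2 * gg V q * rd V) * gg V q := by
        rw [h6]
        conv_lhs => rw [hq']
        ring
      exact Nat.eq_of_mul_eq_mul_right hg h7
    calc (q' : ℝ) ^ 2 * (G * rd V) ≤ (q' : ℝ) ^ 2 * (gg V q * rd V) := by gcongr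
      _ = (Wt V q : ℝ) := by rw [h5]; push_cast; ring
      _ ≤ T := h2
  have hinj : Set.InjOn (fun q => (gg V q, q / gg V q)) (F : Set ℕ) := by
    intro q _ q' _ h
    simp only [Prod.mk.injEq] at h
    rw [← Nat.mul_div_cancel' (gg_dvd V q), ← Nat.mul_div_cancel' (gg_dvd V q'), h.1]
    rw [h.1] at h
    rw [h.2]
  have h1 := Finset.card_le_card_of_injOn _ hmem hinj
  rw [card_product, Nat.card_Ioc, Nat.sub_zero] at h1
  have h2 : (F.card : ℝ) ≤ (rd V).divisors.card * z := by exact_mod_cast h1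
  exact h2.trans (mul_le_mul_of_nonneg_left hzz (by positivity))

variable {A B : ℤ[X]} {k : ℕ} {V : ℤ × ℤ → ℤ} {c : ℤ} {j : ℕ}

/-- a choice of the parameters -/
structure Sel (A B : ℤ[X]) (k : ℕ) (V : ℤ × ℤ → ℤ) (M : ℕ) (pt : ℤ × ℤ → ℤ × ℤ) (qq ss : ℤ × ℤ → ℤ) :
    Prop where
  all : ∀ p : ℤ × ℤ, MinS p.1 p.2 → TwMem A B p.1 p.2 → 0 < (pt p).2 ∧ PtV V (pt p) ∧ 0 < ss p ∧
    ss p ∣ M ∧ qq p ≠ 0 ∧ Squarefree (qq p).natAbs ∧ Rel A B k p.1 p.2 (pt p) (qq p) (ss p)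

theorem sel_ex (h : RG A B k V c j) {M : ℕ} (hM : GcdM A B k M) :
    ∃ (pt : ℤ × ℤ → ℤ × ℤ) (qq ss : ℤ × ℤ → ℤ), Sel A B k V M pt qq ss := by
  classical
  have h1 : ∀ p : ℤ × ℤ, ∃ w : (ℤ × ℤ) × ℤ × ℤ, MinS p.1 p.2 → TwMem A B p.1 p.2 → 0 < w.1.2 ∧
      PtV V w.1 ∧ 0 < w.2.2 ∧ w.2.2 ∣ M ∧ w.2.1 ≠ 0 ∧ Squarefree w.2.1.natAbs ∧
      Rel A B k p.1 p.2 w.1 w.2.1 w.2.2 := by
    intro p
    by_cases hp : MinS p.1 p.2 ∧ TwMem A B p.1 p.2
    · obtain ⟨P, q, s, g⟩ := par2 h hM hp.1 hp.2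
      exact ⟨(P, q, s), fun _ _ => g⟩
    · exact ⟨((0, 0), 0, 0), fun g1 g2 => absurd ⟨g1, g2⟩ hp⟩
  choose w hw using h1
  exact ⟨fun p => (w p).1, fun p => (w p).2.1, fun p => (w p).2.2, ⟨hw⟩⟩

theorem rel_inj {a b a' b' q s : ℤ} {P : ℤ × ℤ} (hs : s ≠ 0) (h1 : Rel A B k a b P q s)
    (h2 : Rel A B k a' b' P q s) : a = a' ∧ b = b' :=
  ⟨mul_right_cancel₀ (pow_ne_zero 2 hs) (h1.h1.trans h2.h1.symm),
    mul_right_cancel₀ (pow_ne_zero 3 hs) (h1.h2.trans h2.h2.symm)⟩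

theorem tw_card (h : RG A B k V c j) {M : ℕ} (hM1 : 1 ≤ M) (hM : GcdM A B k M)
    {pt : ℤ × ℤ → ℤ × ℤ} {qq ss : ℤ × ℤ → ℤ} (hsel : Sel A B k V M pt qq ss) {N : ℝ} (hN : 0 ≤ N)
    (G : ℤ × ℤ → ℝ) (hG : ∀ P, 0 < G P) (F : Finset (ℤ × ℤ))
    (hF : ∀ p ∈ F, MinS p.1 p.2 ∧ TwMem A B p.1 p.2 ∧ (Cond p.1 p.2 : ℝ) ≤ N ∧
      G (pt p) ≤ gg (Vp V (pt p)) (qq p).natAbs) :
    (F.card : ℝ) ≤ 2 * M * ∑ P ∈ F.image pt, (rd (Vp V P)).divisors.card *
      Real.sqrt ((Mc M c : ℝ) ^ 2 * N / (G P * rd (Vp V P))) := by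
  classical
  obtain ⟨φ, hφ⟩ : ∃ φ : ℤ × ℤ → (ℤ × ℤ) × ℕ, φ = fun p => (pt p, (qq p).natAbs) := ⟨_, rfl⟩
  -- the fibres
  have hfib : ∀ w ∈ F.image φ, (F.filter fun p => φ p = w).card ≤ 2 * M := by
    intro w _
    have hinj : Set.InjOn (fun p => (decide (0 < qq p), (ss p).natAbs))
        ((F.filter fun p => φ p = w : Finset (ℤ × ℤ)) : Set (ℤ × ℤ)) := by
      intro p hp p' hp' hpp
      obtain ⟨g1, g2⟩ := mem_filter.1 (mem_coe.1 hp)
      obtain ⟨g1', g2'⟩ := mem_filter.1 (mem_coe.1 hp')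
      obtain ⟨f1, f2, -, -⟩ := hF p g1
      obtain ⟨f1', f2', -, -⟩ := hF p' g1'
      obtain ⟨k1, k2, k3, k4, k5, k6, k7⟩ := hsel.all p f1 f2
      obtain ⟨k1', k2', k3', k4', k5', k6', k7'⟩ := hsel.all p' f1' f2'
      rw [← g2', hφ] at g2
      simp only [Prod.mk.injEq] at g2 hpp
      obtain ⟨i1, i2⟩ := g2
      obtain ⟨i3, i4⟩ := hpp
      have hs : ss p = ss p' := by
        rw [← Int.natAbs_of_nonneg k3.le, ← Int.natAbs_of_nonneg k3'.le, i4]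
      have hq : qq p = qq p' := by
        have i3' : 0 < qq p ↔ 0 < qq p' := by
          constructor
          · intro h0
            rw [decide_eq_true h0] at i3
            exact of_decide_eq_true i3.symm
          · intro h0
            rw [decide_eq_true h0] at i3
            exact of_decide_eq_true i3
        omega
      rw [i1, hs, hq] at k7
      obtain ⟨j1, j2⟩ := rel_inj k3'.ne' k7 k7'
      exact Prod.ext j1 j2
    have hmem : ∀ p ∈ F.filter (fun p => φ p = w), (decide (0 < qq p), (ss p).natAbs) ∈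
        (Finset.univ : Finset Bool) ×ˢ Finset.Ioc 0 M := by
      intro p hp
      obtain ⟨g1, g2⟩ := mem_filter.1 hp
      obtain ⟨f1, f2, -, -⟩ := hF p g1
      obtain ⟨k1, k2, k3, k4, k5, k6, k7⟩ := hsel.all p f1 f2
      rw [mem_product, mem_Ioc]
      refine ⟨mem_univ _, ?_, ?_⟩
      · simp only
        omega
      · exact Nat.le_of_dvd hM1 (Int.natAbs_dvd_natAbs.2 k4)
    refine (Finset.card_le_card_of_injOn _ hmem hinj).trans ?_
    rw [card_product, Nat.card_Ioc, card_univ, Fintype.card_bool, Nat.sub_zero]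
  have h1 : F.card ≤ 2 * M * (F.image φ).card := Finset.card_le_mul_card_image F (2 * M) hfib
  -- the pairs
  have h2 : (F.image φ).card = ∑ P ∈ F.image pt,
      ((F.image φ).filter fun w => w.1 = P).card := by
    refine Finset.card_eq_sum_card_fiberwise ?_
    intro w hw
    obtain ⟨p, hp, rfl⟩ := mem_image.1 (mem_coe.1 hw)
    rw [hφ]
    exact mem_coe.2 (mem_image_of_mem pt hp)
  have h3 : ∀ P ∈ F.image pt, ((((F.image φ).filter fun w => w.1 = P).card : ℕ) : ℝ) ≤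
      (rd (Vp V P)).divisors.card * Real.sqrt ((Mc M c : ℝ) ^ 2 * N / (G P * rd (Vp V P))) := by
    intro P hP
    obtain ⟨p0, hp0, hp0P⟩ := mem_image.1 hP
    obtain ⟨f1, f2, f3, -⟩ := hF p0 hp0
    obtain ⟨k1, k2, -⟩ := hsel.all p0 f1 f2
    rw [hp0P] at k2
    have h4 : ((F.image φ).filter fun w => w.1 = P).card =
        (((F.image φ).filter fun w => w.1 = P).image Prod.snd).card := by
      rw [Finset.card_image_of_injOn]
      intro w hw w' hw' hww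
      obtain ⟨-, g2⟩ := mem_filter.1 (mem_coe.1 hw)
      obtain ⟨-, g2'⟩ := mem_filter.1 (mem_coe.1 hw')
      exact Prod.ext (g2.trans g2'.symm) hww
    rw [h4]
    refine q_count (Vp_ne k2) (by positivity) (hG P) _ fun q hq => ?_
    obtain ⟨w, hw, rfl⟩ := mem_image.1 hq
    obtain ⟨hw1, hw2⟩ := mem_filter.1 hw
    obtain ⟨p, hp, rfl⟩ := mem_image.1 hw1
    rw [hφ] at hw2 ⊢
    simp only at hw2 ⊢
    obtain ⟨f1, f2, f3, f4⟩ := hF p hp
    obtain ⟨k1, k2, k3, k4, k5, k6, k7⟩ := hsel.all p f1 f2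
    rw [hw2] at f4
    refine ⟨k6, ?_, f4⟩
    have h5 := cond_ge h hM1 hM k1.ne' k2 k4 f1.1 k7
    rw [hw2] at h5
    have h6 : (Wt (Vp V P) (qq p).natAbs : ℝ) ≤ (Mc M c : ℝ) ^ 2 * Cond p.1 p.2 := by
      exact_mod_cast h5
    exact h6.trans (mul_le_mul_of_nonneg_left f3 (by positivity))
  have h4 : ((F.image φ).card : ℝ) ≤ ∑ P ∈ F.image pt, (rd (Vp V P)).divisors.card *
      Real.sqrt ((Mc M c : ℝ) ^ 2 * N / (G P * rd (Vp V P))) := by
    rw [h2]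
    push_cast
    exact Finset.sum_le_sum h3
  have h5 : (F.card : ℝ) ≤ 2 * M * (F.image φ).card := by exact_mod_cast h1
  exact h5.trans (mul_le_mul_of_nonneg_left h4 (by positivity))

/-- the weight of a point -/
noncomputable def rho (V : ℤ × ℤ → ℤ) (P : ℤ × ℤ) : ℝ := (rd (Vp V P) : ℝ)

theorem rho_ge (V : ℤ × ℤ → ℤ) (P : ℤ × ℤ) : 1 ≤ rho V P := by
  unfold rho
  exact_mod_cast rd_pos _

theorem one_le_gg (V q : ℕ) : (1 : ℝ) ≤ gg V q := by exact_mod_cast gg_pos V q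

theorem tw_card2 (h : RG A B k V c j) {M : ℕ} (hM1 : 1 ≤ M) (hM : GcdM A B k M)
    {pt : ℤ × ℤ → ℤ × ℤ} {qq ss : ℤ × ℤ → ℤ} (hsel : Sel A B k V M pt qq ss) {ε : ℝ}
    (hε : 0 < ε) : ∃ C : ℝ, 0 < C ∧ ∀ N : ℝ, 0 ≤ N → ∀ F : Finset (ℤ × ℤ),
    (∀ p ∈ F, MinS p.1 p.2 ∧ TwMem A B p.1 p.2 ∧ (Cond p.1 p.2 : ℝ) ≤ N) →
    (F.card : ℝ) ≤ C * Real.sqrt N * ∑ P ∈ F.image pt, rho V P ^ (-(1 / 2 - ε)) := by
  classical
  obtain ⟨Cτ, hCτ, hτ⟩ := Pool.Agent.H510R2.divisor_bound ε hε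
  have hMc : (0 : ℝ) < Mc M c := by
    exact_mod_cast Nat.pos_of_ne_zero (Mc_ne hM1 h.hc)
  refine ⟨2 * M * (Cτ * Mc M c), by positivity, fun N hN F hF => ?_⟩
  have h1 := tw_card h hM1 hM hsel hN (fun _ => 1) (fun _ => one_pos) F
    (fun p hp => ⟨(hF p hp).1, (hF p hp).2.1, (hF p hp).2.2, one_le_gg _ _⟩)
  refine h1.trans ?_
  have h2 : ∀ P ∈ F.image pt, (rd (Vp V P)).divisors.card *
      Real.sqrt ((Mc M c : ℝ) ^ 2 * N / (1 * rd (Vp V P))) ≤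
      (Cτ * Mc M c) * Real.sqrt N * rho V P ^ (-(1 / 2 - ε)) := by
    intro P _
    obtain ⟨ρ, hρ⟩ : ∃ ρ : ℝ, ρ = rho V P := ⟨_, rfl⟩
    have hρ1 : 1 ≤ ρ := by rw [hρ]; exact rho_ge V _
    have hρ0 : 0 < ρ := by linarith
    have g3 : ((rd (Vp V P)).divisors.card : ℝ) ≤ Cτ * ρ ^ ε := by
      rw [hρ]
      exact hτ _ (rd_pos _)
    have e0 : ((rd (Vp V P) : ℕ) : ℝ) = ρ := by rw [hρ]; rfl
    rw [← hρ, e0, one_mul]
    have g4 : Real.sqrt ((Mc M c : ℝ) ^ 2 * N / ρ) = Mc M c * Real.sqrt N * ρ ^ (-(1 / 2) : ℝ) := by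
      rw [Real.sqrt_div (by positivity), Real.sqrt_mul (by positivity), Real.sqrt_sq hMc.le,
        Real.sqrt_eq_rpow ρ, Real.rpow_neg hρ0.le, div_eq_mul_inv]
    rw [g4]
    calc ((rd (Vp V P)).divisors.card : ℝ) * (Mc M c * Real.sqrt N * ρ ^ (-(1 / 2) : ℝ)) ≤
        (Cτ * ρ ^ ε) * (Mc M c * Real.sqrt N * ρ ^ (-(1 / 2) : ℝ)) :=
          mul_le_mul_of_nonneg_right g3 (by positivity)
      _ = (Cτ * Mc M c) * Real.sqrt N * (ρ ^ ε * ρ ^ (-(1 / 2) : ℝ)) := by ring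
      _ = _ := by
        rw [← Real.rpow_add hρ0]
        congr 2
        ring
  calc 2 * (M : ℝ) * ∑ P ∈ F.image pt, (rd (Vp V P)).divisors.card *
      Real.sqrt ((Mc M c : ℝ) ^ 2 * N / (1 * rd (Vp V P))) ≤
      2 * (M : ℝ) * ∑ P ∈ F.image pt, (Cτ * Mc M c) * Real.sqrt N * rho V P ^ (-(1 / 2 - ε)) :=
        mul_le_mul_of_nonneg_left (Finset.sum_le_sum h2) (by positivity)
    _ = _ := by
      rw [← Finset.mul_sum]
      ring

/-- a set all of whose finite subsets are small -/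
theorem fin_card {α : Type*} {S : Set α} {B : ℝ}
    (h : ∀ F : Finset α, (∀ p ∈ F, p ∈ S) → (F.card : ℝ) ≤ B) : S.Finite ∧ (S.ncard : ℝ) ≤ B := by
  have hfin : S.Finite := by
    by_contra hcon
    obtain ⟨n, hn⟩ := exists_nat_gt B
    obtain ⟨t, ht1, ht2⟩ := Set.Infinite.exists_subset_card_eq hcon n
    have h1 := h t fun p hp => ht1 (mem_coe.2 hp)
    rw [ht2] at h1
    linarith
  refine ⟨hfin, ?_⟩
  rw [Set.ncard_eq_toFinset_card _ hfin]
  exact h _ fun p hp => hfin.mem_toFinset.1 hp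

/-- the number of the members up to `Y` is at most `C Y ^ α`; the sum of `R ^ (-β)` over the members
with `R ≥ Y`, for `β > α` -/
theorem wsum {ι : Type*} (R : ι → ℝ) {C α β : ℝ} (hC : 0 ≤ C) (hαβ : α < β) (hα : 0 ≤ α)
    (F : Finset ι) (hR : ∀ i ∈ F, 1 ≤ R i)
    (hcount : ∀ Y : ℝ, 1 ≤ Y → ((F.filter fun i => R i ≤ Y).card : ℝ) ≤ C * Y ^ α)
    (Y : ℝ) (hY : 1 ≤ Y) :
    ∑ i ∈ F.filter (fun i => Y ≤ R i), R i ^ (-β) ≤
      C * 2 ^ α * (1 - 2 ^ (α - β))⁻¹ * Y ^ (α - β) := by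
  classical
  have hY0 : 0 < Y := by linarith
  have hq0 : (0 : ℝ) ≤ 2 ^ (α - β) := by positivity
  have hq1 : (2 : ℝ) ^ (α - β) < 1 := Real.rpow_lt_one_of_one_lt_of_neg (by norm_num) (by linarith)
  -- the blocks
  obtain ⟨J, hJ⟩ : ∃ J : ℕ, ∀ i ∈ F, R i < Y * 2 ^ J := by
    obtain ⟨M, hM⟩ : ∃ M : ℝ, ∀ i ∈ F, R i ≤ M := by
      refine ⟨∑ i ∈ F, R i, fun i hi => ?_⟩
      exact Finset.single_le_sum (f := R) (fun j hj => by linarith [hR j hj]) hi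
    obtain ⟨J, hJ⟩ := pow_unbounded_of_one_lt M (by norm_num : (1 : ℝ) < 2)
    refine ⟨J, fun i hi => ?_⟩
    have : (2 : ℝ) ^ J ≤ Y * 2 ^ J := le_mul_of_one_le_left (by positivity) hY
    linarith [hM i hi]
  have hcov : ∀ i ∈ F, Y ≤ R i → ∃ j ∈ range J, Y * 2 ^ j ≤ R i ∧ R i ≤ Y * 2 ^ (j + 1) := by
    intro i h1 h2
    have hex : ∃ j : ℕ, R i < Y * 2 ^ j := ⟨J, hJ i h1⟩
    obtain ⟨j, hj, hmin⟩ : ∃ j : ℕ, R i < Y * 2 ^ j ∧ ∀ k < j, Y * 2 ^ k ≤ R i := by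
      refine ⟨Nat.find hex, Nat.find_spec hex, fun k hk => ?_⟩
      exact not_lt.1 (Nat.find_min hex hk)
    have hj0 : j ≠ 0 := by
      rintro rfl
      rw [pow_zero, mul_one] at hj
      linarith
    obtain ⟨k, rfl⟩ : ∃ k, j = k + 1 := ⟨j - 1, by omega⟩
    have hkJ : k < J := by
      by_contra hcon
      have h3 := hmin J (by omega)
      exact absurd (hJ i h1) (not_lt.2 h3)
    exact ⟨k, mem_range.2 hkJ, hmin k (by omega), hj.le⟩
  have h1 : ∑ i ∈ F.filter (fun i => Y ≤ R i), R i ^ (-β) ≤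
      ∑ j ∈ range J, ∑ i ∈ F.filter (fun i => Y * 2 ^ j ≤ R i ∧ R i ≤ Y * 2 ^ (j + 1)),
        R i ^ (-β) := by
    have hf : ∀ i ∈ F, 0 ≤ R i ^ (-β) := fun i hi => by
      have := hR i hi
      positivity
    have e1 : ∑ j ∈ range J, ∑ i ∈ F.filter (fun i => Y * 2 ^ j ≤ R i ∧ R i ≤ Y * 2 ^ (j + 1)),
        R i ^ (-β) = ∑ i ∈ F, ∑ j ∈ range J,
          if Y * 2 ^ j ≤ R i ∧ R i ≤ Y * 2 ^ (j + 1) then R i ^ (-β) else 0 := by
      rw [Finset.sum_comm]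
      exact Finset.sum_congr rfl fun j _ => Finset.sum_filter _ _
    rw [e1, Finset.sum_filter]
    refine Finset.sum_le_sum fun i hi => ?_
    split_ifs with hYi
    · obtain ⟨j, hj, hj2⟩ := hcov i hi hYi
      refine le_trans ?_ (Finset.single_le_sum (f := fun j =>
        if Y * 2 ^ j ≤ R i ∧ R i ≤ Y * 2 ^ (j + 1) then R i ^ (-β) else 0) (fun k _ => ?_) hj)
      · rw [if_pos hj2]
      · split_ifs
        · exact hf i hi
        · exact le_rfl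
    · refine Finset.sum_nonneg fun k _ => ?_
      split_ifs
      · exact hf i hi
      · exact le_rfl
  refine h1.trans ?_
  have h2 : ∀ j ∈ range J, ∑ i ∈ F.filter (fun i => Y * 2 ^ j ≤ R i ∧ R i ≤ Y * 2 ^ (j + 1)),
      R i ^ (-β) ≤ C * 2 ^ α * Y ^ (α - β) * (2 ^ (α - β)) ^ j := by
    intro j _
    have hY1 : 1 ≤ Y * 2 ^ (j + 1) := one_le_mul_of_one_le_of_one_le hY (one_le_pow₀ (by norm_num))
    have h3 := hcount (Y * 2 ^ (j + 1)) hY1
    have h4 : ∑ i ∈ F.filter (fun i => Y * 2 ^ j ≤ R i ∧ R i ≤ Y * 2 ^ (j + 1)), R i ^ (-β) ≤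
        ∑ _i ∈ F.filter (fun i => Y * 2 ^ j ≤ R i ∧ R i ≤ Y * 2 ^ (j + 1)),
          (Y * 2 ^ j) ^ (-β) := by
      refine Finset.sum_le_sum fun i hi => ?_
      obtain ⟨-, k1, -⟩ := mem_filter.1 hi
      exact Real.rpow_le_rpow_of_nonpos (by positivity) k1 (by linarith)
    have h5 : ((F.filter (fun i => Y * 2 ^ j ≤ R i ∧ R i ≤ Y * 2 ^ (j + 1))).card : ℝ) ≤
        ((F.filter fun i => R i ≤ Y * 2 ^ (j + 1)).card : ℝ) := by
      exact_mod_cast Finset.card_le_card fun i hi => by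
        obtain ⟨k1, -, k2⟩ := mem_filter.1 hi
        exact mem_filter.2 ⟨k1, k2⟩
    rw [Finset.sum_const, nsmul_eq_mul] at h4
    refine h4.trans ((mul_le_mul_of_nonneg_right (h5.trans h3) (by positivity)).trans
      (le_of_eq ?_))
    have e1 : (Y * 2 ^ (j + 1)) ^ α = Y ^ α * (2 ^ α * (2 ^ α) ^ j) := by
      rw [Real.mul_rpow hY0.le (by positivity), ← Real.rpow_natCast 2 (j + 1),
        ← Real.rpow_mul (by norm_num), mul_comm ((j + 1 : ℕ) : ℝ) α, Real.rpow_mul (by norm_num),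
        Real.rpow_natCast, pow_succ]
      ring
    have e2 : (Y * 2 ^ j) ^ (-β) = Y ^ (-β) * (2 ^ (-β)) ^ j := by
      rw [Real.mul_rpow hY0.le (by positivity), ← Real.rpow_natCast 2 j,
        ← Real.rpow_mul (by norm_num), mul_comm (j : ℝ) (-β), Real.rpow_mul (by norm_num),
        Real.rpow_natCast]
    have e3 : Y ^ (α - β) = Y ^ α * Y ^ (-β) := by
      rw [← Real.rpow_add hY0]; congr 1
    have e4 : ((2 : ℝ) ^ (α - β)) = 2 ^ α * 2 ^ (-β) := by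
      rw [← Real.rpow_add (by norm_num)]; congr 1
    rw [e1, e2, e3, e4, mul_pow]
    ring
  refine (Finset.sum_le_sum h2).trans ?_
  rw [← Finset.mul_sum]
  have h3 : ∑ j ∈ range J, ((2 : ℝ) ^ (α - β)) ^ j ≤ (1 - 2 ^ (α - β))⁻¹ := by
    rw [← tsum_geometric_of_lt_one hq0 hq1]
    exact Summable.sum_le_tsum _ (fun j _ => by positivity)
      (summable_geometric_of_lt_one hq0 hq1)
  calc C * 2 ^ α * Y ^ (α - β) * ∑ j ∈ range J, ((2 : ℝ) ^ (α - β)) ^ j ≤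
      C * 2 ^ α * Y ^ (α - β) * (1 - 2 ^ (α - β))⁻¹ := by gcongr
    _ = _ := by ring

/-- the logarithm of the absolute value of an integer -/
noncomputable def la (n : ℤ) : ℝ := Real.log (n.natAbs : ℝ)

theorem la_mul {m n : ℤ} (hm : m ≠ 0) (hn : n ≠ 0) : la (m * n) = la m + la n := by
  unfold la
  rw [Int.natAbs_mul, Nat.cast_mul, Real.log_mul]
  · exact_mod_cast Int.natAbs_ne_zero.2 hm
  · exact_mod_cast Int.natAbs_ne_zero.2 hn

theorem la_pow (m : ℤ) (n : ℕ) : la (m ^ n) = n * la m := by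
  unfold la
  rw [Int.natAbs_pow, Nat.cast_pow, Real.log_pow]

theorem la_nonneg (n : ℤ) : 0 ≤ la n := Real.log_natCast_nonneg _

/-- the discriminant of a model -/
theorem la_disc (h : RG A B k V c j) {a b q s : ℤ} {P : ℤ × ℤ} (hP : P.2 ≠ 0) (hpt : PtV V P)
    (hs : s ≠ 0) (hq : q ≠ 0) (hD : 4 * a ^ 3 - 27 * b ^ 2 ≠ 0) (hr : Rel A B k a b P q s) :
    la (4 * a ^ 3 - 27 * b ^ 2) = 6 * la q + la (Ds A B k P) - 6 * la s := by
  have h1 := hr.disc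
  have h2 := congrArg la h1
  rw [la_mul hD (pow_ne_zero _ hs), la_mul (pow_ne_zero _ hq) (Ds_ne h hP hpt), la_pow, la_pow] at h2
  push_cast at h2
  linarith

theorem cond_pos (a b : ℤ) : 0 < Cond a b := by
  unfold Cond
  refine Finset.prod_pos fun p hp => ?_
  have := (Nat.prime_of_mem_primeFactors (mem_filter.1 hp).1).pos
  split_ifs
  · positivity
  · exact this

/-- the logarithm of the conductor -/
noncomputable def lc (a b : ℤ) : ℝ := Real.log (Cond a b : ℝ)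

theorem lc_nonneg (a b : ℤ) : 0 ≤ lc a b := Real.log_natCast_nonneg _

/-- the conductor of a model -/
theorem lc_abs (h : RG A B k V c j) {M : ℕ} (hM1 : 1 ≤ M) (hM : GcdM A B k M)
    {a b q s : ℤ} {P : ℤ × ℤ} (hP : P.2 ≠ 0) (hpt : PtV V P) (hs : s ∣ M) (hq : q ≠ 0)
    (hsq : Squarefree q.natAbs) (hD : 4 * a ^ 3 - 27 * b ^ 2 ≠ 0) (hr : Rel A B k a b P q s) :
    |lc a b - (2 * la q + Real.log (rd (Vp V P)) - Real.log (gg (Vp V P) q.natAbs))| ≤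
      2 * Real.log (Mc M c) := by
  have hV := Vp_ne hpt
  have h1 := cond_ge h hM1 hM hP hpt hs hD hr
  have h2 := cond_le h hM1 hM hP hpt hs hq hr
  have hMc : (0 : ℝ) < Mc M c := by exact_mod_cast Nat.pos_of_ne_zero (Mc_ne hM1 h.hc)
  have hC : (0 : ℝ) < Cond a b := by exact_mod_cast cond_pos a b
  have hR : (0 : ℝ) < rd (Vp V P) := by exact_mod_cast rd_pos _
  have hg : (0 : ℝ) < gg (Vp V P) q.natAbs := by exact_mod_cast gg_pos _ _
  have hq0 : (0 : ℝ) < (q.natAbs : ℝ) := by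
    exact_mod_cast Int.natAbs_pos.2 hq
  have hW0 : 0 < Wt (Vp V P) q.natAbs := by
    have := rd_le_Wt hV hsq
    have h3 := Nat.mul_pos (Int.natAbs_pos.2 hq) (rd_pos (Vp V P))
    omega
  have hW : (0 : ℝ) < Wt (Vp V P) q.natAbs := by exact_mod_cast hW0
  have e1 : Real.log (Wt (Vp V P) q.natAbs) =
      2 * la q + Real.log (rd (Vp V P)) - Real.log (gg (Vp V P) q.natAbs) := by
    have h3 := Wt_gg hV hsq
    have h4 : (Wt (Vp V P) q.natAbs : ℝ) * gg (Vp V P) q.natAbs =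
        (q.natAbs : ℝ) ^ 2 * rd (Vp V P) := by exact_mod_cast h3
    have h5 := congrArg Real.log h4
    rw [Real.log_mul hW.ne' hg.ne', Real.log_mul (by positivity) hR.ne', Real.log_pow] at h5
    unfold la
    push_cast at h5
    linarith
  have g1 : (Wt (Vp V P) q.natAbs : ℝ) ≤ (Mc M c : ℝ) ^ 2 * Cond a b := by exact_mod_cast h1
  have g2 : (Cond a b : ℝ) ≤ (Mc M c : ℝ) ^ 2 * Wt (Vp V P) q.natAbs := by exact_mod_cast h2
  have g3 := Real.log_le_log hW g1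
  have g4 := Real.log_le_log hC g2
  rw [Real.log_mul (by positivity) hC.ne', Real.log_pow] at g3
  rw [Real.log_mul (by positivity) hW.ne', Real.log_pow] at g4
  rw [← e1]
  unfold lc
  push_cast at g3 g4
  rw [abs_le]
  constructor <;> linarith

/-- from an estimate of the logarithms to powers -/
theorem pow_of_log {a b : ℤ} {κ δ : ℝ} (hD : 4 * a ^ 3 - 27 * b ^ 2 ≠ 0)
    (h : |la (4 * a ^ 3 - 27 * b ^ 2) - κ * lc a b| ≤ δ * lc a b) :
    (Cond a b : ℝ) ^ (κ - δ) ≤ |((4 * a ^ 3 - 27 * b ^ 2 : ℤ) : ℝ)| ∧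
      |((4 * a ^ 3 - 27 * b ^ 2 : ℤ) : ℝ)| ≤ (Cond a b : ℝ) ^ (κ + δ) := by
  have hC : (0 : ℝ) < Cond a b := by exact_mod_cast cond_pos a b
  have hDpos : (0 : ℝ) < |((4 * a ^ 3 - 27 * b ^ 2 : ℤ) : ℝ)| := abs_pos.2 (by exact_mod_cast hD)
  have hla : la (4 * a ^ 3 - 27 * b ^ 2) = Real.log |((4 * a ^ 3 - 27 * b ^ 2 : ℤ) : ℝ)| := by
    unfold la
    congr 1
    rw [Nat.cast_natAbs, Int.cast_abs]
  rw [hla] at h
  unfold lc at h
  rw [abs_le] at h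
  constructor
  · rw [← Real.log_le_log_iff (by positivity) hDpos, Real.log_rpow hC]
    linarith [h.1]
  · rw [← Real.log_le_log_iff hDpos (by positivity), Real.log_rpow hC]
    linarith [h.2]

end Pool.Agent.Q10.KW
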