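import Pool.Agent.Q10.KW3

/-!
Twists of the members of a family by the conductor: upper bound, lower bound, exceptions
-/

set_option autoImplicit false

namespace Pool.Agent.Q10.KW

open Finset Polynomial
open Pool.Agent.TH498.KB (Mem MinS Cond hom_eval prim_of_minS)
open Pool.Agent.W4.VC (hom)

/-- few points -/
def Few (V : ℤ × ℤ → ℤ) (E : ℝ) : Prop := ∃ C : ℝ, 0 ≤ C ∧ ∀ X : ℝ, 1 ≤ X →
  ∀ F : Finset (ℤ × ℤ), (∀ P ∈ F, PtV V P ∧ rho V P ≤ X) → (F.card : ℝ) ≤ C * X ^ E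

variable {A B : ℤ[X]} {k : ℕ} {V : ℤ × ℤ → ℤ} {c : ℤ} {j : ℕ} {E : ℝ}

/-- the sum over all points -/
theorem wsum1 (hFew : Few V E) {β : ℝ} (hEβ : E < β) (hE0 : 0 ≤ E) : ∃ C : ℝ, 0 ≤ C ∧
    ∀ F : Finset (ℤ × ℤ), (∀ P ∈ F, PtV V P) → ∀ Y : ℝ, 1 ≤ Y → (∀ P ∈ F, Y ≤ rho V P) →
      ∑ P ∈ F, rho V P ^ (-β) ≤ C * Y ^ (E - β) := by
  obtain ⟨C, hC, hcount⟩ := hFew
  refine ⟨|C * 2 ^ E * (1 - 2 ^ (E - β))⁻¹|, abs_nonneg _, fun F hF Y hY hFY => ?_⟩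
  have h1 := wsum (rho V) hC hEβ hE0 F (fun P _ => rho_ge V P) (fun X hX => by
    refine hcount X hX _ fun P hP => ?_
    obtain ⟨g1, g2⟩ := mem_filter.1 hP
    exact ⟨hF P g1, g2⟩) Y hY
  rw [Finset.filter_true_of_mem hFY] at h1
  refine h1.trans (mul_le_mul_of_nonneg_right (le_abs_self _) ?_)
  have : 0 < Y := by linarith
  positivity

/-- the twists of conductor at most `N` -/
def TwAll (A B : ℤ[X]) (N : ℝ) : Set (ℤ × ℤ) :=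
  {p | MinS p.1 p.2 ∧ TwMem A B p.1 p.2 ∧ (Cond p.1 p.2 : ℝ) ≤ N}

/-- `N ^ lo ≤ |D| ≤ N ^ hi` -/
def Szr (lo hi : ℝ) (p : ℤ × ℤ) : Prop :=
  (Cond p.1 p.2 : ℝ) ^ lo ≤ |((4 * p.1 ^ 3 - 27 * p.2 ^ 2 : ℤ) : ℝ)| ∧
    |((4 * p.1 ^ 3 - 27 * p.2 ^ 2 : ℤ) : ℝ)| ≤ (Cond p.1 p.2 : ℝ) ^ hi

/-- the twists whose point has a large weight -/
theorem tw_tail (h : RG A B k V c j) (hFew : Few V E) (hE0 : 0 ≤ E) (hE : E < 1 / 2)
    {M : ℕ} (hM1 : 1 ≤ M) (hM : GcdM A B k M)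
    {pt : ℤ × ℤ → ℤ × ℤ} {qq ss : ℤ × ℤ → ℤ} (hsel : Sel A B k V M pt qq ss) :
    ∃ C : ℝ, 0 < C ∧ ∀ N Y : ℝ, 0 ≤ N → 1 ≤ Y → ∀ F : Finset (ℤ × ℤ),
      (∀ p ∈ F, p ∈ TwAll A B N ∧ Y ≤ rho V (pt p)) →
      (F.card : ℝ) ≤ C * Real.sqrt N * Y ^ (-((1 / 2 - E) / 2)) := by
  classical
  obtain ⟨η, hη⟩ : ∃ η : ℝ, η = (1 / 2 - E) / 2 := ⟨_, rfl⟩
  have hη0 : 0 < η := by rw [hη]; linarith
  obtain ⟨D1, hD1, t1⟩ := tw_card2 h hM1 hM hsel hη0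
  obtain ⟨S, hS, h2⟩ := wsum1 hFew (β := 1 / 2 - η) (by rw [hη]; linarith) hE0
  refine ⟨D1 * (S + 1), by positivity, fun N Y hN hY F hF => ?_⟩
  have h1 := t1 N hN F (fun p hp => ⟨(hF p hp).1.1, (hF p hp).1.2.1, (hF p hp).1.2.2⟩)
  have h3 := h2 (F.image pt) (fun P hP => by
      obtain ⟨p, hp, rfl⟩ := mem_image.1 hP
      obtain ⟨⟨f1, f2, f3⟩, f4⟩ := hF p hp
      exact (hsel.all p f1 f2).2.1) Y hY (fun P hP => by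
      obtain ⟨p, hp, rfl⟩ := mem_image.1 hP
      exact (hF p hp).2)
  have e1 : E - (1 / 2 - η) = -η := by rw [hη]; ring
  rw [e1] at h3
  rw [← hη]
  have hY0 : 0 < Y := by linarith
  calc (F.card : ℝ) ≤ D1 * Real.sqrt N * ∑ P ∈ F.image pt, rho V P ^ (-(1 / 2 - η)) := h1
    _ ≤ D1 * Real.sqrt N * (S * Y ^ (-η)) := mul_le_mul_of_nonneg_left h3 (by positivity)
    _ ≤ D1 * Real.sqrt N * ((S + 1) * Y ^ (-η)) := by
      refine mul_le_mul_of_nonneg_left (mul_le_mul_of_nonneg_right ?_ (by positivity))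
        (by positivity)
      linarith
    _ = _ := by ring

theorem tw_upper (h : RG A B k V c j) (hFew : Few V E) (hE0 : 0 ≤ E) (hE : E < 1 / 2) :
    ∃ C : ℝ, 0 < C ∧ ∀ N : ℝ, 0 ≤ N →
    ∀ F : Finset (ℤ × ℤ), (∀ p ∈ F, p ∈ TwAll A B N) → (F.card : ℝ) ≤ C * Real.sqrt N := by
  obtain ⟨M, hM1, hM⟩ := gcdM_ex h
  obtain ⟨pt, qq, ss, hsel⟩ := sel_ex h hM
  obtain ⟨C, hC, h1⟩ := tw_tail h hFew hE0 hE hM1 hM hsel
  refine ⟨C, hC, fun N hN F hF => ?_⟩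
  have h2 := h1 N 1 hN le_rfl F fun p hp => ⟨hF p hp, rho_ge V _⟩
  rwa [Real.one_rpow, mul_one] at h2

theorem tw_many (h : RG A B k V c j) (hFew : Few V E) (hE0 : 0 ≤ E) (hE : E < 1 / 2)
    (δ ε : ℝ) (hδ : 0 < δ) (hε : 0 < ε) :
    ∃ N0 : ℝ, 1 ≤ N0 ∧ ∀ N : ℝ, N0 ≤ N → ∀ F : Finset (ℤ × ℤ),
      (∀ p ∈ F, p ∈ TwAll A B N ∧ ¬ Szr (3 - δ) (3 + δ) p) → (F.card : ℝ) ≤ ε * Real.sqrt N := by
  classical
  obtain ⟨M, hM1, hM⟩ := gcdM_ex h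
  obtain ⟨pt, qq, ss, hsel⟩ := sel_ex h hM
  obtain ⟨C1, hC1, h1⟩ := tw_tail h hFew hE0 hE hM1 hM hsel
  obtain ⟨η, hη⟩ : ∃ η : ℝ, η = (1 / 2 - E) / 2 := ⟨_, rfl⟩
  have hη0 : 0 < η := by rw [hη]; linarith
  rw [← hη] at h1
  -- the level
  obtain ⟨Y, hY⟩ : ∃ Y : ℝ, Y = (max 1 (2 * C1 / ε)) ^ (1 / η) := ⟨_, rfl⟩
  have hm1 : 1 ≤ max 1 (2 * C1 / ε) := le_max_left _ _
  have hm2 : 2 * C1 / ε ≤ max 1 (2 * C1 / ε) := le_max_right _ _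
  have hY1 : 1 ≤ Y := by rw [hY]; exact Real.one_le_rpow hm1 (by positivity)
  have hY0 : 0 < Y := by linarith
  have hYe : C1 * Y ^ (-η) ≤ ε / 2 := by
    rw [hY, ← Real.rpow_mul (by linarith)]
    have e1 : 1 / η * -η = -1 := by field_simp
    rw [e1, Real.rpow_neg_one, ← div_eq_mul_inv, div_le_iff₀ (by linarith)]
    rw [div_le_iff₀ hε] at hm2
    linarith
  -- the points below the level
  obtain ⟨C2, hC2, htot⟩ := hFew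
  have hfin : {P : ℤ × ℤ | PtV V P ∧ rho V P ≤ Y}.Finite :=
    (fin_card (B := C2 * Y ^ E) fun F hF => htot Y hY1 F fun P hP => hF P hP).1
  obtain ⟨H, hH⟩ : ∃ H : ℝ, ∀ P : ℤ × ℤ, PtV V P → rho V P ≤ Y → la (Ds A B k P) ≤ H := by
    refine ⟨∑ P ∈ hfin.toFinset, la (Ds A B k P), fun P k1 k2 => ?_⟩
    exact Finset.single_le_sum (f := fun P => la (Ds A B k P)) (fun Q _ => la_nonneg _)
      (hfin.mem_toFinset.2 ⟨k1, k2⟩)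
  obtain ⟨lM, hlM⟩ : ∃ lM : ℝ, lM = Real.log (Mc M c) := ⟨_, rfl⟩
  obtain ⟨lm, hlm⟩ : ∃ lm : ℝ, lm = Real.log M := ⟨_, rfl⟩
  obtain ⟨lY, hlY⟩ : ∃ lY : ℝ, lY = Real.log Y := ⟨_, rfl⟩
  have hlM0 : 0 ≤ lM := by rw [hlM]; exact Real.log_natCast_nonneg _
  have hlm0 : 0 ≤ lm := by rw [hlm]; exact Real.log_natCast_nonneg _
  have hlY0 : 0 ≤ lY := by rw [hlY]; exact Real.log_nonneg hY1
  obtain ⟨T, hT⟩ : ∃ T : ℝ, T = (H + 6 * lY + 6 * lm + 6 * lM) / δ := ⟨_, rfl⟩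
  obtain ⟨C3, hC3, t3⟩ := tw_upper h ⟨C2, hC2, htot⟩ hE0 hE
  obtain ⟨D3, hD3⟩ : ∃ D3 : ℝ, D3 = C3 * Real.sqrt (Real.exp T) := ⟨_, rfl⟩
  have hD30 : 0 ≤ D3 := by rw [hD3]; positivity
  refine ⟨max 1 ((2 * D3 / ε) ^ 2), le_max_left _ _, fun N hN F hF => ?_⟩
  have hN1 : 1 ≤ N := (le_max_left _ _).trans hN
  have hN2 : (2 * D3 / ε) ^ 2 ≤ N := (le_max_right _ _).trans hN
  have hN0 : 0 ≤ N := by linarith
  have hsN : 2 * D3 / ε ≤ Real.sqrt N := Real.le_sqrt_of_sq_le hN2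
  obtain ⟨F1, hF1⟩ : ∃ F1 : Finset (ℤ × ℤ), F1 = F.filter fun p => Y ≤ rho V (pt p) := ⟨_, rfl⟩
  obtain ⟨F3, hF3⟩ : ∃ F3 : Finset (ℤ × ℤ), F3 = F.filter fun p =>
    (Cond p.1 p.2 : ℝ) ≤ Real.exp T := ⟨_, rfl⟩
  have hcov : F ⊆ F1 ∪ F3 := by
    intro p hp
    obtain ⟨⟨f1, f2, f3⟩, f4⟩ := hF p hp
    obtain ⟨k1, k2, k3, k4, k5, k6, k7⟩ := hsel.all p f1 f2
    rw [mem_union, hF1, hF3, mem_filter, mem_filter]
    by_contra hcon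
    push Not at hcon
    obtain ⟨c1, c3⟩ := hcon
    have g2 := c1 hp
    have g3 := c3 hp
    apply f4
    have hgg : (0 : ℝ) < gg (Vp V (pt p)) (qq p).natAbs := by exact_mod_cast gg_pos _ _
    have hrd : (0 : ℝ) < rd (Vp V (pt p)) := by exact_mod_cast rd_pos _
    obtain ⟨x, hx⟩ : ∃ x : ℝ, x = la (4 * p.1 ^ 3 - 27 * p.2 ^ 2) := ⟨_, rfl⟩
    obtain ⟨y, hy⟩ : ∃ y : ℝ, y = lc p.1 p.2 := ⟨_, rfl⟩
    obtain ⟨lg, hlg⟩ : ∃ lg : ℝ, lg = Real.log (gg (Vp V (pt p)) (qq p).natAbs) := ⟨_, rfl⟩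
    obtain ⟨lD, hlD⟩ : ∃ lD : ℝ, lD = la (Ds A B k (pt p)) := ⟨_, rfl⟩
    obtain ⟨lq, hlq⟩ : ∃ lq : ℝ, lq = la (qq p) := ⟨_, rfl⟩
    obtain ⟨ls, hls⟩ : ∃ ls : ℝ, ls = la (ss p) := ⟨_, rfl⟩
    obtain ⟨lV, hlV⟩ : ∃ lV : ℝ, lV = Real.log (rd (Vp V (pt p))) := ⟨_, rfl⟩
    have hg0 : 0 ≤ lg := by rw [hlg]; exact Real.log_natCast_nonneg _
    have hVY : lV ≤ lY := by
      rw [hlV, hlY]
      exact Real.log_le_log hrd g2.le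
    have a1 : x = 6 * lq + lD - 6 * ls := by
      rw [hx, hlq, hlD, hls]
      exact la_disc h k1.ne' k2 k3.ne' k5 f1.1 k7
    have a2 : |y - (2 * lq + lV - lg)| ≤ 2 * lM := by
      rw [hy, hlq, hlV, hlg, hlM]
      exact lc_abs h hM1 hM k1.ne' k2 k4 k5 k6 f1.1 k7
    have a4 : lD ≤ H := by
      rw [hlD]
      exact hH _ k2 g2.le
    have a40 : 0 ≤ lD := by rw [hlD]; exact la_nonneg _
    have a5 : lg ≤ lV := by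
      rw [hlg, hlV]
      refine Real.log_le_log hgg ?_
      exact_mod_cast Nat.le_of_dvd (rd_pos _) (gg_dvd_rd _ _)
    have a6 : 0 ≤ ls := by rw [hls]; exact la_nonneg _
    have a7 : ls ≤ lm := by
      rw [hls, hlm]
      unfold la
      refine Real.log_le_log (by exact_mod_cast Int.natAbs_pos.2 k3.ne') ?_
      exact_mod_cast Nat.le_of_dvd hM1 (Int.natAbs_dvd_natAbs.2 k4)
    have a80 : 0 ≤ lV := by rw [hlV]; exact Real.log_natCast_nonneg _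
    have hy0 : T ≤ y := by
      have h5 := Real.log_le_log (Real.exp_pos T) g3.le
      rw [Real.log_exp] at h5
      rw [hy]
      exact h5
    have hTy : H + 6 * lY + 6 * lm + 6 * lM ≤ δ * y := by
      rw [hT, div_le_iff₀ hδ] at hy0
      linarith
    have key : |x - 3 * y| ≤ δ * y := by
      rw [abs_le] at a2 ⊢
      obtain ⟨a21, a22⟩ := a2
      constructor <;> linarith
    rw [hx, hy] at key
    exact pow_of_log f1.1 key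
  have e1 : (F1.card : ℝ) ≤ ε / 2 * Real.sqrt N := by
    have h2 := h1 N Y hN0 hY1 F1 (fun p hp => by
      rw [hF1] at hp
      obtain ⟨g1, g2⟩ := mem_filter.1 hp
      exact ⟨(hF p g1).1, g2⟩)
    calc (F1.card : ℝ) ≤ C1 * Real.sqrt N * Y ^ (-η) := h2
      _ = (C1 * Y ^ (-η)) * Real.sqrt N := by ring
      _ ≤ ε / 2 * Real.sqrt N := mul_le_mul_of_nonneg_right hYe (Real.sqrt_nonneg _)
  have e3 : (F3.card : ℝ) ≤ ε / 2 * Real.sqrt N := by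
    have h2 := t3 (Real.exp T) (Real.exp_pos T).le F3 (fun p hp => by
      rw [hF3] at hp
      obtain ⟨g1, g2⟩ := mem_filter.1 hp
      obtain ⟨⟨f1, f2, f3⟩, f4⟩ := hF p g1
      exact ⟨f1, f2, g2⟩)
    rw [← hD3] at h2
    rw [div_le_iff₀ hε] at hsN
    linarith
  have h2 : F.card ≤ F1.card + F3.card := (card_le_card hcov).trans (card_union_le _ _)
  have h3 : (F.card : ℝ) ≤ F1.card + F3.card := by exact_mod_cast h2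
  linarith

/-- **many twists** -/
theorem tw_lower (h : RG A B k V c j) {P : ℤ × ℤ} (k1 : 0 < P.2) (k2 : PtV V P) :
    ∃ κ : ℝ, 0 < κ ∧ ∃ N0 : ℝ, ∀ N : ℝ, N0 ≤ N →
    ∃ F : Finset (ℤ × ℤ), (∀ p ∈ F, MinS p.1 p.2 ∧ TwMem A B p.1 p.2 ∧ (Cond p.1 p.2 : ℝ) ≤ N) ∧
      κ * Real.sqrt N ≤ F.card := by
  classical
  obtain ⟨M, hM1, hM⟩ := gcdM_ex h
  have hk : (0 : ℝ) < k := by exact_mod_cast h.hk
  obtain ⟨Q, hQ⟩ : ∃ Q : ℝ, Q = (Mc M c : ℝ) * Real.sqrt (rd (Vp V P)) := ⟨_, rfl⟩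
  have hMc : (1 : ℝ) ≤ Mc M c := by exact_mod_cast Nat.pos_of_ne_zero (Mc_ne hM1 h.hc)
  have hrd : (1 : ℝ) ≤ rd (Vp V P) := by exact_mod_cast rd_pos _
  have hQ0 : 0 < Q := by rw [hQ]; positivity
  have hQ2 : Q ^ 2 = (Mc M c : ℝ) ^ 2 * rd (Vp V P) := by
    rw [hQ, mul_pow, Real.sq_sqrt (by positivity)]
  refine ⟨1 / (96 * k * Q), by positivity, Q ^ 2, fun N hN => ?_⟩
  have hN0 : 0 < N := lt_of_lt_of_le (by positivity) hN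
  have hsN : Q ≤ Real.sqrt N := Real.le_sqrt_of_sq_le hN
  obtain ⟨x, hx⟩ : ∃ x : ℝ, x = Real.sqrt N / Q := ⟨_, rfl⟩
  have hx1 : 1 ≤ x := by rw [hx, le_div_iff₀ hQ0]; linarith
  obtain ⟨Z, hZ⟩ : ∃ Z : ℕ, Z = ⌊x⌋₊ := ⟨_, rfl⟩
  have hZx : (Z : ℝ) ≤ x := by rw [hZ]; exact Nat.floor_le (by linarith)
  have hxZ : x < Z + 1 := by rw [hZ]; exact Nat.lt_floor_add_one x
  have hZ1 : (1 : ℝ) ≤ Z := by
    have : 1 ≤ Z := by rw [hZ]; exact Nat.le_floor (by simpa using hx1)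
    exact_mod_cast this
  obtain ⟨G, hG⟩ : ∃ G : Finset ((ℤ × ℤ) × ℕ), G =
    ((Ioc 0 Z).filter fun m => Squarefree m).image fun q => (P, q) := ⟨_, rfl⟩
  have hGc : (x : ℝ) / 8 ≤ G.card := by
    rw [hG, card_image_of_injective]
    · have h1 := Pool.Agent.TH4.HS.sq_count Z
      linarith
    · intro q q' hqq
      exact (Prod.mk.injEq _ _ _ _ ▸ hqq).2
  obtain ⟨F, hF1, hF2⟩ := many h hM1 hM G (N := N) (fun w hw => by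
    rw [hG] at hw
    obtain ⟨q, hq, rfl⟩ := mem_image.1 hw
    obtain ⟨q1, q2⟩ := mem_filter.1 hq
    refine ⟨k1, k2, q2, ?_⟩
    simp only
    have hqx : (q : ℝ) ≤ x := by
      refine le_trans ?_ hZx
      exact_mod_cast (mem_Ioc.1 q1).2
    calc (Mc M c : ℝ) ^ 2 * ((q : ℝ) ^ 2 * rd (Vp V P)) = (q : ℝ) ^ 2 * Q ^ 2 := by rw [hQ2]; ring
      _ ≤ x ^ 2 * Q ^ 2 := by gcongr
      _ = (x * Q) ^ 2 := by ring
      _ = N := by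
        rw [hx, div_mul_cancel₀ _ hQ0.ne', Real.sq_sqrt hN0.le])
  refine ⟨F, fun p hp => ⟨(hF1 p hp).1, (hF1 p hp).2.1, (hF1 p hp).2.2.2⟩, ?_⟩
  rw [div_mul_eq_mul_div, one_mul, div_le_iff₀ (by positivity)]
  have h1 : x / 8 ≤ 12 * k * F.card := hGc.trans hF2
  rw [hx, div_div, div_le_iff₀ (by positivity)] at h1
  linarith

end Pool.Agent.Q10.KW
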