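import Pool.Agent.Q10.KW4
import Pool.Agent.Q10.KT4
import Pool.Agent.TH498.HF.T1

/-!
Kubert's families with irrational cusps: the twists of the members
-/

set_option autoImplicit false

namespace Pool.Agent.Q10.KW

open Finset Polynomial
open Pool.Agent.TH498.HF Pool.Agent.TH498.KB
open Pool.Agent.W4.VC (hom Sqf)
open Pool.Agent.W4.CF (radp)
open Pool.Agent.Q10.KT (CountB)

theorem memQ_short (a1 a2 a3 : ℤ[X]) (t : ℚ) (C : WeierstrassCurve.VariableChange ℚ)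
    (a b : ℚ) (h : C • crv a1 a2 a3 t = ⟨0, 0, 0, -a, -b⟩) :
    ∃ u : ℚ, u ≠ 0 ∧ a = u ^ 4 * ((27 * c4p a1 a2 a3).map (Int.castRingHom ℚ)).eval t ∧
      b = u ^ 6 * ((54 * c6p a1 a2 a3).map (Int.castRingHom ℚ)).eval t := by
  have h4 := congrArg WeierstrassCurve.c₄ h
  have h6 := congrArg WeierstrassCurve.c₆ h
  rw [WeierstrassCurve.variableChange_c₄, crv_c4] at h4
  rw [WeierstrassCurve.variableChange_c₆, crv_c6] at h6
  simp only [WeierstrassCurve.c₄, WeierstrassCurve.b₂, WeierstrassCurve.b₄] at h4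
  simp only [WeierstrassCurve.c₆, WeierstrassCurve.b₂, WeierstrassCurve.b₄,
    WeierstrassCurve.b₆] at h6
  refine ⟨((C.u⁻¹ : ℚˣ) : ℚ) / 6, div_ne_zero (Units.ne_zero _) (by norm_num), ?_, ?_⟩
  · simp only [Polynomial.map_mul, Polynomial.map_ofNat, eval_mul, eval_ofNat]
    linear_combination (-1 / 48 : ℚ) * h4
  · simp only [Polynomial.map_mul, Polynomial.map_ofNat, eval_mul, eval_ofNat]
    linear_combination (-1 / 864 : ℚ) * h6

theorem shortQ_mem (a1 a2 a3 : ℤ[X]) (a b : ℚ)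
    (h : ∃ t u : ℚ, u ≠ 0 ∧ a = u ^ 4 * ((27 * c4p a1 a2 a3).map (Int.castRingHom ℚ)).eval t ∧
      b = u ^ 6 * ((54 * c6p a1 a2 a3).map (Int.castRingHom ℚ)).eval t) :
    ∃ (t : ℚ) (C : WeierstrassCurve.VariableChange ℚ),
      C • crv a1 a2 a3 t = ⟨0, 0, 0, -a, -b⟩ := by
  obtain ⟨t, u, hu, ha, hb⟩ := h
  have h6 : (6 * u : ℚ) ≠ 0 := mul_ne_zero (by norm_num) hu
  set x1 := (a1.map (Int.castRingHom ℚ)).eval t with hx1
  set x2 := (a2.map (Int.castRingHom ℚ)).eval t with hx2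
  set x3 := (a3.map (Int.castRingHom ℚ)).eval t with hx3
  have e4 := crv_c4 a1 a2 a3 t
  have e6 := crv_c6 a1 a2 a3 t
  simp only [Polynomial.map_mul, Polynomial.map_ofNat, eval_mul, eval_ofNat] at ha hb
  rw [← e4] at ha
  rw [← e6] at hb
  simp only [crv, WeierstrassCurve.c₄, WeierstrassCurve.b₂, WeierstrassCurve.b₄] at ha
  simp only [crv, WeierstrassCurve.c₆, WeierstrassCurve.b₂, WeierstrassCurve.b₄,
    WeierstrassCurve.b₆] at hb
  rw [← hx1, ← hx2, ← hx3] at ha hb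
  refine ⟨t, ⟨(Units.mk0 (6 * u) h6)⁻¹, -(x1 ^ 2 + 4 * x2) / 12, -x1 / 2,
    -(x3 + -(x1 ^ 2 + 4 * x2) / 12 * x1) / 2⟩, ?_⟩
  rw [WeierstrassCurve.variableChange_def]
  simp only [crv, inv_inv, Units.val_mk0, ← hx1, ← hx2, ← hx3]
  ext
  · simp only
    ring
  · simp only
    ring
  · simp only
    ring
  · simp only
    rw [ha]
    ring
  · simp only
    rw [hb]
    ring

/-- quadratic twists of the members -/
theorem twmem_iff (a1 a2 a3 : ℤ[X]) (W : ℚ → WeierstrassCurve ℚ)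
    (hW : ∀ t, W t = crv a1 a2 a3 t) (a b : ℤ) :
    (∃ d : ℚ, d ≠ 0 ∧ ∃ (t : ℚ) (C : WeierstrassCurve.VariableChange ℚ),
      C • W t = ⟨0, 0, 0, -(d ^ 2 * a), -(d ^ 3 * b)⟩) ↔
    TwMem (27 * c4p a1 a2 a3) (54 * c6p a1 a2 a3) a b := by
  constructor
  · rintro ⟨d, hd, t, C, hC⟩
    rw [hW t] at hC
    obtain ⟨u, hu, h1, h2⟩ := memQ_short a1 a2 a3 t C _ _ hC
    refine ⟨t, u ^ 2 / d, div_ne_zero (pow_ne_zero _ hu) hd, ?_, ?_⟩
    · rw [div_pow, div_mul_eq_mul_div, eq_div_iff (pow_ne_zero _ hd)]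
      linear_combination h1
    · rw [div_pow, div_mul_eq_mul_div, eq_div_iff (pow_ne_zero _ hd)]
      linear_combination h2
  · rintro ⟨t, δ, hδ, h1, h2⟩
    obtain ⟨t', C, hC⟩ := shortQ_mem a1 a2 a3 (δ⁻¹ ^ 2 * a) (δ⁻¹ ^ 3 * b)
      ⟨t, 1, one_ne_zero, by rw [h1]; field_simp, by rw [h2]; field_simp⟩
    exact ⟨δ⁻¹, inv_ne_zero hδ, t', C, by rw [hW t']; exact hC⟩

/-- the families of `TH498.HF` -/
theorem rg_of (A B : ℤ[X]) (k m : ℕ) (f : Fin m → ℤ[X]) (n : Fin m → ℕ)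
    (hF : FamB A B k m f n) (hR : Rev A B k m f n) : ∃ (c : ℤ) (j : ℕ),
    RG A B (2 * k) (fun P => hom (∏ i, f i) (∑ i, n i) P.1 P.2) c j := by
  obtain ⟨hk, hA, hB, hlead, hcop, hn, hsq, hdeg, G0, hG0, hG0d⟩ := hF
  obtain ⟨j, N1, G, hN1, hG, hGd⟩ := hR
  set F : ℤ[X] := ∏ i, f i with hFdef
  set q : ℕ := ∑ i, n i with hq
  have hle : F.natDegree ≤ q :=
    (natDegree_prod_le _ _).trans (Finset.sum_le_sum fun i _ => hn i)
  have hmul := Pool.Agent.W505.VC.t_HOM.1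
  have hDd : (4 * A ^ 3 - 27 * B ^ 2 : ℤ[X]).natDegree ≤ 12 * k := by
    refine (natDegree_sub_le _ _).trans (max_le ?_ ?_)
    · have h1 := natDegree_C_mul_le (4 : ℤ) (A ^ 3)
      have h2 : (C (4 : ℤ) : ℤ[X]) = 4 := by simp
      rw [h2] at h1
      have h3 := (h1.trans natDegree_pow_le)
      omega
    · have h1 := natDegree_C_mul_le (27 : ℤ) (B ^ 2)
      have h2 : (C (27 : ℤ) : ℤ[X]) = 27 := by simp
      rw [h2] at h1
      have h3 := (h1.trans natDegree_pow_le)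
      omega
  -- powers of the form
  have hpow : ∀ (i : ℕ) (a b : ℤ), hom (F ^ i) (i * q) a b = (hom F q a b) ^ i := by
    intro i a b
    induction i with
    | zero =>
      rw [pow_zero, pow_zero, Nat.zero_mul, ← C_1, hom_C, pow_zero, mul_one]
    | succ i ih =>
      rw [pow_succ, Nat.succ_mul, hmul (F ^ i) F (i * q) q (natDegree_pow_le.trans
        (Nat.mul_le_mul_left _ hle)) hle, ih, pow_succ]
  have hD : ∀ a b : ℤ, hom (4 * A ^ 3 - 27 * B ^ 2) (12 * k) a b *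
      hom G (j * q - 12 * k) a b = N1 * (hom F q a b) ^ j := by
    intro a b
    rw [← hmul _ G (12 * k) (j * q - 12 * k) hDd (by omega) a b, hG]
    have h1 : 12 * k + (j * q - 12 * k) = 0 + j * q := by omega
    have h2 : ((N1 : ℤ[X])) = C (N1 : ℤ) := by simp
    rw [h1, h2, hmul (C (N1 : ℤ)) (F ^ j) 0 (j * q) (by simp) (natDegree_pow_le.trans
        (Nat.mul_le_mul_left _ hle)) a b, hpow, hom_C, pow_zero, mul_one]
  have hD0 : ∀ a b : ℤ, hom (4 * A ^ 3 - 27 * B ^ 2) (12 * k) a b =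
      hom F q a b * hom G0 (12 * k - q) a b := by
    intro a b
    rw [← hG0, ← hmul F G0 q (12 * k - q) hle (by omega) a b]
    congr 1
    omega
  have hDAB : ∀ a b : ℤ, b ≠ 0 → hom (4 * A ^ 3 - 27 * B ^ 2) (12 * k) a b =
      4 * (hom A (4 * k) a b) ^ 3 - 27 * (hom B (6 * k) a b) ^ 2 := by
    intro a b hb
    have hden : (b : ℚ) ≠ 0 := by exact_mod_cast hb
    have hAe := hom_eval A (4 * k) hA a b hden
    have hBe := hom_eval B (6 * k) hB a b hden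
    have hDe := hom_eval (4 * A ^ 3 - 27 * B ^ 2) (12 * k) hDd a b hden
    have h4 : ((4 : ℤ[X]).map (Int.castRingHom ℚ)) = Polynomial.C 4 := by
      rw [Polynomial.map_ofNat]; rfl
    have h27 : ((27 : ℤ[X]).map (Int.castRingHom ℚ)) = Polynomial.C 27 := by
      rw [Polynomial.map_ofNat]; rfl
    simp only [Polynomial.map_mul, Polynomial.map_sub, Polynomial.map_pow, eval_mul, eval_sub,
      eval_pow] at hDe
    rw [h4, h27, eval_C, eval_C] at hDe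
    have : ((hom (4 * A ^ 3 - 27 * B ^ 2) (12 * k) a b : ℤ) : ℚ) =
        ((4 * (hom A (4 * k) a b) ^ 3 - 27 * (hom B (6 * k) a b) ^ 2 : ℤ) : ℚ) := by
      push_cast
      rw [hDe, hAe, hBe]
      ring
    exact_mod_cast this
  have hDs : ∀ P : ℤ × ℤ, P.2 ≠ 0 → Ds A B (2 * k) P =
      hom (4 * A ^ 3 - 27 * B ^ 2) (12 * k) P.1 P.2 := by
    intro P hP
    rw [hDAB _ _ hP]
    unfold Ds
    have e1 : 2 * (2 * k) = 4 * k := by ring
    have e2 : 3 * (2 * k) = 6 * k := by ring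
    rw [e1, e2]
  refine ⟨(N1 : ℤ), j, ⟨by omega, by omega, by omega, by omega, hcop, by exact_mod_cast hN1,
    fun P hP => ?_, fun P hP => ?_⟩⟩
  · rw [hDs P hP, hD0]
    exact dvd_mul_right _ _
  · rw [hDs P hP, ← hD]
    exact dvd_mul_right _ _

theorem few_of (F : ℤ[X]) (q : ℕ) (E : ℝ) (h : CountB F q E) :
    Few (fun P => hom F q P.1 P.2) E := by
  obtain ⟨C, hC, h1⟩ := h 1 le_rfl
  refine ⟨C, hC.le, fun X hX s hs => h1 X hX s fun x hx => ?_⟩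
  obtain ⟨⟨g1, g2⟩, g3⟩ := hs x hx
  refine ⟨g1, g2, ?_⟩
  refine le_trans (le_of_eq ?_) g3
  unfold rho rd Vp radp
  congr 2
  refine Finset.filter_true_of_mem fun p hp => ?_
  rw [Nat.dvd_one]
  exact (Nat.prime_of_mem_primeFactors hp).ne_one

theorem point_ex (F : ℤ[X]) (q : ℕ) (hF : F ≠ 0) (hle : F.natDegree ≤ q) :
    ∃ P : ℤ × ℤ, 0 < P.2 ∧ PtV (fun P => hom F q P.1 P.2) P := by
  by_contra hcon
  push Not at hcon
  apply hF
  refine Polynomial.funext fun a => ?_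
  by_contra h0
  refine hcon (a, 1) one_pos ⟨isCoprime_one_right, ?_⟩
  intro h1
  simp only at h1
  apply h0
  have h2 := hom_eval F q hle a 1 (by norm_num)
  rw [h1] at h2
  simp only [Int.cast_zero, Int.cast_one, one_pow, one_mul, div_one] at h2
  rw [eval_zero]
  have h3 : ((F.eval a : ℤ) : ℚ) = 0 := by
    rw [h2]
    have := Polynomial.eval_intCast_map (Int.castRingHom ℚ) F a
    rw [this]
    simp
  exact_mod_cast h3

/-- **the twists of the members of a family** -/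
theorem twists (A B : ℤ[X]) (k m : ℕ) (f : Fin m → ℤ[X]) (n : Fin m → ℕ)
    (hF : FamB A B k m f n) (hR : Rev A B k m f n) (E : ℝ) (hE0 : 0 ≤ E) (hE : E < 1 / 2)
    (hc : CountB (∏ i, f i) (∑ i, n i) E) :
    (∃ C : ℝ, 0 < C ∧ ∀ N : ℝ, 1 ≤ N → (TwAll A B N).Finite ∧
      ((TwAll A B N).ncard : ℝ) ≤ C * Real.sqrt N) ∧
    (∃ κ : ℝ, 0 < κ ∧ ∃ N0 : ℝ, ∀ N : ℝ, N0 ≤ N → κ * Real.sqrt N ≤ ((TwAll A B N).ncard : ℝ)) ∧
    (∀ δ ε : ℝ, 0 < δ → 0 < ε → ∃ N0 : ℝ, ∀ N : ℝ, N0 ≤ N →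
      ({p | p ∈ TwAll A B N ∧ ¬ Szr (3 - δ) (3 + δ) p}.ncard : ℝ) ≤ ε * Real.sqrt N) := by
  obtain ⟨c, j, h⟩ := rg_of A B k m f n hF hR
  have hFew := few_of _ _ E hc
  have hF0 : (∏ i, f i) ≠ 0 := by
    intro h0
    have h1 := hF.hsq
    rw [h0] at h1
    simp at h1
  have hle : (∏ i, f i).natDegree ≤ ∑ i, n i :=
    (natDegree_prod_le _ _).trans (Finset.sum_le_sum fun i _ => hF.hn i)
  obtain ⟨P, hP1, hP2⟩ := point_ex (∏ i, f i) (∑ i, n i) hF0 hle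
  obtain ⟨C, hC, hup⟩ := tw_upper h hFew hE0 hE
  have hall : ∀ N : ℝ, 0 ≤ N → (TwAll A B N).Finite ∧
      ((TwAll A B N).ncard : ℝ) ≤ C * Real.sqrt N :=
    fun N hN => fin_card fun F hF => hup N hN F hF
  refine ⟨⟨C, hC, fun N hN => hall N (by linarith)⟩, ?_, ?_⟩
  · obtain ⟨κ, hκ, N0, hlow⟩ := tw_lower h hP1 hP2
    refine ⟨κ, hκ, max 0 N0, fun N hN => ?_⟩
    obtain ⟨F, hF1, hF2⟩ := hlow N ((le_max_right _ _).trans hN)
    refine hF2.trans ?_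
    have h1 : (F : Set (ℤ × ℤ)) ⊆ TwAll A B N := fun p hp => hF1 p hp
    have h2 := Set.ncard_le_ncard h1 (hall N ((le_max_left _ _).trans hN)).1
    rw [Set.ncard_coe_finset] at h2
    exact_mod_cast h2
  · intro δ ε hδ hε
    obtain ⟨N0, hN0, hmany⟩ := tw_many h hFew hE0 hE δ ε hδ hε
    refine ⟨N0, fun N hN => ?_⟩
    exact (fin_card fun F hF => hmany N hN F hF).2

end Pool.Agent.Q10.KW
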