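import Pool.Agent.Q10.KW5

/-!
General families: the twists of the members
-/

set_option autoImplicit false

namespace Pool.Agent.Q10.KW

open Finset Polynomial
open Pool.Agent.TH498.HF Pool.Agent.TH498.KB
open Pool.Agent.W4.VC (hom Sqf)
open Pool.Agent.Q10.KT (CountB)

theorem hom_powQ (f : ℤ[X]) (n : ℕ) (hf : f.natDegree ≤ n) (i : ℕ) (a b : ℤ) :
    hom (f ^ i) (i * n) a b = (hom f n a b) ^ i := by
  have hmul := Pool.Agent.W505.VC.t_HOM.1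
  induction i with
  | zero => rw [pow_zero, pow_zero, Nat.zero_mul, ← C_1, hom_C, pow_zero, mul_one]
  | succ i ih =>
    rw [pow_succ, Nat.succ_mul, hmul (f ^ i) f (i * n) n (natDegree_pow_le.trans
      (Nat.mul_le_mul_left _ hf)) hf, ih, pow_succ]

/-- the data of a family give the divisibilities -/
theorem rg_gen (A B : ℤ[X]) (κ : ℕ) {ι : Type} [Fintype ι] [DecidableEq ι]
    (h1 : 1 ≤ κ) (hA : A.natDegree ≤ 2 * κ) (hB : B.natDegree ≤ 3 * κ)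
    (hlead : A.natDegree = 2 * κ ∨ B.natDegree = 3 * κ)
    (hcop : IsCoprime (A.map (Int.castRingHom ℚ)) (B.map (Int.castRingHom ℚ)))
    (F : ι → ℤ[X]) (d e : ι → ℕ) (hd : ∀ k, (F k).natDegree ≤ d k) (he : ∀ k, 1 ≤ e k)
    (c : ℤ) (hc : c ≠ 0) (hsum : ∑ k, e k * d k = 6 * κ)
    (hD : 4 * A ^ 3 - 27 * B ^ 2 = C c * ∏ k, F k ^ e k) :
    RG A B κ (fun P => hom (∏ k, F k) (∑ k, d k) P.1 P.2) c (∑ k, e k) := by
  have hmul := Pool.Agent.W505.VC.t_HOM.1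
  have hDs : ∀ P : ℤ × ℤ, P.2 ≠ 0 → Ds A B κ P = c * ∏ k, (hom (F k) (d k) P.1 P.2) ^ e k := by
    intro P hP
    have hden : (P.2 : ℚ) ≠ 0 := by exact_mod_cast hP
    have hAe := hom_eval A (2 * κ) hA P.1 P.2 hden
    have hBe := hom_eval B (3 * κ) hB P.1 P.2 hden
    have hp := hom_prod univ (fun k => F k ^ e k) (fun k => e k * d k)
      (fun k _ => natDegree_pow_le.trans (Nat.mul_le_mul_left _ (hd k))) P.1 P.2
    have hle : (C c * ∏ k, F k ^ e k).natDegree ≤ 6 * κ := by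
      refine (natDegree_C_mul_le _ _).trans ?_
      rw [← hsum]
      exact hp.1
    have hDe := hom_eval (C c * ∏ k, F k ^ e k) (6 * κ) hle P.1 P.2 hden
    have e1 : hom (C c * ∏ k, F k ^ e k) (6 * κ) P.1 P.2 =
        c * ∏ k, (hom (F k) (d k) P.1 P.2) ^ e k := by
      have e2 : 6 * κ = 0 + ∑ k, e k * d k := by rw [hsum, zero_add]
      rw [e2, hmul (C c) _ 0 _ (by simp) hp.1, hom_C, pow_zero, mul_one, hp.2]
      congr 1
      exact Finset.prod_congr rfl fun k _ => hom_powQ _ _ (hd k) _ _ _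
    rw [← e1]
    have h4 : ((4 : ℤ[X]).map (Int.castRingHom ℚ)) = Polynomial.C 4 := by
      rw [Polynomial.map_ofNat]; rfl
    have h27 : ((27 : ℤ[X]).map (Int.castRingHom ℚ)) = Polynomial.C 27 := by
      rw [Polynomial.map_ofNat]; rfl
    rw [← hD] at hDe
    simp only [Polynomial.map_mul, Polynomial.map_sub, Polynomial.map_pow, eval_mul, eval_sub,
      eval_pow] at hDe
    rw [h4, h27, eval_C, eval_C] at hDe
    have p1 : ((P.2 : ℚ) ^ (2 * κ)) ^ 3 = (P.2 : ℚ) ^ (6 * κ) := by rw [← pow_mul]; congr 1; ring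
    have p2 : ((P.2 : ℚ) ^ (3 * κ)) ^ 2 = (P.2 : ℚ) ^ (6 * κ) := by rw [← pow_mul]; congr 1; ring
    have : ((Ds A B κ P : ℤ) : ℚ) = ((hom (C c * ∏ k, F k ^ e k) (6 * κ) P.1 P.2 : ℤ) : ℚ) := by
      rw [← hD, hDe]
      unfold Ds
      push_cast
      rw [hAe, hBe, mul_pow, mul_pow, p1, p2]
      ring
    exact_mod_cast this
  have hV : ∀ P : ℤ × ℤ, hom (∏ k, F k) (∑ k, d k) P.1 P.2 = ∏ k, hom (F k) (d k) P.1 P.2 :=
    fun P => (hom_prod univ F d (fun k _ => hd k) P.1 P.2).2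
  refine ⟨h1, hA, hB, hlead, hcop, hc, fun P hP => ?_, fun P hP => ?_⟩
  · rw [hDs P hP, hV]
    refine Dvd.dvd.mul_left ?_ _
    refine Finset.prod_dvd_prod_of_dvd _ _ fun k _ => dvd_pow_self _ ?_
    have := he k
    omega
  · rw [hDs P hP, hV, ← Finset.prod_pow]
    refine mul_dvd_mul_left _ (Finset.prod_dvd_prod_of_dvd _ _ fun k _ => pow_dvd_pow _ ?_)
    exact Finset.single_le_sum (f := e) (fun _ _ => Nat.zero_le _) (mem_univ k)

/-- the conclusions -/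
theorem twists_gen {A B : ℤ[X]} {κ : ℕ} {c : ℤ} {j : ℕ} (F : ℤ[X]) (q : ℕ) (hF0 : F ≠ 0)
    (hle : F.natDegree ≤ q) (h : RG A B κ (fun P => hom F q P.1 P.2) c j) (E : ℝ) (hE0 : 0 ≤ E)
    (hE : E < 1 / 2) (hc : CountB F q E) :
    (∃ C : ℝ, 0 < C ∧ ∀ N : ℝ, 1 ≤ N → (TwAll A B N).Finite ∧
      ((TwAll A B N).ncard : ℝ) ≤ C * Real.sqrt N) ∧
    (∃ κ : ℝ, 0 < κ ∧ ∃ N0 : ℝ, ∀ N : ℝ, N0 ≤ N → κ * Real.sqrt N ≤ ((TwAll A B N).ncard : ℝ)) ∧
    (∀ δ ε : ℝ, 0 < δ → 0 < ε → ∃ N0 : ℝ, ∀ N : ℝ, N0 ≤ N →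
      ({p | p ∈ TwAll A B N ∧ ¬ Szr (3 - δ) (3 + δ) p}.ncard : ℝ) ≤ ε * Real.sqrt N) := by
  have hFew := few_of _ _ E hc
  obtain ⟨P, hP1, hP2⟩ := point_ex F q hF0 hle
  obtain ⟨C, hC, hup⟩ := tw_upper h hFew hE0 hE
  have hall : ∀ N : ℝ, 0 ≤ N → (TwAll A B N).Finite ∧
      ((TwAll A B N).ncard : ℝ) ≤ C * Real.sqrt N :=
    fun N hN => fin_card fun F hF => hup N hN F hF
  refine ⟨⟨C, hC, fun N hN => hall N (by linarith)⟩, ?_, ?_⟩
  · obtain ⟨κ, hκ, N0, hlow⟩ := tw_lower h hP1 hP2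
    refine ⟨κ, hκ, max 0 N0, fun N hN => ?_⟩
    obtain ⟨F, hF1, hF2⟩ := hlow N ((le_max_right _ _).trans hN)
    refine hF2.trans ?_
    have h1 : (F : Set (ℤ × ℤ)) ⊆ TwAll A B N := fun p hp => hF1 p hp
    have h2 := Set.ncard_le_ncard h1 (hall N ((le_max_left _ _).trans hN)).1
    rw [Set.ncard_coe_finset] at h2
    exact_mod_cast h2
  · intro δ ε hδ hε
    obtain ⟨N0, hN0, hmany⟩ := tw_many h hFew hE0 hE δ ε hδ hε
    refine ⟨N0, fun N hN => ?_⟩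
    exact (fin_card fun F hF => hmany N hN F hF).2

end Pool.Agent.Q10.KW
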