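import Pool.Agent.Q10.KW6

/-!
Twists of the members of a family by the conductor: the modified Szpiro inequality
-/

set_option autoImplicit false

namespace Pool.Agent.Q10.KW

open Finset Polynomial
open Pool.Agent.TH498.KB (Mem MinS Cond hom_eval prim_of_minS)
open Pool.Agent.W4.VC (hom)

variable {A B : ℤ[X]} {k : ℕ} {V : ℤ × ℤ → ℤ} {c : ℤ} {j : ℕ} {E : ℝ}

/-- `max (|a|³, b²)` -/
noncomputable def mx (a b : ℤ) : ℝ := max (|(a : ℝ)| ^ 3) ((b : ℝ) ^ 2)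

theorem mx_pos {a b : ℤ} (h : 4 * a ^ 3 - 27 * b ^ 2 ≠ 0) : 0 < mx a b := by
  unfold mx
  rw [lt_max_iff]
  by_contra hcon
  push Not at hcon
  obtain ⟨h1, h2⟩ := hcon
  have ha : a = 0 := by
    by_contra h0
    have : 0 < |(a : ℝ)| := abs_pos.2 (by exact_mod_cast h0)
    have := pow_pos this 3
    linarith
  have hb : b = 0 := by
    by_contra h0
    have : (b : ℝ) ≠ 0 := by exact_mod_cast h0
    have := sq_pos_of_ne_zero this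
    linarith
  apply h
  rw [ha, hb]
  norm_num

/-- `N ^ lo ≤ |D|` and `max (|a|³, b²) ≤ N ^ hi` -/
def Szr2 (lo hi : ℝ) (p : ℤ × ℤ) : Prop :=
  (Cond p.1 p.2 : ℝ) ^ lo ≤ |((4 * p.1 ^ 3 - 27 * p.2 ^ 2 : ℤ) : ℝ)| ∧
    max (|(p.1 : ℝ)| ^ 3) ((p.2 : ℝ) ^ 2) ≤ (Cond p.1 p.2 : ℝ) ^ hi

theorem szr2_of_log {p : ℤ × ℤ} {lo hi : ℝ} (hD : 4 * p.1 ^ 3 - 27 * p.2 ^ 2 ≠ 0)
    (h1 : lo * lc p.1 p.2 ≤ la (4 * p.1 ^ 3 - 27 * p.2 ^ 2))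
    (h2 : Real.log (mx p.1 p.2) ≤ hi * lc p.1 p.2) : Szr2 lo hi p := by
  have hC : (0 : ℝ) < Cond p.1 p.2 := by exact_mod_cast cond_pos p.1 p.2
  have hDpos : (0 : ℝ) < |((4 * p.1 ^ 3 - 27 * p.2 ^ 2 : ℤ) : ℝ)| :=
    abs_pos.2 (by exact_mod_cast hD)
  have hla : la (4 * p.1 ^ 3 - 27 * p.2 ^ 2) =
      Real.log |((4 * p.1 ^ 3 - 27 * p.2 ^ 2 : ℤ) : ℝ)| := by
    unfold la
    congr 1
    rw [Nat.cast_natAbs, Int.cast_abs]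
  rw [hla] at h1
  unfold lc at h1 h2
  constructor
  · rw [← Real.log_le_log_iff (by positivity) hDpos, Real.log_rpow hC]
    exact h1
  · have hm := mx_pos hD
    have h3 : mx p.1 p.2 ≤ (Cond p.1 p.2 : ℝ) ^ hi := by
      rw [← Real.log_le_log_iff hm (by positivity), Real.log_rpow hC]
      exact h2
    exact h3

/-- the two maxima -/
theorem lmx_rel (h : RG A B k V c j) {a b q s : ℤ} {P : ℤ × ℤ} (hP : P.2 ≠ 0) (hpt : PtV V P)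
    (hs : s ≠ 0) (hq : q ≠ 0) (hr : Rel A B k a b P q s) :
    Real.log (mx a b) =
      6 * la q + Real.log (mx (hom A (2 * k) P.1 P.2) (hom B (3 * k) P.1 P.2)) - 6 * la s := by
  have hD := Ds_ne h hP hpt
  have hm := mx_pos hD
  have hsR : (0 : ℝ) < |(s : ℝ)| := abs_pos.2 (by exact_mod_cast hs)
  have hqR : (0 : ℝ) < |(q : ℝ)| := abs_pos.2 (by exact_mod_cast hq)
  have e1 : |(a : ℝ)| ^ 3 * |(s : ℝ)| ^ 6 = |(q : ℝ)| ^ 6 * |((hom A (2 * k) P.1 P.2 : ℤ) : ℝ)| ^ 3 := by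
    have h1 := congrArg (fun n : ℤ => |(n : ℝ)|) hr.h1
    simp only [Int.cast_mul, Int.cast_pow, abs_mul, abs_pow] at h1
    calc |(a : ℝ)| ^ 3 * |(s : ℝ)| ^ 6 = (|(a : ℝ)| * |(s : ℝ)| ^ 2) ^ 3 := by ring
      _ = _ := by rw [h1]; ring
  have e2 : (b : ℝ) ^ 2 * |(s : ℝ)| ^ 6 = |(q : ℝ)| ^ 6 * ((hom B (3 * k) P.1 P.2 : ℤ) : ℝ) ^ 2 := by
    have h1 := congrArg (fun n : ℤ => |(n : ℝ)|) hr.h2
    simp only [Int.cast_mul, Int.cast_pow, abs_mul, abs_pow] at h1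
    rw [← sq_abs (b : ℝ), ← sq_abs ((hom B (3 * k) P.1 P.2 : ℤ) : ℝ)]
    calc |(b : ℝ)| ^ 2 * |(s : ℝ)| ^ 6 = (|(b : ℝ)| * |(s : ℝ)| ^ 3) ^ 2 := by ring
      _ = _ := by rw [h1]; ring
  have e3 : mx a b * |(s : ℝ)| ^ 6 =
      |(q : ℝ)| ^ 6 * mx (hom A (2 * k) P.1 P.2) (hom B (3 * k) P.1 P.2) := by
    unfold mx
    rw [max_mul_of_nonneg _ _ (by positivity), mul_max_of_nonneg _ _ (by positivity), e1, e2]
  have hm0 : 0 < mx a b := by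
    have h1 : 0 < mx a b * |(s : ℝ)| ^ 6 := by rw [e3]; positivity
    exact (pos_iff_pos_of_mul_pos h1).2 (by positivity)
  have e4 := congrArg Real.log e3
  rw [Real.log_mul hm0.ne' (by positivity), Real.log_mul (by positivity) hm.ne', Real.log_pow,
    Real.log_pow] at e4
  have hls : la s = Real.log |(s : ℝ)| := by
    unfold la
    congr 1
    rw [Nat.cast_natAbs, Int.cast_abs]
  have hlq : la q = Real.log |(q : ℝ)| := by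
    unfold la
    congr 1
    rw [Nat.cast_natAbs, Int.cast_abs]
  rw [hls, hlq]
  push_cast at e4
  linarith

theorem fin_bd {α : Type*} {S : Set α} (hS : S.Finite) (f : α → ℝ) :
    ∃ H : ℝ, ∀ P ∈ S, |f P| ≤ H := by
  obtain ⟨H, hH⟩ := (hS.image fun P => |f P|).bddAbove
  exact ⟨H, fun P hP => hH ⟨P, hP, rfl⟩⟩

theorem tw_many2 (h : RG A B k V c j) (hFew : Few V E) (hE0 : 0 ≤ E) (hE : E < 1 / 2)
    (δ ε : ℝ) (hδ : 0 < δ) (hε : 0 < ε) :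
    ∃ N0 : ℝ, 1 ≤ N0 ∧ ∀ N : ℝ, N0 ≤ N → ∀ F : Finset (ℤ × ℤ),
      (∀ p ∈ F, p ∈ TwAll A B N ∧ ¬ Szr2 (3 - δ) (3 + δ) p) → (F.card : ℝ) ≤ ε * Real.sqrt N := by
  classical
  obtain ⟨M, hM1, hM⟩ := gcdM_ex h
  obtain ⟨pt, qq, ss, hsel⟩ := sel_ex h hM
  obtain ⟨C1, hC1, h1⟩ := tw_tail h hFew hE0 hE hM1 hM hsel
  obtain ⟨η, hη⟩ : ∃ η : ℝ, η = (1 / 2 - E) / 2 := ⟨_, rfl⟩
  have hη0 : 0 < η := by rw [hη]; linarith
  rw [← hη] at h1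
  -- the level
  obtain ⟨Y, hY⟩ : ∃ Y : ℝ, Y = (max 1 (2 * C1 / ε)) ^ (1 / η) := ⟨_, rfl⟩
  have hm1 : 1 ≤ max 1 (2 * C1 / ε) := le_max_left _ _
  have hm2 : 2 * C1 / ε ≤ max 1 (2 * C1 / ε) := le_max_right _ _
  have hY1 : 1 ≤ Y := by rw [hY]; exact Real.one_le_rpow hm1 (by positivity)
  have hY0 : 0 < Y := by linarith
  have hYe : C1 * Y ^ (-η) ≤ ε / 2 := by
    rw [hY, ← Real.rpow_mul (by linarith)]
    have e1 : 1 / η * -η = -1 := by field_simp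
    rw [e1, Real.rpow_neg_one, ← div_eq_mul_inv, div_le_iff₀ (by linarith)]
    rw [div_le_iff₀ hε] at hm2
    linarith
  -- the points below the level
  obtain ⟨C2, hC2, htot⟩ := hFew
  have hfin : {P : ℤ × ℤ | PtV V P ∧ rho V P ≤ Y}.Finite :=
    (fin_card (B := C2 * Y ^ E) fun F hF => htot Y hY1 F fun P hP => hF P hP).1
  obtain ⟨H, hH0⟩ := fin_bd hfin fun P =>
    Real.log (mx (hom A (2 * k) P.1 P.2) (hom B (3 * k) P.1 P.2))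
  have hH : ∀ P : ℤ × ℤ, PtV V P → rho V P ≤ Y →
      |Real.log (mx (hom A (2 * k) P.1 P.2) (hom B (3 * k) P.1 P.2))| ≤ H :=
    fun P k1 k2 => hH0 P ⟨k1, k2⟩
  obtain ⟨lM, hlM⟩ : ∃ lM : ℝ, lM = Real.log (Mc M c) := ⟨_, rfl⟩
  obtain ⟨lm, hlm⟩ : ∃ lm : ℝ, lm = Real.log M := ⟨_, rfl⟩
  obtain ⟨lY, hlY⟩ : ∃ lY : ℝ, lY = Real.log Y := ⟨_, rfl⟩
  have hlM0 : 0 ≤ lM := by rw [hlM]; exact Real.log_natCast_nonneg _
  have hlm0 : 0 ≤ lm := by rw [hlm]; exact Real.log_natCast_nonneg _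
  have hlY0 : 0 ≤ lY := by rw [hlY]; exact Real.log_nonneg hY1
  obtain ⟨T, hT⟩ : ∃ T : ℝ, T = (H + 6 * lY + 6 * lm + 6 * lM) / δ := ⟨_, rfl⟩
  obtain ⟨C3, hC3, t3⟩ := tw_upper h ⟨C2, hC2, htot⟩ hE0 hE
  obtain ⟨D3, hD3⟩ : ∃ D3 : ℝ, D3 = C3 * Real.sqrt (Real.exp T) := ⟨_, rfl⟩
  have hD30 : 0 ≤ D3 := by rw [hD3]; positivity
  refine ⟨max 1 ((2 * D3 / ε) ^ 2), le_max_left _ _, fun N hN F hF => ?_⟩
  have hN1 : 1 ≤ N := (le_max_left _ _).trans hN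
  have hN2 : (2 * D3 / ε) ^ 2 ≤ N := (le_max_right _ _).trans hN
  have hN0 : 0 ≤ N := by linarith
  have hsN : 2 * D3 / ε ≤ Real.sqrt N := Real.le_sqrt_of_sq_le hN2
  obtain ⟨F1, hF1⟩ : ∃ F1 : Finset (ℤ × ℤ), F1 = F.filter fun p => Y ≤ rho V (pt p) := ⟨_, rfl⟩
  obtain ⟨F3, hF3⟩ : ∃ F3 : Finset (ℤ × ℤ), F3 = F.filter fun p =>
    (Cond p.1 p.2 : ℝ) ≤ Real.exp T := ⟨_, rfl⟩
  have hcov : F ⊆ F1 ∪ F3 := by
    intro p hp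
    obtain ⟨⟨f1, f2, f3⟩, f4⟩ := hF p hp
    obtain ⟨k1, k2, k3, k4, k5, k6, k7⟩ := hsel.all p f1 f2
    rw [mem_union, hF1, hF3, mem_filter, mem_filter]
    by_contra hcon
    push Not at hcon
    obtain ⟨c1, c3⟩ := hcon
    have g2 := c1 hp
    have g3 := c3 hp
    apply f4
    have hgg : (0 : ℝ) < gg (Vp V (pt p)) (qq p).natAbs := by exact_mod_cast gg_pos _ _
    have hrd : (0 : ℝ) < rd (Vp V (pt p)) := by exact_mod_cast rd_pos _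
    obtain ⟨x, hx⟩ : ∃ x : ℝ, x = la (4 * p.1 ^ 3 - 27 * p.2 ^ 2) := ⟨_, rfl⟩
    obtain ⟨y, hy⟩ : ∃ y : ℝ, y = lc p.1 p.2 := ⟨_, rfl⟩
    obtain ⟨lg, hlg⟩ : ∃ lg : ℝ, lg = Real.log (gg (Vp V (pt p)) (qq p).natAbs) := ⟨_, rfl⟩
    obtain ⟨lD, hlD⟩ : ∃ lD : ℝ, lD = la (Ds A B k (pt p)) := ⟨_, rfl⟩
    obtain ⟨z, hz⟩ : ∃ z : ℝ, z = Real.log (mx p.1 p.2) := ⟨_, rfl⟩
    obtain ⟨lX, hlX⟩ : ∃ lX : ℝ, lX = Real.log (mx (hom A (2 * k) (pt p).1 (pt p).2)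
      (hom B (3 * k) (pt p).1 (pt p).2)) := ⟨_, rfl⟩
    obtain ⟨lq, hlq⟩ : ∃ lq : ℝ, lq = la (qq p) := ⟨_, rfl⟩
    obtain ⟨ls, hls⟩ : ∃ ls : ℝ, ls = la (ss p) := ⟨_, rfl⟩
    obtain ⟨lV, hlV⟩ : ∃ lV : ℝ, lV = Real.log (rd (Vp V (pt p))) := ⟨_, rfl⟩
    have hg0 : 0 ≤ lg := by rw [hlg]; exact Real.log_natCast_nonneg _
    have hVY : lV ≤ lY := by
      rw [hlV, hlY]
      exact Real.log_le_log hrd g2.le
    have a1 : x = 6 * lq + lD - 6 * ls := by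
      rw [hx, hlq, hlD, hls]
      exact la_disc h k1.ne' k2 k3.ne' k5 f1.1 k7
    have a2 : |y - (2 * lq + lV - lg)| ≤ 2 * lM := by
      rw [hy, hlq, hlV, hlg, hlM]
      exact lc_abs h hM1 hM k1.ne' k2 k4 k5 k6 f1.1 k7
    have b1 : z = 6 * lq + lX - 6 * ls := by
      rw [hz, hlq, hlX, hls]
      exact lmx_rel h k1.ne' k2 k3.ne' k5 k7
    have a4 : |lX| ≤ H := by
      rw [hlX]
      exact hH _ k2 g2.le
    have a40 : 0 ≤ lD := by rw [hlD]; exact la_nonneg _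
    have a5 : lg ≤ lV := by
      rw [hlg, hlV]
      refine Real.log_le_log hgg ?_
      exact_mod_cast Nat.le_of_dvd (rd_pos _) (gg_dvd_rd _ _)
    have a6 : 0 ≤ ls := by rw [hls]; exact la_nonneg _
    have a7 : ls ≤ lm := by
      rw [hls, hlm]
      unfold la
      refine Real.log_le_log (by exact_mod_cast Int.natAbs_pos.2 k3.ne') ?_
      exact_mod_cast Nat.le_of_dvd hM1 (Int.natAbs_dvd_natAbs.2 k4)
    have a80 : 0 ≤ lV := by rw [hlV]; exact Real.log_natCast_nonneg _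
    have hy0 : T ≤ y := by
      have h5 := Real.log_le_log (Real.exp_pos T) g3.le
      rw [Real.log_exp] at h5
      rw [hy]
      exact h5
    have hTy : H + 6 * lY + 6 * lm + 6 * lM ≤ δ * y := by
      rw [hT, div_le_iff₀ hδ] at hy0
      linarith
    rw [abs_le] at a2 a4
    obtain ⟨a21, a22⟩ := a2
    obtain ⟨a41, a42⟩ := a4
    refine szr2_of_log f1.1 ?_ ?_
    · rw [← hx, ← hy]
      linarith
    · rw [← hz, ← hy]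
      linarith
  have e1 : (F1.card : ℝ) ≤ ε / 2 * Real.sqrt N := by
    have h2 := h1 N Y hN0 hY1 F1 (fun p hp => by
      rw [hF1] at hp
      obtain ⟨g1, g2⟩ := mem_filter.1 hp
      exact ⟨(hF p g1).1, g2⟩)
    calc (F1.card : ℝ) ≤ C1 * Real.sqrt N * Y ^ (-η) := h2
      _ = (C1 * Y ^ (-η)) * Real.sqrt N := by ring
      _ ≤ ε / 2 * Real.sqrt N := mul_le_mul_of_nonneg_right hYe (Real.sqrt_nonneg _)
  have e3 : (F3.card : ℝ) ≤ ε / 2 * Real.sqrt N := by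
    have h2 := t3 (Real.exp T) (Real.exp_pos T).le F3 (fun p hp => by
      rw [hF3] at hp
      obtain ⟨g1, g2⟩ := mem_filter.1 hp
      obtain ⟨⟨f1, f2, f3⟩, f4⟩ := hF p g1
      exact ⟨f1, f2, g2⟩)
    rw [← hD3] at h2
    rw [div_le_iff₀ hε] at hsN
    linarith
  have h2 : F.card ≤ F1.card + F3.card := (card_le_card hcov).trans (card_union_le _ _)
  have h3 : (F.card : ℝ) ≤ F1.card + F3.card := by exact_mod_cast h2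
  linarith

/-- the conclusions -/
theorem twists_gen2 {A B : ℤ[X]} {κ : ℕ} {c : ℤ} {j : ℕ} (F : ℤ[X]) (q : ℕ) (hF0 : F ≠ 0)
    (hle : F.natDegree ≤ q) (h : RG A B κ (fun P => hom F q P.1 P.2) c j) (E : ℝ) (hE0 : 0 ≤ E)
    (hE : E < 1 / 2) (hc : Pool.Agent.Q10.KT.CountB F q E) :
    (∃ C : ℝ, 0 < C ∧ ∀ N : ℝ, 1 ≤ N → (TwAll A B N).Finite ∧
      ((TwAll A B N).ncard : ℝ) ≤ C * Real.sqrt N) ∧
    (∃ κ : ℝ, 0 < κ ∧ ∃ N0 : ℝ, ∀ N : ℝ, N0 ≤ N → κ * Real.sqrt N ≤ ((TwAll A B N).ncard : ℝ)) ∧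
    (∀ δ ε : ℝ, 0 < δ → 0 < ε → ∃ N0 : ℝ, ∀ N : ℝ, N0 ≤ N →
      ({p | p ∈ TwAll A B N ∧ ¬ Szr2 (3 - δ) (3 + δ) p}.ncard : ℝ) ≤ ε * Real.sqrt N) := by
  obtain ⟨h1, h2, -⟩ := twists_gen F q hF0 hle h E hE0 hE hc
  refine ⟨h1, h2, fun δ ε hδ hε => ?_⟩
  obtain ⟨N0, hN0, hmany⟩ := tw_many2 h (few_of _ _ E hc) hE0 hE δ ε hδ hε
  refine ⟨N0, fun N hN => ?_⟩
  exact (fin_card fun F hF => hmany N hN F hF).2

end Pool.Agent.Q10.KW
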