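import Pool.Agent.Q10.KX1
import Pool.Agent.Y679.Fh.Gm

/-!
The Faltings height of almost all quadratic twists of the members of a family, by conductor
(the comparison of heights after `Y679.Fh.Ht`)
-/

set_option autoImplicit false

namespace Pool.Agent.Q10.KW

open Finset Polynomial
open Pool.Agent.TH498.KB (Mem MinS Cond hom_eval prim_of_minS)
open Pool.Agent.TH876.FH (jInv arch ana)
open Pool.Agent.W4.VC (hom)

/-- the curve `y² = x³ - a x - b` -/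
def Eq (q : ℤ × ℤ) : WeierstrassCurve ℚ := ⟨0, 0, 0, -(q.1 : ℚ), -(q.2 : ℚ)⟩

/-- the absolute value of the minimal discriminant -/
noncomputable def minDisc (W : WeierstrassCurve ℚ) : ℕ :=
  sInf {n : ℕ | ∃ (V : WeierstrassCurve ℤ) (C : WeierstrassCurve.VariableChange ℚ),
    C • W = V.map (Int.castRingHom ℚ) ∧ n = V.Δ.natAbs}

/-- the integral model -/
def Ez (q : ℤ × ℤ) : WeierstrassCurve ℤ := ⟨0, 0, 0, -q.1, -q.2⟩

theorem Ez_map (q : ℤ × ℤ) : (1 : WeierstrassCurve.VariableChange ℚ) • Eq q =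
    (Ez q).map (Int.castRingHom ℚ) := by
  rw [one_smul]
  unfold Eq Ez
  simp [WeierstrassCurve.map]

theorem Ez_disc (q : ℤ × ℤ) : (Ez q).Δ = 16 * (4 * q.1 ^ 3 - 27 * q.2 ^ 2) := by
  unfold Ez
  simp only [WeierstrassCurve.Δ, WeierstrassCurve.b₂, WeierstrassCurve.b₄, WeierstrassCurve.b₆,
    WeierstrassCurve.b₈]
  ring

theorem Ez_c4 (q : ℤ × ℤ) : (Ez q).c₄ = 48 * q.1 := by
  unfold Ez
  simp only [WeierstrassCurve.c₄, WeierstrassCurve.b₂, WeierstrassCurve.b₄]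
  ring

theorem Ez_c6 (q : ℤ × ℤ) : (Ez q).c₆ = 864 * q.2 := by
  unfold Ez
  simp only [WeierstrassCurve.c₆, WeierstrassCurve.b₂, WeierstrassCurve.b₄, WeierstrassCurve.b₆]
  ring

theorem minDisc_le (q : ℤ × ℤ) :
    minDisc (Eq q) ≤ 16 * (4 * q.1 ^ 3 - 27 * q.2 ^ 2 : ℤ).natAbs := by
  refine Nat.sInf_le ⟨Ez q, 1, Ez_map q, ?_⟩
  rw [Ez_disc, Int.natAbs_mul]
  rfl

theorem c4_Eq (q : ℤ × ℤ) : (Eq q).c₄ = 48 * q.1 := by
  unfold Eq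
  simp only [WeierstrassCurve.c₄, WeierstrassCurve.b₂, WeierstrassCurve.b₄]
  ring

theorem c6_Eq (q : ℤ × ℤ) : (Eq q).c₆ = 864 * q.2 := by
  unfold Eq
  simp only [WeierstrassCurve.c₆, WeierstrassCurve.b₂, WeierstrassCurve.b₄, WeierstrassCurve.b₆]
  ring

theorem disc_Eq (q : ℤ × ℤ) : (Eq q).Δ = 16 * ((4 * q.1 ^ 3 - 27 * q.2 ^ 2 : ℤ) : ℚ) := by
  unfold Eq
  simp only [WeierstrassCurve.Δ, WeierstrassCurve.b₂, WeierstrassCurve.b₄, WeierstrassCurve.b₆,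
    WeierstrassCurve.b₈]
  push_cast
  ring

theorem minDisc_ge {q : ℤ × ℤ} (hmin : MinS q.1 q.2) :
    (4 * q.1 ^ 3 - 27 * q.2 ^ 2 : ℤ).natAbs ≤ 136048896 * minDisc (Eq q) := by
  have hne : {n : ℕ | ∃ (V : WeierstrassCurve ℤ) (C : WeierstrassCurve.VariableChange ℚ),
      C • Eq q = V.map (Int.castRingHom ℚ) ∧ n = V.Δ.natAbs}.Nonempty := ⟨_, Ez q, 1, Ez_map q, rfl⟩
  obtain ⟨V, C, hC, hn⟩ := Nat.sInf_mem hne
  have hn' : minDisc (Eq q) = V.Δ.natAbs := hn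
  rw [hn']
  have hu : (C.u : ℚ) ≠ 0 := C.u.ne_zero
  have h4 : ((V.c₄ : ℤ) : ℚ) = ((C.u : ℚ)⁻¹) ^ 4 * (48 * q.1) := by
    have h1 := congrArg WeierstrassCurve.c₄ hC
    rw [WeierstrassCurve.variableChange_c₄, WeierstrassCurve.map_c₄, c4_Eq] at h1
    rw [← Units.val_inv_eq_inv_val]
    exact h1.symm
  have h6 : ((V.c₆ : ℤ) : ℚ) = ((C.u : ℚ)⁻¹) ^ 6 * (864 * q.2) := by
    have h1 := congrArg WeierstrassCurve.c₆ hC
    rw [WeierstrassCurve.variableChange_c₆, WeierstrassCurve.map_c₆, c6_Eq] at h1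
    rw [← Units.val_inv_eq_inv_val]
    exact h1.symm
  have h7 := hmin.2 (6 / (C.u : ℚ)) (27 * V.c₄) (54 * V.c₆) (div_ne_zero (by norm_num) hu) (by
    push_cast
    rw [h4]
    field_simp
    ring) (by
    push_cast
    rw [h6]
    field_simp
    ring)
  have h8 : 4 * (27 * V.c₄) ^ 3 - 27 * (54 * V.c₆) ^ 2 = 136048896 * V.Δ := by
    have h9 := V.c_relation
    linear_combination (-78732) * h9
  rw [h8] at h7
  have h10 : ((4 * q.1 ^ 3 - 27 * q.2 ^ 2 : ℤ).natAbs : ℤ) ≤ 136048896 * (V.Δ.natAbs : ℤ) := by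
    rw [Int.natCast_natAbs, Int.natCast_natAbs]
    refine h7.trans (le_of_eq ?_)
    rw [abs_mul]
    norm_num
  exact_mod_cast h10

/-- the Faltings height up to a constant -/
noncomputable def ht (q : ℤ × ℤ) (τ : UpperHalfPlane) : ℝ :=
  (Real.log (minDisc (Eq q) : ℝ) + arch τ) / 12

/-- `τ` is a period of the curve -/
def IsPer (q : ℤ × ℤ) (τ : UpperHalfPlane) : Prop :=
  jInv τ = (((Eq q).c₄ ^ 3 / (Eq q).Δ : ℚ) : ℂ)

theorem ex_per (q : ℤ × ℤ) : ∃ τ, IsPer q τ := Pool.Agent.Y729.FW.j_surj _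

theorem isP_of {q : ℤ × ℤ} {τ : UpperHalfPlane} (h : IsPer q τ) :
    Pool.Agent.Y679.Fh.IsP (Ez q) τ := by
  unfold Pool.Agent.Y679.Fh.IsP
  unfold IsPer at h
  rw [h, c4_Eq, disc_Eq, Ez_c4, Ez_disc]
  push_cast
  rfl

/-- the height against `max (|a|³, b²)` -/
theorem ht_mx : ∃ C : ℝ, 0 ≤ C ∧ (∀ q : ℤ × ℤ, MinS q.1 q.2 → ∀ τ, IsPer q τ →
      12 * ht q τ ≤ Real.log (mx q.1 q.2) + C) ∧
    ∀ δ : ℝ, 0 < δ → ∃ C' : ℝ, 0 ≤ C' ∧ ∀ q : ℤ × ℤ, MinS q.1 q.2 → ∀ τ, IsPer q τ →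
      Real.log (mx q.1 q.2) / (1 + δ) - C' ≤ 12 * ht q τ := by
  obtain ⟨C0, hC0⟩ : ∃ C0 : ℝ, C0 = Real.log (16 * 136048896) := ⟨_, rfl⟩
  have hC00 : 0 ≤ C0 := by rw [hC0]; exact Real.log_nonneg (by norm_num)
  have key : ∀ q : ℤ × ℤ, MinS q.1 q.2 → ∀ τ : UpperHalfPlane,
      12 * ht q τ ≤ 12 * Pool.Agent.Y679.Fh.fh (Ez q) τ ∧
      12 * Pool.Agent.Y679.Fh.fh (Ez q) τ ≤ 12 * ht q τ + C0 ∧
      (Ez q).Δ ≠ 0 := by
    intro q hq τ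
    have hD := hq.1
    have h1 := minDisc_le q
    have h2 := minDisc_ge hq
    have hDn : 0 < (4 * q.1 ^ 3 - 27 * q.2 ^ 2 : ℤ).natAbs := Int.natAbs_pos.2 hD
    have hm : 0 < minDisc (Eq q) := by
      rcases Nat.eq_zero_or_pos (minDisc (Eq q)) with h | h
      · rw [h] at h2; omega
      · exact h
    have hmR : (0 : ℝ) < (minDisc (Eq q) : ℝ) := by exact_mod_cast hm
    have e1 : ((|(Ez q).Δ| : ℤ) : ℝ) = 16 * (((4 * q.1 ^ 3 - 27 * q.2 ^ 2 : ℤ).natAbs : ℕ) : ℝ) := by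
      rw [Ez_disc, abs_mul, Nat.cast_natAbs]
      push_cast
      norm_num
    have h3 : (minDisc (Eq q) : ℝ) ≤ 16 * (((4 * q.1 ^ 3 - 27 * q.2 ^ 2 : ℤ).natAbs : ℕ) : ℝ) := by
      exact_mod_cast h1
    have h4 : 16 * (((4 * q.1 ^ 3 - 27 * q.2 ^ 2 : ℤ).natAbs : ℕ) : ℝ) ≤
        (16 * 136048896) * (minDisc (Eq q) : ℝ) := by
      have : (((4 * q.1 ^ 3 - 27 * q.2 ^ 2 : ℤ).natAbs : ℕ) : ℝ) ≤ 136048896 * (minDisc (Eq q) : ℝ) := by
        exact_mod_cast h2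
      linarith
    have h5 := Real.log_le_log hmR h3
    have h6 := Real.log_le_log (by positivity) h4
    rw [Real.log_mul (by norm_num) hmR.ne', ← hC0] at h6
    refine ⟨?_, ?_, ?_⟩
    · unfold ht Pool.Agent.Y679.Fh.fh
      rw [e1]
      linarith
    · unfold ht Pool.Agent.Y679.Fh.fh
      rw [e1]
      linarith
    · rw [Ez_disc]
      exact mul_ne_zero (by norm_num) hD
  have cmp : ∀ q : ℤ × ℤ, MinS q.1 q.2 → Pool.Agent.Y679.Fh.cH (Ez q) ≤ 746496 * mx q.1 q.2 ∧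
      mx q.1 q.2 ≤ Pool.Agent.Y679.Fh.cH (Ez q) := by
    intro q hq
    have e4 : |((Ez q).c₄ : ℝ)| ^ 3 = 110592 * |(q.1 : ℝ)| ^ 3 := by
      rw [Ez_c4]
      push_cast
      rw [abs_mul, mul_pow]
      norm_num
    have e6 : ((Ez q).c₆ : ℝ) ^ 2 = 746496 * (q.2 : ℝ) ^ 2 := by
      rw [Ez_c6]
      push_cast
      ring
    unfold Pool.Agent.Y679.Fh.cH mx
    rw [e4, e6]
    have p1 : 0 ≤ |(q.1 : ℝ)| ^ 3 := by positivity
    have p2 : 0 ≤ (q.2 : ℝ) ^ 2 := by positivity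
    have p3 := le_max_left (|(q.1 : ℝ)| ^ 3) ((q.2 : ℝ) ^ 2)
    have p4 := le_max_right (|(q.1 : ℝ)| ^ 3) ((q.2 : ℝ) ^ 2)
    constructor
    · exact max_le (by linarith) (by linarith)
    · exact max_le_max (by linarith) (by linarith)
  obtain ⟨c, hc⟩ := Pool.Agent.Y679.Fh.fh_le
  refine ⟨Real.log 746496 + |c|, by positivity, fun q hq τ hτ => ?_, fun δ hδ => ?_⟩
  · obtain ⟨k1, k2, k3⟩ := key q hq τ
    obtain ⟨m1, m2⟩ := cmp q hq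
    have h1 := hc (Ez q) k3 τ (isP_of hτ)
    have hm := mx_pos hq.1
    have hcH : 0 < Pool.Agent.Y679.Fh.cH (Ez q) := by linarith
    have h2 := Real.log_le_log hcH m1
    rw [Real.log_mul (by norm_num) hm.ne'] at h2
    have := le_abs_self c
    linarith
  · obtain ⟨c', hc'⟩ := Pool.Agent.Y679.Fh.fh_ge hδ
    refine ⟨|c'| + C0, by positivity, fun q hq τ hτ => ?_⟩
    obtain ⟨k1, k2, k3⟩ := key q hq τ
    obtain ⟨m1, m2⟩ := cmp q hq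
    have h1 := hc' (Ez q) k3 τ (isP_of hτ)
    have hm := mx_pos hq.1
    have h2 := Real.log_le_log hm m2
    have h3 : Real.log (mx q.1 q.2) / (1 + δ) ≤
        Real.log (Pool.Agent.Y679.Fh.cH (Ez q)) / (1 + δ) :=
      div_le_div_of_nonneg_right h2 (by linarith)
    have := le_abs_self c'
    linarith

/-- the slope is close to `1 / 4` -/
theorem ht_close {η : ℝ} (hη : 0 < η) : ∃ T : ℝ, 0 ≤ T ∧ ∀ q : ℤ × ℤ, MinS q.1 q.2 →
    Szr2 (3 - η) (3 + η) q → T ≤ lc q.1 q.2 → ∀ τ, IsPer q τ →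
    |ht q τ - 1 / 4 * lc q.1 q.2| ≤ η * lc q.1 q.2 := by
  obtain ⟨C1, hC1, h1, h2⟩ := ht_mx
  obtain ⟨C2, hC2, h3⟩ := h2 η hη
  refine ⟨(C1 + C2 + Real.log 31) / η, by positivity, fun q hq hS hT τ hτ => ?_⟩
  obtain ⟨s1, s2⟩ := hS
  have hC : (0 : ℝ) < Cond q.1 q.2 := by exact_mod_cast cond_pos q.1 q.2
  have hm := mx_pos hq.1
  have hlc : lc q.1 q.2 = Real.log (Cond q.1 q.2 : ℝ) := rfl
  have e2 : Real.log (mx q.1 q.2) ≤ (3 + η) * lc q.1 q.2 := by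
    have h4 := Real.log_le_log hm s2
    rw [Real.log_rpow hC] at h4
    exact h4
  have e1 : (3 - η) * lc q.1 q.2 ≤ Real.log 31 + Real.log (mx q.1 q.2) := by
    have h4 : (Cond q.1 q.2 : ℝ) ^ (3 - η) ≤ 31 * mx q.1 q.2 := by
      refine s1.trans ?_
      have p3 := le_max_left (|(q.1 : ℝ)| ^ 3) ((q.2 : ℝ) ^ 2)
      have p4 := le_max_right (|(q.1 : ℝ)| ^ 3) ((q.2 : ℝ) ^ 2)
      unfold mx
      push_cast
      refine (abs_sub _ _).trans ?_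
      rw [abs_mul, abs_mul, abs_pow, abs_of_nonneg (sq_nonneg (q.2 : ℝ))]
      norm_num
      linarith
    have h5 := Real.log_le_log (by positivity) h4
    rw [Real.log_rpow hC, Real.log_mul (by norm_num) hm.ne'] at h5
    exact h5
  obtain ⟨y, hy⟩ : ∃ y : ℝ, y = lc q.1 q.2 := ⟨_, rfl⟩
  obtain ⟨z, hz⟩ : ∃ z : ℝ, z = Real.log (mx q.1 q.2) := ⟨_, rfl⟩
  have g1 := h1 q hq τ hτ
  have g2 := h3 q hq τ hτ
  rw [← hy] at e1 e2 hT ⊢
  rw [← hz] at e1 e2 g1 g2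
  rw [div_le_iff₀ hη] at hT
  have hl31 : 0 ≤ Real.log 31 := Real.log_nonneg (by norm_num)
  have hy0 : 0 ≤ y := by
    by_contra hcon
    push Not at hcon
    have := mul_neg_of_neg_of_pos hcon hη
    linarith
  have hyη : 0 ≤ y * η := mul_nonneg hy0 hη.le
  have g3 : z / (1 + η) ≤ 12 * ht q τ + C2 := by linarith
  rw [div_le_iff₀ (by linarith)] at g3
  rw [abs_le]
  constructor
  · by_contra hcon
    push Not at hcon
    have h6 : 12 * ht q τ + C2 < 3 * y - 12 * (η * y) + C2 := by linarith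
    have h7 : (12 * ht q τ + C2) * (1 + η) < (3 * y - 12 * (η * y) + C2) * (1 + η) :=
      mul_lt_mul_of_pos_right h6 (by linarith)
    have h8 : C2 * η ≤ (y * η) * η := mul_le_mul_of_nonneg_right (by linarith) hη.le
    nlinarith
  · nlinarith

/-- the curves with a height far from `(1 / 4) log N₆` -/
theorem ht_twists {A B : ℤ[X]}
    (h2 : ∃ C : ℝ, 0 < C ∧ ∀ N : ℝ, 1 ≤ N → (TwAll A B N).Finite ∧
      ((TwAll A B N).ncard : ℝ) ≤ C * Real.sqrt N)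
    (h3 : ∀ δ ε : ℝ, 0 < δ → 0 < ε → ∃ N0 : ℝ, ∀ N : ℝ, N0 ≤ N →
      ({p | p ∈ TwAll A B N ∧ ¬ Szr2 (3 - δ) (3 + δ) p}.ncard : ℝ) ≤ ε * Real.sqrt N)
    (η ε : ℝ) (hη : 0 < η) (hε : 0 < ε) : ∃ N0 : ℝ, ∀ N : ℝ, N0 ≤ N →
      ({p | p ∈ TwAll A B N ∧ ¬ ∀ τ, IsPer p τ →
        |ht p τ - 1 / 4 * Real.log (Cond p.1 p.2)| ≤ η * Real.log (Cond p.1 p.2)}.ncard : ℝ) ≤
        ε * Real.sqrt N := by
  obtain ⟨T, hT, hcl⟩ := ht_close hη
  obtain ⟨C, hC, hup⟩ := h2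
  obtain ⟨N0, hN0⟩ := h3 η (ε / 2) hη (by positivity)
  have heT : 1 ≤ Real.exp T := Real.one_le_exp hT
  obtain ⟨D, hD⟩ : ∃ D : ℝ, D = C * Real.sqrt (Real.exp T) := ⟨_, rfl⟩
  refine ⟨max (max 1 N0) ((2 * D / ε) ^ 2), fun N hN => ?_⟩
  have hN1 : 1 ≤ N := (le_max_left _ _).trans ((le_max_left _ _).trans hN)
  have hN2 : N0 ≤ N := (le_max_right _ _).trans ((le_max_left _ _).trans hN)
  have hN3 : (2 * D / ε) ^ 2 ≤ N := (le_max_right _ _).trans hN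
  have hs : 2 * D / ε ≤ Real.sqrt N := Real.le_sqrt_of_sq_le hN3
  rw [div_le_iff₀ hε] at hs
  obtain ⟨f1, f2⟩ := hup (Real.exp T) heT
  rw [← hD] at f2
  obtain ⟨g1, -⟩ := hup N hN1
  have hsub : {p | p ∈ TwAll A B N ∧ ¬ ∀ τ, IsPer p τ →
      |ht p τ - 1 / 4 * Real.log (Cond p.1 p.2)| ≤ η * Real.log (Cond p.1 p.2)} ⊆
      {p | p ∈ TwAll A B N ∧ ¬ Szr2 (3 - η) (3 + η) p} ∪ TwAll A B (Real.exp T) := by
    rintro p ⟨hp, hn⟩
    by_cases hS : Szr2 (3 - η) (3 + η) p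
    · right
      refine ⟨hp.1, hp.2.1, ?_⟩
      by_contra hcon
      push Not at hcon
      apply hn
      intro τ hτ
      refine hcl p hp.1 hS ?_ τ hτ
      have h5 := Real.log_le_log (Real.exp_pos T) hcon.le
      rw [Real.log_exp] at h5
      exact h5
    · left
      exact ⟨hp, hS⟩
  have hfin : ({p | p ∈ TwAll A B N ∧ ¬ Szr2 (3 - η) (3 + η) p} ∪ TwAll A B (Real.exp T)).Finite :=
    (g1.subset fun p hp => hp.1).union f1
  have h5 := (Set.ncard_le_ncard hsub hfin).trans (Set.ncard_union_le _ _)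
  have h6 : (({p | p ∈ TwAll A B N ∧ ¬ ∀ τ, IsPer p τ →
      |ht p τ - 1 / 4 * Real.log (Cond p.1 p.2)| ≤ η * Real.log (Cond p.1 p.2)}.ncard : ℕ) : ℝ) ≤
      ({p | p ∈ TwAll A B N ∧ ¬ Szr2 (3 - η) (3 + η) p}.ncard : ℝ) +
        ((TwAll A B (Real.exp T)).ncard : ℝ) := by exact_mod_cast h5
  have h7 := hN0 N hN2
  linarith

end Pool.Agent.Q10.KW
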