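import Pool.Agent.W563.QD.RADK
import Pool.Agent.Y154.NParA

/-!
The primes of a number field above a prime `p` at which `u - v α` is small
-/

set_option autoImplicit false

namespace Pool.Agent.Q10.KY

open NumberField IsDedekindDomain Finset Polynomial UniqueFactorizationMonoid
open Pool.Agent.W4.CF Pool.Agent.W4.VC Pool.Agent.W4.QD Pool.Agent.H691R3 Pool.Agent.W240.CD
  Pool.Agent.W563.QD
open scoped IntermediateField

variable {K : Type} [Field K] [NumberField K]

/-- the norm of `u - v α` in terms of an irreducible polynomial of `α`, with the exponent -/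
theorem norm_sub' (α : K) (g : ℚ[X]) (hg : Irreducible g) (hα : aeval α g = 0) (u v : ℚ)
    (hv : v ≠ 0) : ∃ e : ℕ, e * g.natDegree = Module.finrank ℚ K ∧
      Algebra.norm ℚ (algebraMap ℚ K u - algebraMap ℚ K v * α) =
        (v ^ g.natDegree * g.eval (u / v) / g.leadingCoeff) ^ e := by
  obtain ⟨a, ha⟩ : ∃ a : K, a = algebraMap ℚ K u - algebraMap ℚ K v * α := ⟨_, rfl⟩
  rw [← ha]
  have hvK : algebraMap ℚ K v ≠ 0 := by
    rwa [Ne, map_eq_zero]
  have hv' : -v⁻¹ ≠ 0 := neg_ne_zero.2 (inv_ne_zero hv)
  obtain ⟨r, hr⟩ : ∃ r : ℚ[X], r = C (-v⁻¹) * X + C (u / v) := ⟨_, rfl⟩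
  obtain ⟨q, hq⟩ : ∃ q : ℚ[X], q = g.comp r := ⟨_, rfl⟩
  have hrd : r.natDegree = 1 := by rw [hr]; exact natDegree_linear hv'
  have hrl : r.leadingCoeff = -v⁻¹ := by rw [hr]; exact leadingCoeff_linear hv'
  have hirr : Irreducible q := by
    let i := invertibleOfNonzero hv'
    rw [hq, hr]
    exact (MulEquiv.irreducible_iff (algEquivCMulXAddC (-v⁻¹) (u / v)).toMulEquiv
      (x := g)).2 hg
  have hq0 : aeval a q = 0 := by
    rw [hq, aeval_comp]
    have h1 : aeval a r = α := by
      rw [hr, map_add, map_mul, aeval_C, aeval_C, aeval_X, ha, map_neg, map_inv₀, map_div₀]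
      field_simp
      ring
    rw [h1, hα]
  have hmin := minpoly.eq_of_irreducible hirr hq0
  have hint : IsIntegral ℚ a := Algebra.IsIntegral.isIntegral a
  have hql : q.leadingCoeff = g.leadingCoeff * (-v⁻¹) ^ g.natDegree := by
    rw [hq, leadingCoeff_comp (by rw [hrd]; exact one_ne_zero), hrl]
  have hqd : q.natDegree = g.natDegree := by
    rw [hq, natDegree_comp, hrd, mul_one]
  have hqc : q.coeff 0 = g.eval (u / v) := by
    rw [coeff_zero_eq_eval_zero, hq, eval_comp, hr]
    simp
  have hg0 : g.leadingCoeff ≠ 0 := leadingCoeff_ne_zero.2 hg.ne_zero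
  have hql0 : q.leadingCoeff ≠ 0 := leadingCoeff_ne_zero.2 hirr.ne_zero
  have hmd : (minpoly ℚ a).natDegree = g.natDegree := by
    rw [← hmin, natDegree_mul_C (inv_ne_zero hql0), hqd]
  have hmc : (minpoly ℚ a).coeff 0 = g.eval (u / v) * q.leadingCoeff⁻¹ := by
    rw [← hmin, coeff_mul_C, hqc]
  refine ⟨Module.finrank ℚ⟮a⟯ K, ?_, ?_⟩
  · rw [← hmd, ← IntermediateField.adjoin.finrank hint, mul_comm]
    exact Module.finrank_mul_finrank ℚ ℚ⟮a⟯ K
  rw [Algebra.norm_eq_norm_adjoin]
  congr 1
  have h1 := Algebra.PowerBasis.norm_gen_eq_coeff_zero_minpoly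
    (IntermediateField.adjoin.powerBasis hint)
  rw [IntermediateField.adjoin.powerBasis_gen, IntermediateField.minpoly_gen,
    IntermediateField.adjoin.powerBasis_dim, hmd, hmc, hql] at h1
  rw [h1]
  have h2 : ((-1 : ℚ) ^ g.natDegree) ≠ 0 := pow_ne_zero _ (by norm_num)
  have h3 : (-v⁻¹) ^ g.natDegree = (-1) ^ g.natDegree * (v ^ g.natDegree)⁻¹ := by
    rw [← inv_pow, ← mul_pow]
    congr 1
    ring
  rw [h3]
  field_simp

/-- a number in the `c`-th power of a prime is small there -/
theorem fv_of_dvd (w : HeightOneSpectrum (𝓞 K)) (x : 𝓞 K) (hx : x ≠ 0) (c : ℕ)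
    (h : w.asIdeal ^ c ∣ Ideal.span {x}) :
    (c : ℝ) * Real.log (Nv w) ≤ - Real.log (fv w (x : K)) := by
  have hmem : x ∈ w.asIdeal ^ c := by
    rw [← Ideal.dvd_span_singleton]
    exact h
  rw [← w.intValuation_le_pow_iff_mem] at hmem
  have h1 : fv w (x : K) = _ := NumberField.FinitePlace.norm_embedding_int K w x
  have hx' : w.intValuation x ≠ 0 := w.intValuation_ne_zero _ hx
  rw [WithZeroMulInt.toNNReal_neg_apply _ hx'] at h1
  have h2 : fv w (x : K) = (Nv w) ^ (Multiplicative.toAdd (WithZero.unzero hx')) := by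
    refine h1.trans ?_
    push_cast
    rfl
  rw [h2, Real.log_zpow]
  rw [← WithZero.coe_unzero hx'] at hmem
  change ((WithZero.unzero hx' : Multiplicative ℤ) : WithZero (Multiplicative ℤ)) ≤
      ((Multiplicative.ofAdd (-((c : ℕ) : ℤ)) : Multiplicative ℤ) : WithZero (Multiplicative ℤ))
    at hmem
  rw [WithZero.coe_le_coe, ← Multiplicative.toAdd_le] at hmem
  have h3 : Multiplicative.toAdd (WithZero.unzero hx') ≤ -(c : ℤ) := hmem
  have h4 : ((Multiplicative.toAdd (WithZero.unzero hx') : ℤ) : ℝ) ≤ -(c : ℝ) := by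
    exact_mod_cast h3
  have h5 := log_Nv_pos w
  nlinarith

/-- the `p`-part of the norm of an integer is bounded by its absolute values above `p` -/
theorem norm_part (x : 𝓞 K) (hx : x ≠ 0) (p : ℕ) (hp : p.Prime) (hp0 : (p : K) ≠ 0) (k : ℕ)
    (h : p ^ k ∣ Ideal.absNorm (Ideal.span {x})) :
    (k : ℝ) * Real.log p ≤ ∑ w ∈ Sp K p hp0, (- Real.log (fv w (x : K))) := by
  classical
  obtain ⟨I, hI⟩ : ∃ I : Ideal (𝓞 K), I = Ideal.span {x} := ⟨_, rfl⟩
  have hI0 : I ≠ ⊥ := by
    rw [hI, Ne, Ideal.span_singleton_eq_bot]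
    exact hx
  have hN0 : Ideal.absNorm I ≠ 0 := by
    rw [Ne, Ideal.absNorm_eq_zero_iff]
    exact hI0
  have h1 : Ideal.absNorm I = ∏ P ∈ (normalizedFactors I).toFinset,
      Ideal.absNorm P ^ (normalizedFactors I).count P := by
    rw [← Finset.prod_multiset_map_count, ← map_multiset_prod,
      Ideal.prod_normalizedFactors_eq_self hI0]
  have hne : ∀ P ∈ (normalizedFactors I).toFinset,
      Ideal.absNorm P ^ (normalizedFactors I).count P ≠ 0 := by
    intro P hP
    rw [Multiset.mem_toFinset] at hP
    refine pow_ne_zero _ ?_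
    rw [Ne, Ideal.absNorm_eq_zero_iff]
    exact (prime_of_normalized_factor P hP).ne_zero
  have h2 : (Ideal.absNorm I).factorization p = ∑ P ∈ (normalizedFactors I).toFinset,
      (normalizedFactors I).count P * (Ideal.absNorm P).factorization p := by
    rw [h1, Nat.factorization_prod hne, Finsupp.finsetSum_apply]
    refine Finset.sum_congr rfl fun P _ => ?_
    rw [Nat.factorization_pow]
    simp
  have hk : k ≤ (Ideal.absNorm I).factorization p := by
    rw [hI] at hN0 ⊢
    exact (hp.pow_dvd_iff_le_factorization hN0).1 h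
  have hlp : 0 < Real.log (p : ℝ) := Real.log_pos (by exact_mod_cast hp.one_lt)
  -- each factor
  have hbound : ∀ w ∈ Sp K p hp0, ((normalizedFactors I).count w.asIdeal : ℝ) *
      ((Ideal.absNorm w.asIdeal).factorization p : ℝ) * Real.log p ≤
        - Real.log (fv w (x : K)) := by
    intro w hw
    have h3 : w.asIdeal ^ (normalizedFactors I).count w.asIdeal ∣ Ideal.span {x} := by
      rw [← hI]
      rcases Nat.eq_zero_or_pos ((normalizedFactors I).count w.asIdeal) with h0 | h0
      · rw [h0, pow_zero]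
        exact one_dvd _
      · rw [← Ideal.prod_normalizedFactors_eq_self hI0] 
        conv_lhs => rw [Ideal.prod_normalizedFactors_eq_self hI0]
        rw [← Multiset.prod_replicate]
        exact Multiset.prod_dvd_prod_of_le (Multiset.le_count_iff_replicate_le.1 le_rfl)
    have h4 := fv_of_dvd w x hx _ h3
    have h5 : ((Ideal.absNorm w.asIdeal).factorization p : ℝ) * Real.log p ≤
        Real.log (Nv w) := by
      rw [← Real.log_pow]
      refine Real.log_le_log (by have := hp.pos; positivity) ?_
      have h6 := NumberField.HeightOneSpectrum.one_lt_absNorm w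
      have h7 := Nat.le_of_dvd (by omega) (Nat.ordProj_dvd (Ideal.absNorm w.asIdeal) p)
      unfold Nv
      exact_mod_cast h7
    have h6 : (0 : ℝ) ≤ ((normalizedFactors I).count w.asIdeal : ℝ) := Nat.cast_nonneg _
    calc ((normalizedFactors I).count w.asIdeal : ℝ) *
        ((Ideal.absNorm w.asIdeal).factorization p : ℝ) * Real.log p
        = ((normalizedFactors I).count w.asIdeal : ℝ) *
          (((Ideal.absNorm w.asIdeal).factorization p : ℝ) * Real.log p) := by ring
      _ ≤ ((normalizedFactors I).count w.asIdeal : ℝ) * Real.log (Nv w) :=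
          mul_le_mul_of_nonneg_left h5 h6
      _ ≤ _ := h4
  calc (k : ℝ) * Real.log p ≤ ((Ideal.absNorm I).factorization p : ℝ) * Real.log p :=
        mul_le_mul_of_nonneg_right (by exact_mod_cast hk) hlp.le
    _ = ∑ P ∈ (normalizedFactors I).toFinset, ((normalizedFactors I).count P : ℝ) *
          ((Ideal.absNorm P).factorization p : ℝ) * Real.log p := by
        rw [h2]
        push_cast
        rw [Finset.sum_mul]
    _ ≤ ∑ P ∈ (Sp K p hp0).image (fun w => w.asIdeal), ((normalizedFactors I).count P : ℝ) *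
          ((Ideal.absNorm P).factorization p : ℝ) * Real.log p := by
        rw [← Finset.sum_filter_add_sum_filter_not (normalizedFactors I).toFinset
          (fun P => P ∈ (Sp K p hp0).image (fun w => w.asIdeal))]
        have h8 : ∑ P ∈ (normalizedFactors I).toFinset.filter
            (fun P => ¬ P ∈ (Sp K p hp0).image (fun w => w.asIdeal)),
            ((normalizedFactors I).count P : ℝ) *
            ((Ideal.absNorm P).factorization p : ℝ) * Real.log p = 0 := by
          refine Finset.sum_eq_zero fun P hP => ?_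
          obtain ⟨hP1, hP2⟩ := Finset.mem_filter.1 hP
          rw [Multiset.mem_toFinset] at hP1
          have hPp : Prime P := prime_of_normalized_factor P hP1
          obtain ⟨w, hw⟩ : ∃ w : HeightOneSpectrum (𝓞 K), w.asIdeal = P :=
            ⟨⟨P, Ideal.isPrime_of_prime hPp, hPp.ne_zero⟩, rfl⟩
          have h9 : (p : 𝓞 K) ∉ w.asIdeal := by
            intro h10
            apply hP2
            rw [Finset.mem_image]
            refine ⟨w, ?_, hw⟩
            rw [mem_Sp]
            exact (fv_nat_lt_iff w p).2 h10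
          have h11 := Pool.Agent.Y154.NPar.factorization_absNorm_eq_zero hp w h9
          rw [← hw, h11]
          simp
        rw [h8, add_zero]
        refine Finset.sum_le_sum_of_subset_of_nonneg ?_ fun P _ _ => by positivity
        intro P hP
        exact (Finset.mem_filter.1 hP).2
    _ = ∑ w ∈ Sp K p hp0, ((normalizedFactors I).count w.asIdeal : ℝ) *
          ((Ideal.absNorm w.asIdeal).factorization p : ℝ) * Real.log p := by
        rw [Finset.sum_image]
        intro w _ w' _ hww
        exact HeightOneSpectrum.ext hww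
    _ ≤ _ := Finset.sum_le_sum hbound

end Pool.Agent.Q10.KY
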