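import Pool.Agent.Q10.KY1

/-!
The weight of a prime `p` dividing the value of the form of `α` in the radical over `K`
-/

set_option autoImplicit false

namespace Pool.Agent.Q10.KY

open NumberField IsDedekindDomain Finset Polynomial
open Pool.Agent.W4.CF Pool.Agent.W4.VC Pool.Agent.W4.QD Pool.Agent.H691R3 Pool.Agent.W240.CD
  Pool.Agent.W563.QD

variable {K : Type} [Field K] [NumberField K]

theorem fv_sum_le {ι : Type} (w : HeightOneSpectrum (𝓞 K)) (s : Finset ι) (g : ι → K) (c : ℝ)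
    (hc : 0 ≤ c) (h : ∀ i ∈ s, fv w (g i) ≤ c) : fv w (∑ i ∈ s, g i) ≤ c := by
  classical
  induction s using Finset.induction_on with
  | empty => simpa using hc
  | insert a s ha ih =>
    rw [Finset.sum_insert ha]
    refine (fv_na w _ _).trans (max_le (h a (mem_insert_self _ _)) ?_)
    exact ih fun i hi => h i (mem_insert_of_mem hi)

theorem fv_pow_sub (w : HeightOneSpectrum (𝓞 K)) (x y : K) (hx : fv w x ≤ 1) (hy : fv w y ≤ 1)
    (j : ℕ) : fv w (x ^ j - y ^ j) ≤ fv w (x - y) := by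
  induction j with
  | zero => simpa using (fv w).nonneg _
  | succ j ih =>
    have h1 : x ^ (j + 1) - y ^ (j + 1) = x * (x ^ j - y ^ j) + (x - y) * y ^ j := by ring
    rw [h1]
    refine (fv_na w _ _).trans (max_le ?_ ?_)
    · rw [map_mul]
      exact (mul_le_mul hx ih ((fv w).nonneg _) zero_le_one).trans (by rw [one_mul])
    · rw [map_mul, map_pow]
      exact mul_le_of_le_one_right ((fv w).nonneg _) (pow_le_one₀ ((fv w).nonneg _) hy)

/-- the form of `α` is small where `u - v α` is small -/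
theorem form_small (w : HeightOneSpectrum (𝓞 K)) (α : K) (f : ℤ[X]) (h0 : aeval α f = 0)
    (hα : fv w α ≤ 1) (u v : ℤ) :
    fv w ((hom f f.natDegree u v : ℤ) : K) ≤ fv w ((u : K) - v * α) := by
  have h1 : ∑ j ∈ range (f.natDegree + 1), (f.coeff j : K) * α ^ j = 0 := by
    rw [aeval_eq_sum_range] at h0
    rw [← h0]
    exact Finset.sum_congr rfl fun j _ => by rw [zsmul_eq_mul]
  have h2 : ((hom f f.natDegree u v : ℤ) : K) = ∑ j ∈ range (f.natDegree + 1),
      (f.coeff j : K) * (v : K) ^ (f.natDegree - j) * ((u : K) ^ j - ((v : K) * α) ^ j) := by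
    have h3 : ∑ j ∈ range (f.natDegree + 1),
        (f.coeff j : K) * (v : K) ^ (f.natDegree - j) * ((v : K) * α) ^ j = 0 := by
      have h4 : (v : K) ^ f.natDegree * ∑ j ∈ range (f.natDegree + 1), (f.coeff j : K) * α ^ j = 0 := by
        rw [h1, mul_zero]
      rw [← h4, Finset.mul_sum]
      refine Finset.sum_congr rfl fun j hj => ?_
      have hj' : j ≤ f.natDegree := Nat.lt_succ_iff.1 (Finset.mem_range.1 hj)
      have h5 : (v : K) ^ f.natDegree = (v : K) ^ (f.natDegree - j) * (v : K) ^ j := by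
        rw [← pow_add, Nat.sub_add_cancel hj']
      rw [h5, mul_pow]
      ring
    have h6 : ((hom f f.natDegree u v : ℤ) : K) = ∑ j ∈ range (f.natDegree + 1),
        (f.coeff j : K) * (v : K) ^ (f.natDegree - j) * (u : K) ^ j := by
      rw [hom]
      push_cast
      exact Finset.sum_congr rfl fun j _ => by ring
    rw [h6, ← sub_zero (∑ j ∈ range (f.natDegree + 1),
        (f.coeff j : K) * (v : K) ^ (f.natDegree - j) * (u : K) ^ j), ← h3,
      ← Finset.sum_sub_distrib]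
    exact Finset.sum_congr rfl fun j _ => by ring
  rw [h2]
  refine fv_sum_le w _ _ _ ((fv w).nonneg _) fun j _ => ?_
  rw [map_mul, map_mul, map_pow]
  have h3 : fv w (f.coeff j : K) * fv w (v : K) ^ (f.natDegree - j) ≤ 1 :=
    mul_le_one₀ (fv_int w _) (pow_nonneg ((fv w).nonneg _) _)
      (pow_le_one₀ ((fv w).nonneg _) (fv_int w _))
  have h4 : fv w ((v : K) * α) ≤ 1 := by
    rw [map_mul]
    exact mul_le_one₀ (fv_int w _) ((fv w).nonneg _) hα
  have h5 := fv_pow_sub w (u : K) (v * α) (fv_int w u) h4 j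
  calc _ ≤ 1 * fv w ((u : K) ^ j - (v * α) ^ j) :=
        mul_le_mul_of_nonneg_right h3 ((fv w).nonneg _)
    _ ≤ _ := by rw [one_mul]; exact h5

theorem weight (α : K) (f : ℤ[X]) (hf : Irreducible (f.map (Int.castRingHom ℚ)))
    (h0 : aeval α f = 0) : ∃ m : ℕ, 1 ≤ m ∧
      (∀ p : ℕ, p.Prime → ¬ p ∣ m → ∀ w : HeightOneSpectrum (𝓞 K), fv w (p : K) < 1 →
        fv w α ≤ 1) ∧
      ∀ u v : ℤ, v ≠ 0 → (u : K) - v * α ≠ 0 → hom f f.natDegree u v ≠ 0 ∧
      ∀ p : ℕ, p.Prime → ¬ p ∣ m →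
      (p : ℤ) ∣ hom f f.natDegree u v → ∀ hp0 : (p : K) ≠ 0,
      (Module.finrank ℚ K : ℝ) / (f.natDegree : ℝ) * Real.log (p : ℝ) ≤
        ∑ w ∈ (Sp K p hp0).filter (fun w => fv w ((u : K) - v * α) < 1), Real.log (Nv w) := by
  classical
  have hinj : Function.Injective (Int.castRingHom ℚ) := Int.cast_injective
  have hdeg : (f.map (Int.castRingHom ℚ)).natDegree = f.natDegree :=
    natDegree_map_eq_of_injective hinj f
  obtain ⟨L, hL⟩ : ∃ L : ℤ, L = f.leadingCoeff := ⟨_, rfl⟩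
  have hf0 : f ≠ 0 := by
    rintro rfl
    rw [Polynomial.map_zero] at hf
    exact hf.ne_zero rfl
  have hL0 : L ≠ 0 := by
    rw [hL]
    exact leadingCoeff_ne_zero.2 hf0
  have hLQ : (L : ℚ) ≠ 0 := by exact_mod_cast hL0
  have hfin : {w : HeightOneSpectrum (𝓞 K) | w.asIdeal ∣ differentIdeal ℤ (𝓞 K)}.Finite :=
    Ideal.finite_factors differentIdeal_ne_bot
  obtain ⟨W, hW⟩ : ∃ W : Finset (HeightOneSpectrum (𝓞 K)), W = hfin.toFinset := ⟨_, rfl⟩
  refine ⟨(∏ w ∈ W, Ideal.absNorm w.asIdeal) * L.natAbs, ?_, ?_, ?_⟩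
  · refine Nat.one_le_iff_ne_zero.2 (mul_ne_zero (Finset.prod_ne_zero_iff.2 fun w _ => ?_)
      (Int.natAbs_ne_zero.2 hL0))
    have := NumberField.HeightOneSpectrum.one_lt_absNorm w
    omega
  · intro p hp hpm w hw
    have hpL : ¬ (p : ℤ) ∣ L := fun h => hpm ((Int.natCast_dvd.1 h).mul_left _)
    have h6 := isIntegral_leadingCoeff_smul f α h0
    rw [zsmul_eq_mul] at h6
    have h7 := FinitePlace.norm_le_one (K := K) w (⟨_, h6⟩ : 𝓞 K)
    have h8 : fv w ((f.leadingCoeff : K) * α) ≤ 1 := h7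
    rw [← hL] at h8
    rwa [map_mul, fv_one _ p hp hw _ hpL, one_mul] at h8
  intro u v hv hne
  have hlead : (f.map (Int.castRingHom ℚ)).leadingCoeff = (L : ℚ) := by
    rw [hL]
    exact leadingCoeff_map_of_injective hinj f
  have hα : aeval α (f.map (Int.castRingHom ℚ)) = 0 := by
    have h1 : (Int.castRingHom ℚ) = algebraMap ℤ ℚ := rfl
    rw [h1, aeval_map_algebraMap, h0]
  obtain ⟨e, he, hnorm⟩ := norm_sub' α _ hf hα u v (by exact_mod_cast hv)
  rw [hdeg] at he
  rw [hdeg, hlead, ← hom_eval f u v hv] at hnorm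
  have hn0 : 0 < Module.finrank ℚ K := Module.finrank_pos
  have he1 : 1 ≤ e := by
    rcases Nat.eq_zero_or_pos e with h | h
    · rw [h, zero_mul] at he
      omega
    · exact h
  have hd1 : 1 ≤ f.natDegree := by
    rcases Nat.eq_zero_or_pos f.natDegree with h | h
    · rw [h, mul_zero] at he
      omega
    · exact h
  obtain ⟨F, hF⟩ : ∃ F : ℤ, F = hom f f.natDegree u v := ⟨_, rfl⟩
  rw [← hF] at hnorm ⊢
  have hF0 : F ≠ 0 := by
    rintro rfl
    rw [Int.cast_zero, zero_div, zero_pow (by omega), Algebra.norm_eq_zero_iff] at hnorm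
    apply hne
    have h1 : (u : K) - v * α = algebraMap ℚ K (u : ℚ) - algebraMap ℚ K (v : ℚ) * α := by simp
    rw [h1]
    exact hnorm
  refine ⟨hF0, fun p hp hpm hpF hp0 => ?_⟩
  have hpL : ¬ (p : ℤ) ∣ L := fun h => hpm ((Int.natCast_dvd.1 h).mul_left _)
  have hpi : Prime (p : ℤ) := Nat.prime_iff_prime_int.1 hp
  have hlp : 0 < Real.log (p : ℝ) := Real.log_pos (by exact_mod_cast hp.one_lt)
  -- the integer
  obtain ⟨y, hy⟩ : ∃ y : 𝓞 K, (y : K) = L * α := by
    have h1 := isIntegral_leadingCoeff_smul f α h0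
    refine ⟨⟨(L : K) * α, ?_⟩, rfl⟩
    rw [zsmul_eq_mul, ← hL] at h1
    exact h1
  obtain ⟨x, hx⟩ : ∃ x : 𝓞 K, x = (L : 𝓞 K) * u - v * y := ⟨_, rfl⟩
  have hxK : (x : K) = (L : K) * ((u : K) - v * α) := by
    have h1 : (x : K) = (L : K) * u - v * (y : K) := by
      rw [hx]
      simp
    rw [h1, hy]
    ring
  have hLK : (L : K) ≠ 0 := by exact_mod_cast hL0
  have hx0 : x ≠ 0 := by
    intro h
    rw [h] at hxK
    have h1 : (L : K) * ((u : K) - v * α) = 0 := by
      rw [← hxK]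
      simp
    exact (mul_ne_zero hLK hne) h1
  have hN : (Algebra.norm ℤ x : ℚ) = (L : ℚ) ^ (Module.finrank ℚ K) * ((F : ℚ) / L) ^ e := by
    rw [Algebra.coe_norm_int, hxK, map_mul, ← hnorm]
    congr 1
    · have h1 : (L : K) = algebraMap ℚ K (L : ℚ) := by simp
      rw [h1, Algebra.norm_algebraMap]
    · simp
  have hN2 : L ^ e * Algebra.norm ℤ x = L ^ (Module.finrank ℚ K) * F ^ e := by
    have h1 : (L : ℚ) ^ e * (Algebra.norm ℤ x : ℚ) = (L : ℚ) ^ (Module.finrank ℚ K) * (F : ℚ) ^ e := by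
      rw [hN, div_pow]
      field_simp
    exact_mod_cast h1
  -- the exact power of `p` in `F`
  obtain ⟨k, F', hF', hk⟩ : ∃ (k : ℕ) (F' : ℤ), ¬ (p : ℤ) ∣ F' ∧ F = (p : ℤ) ^ k * F' := by
    obtain ⟨k, F', h1, h2⟩ := WfDvdMonoid.max_power_factor hF0 hpi.irreducible
    exact ⟨k, F', h1, h2⟩
  have hk1 : 1 ≤ k := by
    rcases Nat.eq_zero_or_pos k with h | h
    · rw [h, pow_zero, one_mul] at hk
      rw [hk] at hpF
      exact absurd hpF hF'
    · exact h
  have hpN : ((p : ℤ) ^ (k * e)) ∣ Algebra.norm ℤ x := by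
    have h1 : (p : ℤ) ^ (k * e) ∣ L ^ e * Algebra.norm ℤ x := by
      rw [hN2, hk, mul_pow, ← pow_mul]
      exact Dvd.dvd.mul_left (Dvd.intro _ rfl) _
    refine IsCoprime.dvd_of_dvd_mul_left ?_ h1
    exact IsCoprime.pow ((Prime.coprime_iff_not_dvd hpi).2 hpL)
  have habs : p ^ (k * e) ∣ Ideal.absNorm (Ideal.span {x}) := by
    rw [Ideal.absNorm_span_singleton]
    have := Int.natAbs_dvd_natAbs.2 hpN
    rwa [Int.natAbs_pow, Int.natAbs_natCast] at this
  have h1 := norm_part x hx0 p hp hp0 (k * e) habs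
  -- the local bounds
  have hloc : ∀ w ∈ Sp K p hp0, - Real.log (fv w (x : K)) ≤
      if fv w ((u : K) - v * α) < 1 then (k : ℝ) * Real.log (Nv w) else 0 := by
    intro w hw
    have hwp := (mem_Sp p hp0 w).1 hw
    have hwL := fv_one w p hp hwp L hpL
    have hwα : fv w α ≤ 1 := by
      have h6 := FinitePlace.norm_le_one (K := K) w y
      have h7 : fv w (y : K) ≤ 1 := h6
      rwa [hy, map_mul, hwL, one_mul] at h7
    have hxw : fv w (x : K) = fv w ((u : K) - v * α) := by rw [hxK, map_mul, hwL, one_mul]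
    have hwx1 : fv w (x : K) ≤ 1 := FinitePlace.norm_le_one (K := K) w x
    by_cases hlt : fv w ((u : K) - v * α) < 1
    · rw [if_pos hlt, hxw]
      have h2 := form_small w α f h0 hwα u v
      rw [← hF] at h2
      have hFK : ((F : ℤ) : K) ≠ 0 := by exact_mod_cast hF0
      have h3 := Real.log_le_log ((fv w).pos hFK) h2
      have h4 : Real.log (fv w ((F : ℤ) : K)) = k * Real.log (fv w (p : K)) := by
        rw [hk]
        push_cast
        rw [map_mul, map_pow, fv_one w p hp hwp F' hF', mul_one, Real.log_pow]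
      have hwW : ¬ w.asIdeal ∣ differentIdeal ℤ (𝓞 K) := by
        intro hd
        apply hpm
        have hwm : w ∈ W := by
          rw [hW, Set.Finite.mem_toFinset]
          exact hd
        exact ((dvd_norm w p hp hwp).trans (Finset.dvd_prod_of_mem
          (fun w : HeightOneSpectrum (𝓞 K) => Ideal.absNorm w.asIdeal) hwm)).mul_right _
      have h5 := unram w hwW p hp
      have hk0 : (0 : ℝ) ≤ k := Nat.cast_nonneg k
      nlinarith
    · rw [if_neg hlt, hxw]
      have h2 : fv w ((u : K) - v * α) = 1 := le_antisymm (hxw ▸ hwx1) (not_lt.1 hlt)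
      rw [h2, Real.log_one, neg_zero]
  have h2 : ((k * e : ℕ) : ℝ) * Real.log p ≤
      (k : ℝ) * ∑ w ∈ (Sp K p hp0).filter (fun w => fv w ((u : K) - v * α) < 1),
        Real.log (Nv w) := by
    refine h1.trans ((Finset.sum_le_sum hloc).trans (le_of_eq ?_))
    rw [← Finset.sum_filter, Finset.mul_sum]
  have hk0 : (0 : ℝ) < k := by exact_mod_cast hk1
  have hd0 : (0 : ℝ) < f.natDegree := by exact_mod_cast hd1
  have hen : (Module.finrank ℚ K : ℝ) / (f.natDegree : ℝ) = e := by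
    rw [div_eq_iff hd0.ne']
    exact_mod_cast he.symm
  rw [hen]
  push_cast at h2
  rw [mul_assoc] at h2
  exact le_of_mul_le_mul_left h2 hk0

end Pool.Agent.Q10.KY
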