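import Pool.Agent.Q10.KY2
import Pool.Agent.Q10.KV1

/-!
Rational curves over a number field `K` which meet the coordinate hyperplanes in `K`-rational
points: the primes at which the orders of the coordinates are not all equal (after
`Y557.NF.Curve`), at rational parameters
-/

set_option autoImplicit false

namespace Pool.Agent.Q10.KY

open NumberField IsDedekindDomain Finset Polynomial
open Pool.Agent.W4.CF Pool.Agent.W4.VC Pool.Agent.W4.QD Pool.Agent.H691R3 Pool.Agent.W240.CD
  Pool.Agent.W563.QD

section curve

variable {K : Type} [Field K] [NumberField K] {n : ℕ}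

open Classical in
/-- the zeros of the coordinates, except infinity -/
noncomputable def rts {K : Type} [Field K] {n : ℕ} (P : Fin n → K[X]) : Finset K :=
  (∏ i, P i).roots.toFinset

/-- infinity is on a coordinate hyperplane -/
def Unequal {K : Type} [Field K] {n : ℕ} (P : Fin n → K[X]) : Prop :=
  ∃ i j, (P i).natDegree < (P j).natDegree

open Classical in
/-- the points of the line which are mapped to the coordinate hyperplanes -/
noncomputable def pts {K : Type} [Field K] {n : ℕ} (P : Fin n → K[X]) : Finset (Option K) :=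
  (rts P).image some ∪ if Unequal P then {none} else ∅

omit [NumberField K] in
theorem mem_rts {P : Fin n → K[X]} (hP : ∀ i, P i ≠ 0) {r : K} :
    r ∈ rts P ↔ ∃ i, (P i).eval r = 0 := by
  classical
  unfold rts
  rw [Multiset.mem_toFinset, mem_roots (Finset.prod_ne_zero_iff.2 fun i _ => hP i), IsRoot.def,
    eval_prod, Finset.prod_eq_zero_iff]
  simp

omit [NumberField K] in
theorem mem_pts_some {P : Fin n → K[X]} {r : K} : some r ∈ pts P ↔ r ∈ rts P := by
  classical
  unfold pts
  rw [Finset.mem_union, Finset.mem_image]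
  constructor
  · rintro (⟨a, ha, h⟩ | h)
    · rw [Option.some.injEq] at h
      rw [← h]
      exact ha
    · split_ifs at h <;> simp at h
  · intro h
    exact Or.inl ⟨r, h, rfl⟩

omit [NumberField K] in
theorem mem_pts_none {P : Fin n → K[X]} : none ∈ pts P ↔ Unequal P := by
  classical
  unfold pts
  rw [Finset.mem_union, Finset.mem_image]
  constructor
  · rintro (⟨a, ha, h⟩ | h)
    · cases h
    · split_ifs at h with h'
      · exact h'
      · simp at h
  · intro h
    right
    rw [if_pos h]
    exact Finset.mem_singleton_self _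

/-- the primes of good reduction of the curve -/
def GoodC (v : HeightOneSpectrum (𝓞 K)) (P : Fin n → K[X]) : Prop :=
  (∀ i, fv v (P i).leadingCoeff = 1) ∧ (∀ a ∈ rts P, fv v a ≤ 1) ∧
    ∀ a ∈ rts P, ∀ b ∈ rts P, a ≠ b → fv v (a - b) = 1

theorem goodC_finite {P : Fin n → K[X]} (hP : ∀ i, P i ≠ 0) :
    {v : HeightOneSpectrum (𝓞 K) | ¬ GoodC v P}.Finite := by
  classical
  have h1 : (⋃ i, {v : HeightOneSpectrum (𝓞 K) | fv v (P i).leadingCoeff ≠ 1}).Finite :=
    Set.finite_iUnion fun i => fv_support_finite (leadingCoeff_ne_zero.2 (hP i))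
  have h2 : (⋃ a ∈ rts P, {v : HeightOneSpectrum (𝓞 K) | a ≠ 0 ∧ fv v a ≠ 1}).Finite := by
    refine Set.Finite.biUnion (rts P).finite_toSet fun a _ => ?_
    by_cases ha : a = 0
    · refine Set.Finite.subset Set.finite_empty ?_
      rintro v ⟨h, -⟩
      exact absurd ha h
    · exact (fv_support_finite ha).subset fun v hv => hv.2
  have h3 : (⋃ a ∈ rts P, ⋃ b ∈ rts P,
      {v : HeightOneSpectrum (𝓞 K) | a ≠ b ∧ fv v (a - b) ≠ 1}).Finite := by
    refine Set.Finite.biUnion (rts P).finite_toSet fun a _ =>
      Set.Finite.biUnion (rts P).finite_toSet fun b _ => ?_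
    by_cases hab : a = b
    · refine Set.Finite.subset Set.finite_empty ?_
      rintro v ⟨h, -⟩
      exact absurd hab h
    · exact (fv_support_finite (sub_ne_zero.2 hab)).subset fun v hv => hv.2
  refine ((h1.union h2).union h3).subset ?_
  intro v hv
  by_contra hcon
  rw [Set.mem_union, Set.mem_union, not_or, not_or] at hcon
  obtain ⟨⟨k1, k2⟩, k3⟩ := hcon
  apply hv
  refine ⟨fun i => ?_, fun a ha => ?_, fun a ha b hb hab => ?_⟩
  · by_contra h
    exact k1 (Set.mem_iUnion.2 ⟨i, h⟩)
  · by_contra h
    apply k2
    refine Set.mem_iUnion₂.2 ⟨a, ha, ?_, ?_⟩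
    · rintro rfl
      rw [map_zero] at h
      exact h zero_le_one
    · intro h'
      exact h h'.le
  · by_contra h
    exact k3 (Set.mem_iUnion₂.2 ⟨a, ha, Set.mem_iUnion₂.2 ⟨b, hb, hab, h⟩⟩)

theorem fv_eval (v : HeightOneSpectrum (𝓞 K)) {f : K[X]} (hf : f.Splits) (t : K) :
    fv v (f.eval t) = fv v f.leadingCoeff * (f.roots.map fun a => fv v (t - a)).prod := by
  rw [hf.eval_eq_prod_roots, map_mul, map_multiset_prod, Multiset.map_map]
  rfl

theorem fv_sub_le (v : HeightOneSpectrum (𝓞 K)) (a b : K) :
    fv v (a - b) ≤ max (fv v a) (fv v b) := by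
  rw [sub_eq_add_neg, ← (fv v).map_neg b]
  exact fv_na v a (-b)

theorem fv_sub_eq (v : HeightOneSpectrum (𝓞 K)) {t a : K} (h : fv v a < fv v t) :
    fv v (t - a) = fv v t := by
  refine le_antisymm ?_ ?_
  · refine (fv_sub_le v t a).trans (max_le le_rfl h.le)
  · have h1 : fv v t ≤ max (fv v (t - a)) (fv v a) := by
      have := fv_na v (t - a) a
      rwa [sub_add_cancel] at this
    rcases le_max_iff.1 h1 with h2 | h2
    · exact h2
    · exact absurd h (not_lt.2 h2)

theorem fv_sub_comm (v : HeightOneSpectrum (𝓞 K)) (a b : K) : fv v (a - b) = fv v (b - a) := by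
  rw [← (fv v).map_neg (a - b), neg_sub]

omit [NumberField K] in
theorem mem_rts_of_roots {P : Fin n → K[X]} (hP : ∀ i, P i ≠ 0) {i : Fin n} {a : K}
    (ha : a ∈ (P i).roots) : a ∈ rts P := by
  rw [mem_rts hP]
  exact ⟨i, (mem_roots (hP i)).1 ha⟩

/-- the prime `v` is near a point of the line -/
def Near (v : HeightOneSpectrum (𝓞 K)) (t : K) : Option K → Prop
  | some r => fv v (t - r) < 1
  | none => 1 < fv v t

/-- the primes at which the orders of the coordinates are not all equal -/
theorem supp_iff {P : Fin n → K[X]} (hP : ∀ i, P i ≠ 0) (hs : ∀ i, (P i).Splits)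
    (hc : ∀ r : K, ∃ i, (P i).eval r ≠ 0) {v : HeightOneSpectrum (𝓞 K)} (hv : GoodC v P) {t : K} :
    (∃ i j, fv v ((P i).eval t) ≠ fv v ((P j).eval t)) ↔ ∃ a ∈ pts P, Near v t a := by
  classical
  obtain ⟨g1, g2, g3⟩ := hv
  -- large `t`
  have hbig : 1 < fv v t → ∀ i, fv v ((P i).eval t) = fv v t ^ (P i).natDegree := by
    intro h1 i
    rw [fv_eval v (hs i) t, g1 i, one_mul, (hs i).natDegree_eq_card_roots]
    have h2 : ((P i).roots.map fun a => fv v (t - a)) = (P i).roots.map fun _ => fv v t := by
      refine Multiset.map_congr rfl fun a ha => ?_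
      exact fv_sub_eq v (lt_of_le_of_lt (g2 a (mem_rts_of_roots hP ha)) h1)
    rw [h2, Multiset.map_const', Multiset.prod_replicate]
  constructor
  · rintro ⟨i, j, hij⟩
    rcases le_or_gt (fv v t) 1 with h1 | h1
    · -- small `t`
      by_contra hcon
      push Not at hcon
      have h2 : ∀ r ∈ rts P, fv v (t - r) = 1 := by
        intro r hr
        have h3 := hcon (some r) (mem_pts_some.2 hr)
        have h4 : ¬ fv v (t - r) < 1 := h3
        rw [not_lt] at h4
        refine le_antisymm ?_ h4
        exact (fv_sub_le v t r).trans (max_le h1 (g2 r hr))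
      have h3 : ∀ i, fv v ((P i).eval t) = 1 := by
        intro i
        rw [fv_eval v (hs i) t, g1 i, one_mul]
        refine Multiset.prod_eq_one fun x hx => ?_
        obtain ⟨a, ha, rfl⟩ := Multiset.mem_map.1 hx
        exact h2 a (mem_rts_of_roots hP ha)
      exact hij (by rw [h3, h3])
    · refine ⟨none, ?_, h1⟩
      rw [mem_pts_none]
      by_contra hcon
      unfold Unequal at hcon
      push Not at hcon
      apply hij
      rw [hbig h1, hbig h1, le_antisymm (hcon j i) (hcon i j)]
  · rintro ⟨a, ha, hpos⟩
    cases a with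
    | none =>
      have hpos' : 1 < fv v t := hpos
      obtain ⟨i, j, hij⟩ := mem_pts_none.1 ha
      refine ⟨i, j, ?_⟩
      rw [hbig hpos', hbig hpos']
      exact (pow_lt_pow_right₀ hpos' hij).ne
    | some r =>
      have hr := mem_pts_some.1 ha
      have hpos' : fv v (t - r) < 1 := hpos
      have h2 : ∀ b ∈ rts P, b ≠ r → fv v (t - b) = 1 := by
        intro b hb hbr
        have h3 : fv v (r - b) = 1 := g3 r hr b hb (Ne.symm hbr)
        have h4 : fv v (r - b - (r - t)) = fv v (r - b) := by
          refine fv_sub_eq v ?_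
          rw [h3, fv_sub_comm]
          exact hpos'
        have h5 : r - b - (r - t) = t - b := by ring
        rw [h5, h3] at h4
        exact h4
      have h3 : ∀ i, fv v ((P i).eval t) = fv v (t - r) ^ (P i).roots.count r := by
        intro i
        rw [fv_eval v (hs i) t, g1 i, one_mul]
        exact Multiset.prod_map_eq_pow_single r fun b hb hb' =>
          h2 b (mem_rts_of_roots hP hb') hb
      obtain ⟨i, hi⟩ := (mem_rts hP).1 hr
      obtain ⟨j, hj⟩ := hc r
      refine ⟨i, j, ?_⟩
      rw [h3, h3]
      have h4 : (P j).roots.count r = 0 := by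
        rw [Multiset.count_eq_zero]
        intro h
        exact hj ((mem_roots (hP j)).1 h)
      have h5 : (P i).roots.count r ≠ 0 := by
        rw [Ne, Multiset.count_eq_zero, not_not]
        exact (mem_roots (hP i)).2 hi
      rw [h4, pow_zero]
      exact (pow_lt_one₀ ((fv v).nonneg _) hpos' h5).ne

/-- a good prime is near at most one of the points -/
theorem near_unique {P : Fin n → K[X]} {v : HeightOneSpectrum (𝓞 K)} (hv : GoodC v P) {t : K}
    {a b : Option K} (ha : a ∈ pts P) (hb : b ∈ pts P) (h1 : Near v t a) (h2 : Near v t b) :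
    a = b := by
  obtain ⟨-, g2, g3⟩ := hv
  have key : ∀ r ∈ rts P, fv v (t - r) < 1 → ¬ 1 < fv v t := by
    intro r hr hlt h
    rw [fv_sub_eq v (lt_of_le_of_lt (g2 r hr) h)] at hlt
    linarith
  cases a with
  | none =>
    cases b with
    | none => rfl
    | some s => exact absurd h1 (key s (mem_pts_some.1 hb) h2)
  | some r =>
    cases b with
    | none => exact absurd h2 (key r (mem_pts_some.1 ha) h1)
    | some s =>
      by_contra hne
      have hrs : r ≠ s := fun h => hne (by rw [h])
      have h3 := g3 r (mem_pts_some.1 ha) s (mem_pts_some.1 hb) hrs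
      have h1' : fv v (t - r) < 1 := h1
      have h2' : fv v (t - s) < 1 := h2
      have h4 : r - s = (t - s) - (t - r) := by ring
      rw [h4] at h3
      have h5 := fv_sub_le v (t - s) (t - r)
      rw [h3] at h5
      rcases le_max_iff.1 h5 with h | h <;> linarith

/-- the number attached to a point of the line at the parameter `u / v` -/
def lf (u v : ℤ) : Option K → K
  | some r => (u : K) - v * r
  | none => (v : K)

/-- a prime at which the form is small is near -/
theorem near_of_lt {P : Fin n → K[X]} {w : HeightOneSpectrum (𝓞 K)} (hw : GoodC w P)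
    {a : Option K} (ha : a ∈ pts P) {u v : ℤ} (huv : IsCoprime u v) (hv : v ≠ 0)
    (h : fv w (lf u v a) < 1) : Near w ((u : K) / v) a := by
  obtain ⟨-, g2, -⟩ := hw
  have hvK : (v : K) ≠ 0 := by exact_mod_cast hv
  have hm := max_one (K := K) w u v huv
  cases a with
  | none =>
    have h' : fv w (v : K) < 1 := h
    show 1 < fv w ((u : K) / v)
    have hu : fv w (u : K) = 1 := by
      rcases max_choice (fv w (u : K)) (fv w (v : K)) with h1 | h1
      · rwa [h1] at hm
      · rw [h1] at hm
        exact absurd hm h'.ne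
    rw [map_div₀, hu]
    exact (one_lt_div ((fv w).pos hvK)).2 h'
  | some r =>
    have h' : fv w ((u : K) - v * r) < 1 := h
    show fv w ((u : K) / v - r) < 1
    have hr := g2 r (mem_pts_some.1 ha)
    have hv1 : fv w (v : K) = 1 := by
      by_contra hne
      have h3 : fv w (v : K) < 1 := lt_of_le_of_ne (fv_int w v) hne
      have h5 : fv w (u : K) = 1 := by
        rcases max_choice (fv w (u : K)) (fv w (v : K)) with h1 | h1
        · rwa [h1] at hm
        · rw [h1] at hm
          exact absurd hm hne
      have h6 : fv w ((v : K) * r) < fv w (u : K) := by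
        rw [h5, map_mul]
        have := (fv w).nonneg (v : K)
        have := (fv w).nonneg r
        nlinarith
      rw [fv_sub_eq w h6, h5] at h'
      exact lt_irrefl _ h'
    have h3 : (u : K) / v - r = (u - v * r) / v := by field_simp
    rw [h3, map_div₀, hv1, div_one]
    exact h'

end curve

end Pool.Agent.Q10.KY
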