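import Pool.Agent.Q10.KY3

/-!
The radical of the points of a split rational curve at rational parameters: lower bound by the
radicals of the values of the forms of the zeros
-/

set_option autoImplicit false

namespace Pool.Agent.Q10.KY

open NumberField IsDedekindDomain Finset Polynomial
open Pool.Agent.W4.CF Pool.Agent.W4.VC Pool.Agent.W4.QD Pool.Agent.H691R3 Pool.Agent.W240.CD
  Pool.Agent.W563.QD

variable {K : Type} [Field K] [NumberField K] {n : ℕ}

/-- the degree of a point of the line -/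
noncomputable def dgr (a : Option K) : ℕ := a.elim 1 fun r => (minpoly ℚ r).natDegree

/-- forms of the points of the line -/
structure FormOf (F : Option K → ℤ[X]) : Prop where
  none : F none = 1
  irr : ∀ r, Irreducible ((F (some r)).map (Int.castRingHom ℚ))
  root : ∀ r, aeval r (F (some r)) = 0
  deg : ∀ r, (F (some r)).natDegree = (minpoly ℚ r).natDegree

/-- an integral polynomial irreducible over `ℚ` with a given zero -/
theorem exists_int_poly {K : Type} [Field K] [NumberField K] (α : K) : ∃ f : ℤ[X],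
    Irreducible (f.map (Int.castRingHom ℚ)) ∧ aeval α f = 0 ∧
      f.natDegree = (minpoly ℚ α).natDegree := by
  have hα : IsIntegral ℚ α := Algebra.IsIntegral.isIntegral α
  obtain ⟨b, hb⟩ := IsLocalization.integerNormalization_map_to_map (nonZeroDivisors ℤ)
    (minpoly ℚ α)
  set f : ℤ[X] := IsLocalization.integerNormalization (nonZeroDivisors ℤ) (minpoly ℚ α) with hf
  have hbne : ((b : ℤ) : ℚ) ≠ 0 := by
    have := nonZeroDivisors.ne_zero b.2
    exact_mod_cast this
  have e : (algebraMap ℤ ℚ) = Int.castRingHom ℚ := RingHom.ext_int _ _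
  have h1 : f.map (Int.castRingHom ℚ) = C ((b : ℤ) : ℚ) * minpoly ℚ α := by
    rw [← e, hb]
    ext n
    rw [coeff_smul, coeff_C_mul, zsmul_eq_mul]
  have hunit : IsUnit (C ((b : ℤ) : ℚ) : ℚ[X]) := by
    rw [isUnit_C]
    exact isUnit_iff_ne_zero.mpr hbne
  refine ⟨f, ?_, ?_, ?_⟩
  · rw [h1]
    exact (irreducible_isUnit_mul hunit).mpr (minpoly.irreducible hα)
  · have h2 : aeval α (f.map (algebraMap ℤ ℚ)) = 0 := by
      rw [e, h1, map_mul, minpoly.aeval, mul_zero]
    rwa [aeval_map_algebraMap] at h2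
  · have h3 : (f.map (Int.castRingHom ℚ)).natDegree = f.natDegree :=
      natDegree_map_eq_of_injective Int.cast_injective _
    rw [← h3, h1, natDegree_C_mul hbne]

variable (K) in
theorem exists_forms : ∃ F : Option K → ℤ[X], FormOf F := by
  have h := fun r : K => exists_int_poly r
  choose f hf1 hf2 hf3 using h
  exact ⟨fun a => a.elim 1 f, ⟨rfl, fun r => hf1 r, fun r => hf2 r, fun r => hf3 r⟩⟩

theorem dgr_pos (a : Option K) : 1 ≤ dgr a := by
  cases a with
  | none => exact le_rfl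
  | some r => exact minpoly.natDegree_pos (Algebra.IsIntegral.isIntegral r)

theorem FormOf.natDegree_le {F : Option K → ℤ[X]} (hF : FormOf F) (a : Option K) :
    (F a).natDegree ≤ dgr a := by
  cases a with
  | none => rw [hF.none]; simp
  | some r => exact (hF.deg r).le

theorem hom_one (u v : ℤ) : hom 1 1 u v = v := by
  unfold hom
  rw [Finset.sum_range_succ, Finset.sum_range_one]
  simp [coeff_one]

/-- the weight of a prime dividing the value of the form of a point -/
theorem weightO {F : Option K → ℤ[X]} (hF : FormOf F) (a : Option K) : ∃ m : ℕ, 1 ≤ m ∧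
      ∀ u v : ℤ, v ≠ 0 → lf (K := K) u v a ≠ 0 → hom (F a) (dgr a) u v ≠ 0 ∧
      ∀ p : ℕ, p.Prime → ¬ p ∣ m →
      (p : ℤ) ∣ hom (F a) (dgr a) u v → ∀ hp0 : (p : K) ≠ 0,
      (Module.finrank ℚ K : ℝ) / (dgr a : ℝ) * Real.log (p : ℝ) ≤
        ∑ w ∈ (Sp K p hp0).filter (fun w => fv w (lf u v a) < 1), Real.log (Nv w) := by
  classical
  cases a with
  | some r =>
    obtain ⟨m, hm, -, h⟩ := weight r (F (some r)) (hF.irr r) (hF.root r)
    refine ⟨m, hm, fun u v hv hne => ?_⟩
    have h1 := h u v hv hne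
    have e : dgr (some r) = (F (some r)).natDegree := (hF.deg r).symm
    rw [e]
    exact h1
  | none =>
    have hfin : {w : HeightOneSpectrum (𝓞 K) | w.asIdeal ∣ differentIdeal ℤ (𝓞 K)}.Finite :=
      Ideal.finite_factors differentIdeal_ne_bot
    refine ⟨∏ w ∈ hfin.toFinset, Ideal.absNorm w.asIdeal, ?_, ?_⟩
    · refine Nat.one_le_iff_ne_zero.2 (Finset.prod_ne_zero_iff.2 fun w _ => ?_)
      have := NumberField.HeightOneSpectrum.one_lt_absNorm w
      omega
    · intro u v hv _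
      have e1 : hom (F (none : Option K)) (dgr (none : Option K)) u v = v := by
        rw [hF.none]
        exact hom_one u v
      rw [e1]
      refine ⟨hv, fun p hp hpm hpv hp0 => ?_⟩
      have e2 : (Sp K p hp0).filter (fun w => fv w (lf u v (none : Option K)) < 1) = Sp K p hp0 := by
        rw [Finset.filter_eq_self]
        intro w hw
        have hwp := (mem_Sp p hp0 w).1 hw
        show fv w (v : K) < 1
        obtain ⟨k, hk⟩ := hpv
        rw [hk]
        push_cast
        rw [map_mul]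
        have := fv_int w k
        nlinarith [(fv w).nonneg (p : K), (fv w).nonneg (k : K)]
      rw [e2]
      have e3 : ((dgr (none : Option K) : ℕ) : ℝ) = 1 := by
        show ((1 : ℕ) : ℝ) = 1
        exact Nat.cast_one
      rw [e3, div_one]
      refine sum_Sp p hp hp0 fun w hw hd => hpm ?_
      have hwm : w ∈ hfin.toFinset := by
        rw [Set.Finite.mem_toFinset]
        exact hd
      exact (dvd_norm w p hp ((mem_Sp p hp0 w).1 hw)).trans (Finset.dvd_prod_of_mem
        (fun w : HeightOneSpectrum (𝓞 K) => Ideal.absNorm w.asIdeal) hwm)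

/-- the logarithm of the radical, relative to `K` -/
noncomputable def rdK (P : Fin n → K[X]) (t : K) : ℝ :=
  ∑ᶠ v ∈ {v : HeightOneSpectrum (𝓞 K) | ∃ i j, fv v ((P i).eval t) ≠ fv v ((P j).eval t)},
    Real.log (Nv v)

theorem supp_fin (P : Fin n → K[X]) (t : K) (ht : ∀ i, (P i).eval t ≠ 0) :
    {v : HeightOneSpectrum (𝓞 K) |
      ∃ i j, fv v ((P i).eval t) ≠ fv v ((P j).eval t)}.Finite := by
  refine (Set.finite_iUnion fun i => fv_support_finite (ht i)).subset ?_
  rintro v ⟨i, j, hij⟩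
  by_contra hc
  rw [Set.mem_iUnion, not_exists] at hc
  have h0 : ∀ i, fv v ((P i).eval t) = 1 := by
    intro i
    have := hc i
    rw [Set.mem_ofPred_eq, not_not] at this
    exact this
  exact hij (by rw [h0, h0])

theorem log_radp (m N : ℕ) : Real.log (radp m N : ℝ) =
    ∑ p ∈ N.primeFactors.filter (fun p => ¬ p ∣ m), Real.log (p : ℝ) := by
  unfold radp
  push_cast
  rw [Real.log_prod]
  intro p hp
  exact_mod_cast (Nat.prime_of_mem_primeFactors (mem_filter.1 hp).1).ne_zero

theorem lf_ne {P : Fin n → K[X]} (hP : ∀ i, P i ≠ 0) {u v : ℤ} (hv : v ≠ 0)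
    (ht : ∀ i, (P i).eval ((u : K) / v) ≠ 0) {a : Option K} (ha : a ∈ pts P) :
    lf (K := K) u v a ≠ 0 := by
  have hvK : (v : K) ≠ 0 := by exact_mod_cast hv
  cases a with
  | none => exact hvK
  | some r =>
    obtain ⟨i, hi⟩ := (mem_rts hP).1 (mem_pts_some.1 ha)
    intro h
    apply ht i
    have h' : (u : K) - v * r = 0 := h
    have : (u : K) / v = r := by
      rw [div_eq_iff hvK]
      linear_combination h'
    rw [this]
    exact hi

theorem rad_low {P : Fin n → K[X]} (hP : ∀ i, P i ≠ 0) (hs : ∀ i, (P i).Splits)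
    (hc : ∀ r : K, ∃ i, (P i).eval r ≠ 0) {F : Option K → ℤ[X]} (hF : FormOf F) :
    ∃ m : ℕ, 1 ≤ m ∧ ∀ u v : ℤ, IsCoprime u v → v ≠ 0 → (∀ i, (P i).eval ((u : K) / v) ≠ 0) →
      (∀ a ∈ pts P, hom (F a) (dgr a) u v ≠ 0) ∧
      ∑ a ∈ pts P, (Module.finrank ℚ K : ℝ) / (dgr a : ℝ) *
        Real.log (radp m (hom (F a) (dgr a) u v).natAbs : ℝ) ≤ rdK P ((u : K) / v) := by
  classical
  have hw := fun a : Option K => weightO hF a
  choose M hM1 hM2 using hw
  obtain ⟨W, hW⟩ : ∃ W : Finset (HeightOneSpectrum (𝓞 K)), W = (goodC_finite hP).toFinset :=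
    ⟨_, rfl⟩
  obtain ⟨m, hm⟩ : ∃ m : ℕ, m = (∏ w ∈ W, Ideal.absNorm w.asIdeal) * ∏ a ∈ pts P, M a := ⟨_, rfl⟩
  refine ⟨m, ?_, fun u v huv hv ht => ?_⟩
  · rw [hm]
    refine Nat.one_le_iff_ne_zero.2 (mul_ne_zero (Finset.prod_ne_zero_iff.2 fun w _ => ?_)
      (Finset.prod_ne_zero_iff.2 fun a _ => ?_))
    · have := NumberField.HeightOneSpectrum.one_lt_absNorm w
      omega
    · have := hM1 a
      omega
  have hne := fun a (ha : a ∈ pts P) => lf_ne hP hv ht ha
  refine ⟨fun a ha => (hM2 a u v hv (hne a ha)).1, ?_⟩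
  have hd : (0 : ℝ) < Module.finrank ℚ K := by exact_mod_cast Module.finrank_pos
  obtain ⟨Pr, hPr⟩ : ∃ Pr : Option K → Finset ℕ, Pr = fun a =>
    (hom (F a) (dgr a) u v).natAbs.primeFactors.filter (fun p => ¬ p ∣ m) := ⟨_, rfl⟩
  have hPp : ∀ a, ∀ p ∈ Pr a, p.Prime ∧ (p : ℤ) ∣ hom (F a) (dgr a) u v ∧ ¬ p ∣ m := by
    intro a p hp
    rw [hPr] at hp
    have hp' := Finset.mem_filter.1 hp
    rw [Nat.mem_primeFactors] at hp'
    exact ⟨hp'.1.1, Int.natCast_dvd.2 hp'.1.2.1, hp'.2⟩
  have hS : ∀ p : ℕ, p.Prime → (p : K) ≠ 0 := fun p hp => by exact_mod_cast hp.ne_zero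
  obtain ⟨N, hN⟩ : ∃ N : (Σ _ : Option K, ℕ) → Finset (HeightOneSpectrum (𝓞 K)), N = fun x =>
    (Sq K x.2).filter (fun w => fv w (lf u v x.1) < 1) := ⟨_, rfl⟩
  obtain ⟨I, hI⟩ : ∃ I : Finset (Σ _ : Option K, ℕ), I = (pts P).sigma Pr := ⟨_, rfl⟩
  have hmem : ∀ x ∈ I, ∀ w ∈ N x, fv w (x.2 : K) < 1 ∧ GoodC w P ∧ Near w ((u : K) / v) x.1 ∧
      x.1 ∈ pts P := by
    rintro ⟨a, p⟩ hx w hwN
    rw [hI] at hx
    obtain ⟨ha, hp⟩ := Finset.mem_sigma.1 hx
    have ha' : a ∈ pts P := ha
    obtain ⟨h1, h2, h3⟩ := hPp a p hp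
    rw [hN] at hwN
    obtain ⟨h4, h5⟩ := Finset.mem_filter.1 hwN
    have h4' : w ∈ Sq K p := h4
    rw [Sq_eq p (hS p h1), mem_Sp] at h4'
    have hgood : GoodC w P := by
      by_contra hcon
      apply h3
      rw [hm]
      have hwm : w ∈ W := by
        rw [hW, Set.Finite.mem_toFinset]
        exact hcon
      exact ((dvd_norm w p h1 h4').trans (Finset.dvd_prod_of_mem
        (fun w : HeightOneSpectrum (𝓞 K) => Ideal.absNorm w.asIdeal) hwm)).mul_right _
    exact ⟨h4', hgood, near_of_lt hgood ha' huv hv h5, ha'⟩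
  calc ∑ a ∈ pts P, (Module.finrank ℚ K : ℝ) / (dgr a : ℝ) *
        Real.log (radp m (hom (F a) (dgr a) u v).natAbs : ℝ)
      = ∑ x ∈ I, (Module.finrank ℚ K : ℝ) / (dgr x.1 : ℝ) * Real.log (x.2 : ℝ) := by
        rw [hI, Finset.sum_sigma]
        refine Finset.sum_congr rfl fun a _ => ?_
        rw [log_radp, Finset.mul_sum, hPr]
    _ ≤ ∑ x ∈ I, ∑ w ∈ N x, Real.log (Nv w) := by
        refine Finset.sum_le_sum ?_
        rintro ⟨a, p⟩ hx
        rw [hI] at hx
        obtain ⟨ha, hp⟩ := Finset.mem_sigma.1 hx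
        have ha' : a ∈ pts P := ha
        obtain ⟨h1, h2, h3⟩ := hPp a p hp
        have h4 := (hM2 a u v hv (hne a ha')).2 p h1 (fun h => h3 (by
          rw [hm]
          exact (h.trans (Finset.dvd_prod_of_mem M ha')).mul_left _)) h2 (hS p h1)
        rw [hN]
        show _ ≤ ∑ w ∈ (Sq K p).filter (fun w => fv w (lf u v a) < 1), Real.log (Nv w)
        rw [Sq_eq p (hS p h1)]
        exact h4
    _ = ∑ w ∈ I.biUnion N, Real.log (Nv w) := by
        rw [Finset.sum_biUnion]
        intro x hx y hy hxy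
        rw [Function.onFun, Finset.disjoint_left]
        intro w hwx hwy
        obtain ⟨k1, k2, k3, k4⟩ := hmem x hx w hwx
        obtain ⟨l1, l2, l3, l4⟩ := hmem y hy w hwy
        apply hxy
        have hx' := hx
        have hy' := hy
        rw [hI] at hx' hy'
        have p1 := (hPp x.1 x.2 (Finset.mem_sigma.1 hx').2).1
        have p2 := (hPp y.1 y.2 (Finset.mem_sigma.1 hy').2).1
        have e1 := near_unique k2 k4 l4 k3 l3
        have e2 := uniq w x.2 y.2 p1 p2 k1 l1
        exact Sigma.ext e1 (heq_of_eq e2)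
    _ ≤ rdK P ((u : K) / v) := by
        unfold rdK
        rw [finsum_mem_eq_finite_toFinset_sum _ (supp_fin P _ ht)]
        refine Finset.sum_le_sum_of_subset_of_nonneg ?_ fun w _ _ => (log_Nv_pos w).le
        intro w hw
        rw [Set.Finite.mem_toFinset]
        obtain ⟨x, hx, hwx⟩ := Finset.mem_biUnion.1 hw
        obtain ⟨k1, k2, k3, k4⟩ := hmem x hx w hwx
        exact (supp_iff hP hs hc k2).2 ⟨x.1, k4, k3⟩

end Pool.Agent.Q10.KY
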