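import Pool.Agent.Q10.KY4

/-!
The number of rational parameters with a small radical
-/

set_option autoImplicit false

namespace Pool.Agent.Q10.KY

open NumberField IsDedekindDomain Finset Polynomial
open Pool.Agent.TH498.HF Pool.Agent.TH498.KB
open Pool.Agent.W4.CF Pool.Agent.W4.VC Pool.Agent.H691R3 Pool.Agent.Q10.KT

/-- the number of coprime pairs subject to `H` where the form has a small radical -/
def Cnt (H : ℝ → ℤ × ℤ → Prop) (f : ℤ[X]) (n : ℕ) (g : ℝ) : Prop :=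
  ∀ m : ℕ, 1 ≤ m → ∀ τ : ℝ, 0 ≤ τ → ∀ ε : ℝ, 0 < ε → ∃ C : ℝ, 0 < C ∧ ∀ X : ℝ, 1 ≤ X →
    ∀ s : Finset (ℤ × ℤ), (∀ x ∈ s, IsCoprime x.1 x.2 ∧ H X x ∧ hom f n x.1 x.2 ≠ 0 ∧
      (radp m (hom f n x.1 x.2).natAbs : ℝ) ≤ X ^ τ) → (s.card : ℝ) ≤ C * X ^ (τ * g + ε)

theorem Cnt.of_all {f : ℤ[X]} {n : ℕ} {g : ℝ} (h : ∀ δ : ℝ, 0 < δ → CountB f n (g + δ)) :
    Cnt (fun _ _ => True) f n g := by
  intro m hm τ hτ ε hε
  obtain ⟨C, hC, hmain⟩ := h (ε / (1 + τ)) (by positivity) m hm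
  refine ⟨C, hC, fun X hX s hs => ?_⟩
  have h1 := hmain (X ^ τ) (Real.one_le_rpow hX hτ) s fun x hx => by
    obtain ⟨h1, -, h2, h3⟩ := hs x hx
    exact ⟨h1, h2, h3⟩
  refine h1.trans (mul_le_mul_of_nonneg_left ?_ hC.le)
  have hX0 : 0 < X := by linarith
  rw [← Real.rpow_mul hX0.le]
  refine Real.rpow_le_rpow_of_exponent_le hX ?_
  rw [mul_add]
  refine add_le_add le_rfl ?_
  rw [mul_div_assoc', div_le_iff₀ (by positivity)]
  nlinarith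

/-- pairs of bounded size -/
def Bdd (B κ : ℝ) (X : ℝ) (x : ℤ × ℤ) : Prop :=
  |(x.1 : ℝ)| ≤ B * X ^ κ ∧ |(x.2 : ℝ)| ≤ B * X ^ κ

theorem Cnt.of_paired {f : ℤ[X]} {n : ℕ} {g : ℝ}
    (h : ∀ ε : ℝ, 0 < ε → ∃ C : ℝ, 0 < C ∧ ∀ (m : ℕ) (Y R : ℝ), 1 ≤ m → 1 ≤ Y → 1 ≤ R →
      ∀ s : Finset (ℤ × ℤ), (∀ p ∈ s, IsCoprime p.1 p.2 ∧ |(p.1 : ℝ)| ≤ Y ∧ |(p.2 : ℝ)| ≤ Y ∧
        hom f n p.1 p.2 ≠ 0 ∧ (radp m (hom f n p.1 p.2).natAbs : ℝ) ≤ R) →
      (s.card : ℝ) ≤ C * ((m : ℝ) * Y) ^ ε * R ^ g) {B κ : ℝ} (hB : 1 ≤ B) (hκ : 0 ≤ κ) :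
    Cnt (Bdd B κ) f n g := by
  intro m hm τ hτ ε hε
  obtain ⟨δ, hδ⟩ : ∃ δ : ℝ, δ = ε / (1 + κ) := ⟨_, rfl⟩
  have hδ0 : 0 < δ := by rw [hδ]; positivity
  obtain ⟨C, hC, hmain⟩ := h δ hδ0
  have hm0 : (0 : ℝ) < m := by exact_mod_cast hm
  refine ⟨C * ((m : ℝ) * B) ^ δ, by positivity, fun X hX s hs => ?_⟩
  have hX0 : 0 < X := by linarith
  have hXκ : 1 ≤ X ^ κ := Real.one_le_rpow hX hκ
  have h1 := hmain m (B * X ^ κ) (X ^ τ) hm (by nlinarith) (Real.one_le_rpow hX hτ) s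
    fun x hx => by
      obtain ⟨h1, h4, h2, h3⟩ := hs x hx
      exact ⟨h1, h4.1, h4.2, h2, h3⟩
  refine h1.trans ?_
  rw [← mul_assoc, Real.mul_rpow (by positivity) (by positivity), ← Real.rpow_mul hX0.le,
    ← Real.rpow_mul hX0.le, Real.rpow_add hX0]
  have h2 : X ^ (κ * δ) ≤ X ^ ε := by
    refine Real.rpow_le_rpow_of_exponent_le hX ?_
    rw [hδ, mul_div_assoc', div_le_iff₀ (by positivity)]
    nlinarith
  have h3 : 0 < X ^ (τ * g) := by positivity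
  have h4 : 0 < C * ((m : ℝ) * B) ^ δ := by positivity
  calc C * (((m : ℝ) * B) ^ δ * X ^ (κ * δ)) * X ^ (τ * g)
      = C * ((m : ℝ) * B) ^ δ * (X ^ (κ * δ) * X ^ (τ * g)) := by ring
    _ ≤ C * ((m : ℝ) * B) ^ δ * (X ^ ε * X ^ (τ * g)) := by
        refine mul_le_mul_of_nonneg_left ?_ h4.le
        exact mul_le_mul_of_nonneg_right h2 h3.le
    _ = _ := by ring

/-- the choice of a block -/
theorem block_choice {ι : Type} [DecidableEq ι] (A I R : Finset ι) (hI : I ⊆ A) (hR : R ⊆ A)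
    (hIR : Disjoint I R) (d ρ : ι → ℝ) (hd : ∀ a, 0 < d a) (hdR : ∀ a ∈ R, d a = 1)
    (hρ : ∀ a, 0 ≤ ρ a) (b : Prop) [Decidable b] (Λ S : ℝ) (_hΛ : 0 ≤ Λ)
    (hsum : ∑ a ∈ A, ρ a / d a ≤ Λ)
    (hS : S = ∑ a ∈ I, 1 / d a + if b then (R.card : ℝ) / 2 else 0) (hS0 : 0 < S) :
    (∃ a ∈ I, ρ a ≤ Λ / S) ∨ (b ∧ ∑ a ∈ R, ρ a ≤ (R.card : ℝ) / 2 * (Λ / S)) := by
  by_contra hcon
  push Not at hcon
  obtain ⟨h1, h2⟩ := hcon
  have h3 : ∑ a ∈ I, ρ a / d a + ∑ a ∈ R, ρ a / d a ≤ Λ := by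
    rw [← Finset.sum_union hIR]
    refine le_trans ?_ hsum
    exact Finset.sum_le_sum_of_subset_of_nonneg (Finset.union_subset hI hR)
      fun a _ _ => div_nonneg (hρ a) (hd a).le
  have h4 : ∑ a ∈ R, ρ a / d a = ∑ a ∈ R, ρ a :=
    Finset.sum_congr rfl fun a ha => by rw [hdR a ha, div_one]
  rw [h4] at h3
  have h5 : (Λ / S) * ∑ a ∈ I, 1 / d a ≤ ∑ a ∈ I, ρ a / d a := by
    rw [Finset.mul_sum]
    refine Finset.sum_le_sum fun a ha => ?_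
    rw [mul_one_div]
    exact div_le_div_of_nonneg_right (h1 a ha).le (hd a).le
  have h6 : 0 ≤ ∑ a ∈ R, ρ a := Finset.sum_nonneg fun a _ => hρ a
  have h7 : (Λ / S) * S = Λ := div_mul_cancel₀ _ hS0.ne'
  obtain ⟨c, hc⟩ : ∃ c : ℝ, c = Λ / S := ⟨_, rfl⟩
  rw [← hc] at h1 h2 h5 h7
  by_cases hb : b
  · have h8 := h2 hb
    rw [if_pos hb] at hS
    rw [hS, mul_add] at h7
    linarith
  · rw [if_neg hb, add_zero] at hS
    have hne : I.Nonempty := by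
      rw [Finset.nonempty_iff_ne_empty]
      rintro rfl
      rw [Finset.sum_empty] at hS
      linarith
    have h5' : c * ∑ a ∈ I, 1 / d a < ∑ a ∈ I, ρ a / d a := by
      rw [Finset.mul_sum]
      refine Finset.sum_lt_sum_of_nonempty hne fun a ha => ?_
      rw [mul_one_div]
      exact div_lt_div_of_pos_right (h1 a ha) (hd a)
    rw [← hS, h7] at h5'
    linarith

variable {K : Type} [Field K] [NumberField K] {n : ℕ}

open Classical in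
/-- the rational zeros -/
noncomputable def rat (P : Fin n → K[X]) : Finset (Option K) := (pts P).filter fun a => dgr a = 1

theorem master {P : Fin n → K[X]} (hP : ∀ i, P i ≠ 0) (hs : ∀ i, (P i).Splits)
    (hc : ∀ r : K, ∃ i, (P i).eval r ≠ 0) {F : Option K → ℤ[X]} (hF : FormOf F)
    (H : ℝ → ℤ × ℤ → Prop) (I : Finset (Option K)) (hI : I ⊆ pts P) (hI1 : ∀ a ∈ I, dgr a ≠ 1)
    (b : Prop) [Decidable b] (hb : b → 1 ≤ (rat P).card)
    (hcI : ∀ a ∈ I, Cnt H (F a) (dgr a) 1)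
    (hcR : b → Cnt H (∏ a ∈ rat P, F a) (∑ a ∈ rat P, dgr a) (2 / ((rat P).card : ℝ)))
    (S : ℝ) (hS : S = ∑ a ∈ I, 1 / (dgr a : ℝ) + if b then ((rat P).card : ℝ) / 2 else 0)
    (hS0 : 0 < S) (ε : ℝ) (hε : 0 < ε) :
    ∃ C : ℝ, 0 < C ∧ ∀ X : ℝ, 1 ≤ X → ∀ s : Finset (ℤ × ℤ),
      (∀ x ∈ s, IsCoprime x.1 x.2 ∧ x.2 ≠ 0 ∧ H X x ∧
        (∀ i, (P i).eval ((x.1 : K) / x.2) ≠ 0) ∧
        rdK P ((x.1 : K) / x.2) ≤ (Module.finrank ℚ K : ℝ) * Real.log X) →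
      (s.card : ℝ) ≤ C * X ^ (1 / S + ε) := by
  classical
  obtain ⟨m, hm, hlow⟩ := rad_low hP hs hc hF
  obtain ⟨l, hl⟩ : ∃ l : ℝ, l = ((rat P).card : ℝ) := ⟨_, rfl⟩
  have hl0 : 0 ≤ l := by rw [hl]; exact Nat.cast_nonneg _
  have hτ : 0 ≤ 1 / S := by positivity
  have hτ2 : 0 ≤ l / 2 * (1 / S) := by positivity
  have hA : ∀ a : Option K, ∃ C : ℝ, 0 < C ∧ (a ∈ I → ∀ X : ℝ, 1 ≤ X →
      ∀ s : Finset (ℤ × ℤ), (∀ x ∈ s, IsCoprime x.1 x.2 ∧ H X x ∧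
        hom (F a) (dgr a) x.1 x.2 ≠ 0 ∧
        (radp m (hom (F a) (dgr a) x.1 x.2).natAbs : ℝ) ≤ X ^ (1 / S)) →
      (s.card : ℝ) ≤ C * X ^ (1 / S * 1 + ε)) := by
    intro a
    by_cases ha : a ∈ I
    · obtain ⟨C, hC, h⟩ := hcI a ha m hm (1 / S) hτ ε hε
      exact ⟨C, hC, fun _ => h⟩
    · exact ⟨1, one_pos, fun h => absurd h ha⟩
  choose CA hCA hA' using hA
  obtain ⟨CR, hCR, hR'⟩ : ∃ C : ℝ, 0 < C ∧ (b → ∀ X : ℝ, 1 ≤ X →
      ∀ s : Finset (ℤ × ℤ), (∀ x ∈ s, IsCoprime x.1 x.2 ∧ H X x ∧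
        hom (∏ a ∈ rat P, F a) (∑ a ∈ rat P, dgr a) x.1 x.2 ≠ 0 ∧
        (radp m (hom (∏ a ∈ rat P, F a) (∑ a ∈ rat P, dgr a) x.1 x.2).natAbs : ℝ) ≤
          X ^ (l / 2 * (1 / S))) →
      (s.card : ℝ) ≤ C * X ^ (l / 2 * (1 / S) * (2 / l) + ε)) := by
    by_cases hb' : b
    · obtain ⟨C, hC, h⟩ := hcR hb' m hm (l / 2 * (1 / S)) hτ2 ε hε
      rw [← hl] at h
      exact ⟨C, hC, fun _ => h⟩
    · exact ⟨1, one_pos, fun h => absurd h hb'⟩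
  refine ⟨∑ a ∈ I, CA a + CR, by
    have : 0 ≤ ∑ a ∈ I, CA a := Finset.sum_nonneg fun a _ => (hCA a).le
    linarith, fun X hX s hs' => ?_⟩
  have hX0 : 0 < X := by linarith
  have hlX : 0 ≤ Real.log X := Real.log_nonneg hX
  have hn0 : (0 : ℝ) < Module.finrank ℚ K := by exact_mod_cast Module.finrank_pos
  have hra : ∀ (f : ℤ[X]) (k : ℕ) (x : ℤ × ℤ),
      (0 : ℝ) < (radp m (hom f k x.1 x.2).natAbs : ℕ) := fun f k x => by
    exact_mod_cast radp_pos _ _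
  have hdr : ∀ a : Option K, (0 : ℝ) < (dgr a : ℝ) := fun a => by exact_mod_cast dgr_pos a
  -- every pair is in one of the sets
  have hdiv : ∀ x ∈ s, (∃ a ∈ I, (radp m (hom (F a) (dgr a) x.1 x.2).natAbs : ℝ) ≤
      X ^ (1 / S)) ∨ (b ∧ (radp m (hom (∏ a ∈ rat P, F a) (∑ a ∈ rat P, dgr a)
        x.1 x.2).natAbs : ℝ) ≤ X ^ (l / 2 * (1 / S))) := by
    intro x hx
    obtain ⟨h1, h2, h3, h4, h5⟩ := hs' x hx
    obtain ⟨g1, g2⟩ := hlow x.1 x.2 h1 h2 h4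
    obtain ⟨ρ, hρ⟩ : ∃ ρ : Option K → ℝ, ρ = fun a =>
      Real.log (radp m (hom (F a) (dgr a) x.1 x.2).natAbs : ℝ) := ⟨_, rfl⟩
    have hρ0 : ∀ a, 0 ≤ ρ a := fun a => by
      rw [hρ]
      exact Real.log_nonneg (by exact_mod_cast radp_pos _ _)
    have hsum : ∑ a ∈ pts P, ρ a / (dgr a : ℝ) ≤ Real.log X := by
      have e1 : ∑ a ∈ pts P, (Module.finrank ℚ K : ℝ) / (dgr a : ℝ) *
          Real.log (radp m (hom (F a) (dgr a) x.1 x.2).natAbs : ℝ) =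
          (Module.finrank ℚ K : ℝ) * ∑ a ∈ pts P, ρ a / (dgr a : ℝ) := by
        rw [Finset.mul_sum, hρ]
        exact Finset.sum_congr rfl fun a _ => by ring
      rw [e1] at g2
      exact le_of_mul_le_mul_left (g2.trans h5) hn0
    rcases block_choice (pts P) I (rat P) hI (Finset.filter_subset _ _) (by
        rw [Finset.disjoint_left]
        intro a ha ha'
        exact hI1 a ha (Finset.mem_filter.1 ha').2) (fun a => (dgr a : ℝ)) ρ hdr (by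
        intro a ha
        have := (Finset.mem_filter.1 ha).2
        simp [this]) hρ0 b (Real.log X) S hlX hsum hS hS0 with ⟨a, ha, h6⟩ | ⟨hb', h6⟩
    · left
      refine ⟨a, ha, ?_⟩
      rw [← Real.log_le_log_iff (hra _ _ x) (by positivity), Real.log_rpow hX0]
      have h7 : ρ a = Real.log (radp m (hom (F a) (dgr a) x.1 x.2).natAbs : ℝ) := by rw [hρ]
      rw [← h7]
      refine h6.trans (le_of_eq ?_)
      ring
    · right
      refine ⟨hb', ?_⟩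
      rw [← Real.log_le_log_iff (hra _ _ x) (by positivity), Real.log_rpow hX0]
      rw [(hom_prod (rat P) F dgr (fun a _ => hF.natDegree_le a) x.1 x.2).2]
      have e1 : (∏ a ∈ rat P, hom (F a) (dgr a) x.1 x.2).natAbs =
        ∏ a ∈ rat P, (hom (F a) (dgr a) x.1 x.2).natAbs := map_prod Int.natAbsHom _ _
      rw [e1]
      -- the radical of the product
      have h8 : ∀ a ∈ rat P, (hom (F a) (dgr a) x.1 x.2).natAbs ≠ 0 := fun a ha =>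
        Int.natAbs_ne_zero.mpr (g1 a (Finset.mem_filter.1 ha).1)
      have h7 : ((radp m (∏ a ∈ rat P, (hom (F a) (dgr a) x.1 x.2).natAbs) : ℕ) : ℝ) ≤
          ((∏ a ∈ rat P, radp m (hom (F a) (dgr a) x.1 x.2).natAbs : ℕ) : ℝ) := by
        exact_mod_cast radp_prod_le m (rat P) _ h8
      have h9 : (0 : ℝ) < (radp m (∏ a ∈ rat P, (hom (F a) (dgr a) x.1 x.2).natAbs) : ℕ) := by
        exact_mod_cast radp_pos _ _
      refine (Real.log_le_log h9 h7).trans ?_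
      rw [Nat.cast_prod, Real.log_prod (fun a _ => (hra _ _ x).ne')]
      have h10 : ∑ a ∈ rat P, Real.log (radp m (hom (F a) (dgr a) x.1 x.2).natAbs : ℝ) =
          ∑ a ∈ rat P, ρ a := by rw [hρ]
      rw [h10, hl]
      refine h6.trans (le_of_eq ?_)
      ring
  -- the cover
  obtain ⟨T, hT⟩ : ∃ T : Option K → Finset (ℤ × ℤ), T = fun a => s.filter fun x =>
    (radp m (hom (F a) (dgr a) x.1 x.2).natAbs : ℝ) ≤ X ^ (1 / S) := ⟨_, rfl⟩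
  obtain ⟨U, hU⟩ : ∃ U : Finset (ℤ × ℤ), U = s.filter fun x => b ∧
    (radp m (hom (∏ a ∈ rat P, F a) (∑ a ∈ rat P, dgr a) x.1 x.2).natAbs : ℝ) ≤
      X ^ (l / 2 * (1 / S)) := ⟨_, rfl⟩
  have hcov : s ⊆ I.biUnion T ∪ U := by
    intro x hx
    rw [Finset.mem_union]
    rcases hdiv x hx with ⟨a, ha, h⟩ | ⟨h1, h2⟩
    · left
      rw [Finset.mem_biUnion]
      refine ⟨a, ha, ?_⟩
      rw [hT]
      exact Finset.mem_filter.2 ⟨hx, h⟩
    · right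
      rw [hU]
      exact Finset.mem_filter.2 ⟨hx, h1, h2⟩
  have hTc : ∀ a ∈ I, ((T a).card : ℝ) ≤ CA a * X ^ (1 / S + ε) := by
    intro a ha
    have h1 := hA' a ha X hX (T a) (by
      intro x hx
      rw [hT] at hx
      obtain ⟨hx1, hx2⟩ := Finset.mem_filter.1 hx
      obtain ⟨h1, h2, h3, h4, h5⟩ := hs' x hx1
      exact ⟨h1, h3, (hlow x.1 x.2 h1 h2 h4).1 a (hI ha), hx2⟩)
    rwa [mul_one] at h1
  have hUc : (U.card : ℝ) ≤ CR * X ^ (1 / S + ε) := by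
    by_cases hb' : b
    · have h1 := hR' hb' X hX U (by
        intro x hx
        rw [hU] at hx
        obtain ⟨hx1, -, hx2⟩ := Finset.mem_filter.1 hx
        obtain ⟨h1, h2, h3, h4, h5⟩ := hs' x hx1
        refine ⟨h1, h3, ?_, hx2⟩
        rw [(hom_prod (rat P) F dgr (fun a _ => hF.natDegree_le a) x.1 x.2).2,
          Finset.prod_ne_zero_iff]
        intro a ha
        exact (hlow x.1 x.2 h1 h2 h4).1 a (Finset.mem_filter.1 ha).1)
      have h2 : l / 2 * (1 / S) * (2 / l) = 1 / S := by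
        have hl1 : 1 ≤ l := by rw [hl]; exact_mod_cast hb hb'
        field_simp
      rwa [h2] at h1
    · have : U = ∅ := by
        rw [hU, Finset.filter_eq_empty_iff]
        rintro x - ⟨h, -⟩
        exact hb' h
      rw [this, Finset.card_empty, Nat.cast_zero]
      positivity
  calc (s.card : ℝ) ≤ ((I.biUnion T ∪ U).card : ℝ) := by exact_mod_cast card_le_card hcov
    _ ≤ ((I.biUnion T).card : ℝ) + U.card := by exact_mod_cast card_union_le _ _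
    _ ≤ ∑ a ∈ I, ((T a).card : ℝ) + U.card := by
        refine add_le_add ?_ le_rfl
        exact_mod_cast card_biUnion_le
    _ ≤ ∑ a ∈ I, CA a * X ^ (1 / S + ε) + CR * X ^ (1 / S + ε) :=
        add_le_add (Finset.sum_le_sum hTc) hUc
    _ = _ := by rw [← Finset.sum_mul, ← add_mul]

end Pool.Agent.Q10.KY
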