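import Pool.Agent.Q10.KY5
import Pool.Agent.Y557.NF.CurveHt

/-!
The number of rational parameters with a small radical: the blocks, heights, the final bounds
-/

set_option autoImplicit false

namespace Pool.Agent.Q10.KY

open NumberField IsDedekindDomain Finset Polynomial
open Pool.Agent.TH498.HF Pool.Agent.TH498.KB
open Pool.Agent.W4.CF Pool.Agent.W4.VC Pool.Agent.H691R3 Pool.Agent.Q10.KT Pool.Agent.Q10.KV

variable {K : Type} [Field K] [NumberField K] {n : ℕ}

/-- the height of Mathlib -/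
theorem lh1 (x : K) : Height.logHeight₁ x = (Module.finrank ℚ K : ℝ) * heightK x := by
  have hd : (0 : ℝ) < Module.finrank ℚ K := Pool.Agent.Q10.KV.deg_pos
  unfold heightK
  rw [mul_div_cancel₀ _ hd.ne', NumberField.logHeight₁_eq]
  congr 1
  · refine Finset.sum_congr rfl fun w _ => ?_
    rw [map_one, max_comm, Real.posLog_eq_log_max_one (apply_nonneg w x)]
  · rw [← finsum_comp_equiv (FinitePlace.equivHeightOneSpectrum (K := K)).symm]
    refine finsum_congr fun v => ?_
    rw [map_one, max_comm, Real.posLog_eq_log_max_one (apply_nonneg _ x)]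
    rfl

theorem lh1_rat (x : ℚ) : Height.logHeight₁ (x : K) =
    (Module.finrank ℚ K : ℝ) * Real.log (max |(x.num : ℝ)| |((x.den : ℤ) : ℝ)|) := by
  rw [lh1, height_rat]

theorem sqf_some {F : Option K → ℤ[X]} (hF : FormOf F) (a : Option K) : Sqf (F a) (dgr a) := by
  cases a with
  | none =>
    rw [hF.none]
    refine ⟨?_, by simp, ?_⟩
    · rw [Polynomial.map_one]
      exact squarefree_one
    · show 1 ≤ (1 : ℤ[X]).natDegree + 1
      omega
  | some r =>
    have h : dgr (some r) = (F (some r)).natDegree := (hF.deg r).symm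
    rw [h]
    exact ⟨(hF.irr r).squarefree, le_rfl, by omega⟩

/-- points of degree at least three, all heights -/
theorem cnt_irr {F : Option K → ℤ[X]} (hF : FormOf F) {a : Option K} (ha : 3 ≤ dgr a) :
    Cnt (fun _ _ => True) (F a) (dgr a) 1 :=
  Cnt.of_all fun _ hδ => tm_count _ _ (sqf_some hF a) ha hδ

/-- points of degree at least two, bounded heights -/
theorem cnt_irr_bdd {F : Option K → ℤ[X]} (hF : FormOf F) {a : Option K} (ha : 2 ≤ dgr a)
    {B κ : ℝ} (hB : 1 ≤ B) (hκ : 0 ≤ κ) : Cnt (Bdd B κ) (F a) (dgr a) 1 := by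
  refine Cnt.of_paired (fun ε hε => ?_) hB hκ
  have e1 : (∏ _j : Fin 1, F a) * ∏ i : Fin 0, (fun _ => (1 : ℤ[X])) i = F a := by simp
  have e2 : ∑ _j : Fin 1, dgr a + 0 = dgr a := by simp
  obtain ⟨C, hC, h⟩ := paired 1 0 (by norm_num) (by norm_num) (fun _ => F a) (fun _ => dgr a)
    (fun _ => hF.natDegree_le a) (fun _ => ha) (fun _ => (1 : ℤ[X])) (fun i => i.elim0)
    (by rw [e1, e2]; exact sqf_some hF a) ε hε
  rw [e1, e2] at h
  have e3 : (2 : ℝ) / (((0 : ℕ) : ℝ) + 2 * ((1 : ℕ) : ℝ)) = 1 := by norm_num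
  rw [e3] at h
  exact ⟨C, hC, h⟩

/-- the coefficients of the form of a rational point -/
theorem lin_coeff {F : Option K → ℤ[X]} (hF : FormOf F) {r : K} (h : dgr (some r) = 1) :
    (F (some r)).coeff 1 ≠ 0 ∧
      ((F (some r)).coeff 1 : K) * r + ((F (some r)).coeff 0 : K) = 0 := by
  have h1 : (F (some r)).natDegree = 1 := (hF.deg r).trans h
  refine ⟨?_, ?_⟩
  · rw [← h1]
    exact leadingCoeff_ne_zero.2 fun h0 => by rw [h0, natDegree_zero] at h1; omega
  · have h2 := hF.root r
    rw [aeval_eq_sum_range, h1, Finset.sum_range_succ, Finset.sum_range_one] at h2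
    simp only [pow_zero, pow_one, zsmul_eq_mul, mul_one] at h2
    linear_combination h2

theorem lin_res' {F : Option K → ℤ[X]} (hF : FormOf F) {a b : Option K} (ha : dgr a = 1)
    (hb : dgr b = 1) (hab : a ≠ b) :
    (F a).coeff 1 * (F b).coeff 0 - (F b).coeff 1 * (F a).coeff 0 ≠ 0 := by
  cases a with
  | none =>
    cases b with
    | none => exact absurd rfl hab
    | some s =>
      obtain ⟨h1, -⟩ := lin_coeff hF hb
      rw [hF.none]
      simpa [coeff_one] using h1
  | some r =>
    obtain ⟨h1, h2⟩ := lin_coeff hF ha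
    cases b with
    | none =>
      rw [hF.none]
      simpa [coeff_one] using h1
    | some s =>
      obtain ⟨h3, h4⟩ := lin_coeff hF hb
      intro h
      apply hab
      have h5 : ((F (some r)).coeff 1 : K) * ((F (some s)).coeff 0 : K) -
          ((F (some s)).coeff 1 : K) * ((F (some r)).coeff 0 : K) = 0 := by exact_mod_cast h
      have h1' : ((F (some r)).coeff 1 : K) ≠ 0 := by exact_mod_cast h1
      have h3' : ((F (some s)).coeff 1 : K) ≠ 0 := by exact_mod_cast h3
      have h6 : ((F (some r)).coeff 1 : K) * ((F (some s)).coeff 1 : K) * (r - s) = 0 := by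
        linear_combination ((F (some s)).coeff 1 : K) * h2 - ((F (some r)).coeff 1 : K) * h4 + h5
      have h7 : r - s = 0 := by
        rcases mul_eq_zero.1 h6 with h8 | h8
        · exact absurd h8 (mul_ne_zero h1' h3')
        · exact h8
      rw [sub_eq_zero.1 h7]

theorem rat_dgr {P : Fin n → K[X]} {a : Option K} (ha : a ∈ rat P) : a ∈ pts P ∧ dgr a = 1 :=
  Finset.mem_filter.1 ha

/-- the rational points, all heights -/
theorem cnt_rat {P : Fin n → K[X]} {F : Option K → ℤ[X]} (hF : FormOf F) (h3 : 3 ≤ (rat P).card) :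
    Cnt (fun _ _ => True) (∏ a ∈ rat P, F a) (∑ a ∈ rat P, dgr a) (2 / ((rat P).card : ℝ)) := by
  classical
  refine Cnt.of_all fun δ hδ => ?_
  have h := lin_count F dgr (rat P) ((rat P).card - 3) (by omega)
    (fun a ha => ⟨by
      have h1 := hF.natDegree_le a
      rw [(rat_dgr ha).2] at h1
      exact h1, (rat_dgr ha).2⟩)
    (fun a ha b hb hab => lin_res' hF (rat_dgr ha).2 (rat_dgr hb).2 hab) hδ
  have e : (((rat P).card - 3 : ℕ) : ℝ) + 3 = ((rat P).card : ℝ) := by
    rw [Nat.cast_sub h3]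
    push_cast
    ring
  rw [e] at h
  exact h

/-- a product of different linear forms has no multiple factors -/
theorem sqf_lin {ι : Type} [DecidableEq ι] (s : Finset ι) (F : ι → ℤ[X])
    (hd : ∀ k ∈ s, (F k).natDegree ≤ 1) (h0 : ∀ k ∈ s, F k ≠ 0)
    (hres : ∀ k ∈ s, ∀ l ∈ s, k ≠ l →
      (F k).coeff 1 * (F l).coeff 0 - (F l).coeff 1 * (F k).coeff 0 ≠ 0) :
    Sqf (∏ k ∈ s, F k) s.card := by
  have hinj : Function.Injective (Int.castRingHom ℚ) := Int.cast_injective
  have hform : ∀ k ∈ s, F k = C ((F k).coeff 1) * X + C ((F k).coeff 0) := fun k hk =>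
    eq_X_add_C_of_natDegree_le_one (hd k hk)
  refine ⟨?_, ?_, ?_⟩
  · rw [Polynomial.map_prod]
    refine Finset.squarefree_prod_of_pairwise_isCoprime ?_ ?_
    · intro k hk l hl hkl
      obtain ⟨R, hR⟩ : ∃ R : ℤ, R = (F k).coeff 1 * (F l).coeff 0 - (F l).coeff 1 * (F k).coeff 0 :=
        ⟨_, rfl⟩
      have hR0 : (R : ℚ) ≠ 0 := by
        rw [hR]
        exact_mod_cast hres k hk l hl hkl
      show IsRelPrime ((F k).map (Int.castRingHom ℚ)) ((F l).map (Int.castRingHom ℚ))
      refine IsCoprime.isRelPrime ?_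
      refine ⟨C (-((F l).coeff 1 : ℚ) / R), C (((F k).coeff 1 : ℚ) / R), ?_⟩
      have e1 : (F k).map (Int.castRingHom ℚ) = C ((F k).coeff 1 : ℚ) * X + C ((F k).coeff 0 : ℚ) := by
        conv_lhs => rw [hform k hk]
        simp
      have e2 : (F l).map (Int.castRingHom ℚ) = C ((F l).coeff 1 : ℚ) * X + C ((F l).coeff 0 : ℚ) := by
        conv_lhs => rw [hform l hl]
        simp
      have hR' : (R : ℚ) = (F k).coeff 1 * (F l).coeff 0 - (F l).coeff 1 * (F k).coeff 0 := by
        rw [hR]
        push_cast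
        ring
      have e3 : C (-((F l).coeff 1 : ℚ) / R) *
          (C ((F k).coeff 1 : ℚ) * X + C ((F k).coeff 0 : ℚ)) + C (((F k).coeff 1 : ℚ) / R) *
          (C ((F l).coeff 1 : ℚ) * X + C ((F l).coeff 0 : ℚ)) =
          C (-((F l).coeff 1 : ℚ) / R * (F k).coeff 1 + ((F k).coeff 1 : ℚ) / R * (F l).coeff 1) * X +
          C (-((F l).coeff 1 : ℚ) / R * (F k).coeff 0 + ((F k).coeff 1 : ℚ) / R * (F l).coeff 0) := by
        simp only [C_add, C_mul]
        ring
      rw [e1, e2, e3]
      have e4 : -((F l).coeff 1 : ℚ) / R * (F k).coeff 1 +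
          ((F k).coeff 1 : ℚ) / R * (F l).coeff 1 = 0 := by ring
      have e5 : -((F l).coeff 1 : ℚ) / R * (F k).coeff 0 +
          ((F k).coeff 1 : ℚ) / R * (F l).coeff 0 = 1 := by
        have : -((F l).coeff 1 : ℚ) / R * (F k).coeff 0 +
          ((F k).coeff 1 : ℚ) / R * (F l).coeff 0 =
          ((F k).coeff 1 * (F l).coeff 0 - (F l).coeff 1 * (F k).coeff 0) / R := by ring
        rw [this, ← hR', div_self hR0]
      rw [e4, e5, C_0, zero_mul, zero_add, C_1]
    · intro k hk
      have h1 : ((F k).map (Int.castRingHom ℚ)).natDegree ≤ 1 :=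
        natDegree_map_le.trans (hd k hk)
      have h2 : (F k).map (Int.castRingHom ℚ) ≠ 0 :=
        (Polynomial.map_ne_zero_iff hinj).2 (h0 k hk)
      rcases Nat.lt_or_ge ((F k).map (Int.castRingHom ℚ)).natDegree 1 with h3 | h3
      · have h4 : ((F k).map (Int.castRingHom ℚ)).natDegree = 0 := by omega
        have h5 : IsUnit ((F k).map (Int.castRingHom ℚ)) := by
          rw [eq_C_of_natDegree_eq_zero h4] at h2 ⊢
          exact isUnit_C.2 (isUnit_iff_ne_zero.2 fun h => h2 (by rw [h, C_0]))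
        exact h5.squarefree
      · have h4 : ((F k).map (Int.castRingHom ℚ)).natDegree = 1 := by omega
        exact (irreducible_of_degree_eq_one (by
          rw [degree_eq_natDegree h2, h4]
          rfl)).squarefree
  · refine (natDegree_prod_le _ _).trans ((Finset.sum_le_sum hd).trans ?_)
    simp
  · have h1 : (∏ k ∈ s, F k).natDegree = ∑ k ∈ s, (F k).natDegree :=
      natDegree_prod _ _ h0
    rw [h1]
    by_cases hall : ∀ k ∈ s, (F k).natDegree = 1
    · rw [Finset.sum_congr rfl hall]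
      simp
    · push Not at hall
      obtain ⟨k0, hk0, hk1⟩ := hall
      have hk2 : (F k0).natDegree = 0 := by
        have := hd k0 hk0
        omega
      have h2 : ∀ l ∈ s.erase k0, (F l).natDegree = 1 := by
        intro l hl
        have hl' := Finset.mem_of_mem_erase hl
        by_contra hl1
        have hl2 : (F l).natDegree = 0 := by
          have := hd l hl'
          omega
        apply hres k0 hk0 l hl' (Finset.ne_of_mem_erase hl).symm
        rw [coeff_eq_zero_of_natDegree_lt (by omega : (F k0).natDegree < 1),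
          coeff_eq_zero_of_natDegree_lt (by omega : (F l).natDegree < 1)]
        ring
      rw [← Finset.add_sum_erase _ _ hk0, hk2, Finset.sum_congr rfl h2]
      simp [Finset.card_erase_of_mem hk0]
      omega

/-- the rational points, bounded heights -/
theorem cnt_rat_bdd {P : Fin n → K[X]} {F : Option K → ℤ[X]} (hF : FormOf F)
    (h2 : 2 ≤ (rat P).card) {B κ : ℝ} (hB : 1 ≤ B) (hκ : 0 ≤ κ) :
    Cnt (Bdd B κ) (∏ a ∈ rat P, F a) (∑ a ∈ rat P, dgr a) (2 / ((rat P).card : ℝ)) := by
  classical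
  refine Cnt.of_paired (fun ε hε => ?_) hB hκ
  obtain ⟨l, hl⟩ : ∃ l : ℕ, l = (rat P).card := ⟨_, rfl⟩
  obtain ⟨e⟩ : Nonempty (Fin l ≃ rat P) := ⟨((rat P).equivFinOfCardEq hl.symm).symm⟩
  have hdeg : ∀ a ∈ rat P, (F a).natDegree ≤ 1 := fun a ha => by
    have h1 := hF.natDegree_le a
    rw [(rat_dgr ha).2] at h1
    exact h1
  have h0 : ∀ a ∈ rat P, F a ≠ 0 := by
    intro a ha
    cases a with
    | none => rw [hF.none]; exact one_ne_zero
    | some r =>
      intro h
      have := (hF.irr r).ne_zero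
      rw [h, Polynomial.map_zero] at this
      exact this rfl
  have hsum : ∑ a ∈ rat P, dgr a = l := by
    rw [Finset.sum_congr rfl fun a ha => (rat_dgr ha).2, hl]
    simp
  have hsq := sqf_lin (rat P) F hdeg h0
    (fun a ha b hb hab => lin_res' hF (rat_dgr ha).2 (rat_dgr hb).2 hab)
  have e1 : (∏ _j : Fin 0, (1 : ℤ[X])) * ∏ i : Fin l, F (e i) = ∏ a ∈ rat P, F a := by
    rw [Fintype.prod_empty, one_mul, ← Finset.prod_coe_sort (rat P), ← Equiv.prod_comp e]
  have e2 : ∑ _j : Fin 0, 0 + l = l := by simp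
  obtain ⟨C, hC, h⟩ := paired 0 l (by omega) (by omega) (fun _ => (1 : ℤ[X])) (fun _ => 0)
    (fun i => i.elim0) (fun i => i.elim0) (fun i => F (e i)) (fun i => hdeg _ (e i).2)
    (by rw [e1, e2, hl]; exact hsq) ε hε
  rw [e1, e2] at h
  have e3 : (2 : ℝ) / ((l : ℝ) + 2 * ((0 : ℕ) : ℝ)) = 2 / ((rat P).card : ℝ) := by
    rw [hl]
    norm_num
  rw [e3] at h
  rw [hsum]
  exact ⟨C, hC, h⟩

end Pool.Agent.Q10.KY
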