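import Pool.Agent.Q10.KY6

/-!
The number of rational parameters with a small radical: the final bounds
-/

set_option autoImplicit false

namespace Pool.Agent.Q10.KY

open NumberField IsDedekindDomain Finset Polynomial
open Pool.Agent.TH498.HF Pool.Agent.TH498.KB
open Pool.Agent.W4.CF Pool.Agent.W4.VC Pool.Agent.H691R3 Pool.Agent.Q10.KT Pool.Agent.Q10.KV

variable {K : Type} [Field K] [NumberField K] {n : ℕ}

omit [NumberField K] in
theorem hc_of {P : Fin n → K[X]} (hu : ∃ u : Fin n → K[X], ∑ i, u i * P i = 1) (r : K) :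
    ∃ i, (P i).eval r ≠ 0 := by
  obtain ⟨u, hu⟩ := hu
  by_contra hcon
  push Not at hcon
  have h1 := congrArg (Polynomial.eval r) hu
  rw [eval_finsetSum, eval_one] at h1
  simp [hcon] at h1

omit [NumberField K] in
theorem cast_eq (x : ℚ) : (x : K) = ((x.num : ℤ) : K) / (((x.den : ℤ)) : K) := by
  push_cast
  exact (Rat.cast_def x)

theorem num_cop (x : ℚ) : IsCoprime x.num (x.den : ℤ) := by
  rw [Int.isCoprime_iff_gcd_eq_one]
  exact x.reduced

open Classical in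
/-- the sum for bounded heights -/
noncomputable def S1 (P : Fin n → K[X]) : ℝ :=
  ∑ a ∈ (pts P).filter (fun a => 2 ≤ dgr a), 1 / (dgr a : ℝ) +
    if 2 ≤ (rat P).card then ((rat P).card : ℝ) / 2 else 0

open Classical in
/-- the sum for all heights -/
noncomputable def S2 (P : Fin n → K[X]) : ℝ :=
  ∑ a ∈ (pts P).filter (fun a => 3 ≤ dgr a), 1 / (dgr a : ℝ) +
    if 3 ≤ (rat P).card then ((rat P).card : ℝ) / 2 else 0

theorem max_pos' (x : ℚ) : 0 < max |(x.num : ℝ)| |((x.den : ℤ) : ℝ)| := by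
  refine lt_of_lt_of_le ?_ (le_max_right _ _)
  have : ((x.den : ℤ) : ℝ) ≠ 0 := by exact_mod_cast x.den_nz
  positivity

/-- **Bounded heights.** -/
theorem bdd_upper {P : Fin n → K[X]} (hP : ∀ i, P i ≠ 0) (hs : ∀ i, (P i).Splits)
    (hu : ∃ u : Fin n → K[X], ∑ i, u i * P i = 1) {D : ℕ} (hD0 : 1 ≤ D)
    (hD : ∀ i, (P i).natDegree ≤ D) (hD' : ∃ i, (P i).natDegree = D) (hS0 : 0 < S1 P)
    (κ ε : ℝ) (hκ : 0 ≤ κ) (hε : 0 < ε) :
    ∃ C : ℝ, 0 < C ∧ ∀ X : ℝ, 1 ≤ X → ∀ T : Finset ℚ,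
      (∀ x ∈ T, (∀ i, (P i).eval (x : K) ≠ 0) ∧
        rdK P (x : K) ≤ (Module.finrank ℚ K : ℝ) * Real.log X ∧
        Height.logHeight (fun i => (P i).eval (x : K)) ≤
          (Module.finrank ℚ K : ℝ) * (κ * Real.log X)) →
      (T.card : ℝ) ≤ C * X ^ (1 / S1 P + ε) := by
  classical
  obtain ⟨F, hF⟩ := exists_forms K
  have hn0 : (0 : ℝ) < Module.finrank ℚ K := Pool.Agent.Q10.KV.deg_pos
  have hDr : (1 : ℝ) ≤ D := by exact_mod_cast hD0
  obtain ⟨i0, hi0⟩ := hD'
  obtain ⟨C1, hC1⟩ := Pool.Agent.Y557.NF.le_curve_height P hu hD ⟨i0, hi0, hP i0⟩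
  obtain ⟨B, hB⟩ : ∃ B : ℝ, B = Real.exp (|C1| / (Module.finrank ℚ K : ℝ)) := ⟨_, rfl⟩
  have hB1 : 1 ≤ B := by rw [hB]; exact Real.one_le_exp (by positivity)
  obtain ⟨C, hC, hmain⟩ := master hP hs (hc_of hu) hF (Bdd B κ)
    ((pts P).filter (fun a => 2 ≤ dgr a)) (Finset.filter_subset _ _)
    (fun a ha => by
      have := (Finset.mem_filter.1 ha).2
      omega)
    (2 ≤ (rat P).card) (fun h => by omega)
    (fun a ha => cnt_irr_bdd hF (Finset.mem_filter.1 ha).2 hB1 hκ)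
    (fun h => cnt_rat_bdd hF h hB1 hκ) (S1 P) rfl hS0 ε hε
  refine ⟨C, hC, fun X hX T hT => ?_⟩
  have hX0 : 0 < X := by linarith
  have hlX : 0 ≤ Real.log X := Real.log_nonneg hX
  have h1 := hmain X hX (T.image fun x : ℚ => ((x.num, (x.den : ℤ)) : ℤ × ℤ)) (by
    intro p hp
    obtain ⟨x, hx, rfl⟩ := Finset.mem_image.mp hp
    obtain ⟨t1, t2, t3⟩ := hT x hx
    rw [cast_eq x] at t1 t2
    refine ⟨num_cop x, (by exact_mod_cast x.den_nz : (x.den : ℤ) ≠ 0), ?_, t1, t2⟩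
    have h2 := hC1 (x : K)
    rw [lh1_rat] at h2
    obtain ⟨m, hm⟩ : ∃ m : ℝ, m = max |(x.num : ℝ)| |((x.den : ℤ) : ℝ)| := ⟨_, rfl⟩
    have hm0 : 0 < m := by rw [hm]; exact max_pos' x
    rw [← hm] at h2
    have hm1 : 1 ≤ m := by
      rw [hm]
      refine le_trans ?_ (le_max_right _ _)
      have : (1 : ℤ) ≤ |(x.den : ℤ)| := Int.one_le_abs (by exact_mod_cast x.den_nz)
      exact_mod_cast this
    have hlm : 0 ≤ Real.log m := Real.log_nonneg hm1
    have h3 : Real.log m ≤ |C1| / (Module.finrank ℚ K : ℝ) + κ * Real.log X := by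
      have h4 : (Module.finrank ℚ K : ℝ) * Real.log m ≤
          |C1| + (Module.finrank ℚ K : ℝ) * (κ * Real.log X) := by
        have h5 : (1 : ℝ) * ((Module.finrank ℚ K : ℝ) * Real.log m) ≤
            D * ((Module.finrank ℚ K : ℝ) * Real.log m) :=
          mul_le_mul_of_nonneg_right hDr (by positivity)
        have := neg_abs_le C1
        linarith
      have h6 : Real.log m ≤ (|C1| + (Module.finrank ℚ K : ℝ) * (κ * Real.log X)) /
          (Module.finrank ℚ K : ℝ) := by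
        rw [le_div_iff₀ hn0]
        linarith
      refine h6.trans (le_of_eq ?_)
      field_simp
    have h7 : m ≤ B * X ^ κ := by
      have h8 := Real.exp_le_exp.2 h3
      rw [Real.exp_log hm0, Real.exp_add] at h8
      rw [hB, Real.rpow_def_of_pos hX0, mul_comm (Real.log X)]
      exact h8
    rw [hm] at h7
    exact ⟨(le_max_left _ _).trans h7, (le_max_right _ _).trans h7⟩)
  rw [Finset.card_image_of_injective _ num_inj] at h1
  exact h1

/-- **All heights.** -/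
theorem all_upper {P : Fin n → K[X]} (hP : ∀ i, P i ≠ 0) (hs : ∀ i, (P i).Splits)
    (hu : ∃ u : Fin n → K[X], ∑ i, u i * P i = 1) (hS0 : 0 < S2 P) (ε : ℝ) (hε : 0 < ε) :
    ∃ C : ℝ, 0 < C ∧ ∀ X : ℝ, 1 ≤ X → ∀ T : Finset ℚ,
      (∀ x ∈ T, (∀ i, (P i).eval (x : K) ≠ 0) ∧
        rdK P (x : K) ≤ (Module.finrank ℚ K : ℝ) * Real.log X) →
      (T.card : ℝ) ≤ C * X ^ (1 / S2 P + ε) := by
  classical
  obtain ⟨F, hF⟩ := exists_forms K
  obtain ⟨C, hC, hmain⟩ := master hP hs (hc_of hu) hF (fun _ _ => True)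
    ((pts P).filter (fun a => 3 ≤ dgr a)) (Finset.filter_subset _ _)
    (fun a ha => by
      have := (Finset.mem_filter.1 ha).2
      omega)
    (3 ≤ (rat P).card) (fun h => by omega)
    (fun a ha => cnt_irr hF (Finset.mem_filter.1 ha).2)
    (fun h => cnt_rat hF h) (S2 P) rfl hS0 ε hε
  refine ⟨C, hC, fun X hX T hT => ?_⟩
  have h1 := hmain X hX (T.image fun x : ℚ => ((x.num, (x.den : ℤ)) : ℤ × ℤ)) (by
    intro p hp
    obtain ⟨x, hx, rfl⟩ := Finset.mem_image.mp hp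
    obtain ⟨t1, t2⟩ := hT x hx
    rw [cast_eq x] at t1 t2
    exact ⟨num_cop x, (by exact_mod_cast x.den_nz : (x.den : ℤ) ≠ 0), trivial, t1, t2⟩)
  rw [Finset.card_image_of_injective _ num_inj] at h1
  exact h1

/-- coordinates of the points of the line -/
def cdp : Option K → K × K
  | some r => (r, 1)
  | none => (1, 0)

omit [NumberField K] in
theorem cdp_ne (a : Option K) : cdp a ≠ 0 := by
  cases a with
  | none => intro h; exact one_ne_zero (congrArg Prod.fst h)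
  | some r => intro h; exact one_ne_zero (congrArg Prod.snd h)

theorem lam_of_near {w : HeightOneSpectrum (𝓞 K)} {t : K} {a : Option K} (h : Near w t a)
    (hne : t * (cdp a).2 - 1 * (cdp a).1 ≠ 0) : lamA (fv w) (t, 1) (cdp a) ≠ 0 := by
  have key : 0 < lamA (fv w) (t, 1) (cdp a) := by
    unfold lamA
    refine Real.log_pos ?_
    have hpos := (fv w).pos hne
    rw [one_lt_div hpos]
    cases a with
    | none =>
      have h' : 1 < fv w t := h
      show fv w (t * 0 - 1 * 1) < max (fv w t) (fv w 1) * max (fv w 1) (fv w 0)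
      rw [mul_zero, mul_one, zero_sub, (fv w).map_neg, map_one, map_zero,
        max_eq_left zero_le_one, mul_one]
      exact lt_max_of_lt_left h'
    | some r =>
      have h' : fv w (t - r) < 1 := h
      show fv w (t * 1 - 1 * r) < max (fv w t) (fv w 1) * max (fv w r) (fv w 1)
      rw [mul_one, one_mul, map_one]
      refine lt_of_lt_of_le h' ?_
      nlinarith [le_max_right (fv w t) (1 : ℝ), le_max_right (fv w r) (1 : ℝ)]
  exact key.ne'

/-- the radical is at most the truncated counting function -/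
theorem rdK_le {P : Fin n → K[X]} (hP : ∀ i, P i ≠ 0) (hs : ∀ i, (P i).Splits)
    (hc : ∀ r : K, ∃ i, (P i).eval r ≠ 0) {q : ℕ} (α : Fin q → K × K)
    (hα : ∀ a ∈ pts P, ∃ l, α l = cdp a) (hα0 : ∀ l, α l ≠ 0) :
    ∃ c : ℝ, 0 ≤ c ∧ ∀ t : K, (∀ i, (P i).eval t ≠ 0) →
      (∀ l, t * (α l).2 - 1 * (α l).1 ≠ 0) →
      rdK P t ≤ (Module.finrank ℚ K : ℝ) * countingK ∅ α t + c := by
  classical
  obtain ⟨W, hW⟩ : ∃ W : Finset (HeightOneSpectrum (𝓞 K)), W = (goodC_finite hP).toFinset :=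
    ⟨_, rfl⟩
  have hn0 : (0 : ℝ) < Module.finrank ℚ K := Pool.Agent.Q10.KV.deg_pos
  refine ⟨∑ w ∈ W, Real.log (Nv w), Finset.sum_nonneg fun w _ => (log_Nv_pos w).le,
    fun t ht hz => ?_⟩
  have hfin := supp_fin P t ht
  unfold rdK
  rw [finsum_mem_eq_finite_toFinset_sum _ hfin,
    ← Finset.sum_filter_add_sum_filter_not hfin.toFinset (fun w => w ∈ W), add_comm]
  refine add_le_add ?_ ?_
  · -- good primes
    rw [Pool.Agent.W462.QD.count_eq]
    have e : (Set.indicator (∅ : Set (HeightOneSpectrum (𝓞 K)))ᶜ (Pool.Agent.W462.QD.gt α t)) =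
        Pool.Agent.W462.QD.gt α t := by
      rw [Set.compl_empty, Set.indicator_univ]
    rw [e]
    have hgf := Pool.Agent.W462.QD.gt_fin hα0 hz
    obtain ⟨Gd, hGd⟩ : ∃ Gd : Finset (HeightOneSpectrum (𝓞 K)),
      Gd = hfin.toFinset.filter (fun w => ¬ w ∈ W) := ⟨_, rfl⟩
    rw [← hGd]
    have h1 : ∀ w ∈ Gd, Real.log (Nv w) ≤ (Module.finrank ℚ K : ℝ) *
        Pool.Agent.W462.QD.gt α t w := by
      intro w hw
      rw [hGd] at hw
      obtain ⟨h2, h3⟩ := Finset.mem_filter.1 hw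
      rw [Set.Finite.mem_toFinset] at h2
      have hgood : GoodC w P := by
        by_contra hcon
        apply h3
        rw [hW, Set.Finite.mem_toFinset]
        exact hcon
      obtain ⟨a, ha, hnear⟩ := (supp_iff hP hs hc hgood).1 h2
      obtain ⟨l, hl⟩ := hα a ha
      have h4 := lam_of_near hnear (by rw [← hl]; exact hz l)
      rw [← hl] at h4
      have h5 := Pool.Agent.W462.QD.gt_ge hα0 hz w l h4
      rw [div_le_iff₀ hn0] at h5
      linarith
    have h2 : ∑ᶠ w, Pool.Agent.W462.QD.gt α t w =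
        ∑ w ∈ hgf.toFinset ∪ Gd, Pool.Agent.W462.QD.gt α t w := by
      refine finsum_eq_sum_of_support_subset _ ?_
      intro w hw
      rw [Finset.coe_union, Set.Finite.coe_toFinset]
      exact Or.inl hw
    rw [h2, Finset.mul_sum]
    refine (Finset.sum_le_sum h1).trans ?_
    refine Finset.sum_le_sum_of_subset_of_nonneg Finset.subset_union_right fun w _ _ => ?_
    exact mul_nonneg hn0.le (Pool.Agent.W462.QD.gt_nonneg hα0 hz w)
  · refine Finset.sum_le_sum_of_subset_of_nonneg ?_ fun w _ _ => (log_Nv_pos w).le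
    intro w hw
    exact (Finset.mem_filter.1 hw).2

/-- **The lower bound.** -/
theorem lower {P : Fin n → K[X]} (hP : ∀ i, P i ≠ 0) (hs : ∀ i, (P i).Splits)
    (hu : ∃ u : Fin n → K[X], ∑ i, u i * P i = 1) {D : ℕ} (hD0 : 1 ≤ D)
    (hD : ∀ i, (P i).natDegree ≤ D) {q : ℕ} (hq : (pts P).card = q) (hq1 : 1 ≤ q) :
    ∃ c : ℝ, 0 < c ∧ ∃ X₀ : ℝ, 1 ≤ X₀ ∧ ∀ X : ℝ, X₀ ≤ X → ∀ S : Set ℚ, S.Finite →
      (∀ x : ℚ, (∀ i, (P i).eval (x : K) ≠ 0) →
        rdK P (x : K) ≤ (Module.finrank ℚ K : ℝ) * Real.log X →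
        Height.logHeight (fun i => (P i).eval (x : K)) ≤
          (Module.finrank ℚ K : ℝ) * ((D : ℝ) / q * Real.log X) → x ∈ S) →
      c * X ^ (2 / (q : ℝ)) ≤ S.ncard := by
  classical
  have hn0 : (0 : ℝ) < Module.finrank ℚ K := Pool.Agent.Q10.KV.deg_pos
  have hq0 : (0 : ℝ) < q := by exact_mod_cast hq1
  have hDr : (1 : ℝ) ≤ D := by exact_mod_cast hD0
  obtain ⟨α, hα⟩ : ∃ α : Fin q → K × K,
    α = fun l => cdp (((pts P).equivFinOfCardEq hq).symm l).1 := ⟨_, rfl⟩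
  have hα0 : ∀ l, α l ≠ 0 := fun l => by rw [hα]; exact cdp_ne _
  have hα1 : ∀ a ∈ pts P, ∃ l, α l = cdp a := by
    intro a ha
    refine ⟨(pts P).equivFinOfCardEq hq ⟨a, ha⟩, ?_⟩
    rw [hα]
    show cdp (((pts P).equivFinOfCardEq hq).symm ((pts P).equivFinOfCardEq hq ⟨a, ha⟩)).1 = _
    rw [Equiv.symm_apply_apply]
  obtain ⟨c1, hc1, hrd⟩ := rdK_le hP hs (hc_of hu) α hα1 hα0
  obtain ⟨C2, hC2⟩ := Pool.Agent.Y557.NF.curve_height_le P hD
  obtain ⟨c, hc, X0, hX0, hmany⟩ := many ∅ hq1 α hα0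
  obtain ⟨b, hb⟩ : ∃ b : ℝ, b = c1 / (Module.finrank ℚ K : ℝ) +
    |C2| * q / ((Module.finrank ℚ K : ℝ) * D) := ⟨_, rfl⟩
  have hb0 : 0 ≤ b := by rw [hb]; positivity
  refine ⟨c * Real.exp (-b) ^ (2 / (q : ℝ)), by positivity, X0 * Real.exp b, ?_, ?_⟩
  · exact one_le_mul_of_one_le_of_one_le hX0 (Real.one_le_exp hb0)
  intro X hX S hS hmem
  have hXp : 0 < X := lt_of_lt_of_le (by positivity) hX
  obtain ⟨Y, hY⟩ : ∃ Y : ℝ, Y = X * Real.exp (-b) := ⟨_, rfl⟩
  have hYX : X0 ≤ Y := by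
    have h2 := mul_le_mul_of_nonneg_right hX (Real.exp_pos (-b)).le
    rw [mul_assoc, ← Real.exp_add, add_neg_cancel, Real.exp_zero, mul_one] at h2
    rw [hY]
    exact h2
  have hlY : Real.log Y = Real.log X - b := by
    rw [hY, Real.log_mul hXp.ne' (Real.exp_pos _).ne', Real.log_exp]
    ring
  have h1 := hmany Y hYX S hS (by
    rintro x ⟨hx1, hx2⟩ hx3
    have hne : ∀ i, (P i).eval (x : K) ≠ 0 := by
      intro i hi
      have hr : some (x : K) ∈ pts P := mem_pts_some.2 ((mem_rts hP).2 ⟨i, hi⟩)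
      obtain ⟨l, hl⟩ := hα1 _ hr
      apply hx1 l
      rw [hl]
      show (x : K) * 1 - 1 * (x : K) = 0
      ring
    refine hmem x hne ?_ ?_
    · have h2 := hrd (x : K) hne hx1
      have h3 := mul_le_mul_of_nonneg_left hx2 hn0.le
      have h4 : c1 ≤ (Module.finrank ℚ K : ℝ) * b := by
        rw [hb, mul_add, mul_div_cancel₀ _ hn0.ne']
        have : 0 ≤ (Module.finrank ℚ K : ℝ) * (|C2| * q / ((Module.finrank ℚ K : ℝ) * D)) := by
          positivity
        linarith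
      rw [hlY] at h3
      linarith
    · have h2 := hC2 (x : K)
      rw [lh1] at h2
      have h3 : (D : ℝ) * ((Module.finrank ℚ K : ℝ) * heightK (x : K)) ≤
          D * ((Module.finrank ℚ K : ℝ) * (Real.log Y / q)) :=
        mul_le_mul_of_nonneg_left (mul_le_mul_of_nonneg_left hx3 hn0.le) (by linarith)
      have h4 : |C2| ≤ D * ((Module.finrank ℚ K : ℝ) * (b / q)) := by
        have h5 : D * ((Module.finrank ℚ K : ℝ) * (b / q)) =
            D * c1 / q + |C2| := by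
          rw [hb]
          field_simp
        rw [h5]
        have : 0 ≤ D * c1 / (q : ℝ) := by positivity
        linarith
      have h6 : D * ((Module.finrank ℚ K : ℝ) * (Real.log Y / q)) =
          (Module.finrank ℚ K : ℝ) * ((D : ℝ) / q * Real.log X) -
            D * ((Module.finrank ℚ K : ℝ) * (b / q)) := by
        rw [hlY]
        ring
      have := le_abs_self C2
      linarith)
  refine le_trans (le_of_eq ?_) h1
  rw [hY, Real.mul_rpow hXp.le (Real.exp_pos _).le]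
  ring

end Pool.Agent.Q10.KY
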