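import Pool.Agent.Q10.KY7

/-!
Rational parameters on split curves: the packaged bounds
-/

set_option autoImplicit false

namespace Pool.Agent.Q10.KY

open NumberField IsDedekindDomain Finset Polynomial

variable {K : Type} [Field K] [NumberField K] {n : ℕ} {P : Fin n → K[X]}

omit [NumberField K] in
/-- there are at least two zeros -/
theorem two_le_pts (hP : ∀ i, P i ≠ 0) (hs : ∀ i, (P i).Splits)
    (hu : ∃ u : Fin n → K[X], ∑ i, u i * P i = 1) {D : ℕ} (hD : 1 ≤ D)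
    (hdeg' : ∃ i, (P i).natDegree = D) : 2 ≤ (pts P).card := by
  classical
  obtain ⟨i, hi⟩ := hdeg'
  obtain ⟨r, hr⟩ := (hs i).exists_eval_eq_zero (by
    rw [degree_eq_natDegree (hP i), hi]
    exact_mod_cast (by omega : D ≠ 0))
  obtain ⟨j, hj⟩ := hc_of hu r
  have ha : some r ∈ pts P := mem_pts_some.2 ((mem_rts hP).2 ⟨i, hr⟩)
  obtain ⟨b, hb, hb'⟩ : ∃ b ∈ pts P, some r ≠ b := by
    rcases Nat.eq_zero_or_pos (P j).natDegree with h | h
    · exact ⟨none, mem_pts_none.2 ⟨j, i, by omega⟩, Option.some_ne_none r⟩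
    · obtain ⟨s, hs'⟩ := (hs j).exists_eval_eq_zero (by
        rw [degree_eq_natDegree (hP j)]
        exact_mod_cast h.ne')
      refine ⟨some s, mem_pts_some.2 ((mem_rts hP).2 ⟨j, hs'⟩), ?_⟩
      intro h'
      rw [Option.some.injEq] at h'
      exact hj (by rw [h']; exact hs')
  have h1 : ({some r, b} : Finset (Option K)).card ≤ (pts P).card := by
    refine Finset.card_le_card ?_
    intro c hc
    rw [Finset.mem_insert, Finset.mem_singleton] at hc
    rcases hc with rfl | rfl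
    · exact ha
    · exact hb
  rwa [Finset.card_pair hb'] at h1

theorem S1_pos (h2 : 2 ≤ (pts P).card) : 0 < S1 P := by
  classical
  unfold S1
  by_cases h : 2 ≤ (rat P).card
  · rw [if_pos h]
    have h1 : (0 : ℝ) < ((rat P).card : ℝ) / 2 := by
      have : (2 : ℝ) ≤ (rat P).card := by exact_mod_cast h
      linarith
    have h3 : 0 ≤ ∑ a ∈ (pts P).filter (fun a => 2 ≤ dgr a), 1 / (dgr a : ℝ) :=
      Finset.sum_nonneg fun a _ => by positivity
    linarith
  · rw [if_neg h, add_zero]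
    have hne : ((pts P).filter (fun a => 2 ≤ dgr a)).Nonempty := by
      by_contra hcon
      rw [Finset.not_nonempty_iff_eq_empty, Finset.filter_eq_empty_iff] at hcon
      apply h
      have e : rat P = pts P := by
        unfold rat
        rw [Finset.filter_eq_self]
        intro a ha
        have h3 := hcon ha
        have h4 := dgr_pos a
        omega
      rw [e]
      exact h2
    refine Finset.sum_pos (fun a _ => ?_) hne
    have : (0 : ℝ) < dgr a := by exact_mod_cast dgr_pos a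
    positivity

/-- if all zeros have degree at most two -/
theorem S1_two (hd : ∀ a ∈ pts P, dgr a ≤ 2) (h1 : (rat P).card ≠ 1) :
    S1 P = ((pts P).card : ℝ) / 2 := by
  classical
  have hcard := Finset.card_filter_add_card_filter_not (s := pts P) (fun a => dgr a = 1)
  have e1 : (pts P).filter (fun a => ¬ dgr a = 1) = (pts P).filter (fun a => 2 ≤ dgr a) := by
    refine Finset.filter_congr fun a _ => ?_
    have := dgr_pos a
    omega
  rw [e1] at hcard
  have e2 : ((pts P).filter (fun a => dgr a = 1)).card = (rat P).card := by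
    unfold rat
    congr
  rw [e2] at hcard
  have e3 : ∑ a ∈ (pts P).filter (fun a => 2 ≤ dgr a), 1 / (dgr a : ℝ) =
      (((pts P).filter (fun a => 2 ≤ dgr a)).card : ℝ) / 2 := by
    rw [Finset.sum_congr rfl (g := fun _ => (1 : ℝ) / 2)]
    · rw [Finset.sum_const, nsmul_eq_mul]
      ring
    · intro a ha
      have h3 := (Finset.mem_filter.1 ha).2
      have h4 : dgr a = 2 := le_antisymm (hd a (Finset.mem_filter.1 ha).1) h3
      rw [h4]
      norm_num
  have e4 : (if 2 ≤ (rat P).card then ((rat P).card : ℝ) / 2 else 0) = ((rat P).card : ℝ) / 2 := by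
    split_ifs with h
    · rfl
    · have : (rat P).card = 0 := by omega
      rw [this]
      norm_num
  unfold S1
  rw [e3, e4, ← hcard]
  push_cast
  ring

/-- the rational parameters with a small radical -/
def Par (P : Fin n → K[X]) (X : ℝ) : Set ℚ :=
  {x : ℚ | (∀ i, (P i).eval (x : K) ≠ 0) ∧
    rdK P (x : K) ≤ (Module.finrank ℚ K : ℝ) * Real.log X}

/-- those of bounded height -/
def ParT (P : Fin n → K[X]) (X t : ℝ) : Set ℚ :=
  {x : ℚ | x ∈ Par P X ∧ Height.logHeight (fun i => (P i).eval (x : K)) ≤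
    (Module.finrank ℚ K : ℝ) * t}

/-- **The packaged theorem.** -/
theorem package (hP : ∀ i, P i ≠ 0) (hs : ∀ i, (P i).Splits)
    (hu : ∃ u : Fin n → K[X], ∑ i, u i * P i = 1) {D : ℕ} (hD : 1 ≤ D)
    (hdeg : ∀ i, (P i).natDegree ≤ D) (hdeg' : ∃ i, (P i).natDegree = D)
    {q : ℕ} (hq : (pts P).card = q) :
    (∀ κ ε : ℝ, 0 < κ → 0 < ε → ∃ C : ℝ, 0 < C ∧ ∀ X : ℝ, 1 ≤ X →
      (ParT P X (κ * Real.log X)).Finite ∧
      ((ParT P X (κ * Real.log X)).ncard : ℝ) ≤ C * X ^ (1 / S1 P + ε)) ∧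
    (0 < S2 P → ∀ ε : ℝ, 0 < ε → ∃ C : ℝ, 0 < C ∧ ∀ X : ℝ, 1 ≤ X →
      (Par P X).Finite ∧ ((Par P X).ncard : ℝ) ≤ C * X ^ (1 / S2 P + ε)) ∧
    (∃ c : ℝ, 0 < c ∧ ∃ X₀ : ℝ, 1 ≤ X₀ ∧ ∀ X : ℝ, X₀ ≤ X → ∀ κ : ℝ, (D : ℝ) / q ≤ κ →
      c * X ^ (2 / (q : ℝ)) ≤ ((ParT P X (κ * Real.log X)).ncard : ℝ)) ∧
    ((∀ a ∈ pts P, dgr a ≤ 2) → (rat P).card ≠ 1 → ∀ κ : ℝ, (D : ℝ) / q ≤ κ →
      ∀ δ : ℝ, 0 < δ → ∃ X₀ : ℝ, 1 ≤ X₀ ∧ ∀ X : ℝ, X₀ ≤ X →
        X ^ (2 / (q : ℝ) - δ) ≤ ((ParT P X (κ * Real.log X)).ncard : ℝ) ∧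
        ((ParT P X (κ * Real.log X)).ncard : ℝ) ≤ X ^ (2 / (q : ℝ) + δ)) := by
  classical
  have h2 : 2 ≤ (pts P).card := two_le_pts hP hs hu hD hdeg'
  have hS1 := S1_pos h2
  have hq0 : (0 : ℝ) < q := by
    rw [← hq]
    exact_mod_cast (by omega : 0 < (pts P).card)
  have hD0 : (0 : ℝ) < D := by exact_mod_cast hD
  have hUp : ∀ κ ε : ℝ, 0 < κ → 0 < ε → ∃ C : ℝ, 0 < C ∧ ∀ X : ℝ, 1 ≤ X →
      (ParT P X (κ * Real.log X)).Finite ∧
      ((ParT P X (κ * Real.log X)).ncard : ℝ) ≤ C * X ^ (1 / S1 P + ε) := by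
    intro κ ε hκ hε
    obtain ⟨C, hC, h⟩ := bdd_upper hP hs hu hD hdeg hdeg' hS1 κ ε hκ.le hε
    refine ⟨C, hC, fun X hX => Pool.Agent.Q10.KV.fin_of_cards _ _ fun s hs' => ?_⟩
    refine h X hX s fun x hx => ?_
    obtain ⟨⟨g1, g2⟩, g3⟩ := hs' hx
    exact ⟨g1, g2, g3⟩
  obtain ⟨c, hc, X0, hX0, hlow⟩ := lower hP hs hu hD hdeg hq (by omega)
  have hn0 : (0 : ℝ) < Module.finrank ℚ K := Pool.Agent.Q10.KV.deg_pos
  have hLow : ∀ X : ℝ, X0 ≤ X → ∀ κ : ℝ, (D : ℝ) / q ≤ κ →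
      c * X ^ (2 / (q : ℝ)) ≤ ((ParT P X (κ * Real.log X)).ncard : ℝ) := by
    intro X hX κ hκ
    have hX1 : 1 ≤ X := hX0.trans hX
    have hκ0 : 0 < κ := lt_of_lt_of_le (by positivity) hκ
    obtain ⟨C, -, hfin⟩ := hUp κ 1 hκ0 one_pos
    refine hlow X hX _ (hfin X hX1).1 fun x g1 g2 g3 => ?_
    refine ⟨⟨g1, g2⟩, g3.trans ?_⟩
    exact mul_le_mul_of_nonneg_left (mul_le_mul_of_nonneg_right hκ (Real.log_nonneg hX1)) hn0.le
  refine ⟨hUp, ?_, ⟨c, hc, X0, hX0, hLow⟩, ?_⟩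
  · intro hS2 ε hε
    obtain ⟨C, hC, h⟩ := all_upper hP hs hu hS2 ε hε
    refine ⟨C, hC, fun X hX => Pool.Agent.Q10.KV.fin_of_cards _ _ fun s hs' => ?_⟩
    refine h X hX s fun x hx => ?_
    obtain ⟨g1, g2⟩ := hs' hx
    exact ⟨g1, g2⟩
  · intro hd h1 κ hκ δ hδ
    have hκ0 : 0 < κ := lt_of_lt_of_le (by positivity) hκ
    obtain ⟨C, hC, hfin⟩ := hUp κ (δ / 2) hκ0 (by positivity)
    have hS : 1 / S1 P = 2 / (q : ℝ) := by
      rw [S1_two hd h1, hq]
      field_simp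
    rw [hS] at hfin
    refine ⟨max X0 (max (C ^ (2 / δ)) ((1 / c) ^ (1 / δ))), hX0.trans (le_max_left _ _),
      fun X hX => ?_⟩
    have hXa : X0 ≤ X := (le_max_left _ _).trans hX
    have hXb : C ^ (2 / δ) ≤ X := (le_max_left _ _).trans ((le_max_right _ _).trans hX)
    have hXc : (1 / c) ^ (1 / δ) ≤ X := (le_max_right _ _).trans ((le_max_right _ _).trans hX)
    have hX1 : 1 ≤ X := hX0.trans hXa
    have hXp : 0 < X := by linarith
    constructor
    · refine le_trans ?_ (hLow X hXa κ hκ)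
      have h3 : 1 / c ≤ X ^ δ := by
        have h4 := Real.rpow_le_rpow (by positivity) hXc hδ.le
        rw [← Real.rpow_mul (by positivity), one_div_mul_cancel hδ.ne', Real.rpow_one] at h4
        exact h4
      rw [Real.rpow_sub hXp, div_le_iff₀ (by positivity)]
      have h5 : 1 ≤ c * X ^ δ := by
        rw [div_le_iff₀ hc] at h3
        linarith
      have h6 : 0 < X ^ (2 / (q : ℝ)) := by positivity
      nlinarith
    · refine (hfin X hX1).2.trans ?_
      have h3 : C ≤ X ^ (δ / 2) := by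
        have h4 := Real.rpow_le_rpow (by positivity) hXb (by positivity : 0 ≤ δ / 2)
        rw [← Real.rpow_mul hC.le, div_mul_div_comm, mul_comm δ 2, div_self (by positivity),
          Real.rpow_one] at h4
        exact h4
      calc C * X ^ (2 / (q : ℝ) + δ / 2) ≤ X ^ (δ / 2) * X ^ (2 / (q : ℝ) + δ / 2) :=
            mul_le_mul_of_nonneg_right h3 (by positivity)
        _ = X ^ (2 / (q : ℝ) + δ) := by
            rw [← Real.rpow_add hXp]
            congr 1
            ring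

end Pool.Agent.Q10.KY
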