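import Pool.Agent.Q10.KY8

/-!
Rational parameters on split curves: the packaged bounds for a function which differs from the height
and the radical by a bounded function
-/

set_option autoImplicit false

namespace Pool.Agent.Q10.KY

open NumberField IsDedekindDomain Finset Polynomial

variable {K : Type} [Field K] [NumberField K] {n : ℕ} {P : Fin n → K[X]}

/-- the rational parameters with a small value of the function `r` -/
def ParG (P : Fin n → K[X]) (r : ℚ → ℝ) (X : ℝ) : Set ℚ :=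
  {x : ℚ | (∀ i, (P i).eval (x : K) ≠ 0) ∧ r x ≤ Real.log X}

/-- those for which the function `h` is at most `t` -/
def ParH (P : Fin n → K[X]) (r h : ℚ → ℝ) (X t : ℝ) : Set ℚ :=
  {x : ℚ | x ∈ ParG P r X ∧ h x ≤ t}

/-- **The packaged theorem, with bounded changes of the height and of the radical.** -/
theorem package_shift (hP : ∀ i, P i ≠ 0) (hs : ∀ i, (P i).Splits)
    (hu : ∃ u : Fin n → K[X], ∑ i, u i * P i = 1) {D : ℕ} (hD : 1 ≤ D)
    (hdeg : ∀ i, (P i).natDegree ≤ D) (hdeg' : ∃ i, (P i).natDegree = D)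
    {q : ℕ} (hq : (pts P).card = q) (r h : ℚ → ℝ) (b : ℝ)
    (hr : ∀ x : ℚ, (∀ i, (P i).eval (x : K) ≠ 0) →
      |r x - rdK P (x : K) / (Module.finrank ℚ K : ℝ)| ≤ b)
    (hh : ∀ x : ℚ, (∀ i, (P i).eval (x : K) ≠ 0) →
      |h x - Height.logHeight (fun i => (P i).eval (x : K)) / (Module.finrank ℚ K : ℝ)| ≤ b) :
    (∀ κ ε : ℝ, 0 < κ → 0 < ε → ∃ C : ℝ, 0 < C ∧ ∀ X : ℝ, 1 ≤ X →
      (ParH P r h X (κ * Real.log X)).Finite ∧
      ((ParH P r h X (κ * Real.log X)).ncard : ℝ) ≤ C * X ^ (1 / S1 P + ε)) ∧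
    (0 < S2 P → ∀ ε : ℝ, 0 < ε → ∃ C : ℝ, 0 < C ∧ ∀ X : ℝ, 1 ≤ X →
      (ParG P r X).Finite ∧ ((ParG P r X).ncard : ℝ) ≤ C * X ^ (1 / S2 P + ε)) ∧
    (∀ κ : ℝ, (D : ℝ) / q < κ → ∃ c : ℝ, 0 < c ∧ ∃ X₀ : ℝ, 1 ≤ X₀ ∧ ∀ X : ℝ, X₀ ≤ X →
      c * X ^ (2 / (q : ℝ)) ≤ ((ParH P r h X (κ * Real.log X)).ncard : ℝ)) ∧
    ((∀ a ∈ pts P, dgr a ≤ 2) → (rat P).card ≠ 1 → ∀ κ : ℝ, (D : ℝ) / q < κ →
      ∀ δ : ℝ, 0 < δ → ∃ X₀ : ℝ, 1 ≤ X₀ ∧ ∀ X : ℝ, X₀ ≤ X →
        X ^ (2 / (q : ℝ) - δ) ≤ ((ParH P r h X (κ * Real.log X)).ncard : ℝ) ∧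
        ((ParH P r h X (κ * Real.log X)).ncard : ℝ) ≤ X ^ (2 / (q : ℝ) + δ)) := by
  classical
  obtain ⟨p1, p2, ⟨c0, hc0, Y0, hY0, p3⟩, -⟩ := package hP hs hu hD hdeg hdeg' hq
  have hn0 : (0 : ℝ) < Module.finrank ℚ K := Pool.Agent.Q10.KV.deg_pos
  have h2 : 2 ≤ (pts P).card := two_le_pts hP hs hu hD hdeg'
  have hq0 : (0 : ℝ) < q := by
    rw [← hq]
    exact_mod_cast (by omega : 0 < (pts P).card)
  have hD0 : (0 : ℝ) < D := by exact_mod_cast hD
  obtain ⟨B, hB⟩ : ∃ B : ℝ, B = Real.exp |b| := ⟨_, rfl⟩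
  have hB1 : 1 ≤ B := by rw [hB]; exact Real.one_le_exp (abs_nonneg b)
  have hB0 : 0 < B := by linarith
  have hlB : Real.log B = |b| := by rw [hB, Real.log_exp]
  have hbb := le_abs_self b
  -- inclusions
  have inc1 : ∀ X : ℝ, 1 ≤ X → ParG P r X ⊆ Par P (X * B) := by
    rintro X hX x ⟨g1, g2⟩
    refine ⟨g1, ?_⟩
    have h3 := abs_le.1 (hr x g1)
    have h4 : rdK P (x : K) / (Module.finrank ℚ K : ℝ) ≤ Real.log (X * B) := by
      rw [Real.log_mul (by linarith) hB0.ne', hlB]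
      linarith [h3.1]
    rw [div_le_iff₀ hn0] at h4
    linarith
  have inc2 : ∀ κ X : ℝ, 0 < κ → 1 ≤ X → ParH P r h X (κ * Real.log X) ⊆
      ParT P (X * B) ((κ + 1) * Real.log (X * B)) := by
    rintro κ X hκ hX x ⟨hx, g3⟩
    refine ⟨inc1 X hX hx, ?_⟩
    have h3 := abs_le.1 (hh x hx.1)
    have hlX : 0 ≤ Real.log X := Real.log_nonneg hX
    have h4 : Height.logHeight (fun i => (P i).eval (x : K)) / (Module.finrank ℚ K : ℝ) ≤
        (κ + 1) * Real.log (X * B) := by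
      rw [Real.log_mul (by linarith) hB0.ne', hlB]
      have h5 : κ * Real.log X + |b| ≤ (κ + 1) * (Real.log X + |b|) := by
        nlinarith [abs_nonneg b]
      linarith [h3.1]
    rw [div_le_iff₀ hn0] at h4
    linarith
  have hUp : ∀ κ ε : ℝ, 0 < κ → 0 < ε → ∃ C : ℝ, 0 < C ∧ ∀ X : ℝ, 1 ≤ X →
      (ParH P r h X (κ * Real.log X)).Finite ∧
      ((ParH P r h X (κ * Real.log X)).ncard : ℝ) ≤ C * X ^ (1 / S1 P + ε) := by
    intro κ ε hκ hε
    obtain ⟨C, hC, hmain⟩ := p1 (κ + 1) ε (by linarith) hε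
    refine ⟨C * B ^ (1 / S1 P + ε), by positivity, fun X hX => ?_⟩
    have hXB : 1 ≤ X * B := one_le_mul_of_one_le_of_one_le hX hB1
    obtain ⟨h3, h4⟩ := hmain (X * B) hXB
    refine ⟨h3.subset (inc2 κ X hκ hX), ?_⟩
    have h5 : ((ParH P r h X (κ * Real.log X)).ncard : ℝ) ≤
        ((ParT P (X * B) ((κ + 1) * Real.log (X * B))).ncard : ℝ) := by
      exact_mod_cast Set.ncard_le_ncard (inc2 κ X hκ hX) h3
    refine (h5.trans h4).trans (le_of_eq ?_)
    rw [Real.mul_rpow (by linarith) hB0.le]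
    ring
  have hLow : ∀ κ : ℝ, (D : ℝ) / q < κ → ∃ c : ℝ, 0 < c ∧ ∃ X₀ : ℝ, 1 ≤ X₀ ∧ ∀ X : ℝ, X₀ ≤ X →
      c * X ^ (2 / (q : ℝ)) ≤ ((ParH P r h X (κ * Real.log X)).ncard : ℝ) := by
    intro κ hκ
    have hDq : 0 < (D : ℝ) / q := by positivity
    have hκ0 : 0 < κ := hDq.trans hκ
    obtain ⟨C, -, hfin⟩ := hUp κ 1 hκ0 one_pos
    obtain ⟨Z, hZ⟩ : ∃ Z : ℝ, Z = Real.exp (|b| / (κ - D / q)) := ⟨_, rfl⟩
    refine ⟨c0 * B⁻¹ ^ (2 / (q : ℝ)), by positivity, max (Y0 * B) Z, ?_, fun X hX => ?_⟩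
    · exact (one_le_mul_of_one_le_of_one_le hY0 hB1).trans (le_max_left _ _)
    have hXa : Y0 * B ≤ X := (le_max_left _ _).trans hX
    have hXb : Z ≤ X := (le_max_right _ _).trans hX
    have hX1 : 1 ≤ X := (one_le_mul_of_one_le_of_one_le hY0 hB1).trans hXa
    have hXp : 0 < X := by linarith
    have hYX : Y0 ≤ X * B⁻¹ := by
      rw [← div_eq_mul_inv, le_div_iff₀ hB0]
      exact hXa
    have hlX : |b| ≤ (κ - D / q) * Real.log X := by
      have h3 : |b| / (κ - D / q) ≤ Real.log X := by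
        rw [Real.le_log_iff_exp_le hXp, ← hZ]
        exact hXb
      rw [div_le_iff₀ (by linarith)] at h3
      linarith
    have h3 := p3 (X * B⁻¹) hYX ((D : ℝ) / q) le_rfl
    have hlY : Real.log (X * B⁻¹) = Real.log X - |b| := by
      rw [Real.log_mul hXp.ne' (by positivity), Real.log_inv, hlB]
      ring
    have hsub : ParT P (X * B⁻¹) ((D : ℝ) / q * Real.log (X * B⁻¹)) ⊆
        ParH P r h X (κ * Real.log X) := by
      rintro x ⟨⟨g1, g2⟩, g3⟩
      have h4 := abs_le.1 (hr x g1)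
      have h5 := abs_le.1 (hh x g1)
      have h6 : rdK P (x : K) / (Module.finrank ℚ K : ℝ) ≤ Real.log (X * B⁻¹) := by
        rw [div_le_iff₀ hn0]
        linarith
      have h7 : Height.logHeight (fun i => (P i).eval (x : K)) / (Module.finrank ℚ K : ℝ) ≤
          (D : ℝ) / q * Real.log (X * B⁻¹) := by
        rw [div_le_iff₀ hn0]
        linarith
      rw [hlY] at h6 h7
      refine ⟨⟨g1, by linarith [h4.2]⟩, ?_⟩
      have h8 : (D : ℝ) / q * (Real.log X - |b|) ≤ (D : ℝ) / q * Real.log X := by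
        have := mul_nonneg hDq.le (abs_nonneg b)
        linarith
      linarith [h5.2]
    have h4 : ((ParT P (X * B⁻¹) ((D : ℝ) / q * Real.log (X * B⁻¹))).ncard : ℝ) ≤
        ((ParH P r h X (κ * Real.log X)).ncard : ℝ) := by
      exact_mod_cast Set.ncard_le_ncard hsub (hfin X hX1).1
    refine le_trans (le_of_eq ?_) (h3.trans h4)
    rw [Real.mul_rpow hXp.le (by positivity)]
    ring
  refine ⟨hUp, ?_, hLow, ?_⟩
  · intro hS2 ε hε
    obtain ⟨C, hC, hmain⟩ := p2 hS2 ε hε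
    refine ⟨C * B ^ (1 / S2 P + ε), by positivity, fun X hX => ?_⟩
    have hXB : 1 ≤ X * B := one_le_mul_of_one_le_of_one_le hX hB1
    obtain ⟨h3, h4⟩ := hmain (X * B) hXB
    refine ⟨h3.subset (inc1 X hX), ?_⟩
    have h5 : ((ParG P r X).ncard : ℝ) ≤ ((Par P (X * B)).ncard : ℝ) := by
      exact_mod_cast Set.ncard_le_ncard (inc1 X hX) h3
    refine (h5.trans h4).trans (le_of_eq ?_)
    rw [Real.mul_rpow (by linarith) hB0.le]
    ring
  · intro hd h1 κ hκ δ hδ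
    have hDq : 0 < (D : ℝ) / q := by positivity
    have hκ0 : 0 < κ := hDq.trans hκ
    obtain ⟨C, hC, hfin⟩ := hUp κ (δ / 2) hκ0 (by positivity)
    obtain ⟨c, hc, X0, hX0, hlow⟩ := hLow κ hκ
    have hS : 1 / S1 P = 2 / (q : ℝ) := by
      rw [S1_two hd h1, hq]
      field_simp
    rw [hS] at hfin
    refine ⟨max X0 (max (C ^ (2 / δ)) ((1 / c) ^ (1 / δ))), hX0.trans (le_max_left _ _),
      fun X hX => ?_⟩
    have hXa : X0 ≤ X := (le_max_left _ _).trans hX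
    have hXb : C ^ (2 / δ) ≤ X := (le_max_left _ _).trans ((le_max_right _ _).trans hX)
    have hXc : (1 / c) ^ (1 / δ) ≤ X := (le_max_right _ _).trans ((le_max_right _ _).trans hX)
    have hX1 : 1 ≤ X := hX0.trans hXa
    have hXp : 0 < X := by linarith
    constructor
    · refine le_trans ?_ (hlow X hXa)
      have h3 : 1 / c ≤ X ^ δ := by
        have h4 := Real.rpow_le_rpow (by positivity) hXc hδ.le
        rw [← Real.rpow_mul (by positivity), one_div_mul_cancel hδ.ne', Real.rpow_one] at h4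
        exact h4
      rw [Real.rpow_sub hXp, div_le_iff₀ (by positivity)]
      have h5 : 1 ≤ c * X ^ δ := by
        rw [div_le_iff₀ hc] at h3
        linarith
      have h6 : 0 < X ^ (2 / (q : ℝ)) := by positivity
      nlinarith
    · refine (hfin X hX1).2.trans ?_
      have h3 : C ≤ X ^ (δ / 2) := by
        have h4 := Real.rpow_le_rpow (by positivity) hXb (by positivity : 0 ≤ δ / 2)
        rw [← Real.rpow_mul hC.le, div_mul_div_comm, mul_comm δ 2, div_self (by positivity),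
          Real.rpow_one] at h4
        exact h4
      calc C * X ^ (2 / (q : ℝ) + δ / 2) ≤ X ^ (δ / 2) * X ^ (2 / (q : ℝ) + δ / 2) :=
            mul_le_mul_of_nonneg_right h3 (by positivity)
        _ = X ^ (2 / (q : ℝ) + δ) := by
            rw [← Real.rpow_add hXp]
            congr 1
            ring

end Pool.Agent.Q10.KY
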