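import Pool.Agent.Q10.KY9

/-!
Rational functions at rational arguments: conductors and heights
-/

set_option autoImplicit false

namespace Pool.Agent.Q10.KZ

open NumberField IsDedekindDomain Finset Polynomial
open Pool.Agent.H691R3 Pool.Agent.Q10.KY Pool.Agent.Q10.KV

variable {K : Type} [Field K] [NumberField K]

/-- the absolute logarithmic Weil height -/
noncomputable def hgt (x : K) : ℝ :=
  (1 / (Module.finrank ℚ K : ℝ)) *
    ((∑ w : InfinitePlace K, (w.mult : ℝ) * Real.log (max 1 (w x))) +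
      ∑ᶠ v : HeightOneSpectrum (𝓞 K), Real.log (max 1 (FinitePlace.mk v x)))

/-- the conductor -/
noncomputable def cnd (x : K) : ℝ :=
  (1 / (Module.finrank ℚ K : ℝ)) *
    (∑ᶠ v : HeightOneSpectrum (𝓞 K),
      (if FinitePlace.mk v x < 1 then Real.log (Ideal.absNorm v.asIdeal : ℝ) else 0))

theorem hgt_eq (x : K) : hgt x = Height.logHeight₁ x / (Module.finrank ℚ K : ℝ) := by
  unfold hgt
  rw [one_div, inv_mul_eq_div, NumberField.logHeight₁_eq]
  congr 2
  · refine Finset.sum_congr rfl fun w _ => ?_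
    rw [Real.posLog_eq_log_max_one (apply_nonneg w x)]
  · rw [← finsum_comp_equiv (FinitePlace.equivHeightOneSpectrum (K := K)).symm]
    refine finsum_congr fun v => ?_
    rw [Real.posLog_eq_log_max_one (apply_nonneg _ x)]
    rfl

/-- the three conductors and the radical of the point `(a : b : a + b)` -/
theorem cnd_sum {a b c : K} (ha : a ≠ 0) (hb : b ≠ 0) (hc : c ≠ 0) (habc : a + b = c) :
    cnd (a / c) + cnd (a / c)⁻¹ + cnd (a / c - 1) =
      (∑ᶠ v ∈ {v : HeightOneSpectrum (𝓞 K) | ∃ i j : Fin 3,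
        fv v ((![a, b, c] : Fin 3 → K) i) ≠ fv v ((![a, b, c] : Fin 3 → K) j)},
        Real.log (Nv v)) / (Module.finrank ℚ K : ℝ) := by
  classical
  have hfin : ∀ y : K, y ≠ 0 → {v : HeightOneSpectrum (𝓞 K) | fv v y < 1}.Finite := by
    intro y hy
    exact (fv_support_finite hy).subset fun v hv => (ne_of_lt hv)
  have hsup : ∀ y : K, y ≠ 0 → (Function.support fun v : HeightOneSpectrum (𝓞 K) =>
      (if FinitePlace.mk v y < 1 then Real.log (Ideal.absNorm v.asIdeal : ℝ) else 0)).Finite := by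
    intro y hy
    refine (hfin y hy).subset fun v hv => ?_
    by_contra hcon
    apply hv
    have : ¬ FinitePlace.mk v y < 1 := hcon
    show (if FinitePlace.mk v y < 1 then Real.log (Ideal.absNorm v.asIdeal : ℝ) else 0) = 0
    rw [if_neg this]
  have y1 : a / c ≠ 0 := div_ne_zero ha hc
  have y2 : (a / c)⁻¹ ≠ 0 := inv_ne_zero y1
  have y3 : a / c - 1 ≠ 0 := by
    rw [div_sub_one hc]
    refine div_ne_zero ?_ hc
    rw [← habc]
    intro h
    apply hb
    linear_combination -h
  unfold cnd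
  rw [← mul_add, ← mul_add, one_div, inv_mul_eq_div, finsum_mem_def]
  congr 1
  rw [← finsum_add_distrib (hsup _ y1) (hsup _ y2), ← finsum_add_distrib ?_ (hsup _ y3)]
  · refine finsum_congr fun v => ?_
    have hNv : Real.log (Ideal.absNorm v.asIdeal : ℝ) = Real.log (Nv v) := rfl
    rw [hNv]
    have e1 : FinitePlace.mk v (a / c) < 1 ↔ fv v a < fv v c := by
      show fv v (a / c) < 1 ↔ _
      rw [map_div₀, div_lt_one ((fv v).pos hc)]
    have e2 : FinitePlace.mk v (a / c)⁻¹ < 1 ↔ fv v c < fv v a := by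
      show fv v (a / c)⁻¹ < 1 ↔ _
      rw [inv_div, map_div₀, div_lt_one ((fv v).pos ha)]
    have e3 : FinitePlace.mk v (a / c - 1) < 1 ↔ fv v b < fv v c := by
      show fv v (a / c - 1) < 1 ↔ _
      have : a / c - 1 = -(b / c) := by
        rw [← habc]
        have : a + b ≠ 0 := by rw [habc]; exact hc
        field_simp
        ring
      rw [this, (fv v).map_neg, map_div₀, div_lt_one ((fv v).pos hc)]
    have n1 : fv v c ≤ max (fv v a) (fv v b) := by rw [← habc]; exact fv_na v a b
    have n2 : fv v b ≤ max (fv v c) (fv v a) := by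
      have : b = c - a := by rw [← habc]; ring
      rw [this]
      exact fv_sub_le v c a
    have n3 : fv v a ≤ max (fv v c) (fv v b) := by
      have : a = c - b := by rw [← habc]; ring
      rw [this]
      exact fv_sub_le v c b
    have hs : v ∈ {v : HeightOneSpectrum (𝓞 K) | ∃ i j : Fin 3,
        fv v ((![a, b, c] : Fin 3 → K) i) ≠ fv v ((![a, b, c] : Fin 3 → K) j)} ↔
        ¬ (fv v a = fv v c ∧ fv v b = fv v c) := by
      constructor
      · rintro ⟨i, j, hij⟩ ⟨h1, h2⟩
        apply hij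
        fin_cases i <;> fin_cases j <;> simp [h1, h2]
      · intro h
        by_cases h1 : fv v a = fv v c
        · exact ⟨1, 2, fun h2 => h ⟨h1, h2⟩⟩
        · exact ⟨0, 2, h1⟩
    simp only [e1, e2, e3]
    rcases lt_trichotomy (fv v a) (fv v c) with h | h | h
    · have h1 : ¬ fv v c < fv v a := not_lt.2 h.le
      have h2 : ¬ fv v b < fv v c := by
        intro h3
        exact absurd n1 (not_le.2 (max_lt h h3))
      rw [if_pos h, if_neg h1, if_neg h2, Set.indicator_of_mem]
      · ring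
      · rw [hs]
        exact fun h3 => h.ne h3.1
    · have h1 : ¬ fv v a < fv v c := not_lt.2 h.ge
      have h2 : ¬ fv v c < fv v a := not_lt.2 h.le
      rw [if_neg h1, if_neg h2]
      by_cases h3 : fv v b < fv v c
      · rw [if_pos h3, Set.indicator_of_mem]
        · ring
        · rw [hs]
          exact fun h4 => h3.ne h4.2
      · rw [if_neg h3, Set.indicator_of_notMem]
        · ring
        · rw [hs, not_not]
          refine ⟨h, le_antisymm ?_ (not_lt.1 h3)⟩
          rw [h, max_self] at n2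
          exact n2
    · have h1 : ¬ fv v a < fv v c := not_lt.2 h.le
      have h2 : ¬ fv v b < fv v c := by
        intro h3
        exact absurd n3 (not_le.2 (max_lt h (h3.trans h)))
      rw [if_neg h1, if_pos h, if_neg h2, Set.indicator_of_mem]
      · ring
      · rw [hs]
        exact fun h3 => h.ne' h3.1
  · refine ((hsup _ y1).union (hsup _ y2)).subset ?_
    intro v hv
    by_contra hcon
    rw [Set.mem_union, not_or] at hcon
    obtain ⟨h1, h2⟩ := hcon
    rw [Function.mem_support, not_not] at h1 h2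
    apply hv
    show _ + _ = (0 : ℝ)
    rw [h1, h2, add_zero]

/-- the height of the value of a rational function and of the point -/
theorem hgt_near {P : Fin 3 → K[X]} (hP : ∀ i, P i ≠ 0) (hsum : P 0 + P 1 = P 2)
    (hcop : IsCoprime (P 0) (P 1)) {D : ℕ} (hdeg : ∀ i, (P i).natDegree ≤ D)
    (hdeg' : ∃ i, (P i).natDegree = D) :
    ∃ b : ℝ, ∀ t : K, (P 2).eval t ≠ 0 →
      |hgt ((P 0).eval t / (P 2).eval t) -
        Height.logHeight (fun i => (P i).eval t) / (Module.finrank ℚ K : ℝ)| ≤ b := by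
  have hn0 : (0 : ℝ) < Module.finrank ℚ K := Pool.Agent.Q10.KV.deg_pos
  obtain ⟨a, b, hab⟩ := hcop
  have hu : ∃ u : Fin 3 → K[X], ∑ i, u i * P i = 1 := by
    refine ⟨![a, b, 0], ?_⟩
    rw [Fin.sum_univ_three]
    simp only [Matrix.cons_val_zero, Matrix.cons_val_one, Matrix.cons_val, zero_mul, add_zero]
    exact hab
  obtain ⟨Q, hQ⟩ : ∃ Q : Fin 2 → K[X], Q = ![P 0, P 2] := ⟨_, rfl⟩
  have hQ0 : Q 0 = P 0 := by rw [hQ]; rfl
  have hQ1 : Q 1 = P 2 := by rw [hQ]; rfl
  have hu' : ∃ u : Fin 2 → K[X], ∑ i, u i * Q i = 1 := by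
    refine ⟨![a - b, b], ?_⟩
    rw [Fin.sum_univ_two, hQ0, hQ1]
    simp only [Matrix.cons_val_zero, Matrix.cons_val_one]
    rw [← hab, ← hsum]
    ring
  have hdQ : ∀ i, (Q i).natDegree ≤ D := by
    intro i
    fin_cases i
    · show (Q 0).natDegree ≤ D
      rw [hQ0]; exact hdeg 0
    · show (Q 1).natDegree ≤ D
      rw [hQ1]; exact hdeg 2
  have hdQ' : ∃ i, (Q i).natDegree = D ∧ Q i ≠ 0 := by
    by_contra hcon
    push Not at hcon
    have h0 : (P 0).natDegree ≠ D := fun h => hP 0 (by rw [← hQ0]; exact hcon 0 (by rw [hQ0, h]))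
    have h2 : (P 2).natDegree ≠ D := fun h => hP 2 (by rw [← hQ1]; exact hcon 1 (by rw [hQ1, h]))
    have h0' := lt_of_le_of_ne (hdeg 0) h0
    have h2' := lt_of_le_of_ne (hdeg 2) h2
    have h1' : (P 1).natDegree < D := by
      have : P 1 = P 2 - P 0 := by linear_combination hsum
      rw [this]
      exact (natDegree_sub_le _ _).trans_lt (max_lt h2' h0')
    obtain ⟨i, hi⟩ := hdeg'
    fin_cases i
    · exact h0'.ne hi
    · exact h1'.ne hi
    · exact h2'.ne hi
  obtain ⟨i0, hi0⟩ := hdeg'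
  obtain ⟨C1, hC1⟩ := Pool.Agent.Y557.NF.curve_height_le P hdeg
  obtain ⟨C2, hC2⟩ := Pool.Agent.Y557.NF.le_curve_height P hu hdeg ⟨i0, hi0, hP i0⟩
  obtain ⟨C3, hC3⟩ := Pool.Agent.Y557.NF.curve_height_le Q hdQ
  obtain ⟨C4, hC4⟩ := Pool.Agent.Y557.NF.le_curve_height Q hu' hdQ hdQ'
  refine ⟨(|C1| + |C2| + |C3| + |C4|) / (Module.finrank ℚ K : ℝ), fun t ht => ?_⟩
  have e : Height.logHeight₁ ((P 0).eval t / (P 2).eval t) =
      Height.logHeight (fun i => (Q i).eval t) := by
    rw [Height.logHeight₁_div_eq_logHeight]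
    congr 1
    funext i
    fin_cases i
    · show (P 0).eval t = (Q 0).eval t
      rw [hQ0]
    · show (P 2).eval t = (Q 1).eval t
      rw [hQ1]
  rw [hgt_eq, e, ← sub_div, abs_div, abs_of_pos hn0]
  refine div_le_div_of_nonneg_right ?_ hn0.le
  have k1 := hC1 t
  have k2 := hC2 t
  have k3 := hC3 t
  have k4 := hC4 t
  rw [abs_le]
  have := le_abs_self C1
  have := neg_abs_le C1
  have := le_abs_self C2
  have := neg_abs_le C2
  have := le_abs_self C3
  have := neg_abs_le C3
  have := le_abs_self C4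
  have := neg_abs_le C4
  have := abs_nonneg C1
  have := abs_nonneg C2
  have := abs_nonneg C3
  have := abs_nonneg C4
  constructor <;> linarith

end Pool.Agent.Q10.KZ
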