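import Pool.Agent.Q10.KZ1

/-!
The values of a split rational function at rational arguments: the packaged theorem
-/

set_option autoImplicit false

namespace Pool.Agent.Q10.KZ

open NumberField IsDedekindDomain Finset Polynomial
open Pool.Agent.H691R3 Pool.Agent.Q10.KY Pool.Agent.Q10.KV

variable {K : Type} [Field K] [NumberField K] {P : Fin 3 → K[X]}

/-- the value of the function `P 0 / P 2` -/
noncomputable def val (P : Fin 3 → K[X]) (t : ℚ) : K := (P 0).eval (t : K) / (P 2).eval (t : K)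

/-- the sum of the three conductors -/
noncomputable def cnd3 (x : K) : ℝ := cnd x + cnd x⁻¹ + cnd (x - 1)

/-- the values different from zero and one at rational arguments, with small conductors -/
def Vals (P : Fin 3 → K[X]) (X : ℝ) : Set K :=
  {x | x ≠ 0 ∧ x ≠ 1 ∧ (∃ t : ℚ, (P 2).eval (t : K) ≠ 0 ∧ x = val P t) ∧ cnd3 x ≤ Real.log X}

/-- those of height at most `T` -/
def ValsT (P : Fin 3 → K[X]) (X T : ℝ) : Set K := {x | x ∈ Vals P X ∧ hgt x ≤ T}

theorem val_cond (hsum : P 0 + P 1 = P 2) {t : ℚ} (h2 : (P 2).eval (t : K) ≠ 0) :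
    (val P t ≠ 0 ↔ (P 0).eval (t : K) ≠ 0) ∧ (val P t ≠ 1 ↔ (P 1).eval (t : K) ≠ 0) := by
  have e : (P 0).eval (t : K) + (P 1).eval (t : K) = (P 2).eval (t : K) := by
    rw [← hsum, eval_add]
  unfold val
  constructor
  · rw [Ne, div_eq_zero_iff, not_or]
    exact ⟨fun h => h.1, fun h => ⟨h, h2⟩⟩
  · rw [Ne, div_eq_one_iff_eq h2]
    constructor
    · intro h h3
      apply h
      rw [← e, h3, add_zero]
    · intro h h3
      apply h
      rw [h3] at e
      linear_combination e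

theorem vals_eq (hsum : P 0 + P 1 = P 2) (X : ℝ) :
    Vals P X = val P '' ParG P (fun t => cnd3 (val P t)) X := by
  ext x
  constructor
  · rintro ⟨h0, h1, ⟨t, ht, rfl⟩, hr⟩
    have h := val_cond hsum ht
    refine ⟨t, ⟨?_, hr⟩, rfl⟩
    intro i
    fin_cases i
    · exact h.1.1 h0
    · exact h.2.1 h1
    · exact ht
  · rintro ⟨t, ⟨h, hr⟩, rfl⟩
    have h' := val_cond hsum (h 2)
    exact ⟨h'.1.2 (h 0), h'.2.2 (h 1), ⟨t, h 2, rfl⟩, hr⟩

theorem valsT_eq (hsum : P 0 + P 1 = P 2) (X T : ℝ) :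
    ValsT P X T = val P '' ParH P (fun t => cnd3 (val P t)) (fun t => hgt (val P t)) X T := by
  ext x
  constructor
  · rintro ⟨h, hT⟩
    rw [vals_eq hsum] at h
    obtain ⟨t, ht, rfl⟩ := h
    exact ⟨t, ⟨ht, hT⟩, rfl⟩
  · rintro ⟨t, ⟨ht, hT⟩, rfl⟩
    refine ⟨?_, hT⟩
    rw [vals_eq hsum]
    exact ⟨t, ht, rfl⟩

/-- the fibres of the function have at most `D` elements -/
theorem fibre (hP : ∀ i, P i ≠ 0) (hsum : P 0 + P 1 = P 2) (hcop : IsCoprime (P 0) (P 1))
    {D : ℕ} (hD : 1 ≤ D) (hdeg : ∀ i, (P i).natDegree ≤ D) (hdeg' : ∃ i, (P i).natDegree = D)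
    {S : Set ℚ} (hS : S.Finite) (h2 : ∀ t ∈ S, (P 2).eval (t : K) ≠ 0) :
    S.ncard ≤ D * (val P '' S).ncard := by
  classical
  have hne : ∀ x : K, P 0 - C x * P 2 ≠ 0 := by
    intro x hx
    have h0 : P 0 = C x * P 2 := by linear_combination hx
    have hu : IsUnit (P 2) := by
      have h3 : P 2 ∣ P 0 := ⟨C x, by rw [h0, mul_comm]⟩
      have h4 : P 2 ∣ P 1 := by
        have : P 1 = P 2 - P 0 := by linear_combination hsum
        rw [this]
        exact dvd_sub dvd_rfl h3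
      exact hcop.isUnit_of_dvd' h3 h4
    have d2 : (P 2).natDegree = 0 := natDegree_eq_zero_of_isUnit hu
    have hx0 : x ≠ 0 := by
      rintro rfl
      apply hP 0
      rw [h0, C_0, zero_mul]
    have d0 : (P 0).natDegree = 0 := by
      rw [h0, natDegree_C_mul hx0, d2]
    have d1 : (P 1).natDegree = 0 := by
      have : P 1 = P 2 - P 0 := by linear_combination hsum
      have h5 := natDegree_sub_le (P 2) (P 0)
      rw [← this, d2, d0, max_self] at h5
      omega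
    obtain ⟨i, hi⟩ := hdeg'
    fin_cases i
    · change (P 0).natDegree = D at hi
      omega
    · change (P 1).natDegree = D at hi
      omega
    · change (P 2).natDegree = D at hi
      omega
  obtain ⟨F, hF⟩ : ∃ F : Finset ℚ, F = hS.toFinset := ⟨_, rfl⟩
  have hFS : (F : Set ℚ) = S := by rw [hF]; exact hS.coe_toFinset
  rw [← hFS, Set.ncard_coe_finset, ← Finset.coe_image, Set.ncard_coe_finset, mul_comm]
  rw [mul_comm]
  refine Finset.card_le_mul_card_image F D ?_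
  intro x hx
  have hinj : Function.Injective (fun t : ℚ => (t : K)) := Rat.cast_injective
  calc (F.filter fun t => val P t = x).card
      = ((F.filter fun t => val P t = x).image fun t : ℚ => (t : K)).card :=
        (Finset.card_image_of_injective _ hinj).symm
    _ ≤ (P 0 - C x * P 2).roots.toFinset.card := by
        refine Finset.card_le_card ?_
        intro y hy
        rw [Finset.mem_image] at hy
        obtain ⟨t, ht, rfl⟩ := hy
        rw [Finset.mem_filter] at ht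
        have h3 : (P 2).eval (t : K) ≠ 0 := h2 t (by rw [← hFS]; exact ht.1)
        rw [Multiset.mem_toFinset, mem_roots (hne x), IsRoot.def, eval_sub, eval_mul, eval_C,
          ← ht.2]
        unfold val
        rw [div_mul_cancel₀ _ h3, sub_self]
    _ ≤ (P 0 - C x * P 2).natDegree :=
        (Multiset.toFinset_card_le _).trans (card_roots' _)
    _ ≤ D := by
        refine (natDegree_sub_le _ _).trans (max_le (hdeg 0) ?_)
        exact (natDegree_C_mul_le _ _).trans (hdeg 2)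

theorem rd_eq (hsum : P 0 + P 1 = P 2) {t : ℚ} (h : ∀ i, (P i).eval (t : K) ≠ 0) :
    cnd3 (val P t) = rdK P (t : K) / (Module.finrank ℚ K : ℝ) := by
  have e : (P 0).eval (t : K) + (P 1).eval (t : K) = (P 2).eval (t : K) := by
    rw [← hsum, eval_add]
  unfold cnd3 val
  rw [cnd_sum (h 0) (h 1) (h 2) e]
  congr 1
  have hv : (![(P 0).eval (t : K), (P 1).eval (t : K), (P 2).eval (t : K)] : Fin 3 → K) =
      fun i => (P i).eval (t : K) := by
    funext i
    fin_cases i <;> rfl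
  rw [hv]
  rfl

/-- **The packaged theorem.** -/
theorem values (hP : ∀ i, P i ≠ 0) (hs : ∀ i, (P i).Splits) (hsum : P 0 + P 1 = P 2)
    (hcop : IsCoprime (P 0) (P 1)) {D : ℕ} (hD : 1 ≤ D)
    (hdeg : ∀ i, (P i).natDegree ≤ D) (hdeg' : ∃ i, (P i).natDegree = D)
    {q : ℕ} (hq : (pts P).card = q) :
    (∀ κ ε : ℝ, 0 < κ → 0 < ε → ∃ C : ℝ, 0 < C ∧ ∀ X : ℝ, 1 ≤ X →
      (ValsT P X (κ * Real.log X)).Finite ∧
      ((ValsT P X (κ * Real.log X)).ncard : ℝ) ≤ C * X ^ (1 / S1 P + ε)) ∧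
    (0 < S2 P → ∀ ε : ℝ, 0 < ε → ∃ C : ℝ, 0 < C ∧ ∀ X : ℝ, 1 ≤ X →
      (Vals P X).Finite ∧ ((Vals P X).ncard : ℝ) ≤ C * X ^ (1 / S2 P + ε)) ∧
    (∀ κ : ℝ, (D : ℝ) / q < κ → ∃ c : ℝ, 0 < c ∧ ∃ X₀ : ℝ, 1 ≤ X₀ ∧ ∀ X : ℝ, X₀ ≤ X →
      c * X ^ (2 / (q : ℝ)) ≤ ((ValsT P X (κ * Real.log X)).ncard : ℝ)) ∧
    ((∀ a ∈ pts P, dgr a ≤ 2) → (rat P).card ≠ 1 → ∀ κ : ℝ, (D : ℝ) / q < κ →
      ∀ δ : ℝ, 0 < δ → ∃ X₀ : ℝ, 1 ≤ X₀ ∧ ∀ X : ℝ, X₀ ≤ X →
        X ^ (2 / (q : ℝ) - δ) ≤ ((ValsT P X (κ * Real.log X)).ncard : ℝ) ∧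
        ((ValsT P X (κ * Real.log X)).ncard : ℝ) ≤ X ^ (2 / (q : ℝ) + δ)) := by
  have hu : ∃ u : Fin 3 → K[X], ∑ i, u i * P i = 1 := by
    obtain ⟨a, b, hab⟩ := hcop
    refine ⟨![a, b, 0], ?_⟩
    rw [Fin.sum_univ_three]
    simp only [Matrix.cons_val_zero, Matrix.cons_val_one, Matrix.cons_val, zero_mul, add_zero]
    exact hab
  obtain ⟨b, hb⟩ := hgt_near hP hsum hcop hdeg hdeg'
  have hb0 : 0 ≤ |b| := abs_nonneg b
  obtain ⟨p1, p2, p3, p4⟩ := package_shift hP hs hu hD hdeg hdeg' hq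
    (fun t => cnd3 (val P t)) (fun t => hgt (val P t)) |b|
    (fun t ht => by
      show |cnd3 (val P t) - _| ≤ _
      rw [rd_eq hsum ht, sub_self, abs_zero]
      exact hb0)
    (fun t ht => (hb (t : K) (ht 2)).trans (le_abs_self b))
  have hDR : (0 : ℝ) < D := by exact_mod_cast hD
  have hfib : ∀ X T : ℝ, (ParH P (fun t => cnd3 (val P t)) (fun t => hgt (val P t)) X T).Finite →
      ((ParH P (fun t => cnd3 (val P t)) (fun t => hgt (val P t)) X T).ncard : ℝ) ≤
        D * ((ValsT P X T).ncard : ℝ) := by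
    intro X T hfin
    have h3 := fibre hP hsum hcop hD hdeg hdeg' hfin (fun t ht => ht.1.1 2)
    rw [← valsT_eq hsum] at h3
    exact_mod_cast h3
  have hup : ∀ X T : ℝ, (ParH P (fun t => cnd3 (val P t)) (fun t => hgt (val P t)) X T).Finite →
      (ValsT P X T).Finite ∧ ((ValsT P X T).ncard : ℝ) ≤
        ((ParH P (fun t => cnd3 (val P t)) (fun t => hgt (val P t)) X T).ncard : ℝ) := by
    intro X T hfin
    rw [valsT_eq hsum]
    exact ⟨hfin.image _, by exact_mod_cast Set.ncard_image_le hfin⟩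
  obtain ⟨C1, hC1, hfin1⟩ := p1 (|(D : ℝ) / q| + 1) 1 (by positivity) one_pos
  refine ⟨?_, ?_, ?_, ?_⟩
  · intro κ ε hκ hε
    obtain ⟨C, hC, hmain⟩ := p1 κ ε hκ hε
    refine ⟨C, hC, fun X hX => ?_⟩
    obtain ⟨h3, h4⟩ := hmain X hX
    obtain ⟨h5, h6⟩ := hup X _ h3
    exact ⟨h5, h6.trans h4⟩
  · intro hS2 ε hε
    obtain ⟨C, hC, hmain⟩ := p2 hS2 ε hε
    refine ⟨C, hC, fun X hX => ?_⟩
    obtain ⟨h3, h4⟩ := hmain X hX
    rw [vals_eq hsum]
    refine ⟨h3.image _, le_trans ?_ h4⟩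
    exact_mod_cast Set.ncard_image_le h3
  · intro κ hκ
    obtain ⟨c, hc, X0, hX0, hlow⟩ := p3 κ hκ
    have hκ0 : 0 < κ := lt_of_le_of_lt (by positivity) hκ
    obtain ⟨C, hC, hmain⟩ := p1 κ 1 hκ0 one_pos
    refine ⟨c / D, by positivity, X0, hX0, fun X hX => ?_⟩
    have h3 := hlow X hX
    have h4 := hfib X (κ * Real.log X) (hmain X (hX0.trans hX)).1
    rw [div_mul_eq_mul_div, div_le_iff₀ hDR]
    linarith
  · intro hd h1 κ hκ δ hδ
    have hκ0 : 0 < κ := lt_of_le_of_lt (by positivity) hκ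
    obtain ⟨C, hC, hmain⟩ := p1 κ 1 hκ0 one_pos
    obtain ⟨X0, hX0, h4⟩ := p4 hd h1 κ hκ (δ / 2) (by positivity)
    refine ⟨max X0 ((D : ℝ) ^ (2 / δ)), hX0.trans (le_max_left _ _), fun X hX => ?_⟩
    have hXa : X0 ≤ X := (le_max_left _ _).trans hX
    have hXb : (D : ℝ) ^ (2 / δ) ≤ X := (le_max_right _ _).trans hX
    have hX1 : 1 ≤ X := hX0.trans hXa
    have hXp : 0 < X := by linarith
    obtain ⟨h5, h6⟩ := h4 X hXa
    have h7 := (hmain X hX1).1
    have h8 := hfib X (κ * Real.log X) h7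
    obtain ⟨-, h9⟩ := hup X (κ * Real.log X) h7
    have h10 : (D : ℝ) ≤ X ^ (δ / 2) := by
      have h11 := Real.rpow_le_rpow (by positivity) hXb (by positivity : 0 ≤ δ / 2)
      rw [← Real.rpow_mul hDR.le, div_mul_div_comm, mul_comm δ 2, div_self (by positivity),
        Real.rpow_one] at h11
      exact h11
    constructor
    · have h12 : X ^ (2 / (q : ℝ) - δ) * (D : ℝ) ≤ X ^ (2 / (q : ℝ) - δ / 2) := by
        calc X ^ (2 / (q : ℝ) - δ) * (D : ℝ) ≤ X ^ (2 / (q : ℝ) - δ) * X ^ (δ / 2) :=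
              mul_le_mul_of_nonneg_left h10 (by positivity)
          _ = X ^ (2 / (q : ℝ) - δ / 2) := by
              rw [← Real.rpow_add hXp]
              congr 1
              ring
      have h13 := (h12.trans h5).trans h8
      rw [mul_comm] at h13
      exact le_of_mul_le_mul_left h13 hDR
    · refine (h9.trans h6).trans ?_
      exact Real.rpow_le_rpow_of_exponent_le hX1 (by linarith)

end Pool.Agent.Q10.KZ
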