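import Pool.Agent.Q10.KY9
import Pool.Agent.Y557.NF.TuplesQ

/-!
Integral tuples on a curve over the rational numbers: comparison of their radical with the radical
over a number field
-/

set_option autoImplicit false

namespace Pool.Agent.Q10.KZ

open NumberField IsDedekindDomain Finset Polynomial
open Pool.Agent.H691R3 Pool.Agent.Q10.KY Pool.Agent.Q10.KV Pool.Agent.W240.CD
open Pool.Agent.Y557.NF (Prim rz rz_pos mz log_mz exists_prim)

variable {K : Type} [Field K] [NumberField K] {n : ℕ}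

theorem logNv_le (w : HeightOneSpectrum (𝓞 K)) (p : ℕ) (hp0 : p ≠ 0) (h : fv w (p : K) < 1) :
    Real.log (Nv w) ≤ - Real.log (fv w (p : K)) := by
  have h1 : (p : 𝓞 K) ∈ w.asIdeal := (fv_nat_lt_iff w p).1 h
  have h2 : w.asIdeal ^ 1 ∣ Ideal.span {(p : 𝓞 K)} := by
    rw [pow_one, Ideal.dvd_span_singleton]
    exact h1
  have h3 := fv_of_dvd w (p : 𝓞 K) (by exact_mod_cast hp0) 1 h2
  have h4 : (((p : ℕ) : 𝓞 K) : K) = (p : K) := by simp
  rw [h4, Nat.cast_one, one_mul] at h3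
  exact h3

theorem sum_Sp_eq (p : ℕ) (hp0 : (p : K) ≠ 0) :
    ∑ w ∈ Sp K p hp0, (- Real.log (fv w (p : K))) = (Module.finrank ℚ K : ℝ) * Real.log p := by
  have h1 := log_product_formula (K := K) hp0
  have h2 : ∑ᶠ v : HeightOneSpectrum (𝓞 K), Real.log (fv v (p : K)) =
      ∑ w ∈ Sp K p hp0, Real.log (fv w (p : K)) := by
    refine finsum_eq_sum_of_support_subset _ ?_
    intro w hw
    unfold Sp
    rw [Set.Finite.coe_toFinset]
    simp only [Function.mem_support] at hw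
    intro h'
    rw [h', Real.log_one] at hw
    exact hw rfl
  have h3 : ∑ w : InfinitePlace K, (w.mult : ℝ) * Real.log (w (p : K)) =
      (Module.finrank ℚ K : ℝ) * Real.log p := by
    have h4 : ∀ w : InfinitePlace K, w (p : K) = (p : ℝ) := fun w => by
      rw [← InfinitePlace.norm_embedding_eq, map_natCast, Complex.norm_natCast]
    simp_rw [h4]
    rw [← Finset.sum_mul]
    congr 1
    exact_mod_cast InfinitePlace.sum_mult_eq (K := K)
  rw [h3, h2] at h1
  rw [Finset.sum_neg_distrib]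
  linarith

theorem sum_Sp_le (p : ℕ) (hp : p ≠ 0) (hp0 : (p : K) ≠ 0) :
    ∑ w ∈ Sp K p hp0, Real.log (Nv w) ≤ (Module.finrank ℚ K : ℝ) * Real.log p := by
  rw [← sum_Sp_eq p hp0]
  exact Finset.sum_le_sum fun w hw => logNv_le w p hp ((mem_Sp p hp0 w).1 hw)

theorem fv_prime_unique (w : HeightOneSpectrum (𝓞 K)) {p p' : ℕ} (hp : p.Prime) (hp' : p'.Prime)
    (h : fv w (p : K) < 1) (h' : fv w (p' : K) < 1) : p = p' := by
  by_contra hne
  have hcop : IsCoprime (p : ℤ) (p' : ℤ) :=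
    Nat.isCoprime_iff_coprime.2 ((Nat.coprime_primes hp hp').2 hne)
  obtain ⟨a, b, hab⟩ := hcop
  have h1 : (a : K) * (p : K) + (b : K) * (p' : K) = 1 := by
    exact_mod_cast congrArg (Int.cast : ℤ → K) hab
  have h2 := fv_na w ((a : K) * (p : K)) ((b : K) * (p' : K))
  rw [h1, map_one, map_mul, map_mul] at h2
  have h3 := fv_int w a
  have h4 := fv_int w b
  have h5 := (fv w).nonneg (a : K)
  have h6 := (fv w).nonneg (b : K)
  have h7 := (fv w).nonneg (p : K)
  have h8 := (fv w).nonneg (p' : K)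
  have h9 : max (fv w (a : K) * fv w (p : K)) (fv w (b : K) * fv w (p' : K)) < 1 :=
    max_lt (by nlinarith) (by nlinarith)
  linarith

/-- a prime below a place at which an integer is not a unit -/
theorem exists_below (w : HeightOneSpectrum (𝓞 K)) {m : ℤ} (hm : m ≠ 0) (h : fv w (m : K) < 1) :
    ∃ p : ℕ, p.Prime ∧ (p : ℤ) ∣ m ∧ fv w (p : K) < 1 := by
  have hn : m.natAbs ≠ 0 := Int.natAbs_ne_zero.2 hm
  by_contra hcon
  push Not at hcon
  have h1 : fv w ((m.natAbs : ℕ) : K) = 1 := by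
    have h2 := Nat.prod_factorization_pow_eq_self hn
    rw [← h2]
    unfold Finsupp.prod
    push_cast
    rw [map_prod]
    refine Finset.prod_eq_one fun p hp => ?_
    have hp1 : p ∈ m.natAbs.primeFactors := by rwa [Nat.support_factorization] at hp
    have hpp : p.Prime := Nat.prime_of_mem_primeFactors hp1
    have hpd : p ∣ m.natAbs := Nat.dvd_of_mem_primeFactors hp1
    have h3 := hcon p hpp (Int.natCast_dvd.2 hpd)
    have h4 := fv_int w (p : ℤ)
    rw [Int.cast_natCast] at h4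
    rw [map_pow, le_antisymm h4 h3, one_pow]
  have h2 : fv w (m : K) = fv w ((m.natAbs : ℕ) : K) := by
    rcases Int.natAbs_eq m with h3 | h3
    · have h4 := congrArg (Int.cast : ℤ → K) h3
      rw [Int.cast_natCast] at h4
      rw [h4]
    · have h4 := congrArg (Int.cast : ℤ → K) h3
      rw [Int.cast_neg, Int.cast_natCast] at h4
      rw [h4, (fv w).map_neg]
  rw [h2, h1] at h
  exact lt_irrefl _ h

theorem fv_dvd_lt (w : HeightOneSpectrum (𝓞 K)) {p : ℕ} {m : ℤ} (h : fv w (p : K) < 1)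
    (hd : (p : ℤ) ∣ m) : fv w (m : K) < 1 := by
  obtain ⟨k, hk⟩ := hd
  rw [hk]
  push_cast
  rw [map_mul]
  have := fv_int w k
  nlinarith [(fv w).nonneg (p : K), (fv w).nonneg (k : K)]

theorem fv_not_dvd (w : HeightOneSpectrum (𝓞 K)) {p : ℕ} (hp : p.Prime) {m : ℤ}
    (h : fv w (p : K) < 1) (hd : ¬ (p : ℤ) ∣ m) : fv w (m : K) = 1 := by
  refine le_antisymm (fv_int w m) ?_
  by_contra hlt
  push Not at hlt
  have hm : m ≠ 0 := by
    rintro rfl
    exact hd (dvd_zero _)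
  obtain ⟨p', hp', hd', h'⟩ := exists_below w hm hlt
  rw [fv_prime_unique w hp hp' h h'] at hd
  exact hd hd'

/-- the places at which the absolute values of the coordinates of an integral tuple differ -/
theorem supp_tuple {z : Fin n → ℤ} (hz : ∀ i, z i ≠ 0) (hp : Prim z)
    (w : HeightOneSpectrum (𝓞 K)) :
    (∃ i j, fv w (z i : K) ≠ fv w (z j : K)) ↔
      ∃ p ∈ (∏ i, z i).natAbs.primeFactors, fv w (p : K) < 1 := by
  have hN : ∏ i, z i ≠ 0 := Finset.prod_ne_zero_iff.2 fun i _ => hz i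
  constructor
  · rintro ⟨i, j, hij⟩
    have h1 : ∃ k, fv w (z k : K) < 1 := by
      by_contra hcon
      push Not at hcon
      exact hij (by
        rw [le_antisymm (fv_int w (z i)) (hcon i), le_antisymm (fv_int w (z j)) (hcon j)])
    obtain ⟨k, hk⟩ := h1
    obtain ⟨p, hpp, hd, h⟩ := exists_below w (hz k) hk
    refine ⟨p, ?_, h⟩
    rw [Nat.mem_primeFactors]
    refine ⟨hpp, ?_, Int.natAbs_ne_zero.2 hN⟩
    exact Int.natCast_dvd.1 (hd.trans (Finset.dvd_prod_of_mem z (Finset.mem_univ k)))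
  · rintro ⟨p, hpm, h⟩
    have hpp := Nat.prime_of_mem_primeFactors hpm
    have h1 : (p : ℤ) ∣ ∏ i, z i := Int.natCast_dvd.2 (Nat.dvd_of_mem_primeFactors hpm)
    obtain ⟨i, -, hi⟩ := (Nat.prime_iff_prime_int.1 hpp).exists_mem_finset_dvd h1
    obtain ⟨j, hj⟩ : ∃ j, ¬ (p : ℤ) ∣ z j := by
      by_contra hcon
      push Not at hcon
      exact (Nat.prime_iff_prime_int.1 hpp).not_isUnit (hp p hcon)
    refine ⟨i, j, ?_⟩
    rw [fv_not_dvd w hpp h hj]
    exact (fv_dvd_lt w h hi).ne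

/-- **the radical over `K` and the radical of an integral tuple** -/
theorem rad_cmp : ∃ b : ℝ, ∀ (n : ℕ) (P : Fin n → K[X]) (z : Fin n → ℤ) (t : K) (r : K),
    (∀ i, z i ≠ 0) → Prim z → r ≠ 0 → (∀ i, (z i : K) = r * (P i).eval t) →
    |Real.log (rz z) - rdK P t / (Module.finrank ℚ K : ℝ)| ≤ b := by
  classical
  have hn0 : (0 : ℝ) < Module.finrank ℚ K := Pool.Agent.Q10.KV.deg_pos
  have hfin : {w : HeightOneSpectrum (𝓞 K) | w.asIdeal ∣ differentIdeal ℤ (𝓞 K)}.Finite :=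
    Ideal.finite_factors differentIdeal_ne_bot
  obtain ⟨M, hM⟩ : ∃ M : ℕ, M = ∏ w ∈ hfin.toFinset, Ideal.absNorm w.asIdeal := ⟨_, rfl⟩
  have hM0 : M ≠ 0 := by
    rw [hM]
    refine Finset.prod_ne_zero_iff.2 fun w _ => ?_
    have := NumberField.HeightOneSpectrum.one_lt_absNorm w
    omega
  refine ⟨∑ p ∈ M.primeFactors, Real.log p, ?_⟩
  intro n P z t r hz hp hr ht
  obtain ⟨Q, hQ⟩ : ∃ Q : Finset ℕ, Q = (∏ i, z i).natAbs.primeFactors := ⟨_, rfl⟩
  have hQp : ∀ p ∈ Q, p.Prime := fun p hpQ => by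
    rw [hQ] at hpQ
    exact Nat.prime_of_mem_primeFactors hpQ
  have hp0 : ∀ p ∈ Q, (p : K) ≠ 0 := fun p hpQ => by
    exact_mod_cast (hQp p hpQ).ne_zero
  -- the support
  have hset : {v : HeightOneSpectrum (𝓞 K) | ∃ i j, fv v ((P i).eval t) ≠ fv v ((P j).eval t)} =
      ((Q.attach.biUnion fun p => Sp K p.1 (hp0 p.1 p.2) : Finset (HeightOneSpectrum (𝓞 K))) :
        Set (HeightOneSpectrum (𝓞 K))) := by
    ext v
    rw [Set.mem_ofPred_eq, Finset.mem_coe, Finset.mem_biUnion]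
    have hrv := (fv v).pos hr
    have e1 : (∃ i j, fv v ((P i).eval t) ≠ fv v ((P j).eval t)) ↔
        ∃ i j, fv v (z i : K) ≠ fv v (z j : K) := by
      refine exists_congr fun i => exists_congr fun j => ?_
      rw [ht i, ht j, map_mul, map_mul]
      rw [Ne, Ne, mul_right_inj' hrv.ne']
    rw [e1, supp_tuple hz hp v, ← hQ]
    constructor
    · rintro ⟨p, hpQ, h⟩
      exact ⟨⟨p, hpQ⟩, Finset.mem_attach _ _, (mem_Sp p _ v).2 h⟩
    · rintro ⟨⟨p, hpQ⟩, -, h⟩
      exact ⟨p, hpQ, (mem_Sp p _ v).1 h⟩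
  have hdisj : ∀ p ∈ Q.attach, ∀ p' ∈ Q.attach, p ≠ p' →
      Disjoint (Sp K p.1 (hp0 p.1 p.2)) (Sp K p'.1 (hp0 p'.1 p'.2)) := by
    intro p _ p' _ hne
    rw [Finset.disjoint_left]
    intro w h1 h2
    apply hne
    exact Subtype.ext (fv_prime_unique w (hQp _ p.2) (hQp _ p'.2) ((mem_Sp _ _ w).1 h1)
      ((mem_Sp _ _ w).1 h2))
  have hrd : rdK P t = ∑ p ∈ Q.attach, ∑ w ∈ Sp K p.1 (hp0 p.1 p.2), Real.log (Nv w) := by
    have h1 : rdK P t = ∑ᶠ v ∈ {v : HeightOneSpectrum (𝓞 K) |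
        ∃ i j, fv v ((P i).eval t) ≠ fv v ((P j).eval t)}, Real.log (Nv v) := rfl
    rw [h1, hset, finsum_mem_coe_finset, Finset.sum_biUnion hdisj]
  have hlog : Real.log (rz z) = ∑ p ∈ Q.attach, Real.log (p.1 : ℝ) := by
    unfold rz
    rw [← hQ, Nat.cast_prod, Real.log_prod fun p hpQ => by
      have := (hQp p hpQ).pos
      positivity]
    exact (Finset.sum_attach Q fun p => Real.log (p : ℝ)).symm
  have hup : rdK P t ≤ (Module.finrank ℚ K : ℝ) * Real.log (rz z) := by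
    rw [hrd, hlog, Finset.mul_sum]
    exact Finset.sum_le_sum fun p _ => sum_Sp_le p.1 (hQp _ p.2).ne_zero _
  have hlo : (Module.finrank ℚ K : ℝ) * Real.log (rz z) ≤
      rdK P t + (Module.finrank ℚ K : ℝ) * ∑ p ∈ M.primeFactors, Real.log (p : ℝ) := by
    rw [hrd, hlog, Finset.mul_sum]
    have h1 : ∑ p ∈ Q.attach, (Module.finrank ℚ K : ℝ) * Real.log (p.1 : ℝ) ≤
        ∑ p ∈ Q.attach, (∑ w ∈ Sp K p.1 (hp0 p.1 p.2), Real.log (Nv w) +
          (Module.finrank ℚ K : ℝ) * (if p.1 ∣ M then Real.log (p.1 : ℝ) else 0)) := by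
      refine Finset.sum_le_sum fun p _ => ?_
      have hlp : 0 ≤ Real.log (p.1 : ℝ) := Real.log_natCast_nonneg _
      have hnn : 0 ≤ ∑ w ∈ Sp K p.1 (hp0 p.1 p.2), Real.log (Nv w) :=
        Finset.sum_nonneg fun w _ => (log_Nv_pos w).le
      split_ifs with hd
      · linarith
      · rw [mul_zero, add_zero]
        refine sum_Sp p.1 (hQp _ p.2) _ fun w hw hdiv => hd ?_
        have h2 := (mem_Sp _ _ w).1 hw
        have h3 : (p.1 : 𝓞 K) ∈ w.asIdeal := (fv_nat_lt_iff w p.1).1 h2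
        have h4 : w ∈ hfin.toFinset := by
          rw [Set.Finite.mem_toFinset]
          exact hdiv
        have h5 : Ideal.absNorm w.asIdeal ∣ M := by
          rw [hM]
          exact Finset.dvd_prod_of_mem (fun w : HeightOneSpectrum (𝓞 K) =>
            Ideal.absNorm w.asIdeal) h4
        have h6 : ((Ideal.absNorm w.asIdeal : ℕ) : 𝓞 K) ∈ w.asIdeal := Ideal.absNorm_mem _
        have h7 : fv w ((Ideal.absNorm w.asIdeal : ℕ) : K) < 1 := (fv_nat_lt_iff w _).2 h6
        have hN0 : ((Ideal.absNorm w.asIdeal : ℕ) : ℤ) ≠ 0 := by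
          have := NumberField.HeightOneSpectrum.one_lt_absNorm w
          exact_mod_cast (by omega : Ideal.absNorm w.asIdeal ≠ 0)
        obtain ⟨p', hp', hd', h8⟩ := exists_below w hN0 (by rw [Int.cast_natCast]; exact h7)
        rw [fv_prime_unique w (hQp _ p.2) hp' h2 h8]
        exact (Int.natCast_dvd_natCast.1 hd').trans h5
    refine h1.trans ?_
    rw [Finset.sum_add_distrib, ← Finset.mul_sum]
    have h2 : ∑ p ∈ Q.attach, (if p.1 ∣ M then Real.log (p.1 : ℝ) else 0) ≤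
        ∑ p ∈ M.primeFactors, Real.log (p : ℝ) := by
      rw [Finset.sum_attach Q fun p => if p ∣ M then Real.log (p : ℝ) else 0,
        ← Finset.sum_filter]
      refine Finset.sum_le_sum_of_subset_of_nonneg ?_ fun p _ _ => Real.log_natCast_nonneg _
      intro p hpf
      rw [Finset.mem_filter] at hpf
      exact Nat.mem_primeFactors.2 ⟨hQp p hpf.1, hpf.2, hM0⟩
    have h3 := mul_le_mul_of_nonneg_left h2 hn0.le
    linarith
  have hb : 0 ≤ ∑ p ∈ M.primeFactors, Real.log (p : ℝ) :=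
    Finset.sum_nonneg fun p _ => Real.log_natCast_nonneg _
  rw [abs_le]
  constructor
  · have h1 : rdK P t / (Module.finrank ℚ K : ℝ) ≤ Real.log (rz z) := by
      rw [div_le_iff₀ hn0]
      linarith
    linarith
  · rw [sub_le_iff_le_add, ← sub_le_iff_le_add', le_div_iff₀ hn0]
    linarith

end Pool.Agent.Q10.KZ
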