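import Pool.Agent.Q10.KZ3

/-!
Integral tuples on a curve over the rational numbers, the zeros of which are not necessarily
rational: the number of the tuples by radical
-/

set_option autoImplicit false

namespace Pool.Agent.Q10.KZ

open NumberField IsDedekindDomain Finset Polynomial
open Pool.Agent.H691R3 Pool.Agent.Q10.KY Pool.Agent.Q10.KV
open Pool.Agent.Y557.NF (Prim rz rz_pos mz log_mz exists_prim)
open Pool.Agent.TH876.TM (Tuples_prim)

variable {n : ℕ}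

/-- the curve over `K` -/
noncomputable def mapK (K : Type) [Field K] [NumberField K] (P : Fin n → ℚ[X]) : Fin n → K[X] :=
  fun i => (P i).map (algebraMap ℚ K)

/-- the tuples with property `A` on a curve with radical at most `X` -/
def TA (P : Fin n → ℚ[X]) (A : (Fin n → ℤ) → Prop) (X : ℝ) : Set (Fin n → ℤ) :=
  {z | (∀ i, z i ≠ 0) ∧ Prim z ∧ (∃ x r : ℚ, ∀ i, (z i : ℚ) = r * (P i).eval x) ∧ A z ∧ rz z ≤ X}

/-- those of size at most `B` -/
def TAB (P : Fin n → ℚ[X]) (A : (Fin n → ℤ) → Prop) (X B : ℝ) : Set (Fin n → ℤ) :=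
  {z | z ∈ TA P A X ∧ mz z ≤ B}

open Classical in
/-- a primitive tuple for each parameter -/
noncomputable def gx (P : Fin n → ℚ[X]) (x : ℚ) : Fin n → ℤ :=
  if h : (fun i => (P i).eval x) ≠ 0 then (exists_prim _ h).choose else 0

theorem gx_spec {P : Fin n → ℚ[X]} {x : ℚ} (h : (fun i => (P i).eval x) ≠ 0) :
    ∃ r : ℚ, r ≠ 0 ∧ (∀ i, (gx P x i : ℚ) = r * (P i).eval x) ∧ Prim (gx P x) := by
  unfold gx
  rw [dif_pos h]
  exact (exists_prim _ h).choose_spec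

theorem vec_ne_of (hn : 0 < n) {P : Fin n → ℚ[X]} {x : ℚ} (h : ∀ i, (P i).eval x ≠ 0) :
    (fun i => (P i).eval x) ≠ 0 := fun h0 => h ⟨0, hn⟩ (congrFun h0 _)

theorem rz_neg (z : Fin n → ℤ) : rz (-z) = rz z := by
  unfold rz
  have h0 : ∀ w : Fin n → ℤ, (∏ i, w i).natAbs = ∏ i, (w i).natAbs :=
    fun w => map_prod Int.natAbsHom w univ
  have h : (∏ i, (-z) i).natAbs = (∏ i, z i).natAbs := by
    rw [h0, h0]
    exact Finset.prod_congr rfl fun i _ => Int.natAbs_neg _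
  rw [h]

theorem mz_neg (z : Fin n → ℤ) : mz (-z) = mz z := by
  unfold mz
  simp

theorem mz_pos (hn : 0 < n) {z : Fin n → ℤ} (h : ∀ i, z i ≠ 0) : 0 < mz z := by
  have h1 : |z ⟨0, hn⟩| ≤ ⨆ i, |z i| :=
    le_ciSup (f := fun i => |z i|) (Set.finite_range _).bddAbove _
  unfold mz
  have h2 : 0 < |z ⟨0, hn⟩| := abs_pos.2 (h _)
  exact_mod_cast h2.trans_le h1

theorem gx_nz {P : Fin n → ℚ[X]} (hn : 0 < n) {x : ℚ} (h : ∀ i, (P i).eval x ≠ 0) :
    ∀ i, gx P x i ≠ 0 := by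
  obtain ⟨r, hr, h1, -⟩ := gx_spec (vec_ne_of hn h)
  intro i hi
  have h2 := h1 i
  rw [hi, Int.cast_zero] at h2
  exact mul_ne_zero hr (h i) h2.symm

/-- the fibres of the map to the tuples have at most `D` elements -/
theorem fibre' {P : Fin n → ℚ[X]} (hn : 0 < n) (hu : ∃ u : Fin n → ℚ[X], ∑ i, u i * P i = 1)
    {D : ℕ} (hD : 1 ≤ D) (hdeg : ∀ i, (P i).natDegree ≤ D) (hdeg' : ∃ i, (P i).natDegree = D)
    {S : Set ℚ} (hS : S.Finite) (hne : ∀ x ∈ S, ∀ i, (P i).eval x ≠ 0) :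
    S.ncard ≤ D * (gx P '' S).ncard := by
  classical
  have key : ∀ z : Fin n → ℤ, (∀ i, z i ≠ 0) →
      ∃ i j, C (z j : ℚ) * P i - C (z i : ℚ) * P j ≠ 0 := by
    intro z hz
    by_contra hcon
    push Not at hcon
    obtain ⟨u, hu⟩ := hu
    have hz0 : ((z ⟨0, hn⟩ : ℤ) : ℚ) ≠ 0 := by exact_mod_cast hz _
    have h1 : ∀ i, P i = C ((z i : ℚ) / (z ⟨0, hn⟩ : ℚ)) * P ⟨0, hn⟩ := by
      intro i
      have h2 := hcon i ⟨0, hn⟩
      have h3 : C (z ⟨0, hn⟩ : ℚ) * P i = C (z i : ℚ) * P ⟨0, hn⟩ := by linear_combination h2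
      have h4 : C ((z ⟨0, hn⟩ : ℚ)⁻¹) * (C (z ⟨0, hn⟩ : ℚ) * P i) = P i := by
        rw [← mul_assoc, ← C_mul, inv_mul_cancel₀ hz0, C_1, one_mul]
      rw [← h4, h3, ← mul_assoc, ← C_mul]
      congr 2
      ring
    have h2 : P ⟨0, hn⟩ ∣ 1 := by
      rw [← hu]
      refine Finset.dvd_sum fun i _ => ?_
      rw [h1 i]
      exact Dvd.dvd.mul_left (Dvd.dvd.mul_left dvd_rfl _) _
    have h3 : (P ⟨0, hn⟩).natDegree = 0 := natDegree_eq_zero_of_isUnit (isUnit_of_dvd_one h2)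
    obtain ⟨i, hi⟩ := hdeg'
    have h4 : (P i).natDegree ≤ 0 := by
      rw [h1 i]
      exact (natDegree_C_mul_le _ _).trans h3.le
    omega
  obtain ⟨F, hF⟩ : ∃ F : Finset ℚ, F = hS.toFinset := ⟨_, rfl⟩
  have hFS : (F : Set ℚ) = S := by rw [hF]; exact hS.coe_toFinset
  rw [← hFS, Set.ncard_coe_finset, ← Finset.coe_image, Set.ncard_coe_finset]
  refine Finset.card_le_mul_card_image F D ?_
  intro z hz
  obtain ⟨x0, hx0, rfl⟩ := Finset.mem_image.1 hz
  have hx0S : x0 ∈ S := by rw [← hFS]; exact hx0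
  obtain ⟨i, j, hij⟩ := key _ (gx_nz hn (hne x0 hx0S))
  calc (F.filter fun x => gx P x = gx P x0).card
      ≤ (C (gx P x0 j : ℚ) * P i - C (gx P x0 i : ℚ) * P j).roots.toFinset.card := by
        refine Finset.card_le_card ?_
        intro x hx
        obtain ⟨hxF, hxe⟩ := Finset.mem_filter.1 hx
        have hxS : x ∈ S := by rw [← hFS]; exact hxF
        obtain ⟨r, hr, h1, -⟩ := gx_spec (vec_ne_of hn (hne x hxS))
        rw [Multiset.mem_toFinset, mem_roots hij, IsRoot.def, eval_sub, eval_mul, eval_mul,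
          eval_C, eval_C, ← hxe, h1 i, h1 j]
        ring
    _ ≤ (C (gx P x0 j : ℚ) * P i - C (gx P x0 i : ℚ) * P j).natDegree :=
        (Multiset.toFinset_card_le _).trans (card_roots' _)
    _ ≤ D := by
        refine (natDegree_sub_le _ _).trans (max_le ?_ ?_)
        · exact (natDegree_C_mul_le _ _).trans (hdeg i)
        · exact (natDegree_C_mul_le _ _).trans (hdeg j)

section
variable {K : Type} [Field K] [NumberField K]

theorem eval_mapK (P : Fin n → ℚ[X]) (x : ℚ) (i : Fin n) :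
    (mapK K P i).eval (x : K) = (((P i).eval x : ℚ) : K) := by
  unfold mapK
  have h : (x : K) = algebraMap ℚ K x := rfl
  rw [h, eval_map, eval₂_at_apply]
  rfl

theorem eval_mapK_ne (P : Fin n → ℚ[X]) (x : ℚ) :
    (∀ i, (mapK K P i).eval (x : K) ≠ 0) ↔ ∀ i, (P i).eval x ≠ 0 := by
  refine forall_congr' fun i => ?_
  rw [eval_mapK, Ne, Rat.cast_eq_zero]

theorem mapK_deg (P : Fin n → ℚ[X]) (i : Fin n) : (mapK K P i).natDegree = (P i).natDegree :=
  natDegree_map (algebraMap ℚ K)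

theorem mapK_u {P : Fin n → ℚ[X]} (hu : ∃ u : Fin n → ℚ[X], ∑ i, u i * P i = 1) :
    ∃ u : Fin n → K[X], ∑ i, u i * mapK K P i = 1 := by
  obtain ⟨u, hu⟩ := hu
  refine ⟨fun i => (u i).map (algebraMap ℚ K), ?_⟩
  have h := congrArg (Polynomial.map (algebraMap ℚ K)) hu
  rw [Polynomial.map_sum, Polynomial.map_one] at h
  rw [← h]
  refine Finset.sum_congr rfl fun i _ => ?_
  rw [Polynomial.map_mul]
  rfl

/-- the height over `ℚ` and over `K` -/
theorem ht_cmp {P : Fin n → ℚ[X]} (hP : ∀ i, P i ≠ 0)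
    (hu : ∃ u : Fin n → ℚ[X], ∑ i, u i * P i = 1) {D : ℕ} (hdeg : ∀ i, (P i).natDegree ≤ D)
    (hdeg' : ∃ i, (P i).natDegree = D) :
    ∃ b : ℝ, ∀ x : ℚ, |Height.logHeight (fun i => (P i).eval x) -
      Height.logHeight (fun i => (mapK K P i).eval (x : K)) / (Module.finrank ℚ K : ℝ)| ≤ b := by
  have hn0 : (0 : ℝ) < Module.finrank ℚ K := Pool.Agent.Q10.KV.deg_pos
  obtain ⟨i0, hi0⟩ := hdeg'
  obtain ⟨C1, hC1⟩ := Pool.Agent.Y557.NF.curve_height_le P hdeg
  obtain ⟨C2, hC2⟩ := Pool.Agent.Y557.NF.le_curve_height P hu hdeg ⟨i0, hi0, hP i0⟩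
  obtain ⟨C3, hC3⟩ := Pool.Agent.Y557.NF.curve_height_le (mapK K P)
    (fun i => by rw [mapK_deg]; exact hdeg i)
  obtain ⟨C4, hC4⟩ := Pool.Agent.Y557.NF.le_curve_height (mapK K P) (mapK_u hu)
    (fun i => by rw [mapK_deg]; exact hdeg i) ⟨i0, by rw [mapK_deg]; exact hi0, by
      unfold mapK
      rw [Ne, Polynomial.map_eq_zero]
      exact hP i0⟩
  refine ⟨|C1| + |C2| + (|C3| + |C4|) / (Module.finrank ℚ K : ℝ), fun x => ?_⟩
  have k1 := hC1 x
  have k2 := hC2 x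
  have k3 := hC3 (x : K)
  have k4 := hC4 (x : K)
  have e1 : Height.logHeight₁ x = Real.log (max |(x.num : ℝ)| |((x.den : ℤ) : ℝ)|) := by
    have h := lh1_rat (K := ℚ) x
    rw [Module.finrank_self, Nat.cast_one, one_mul] at h
    exact h
  have e2 := lh1_rat (K := K) x
  rw [← e1] at e2
  rw [e2] at k3 k4
  obtain ⟨d, hd⟩ : ∃ d : ℝ, d = (Module.finrank ℚ K : ℝ) := ⟨_, rfl⟩
  obtain ⟨H, hH⟩ : ∃ H : ℝ, H = Height.logHeight (fun i => (mapK K P i).eval (x : K)) := ⟨_, rfl⟩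
  rw [← hd] at k3 k4 hn0 ⊢
  rw [← hH] at k3 k4 ⊢
  have k3' : H / d ≤ D * Height.logHeight₁ x + |C3| / d := by
    rw [div_le_iff₀ hn0, add_mul, div_mul_cancel₀ _ hn0.ne']
    have := le_abs_self C3
    nlinarith
  have k4' : D * Height.logHeight₁ x - |C4| / d ≤ H / d := by
    rw [le_div_iff₀ hn0, sub_mul, div_mul_cancel₀ _ hn0.ne']
    have := le_abs_self C4
    have := neg_abs_le C4
    nlinarith
  have := le_abs_self C1
  have := neg_abs_le C1
  have := le_abs_self C2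
  have := neg_abs_le C2
  rw [add_div, abs_le]
  constructor
  · linarith [div_nonneg (abs_nonneg C4) hn0.le, div_nonneg (abs_nonneg C3) hn0.le,
      abs_nonneg C1, abs_nonneg C2]
  · linarith [div_nonneg (abs_nonneg C4) hn0.le, div_nonneg (abs_nonneg C3) hn0.le,
      abs_nonneg C1, abs_nonneg C2]

end

end Pool.Agent.Q10.KZ
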