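import Pool.Agent.Q10.KZ4

/-!
Integral tuples on a curve over the rational numbers, the zeros of which are not necessarily
rational: the packaged theorem in terms of a splitting field
-/

set_option autoImplicit false

namespace Pool.Agent.Q10.KZ

open NumberField IsDedekindDomain Finset Polynomial
open Pool.Agent.H691R3 Pool.Agent.Q10.KY Pool.Agent.Q10.KV
open Pool.Agent.Y557.NF (Prim rz rz_pos mz log_mz exists_prim)
open Pool.Agent.TH876.TM (Tuples_prim)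

variable {n : ℕ} {K : Type} [Field K] [NumberField K]

theorem tuplesK {P : Fin n → ℚ[X]} (hP : ∀ i, P i ≠ 0)
    (hu : ∃ u : Fin n → ℚ[X], ∑ i, u i * P i = 1) {D : ℕ} (hD : 1 ≤ D)
    (hdeg : ∀ i, (P i).natDegree ≤ D) (hdeg' : ∃ i, (P i).natDegree = D)
    (hs : ∀ i, (mapK K P i).Splits) {q : ℕ} (hq : (pts (mapK K P)).card = q)
    (A : (Fin n → ℤ) → Prop) {G : Set ℚ} (hG : G.Finite)
    (hA : ∀ z : Fin n → ℤ, (∀ i, z i ≠ 0) → Prim z → ∀ x r : ℚ, x ∉ G →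
      (∀ i, (z i : ℚ) = r * (P i).eval x) → A z) :
    (∀ κ ε : ℝ, 0 < κ → 0 < ε → ∃ C : ℝ, 0 < C ∧ ∀ X : ℝ, 1 ≤ X →
      (TAB P A X (X ^ κ)).Finite ∧
      ((TAB P A X (X ^ κ)).ncard : ℝ) ≤ C * X ^ (1 / S1 (mapK K P) + ε)) ∧
    (0 < S2 (mapK K P) → ∀ ε : ℝ, 0 < ε → ∃ C : ℝ, 0 < C ∧ ∀ X : ℝ, 1 ≤ X →
      (TA P A X).Finite ∧ ((TA P A X).ncard : ℝ) ≤ C * X ^ (1 / S2 (mapK K P) + ε)) ∧
    (∀ κ : ℝ, (D : ℝ) / q < κ → ∃ c : ℝ, 0 < c ∧ ∃ X₀ : ℝ, 1 ≤ X₀ ∧ ∀ X : ℝ, X₀ ≤ X →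
      c * X ^ (2 / (q : ℝ)) ≤ ((TAB P A X (X ^ κ)).ncard : ℝ)) ∧
    ((∀ a ∈ pts (mapK K P), dgr a ≤ 2) → (rat (mapK K P)).card ≠ 1 → ∀ κ : ℝ, (D : ℝ) / q < κ →
      ∀ δ : ℝ, 0 < δ → ∃ X₀ : ℝ, 1 ≤ X₀ ∧ ∀ X : ℝ, X₀ ≤ X →
        X ^ (2 / (q : ℝ) - δ) ≤ ((TAB P A X (X ^ κ)).ncard : ℝ) ∧
        ((TAB P A X (X ^ κ)).ncard : ℝ) ≤ X ^ (2 / (q : ℝ) + δ)) := by
  classical
  have hn : 0 < n := by
    obtain ⟨i, -⟩ := hdeg'
    exact i.pos
  have hPK : ∀ i, mapK K P i ≠ 0 := fun i => by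
    unfold mapK
    rw [Ne, Polynomial.map_eq_zero]
    exact hP i
  have hdegK : ∀ i, (mapK K P i).natDegree ≤ D := fun i => by rw [mapK_deg]; exact hdeg i
  have hdegK' : ∃ i, (mapK K P i).natDegree = D := by
    obtain ⟨i, hi⟩ := hdeg'
    exact ⟨i, by rw [mapK_deg]; exact hi⟩
  obtain ⟨b1, hb1⟩ := rad_cmp (K := K)
  obtain ⟨b2, hb2⟩ := ht_cmp (K := K) hP hu hdeg hdeg'
  obtain ⟨r, hr⟩ : ∃ r : ℚ → ℝ, r = fun x => Real.log (rz (gx P x)) := ⟨_, rfl⟩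
  obtain ⟨h, hh⟩ : ∃ h : ℚ → ℝ, h = fun x => Real.log (mz (gx P x)) := ⟨_, rfl⟩
  have hrc : ∀ x : ℚ, (∀ i, (mapK K P i).eval (x : K) ≠ 0) →
      |r x - rdK (mapK K P) (x : K) / (Module.finrank ℚ K : ℝ)| ≤ max |b1| |b2| := by
    intro x hx
    have hx' := (eval_mapK_ne P x).1 hx
    obtain ⟨s, hs0, h1, h2⟩ := gx_spec (vec_ne_of hn hx')
    rw [hr]
    refine (hb1 n (mapK K P) (gx P x) (x : K) (s : K) (gx_nz hn hx') h2
      (by rwa [Ne, Rat.cast_eq_zero]) (fun i => ?_)).trans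
      ((le_abs_self b1).trans (le_max_left _ _))
    rw [eval_mapK, ← Rat.cast_mul, ← h1 i, Rat.cast_intCast]
  have hhc : ∀ x : ℚ, (∀ i, (mapK K P i).eval (x : K) ≠ 0) →
      |h x - Height.logHeight (fun i => (mapK K P i).eval (x : K)) /
        (Module.finrank ℚ K : ℝ)| ≤ max |b1| |b2| := by
    intro x hx
    have hx' := (eval_mapK_ne P x).1 hx
    obtain ⟨s, hs0, h1, h2⟩ := gx_spec (vec_ne_of hn hx')
    rw [hh]
    show |Real.log (mz (gx P x)) - _| ≤ _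
    rw [← log_mz hn h2 h1 hs0]
    exact (hb2 x).trans ((le_abs_self b2).trans (le_max_right _ _))
  obtain ⟨p1, p2, p3, -⟩ := package_shift hPK hs (mapK_u hu) hD hdegK hdegK' hq r h
    (max |b1| |b2|) hrc hhc
  -- tuples and parameters
  have up : ∀ z : Fin n → ℤ, (∀ i, z i ≠ 0) → Prim z → ∀ x s : ℚ,
      (∀ i, (z i : ℚ) = s * (P i).eval x) → (∀ i, (P i).eval x ≠ 0) ∧
        (z = gx P x ∨ z = - gx P x) := by
    intro z hz hp x s hzx
    have hx' : ∀ i, (P i).eval x ≠ 0 := by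
      intro i hi
      have h1 := hzx i
      rw [hi, mul_zero] at h1
      exact hz i (by exact_mod_cast h1)
    refine ⟨hx', ?_⟩
    obtain ⟨t, ht0, h1, h2⟩ := gx_spec (vec_ne_of hn hx')
    refine Tuples_prim hp h2 (q := s / t) fun i => ?_
    rw [hzx i, h1 i]
    field_simp
  have sub1 : ∀ X : ℝ, 0 < X → TA P A X ⊆ gx P '' ParG (mapK K P) r X ∪
      Neg.neg '' (gx P '' ParG (mapK K P) r X) := by
    rintro X hX z ⟨hz, hp, ⟨x, s, hzx⟩, -, hrz⟩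
    obtain ⟨hx', h1⟩ := up z hz hp x s hzx
    have h2 : rz (gx P x) = rz z := by
      rcases h1 with h1 | h1
      · rw [h1]
      · rw [h1, rz_neg]
    have h3 : x ∈ ParG (mapK K P) r X := by
      refine ⟨(eval_mapK_ne P x).2 hx', ?_⟩
      rw [hr]
      show Real.log (rz (gx P x)) ≤ _
      rw [h2]
      exact Real.log_le_log (rz_pos z) hrz
    rcases h1 with h1 | h1
    · exact Or.inl ⟨x, h3, h1.symm⟩
    · exact Or.inr ⟨_, ⟨x, h3, rfl⟩, h1.symm⟩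
  have sub2 : ∀ κ X : ℝ, 1 ≤ X → TAB P A X (X ^ κ) ⊆
      gx P '' ParH (mapK K P) r h X (κ * Real.log X) ∪
      Neg.neg '' (gx P '' ParH (mapK K P) r h X (κ * Real.log X)) := by
    rintro κ X hX z ⟨⟨hz, hp, ⟨x, s, hzx⟩, -, hrz⟩, hmz⟩
    have hXp : 0 < X := by linarith
    obtain ⟨hx', h1⟩ := up z hz hp x s hzx
    have h2 : rz (gx P x) = rz z := by
      rcases h1 with h1 | h1
      · rw [h1]
      · rw [h1, rz_neg]
    have h2' : mz (gx P x) = mz z := by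
      rcases h1 with h1 | h1
      · rw [h1]
      · rw [h1, mz_neg]
    have h3 : x ∈ ParH (mapK K P) r h X (κ * Real.log X) := by
      refine ⟨⟨(eval_mapK_ne P x).2 hx', ?_⟩, ?_⟩
      · rw [hr]
        show Real.log (rz (gx P x)) ≤ _
        rw [h2]
        exact Real.log_le_log (rz_pos z) hrz
      · rw [hh]
        show Real.log (mz (gx P x)) ≤ _
        rw [h2', ← Real.log_rpow hXp]
        exact Real.log_le_log (mz_pos hn hz) hmz
    rcases h1 with h1 | h1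
    · exact Or.inl ⟨x, h3, h1.symm⟩
    · exact Or.inr ⟨_, ⟨x, h3, rfl⟩, h1.symm⟩
  have cnt : ∀ (Z : Set (Fin n → ℤ)) (S : Set ℚ), S.Finite →
      Z ⊆ gx P '' S ∪ Neg.neg '' (gx P '' S) → Z.Finite ∧ (Z.ncard : ℝ) ≤ 2 * (S.ncard : ℝ) := by
    intro Z S hS hZS
    have hfin : (gx P '' S ∪ Neg.neg '' (gx P '' S)).Finite :=
      (hS.image _).union ((hS.image _).image _)
    refine ⟨hfin.subset hZS, ?_⟩
    have h1 := Set.ncard_le_ncard hZS hfin
    have h2 := Set.ncard_union_le (gx P '' S) (Neg.neg '' (gx P '' S))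
    have h3 := Set.ncard_image_le (f := gx P) hS
    have h4 := Set.ncard_image_le (f := (Neg.neg : (Fin n → ℤ) → (Fin n → ℤ)))
      (hS.image (gx P))
    have h5 : Z.ncard ≤ 2 * S.ncard := by omega
    exact_mod_cast h5
  have hUp : ∀ κ ε : ℝ, 0 < κ → 0 < ε → ∃ C : ℝ, 0 < C ∧ ∀ X : ℝ, 1 ≤ X →
      (TAB P A X (X ^ κ)).Finite ∧
      ((TAB P A X (X ^ κ)).ncard : ℝ) ≤ C * X ^ (1 / S1 (mapK K P) + ε) := by
    intro κ ε hκ hε
    obtain ⟨C, hC, hmain⟩ := p1 κ ε hκ hε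
    refine ⟨2 * C, by positivity, fun X hX => ?_⟩
    obtain ⟨h3, h4⟩ := hmain X hX
    obtain ⟨h5, h6⟩ := cnt _ _ h3 (sub2 κ X hX)
    refine ⟨h5, ?_⟩
    linarith
  have hLow : ∀ κ : ℝ, (D : ℝ) / q < κ → ∃ c : ℝ, 0 < c ∧ ∃ X₀ : ℝ, 1 ≤ X₀ ∧ ∀ X : ℝ, X₀ ≤ X →
      c * X ^ (2 / (q : ℝ)) ≤ ((TAB P A X (X ^ κ)).ncard : ℝ) := by
    intro κ hκ
    have hDR : (0 : ℝ) < D := by exact_mod_cast hD
    have hq2 : 2 ≤ q := by
      rw [← hq]
      exact two_le_pts hPK hs (mapK_u hu) hD hdegK'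
    have hq0 : (0 : ℝ) < q := by exact_mod_cast (by omega : 0 < q)
    have hκ0 : 0 < κ := lt_of_le_of_lt (by positivity) hκ
    obtain ⟨c, hc, X0, hX0, hlow⟩ := p3 κ hκ
    obtain ⟨C, hC, hmain⟩ := p1 κ 1 hκ0 one_pos
    obtain ⟨C', hC', hmain'⟩ := hUp κ 1 hκ0 one_pos
    obtain ⟨g, hg⟩ : ∃ g : ℝ, g = (G.ncard : ℝ) := ⟨_, rfl⟩
    have hg0 : 0 ≤ g := by rw [hg]; exact Nat.cast_nonneg _
    refine ⟨c / (2 * D), by positivity, max X0 ((2 * g / c) ^ ((q : ℝ) / 2)),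
      hX0.trans (le_max_left _ _), fun X hX => ?_⟩
    have hXa : X0 ≤ X := (le_max_left _ _).trans hX
    have hXb : (2 * g / c) ^ ((q : ℝ) / 2) ≤ X := (le_max_right _ _).trans hX
    have hX1 : 1 ≤ X := hX0.trans hXa
    have hXp : 0 < X := by linarith
    have h3 := hlow X hXa
    have h4 := (hmain X hX1).1
    obtain ⟨S, hS⟩ : ∃ S : Set ℚ, S = ParH (mapK K P) r h X (κ * Real.log X) := ⟨_, rfl⟩
    rw [← hS] at h3 h4
    have h5 : (S \ G).ncard ≤ D * (gx P '' (S \ G)).ncard := by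
      refine fibre' hn hu hD hdeg hdeg' (h4.diff) fun x hx => ?_
      have h6 := hx.1
      rw [hS] at h6
      exact (eval_mapK_ne P x).1 h6.1.1
    have h6 : gx P '' (S \ G) ⊆ TAB P A X (X ^ κ) := by
      rintro z ⟨x, ⟨hxS, hxG⟩, rfl⟩
      rw [hS] at hxS
      obtain ⟨⟨g1, g2⟩, g3⟩ := hxS
      have hx' := (eval_mapK_ne P x).1 g1
      obtain ⟨s, hs0, k1, k2⟩ := gx_spec (vec_ne_of hn hx')
      have k3 := gx_nz hn hx'
      rw [hr] at g2
      rw [hh] at g3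
      refine ⟨⟨k3, k2, ⟨x, s, k1⟩, hA _ k3 k2 x s hxG k1, ?_⟩, ?_⟩
      · exact (Real.log_le_log_iff (rz_pos _) hXp).1 g2
      · change Real.log (mz (gx P x)) ≤ _ at g3
        rw [← Real.log_rpow hXp] at g3
        exact (Real.log_le_log_iff (mz_pos hn k3) (Real.rpow_pos_of_pos hXp _)).1 g3
    have h7 := Set.ncard_le_ncard h6 (hmain' X hX1).1
    have h8 : S.ncard ≤ (S \ G).ncard + G.ncard := Set.ncard_le_ncard_sdiff_add_ncard S G hG
    have h9 : (S.ncard : ℝ) ≤ D * ((TAB P A X (X ^ κ)).ncard : ℝ) + g := by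
      rw [hg]
      have h10 : S.ncard ≤ D * (TAB P A X (X ^ κ)).ncard + G.ncard :=
        h8.trans (Nat.add_le_add_right (h5.trans (Nat.mul_le_mul_left D h7)) _)
      exact_mod_cast h10
    have h10 : g ≤ c / 2 * X ^ (2 / (q : ℝ)) := by
      have h11 := Real.rpow_le_rpow (by positivity) hXb (by positivity : 0 ≤ 2 / (q : ℝ))
      rw [← Real.rpow_mul (by positivity), div_mul_div_comm, mul_comm (q : ℝ) 2,
        div_self (by positivity), Real.rpow_one, div_le_iff₀ hc] at h11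
      linarith
    rw [div_mul_eq_mul_div, div_le_iff₀ (by positivity)]
    nlinarith
  refine ⟨hUp, ?_, hLow, ?_⟩
  · intro hS2 ε hε
    obtain ⟨C, hC, hmain⟩ := p2 hS2 ε hε
    refine ⟨2 * C, by positivity, fun X hX => ?_⟩
    obtain ⟨h3, h4⟩ := hmain X hX
    obtain ⟨h5, h6⟩ := cnt _ _ h3 (sub1 X (by linarith))
    refine ⟨h5, ?_⟩
    linarith
  · intro hd h1 κ hκ δ hδ
    have hq2 : 2 ≤ q := by
      rw [← hq]
      exact two_le_pts hPK hs (mapK_u hu) hD hdegK'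
    have hq0 : (0 : ℝ) < q := by exact_mod_cast (by omega : 0 < q)
    have hκ0 : 0 < κ := lt_of_le_of_lt (by positivity) hκ
    obtain ⟨C, hC, hfin⟩ := hUp κ (δ / 2) hκ0 (by positivity)
    obtain ⟨c, hc, X0, hX0, hlow⟩ := hLow κ hκ
    have hS : 1 / S1 (mapK K P) = 2 / (q : ℝ) := by
      rw [S1_two hd h1, hq]
      field_simp
    rw [hS] at hfin
    refine ⟨max X0 (max (C ^ (2 / δ)) ((1 / c) ^ (1 / δ))), hX0.trans (le_max_left _ _),
      fun X hX => ?_⟩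
    have hXa : X0 ≤ X := (le_max_left _ _).trans hX
    have hXb : C ^ (2 / δ) ≤ X := (le_max_left _ _).trans ((le_max_right _ _).trans hX)
    have hXc : (1 / c) ^ (1 / δ) ≤ X := (le_max_right _ _).trans ((le_max_right _ _).trans hX)
    have hX1 : 1 ≤ X := hX0.trans hXa
    have hXp : 0 < X := by linarith
    constructor
    · refine le_trans ?_ (hlow X hXa)
      have h3 : 1 / c ≤ X ^ δ := by
        have h4 := Real.rpow_le_rpow (by positivity) hXc hδ.le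
        rw [← Real.rpow_mul (by positivity), one_div_mul_cancel hδ.ne', Real.rpow_one] at h4
        exact h4
      rw [Real.rpow_sub hXp, div_le_iff₀ (by positivity)]
      have h5 : 1 ≤ c * X ^ δ := by
        rw [div_le_iff₀ hc] at h3
        linarith
      have h6 : 0 < X ^ (2 / (q : ℝ)) := by positivity
      nlinarith
    · refine (hfin X hX1).2.trans ?_
      have h3 : C ≤ X ^ (δ / 2) := by
        have h4 := Real.rpow_le_rpow (by positivity) hXb (by positivity : 0 ≤ δ / 2)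
        rw [← Real.rpow_mul hC.le, div_mul_div_comm, mul_comm δ 2, div_self (by positivity),
          Real.rpow_one] at h4
        exact h4
      calc C * X ^ (2 / (q : ℝ) + δ / 2) ≤ X ^ (δ / 2) * X ^ (2 / (q : ℝ) + δ / 2) :=
            mul_le_mul_of_nonneg_right h3 (by positivity)
        _ = X ^ (2 / (q : ℝ) + δ) := by
            rw [← Real.rpow_add hXp]
            congr 1
            ring

end Pool.Agent.Q10.KZ
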