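import Pool.Agent.Q10.KZ5

/-!
Integral tuples on a curve over the rational numbers: the exponents in terms of the factors over
the rational numbers
-/

set_option autoImplicit false

namespace Pool.Agent.Q10.KZ

open NumberField IsDedekindDomain Finset Polynomial
open Pool.Agent.H691R3 Pool.Agent.Q10.KY Pool.Agent.Q10.KV
open UniqueFactorizationMonoid

variable {n : ℕ}

theorem exists_split (f : ℚ[X]) : ∃ (K : Type) (_ : Field K) (_ : NumberField K),
    (f.map (algebraMap ℚ K)).Splits := by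
  have h2 : NumberField f.SplittingField :=
    { to_charZero := inferInstance
      to_finiteDimensional := by
        have h3 : FiniteDimensional ℚ f.SplittingField := inferInstance
        convert h3 }
  refine ⟨f.SplittingField, inferInstance, h2, ?_⟩
  have key : ∀ φ ψ : ℚ →+* f.SplittingField, (f.map φ).Splits → (f.map ψ).Splits :=
    fun φ ψ h => by rwa [Subsingleton.elim ψ φ]
  exact key _ _ (SplittingField.splits f)

open Classical in
/-- the monic irreducible factors over `ℚ` of the product -/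
noncomputable def fac (P : Fin n → ℚ[X]) : Finset ℚ[X] := (normalizedFactors (∏ i, P i)).toFinset

theorem mem_fac {P : Fin n → ℚ[X]} (hP : ∀ i, P i ≠ 0) {g : ℚ[X]} :
    g ∈ fac P ↔ Irreducible g ∧ g.Monic ∧ g ∣ ∏ i, P i := by
  classical
  have h0 : ∏ i, P i ≠ 0 := Finset.prod_ne_zero_iff.2 fun i _ => hP i
  unfold fac
  rw [Multiset.mem_toFinset, mem_normalizedFactors_iff' h0]
  constructor
  · rintro ⟨h1, h2, h3⟩
    refine ⟨h1, ?_, h3⟩
    rw [← h2]
    exact monic_normalize h1.ne_zero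
  · rintro ⟨h1, h2, h3⟩
    exact ⟨h1, h2.normalize_eq_self, h3⟩

/-- degrees unequal -/
def Uneq (P : Fin n → ℚ[X]) : Prop := ∃ i j, (P i).natDegree < (P j).natDegree

open Classical in
/-- the number of the rational zeros -/
noncomputable def nL (P : Fin n → ℚ[X]) : ℕ :=
  ((fac P).filter fun g => g.natDegree = 1).card + if Uneq P then 1 else 0

open Classical in
/-- the number of all zeros -/
noncomputable def nQ (P : Fin n → ℚ[X]) : ℕ :=
  ∑ g ∈ fac P, g.natDegree + if Uneq P then 1 else 0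

open Classical in
/-- the exponent for bounded heights -/
noncomputable def T1 (P : Fin n → ℚ[X]) : ℝ :=
  (((fac P).filter fun g => 2 ≤ g.natDegree).card : ℝ) + if 2 ≤ nL P then (nL P : ℝ) / 2 else 0

open Classical in
/-- the exponent for all heights -/
noncomputable def T2 (P : Fin n → ℚ[X]) : ℝ :=
  (((fac P).filter fun g => 3 ≤ g.natDegree).card : ℝ) + if 3 ≤ nL P then (nL P : ℝ) / 2 else 0

section
variable {K : Type} [Field K] [NumberField K]

omit [NumberField K] in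
theorem sum_pts (P : Fin n → K[X]) [Decidable (Unequal P)] (f : Option K → ℝ) :
    ∑ a ∈ pts P, f a = ∑ r ∈ rts P, f (some r) + if Unequal P then f none else 0 := by
  classical
  unfold pts
  rw [Finset.sum_union]
  · rw [Finset.sum_image fun a _ b _ h => Option.some.inj h]
    congr 1
    split_ifs with h
    · rw [Finset.sum_singleton]
    · rw [Finset.sum_empty]
  · rw [Finset.disjoint_left]
    intro a ha hb
    obtain ⟨r, -, rfl⟩ := Finset.mem_image.1 ha
    split_ifs at hb with h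
    · simp at hb
    · simp at hb

theorem mem_rts_mapK {P : Fin n → ℚ[X]} (hP : ∀ i, P i ≠ 0) {r : K} :
    r ∈ rts (mapK K P) ↔ aeval r (∏ i, P i) = 0 := by
  classical
  have h0 : ∏ i, P i ≠ 0 := Finset.prod_ne_zero_iff.2 fun i _ => hP i
  have e : ∏ i, mapK K P i = (∏ i, P i).map (algebraMap ℚ K) := by
    rw [Polynomial.map_prod]
    rfl
  unfold rts
  rw [e, Multiset.mem_toFinset, mem_roots (by rwa [Ne, Polynomial.map_eq_zero]), IsRoot.def,
    eval_map_algebraMap]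

/-- the sum over the zeros of a function of the degree -/
theorem sum_rts {P : Fin n → ℚ[X]} (hP : ∀ i, P i ≠ 0)
    (hs : ((∏ i, P i).map (algebraMap ℚ K)).Splits) (φ : ℕ → ℝ) :
    ∑ r ∈ rts (mapK K P), φ (minpoly ℚ r).natDegree =
      ∑ g ∈ fac P, (g.natDegree : ℝ) * φ g.natDegree := by
  classical
  have h0 : ∏ i, P i ≠ 0 := Finset.prod_ne_zero_iff.2 fun i _ => hP i
  have hmaps : ∀ r ∈ rts (mapK K P), minpoly ℚ r ∈ fac P := by
    intro r hr
    rw [mem_rts_mapK hP] at hr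
    have hi : IsIntegral ℚ r := Algebra.IsIntegral.isIntegral r
    exact (mem_fac hP).2 ⟨minpoly.irreducible hi, minpoly.monic hi, minpoly.dvd ℚ r hr⟩
  rw [← Finset.sum_fiberwise_of_maps_to hmaps]
  refine Finset.sum_congr rfl fun g hg => ?_
  obtain ⟨h1, h2, h3⟩ := (mem_fac hP).1 hg
  have hfil : (rts (mapK K P)).filter (fun r => minpoly ℚ r = g) =
      (g.map (algebraMap ℚ K)).roots.toFinset := by
    ext r
    rw [Finset.mem_filter, Multiset.mem_toFinset, mem_roots (by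
      rw [Ne, Polynomial.map_eq_zero]; exact h1.ne_zero), IsRoot.def, eval_map_algebraMap,
      mem_rts_mapK hP]
    constructor
    · rintro ⟨-, h4⟩
      rw [← h4]
      exact minpoly.aeval ℚ r
    · intro h4
      refine ⟨?_, (minpoly.eq_of_irreducible_of_monic h1 h4 h2).symm⟩
      obtain ⟨k, hk⟩ := h3
      rw [hk, map_mul, h4, zero_mul]
  have hcard : (g.map (algebraMap ℚ K)).roots.toFinset.card = g.natDegree := by
    have h4 : (g.map (algebraMap ℚ K)).roots.Nodup := by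
      refine nodup_roots ?_
      exact h1.separable.map
    rw [Multiset.toFinset_card_of_nodup h4]
    have h5 : (g.map (algebraMap ℚ K)).Splits := by
      refine hs.of_dvd ?_ (Polynomial.map_dvd (algebraMap ℚ K) h3)
      rwa [Ne, Polynomial.map_eq_zero]
    rw [← h5.natDegree_eq_card_roots, natDegree_map]
  rw [Finset.sum_congr rfl fun r hr => by rw [(Finset.mem_filter.1 hr).2], Finset.sum_const,
    nsmul_eq_mul, hfil, hcard]

theorem unequal_iff (P : Fin n → ℚ[X]) : Unequal (mapK K P) ↔ Uneq P := by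
  unfold Unequal Uneq
  refine exists_congr fun i => exists_congr fun j => ?_
  rw [mapK_deg, mapK_deg]

/-- the sum over all points of a function of the degree -/
theorem sum_pts_deg {P : Fin n → ℚ[X]} (hP : ∀ i, P i ≠ 0)
    (hs : ((∏ i, P i).map (algebraMap ℚ K)).Splits) [Decidable (Uneq P)] (φ : ℕ → ℝ) :
    ∑ a ∈ pts (mapK K P), φ (dgr a) =
      ∑ g ∈ fac P, (g.natDegree : ℝ) * φ g.natDegree + if Uneq P then φ 1 else 0 := by
  classical
  rw [sum_pts (mapK K P) fun a => φ (dgr a)]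
  congr 1
  · exact sum_rts hP hs φ
  · simp only [unequal_iff]
    rfl

theorem card_pts {P : Fin n → ℚ[X]} (hP : ∀ i, P i ≠ 0)
    (hs : ((∏ i, P i).map (algebraMap ℚ K)).Splits) : (pts (mapK K P)).card = nQ P := by
  classical
  have h := sum_pts_deg hP hs fun _ => 1
  rw [Finset.sum_const, nsmul_eq_mul, mul_one] at h
  simp only [mul_one] at h
  have h1 : ((nQ P : ℕ) : ℝ) = ((pts (mapK K P)).card : ℝ) := by
    rw [h]
    unfold nQ
    push_cast
    rfl
  exact_mod_cast h1.symm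

theorem card_rat {P : Fin n → ℚ[X]} (hP : ∀ i, P i ≠ 0)
    (hs : ((∏ i, P i).map (algebraMap ℚ K)).Splits) : (rat (mapK K P)).card = nL P := by
  classical
  have h := sum_pts_deg hP hs fun d => if d = 1 then 1 else 0
  have e1 : ∑ a ∈ pts (mapK K P), (if dgr a = 1 then (1 : ℝ) else 0) =
      ((rat (mapK K P)).card : ℝ) := by
    unfold rat
    rw [Finset.card_filter]
    push_cast
    rfl
  have e2 : ∑ g ∈ fac P, (g.natDegree : ℝ) * (if g.natDegree = 1 then (1 : ℝ) else 0) =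
      (((fac P).filter fun g => g.natDegree = 1).card : ℝ) := by
    rw [Finset.card_filter]
    push_cast
    refine Finset.sum_congr rfl fun g _ => ?_
    split_ifs with h1
    · rw [h1]; simp
    · simp
  rw [e1, e2, if_pos rfl] at h
  have h1 : ((nL P : ℕ) : ℝ) = ((rat (mapK K P)).card : ℝ) := by
    rw [h]
    unfold nL
    push_cast
    rfl
  exact_mod_cast h1.symm

theorem sum_inv {P : Fin n → ℚ[X]} (hP : ∀ i, P i ≠ 0)
    (hs : ((∏ i, P i).map (algebraMap ℚ K)).Splits) {k : ℕ} (hk : 2 ≤ k)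
    [DecidablePred fun a : Option K => k ≤ dgr a]
    [DecidablePred fun g : ℚ[X] => k ≤ g.natDegree] :
    ∑ a ∈ (pts (mapK K P)).filter (fun a => k ≤ dgr a), 1 / (dgr a : ℝ) =
      (((fac P).filter fun g => k ≤ g.natDegree).card : ℝ) := by
  classical
  obtain ⟨φ, hφ⟩ : ∃ φ : ℕ → ℝ, φ = fun d => if k ≤ d then 1 / (d : ℝ) else 0 := ⟨_, rfl⟩
  have hφ1 : ∀ d : ℕ, k ≤ d → φ d = 1 / (d : ℝ) := fun d hd => by rw [hφ]; exact if_pos hd
  have hφ0 : ∀ d : ℕ, ¬ k ≤ d → φ d = 0 := fun d hd => by rw [hφ]; exact if_neg hd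
  have h := sum_pts_deg hP hs φ
  have e1 : ∑ a ∈ (pts (mapK K P)).filter (fun a => k ≤ dgr a), 1 / (dgr a : ℝ) =
      ∑ a ∈ pts (mapK K P), φ (dgr a) := by
    rw [Finset.sum_filter]
    refine Finset.sum_congr rfl fun a _ => ?_
    split_ifs with hka
    · exact (hφ1 _ hka).symm
    · exact (hφ0 _ hka).symm
  rw [e1, h]
  have e2 : ∑ g ∈ fac P, (g.natDegree : ℝ) * φ g.natDegree =
      (((fac P).filter fun g => k ≤ g.natDegree).card : ℝ) := by
    rw [Finset.card_filter]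
    push_cast
    refine Finset.sum_congr rfl fun g _ => ?_
    split_ifs with h1
    · have h2 : (g.natDegree : ℝ) ≠ 0 := by
        have : g.natDegree ≠ 0 := by omega
        exact_mod_cast this
      rw [hφ1 _ h1, mul_one_div_cancel h2]
    · rw [hφ0 _ h1, mul_zero]
  rw [e2, hφ0 1 (by omega), ite_self, add_zero]

theorem S1_eq {P : Fin n → ℚ[X]} (hP : ∀ i, P i ≠ 0)
    (hs : ((∏ i, P i).map (algebraMap ℚ K)).Splits) : S1 (mapK K P) = T1 P := by
  classical
  unfold S1 T1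
  rw [card_rat hP hs, sum_inv hP hs le_rfl]

theorem S2_eq {P : Fin n → ℚ[X]} (hP : ∀ i, P i ≠ 0)
    (hs : ((∏ i, P i).map (algebraMap ℚ K)).Splits) : S2 (mapK K P) = T2 P := by
  classical
  unfold S2 T2
  rw [card_rat hP hs, sum_inv hP hs (by norm_num)]

theorem dgr_le {P : Fin n → ℚ[X]} (hP : ∀ i, P i ≠ 0) {k : ℕ} (hk : 1 ≤ k)
    (h : ∀ g ∈ fac P, g.natDegree ≤ k) : ∀ a ∈ pts (mapK K P), dgr a ≤ k := by
  intro a ha
  cases a with
  | none => exact hk
  | some r =>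
    rw [mem_pts_some, mem_rts_mapK hP] at ha
    have hi : IsIntegral ℚ r := Algebra.IsIntegral.isIntegral r
    exact h _ ((mem_fac hP).2 ⟨minpoly.irreducible hi, minpoly.monic hi, minpoly.dvd ℚ r ha⟩)

end

/-- **The packaged theorem for integral tuples.** -/
theorem tuplesQ {P : Fin n → ℚ[X]} (hP : ∀ i, P i ≠ 0)
    (hu : ∃ u : Fin n → ℚ[X], ∑ i, u i * P i = 1) {D : ℕ} (hD : 1 ≤ D)
    (hdeg : ∀ i, (P i).natDegree ≤ D) (hdeg' : ∃ i, (P i).natDegree = D)
    (A : (Fin n → ℤ) → Prop) {G : Set ℚ} (hG : G.Finite)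
    (hA : ∀ z : Fin n → ℤ, (∀ i, z i ≠ 0) → Pool.Agent.Y557.NF.Prim z → ∀ x r : ℚ, x ∉ G →
      (∀ i, (z i : ℚ) = r * (P i).eval x) → A z) :
    (∀ κ ε : ℝ, 0 < κ → 0 < ε → ∃ C : ℝ, 0 < C ∧ ∀ X : ℝ, 1 ≤ X →
      (TAB P A X (X ^ κ)).Finite ∧
      ((TAB P A X (X ^ κ)).ncard : ℝ) ≤ C * X ^ (1 / T1 P + ε)) ∧
    (0 < T2 P → ∀ ε : ℝ, 0 < ε → ∃ C : ℝ, 0 < C ∧ ∀ X : ℝ, 1 ≤ X →
      (TA P A X).Finite ∧ ((TA P A X).ncard : ℝ) ≤ C * X ^ (1 / T2 P + ε)) ∧
    (∀ κ : ℝ, (D : ℝ) / nQ P < κ → ∃ c : ℝ, 0 < c ∧ ∃ X₀ : ℝ, 1 ≤ X₀ ∧ ∀ X : ℝ, X₀ ≤ X →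
      c * X ^ (2 / (nQ P : ℝ)) ≤ ((TAB P A X (X ^ κ)).ncard : ℝ)) ∧
    ((∀ g ∈ fac P, g.natDegree ≤ 2) → nL P ≠ 1 → ∀ κ : ℝ, (D : ℝ) / nQ P < κ →
      ∀ δ : ℝ, 0 < δ → ∃ X₀ : ℝ, 1 ≤ X₀ ∧ ∀ X : ℝ, X₀ ≤ X →
        X ^ (2 / (nQ P : ℝ) - δ) ≤ ((TAB P A X (X ^ κ)).ncard : ℝ) ∧
        ((TAB P A X (X ^ κ)).ncard : ℝ) ≤ X ^ (2 / (nQ P : ℝ) + δ)) := by
  obtain ⟨K, _, _, hs⟩ := exists_split (∏ i, P i)
  have h0 : ∏ i, P i ≠ 0 := Finset.prod_ne_zero_iff.2 fun i _ => hP i
  have hs' : ∀ i, (mapK K P i).Splits := fun i => by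
    refine hs.of_dvd ?_ (Polynomial.map_dvd (algebraMap ℚ K)
      (Finset.dvd_prod_of_mem P (Finset.mem_univ i)))
    rwa [Ne, Polynomial.map_eq_zero]
  obtain ⟨p1, p2, p3, p4⟩ := tuplesK (K := K) hP hu hD hdeg hdeg' hs' (card_pts hP hs) A hG hA
  rw [S1_eq hP hs] at p1
  rw [S2_eq hP hs] at p2
  rw [card_rat hP hs] at p4
  exact ⟨p1, p2, p3, fun hd h1 => p4 (dgr_le hP (by norm_num) hd) h1⟩

end Pool.Agent.Q10.KZ
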