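import Pool.Agent.Q10.KZ6

/-!
Integral tuples on a curve over the rational numbers: the tuples which violate an inequality
`max |z i| ≤ c rad ^ M`
-/

set_option autoImplicit false

namespace Pool.Agent.Q10.KZ

open Finset Polynomial
open Pool.Agent.Y557.NF (Prim rz rz_pos mz)

variable {n : ℕ}

/-- all tuples with property `A` on a curve -/
def AA (P : Fin n → ℚ[X]) (A : (Fin n → ℤ) → Prop) (B : ℝ) : Set (Fin n → ℤ) :=
  {z | (∀ i, z i ≠ 0) ∧ Prim z ∧ (∃ x r : ℚ, ∀ i, (z i : ℚ) = r * (P i).eval x) ∧ A z ∧ mz z ≤ B}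

/-- those which violate the inequality -/
def VA (P : Fin n → ℚ[X]) (A : (Fin n → ℤ) → Prop) (M c B : ℝ) : Set (Fin n → ℤ) :=
  {z | z ∈ AA P A B ∧ c * rz z ^ M < mz z}

theorem le_mz (z : Fin n → ℤ) (i : Fin n) : |(z i : ℝ)| ≤ mz z := by
  unfold mz
  have h : |z i| ≤ ⨆ i, |z i| := le_ciSup (f := fun i => |z i|) (Set.finite_range _).bddAbove i
  exact_mod_cast h

theorem mz_le_iff (hn : 0 < n) {z : Fin n → ℤ} {b : ℝ} : mz z ≤ b ↔ ∀ i, |(z i : ℝ)| ≤ b := by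
  constructor
  · intro h i
    exact (le_mz z i).trans h
  · intro h
    have : Nonempty (Fin n) := ⟨⟨0, hn⟩⟩
    unfold mz
    obtain ⟨i, hi⟩ := exists_eq_ciSup_of_finite (f := fun i => |z i|)
    rw [← hi]
    push_cast
    exact h i

theorem lt_mz_iff (hn : 0 < n) {z : Fin n → ℤ} {b : ℝ} : b < mz z ↔ ∃ i, b < |(z i : ℝ)| := by
  rw [← not_le, mz_le_iff hn]
  push Not
  rfl

theorem aa_finite (P : Fin n → ℚ[X]) (A : (Fin n → ℤ) → Prop) (B : ℝ) : (AA P A B).Finite := by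
  have h : (Set.Icc (fun _ : Fin n => -⌈B⌉) (fun _ : Fin n => ⌈B⌉)).Finite := Set.finite_Icc _ _
  refine h.subset ?_
  rintro z ⟨-, -, -, -, h2⟩
  have h3 : ∀ i, |z i| ≤ ⌈B⌉ := by
    intro i
    have h4 : (|z i| : ℝ) ≤ B := (le_mz z i).trans h2
    have h5 : ((|z i| : ℤ) : ℝ) ≤ (⌈B⌉ : ℝ) := by
      push_cast
      exact h4.trans (Int.le_ceil B)
    exact_mod_cast h5
  exact ⟨fun i => (abs_le.1 (h3 i)).1, fun i => (abs_le.1 (h3 i)).2⟩

theorem nQ_two {P : Fin n → ℚ[X]} (hP : ∀ i, P i ≠ 0)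
    (hu : ∃ u : Fin n → ℚ[X], ∑ i, u i * P i = 1) {D : ℕ} (hD : 1 ≤ D)
    (hdeg' : ∃ i, (P i).natDegree = D) : 2 ≤ nQ P := by
  obtain ⟨K, _, _, hs⟩ := exists_split (∏ i, P i)
  have h0 : ∏ i, P i ≠ 0 := Finset.prod_ne_zero_iff.2 fun i _ => hP i
  have hs' : ∀ i, (mapK K P i).Splits := fun i => by
    refine hs.of_dvd ?_ (Polynomial.map_dvd (algebraMap ℚ K)
      (Finset.dvd_prod_of_mem P (Finset.mem_univ i)))
    rwa [Ne, Polynomial.map_eq_zero]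
  have hPK : ∀ i, mapK K P i ≠ 0 := fun i => by
    unfold mapK
    rw [Ne, Polynomial.map_eq_zero]
    exact hP i
  have hdegK' : ∃ i, (mapK K P i).natDegree = D := by
    obtain ⟨i, hi⟩ := hdeg'
    exact ⟨i, by rw [mapK_deg]; exact hi⟩
  rw [← card_pts (K := K) hP hs]
  exact Pool.Agent.Q10.KY.two_le_pts hPK hs' (mapK_u hu) hD hdegK'

theorem T1_pos {P : Fin n → ℚ[X]} (hP : ∀ i, P i ≠ 0)
    (hu : ∃ u : Fin n → ℚ[X], ∑ i, u i * P i = 1) {D : ℕ} (hD : 1 ≤ D)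
    (hdeg' : ∃ i, (P i).natDegree = D) : 0 < T1 P := by
  obtain ⟨K, _, _, hs⟩ := exists_split (∏ i, P i)
  have h2 := nQ_two hP hu hD hdeg'
  rw [← card_pts (K := K) hP hs] at h2
  rw [← S1_eq (K := K) hP hs]
  exact Pool.Agent.Q10.KY.S1_pos h2

/-- **the number of the tuples which violate the inequality** -/
theorem viol {P : Fin n → ℚ[X]} (hP : ∀ i, P i ≠ 0)
    (hu : ∃ u : Fin n → ℚ[X], ∑ i, u i * P i = 1) {D : ℕ} (hD : 1 ≤ D)
    (hdeg : ∀ i, (P i).natDegree ≤ D) (hdeg' : ∃ i, (P i).natDegree = D)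
    (A : (Fin n → ℤ) → Prop) {G : Set ℚ} (hG : G.Finite)
    (hA : ∀ z : Fin n → ℤ, (∀ i, z i ≠ 0) → Pool.Agent.Y557.NF.Prim z → ∀ x r : ℚ, x ∉ G →
      (∀ i, (z i : ℚ) = r * (P i).eval x) → A z) :
    (∀ M c δ : ℝ, 0 < M → 0 < c → 0 < δ → ∃ C : ℝ, 0 < C ∧ ∀ B : ℝ, 1 ≤ B →
      ((VA P A M c B).ncard : ℝ) ≤ C * B ^ (1 / (T1 P * M) + δ)) ∧
    (∀ δ : ℝ, 0 < δ → ∃ B₀ : ℝ, ∀ B : ℝ, B₀ ≤ B →
      B ^ (2 / (D : ℝ) - δ) ≤ ((AA P A B).ncard : ℝ)) ∧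
    (∀ M c : ℝ, (D : ℝ) / (2 * T1 P) < M → 0 < c → ∃ ν : ℝ, 0 < ν ∧ ∃ B₀ : ℝ, ∀ B : ℝ, B₀ ≤ B →
      ((VA P A M c B).ncard : ℝ) ≤ B ^ (-ν) * ((AA P A B).ncard : ℝ)) := by
  obtain ⟨p1, -, p3, -⟩ := tuplesQ hP hu hD hdeg hdeg' A hG hA
  have hn : 0 < n := by
    obtain ⟨i, -⟩ := hdeg'
    exact i.pos
  have hT := T1_pos hP hu hD hdeg'
  have hq2 := nQ_two hP hu hD hdeg'
  have hq0 : (0 : ℝ) < nQ P := by exact_mod_cast (by omega : 0 < nQ P)
  have hDR : (0 : ℝ) < D := by exact_mod_cast hD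
  have v1 : ∀ M c δ : ℝ, 0 < M → 0 < c → 0 < δ → ∃ C : ℝ, 0 < C ∧ ∀ B : ℝ, 1 ≤ B →
      ((VA P A M c B).ncard : ℝ) ≤ C * B ^ (1 / (T1 P * M) + δ) := by
    intro M c δ hM hc hδ
    obtain ⟨C, hC, hmain⟩ := p1 M (M * δ) hM (by positivity)
    obtain ⟨c', hc'⟩ : ∃ c' : ℝ, c' = max 1 c⁻¹ := ⟨_, rfl⟩
    have hc'1 : 1 ≤ c' := by rw [hc']; exact le_max_left _ _
    have hc'2 : c⁻¹ ≤ c' := by rw [hc']; exact le_max_right _ _
    refine ⟨C * c' ^ (1 / (T1 P * M) + δ), by positivity, fun B hB => ?_⟩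
    have hcB : 1 ≤ c' * B := one_le_mul_of_one_le_of_one_le hc'1 hB
    obtain ⟨X, hX⟩ : ∃ X : ℝ, X = (c' * B) ^ (1 / M) := ⟨_, rfl⟩
    have hX1 : 1 ≤ X := by rw [hX]; exact Real.one_le_rpow hcB (by positivity)
    have hXM : X ^ M = c' * B := by
      rw [hX, ← Real.rpow_mul (by positivity), one_div_mul_cancel hM.ne', Real.rpow_one]
    obtain ⟨h1, h2⟩ := hmain X hX1
    have hsub : VA P A M c B ⊆ TAB P A X (X ^ M) := by
      rintro z ⟨⟨hz, hp, hzx, hAz, hzB⟩, hv⟩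
      have h3 : rz z ^ M ≤ X ^ M := by
        rw [hXM]
        have h4 : c * rz z ^ M ≤ B := (hv.le).trans hzB
        have h5 : rz z ^ M ≤ c⁻¹ * B := by
          rw [inv_mul_eq_div, le_div_iff₀ hc, mul_comm]
          exact h4
        exact h5.trans (mul_le_mul_of_nonneg_right hc'2 (by linarith))
      refine ⟨⟨hz, hp, hzx, hAz, ?_⟩, ?_⟩
      · exact (Real.rpow_le_rpow_iff (rz_pos z).le (by linarith) hM).1 h3
      · rw [hXM]
        nlinarith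
    have h3 := Set.ncard_le_ncard hsub h1
    have h4 : ((VA P A M c B).ncard : ℝ) ≤ ((TAB P A X (X ^ M)).ncard : ℝ) := by exact_mod_cast h3
    refine (h4.trans h2).trans (le_of_eq ?_)
    rw [mul_assoc, ← Real.mul_rpow (by linarith) (by linarith), hX, ← Real.rpow_mul (by positivity)]
    congr 2
    field_simp
  have v2 : ∀ δ : ℝ, 0 < δ → ∃ B₀ : ℝ, ∀ B : ℝ, B₀ ≤ B →
      B ^ (2 / (D : ℝ) - δ) ≤ ((AA P A B).ncard : ℝ) := by
    intro δ hδ
    obtain ⟨η, hη⟩ : ∃ η : ℝ, η = D * δ / 4 := ⟨_, rfl⟩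
    have hη0 : 0 < η := by rw [hη]; positivity
    obtain ⟨κ, hκ⟩ : ∃ κ : ℝ, κ = (D : ℝ) / nQ P * (1 + η) := ⟨_, rfl⟩
    have hDq : 0 < (D : ℝ) / nQ P := by positivity
    have hκ1 : (D : ℝ) / nQ P < κ := by rw [hκ]; nlinarith
    have hκ0 : 0 < κ := hDq.trans hκ1
    obtain ⟨c, hc, X0, hX0, hlow⟩ := p3 κ hκ1
    refine ⟨max (X0 ^ κ) (max 1 ((1 / c) ^ (2 / δ))), fun B hB => ?_⟩
    have hBa : X0 ^ κ ≤ B := (le_max_left _ _).trans hB
    have hBb : 1 ≤ B := (le_max_left _ _).trans ((le_max_right _ _).trans hB)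
    have hBc : (1 / c) ^ (2 / δ) ≤ B := (le_max_right _ _).trans ((le_max_right _ _).trans hB)
    have hBp : 0 < B := by linarith
    obtain ⟨X, hX⟩ : ∃ X : ℝ, X = B ^ (1 / κ) := ⟨_, rfl⟩
    have hXκ : X ^ κ = B := by
      rw [hX, ← Real.rpow_mul hBp.le, one_div_mul_cancel hκ0.ne', Real.rpow_one]
    have hX0' : X0 ≤ X := by
      have h1 := Real.rpow_le_rpow (by positivity) hBa (by positivity : 0 ≤ 1 / κ)
      rw [← Real.rpow_mul (by linarith), mul_one_div_cancel hκ0.ne', Real.rpow_one, ← hX] at h1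
      exact h1
    have h1 := hlow X hX0'
    rw [hXκ] at h1
    have hsub : TAB P A X B ⊆ AA P A B := by
      rintro z ⟨⟨hz, hp, hzx, hAz, -⟩, hm⟩
      exact ⟨hz, hp, hzx, hAz, hm⟩
    have h2 : ((TAB P A X B).ncard : ℝ) ≤ ((AA P A B).ncard : ℝ) := by
      exact_mod_cast Set.ncard_le_ncard hsub (aa_finite P A B)
    refine le_trans ?_ (h1.trans h2)
    have h3 : X ^ (2 / (nQ P : ℝ)) = B ^ (2 / (D : ℝ) * (1 / (1 + η))) := by
      rw [hX, ← Real.rpow_mul hBp.le]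
      congr 1
      rw [hκ]
      field_simp
    rw [h3]
    have h4 : 2 / (D : ℝ) - δ / 2 ≤ 2 / (D : ℝ) * (1 / (1 + η)) := by
      have h5 : 1 - η ≤ 1 / (1 + η) := by
        rw [le_div_iff₀ (by linarith)]
        nlinarith
      have h6 : 2 / (D : ℝ) * (1 - η) = 2 / (D : ℝ) - δ / 2 := by
        rw [hη]
        field_simp
        ring
      rw [← h6]
      exact mul_le_mul_of_nonneg_left h5 (by positivity)
    have h5 : 1 / c ≤ B ^ (δ / 2) := by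
      have h6 := Real.rpow_le_rpow (by positivity) hBc (by positivity : 0 ≤ δ / 2)
      rw [← Real.rpow_mul (by positivity), div_mul_div_comm, mul_comm δ 2, div_self (by positivity),
        Real.rpow_one] at h6
      exact h6
    have h6 : B ^ (2 / (D : ℝ) - δ) * B ^ (δ / 2) = B ^ (2 / (D : ℝ) - δ / 2) := by
      rw [← Real.rpow_add hBp]
      congr 1
      ring
    have h7 : B ^ (2 / (D : ℝ) - δ / 2) ≤ B ^ (2 / (D : ℝ) * (1 / (1 + η))) :=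
      Real.rpow_le_rpow_of_exponent_le hBb h4
    have h8 : 1 ≤ c * B ^ (δ / 2) := by
      rw [div_le_iff₀ hc] at h5
      linarith
    have h9 : 0 < B ^ (2 / (D : ℝ) - δ) := by positivity
    calc B ^ (2 / (D : ℝ) - δ) ≤ B ^ (2 / (D : ℝ) - δ) * (c * B ^ (δ / 2)) :=
          le_mul_of_one_le_right h9.le h8
      _ = c * (B ^ (2 / (D : ℝ) - δ) * B ^ (δ / 2)) := by ring
      _ ≤ c * B ^ (2 / (D : ℝ) * (1 / (1 + η))) := by
          rw [h6]
          exact mul_le_mul_of_nonneg_left h7 hc.le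
  refine ⟨v1, v2, ?_⟩
  intro M c hM hc
  have hM0 : 0 < M := lt_of_le_of_lt (by positivity) hM
  obtain ⟨g, hg⟩ : ∃ g : ℝ, g = 2 / (D : ℝ) - 1 / (T1 P * M) := ⟨_, rfl⟩
  have hg0 : 0 < g := by
    rw [hg, sub_pos, div_lt_div_iff₀ (by positivity) hDR]
    rw [div_lt_iff₀ (by positivity)] at hM
    linarith
  obtain ⟨C, hC, h1⟩ := v1 M c (g / 4) hM0 hc (by positivity)
  obtain ⟨B0, h2⟩ := v2 (g / 4) (by positivity)
  refine ⟨g / 4, by positivity, max B0 (max 1 (C ^ (4 / g))), fun B hB => ?_⟩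
  have hBa : B0 ≤ B := (le_max_left _ _).trans hB
  have hBb : 1 ≤ B := (le_max_left _ _).trans ((le_max_right _ _).trans hB)
  have hBc : C ^ (4 / g) ≤ B := (le_max_right _ _).trans ((le_max_right _ _).trans hB)
  have hBp : 0 < B := by linarith
  have h3 := h1 B hBb
  have h4 := h2 B hBa
  have h5 : C ≤ B ^ (g / 4) := by
    have h6 := Real.rpow_le_rpow (by positivity) hBc (by positivity : 0 ≤ g / 4)
    rw [← Real.rpow_mul hC.le, div_mul_div_comm, mul_comm g 4, div_self (by positivity),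
      Real.rpow_one] at h6
    exact h6
  calc ((VA P A M c B).ncard : ℝ) ≤ C * B ^ (1 / (T1 P * M) + g / 4) := h3
    _ ≤ B ^ (g / 4) * B ^ (1 / (T1 P * M) + g / 4) :=
        mul_le_mul_of_nonneg_right h5 (by positivity)
    _ = B ^ (-(g / 4)) * B ^ (2 / (D : ℝ) - g / 4) := by
        rw [← Real.rpow_add hBp, ← Real.rpow_add hBp]
        congr 1
        linarith
    _ ≤ B ^ (-(g / 4)) * ((AA P A B).ncard : ℝ) :=
        mul_le_mul_of_nonneg_left h4 (by positivity)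

end Pool.Agent.Q10.KZ
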