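import Pool.Agent.Q10.KZ7

/-!
Integral tuples without vanishing proper subsums on a curve
-/

set_option autoImplicit false

namespace Pool.Agent.Q10.KZ

open Finset Polynomial
open Pool.Agent.Y557.NF (Prim rz rz_pos mz)

variable {n : ℕ}

/-- sum zero and no vanishing proper subsum -/
def NV (z : Fin n → ℤ) : Prop :=
  ∑ i, z i = 0 ∧ ∀ s : Finset (Fin n), s.Nonempty → s ≠ Finset.univ → ∑ i ∈ s, z i ≠ 0

/-- the parameters at which a proper subsum vanishes -/
def BadS (P : Fin n → ℚ[X]) : Set ℚ :=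
  {x | ∃ s : Finset (Fin n), s.Nonempty ∧ s ≠ Finset.univ ∧ ∑ i ∈ s, (P i).eval x = 0}

theorem badS_finite {P : Fin n → ℚ[X]}
    (h : ∀ s : Finset (Fin n), s.Nonempty → s ≠ Finset.univ → ∑ i ∈ s, P i ≠ 0) :
    (BadS P).Finite := by
  classical
  have h1 : (⋃ s : Finset (Fin n), {x : ℚ | s.Nonempty ∧ s ≠ Finset.univ ∧
      ∑ i ∈ s, (P i).eval x = 0}).Finite := by
    refine Set.finite_iUnion fun s => ?_
    by_cases hs : s.Nonempty ∧ s ≠ Finset.univ
    · refine ((∑ i ∈ s, P i).roots.toFinset.finite_toSet).subset ?_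
      rintro x ⟨-, -, hx⟩
      rw [Finset.mem_coe, Multiset.mem_toFinset, mem_roots (h s hs.1 hs.2), IsRoot.def,
        eval_finsetSum]
      exact hx
    · refine Set.Finite.subset Set.finite_empty ?_
      rintro x ⟨h2, h3, -⟩
      exact absurd ⟨h2, h3⟩ hs
  refine h1.subset ?_
  rintro x ⟨s, hs⟩
  exact Set.mem_iUnion.2 ⟨s, hs⟩

theorem nv_of {P : Fin n → ℚ[X]} (hn : 0 < n) (hsum : ∑ i, P i = 0) {z : Fin n → ℤ}
    (hz : ∀ i, z i ≠ 0) {x r : ℚ} (hx : x ∉ BadS P) (h : ∀ i, (z i : ℚ) = r * (P i).eval x) :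
    NV z := by
  have hr : r ≠ 0 := by
    rintro rfl
    have h1 := h ⟨0, hn⟩
    rw [zero_mul] at h1
    exact hz _ (by exact_mod_cast h1)
  have key : ∀ s : Finset (Fin n), ((∑ i ∈ s, z i : ℤ) : ℚ) = r * ∑ i ∈ s, (P i).eval x := by
    intro s
    push_cast
    rw [Finset.mul_sum]
    exact Finset.sum_congr rfl fun i _ => h i
  constructor
  · have h1 := key univ
    have h2 := congrArg (Polynomial.eval x) hsum
    rw [eval_finsetSum, eval_zero] at h2
    rw [h2, mul_zero] at h1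
    exact_mod_cast h1
  · intro s hs1 hs2 h0
    apply hx
    refine ⟨s, hs1, hs2, ?_⟩
    have h1 := key s
    rw [h0, Int.cast_zero] at h1
    rcases mul_eq_zero.1 h1.symm with h2 | h2
    · exact absurd h2 hr
    · exact h2

/-- at least two coordinates -/
theorem two_le_n {P : Fin n → ℚ[X]} (hP : ∀ i, P i ≠ 0) (hsum : ∑ i, P i = 0) (hn : 0 < n) :
    2 ≤ n := by
  by_contra hcon
  have h1 : n = 1 := by omega
  subst h1
  rw [Fin.sum_univ_one] at hsum
  exact hP 0 hsum

theorem nv_ne {z : Fin n → ℤ} (hn : 2 ≤ n) (h : NV z) (i : Fin n) : z i ≠ 0 := by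
  have h1 := h.2 {i} (Finset.singleton_nonempty i) (by
    intro h6
    have h7 := congrArg Finset.card h6
    rw [Finset.card_singleton, Finset.card_univ, Fintype.card_fin] at h7
    omega)
  rwa [Finset.sum_singleton] at h1

end Pool.Agent.Q10.KZ
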