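import Pool.Agent.Q10.KZ2

/-!
Objects counted by the rational parameters of a split curve over a number field: the abstract form
of the packaged theorems
-/

set_option autoImplicit false

namespace Pool.Agent.Q10.KZ

open NumberField Finset Polynomial
open Pool.Agent.Q10.KY Pool.Agent.Q10.KV

/-- violations, in the abstract -/
theorem viol_abs {α : Type} (A : ℝ → ℝ → Set α) (All : ℝ → Set α) (V : ℝ → ℝ → ℝ → Set α)
    {S D q : ℝ} (hS : 0 < S) (hD : 0 < D) (hq : 0 < q)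
    (p1 : ∀ κ ε : ℝ, 0 < κ → 0 < ε → ∃ C : ℝ, 0 < C ∧ ∀ X : ℝ, 1 ≤ X →
      (A X (X ^ κ)).Finite ∧ ((A X (X ^ κ)).ncard : ℝ) ≤ C * X ^ (1 / S + ε))
    (p3 : ∀ κ : ℝ, D / q < κ → ∃ c : ℝ, 0 < c ∧ ∃ X₀ : ℝ, 1 ≤ X₀ ∧ ∀ X : ℝ, X₀ ≤ X →
      c * X ^ (2 / q) ≤ ((A X (X ^ κ)).ncard : ℝ))
    (hV : ∀ M c B X : ℝ, 0 < M → 0 < c → 1 ≤ X → B ≤ c * X ^ M → B ≤ X ^ M →
      V M c B ⊆ A X (X ^ M))
    (hAll : ∀ X B : ℝ, A X B ⊆ All B) (hfin : ∀ B : ℝ, (All B).Finite) :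
    (∀ M c δ : ℝ, 0 < M → 0 < c → 0 < δ → ∃ C : ℝ, 0 < C ∧ ∀ B : ℝ, 1 ≤ B →
      ((V M c B).ncard : ℝ) ≤ C * B ^ (1 / (S * M) + δ)) ∧
    (∀ δ : ℝ, 0 < δ → ∃ B₀ : ℝ, ∀ B : ℝ, B₀ ≤ B → B ^ (2 / D - δ) ≤ ((All B).ncard : ℝ)) ∧
    (∀ M c : ℝ, D / (2 * S) < M → 0 < c → ∃ ν : ℝ, 0 < ν ∧ ∃ B₀ : ℝ, ∀ B : ℝ, B₀ ≤ B →
      ((V M c B).ncard : ℝ) ≤ B ^ (-ν) * ((All B).ncard : ℝ)) := by
  have v1 : ∀ M c δ : ℝ, 0 < M → 0 < c → 0 < δ → ∃ C : ℝ, 0 < C ∧ ∀ B : ℝ, 1 ≤ B →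
      ((V M c B).ncard : ℝ) ≤ C * B ^ (1 / (S * M) + δ) := by
    intro M c δ hM hc hδ
    obtain ⟨C, hC, hmain⟩ := p1 M (M * δ) hM (by positivity)
    obtain ⟨c', hc'⟩ : ∃ c' : ℝ, c' = max 1 c⁻¹ := ⟨_, rfl⟩
    have hc'1 : 1 ≤ c' := by rw [hc']; exact le_max_left _ _
    have hc'2 : c⁻¹ ≤ c' := by rw [hc']; exact le_max_right _ _
    refine ⟨C * c' ^ (1 / (S * M) + δ), by positivity, fun B hB => ?_⟩
    have hcB : 1 ≤ c' * B := one_le_mul_of_one_le_of_one_le hc'1 hB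
    obtain ⟨X, hX⟩ : ∃ X : ℝ, X = (c' * B) ^ (1 / M) := ⟨_, rfl⟩
    have hX1 : 1 ≤ X := by rw [hX]; exact Real.one_le_rpow hcB (by positivity)
    have hXM : X ^ M = c' * B := by
      rw [hX, ← Real.rpow_mul (by positivity), one_div_mul_cancel hM.ne', Real.rpow_one]
    obtain ⟨h1, h2⟩ := hmain X hX1
    have hsub : V M c B ⊆ A X (X ^ M) := by
      refine hV M c B X hM hc hX1 ?_ ?_
      · rw [hXM]
        have h3 : 1 ≤ c * c' := by
          have := mul_le_mul_of_nonneg_left hc'2 hc.le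
          rwa [mul_inv_cancel₀ hc.ne'] at this
        nlinarith
      · rw [hXM]
        nlinarith
    have h3 := Set.ncard_le_ncard hsub h1
    have h4 : ((V M c B).ncard : ℝ) ≤ ((A X (X ^ M)).ncard : ℝ) := by exact_mod_cast h3
    refine (h4.trans h2).trans (le_of_eq ?_)
    rw [mul_assoc, ← Real.mul_rpow (by linarith) (by linarith), hX, ← Real.rpow_mul (by positivity)]
    congr 2
    field_simp
  have v2 : ∀ δ : ℝ, 0 < δ → ∃ B₀ : ℝ, ∀ B : ℝ, B₀ ≤ B → B ^ (2 / D - δ) ≤ ((All B).ncard : ℝ) := by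
    intro δ hδ
    obtain ⟨η, hη⟩ : ∃ η : ℝ, η = D * δ / 4 := ⟨_, rfl⟩
    have hη0 : 0 < η := by rw [hη]; positivity
    obtain ⟨κ, hκ⟩ : ∃ κ : ℝ, κ = D / q * (1 + η) := ⟨_, rfl⟩
    have hDq : 0 < D / q := by positivity
    have hκ1 : D / q < κ := by rw [hκ]; nlinarith
    have hκ0 : 0 < κ := hDq.trans hκ1
    obtain ⟨c, hc, X0, hX0, hlow⟩ := p3 κ hκ1
    refine ⟨max (X0 ^ κ) (max 1 ((1 / c) ^ (2 / δ))), fun B hB => ?_⟩
    have hBa : X0 ^ κ ≤ B := (le_max_left _ _).trans hB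
    have hBb : 1 ≤ B := (le_max_left _ _).trans ((le_max_right _ _).trans hB)
    have hBc : (1 / c) ^ (2 / δ) ≤ B := (le_max_right _ _).trans ((le_max_right _ _).trans hB)
    have hBp : 0 < B := by linarith
    obtain ⟨X, hX⟩ : ∃ X : ℝ, X = B ^ (1 / κ) := ⟨_, rfl⟩
    have hXκ : X ^ κ = B := by
      rw [hX, ← Real.rpow_mul hBp.le, one_div_mul_cancel hκ0.ne', Real.rpow_one]
    have hX0' : X0 ≤ X := by
      have h1 := Real.rpow_le_rpow (by positivity) hBa (by positivity : 0 ≤ 1 / κ)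
      rw [← Real.rpow_mul (by linarith), mul_one_div_cancel hκ0.ne', Real.rpow_one, ← hX] at h1
      exact h1
    have h1 := hlow X hX0'
    rw [hXκ] at h1
    have h2 : ((A X B).ncard : ℝ) ≤ ((All B).ncard : ℝ) := by
      exact_mod_cast Set.ncard_le_ncard (hAll X B) (hfin B)
    refine le_trans ?_ (h1.trans h2)
    have h3 : X ^ (2 / q) = B ^ (2 / D * (1 / (1 + η))) := by
      rw [hX, ← Real.rpow_mul hBp.le]
      congr 1
      rw [hκ]
      field_simp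
    rw [h3]
    have h4 : 2 / D - δ / 2 ≤ 2 / D * (1 / (1 + η)) := by
      have h5 : 1 - η ≤ 1 / (1 + η) := by
        rw [le_div_iff₀ (by linarith)]
        nlinarith
      have h6 : 2 / D * (1 - η) = 2 / D - δ / 2 := by
        rw [hη]
        field_simp
        ring
      rw [← h6]
      exact mul_le_mul_of_nonneg_left h5 (by positivity)
    have h5 : 1 / c ≤ B ^ (δ / 2) := by
      have h6 := Real.rpow_le_rpow (by positivity) hBc (by positivity : 0 ≤ δ / 2)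
      rw [← Real.rpow_mul (by positivity), div_mul_div_comm, mul_comm δ 2, div_self (by positivity),
        Real.rpow_one] at h6
      exact h6
    have h6 : B ^ (2 / D - δ) * B ^ (δ / 2) = B ^ (2 / D - δ / 2) := by
      rw [← Real.rpow_add hBp]
      congr 1
      ring
    have h7 : B ^ (2 / D - δ / 2) ≤ B ^ (2 / D * (1 / (1 + η))) :=
      Real.rpow_le_rpow_of_exponent_le hBb h4
    have h8 : 1 ≤ c * B ^ (δ / 2) := by
      rw [div_le_iff₀ hc] at h5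
      linarith
    have h9 : 0 < B ^ (2 / D - δ) := by positivity
    calc B ^ (2 / D - δ) ≤ B ^ (2 / D - δ) * (c * B ^ (δ / 2)) :=
          le_mul_of_one_le_right h9.le h8
      _ = c * (B ^ (2 / D - δ) * B ^ (δ / 2)) := by ring
      _ ≤ c * B ^ (2 / D * (1 / (1 + η))) := by
          rw [h6]
          exact mul_le_mul_of_nonneg_left h7 hc.le
  refine ⟨v1, v2, ?_⟩
  intro M c hM hc
  have hM0 : 0 < M := lt_of_le_of_lt (by positivity) hM
  obtain ⟨g, hg⟩ : ∃ g : ℝ, g = 2 / D - 1 / (S * M) := ⟨_, rfl⟩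
  have hg0 : 0 < g := by
    rw [hg, sub_pos, div_lt_div_iff₀ (by positivity) hD]
    rw [div_lt_iff₀ (by positivity)] at hM
    linarith
  obtain ⟨C, hC, h1⟩ := v1 M c (g / 4) hM0 hc (by positivity)
  obtain ⟨B0, h2⟩ := v2 (g / 4) (by positivity)
  refine ⟨g / 4, by positivity, max B0 (max 1 (C ^ (4 / g))), fun B hB => ?_⟩
  have hBa : B0 ≤ B := (le_max_left _ _).trans hB
  have hBb : 1 ≤ B := (le_max_left _ _).trans ((le_max_right _ _).trans hB)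
  have hBc : C ^ (4 / g) ≤ B := (le_max_right _ _).trans ((le_max_right _ _).trans hB)
  have hBp : 0 < B := by linarith
  have h3 := h1 B hBb
  have h4 := h2 B hBa
  have h5 : C ≤ B ^ (g / 4) := by
    have h6 := Real.rpow_le_rpow (by positivity) hBc (by positivity : 0 ≤ g / 4)
    rw [← Real.rpow_mul hC.le, div_mul_div_comm, mul_comm g 4, div_self (by positivity),
      Real.rpow_one] at h6
    exact h6
  calc ((V M c B).ncard : ℝ) ≤ C * B ^ (1 / (S * M) + g / 4) := h3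
    _ ≤ B ^ (g / 4) * B ^ (1 / (S * M) + g / 4) :=
        mul_le_mul_of_nonneg_right h5 (by positivity)
    _ = B ^ (-(g / 4)) * B ^ (2 / D - g / 4) := by
        rw [← Real.rpow_add hBp, ← Real.rpow_add hBp]
        congr 1
        linarith
    _ ≤ B ^ (-(g / 4)) * ((All B).ncard : ℝ) :=
        mul_le_mul_of_nonneg_left h4 (by positivity)

/-- the packaged theorem for objects the number of which is comparable with the number of the
rational parameters -/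
theorem objects {K : Type} [Field K] [NumberField K] {n : ℕ} {P : Fin n → K[X]}
    (hP : ∀ i, P i ≠ 0) (hs : ∀ i, (P i).Splits)
    (hu : ∃ u : Fin n → K[X], ∑ i, u i * P i = 1) {D : ℕ} (hD : 1 ≤ D)
    (hdeg : ∀ i, (P i).natDegree ≤ D) (hdeg' : ∃ i, (P i).natDegree = D)
    {q : ℕ} (hq : (pts P).card = q) {α : Type} (A : ℝ → ℝ → Set α) (AI : ℝ → Set α) {k : ℝ}
    (hk : 0 < k)
    (hU : ∀ X B : ℝ, 1 ≤ X → 0 < B → (ParT P X (Real.log B)).Finite →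
      (A X B).Finite ∧ ((A X B).ncard : ℝ) ≤ k * ((ParT P X (Real.log B)).ncard : ℝ))
    (hL : ∀ X B : ℝ, 1 ≤ X → 0 < B → (ParT P X (Real.log B)).Finite → (A X B).Finite →
      ((ParT P X (Real.log B)).ncard : ℝ) ≤ k * ((A X B).ncard : ℝ))
    (hI : ∀ X : ℝ, 1 ≤ X → (Par P X).Finite →
      (AI X).Finite ∧ ((AI X).ncard : ℝ) ≤ k * ((Par P X).ncard : ℝ)) :
    (∀ κ ε : ℝ, 0 < κ → 0 < ε → ∃ C : ℝ, 0 < C ∧ ∀ X : ℝ, 1 ≤ X →
      (A X (X ^ κ)).Finite ∧ ((A X (X ^ κ)).ncard : ℝ) ≤ C * X ^ (1 / S1 P + ε)) ∧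
    (0 < S2 P → ∀ ε : ℝ, 0 < ε → ∃ C : ℝ, 0 < C ∧ ∀ X : ℝ, 1 ≤ X →
      (AI X).Finite ∧ ((AI X).ncard : ℝ) ≤ C * X ^ (1 / S2 P + ε)) ∧
    (∀ κ : ℝ, (D : ℝ) / q ≤ κ → ∃ c : ℝ, 0 < c ∧ ∃ X₀ : ℝ, 1 ≤ X₀ ∧ ∀ X : ℝ, X₀ ≤ X →
      c * X ^ (2 / (q : ℝ)) ≤ ((A X (X ^ κ)).ncard : ℝ)) ∧
    ((∀ a ∈ pts P, dgr a ≤ 2) → (rat P).card ≠ 1 → ∀ κ : ℝ, (D : ℝ) / q ≤ κ →
      ∀ δ : ℝ, 0 < δ → ∃ X₀ : ℝ, 1 ≤ X₀ ∧ ∀ X : ℝ, X₀ ≤ X →
        X ^ (2 / (q : ℝ) - δ) ≤ ((A X (X ^ κ)).ncard : ℝ) ∧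
        ((A X (X ^ κ)).ncard : ℝ) ≤ X ^ (2 / (q : ℝ) + δ)) := by
  obtain ⟨p1, p2, ⟨c0, hc0, Y0, hY0, p3⟩, -⟩ := package hP hs hu hD hdeg hdeg' hq
  have hq2 : 2 ≤ q := by
    rw [← hq]
    exact two_le_pts hP hs hu hD hdeg'
  have hq0 : (0 : ℝ) < q := by exact_mod_cast (by omega : 0 < q)
  have hDR : (0 : ℝ) < D := by exact_mod_cast hD
  have hlog : ∀ κ X : ℝ, 1 ≤ X → Real.log (X ^ κ) = κ * Real.log X := fun κ X hX =>
    Real.log_rpow (by linarith) κ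
  have hUp : ∀ κ ε : ℝ, 0 < κ → 0 < ε → ∃ C : ℝ, 0 < C ∧ ∀ X : ℝ, 1 ≤ X →
      (A X (X ^ κ)).Finite ∧ ((A X (X ^ κ)).ncard : ℝ) ≤ C * X ^ (1 / S1 P + ε) := by
    intro κ ε hκ hε
    obtain ⟨C, hC, hmain⟩ := p1 κ ε hκ hε
    refine ⟨k * C, by positivity, fun X hX => ?_⟩
    obtain ⟨h3, h4⟩ := hmain X hX
    rw [← hlog κ X hX] at h3 h4
    have hXp : 0 < X := by linarith
    obtain ⟨h5, h6⟩ := hU X (X ^ κ) hX (by positivity) h3
    refine ⟨h5, h6.trans ?_⟩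
    rw [mul_assoc]
    exact mul_le_mul_of_nonneg_left h4 hk.le
  have hLow : ∀ κ : ℝ, (D : ℝ) / q ≤ κ → ∃ c : ℝ, 0 < c ∧ ∃ X₀ : ℝ, 1 ≤ X₀ ∧ ∀ X : ℝ, X₀ ≤ X →
      c * X ^ (2 / (q : ℝ)) ≤ ((A X (X ^ κ)).ncard : ℝ) := by
    intro κ hκ
    have hκ0 : 0 < κ := lt_of_lt_of_le (by positivity) hκ
    obtain ⟨C, -, hmain⟩ := p1 κ 1 hκ0 one_pos
    refine ⟨c0 / k, by positivity, Y0, hY0, fun X hX => ?_⟩
    have hX1 : 1 ≤ X := hY0.trans hX
    have hXp : 0 < X := by linarith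
    have h3 := p3 X hX κ hκ
    have h4 := (hmain X hX1).1
    rw [← hlog κ X hX1] at h3 h4
    have h5 := (hU X (X ^ κ) hX1 (by positivity) h4).1
    have h6 := hL X (X ^ κ) hX1 (by positivity) h4 h5
    rw [div_mul_eq_mul_div, div_le_iff₀ hk]
    linarith
  refine ⟨hUp, ?_, hLow, ?_⟩
  · intro hS2 ε hε
    obtain ⟨C, hC, hmain⟩ := p2 hS2 ε hε
    refine ⟨k * C, by positivity, fun X hX => ?_⟩
    obtain ⟨h3, h4⟩ := hmain X hX
    obtain ⟨h5, h6⟩ := hI X hX h3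
    refine ⟨h5, h6.trans ?_⟩
    rw [mul_assoc]
    exact mul_le_mul_of_nonneg_left h4 hk.le
  · intro hd h1 κ hκ δ hδ
    have hκ0 : 0 < κ := lt_of_lt_of_le (by positivity) hκ
    obtain ⟨C, hC, hfin⟩ := hUp κ (δ / 2) hκ0 (by positivity)
    obtain ⟨c, hc, X0, hX0, hlow⟩ := hLow κ hκ
    have hS : 1 / S1 P = 2 / (q : ℝ) := by
      rw [S1_two hd h1, hq]
      field_simp
    rw [hS] at hfin
    refine ⟨max X0 (max (C ^ (2 / δ)) ((1 / c) ^ (1 / δ))), hX0.trans (le_max_left _ _),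
      fun X hX => ?_⟩
    have hXa : X0 ≤ X := (le_max_left _ _).trans hX
    have hXb : C ^ (2 / δ) ≤ X := (le_max_left _ _).trans ((le_max_right _ _).trans hX)
    have hXc : (1 / c) ^ (1 / δ) ≤ X := (le_max_right _ _).trans ((le_max_right _ _).trans hX)
    have hX1 : 1 ≤ X := hX0.trans hXa
    have hXp : 0 < X := by linarith
    constructor
    · refine le_trans ?_ (hlow X hXa)
      have h3 : 1 / c ≤ X ^ δ := by
        have h4 := Real.rpow_le_rpow (by positivity) hXc hδ.le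
        rw [← Real.rpow_mul (by positivity), one_div_mul_cancel hδ.ne', Real.rpow_one] at h4
        exact h4
      rw [Real.rpow_sub hXp, div_le_iff₀ (by positivity)]
      have h5 : 1 ≤ c * X ^ δ := by
        rw [div_le_iff₀ hc] at h3
        linarith
      have h6 : 0 < X ^ (2 / (q : ℝ)) := by positivity
      nlinarith
    · refine (hfin X hX1).2.trans ?_
      have h3 : C ≤ X ^ (δ / 2) := by
        have h4 := Real.rpow_le_rpow (by positivity) hXb (by positivity : 0 ≤ δ / 2)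
        rw [← Real.rpow_mul hC.le, div_mul_div_comm, mul_comm δ 2, div_self (by positivity),
          Real.rpow_one] at h4
        exact h4
      calc C * X ^ (2 / (q : ℝ) + δ / 2) ≤ X ^ (δ / 2) * X ^ (2 / (q : ℝ) + δ / 2) :=
            mul_le_mul_of_nonneg_right h3 (by positivity)
        _ = X ^ (2 / (q : ℝ) + δ) := by
            rw [← Real.rpow_add hXp]
            congr 1
            ring

end Pool.Agent.Q10.KZ
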