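import Pool.Agent.Q10.KZ9
import Pool.Agent.Results.MP_dc323a_nt.AllThinSetsAtOnce

/-!
Triples of Gaussian integers on curves over `ℚ(i)` at rational parameters
-/

set_option autoImplicit false

namespace Pool.Agent.Q10.KZ.Gi

open NumberField IsDedekindDomain Polynomial Finset
open Pool.Agent.TH402.AK (K4 emb emb_inj e finrank4 phi card_le_four GTri)
open Pool.Agent.Results.MP_dc323a_nt.AllThinSetsAtOnce
open Pool.Agent.Q10.KY Pool.Agent.Q10.KZ
open Pool.Agent.H691R3 (fv Nv)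
open Pool.Agent.TH876.TM (supp)

/-- the triples proportional to the values at rational parameters -/
def On (P : Fin 3 → GaussianInt[X]) : Set (GaussianInt × GaussianInt) :=
  {p | p ∈ Triples ∧ ∃ (t : ℚ) (s : Qi),
    algebraMap GaussianInt Qi p.1 = s * (toQi (P 0)).eval (t : Qi) ∧
    algebraMap GaussianInt Qi p.2 = s * (toQi (P 1)).eval (t : Qi)}

/-- small radical and size -/
def OnXB (P : Fin 3 → GaussianInt[X]) (X B : ℝ) : Set (GaussianInt × GaussianInt) :=
  {p | p ∈ On P ∧ rad (p.1 * p.2 * (p.1 + p.2)) ≤ X ∧ size p.1 p.2 ≤ B}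

/-- small radical -/
def OnX (P : Fin 3 → GaussianInt[X]) (X : ℝ) : Set (GaussianInt × GaussianInt) :=
  {p | p ∈ On P ∧ rad (p.1 * p.2 * (p.1 + p.2)) ≤ X}

/-- small size -/
def OnB (P : Fin 3 → GaussianInt[X]) (B : ℝ) : Set (GaussianInt × GaussianInt) :=
  {p | p ∈ On P ∧ size p.1 p.2 ≤ B}

theorem supp_iff' (x : Fin 3 → K4) (v : HeightOneSpectrum (𝓞 K4)) :
    v ∈ supp x ↔ ∃ i j, fv v (x i) ≠ fv v (x j) := by
  have key : ∀ a b : K4, fv v a = fv v b ↔ v.valuation K4 a = v.valuation K4 b := by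
    intro a b
    constructor
    · intro h
      refine le_antisymm ?_ ?_
      · rw [← not_lt, ← Pool.Agent.Y728.AK.fv_lt_iff, h]
        exact lt_irrefl _
      · rw [← not_lt, ← Pool.Agent.Y728.AK.fv_lt_iff, h]
        exact lt_irrefl _
    · intro h
      refine le_antisymm ?_ ?_
      · rw [← not_lt, Pool.Agent.Y728.AK.fv_lt_iff, h]
        exact lt_irrefl _
      · rw [← not_lt, Pool.Agent.Y728.AK.fv_lt_iff, h]
        exact lt_irrefl _
  unfold supp
  rw [Set.mem_ofPred_eq]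
  refine exists_congr fun i => exists_congr fun j => ?_
  rw [Ne, Ne, key]

/-- radical -/
theorem rS_eq (x : Fin 3 → K4) : Pool.Agent.Y557.U.rS
    (((∅ : Finset (HeightOneSpectrum (𝓞 K4))) : Set (HeightOneSpectrum (𝓞 K4)))) x =
    (∑ᶠ v ∈ {v : HeightOneSpectrum (𝓞 K4) | ∃ i j, fv v (x i) ≠ fv v (x j)}, Real.log (Nv v)) /
      (Module.finrank ℚ K4 : ℝ) := by
  have h : {v : HeightOneSpectrum (𝓞 K4) | v ∉ ((∅ : Finset (HeightOneSpectrum (𝓞 K4))) :
      Set (HeightOneSpectrum (𝓞 K4))) ∧ v ∈ supp x} =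
      {v : HeightOneSpectrum (𝓞 K4) | ∃ i j, fv v (x i) ≠ fv v (x j)} := by
    ext v
    rw [Set.mem_ofPred_eq, Set.mem_ofPred_eq, supp_iff']
    simp
  unfold Pool.Agent.Y557.U.rS
  rw [h]
  rfl

theorem eval_cv (P : Fin 3 → GaussianInt[X]) (t : ℚ) (i : Fin 3) :
    (cv P i).eval (t : K4) = io ((toQi (P i)).eval (t : Qi)) := by
  rw [cv_eq, ← map_ratCast io t, eval_map, eval₂_at_apply]

theorem eval_sum {P : Fin 3 → GaussianInt[X]} (hsum : P 0 + P 1 = P 2) (t : Qi) :
    (toQi (P 0)).eval t + (toQi (P 1)).eval t = (toQi (P 2)).eval t := by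
  rw [← hsum, toQi, toQi, toQi, Polynomial.map_add, eval_add]

/-- the vector of a triple -/
theorem on_vec {P : Fin 3 → GaussianInt[X]} (hsum : P 0 + P 1 = P 2)
    {p : GaussianInt × GaussianInt} (h : p ∈ On P) :
    ∃ (t : ℚ) (s : K4), s ≠ 0 ∧ vec p = s • fun i => (cv P i).eval (t : K4) := by
  obtain ⟨hT, t, s, h1, h2⟩ := h
  refine ⟨t, io s, fun h0 => ?_, ?_⟩
  · apply emb_ne hT.1
    rw [← io_alg, h1, map_mul, h0, zero_mul]
  · funext i
    show emb (tri p i) = io s * (cv P i).eval (t : K4)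
    rw [eval_cv, ← map_mul, ← io_alg]
    congr 1
    fin_cases i
    · exact h1
    · exact h2
    · show algebraMap GaussianInt Qi (p.1 + p.2) = s * (toQi (P 2)).eval (t : Qi)
      rw [← eval_sum hsum, map_add, h1, h2, mul_add]

theorem data {P : Fin 3 → GaussianInt[X]} {p : GaussianInt × GaussianInt} (hT : p ∈ Triples)
    {t : ℚ} {s : K4} (hs : s ≠ 0) (hv : vec p = s • fun i => (cv P i).eval (t : K4)) :
    (∀ i, (cv P i).eval (t : K4) ≠ 0) ∧
    rdK (cv P) (t : K4) = (Module.finrank ℚ K4 : ℝ) *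
      Real.log (rad (p.1 * p.2 * (p.1 + p.2))) ∧
    Height.logHeight (fun i => (cv P i).eval (t : K4)) = (Module.finrank ℚ K4 : ℝ) *
      Real.log (size p.1 p.2) := by
  have hn0 : (0 : ℝ) < Module.finrank ℚ K4 := Pool.Agent.Q10.KV.deg_pos
  refine ⟨fun i hi => ?_, ?_, ?_⟩
  · apply vec_ne hT i
    rw [hv, Pi.smul_apply]
    show s • (cv P i).eval (t : K4) = 0
    rw [hi, smul_zero]
  · rw [← rS_vec hT, hv, rS_smul hs, rS_eq, mul_div_cancel₀ _ hn0.ne']
    rfl
  · rw [← ht_vec hT, hv, ht_smul hs]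
    unfold Pool.Agent.Y557.U.ht Pool.Agent.Y557.U.dgr
    rw [mul_div_cancel₀ _ hn0.ne']

/-- a triple for each parameter -/
theorem exists_tri {P : Fin 3 → GaussianInt[X]} (hsum : P 0 + P 1 = P 2) {t : ℚ}
    (ht : ∀ i, (cv P i).eval (t : K4) ≠ 0) :
    ∃ p ∈ On P, ∃ s : K4, s ≠ 0 ∧ vec p = s • fun i => (cv P i).eval (t : K4) := by
  have hy : ∀ i, (toQi (P i)).eval (t : Qi) ≠ 0 := by
    intro i hi
    apply ht i
    rw [eval_cv, hi, map_zero]
  obtain ⟨a, b, hrel, hab⟩ := IsFractionRing.exists_reduced_fraction GaussianInt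
    ((toQi (P 0)).eval (t : Qi) / (toQi (P 1)).eval (t : Qi))
  rw [IsFractionRing.mk'_eq_div] at hab
  have hb0 : algebraMap GaussianInt Qi b ≠ 0 :=
    IsFractionRing.to_map_ne_zero_of_mem_nonZeroDivisors b.2
  obtain ⟨s, hs⟩ : ∃ s, s = algebraMap GaussianInt Qi b / (toQi (P 1)).eval (t : Qi) := ⟨_, rfl⟩
  have hs0 : s ≠ 0 := by rw [hs]; exact div_ne_zero hb0 (hy 1)
  have e1 : algebraMap GaussianInt Qi b = s * (toQi (P 1)).eval (t : Qi) := by
    rw [hs, div_mul_cancel₀ _ (hy 1)]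
  have e0 : algebraMap GaussianInt Qi a = s * (toQi (P 0)).eval (t : Qi) := by
    have h3 := (div_eq_div_iff hb0 (hy 1)).1 hab
    rw [hs, div_mul_eq_mul_div, eq_div_iff (hy 1), h3, mul_comm]
  have e2 : algebraMap GaussianInt Qi (a + b) = s * (toQi (P 2)).eval (t : Qi) := by
    rw [map_add, e0, e1, ← mul_add, eval_sum hsum]
  have hne : ∀ (z : GaussianInt) (i : Fin 3), algebraMap GaussianInt Qi z =
      s * (toQi (P i)).eval (t : Qi) → z ≠ 0 := by
    rintro z i h rfl
    rw [map_zero] at h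
    exact mul_ne_zero hs0 (hy i) h.symm
  have hT : ((a, (b : GaussianInt)) : GaussianInt × GaussianInt) ∈ Triples :=
    ⟨hne _ 0 e0, hne _ 1 e1, hne _ 2 e2, hrel.isCoprime⟩
  have hio : io s ≠ 0 := (map_ne_zero_iff io io.injective).2 hs0
  refine ⟨_, ⟨hT, t, s, e0, e1⟩, io s, hio, ?_⟩
  funext i
  show emb (tri _ i) = io s * (cv P i).eval (t : K4)
  rw [eval_cv, ← map_mul, ← io_alg]
  congr 1
  fin_cases i
  · exact e0
  · exact e1
  · exact e2

/-- the quotient of the first and of the third coordinate -/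
noncomputable def ps (p : GaussianInt × GaussianInt) : K4 := emb p.1 / emb (p.1 + p.2)

theorem ps_val {P : Fin 3 → GaussianInt[X]} {p : GaussianInt × GaussianInt}
    {t : ℚ} {s : K4} (hs : s ≠ 0) (hv : vec p = s • fun i => (cv P i).eval (t : K4)) :
    ps p = val (cv P) t := by
  have h0 : emb p.1 = s * (cv P 0).eval (t : K4) := congrFun hv 0
  have h2 : emb (p.1 + p.2) = s * (cv P 2).eval (t : K4) := congrFun hv 2
  unfold ps val
  rw [h0, h2, mul_div_mul_left _ _ hs]

theorem phi_ps {p : GaussianInt × GaussianInt} (hT : p ∈ Triples) :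
    phi p = ps p / (1 - ps p) := by
  obtain ⟨h1, h2, h3, -⟩ := hT
  have h3' : emb (p.1 + p.2) ≠ 0 := emb_ne h3
  have h2' : emb p.2 ≠ 0 := emb_ne h2
  have h4 : (1 : K4) - ps p = emb p.2 / emb (p.1 + p.2) := by
    unfold ps
    rw [eq_div_iff h3', sub_mul, div_mul_cancel₀ _ h3', one_mul, map_add]
    ring
  rw [h4]
  show emb p.1 / emb p.2 = _
  unfold ps
  rw [div_div_div_cancel_right₀ h3']

open Classical in
theorem card_four (F : Finset (GaussianInt × GaussianInt)) (hF : ∀ p ∈ F, p ∈ Triples) :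
    F.card ≤ 4 * (F.image ps).card := by
  have h1 := card_le_four F hF
  have h2 : (F.image phi).card ≤ (F.image ps).card := by
    have h3 : F.image phi ⊆ (F.image ps).image fun y => y / (1 - y) := by
      intro x hx
      obtain ⟨p, hp, rfl⟩ := Finset.mem_image.1 hx
      exact Finset.mem_image.2 ⟨ps p, Finset.mem_image_of_mem _ hp, (phi_ps (hF p hp)).symm⟩
    exact (Finset.card_le_card h3).trans Finset.card_image_le
  exact h1.trans (Nat.mul_le_mul_left 4 h2)

theorem upper4 {A : Set (GaussianInt × GaussianInt)} {S : Set ℚ} {P : Fin 3 → GaussianInt[X]}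
    (hS : S.Finite) (h : ∀ p ∈ A, p ∈ Triples ∧ ∃ t ∈ S, ps p = val (cv P) t) :
    A.Finite ∧ (A.ncard : ℝ) ≤ 4 * (S.ncard : ℝ) := by
  classical
  refine fin_of_bound _ _ fun F hF => ?_
  have h1 := card_four F fun p hp => (h p (hF hp)).1
  have h2 : F.image ps ⊆ hS.toFinset.image (val (cv P)) := by
    intro x hx
    obtain ⟨p, hp, rfl⟩ := Finset.mem_image.1 hx
    obtain ⟨-, t, ht, hpt⟩ := h p (hF hp)
    exact Finset.mem_image.2 ⟨t, hS.mem_toFinset.2 ht, hpt.symm⟩
  have h3 := (Finset.card_le_card h2).trans Finset.card_image_le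
  rw [Set.ncard_eq_toFinset_card _ hS]
  have h4 : F.card ≤ 4 * hS.toFinset.card := h1.trans (by omega)
  exact_mod_cast h4

theorem rad_pos' {p : GaussianInt × GaussianInt} (h : p ∈ Triples) :
    0 < rad (p.1 * p.2 * (p.1 + p.2)) := by linarith [one_le_rad h]

theorem size_pos {p : GaussianInt × GaussianInt} (h : p ∈ Triples) : 0 < size p.1 p.2 := by
  have h1 := one_le_norm h.1
  unfold size
  exact lt_of_lt_of_le (by linarith) (le_max_left _ _)

theorem size_finite (B : ℝ) :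
    {p : GaussianInt × GaussianInt | size p.1 p.2 ≤ B}.Finite := by
  have key : {z : GaussianInt | ‖GaussianInt.toComplex z‖ ≤ B}.Finite := by
    have h1 : (Set.Icc (-⌈B⌉) ⌈B⌉ ×ˢ Set.Icc (-⌈B⌉) ⌈B⌉).Finite :=
      (Set.finite_Icc _ _).prod (Set.finite_Icc _ _)
    have hinj : Set.InjOn (fun z : GaussianInt => (z.re, z.im))
        {z : GaussianInt | ‖GaussianInt.toComplex z‖ ≤ B} := by
      intro a _ b _ hab
      have h2 := congrArg Prod.fst hab
      have h3 := congrArg Prod.snd hab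
      exact Zsqrtd.ext h2 h3
    refine Set.Finite.of_finite_image (h1.subset ?_) hinj
    rintro _ ⟨z, hz, rfl⟩
    have h2 : |(z.re : ℝ)| ≤ B := by
      have h3 := Complex.abs_re_le_norm (GaussianInt.toComplex z)
      rw [GaussianInt.toComplex_def] at h3
      have h4 : ((z.re : ℂ) + (z.im : ℂ) * Complex.I).re = (z.re : ℝ) := by simp
      rw [h4] at h3
      rw [← GaussianInt.toComplex_def] at h3
      exact h3.trans hz
    have h2' : |(z.im : ℝ)| ≤ B := by
      have h3 := Complex.abs_im_le_norm (GaussianInt.toComplex z)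
      rw [GaussianInt.toComplex_def] at h3
      have h4 : ((z.re : ℂ) + (z.im : ℂ) * Complex.I).im = (z.im : ℝ) := by simp
      rw [h4] at h3
      rw [← GaussianInt.toComplex_def] at h3
      exact h3.trans hz
    have h5 : |z.re| ≤ ⌈B⌉ := by
      have : ((|z.re| : ℤ) : ℝ) ≤ (⌈B⌉ : ℝ) := by
        push_cast
        exact h2.trans (Int.le_ceil B)
      exact_mod_cast this
    have h5' : |z.im| ≤ ⌈B⌉ := by
      have : ((|z.im| : ℤ) : ℝ) ≤ (⌈B⌉ : ℝ) := by
        push_cast
        exact h2'.trans (Int.le_ceil B)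
      exact_mod_cast this
    exact ⟨abs_le.1 h5, abs_le.1 h5'⟩
  refine (key.prod key).subset ?_
  rintro p hp
  have hp' : max ‖GaussianInt.toComplex p.1‖ (max ‖GaussianInt.toComplex p.2‖
      ‖GaussianInt.toComplex (p.1 + p.2)‖) ≤ B := hp
  exact ⟨(le_max_left _ _).trans hp', (le_max_left _ _).trans ((le_max_right _ _).trans hp')⟩

/-- **The packaged theorem for the Gaussian integers, in terms of `K4`** -/
theorem main {P : Fin 3 → GaussianInt[X]} (hP : ∀ i, P i ≠ 0) (hsum : P 0 + P 1 = P 2)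
    (hcop : IsCoprime (toQi (P 0)) (toQi (P 1))) (hs : ∀ i, (toQi (P i)).Splits)
    {D : ℕ} (hD : 1 ≤ D) (hdeg : ∀ i, (P i).natDegree ≤ D) (hdeg' : ∃ i, (P i).natDegree = D)
    {q : ℕ} (hq : (pts (cv P)).card = q) :
    ((∀ κ ε : ℝ, 0 < κ → 0 < ε → ∃ C : ℝ, 0 < C ∧ ∀ X : ℝ, 1 ≤ X →
      (OnXB P X (X ^ κ)).Finite ∧ ((OnXB P X (X ^ κ)).ncard : ℝ) ≤
        C * X ^ (1 / S1 (cv P) + ε)) ∧
    (0 < S2 (cv P) → ∀ ε : ℝ, 0 < ε → ∃ C : ℝ, 0 < C ∧ ∀ X : ℝ, 1 ≤ X →
      (OnX P X).Finite ∧ ((OnX P X).ncard : ℝ) ≤ C * X ^ (1 / S2 (cv P) + ε)) ∧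
    (∀ κ : ℝ, (D : ℝ) / q ≤ κ → ∃ c : ℝ, 0 < c ∧ ∃ X₀ : ℝ, 1 ≤ X₀ ∧ ∀ X : ℝ, X₀ ≤ X →
      c * X ^ (2 / (q : ℝ)) ≤ ((OnXB P X (X ^ κ)).ncard : ℝ)) ∧
    ((∀ a ∈ pts (cv P), dgr a ≤ 2) → (rat (cv P)).card ≠ 1 → ∀ κ : ℝ, (D : ℝ) / q ≤ κ →
      ∀ δ : ℝ, 0 < δ → ∃ X₀ : ℝ, 1 ≤ X₀ ∧ ∀ X : ℝ, X₀ ≤ X →
        X ^ (2 / (q : ℝ) - δ) ≤ ((OnXB P X (X ^ κ)).ncard : ℝ) ∧
        ((OnXB P X (X ^ κ)).ncard : ℝ) ≤ X ^ (2 / (q : ℝ) + δ))) ∧
    (2 ≤ q ∧ 0 < S1 (cv P)) := by
  classical
  have hP' : ∀ i, cv P i ≠ 0 := fun i => (Polynomial.map_ne_zero_iff emb_inj).2 (hP i)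
  have hs' : ∀ i, (cv P i).Splits := fun i => by
    rw [cv_eq]
    exact (hs i).map io
  have hsum' : cv P 0 + cv P 1 = cv P 2 := by
    unfold cv
    rw [← Polynomial.map_add, hsum]
  have hcop' : IsCoprime (cv P 0) (cv P 1) := by
    rw [cv_eq, cv_eq]
    exact hcop.map (mapRingHom io)
  have hu : ∃ u : Fin 3 → K4[X], ∑ i, u i * cv P i = 1 := by
    obtain ⟨a, b, hab⟩ := hcop'
    refine ⟨![a, b, 0], ?_⟩
    rw [Fin.sum_univ_three]
    simp only [Matrix.cons_val_zero, Matrix.cons_val_one, Matrix.cons_val, zero_mul, add_zero]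
    exact hab
  have hdegK : ∀ i, (cv P i).natDegree ≤ D := fun i => by rw [deg_cv]; exact hdeg i
  have hdegK' : ∃ i, (cv P i).natDegree = D := by
    obtain ⟨i, hi⟩ := hdeg'
    exact ⟨i, by rw [deg_cv]; exact hi⟩
  have hn0 : (0 : ℝ) < Module.finrank ℚ K4 := Pool.Agent.Q10.KV.deg_pos
  have h2 : 2 ≤ q := by
    rw [← hq]
    exact two_le_pts hP' hs' hu hD hdegK'
  have hS1 : 0 < S1 (cv P) := S1_pos (by rw [hq]; exact h2)
  have hDR : (0 : ℝ) < D := by exact_mod_cast hD
  refine ⟨objects hP' hs' hu hD hdegK hdegK' hq (OnXB P) (OnX P)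
    (k := 4 + D) (by positivity) ?_ ?_ ?_, h2, hS1⟩
  · intro X B hX hB hfin
    have h3 := upper4 (A := OnXB P X B) (P := P) hfin (fun p hp => by
      obtain ⟨hO, hr, hsz⟩ := hp
      obtain ⟨t, s, hs0, hv⟩ := on_vec hsum hO
      obtain ⟨g1, g2, g3⟩ := data hO.1 hs0 hv
      refine ⟨hO.1, t, ⟨⟨g1, ?_⟩, ?_⟩, ps_val hs0 hv⟩
      · rw [g2]
        exact mul_le_mul_of_nonneg_left (Real.log_le_log (rad_pos' hO.1) hr) hn0.le
      · rw [g3]
        exact mul_le_mul_of_nonneg_left (Real.log_le_log (size_pos hO.1) hsz) hn0.le)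
    refine ⟨h3.1, h3.2.trans ?_⟩
    exact mul_le_mul_of_nonneg_right (by linarith) (Nat.cast_nonneg _)
  · intro X B hX hB hfin hfin2
    have hXp : 0 < X := by linarith
    have h3 := fibre hP' hsum' hcop' hD hdegK hdegK' hfin (fun t ht => ht.1.1 2)
    have h4 : ∀ y ∈ val (cv P) '' ParT (cv P) X (Real.log B), ∃ p, p ∈ OnXB P X B ∧ ps p = y := by
      rintro _ ⟨t, ⟨⟨g1, g2⟩, g3⟩, rfl⟩
      obtain ⟨p, hp, s, hs0, hv⟩ := exists_tri hsum g1
      obtain ⟨-, k2, k3⟩ := data hp.1 hs0 hv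
      refine ⟨p, ⟨hp, ?_, ?_⟩, ps_val hs0 hv⟩
      · rw [k2] at g2
        exact (Real.log_le_log_iff (rad_pos' hp.1) hXp).1 (le_of_mul_le_mul_left g2 hn0)
      · rw [k3] at g3
        exact (Real.log_le_log_iff (size_pos hp.1) hB).1 (le_of_mul_le_mul_left g3 hn0)
    choose! f hf using h4
    have h5 := Set.ncard_le_ncard_of_injOn f (fun y hy => (hf y hy).1) (fun y hy y' hy' hyy => by
      rw [← (hf y hy).2, ← (hf y' hy').2, hyy]) hfin2
    have h6 : (ParT (cv P) X (Real.log B)).ncard ≤ D * (OnXB P X B).ncard :=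
      h3.trans (Nat.mul_le_mul_left D h5)
    have h7 : ((ParT (cv P) X (Real.log B)).ncard : ℝ) ≤ D * ((OnXB P X B).ncard : ℝ) := by
      exact_mod_cast h6
    refine h7.trans (mul_le_mul_of_nonneg_right (by linarith) (Nat.cast_nonneg _))
  · intro X hX hfin
    have h3 := upper4 (A := OnX P X) (P := P) hfin (fun p hp => by
      obtain ⟨hO, hr⟩ := hp
      obtain ⟨t, s, hs0, hv⟩ := on_vec hsum hO
      obtain ⟨g1, g2, g3⟩ := data hO.1 hs0 hv
      refine ⟨hO.1, t, ⟨g1, ?_⟩, ps_val hs0 hv⟩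
      rw [g2]
      exact mul_le_mul_of_nonneg_left (Real.log_le_log (rad_pos' hO.1) hr) hn0.le)
    refine ⟨h3.1, h3.2.trans ?_⟩
    exact mul_le_mul_of_nonneg_right (by linarith) (Nat.cast_nonneg _)

/-! ### The zeros in `ℚ(i)` -/

open Classical in
/-- the zeros -/
noncomputable def zr (P : Fin 3 → GaussianInt[X]) : Finset (Option Qi) :=
  ((∏ i, toQi (P i)).roots.toFinset).image some ∪
    if ∃ i j, (P i).natDegree < (P j).natDegree then {none} else ∅

open Classical in
/-- the rational ones -/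
noncomputable def zq (P : Fin 3 → GaussianInt[X]) : ℕ :=
  ((zr P).filter fun a => ∃ b : Option ℚ, a = Option.map (fun x : ℚ => (x : Qi)) b).card

theorem zr_image {P : Fin 3 → GaussianInt[X]} (hs : ∀ i, (toQi (P i)).Splits)
    [DecidableEq (Option K4)] : (zr P).image (Option.map io) = pts (cv P) := by
  classical
  have e1 : ∏ i, cv P i = (∏ i, toQi (P i)).map io := by
    rw [Polynomial.map_prod]
    exact Finset.prod_congr rfl fun i _ => cv_eq P i
  have e2 : (∏ i, cv P i).roots = (∏ i, toQi (P i)).roots.map io := by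
    rw [e1]
    exact (Polynomial.Splits.prod fun i _ => hs i).roots_map io
  have e3 : Unequal (cv P) ↔ ∃ i j, (P i).natDegree < (P j).natDegree := by
    unfold Unequal
    simp only [deg_cv]
  ext a
  rw [Finset.mem_image]
  unfold zr
  constructor
  · rintro ⟨b, hb, rfl⟩
    rw [Finset.mem_union, Finset.mem_image] at hb
    rcases hb with ⟨r, hr, rfl⟩ | hb
    · rw [Option.map_some, mem_pts_some]
      unfold rts
      rw [e2, Multiset.mem_toFinset, Multiset.mem_map]
      exact ⟨r, Multiset.mem_toFinset.1 hr, rfl⟩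
    · split_ifs at hb with h
      · rw [Finset.mem_singleton] at hb
        rw [hb, Option.map_none, mem_pts_none]
        exact e3.2 h
      · simp at hb
  · intro ha
    cases a with
    | none =>
      rw [mem_pts_none] at ha
      refine ⟨none, ?_, rfl⟩
      rw [Finset.mem_union]
      right
      rw [if_pos (e3.1 ha)]
      exact Finset.mem_singleton_self _
    | some r =>
      rw [mem_pts_some] at ha
      unfold rts at ha
      rw [e2, Multiset.mem_toFinset, Multiset.mem_map] at ha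
      obtain ⟨y, hy, hyr⟩ := ha
      refine ⟨some y, ?_, by rw [Option.map_some, hyr]⟩
      rw [Finset.mem_union]
      left
      exact Finset.mem_image.2 ⟨y, Multiset.mem_toFinset.2 hy, rfl⟩

theorem map_io_inj : Function.Injective (Option.map io) := Option.map_injective io.injective

theorem card_zr {P : Fin 3 → GaussianInt[X]} (hs : ∀ i, (toQi (P i)).Splits) :
    (pts (cv P)).card = (zr P).card := by
  classical
  rw [← zr_image hs, Finset.card_image_of_injective _ map_io_inj]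

theorem dgr_one (a : Option Qi) :
    dgr (a.map io) = 1 ↔ ∃ b : Option ℚ, a = Option.map (fun x : ℚ => (x : Qi)) b := by
  cases a with
  | none =>
    constructor
    · intro _
      exact ⟨none, rfl⟩
    · intro _
      rfl
  | some r =>
    rw [Option.map_some]
    have h1 : dgr (some (io r)) = (minpoly ℚ (io r)).natDegree := rfl
    rw [h1, minpoly.natDegree_eq_one_iff]
    constructor
    · rintro ⟨x, hx⟩
      refine ⟨some x, ?_⟩
      rw [Option.map_some]
      congr 1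
      apply io.injective
      rw [map_ratCast, ← hx]
      rfl
    · rintro ⟨b, hb⟩
      cases b with
      | none => rw [Option.map_none] at hb; exact absurd hb (by simp)
      | some x =>
        rw [Option.map_some, Option.some.injEq] at hb
        refine ⟨x, ?_⟩
        rw [hb, map_ratCast]
        rfl

theorem card_zq {P : Fin 3 → GaussianInt[X]} (hs : ∀ i, (toQi (P i)).Splits) :
    (rat (cv P)).card = zq P := by
  classical
  unfold rat zq
  rw [← zr_image hs, Finset.filter_image, Finset.card_image_of_injective _ map_io_inj]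
  congr 1
  refine Finset.filter_congr fun a _ => ?_
  exact dgr_one a

theorem dgr_two (a : Option K4) : dgr a ≤ 2 := by
  cases a with
  | none => exact one_le_two
  | some r =>
    have h1 : dgr (some r) = (minpoly ℚ r).natDegree := rfl
    rw [h1]
    exact (minpoly.natDegree_le r).trans (le_of_eq finrank4)

/-- the number which determines the exponent: all zeros, but not a single rational zero -/
noncomputable def zs (P : Fin 3 → GaussianInt[X]) : ℕ :=
  if zq P = 1 then (zr P).card - 1 else (zr P).card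

theorem S1_zs {P : Fin 3 → GaussianInt[X]} (hs : ∀ i, (toQi (P i)).Splits) :
    S1 (cv P) = (zs P : ℝ) / 2 := by
  classical
  unfold zs
  by_cases h1 : zq P = 1
  · rw [if_pos h1]
    unfold S1
    rw [card_zq hs, h1, if_neg (by norm_num), add_zero]
    have hcard := Finset.card_filter_add_card_filter_not (s := pts (cv P)) (fun a => dgr a = 1)
    have e1 : (pts (cv P)).filter (fun a => ¬ dgr a = 1) =
        (pts (cv P)).filter (fun a => 2 ≤ dgr a) := by
      refine Finset.filter_congr fun a _ => ?_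
      have := dgr_pos a
      omega
    have e2 : ((pts (cv P)).filter (fun a => dgr a = 1)).card = 1 := by
      have h5 := card_zq hs
      unfold rat at h5
      rw [h1] at h5
      exact h5
    rw [e1, e2, card_zr hs] at hcard
    have e3 : ∑ a ∈ (pts (cv P)).filter (fun a => 2 ≤ dgr a), 1 / (dgr a : ℝ) =
        ∑ a ∈ (pts (cv P)).filter (fun a => 2 ≤ dgr a), (1 : ℝ) / 2 := by
      refine Finset.sum_congr rfl fun a ha => ?_
      have h3 := (Finset.mem_filter.1 ha).2
      have h4 : dgr a = 2 := le_antisymm (dgr_two a) h3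
      rw [h4]
      norm_num
    rw [e3, Finset.sum_const, nsmul_eq_mul]
    have e4 : ((pts (cv P)).filter (fun a => 2 ≤ dgr a)).card = (zr P).card - 1 := by omega
    rw [e4]
    ring
  · rw [if_neg h1, S1_two (fun a _ => dgr_two a) (by rw [card_zq hs]; exact h1), card_zr hs]

theorem S2_zq {P : Fin 3 → GaussianInt[X]} (hs : ∀ i, (toQi (P i)).Splits) :
    S2 (cv P) = if 3 ≤ zq P then (zq P : ℝ) / 2 else 0 := by
  classical
  unfold S2
  rw [card_zq hs]
  have e1 : (pts (cv P)).filter (fun a => 3 ≤ dgr a) = ∅ := by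
    refine Finset.filter_eq_empty_iff.2 fun a _ => ?_
    have := dgr_two a
    omega
  rw [e1, Finset.sum_empty, zero_add]

end Pool.Agent.Q10.KZ.Gi
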