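import Pool.Agent.Q10.KZ9
import Pool.Agent.Results.MP_2a5a28_nt.AllThinSetsAtOnce

/-!
Triples of integers of `ℚ(√5)` on curves at rational parameters
-/

set_option autoImplicit false

namespace Pool.Agent.Q10.KZ.Go

open NumberField IsDedekindDomain Polynomial Finset
open Pool.Agent.Results.MP_2a5a28_nt.AllThinSetsAtOnce
open Pool.Agent.Q10.KY Pool.Agent.Q10.KZ
open Pool.Agent.H691R3 (fv Nv)
open Pool.Agent.TH876.TM (supp)

variable {K : Type} [Field K] [NumberField K]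

theorem supp_iff'' (x : Fin 3 → K) (v : HeightOneSpectrum (𝓞 K)) :
    v ∈ supp x ↔ ∃ i j, fv v (x i) ≠ fv v (x j) := by
  have key : ∀ a b : K, fv v a = fv v b ↔ v.valuation K a = v.valuation K b := by
    intro a b
    constructor
    · intro h
      refine le_antisymm ?_ ?_
      · rw [← not_lt, ← Pool.Agent.Y728.AK.fv_lt_iff, h]
        exact lt_irrefl _
      · rw [← not_lt, ← Pool.Agent.Y728.AK.fv_lt_iff, h]
        exact lt_irrefl _
    · intro h
      refine le_antisymm ?_ ?_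
      · rw [← not_lt, Pool.Agent.Y728.AK.fv_lt_iff, h]
        exact lt_irrefl _
      · rw [← not_lt, Pool.Agent.Y728.AK.fv_lt_iff, h]
        exact lt_irrefl _
  unfold supp
  rw [Set.mem_ofPred_eq]
  refine exists_congr fun i => exists_congr fun j => ?_
  rw [Ne, Ne, key]

theorem rS_eq' (x : Fin 3 → K) : Pool.Agent.Y557.U.rS
    (((∅ : Finset (HeightOneSpectrum (𝓞 K))) : Set (HeightOneSpectrum (𝓞 K)))) x =
    (∑ᶠ v ∈ {v : HeightOneSpectrum (𝓞 K) | ∃ i j, fv v (x i) ≠ fv v (x j)}, Real.log (Nv v)) /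
      (Module.finrank ℚ K : ℝ) := by
  have h : {v : HeightOneSpectrum (𝓞 K) | v ∉ ((∅ : Finset (HeightOneSpectrum (𝓞 K))) :
      Set (HeightOneSpectrum (𝓞 K))) ∧ v ∈ supp x} =
      {v : HeightOneSpectrum (𝓞 K) | ∃ i j, fv v (x i) ≠ fv v (x j)} := by
    ext v
    rw [Set.mem_ofPred_eq, Set.mem_ofPred_eq, supp_iff'']
    simp
  unfold Pool.Agent.Y557.U.rS
  rw [h]
  rfl

/-- the triples proportional to the values at rational parameters -/
def On (P : Fin 3 → K[X]) (t : 𝓞 K × 𝓞 K × 𝓞 K) : Prop :=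
  Triple t ∧ ∃ (τ : ℚ) (s : K), (t.1 : K) = s * (P 0).eval (τ : K) ∧
    (t.2.1 : K) = s * (P 1).eval (τ : K) ∧ (t.2.2 : K) = s * (P 2).eval (τ : K)

/-- the classes: the ratios `a / c` -/
noncomputable def ratio (t : 𝓞 K × 𝓞 K × 𝓞 K) : K := (t.1 : K) / (t.2.2 : K)

/-- small radical and height -/
def OnXB (P : Fin 3 → K[X]) (X B : ℝ) : Set K :=
  {y | ∃ t, On P t ∧ rad t ≤ X ∧ height t ≤ B ∧ ratio t = y}

/-- small radical -/
def OnX (P : Fin 3 → K[X]) (X : ℝ) : Set K := {y | ∃ t, On P t ∧ rad t ≤ X ∧ ratio t = y}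

theorem data {P : Fin 3 → K[X]} {t : 𝓞 K × 𝓞 K × 𝓞 K} (hT : Triple t)
    {τ : ℚ} {s : K} (h0 : (t.1 : K) = s * (P 0).eval (τ : K))
    (h1 : (t.2.1 : K) = s * (P 1).eval (τ : K)) (h2 : (t.2.2 : K) = s * (P 2).eval (τ : K)) :
    (∀ i, (P i).eval (τ : K) ≠ 0) ∧ rdK P (τ : K) = Real.log (rad t) ∧
    Height.logHeight (fun i => (P i).eval (τ : K)) = Real.log (height t) ∧
    ratio t = (P 0).eval (τ : K) / (P 2).eval (τ : K) := by
  have hn0 : (0 : ℝ) < Module.finrank ℚ K := Pool.Agent.Q10.KV.deg_pos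
  have hs : s ≠ 0 := by
    rintro rfl
    rw [zero_mul] at h0
    exact left_ne_zero_of_mul (left_ne_zero_of_mul hT.ne) (RingOfIntegers.coe_eq_zero_iff.1 h0)
  obtain ⟨k1, k2, k3⟩ := class_eq hT (y := fun i => (P i).eval (τ : K)) hs h0 h1 h2
  refine ⟨k1, ?_, ?_, ?_⟩
  · rw [rS_eq'] at k2
    have h3 : rdK P (τ : K) / (Module.finrank ℚ K : ℝ) = Real.log (rad t) /
        (Module.finrank ℚ K : ℝ) := k2
    field_simp at h3
    exact h3
  · have h3 : Height.logHeight (fun i => (P i).eval (τ : K)) / (Module.finrank ℚ K : ℝ) =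
        Real.log (height t) / (Module.finrank ℚ K : ℝ) := k3
    field_simp at h3
    exact h3
  · unfold ratio
    rw [h0, h2, mul_div_mul_left _ _ hs]

theorem height_pos' {t : 𝓞 K × 𝓞 K × 𝓞 K} (h : Triple t) : 0 < height t := height_pos h

/-- curve with the last coordinate negated -/
noncomputable def neg2 (P : Fin 3 → K[X]) : Fin 3 → K[X] := ![P 0, P 1, -P 2]

/-- **the packaged theorem** -/
theorem main (hK : Module.finrank ℚ K = 2) (h5 : ∃ s : K, s ^ 2 = 5) {P : Fin 3 → K[X]}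
    (hP : ∀ i, P i ≠ 0) (hsum : P 0 + P 1 + P 2 = 0)
    (hcop : IsCoprime (P 0) (P 1)) (hs : ∀ i, (P i).Splits)
    {D : ℕ} (hD : 1 ≤ D) (hdeg : ∀ i, (P i).natDegree ≤ D) (hdeg' : ∃ i, (P i).natDegree = D)
    {q : ℕ} (hq : (pts P).card = q) :
    ((∀ κ ε : ℝ, 0 < κ → 0 < ε → ∃ C : ℝ, 0 < C ∧ ∀ X : ℝ, 1 ≤ X →
      (OnXB P (X ^ 2) ((X ^ κ) ^ 2)).Finite ∧ ((OnXB P (X ^ 2) ((X ^ κ) ^ 2)).ncard : ℝ) ≤
        C * X ^ (1 / S1 P + ε)) ∧
    (0 < S2 P → ∀ ε : ℝ, 0 < ε → ∃ C : ℝ, 0 < C ∧ ∀ X : ℝ, 1 ≤ X →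
      (OnX P (X ^ 2)).Finite ∧ ((OnX P (X ^ 2)).ncard : ℝ) ≤ C * X ^ (1 / S2 P + ε)) ∧
    (∀ κ : ℝ, (D : ℝ) / q ≤ κ → ∃ c : ℝ, 0 < c ∧ ∃ X₀ : ℝ, 1 ≤ X₀ ∧ ∀ X : ℝ, X₀ ≤ X →
      c * X ^ (2 / (q : ℝ)) ≤ ((OnXB P (X ^ 2) ((X ^ κ) ^ 2)).ncard : ℝ)) ∧
    ((∀ a ∈ pts P, dgr a ≤ 2) → (rat P).card ≠ 1 → ∀ κ : ℝ, (D : ℝ) / q ≤ κ →
      ∀ δ : ℝ, 0 < δ → ∃ X₀ : ℝ, 1 ≤ X₀ ∧ ∀ X : ℝ, X₀ ≤ X →
        X ^ (2 / (q : ℝ) - δ) ≤ ((OnXB P (X ^ 2) ((X ^ κ) ^ 2)).ncard : ℝ) ∧
        ((OnXB P (X ^ 2) ((X ^ κ) ^ 2)).ncard : ℝ) ≤ X ^ (2 / (q : ℝ) + δ))) ∧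
    (2 ≤ q ∧ 0 < S1 P) := by
  classical
  have hu : ∃ u : Fin 3 → K[X], ∑ i, u i * P i = 1 := by
    obtain ⟨a, b, hab⟩ := hcop
    refine ⟨![a, b, 0], ?_⟩
    rw [Fin.sum_univ_three]
    simp only [Matrix.cons_val_zero, Matrix.cons_val_one, Matrix.cons_val, zero_mul, add_zero]
    exact hab
  have hn0 : (0 : ℝ) < Module.finrank ℚ K := Pool.Agent.Q10.KV.deg_pos
  have hn2 : (Module.finrank ℚ K : ℝ) = 2 := by rw [hK]; norm_num
  have h2 : 2 ≤ q := by
    rw [← hq]
    exact two_le_pts hP hs hu hD hdeg'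
  have hS1 : 0 < S1 P := S1_pos (by rw [hq]; exact h2)
  have hDR : (1 : ℝ) ≤ D := by exact_mod_cast hD
  have hvl : ∀ (τ : ℚ), (P 0).eval (τ : K) / (P 2).eval (τ : K) = val P τ := fun τ => rfl
  -- the fibres
  have hfib : ∀ S : Set ℚ, S.Finite → (∀ τ ∈ S, (P 2).eval (τ : K) ≠ 0) →
      S.ncard ≤ D * (val P '' S).ncard := by
    intro S hS hne
    have hQ0 : ∀ i, neg2 P i ≠ 0 := by
      intro i
      fin_cases i
      · exact hP 0
      · exact hP 1
      · exact neg_ne_zero.2 (hP 2)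
    have hQd : ∀ i, (neg2 P i).natDegree = (P i).natDegree := by
      intro i
      fin_cases i
      · rfl
      · rfl
      · exact natDegree_neg _
    have hQs : neg2 P 0 + neg2 P 1 = neg2 P 2 := by
      show P 0 + P 1 = -P 2
      linear_combination hsum
    have h3 := fibre (P := neg2 P) hQ0 hQs hcop hD (fun i => by rw [hQd]; exact hdeg i)
      (by obtain ⟨i, hi⟩ := hdeg'; exact ⟨i, by rw [hQd]; exact hi⟩) hS (fun τ hτ => by
        show (-P 2).eval (τ : K) ≠ 0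
        rw [eval_neg]
        exact neg_ne_zero.2 (hne τ hτ))
    refine h3.trans (Nat.mul_le_mul_left D ?_)
    have h4 : val (neg2 P) '' S ⊆ Neg.neg '' (val P '' S) := by
      rintro _ ⟨τ, hτ, rfl⟩
      refine ⟨val P τ, ⟨τ, hτ, rfl⟩, ?_⟩
      show -((P 0).eval (τ : K) / (P 2).eval (τ : K)) = (P 0).eval (τ : K) / (-P 2).eval (τ : K)
      rw [eval_neg, div_neg]
    exact (Set.ncard_le_ncard h4 ((hS.image _).image _)).trans (Set.ncard_image_le (hS.image _))
  refine ⟨objects hP hs hu hD hdeg hdeg' hq (fun X B => OnXB P (X ^ 2) (B ^ 2))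
    (fun X => OnX P (X ^ 2)) (k := (D : ℝ)) (by linarith) ?_ ?_ ?_, h2, hS1⟩
  · intro X B hX hB hfin
    have hXp : 0 < X := by linarith
    have hsub : OnXB P (X ^ 2) (B ^ 2) ⊆ val P '' ParT P X (Real.log B) := by
      rintro y ⟨t, ⟨hT, τ, s, e0, e1, e2⟩, hr, hh, rfl⟩
      obtain ⟨g1, g2, g3, g4⟩ := data hT e0 e1 e2
      refine ⟨τ, ⟨⟨g1, ?_⟩, ?_⟩, g4.symm⟩
      · rw [g2, hn2]
        have := Real.log_le_log (rad_pos hT) hr
        rw [Real.log_pow] at this
        push_cast at this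
        exact this
      · rw [g3, hn2]
        have := Real.log_le_log (height_pos hT) hh
        rw [Real.log_pow] at this
        push_cast at this
        exact this
    have h3 := Set.ncard_le_ncard hsub (hfin.image _)
    have h4 := Set.ncard_image_le (f := val P) hfin
    refine ⟨(hfin.image _).subset hsub, ?_⟩
    have h5 : ((OnXB P (X ^ 2) (B ^ 2)).ncard : ℝ) ≤ ((ParT P X (Real.log B)).ncard : ℝ) := by
      exact_mod_cast h3.trans h4
    refine h5.trans (le_mul_of_one_le_left (Nat.cast_nonneg _) hDR)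
  · intro X B hX hB hfin hfin2
    have hXp : 0 < X := by linarith
    have h3 := hfib _ hfin (fun τ hτ => hτ.1.1 2)
    have hsub : val P '' ParT P X (Real.log B) ⊆ OnXB P (X ^ 2) (B ^ 2) := by
      rintro _ ⟨τ, ⟨⟨g1, g2⟩, g3⟩, rfl⟩
      have hs0 : (P 0).eval (τ : K) + (P 1).eval (τ : K) + (P 2).eval (τ : K) = 0 := by
        rw [← eval_add, ← eval_add, hsum, eval_zero]
      obtain ⟨t, hT, s, hs', e0, e1, e2⟩ := exists_triple hK h5
        (y := fun i => (P i).eval (τ : K)) g1 hs0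
      obtain ⟨-, k2, k3, k4⟩ := data hT e0 e1 e2
      refine ⟨t, ⟨hT, τ, s, e0, e1, e2⟩, ?_, ?_, k4⟩
      · rw [k2, hn2] at g2
        have h6 : Real.log (rad t) ≤ Real.log (X ^ 2) := by
          rw [Real.log_pow]
          push_cast
          exact g2
        exact (Real.log_le_log_iff (rad_pos hT) (by positivity)).1 h6
      · rw [k3, hn2] at g3
        have h6 : Real.log (height t) ≤ Real.log (B ^ 2) := by
          rw [Real.log_pow]
          push_cast
          exact g3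
        exact (Real.log_le_log_iff (height_pos hT) (by positivity)).1 h6
    have h4 := Set.ncard_le_ncard hsub hfin2
    exact_mod_cast h3.trans (Nat.mul_le_mul_left D h4)
  · intro X hX hfin
    have hsub : OnX P (X ^ 2) ⊆ val P '' Par P X := by
      rintro y ⟨t, ⟨hT, τ, s, e0, e1, e2⟩, hr, rfl⟩
      obtain ⟨g1, g2, g3, g4⟩ := data hT e0 e1 e2
      refine ⟨τ, ⟨g1, ?_⟩, g4.symm⟩
      rw [g2, hn2]
      have := Real.log_le_log (rad_pos hT) hr
      rw [Real.log_pow] at this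
      push_cast at this
      exact this
    have h3 := Set.ncard_le_ncard hsub (hfin.image _)
    have h4 := Set.ncard_image_le (f := val P) hfin
    refine ⟨(hfin.image _).subset hsub, ?_⟩
    have h5 : ((OnX P (X ^ 2)).ncard : ℝ) ≤ ((Par P X).ncard : ℝ) := by
      exact_mod_cast h3.trans h4
    refine h5.trans (le_mul_of_one_le_left (Nat.cast_nonneg _) hDR)

theorem rat_finite (R : ℝ) : {x : ℚ | max |(x.num : ℝ)| |((x.den : ℤ) : ℝ)| ≤ R}.Finite := by
  have h1 : (Set.Icc (-⌈R⌉) ⌈R⌉ ×ˢ Set.Icc (-⌈R⌉) ⌈R⌉).Finite :=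
    (Set.finite_Icc _ _).prod (Set.finite_Icc _ _)
  have hinj : Set.InjOn (fun x : ℚ => (x.num, (x.den : ℤ)))
      {x : ℚ | max |(x.num : ℝ)| |((x.den : ℤ) : ℝ)| ≤ R} := by
    intro a _ b _ hab
    have h2 := congrArg Prod.fst hab
    have h3 : (a.den : ℤ) = (b.den : ℤ) := congrArg Prod.snd hab
    exact Rat.ext h2 (by exact_mod_cast h3)
  refine Set.Finite.of_finite_image (h1.subset ?_) hinj
  rintro _ ⟨x, hx, rfl⟩
  have key : ∀ m : ℤ, |(m : ℝ)| ≤ R → m ∈ Set.Icc (-⌈R⌉) ⌈R⌉ := by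
    intro m hm
    have h5 : |m| ≤ ⌈R⌉ := by
      have : ((|m| : ℤ) : ℝ) ≤ (⌈R⌉ : ℝ) := by
        push_cast
        exact hm.trans (Int.le_ceil R)
      exact_mod_cast this
    exact abs_le.1 h5
  exact ⟨key _ ((le_max_left _ _).trans hx), key _ ((le_max_right _ _).trans hx)⟩

/-- the parameters of bounded height are finite in number -/
theorem par_finite {P : Fin 3 → K[X]} (hP : ∀ i, P i ≠ 0)
    (hu : ∃ u : Fin 3 → K[X], ∑ i, u i * P i = 1) {D : ℕ} (hD : 1 ≤ D)
    (hdeg : ∀ i, (P i).natDegree ≤ D) (hdeg' : ∃ i, (P i).natDegree = D) (b : ℝ) :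
    {τ : ℚ | Height.logHeight (fun i => (P i).eval (τ : K)) ≤ b}.Finite := by
  have hn0 : (0 : ℝ) < Module.finrank ℚ K := Pool.Agent.Q10.KV.deg_pos
  obtain ⟨i0, hi0⟩ := hdeg'
  obtain ⟨C, hC⟩ := Pool.Agent.Y557.NF.le_curve_height P hu hdeg ⟨i0, hi0, hP i0⟩
  have hDR : (1 : ℝ) ≤ D := by exact_mod_cast hD
  refine (rat_finite (Real.exp ((|b| + |C|) / (Module.finrank ℚ K : ℝ)))).subset ?_
  intro τ hτ
  have h1 := hC (τ : K)
  have h2 : Height.logHeight (fun i => (P i).eval (τ : K)) ≤ b := hτ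
  have h3 := lh1_rat (K := K) τ
  have hpos := max_pos' τ
  have h4 : 0 ≤ Height.logHeight₁ (τ : K) := Height.zero_le_logHeight₁ _
  have h5 : Height.logHeight₁ (τ : K) ≤ |b| + |C| := by
    have := le_abs_self b
    have := neg_abs_le C
    nlinarith
  rw [h3] at h5
  show max |(τ.num : ℝ)| |((τ.den : ℤ) : ℝ)| ≤ _
  rw [← Real.log_le_iff_le_exp hpos, le_div_iff₀ hn0]
  linarith

/-! ### Quadratic fields: the exponents -/

open Classical in
/-- the number of the rational points among the zeros -/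
noncomputable def zq (P : Fin 3 → K[X]) : ℕ :=
  ((pts P).filter fun a => ∃ b : Option ℚ, a = Option.map (fun x : ℚ => (x : K)) b).card

theorem dgr_one (a : Option K) :
    dgr a = 1 ↔ ∃ b : Option ℚ, a = Option.map (fun x : ℚ => (x : K)) b := by
  cases a with
  | none =>
    constructor
    · intro _
      exact ⟨none, rfl⟩
    · intro _
      rfl
  | some r =>
    have h1 : dgr (some r) = (minpoly ℚ r).natDegree := rfl
    rw [h1, minpoly.natDegree_eq_one_iff]
    constructor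
    · rintro ⟨x, hx⟩
      refine ⟨some x, ?_⟩
      rw [Option.map_some]
      congr 1
      exact hx.symm
    · rintro ⟨b, hb⟩
      cases b with
      | none => rw [Option.map_none] at hb; exact absurd hb (by simp)
      | some x =>
        rw [Option.map_some, Option.some.injEq] at hb
        exact ⟨x, hb.symm⟩

theorem card_zq (P : Fin 3 → K[X]) : (rat P).card = zq P := by
  classical
  unfold rat zq
  congr 1
  exact Finset.filter_congr fun a _ => dgr_one a

theorem dgr_two (hK : Module.finrank ℚ K = 2) (a : Option K) : dgr a ≤ 2 := by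
  cases a with
  | none => exact one_le_two
  | some r =>
    have h1 : dgr (some r) = (minpoly ℚ r).natDegree := rfl
    rw [h1]
    exact (minpoly.natDegree_le r).trans (le_of_eq hK)

/-- the number which determines the exponent: all zeros, but not a single rational zero -/
noncomputable def zs (P : Fin 3 → K[X]) : ℕ :=
  if zq P = 1 then (pts P).card - 1 else (pts P).card

theorem S1_zs (hK : Module.finrank ℚ K = 2) (P : Fin 3 → K[X]) : S1 P = (zs P : ℝ) / 2 := by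
  classical
  unfold zs
  by_cases h1 : zq P = 1
  · rw [if_pos h1]
    unfold S1
    rw [card_zq, h1, if_neg (by norm_num), add_zero]
    have hcard := Finset.card_filter_add_card_filter_not (s := pts P) (fun a => dgr a = 1)
    have e1 : (pts P).filter (fun a => ¬ dgr a = 1) = (pts P).filter (fun a => 2 ≤ dgr a) := by
      refine Finset.filter_congr fun a _ => ?_
      have := dgr_pos a
      omega
    have e2 : ((pts P).filter (fun a => dgr a = 1)).card = 1 := by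
      have h5 := card_zq P
      unfold rat at h5
      rw [h1] at h5
      exact h5
    rw [e1, e2] at hcard
    have e3 : ∑ a ∈ (pts P).filter (fun a => 2 ≤ dgr a), 1 / (dgr a : ℝ) =
        ∑ a ∈ (pts P).filter (fun a => 2 ≤ dgr a), (1 : ℝ) / 2 := by
      refine Finset.sum_congr rfl fun a ha => ?_
      have h3 := (Finset.mem_filter.1 ha).2
      have h4 : dgr a = 2 := le_antisymm (dgr_two hK a) h3
      rw [h4]
      norm_num
    rw [e3, Finset.sum_const, nsmul_eq_mul]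
    have e4 : ((pts P).filter (fun a => 2 ≤ dgr a)).card = (pts P).card - 1 := by omega
    rw [e4]
    ring
  · rw [if_neg h1, S1_two (fun a _ => dgr_two hK a) (by rw [card_zq]; exact h1)]

theorem S2_zq (hK : Module.finrank ℚ K = 2) (P : Fin 3 → K[X]) :
    S2 P = if 3 ≤ zq P then (zq P : ℝ) / 2 else 0 := by
  classical
  unfold S2
  rw [card_zq]
  have e1 : (pts P).filter (fun a => 3 ≤ dgr a) = ∅ := by
    refine Finset.filter_eq_empty_iff.2 fun a _ => ?_
    have := dgr_two hK a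
    omega
  rw [e1, Finset.sum_empty, zero_add]

end Pool.Agent.Q10.KZ.Go
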