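import Pool.Agent.Q10.KZ8

/-!
# The exponent in the case of factors of degree at most two
-/

set_option autoImplicit false

namespace Pool.Agent.Q10.KZ

open Polynomial UniqueFactorizationMonoid

variable {n : ℕ}

/-- If the irreducible factors have degree at most two and not exactly one of the zeros is rational,
then `2 T1` is the number of the zeros. -/
theorem two_T1 {P : Fin n → ℚ[X]} (hP : ∀ i, P i ≠ 0) (h2 : ∀ g ∈ fac P, g.natDegree ≤ 2)
    (h1 : nL P ≠ 1) : 2 * T1 P = nQ P := by
  classical
  have hpos : ∀ g ∈ fac P, 1 ≤ g.natDegree := by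
    intro g hg
    have h := ((mem_fac hP).1 hg).1
    exact h.natDegree_pos
  have e1 : ∑ g ∈ fac P, g.natDegree =
      ((fac P).filter fun g => g.natDegree = 1).card +
        2 * ((fac P).filter fun g => 2 ≤ g.natDegree).card := by
    rw [Finset.card_filter, Finset.card_filter, Finset.mul_sum, ← Finset.sum_add_distrib]
    refine Finset.sum_congr rfl fun g hg => ?_
    have a1 := hpos g hg
    have a2 := h2 g hg
    by_cases h : g.natDegree = 1
    · rw [if_pos h, if_neg (by omega)]
      omega
    · rw [if_neg h, if_pos (by omega)]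
      omega
  have e2 : nQ P = nL P + 2 * ((fac P).filter fun g => 2 ≤ g.natDegree).card := by
    unfold nQ nL
    rw [e1]
    omega
  rw [e2]
  unfold T1
  push_cast
  by_cases h : 2 ≤ nL P
  · rw [if_pos h]
    ring
  · rw [if_neg h]
    have h0 : nL P = 0 := by omega
    rw [h0]
    push_cast
    ring

end Pool.Agent.Q10.KZ
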