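import Pool.Agent.Q10.KZ9
import Pool.Agent.Q10.KZ2

/-!
Violations at the rational parameters of a split curve over a number field
-/

set_option autoImplicit false

namespace Pool.Agent.Q10.KZ

open NumberField Finset Polynomial
open Pool.Agent.Q10.KY Pool.Agent.Q10.KV

variable {K : Type} [Field K] [NumberField K] {n : ℕ} {P : Fin n → K[X]}

theorem rat_finite (R : ℝ) : {x : ℚ | max |(x.num : ℝ)| |((x.den : ℤ) : ℝ)| ≤ R}.Finite := by
  have h1 : (Set.Icc (-⌈R⌉) ⌈R⌉ ×ˢ Set.Icc (-⌈R⌉) ⌈R⌉).Finite :=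
    (Set.finite_Icc _ _).prod (Set.finite_Icc _ _)
  have hinj : Set.InjOn (fun x : ℚ => (x.num, (x.den : ℤ)))
      {x : ℚ | max |(x.num : ℝ)| |((x.den : ℤ) : ℝ)| ≤ R} := by
    intro a _ b _ hab
    have h2 := congrArg Prod.fst hab
    have h3 : (a.den : ℤ) = (b.den : ℤ) := congrArg Prod.snd hab
    exact Rat.ext h2 (by exact_mod_cast h3)
  refine Set.Finite.of_finite_image (h1.subset ?_) hinj
  rintro _ ⟨x, hx, rfl⟩
  have key : ∀ m : ℤ, |(m : ℝ)| ≤ R → m ∈ Set.Icc (-⌈R⌉) ⌈R⌉ := by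
    intro m hm
    have h5 : |m| ≤ ⌈R⌉ := by
      have : ((|m| : ℤ) : ℝ) ≤ (⌈R⌉ : ℝ) := by
        push_cast
        exact hm.trans (Int.le_ceil R)
      exact_mod_cast this
    exact abs_le.1 h5
  exact ⟨key _ ((le_max_left _ _).trans hx), key _ ((le_max_right _ _).trans hx)⟩

/-- the parameters of bounded height are finite in number -/
theorem par_finite (hP : ∀ i, P i ≠ 0)
    (hu : ∃ u : Fin n → K[X], ∑ i, u i * P i = 1) {D : ℕ} (hD : 1 ≤ D)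
    (hdeg : ∀ i, (P i).natDegree ≤ D) (hdeg' : ∃ i, (P i).natDegree = D) (b : ℝ) :
    {x : ℚ | Height.logHeight (fun i => (P i).eval (x : K)) ≤ b}.Finite := by
  have hn0 : (0 : ℝ) < Module.finrank ℚ K := Pool.Agent.Q10.KV.deg_pos
  obtain ⟨i0, hi0⟩ := hdeg'
  obtain ⟨C, hC⟩ := Pool.Agent.Y557.NF.le_curve_height P hu hdeg ⟨i0, hi0, hP i0⟩
  have hDR : (1 : ℝ) ≤ D := by exact_mod_cast hD
  refine (rat_finite (Real.exp ((|b| + |C|) / (Module.finrank ℚ K : ℝ)))).subset ?_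
  intro x hx
  have h1 := hC (x : K)
  have h2 : Height.logHeight (fun i => (P i).eval (x : K)) ≤ b := hx
  have h3 := lh1_rat (K := K) x
  have hpos := max_pos' x
  have h4 : 0 ≤ Height.logHeight₁ (x : K) := Height.zero_le_logHeight₁ _
  have h5 : Height.logHeight₁ (x : K) ≤ |b| + |C| := by
    have := le_abs_self b
    have := neg_abs_le C
    nlinarith
  rw [h3] at h5
  show max |(x.num : ℝ)| |((x.den : ℤ) : ℝ)| ≤ _
  rw [← Real.log_le_iff_le_exp hpos, le_div_iff₀ hn0]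
  linarith

/-- all rational parameters with nonzero coordinates and height at most `T` -/
def AllP (P : Fin n → K[X]) (T : ℝ) : Set ℚ :=
  {x : ℚ | (∀ i, (P i).eval (x : K) ≠ 0) ∧
    Height.logHeight (fun i => (P i).eval (x : K)) / (Module.finrank ℚ K : ℝ) ≤ T}

/-- those which violate `h ≤ M rad + c` -/
def VioP (P : Fin n → K[X]) (M c T : ℝ) : Set ℚ :=
  {x : ℚ | x ∈ AllP P T ∧ M * (rdK P (x : K) / (Module.finrank ℚ K : ℝ)) + c <
    Height.logHeight (fun i => (P i).eval (x : K)) / (Module.finrank ℚ K : ℝ)}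

theorem allP_finite (hP : ∀ i, P i ≠ 0)
    (hu : ∃ u : Fin n → K[X], ∑ i, u i * P i = 1) {D : ℕ} (hD : 1 ≤ D)
    (hdeg : ∀ i, (P i).natDegree ≤ D) (hdeg' : ∃ i, (P i).natDegree = D) (T : ℝ) :
    (AllP P T).Finite := by
  have hn0 : (0 : ℝ) < Module.finrank ℚ K := Pool.Agent.Q10.KV.deg_pos
  refine (par_finite hP hu hD hdeg hdeg' (T * (Module.finrank ℚ K : ℝ))).subset ?_
  rintro x ⟨-, h⟩
  rw [div_le_iff₀ hn0] at h
  exact h

/-- transfer of `viol_abs` to logarithmic heights -/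
theorem viol_log {α : Type} (h r : α → ℝ) (G : Set α) {S D q : ℝ} (hS : 0 < S) (hD : 0 < D)
    (hq : 0 < q)
    (p1 : ∀ κ ε : ℝ, 0 < κ → 0 < ε → ∃ C : ℝ, 0 < C ∧ ∀ X : ℝ, 1 ≤ X →
      {x | x ∈ G ∧ r x ≤ Real.log X ∧ h x ≤ κ * Real.log X}.Finite ∧
      ({x | x ∈ G ∧ r x ≤ Real.log X ∧ h x ≤ κ * Real.log X}.ncard : ℝ) ≤ C * X ^ (1 / S + ε))
    (p3 : ∀ κ : ℝ, D / q < κ → ∃ c : ℝ, 0 < c ∧ ∃ X₀ : ℝ, 1 ≤ X₀ ∧ ∀ X : ℝ, X₀ ≤ X →
      c * X ^ (2 / q) ≤ ({x | x ∈ G ∧ r x ≤ Real.log X ∧ h x ≤ κ * Real.log X}.ncard : ℝ))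
    (hfin : ∀ T : ℝ, {x | x ∈ G ∧ h x ≤ T}.Finite) :
    (∀ M c δ : ℝ, 0 < M → 0 < δ → ∃ C : ℝ, 0 < C ∧ ∀ T : ℝ, 0 ≤ T →
      ({x | x ∈ G ∧ h x ≤ T ∧ M * r x + c < h x}.ncard : ℝ) ≤
        C * Real.exp ((1 / (S * M) + δ) * T)) ∧
    (∀ δ : ℝ, 0 < δ → ∃ T₀ : ℝ, ∀ T : ℝ, T₀ ≤ T →
      Real.exp ((2 / D - δ) * T) ≤ ({x | x ∈ G ∧ h x ≤ T}.ncard : ℝ)) ∧
    (∀ M c : ℝ, D / (2 * S) < M → ∃ ν : ℝ, 0 < ν ∧ ∃ T₀ : ℝ, ∀ T : ℝ, T₀ ≤ T →
      ({x | x ∈ G ∧ h x ≤ T ∧ M * r x + c < h x}.ncard : ℝ) ≤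
        Real.exp (-ν * T) * ({x | x ∈ G ∧ h x ≤ T}.ncard : ℝ)) := by
  have hexp : ∀ X κ : ℝ, 1 ≤ X → ∀ y : ℝ, Real.exp y ≤ X ^ κ ↔ y ≤ κ * Real.log X := by
    intro X κ hX y
    have hXp : 0 < X := by linarith
    rw [Real.rpow_def_of_pos hXp, Real.exp_le_exp, mul_comm]
  obtain ⟨v1, v2, v3⟩ := viol_abs
    (fun X B => {x | x ∈ G ∧ r x ≤ Real.log X ∧ Real.exp (h x) ≤ B})
    (fun B => {x | x ∈ G ∧ Real.exp (h x) ≤ B})
    (fun M c B => {x | x ∈ G ∧ Real.exp (h x) ≤ B ∧ M * r x + Real.log c < h x})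
    hS hD hq
    (fun κ ε hκ hε => by
      obtain ⟨C, hC, hm⟩ := p1 κ ε hκ hε
      refine ⟨C, hC, fun X hX => ?_⟩
      simp only [hexp X κ hX]
      exact hm X hX)
    (fun κ hκ => by
      obtain ⟨c, hc, X₀, hX₀, hm⟩ := p3 κ hκ
      refine ⟨c, hc, X₀, hX₀, fun X hX => ?_⟩
      simp only [hexp X κ (hX₀.trans hX)]
      exact hm X hX)
    (fun M c B X hM hc hX hB1 hB2 x hx => by
      obtain ⟨g1, g2, g3⟩ := hx
      have hXp : 0 < X := by linarith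
      have hBp : 0 < B := lt_of_lt_of_le (Real.exp_pos _) g2
      refine ⟨g1, ?_, g2.trans hB2⟩
      have h1 : h x ≤ Real.log (c * X ^ M) := by
        rw [Real.le_log_iff_exp_le (by positivity)]
        exact g2.trans hB1
      rw [Real.log_mul hc.ne' (by positivity), Real.log_rpow hXp] at h1
      have h2 : M * r x < M * Real.log X := by linarith
      exact (lt_of_mul_lt_mul_left h2 hM.le).le)
    (fun X B x hx => ⟨hx.1, hx.2.2⟩)
    (fun B => (hfin (Real.log B)).subset fun x hx => by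
      have hBp : 0 < B := lt_of_lt_of_le (Real.exp_pos _) hx.2
      exact ⟨hx.1, (Real.le_log_iff_exp_le hBp).2 hx.2⟩)
  have hbig : ∀ B₀ T : ℝ, Real.log (max 1 B₀) ≤ T → B₀ ≤ Real.exp T := by
    intro B₀ T hT
    have h1 := Real.exp_le_exp.2 hT
    rw [Real.exp_log (lt_of_lt_of_le one_pos (le_max_left _ _))] at h1
    exact (le_max_right _ _).trans h1
  refine ⟨?_, ?_, ?_⟩
  · intro M c δ hM hδ
    obtain ⟨C, hC, hm⟩ := v1 M (Real.exp c) δ hM (Real.exp_pos c) hδ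
    refine ⟨C, hC, fun T hT => ?_⟩
    have h1 := hm (Real.exp T) (Real.one_le_exp hT)
    simp only [Real.log_exp, Real.exp_le_exp, ← Real.exp_mul] at h1
    rw [mul_comm _ T]
    exact h1
  · intro δ hδ
    obtain ⟨B₀, hm⟩ := v2 δ hδ
    refine ⟨Real.log (max 1 B₀), fun T hT => ?_⟩
    have h1 := hm (Real.exp T) (hbig B₀ T hT)
    simp only [Real.exp_le_exp, ← Real.exp_mul] at h1
    rw [mul_comm _ T]
    exact h1
  · intro M c hM
    obtain ⟨ν, hν, B₀, hm⟩ := v3 M (Real.exp c) hM (Real.exp_pos c)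
    refine ⟨ν, hν, Real.log (max 1 B₀), fun T hT => ?_⟩
    have h1 := hm (Real.exp T) (hbig B₀ T hT)
    simp only [Real.log_exp, Real.exp_le_exp, ← Real.exp_mul] at h1
    rw [mul_comm _ T]
    exact h1

/-- **Violations at rational parameters of a split curve.** -/
theorem param_viol (hP : ∀ i, P i ≠ 0) (hs : ∀ i, (P i).Splits)
    (hu : ∃ u : Fin n → K[X], ∑ i, u i * P i = 1) {D : ℕ} (hD : 1 ≤ D)
    (hdeg : ∀ i, (P i).natDegree ≤ D) (hdeg' : ∃ i, (P i).natDegree = D) :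
    (∀ M c δ : ℝ, 0 < M → 0 < δ → ∃ C : ℝ, 0 < C ∧ ∀ T : ℝ, 0 ≤ T →
      ((VioP P M c T).ncard : ℝ) ≤ C * Real.exp ((1 / (S1 P * M) + δ) * T)) ∧
    (∀ δ : ℝ, 0 < δ → ∃ T₀ : ℝ, ∀ T : ℝ, T₀ ≤ T →
      Real.exp ((2 / (D : ℝ) - δ) * T) ≤ ((AllP P T).ncard : ℝ)) ∧
    (∀ M c : ℝ, (D : ℝ) / (2 * S1 P) < M → ∃ ν : ℝ, 0 < ν ∧ ∃ T₀ : ℝ, ∀ T : ℝ, T₀ ≤ T →
      ((VioP P M c T).ncard : ℝ) ≤ Real.exp (-ν * T) * ((AllP P T).ncard : ℝ)) := by
  classical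
  have hn0 : (0 : ℝ) < Module.finrank ℚ K := Pool.Agent.Q10.KV.deg_pos
  obtain ⟨p1, -, ⟨c0, hc0, Y0, hY0, p3⟩, -⟩ := package hP hs hu hD hdeg hdeg' rfl
  have h2 : 2 ≤ (pts P).card := two_le_pts hP hs hu hD hdeg'
  have hq0 : (0 : ℝ) < (pts P).card := by exact_mod_cast (by omega : 0 < (pts P).card)
  have hD0 : (0 : ℝ) < D := by exact_mod_cast hD
  have hS1 : 0 < S1 P := S1_pos h2
  have e1 : ∀ X T : ℝ, ParT P X T = {x : ℚ | x ∈ {x : ℚ | ∀ i, (P i).eval (x : K) ≠ 0} ∧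
      rdK P (x : K) / (Module.finrank ℚ K : ℝ) ≤ Real.log X ∧
      Height.logHeight (fun i => (P i).eval (x : K)) / (Module.finrank ℚ K : ℝ) ≤ T} := by
    intro X T
    ext x
    unfold ParT Par
    simp only [Set.mem_ofPred_eq]
    rw [div_le_iff₀ hn0, div_le_iff₀ hn0, mul_comm (Real.log X), mul_comm T]
    tauto
  obtain ⟨v1, v2, v3⟩ := viol_log
    (fun x : ℚ => Height.logHeight (fun i => (P i).eval (x : K)) / (Module.finrank ℚ K : ℝ))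
    (fun x : ℚ => rdK P (x : K) / (Module.finrank ℚ K : ℝ))
    {x : ℚ | ∀ i, (P i).eval (x : K) ≠ 0} hS1 hD0 hq0
    (fun κ ε hκ hε => by
      obtain ⟨C, hC, hm⟩ := p1 κ ε hκ hε
      refine ⟨C, hC, fun X hX => ?_⟩
      have h3 := hm X hX
      rw [e1] at h3
      exact h3)
    (fun κ hκ => by
      refine ⟨c0, hc0, Y0, hY0, fun X hX => ?_⟩
      have h3 := p3 X hX κ hκ.le
      rw [e1] at h3
      exact h3)
    (fun T => allP_finite hP hu hD hdeg hdeg' T)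
  have e2 : ∀ T : ℝ, AllP P T = {x : ℚ | x ∈ {x : ℚ | ∀ i, (P i).eval (x : K) ≠ 0} ∧
      Height.logHeight (fun i => (P i).eval (x : K)) / (Module.finrank ℚ K : ℝ) ≤ T} :=
    fun T => rfl
  have e3 : ∀ M c T : ℝ, VioP P M c T = {x : ℚ | x ∈ {x : ℚ | ∀ i, (P i).eval (x : K) ≠ 0} ∧
      Height.logHeight (fun i => (P i).eval (x : K)) / (Module.finrank ℚ K : ℝ) ≤ T ∧
      M * (rdK P (x : K) / (Module.finrank ℚ K : ℝ)) + c <
        Height.logHeight (fun i => (P i).eval (x : K)) / (Module.finrank ℚ K : ℝ)} := by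
    intro M c T
    ext x
    exact and_assoc
  simp only [e2, e3]
  exact ⟨v1, v2, v3⟩

/-- the values different from zero and one at rational arguments, of height at most `T` -/
def AllV (P : Fin 3 → K[X]) (T : ℝ) : Set K :=
  {x | (x ≠ 0 ∧ x ≠ 1 ∧ ∃ t : ℚ, (P 2).eval (t : K) ≠ 0 ∧ x = val P t) ∧ hgt x ≤ T}

/-- those which violate `h ≤ M (cond + cond + cond) + c` -/
def VioV (P : Fin 3 → K[X]) (M c T : ℝ) : Set K := {x | x ∈ AllV P T ∧ M * cnd3 x + c < hgt x}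

/-- **Violations among the values of a split function at rational arguments.** -/
theorem values_viol {P : Fin 3 → K[X]} (hP : ∀ i, P i ≠ 0) (hs : ∀ i, (P i).Splits)
    (hsum : P 0 + P 1 = P 2) (hcop : IsCoprime (P 0) (P 1)) {D : ℕ} (hD : 1 ≤ D)
    (hdeg : ∀ i, (P i).natDegree ≤ D) (hdeg' : ∃ i, (P i).natDegree = D) :
    (∀ M c δ : ℝ, 0 < M → 0 < δ → ∃ C : ℝ, 0 < C ∧ ∀ T : ℝ, 0 ≤ T →
      ((VioV P M c T).ncard : ℝ) ≤ C * Real.exp ((1 / (S1 P * M) + δ) * T)) ∧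
    (∀ δ : ℝ, 0 < δ → ∃ T₀ : ℝ, ∀ T : ℝ, T₀ ≤ T →
      Real.exp ((2 / (D : ℝ) - δ) * T) ≤ ((AllV P T).ncard : ℝ)) ∧
    (∀ M c : ℝ, (D : ℝ) / (2 * S1 P) < M → ∃ ν : ℝ, 0 < ν ∧ ∃ T₀ : ℝ, ∀ T : ℝ, T₀ ≤ T →
      ((VioV P M c T).ncard : ℝ) ≤ Real.exp (-ν * T) * ((AllV P T).ncard : ℝ)) := by
  classical
  have hn0 : (0 : ℝ) < Module.finrank ℚ K := Pool.Agent.Q10.KV.deg_pos
  have hu : ∃ u : Fin 3 → K[X], ∑ i, u i * P i = 1 := by
    obtain ⟨a, b, hab⟩ := hcop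
    refine ⟨![a, b, 0], ?_⟩
    rw [Fin.sum_univ_three]
    simp only [Matrix.cons_val_zero, Matrix.cons_val_one, Matrix.cons_val, zero_mul, add_zero]
    exact hab
  obtain ⟨b, hb⟩ := hgt_near hP hsum hcop hdeg hdeg'
  obtain ⟨p1, -, p3, -⟩ := values hP hs hsum hcop hD hdeg hdeg' rfl
  have h2 : 2 ≤ (pts P).card := two_le_pts hP hs hu hD hdeg'
  have hq0 : (0 : ℝ) < (pts P).card := by exact_mod_cast (by omega : 0 < (pts P).card)
  have hD0 : (0 : ℝ) < D := by exact_mod_cast hD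
  have hS1 : 0 < S1 P := S1_pos h2
  obtain ⟨G, hG⟩ : ∃ G : Set K, G = {x | x ≠ 0 ∧ x ≠ 1 ∧
      ∃ t : ℚ, (P 2).eval (t : K) ≠ 0 ∧ x = val P t} := ⟨_, rfl⟩
  have e1 : ∀ X T : ℝ, ValsT P X T = {x | x ∈ G ∧ cnd3 x ≤ Real.log X ∧ hgt x ≤ T} := by
    intro X T
    ext x
    unfold ValsT Vals
    rw [hG]
    simp only [Set.mem_ofPred_eq]
    tauto
  obtain ⟨v1, v2, v3⟩ := viol_log (fun x : K => hgt x) (fun x : K => cnd3 x) G hS1 hD0 hq0
    (fun κ ε hκ hε => by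
      obtain ⟨C, hC, hm⟩ := p1 κ ε hκ hε
      refine ⟨C, hC, fun X hX => ?_⟩
      have h3 := hm X hX
      rw [e1] at h3
      exact h3)
    (fun κ hκ => by
      obtain ⟨c, hc, X₀, hX₀, hm⟩ := p3 κ hκ
      refine ⟨c, hc, X₀, hX₀, fun X hX => ?_⟩
      have h3 := hm X hX
      rw [e1] at h3
      exact h3)
    (fun T => by
      refine ((par_finite hP hu hD hdeg hdeg' ((T + b) * (Module.finrank ℚ K : ℝ))).image
        (val P)).subset ?_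
      rintro x ⟨hx, hT⟩
      rw [hG] at hx
      obtain ⟨-, -, t, ht, rfl⟩ := hx
      refine ⟨t, ?_, rfl⟩
      have h3 := abs_le.1 (hb (t : K) ht)
      have h4 : hgt (val P t) ≤ T := hT
      have h5 : Height.logHeight (fun i => (P i).eval (t : K)) / (Module.finrank ℚ K : ℝ) ≤
          T + b := by
        have h6 := h3.1
        change -b ≤ hgt (val P t) - _ at h6
        linarith
      rw [div_le_iff₀ hn0] at h5
      exact h5)
  have e2 : ∀ T : ℝ, AllV P T = {x | x ∈ G ∧ hgt x ≤ T} := by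
    intro T
    rw [hG]
    rfl
  have e3 : ∀ M c T : ℝ, VioV P M c T = {x | x ∈ G ∧ hgt x ≤ T ∧ M * cnd3 x + c < hgt x} := by
    intro M c T
    rw [hG]
    ext x
    exact and_assoc
  simp only [e2, e3]
  exact ⟨v1, v2, v3⟩

end Pool.Agent.Q10.KZ
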