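import Mathlib

set_option autoImplicit false

namespace Pool.Agent.Q10.PAC

open Cardinal

/-- a countable extension of a countable subfield of `ℂ` embeds into `ℂ` -/
lemma exists_embedding (K : Type) [Field K] [Algebra K ℂ] [Countable K]
    (F : Type) [Field F] [Algebra K F] [Countable F] : Nonempty (F →ₐ[K] ℂ) := by
  obtain ⟨s, hs⟩ := exists_isTranscendenceBasis K F
  obtain ⟨t, ht⟩ := exists_isTranscendenceBasis K ℂ
  have hKc : #K ≤ ℵ₀ := Cardinal.mk_le_aleph0
  have hC : ℵ₀ < #ℂ := by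
    rw [Cardinal.mk_complex]; exact Cardinal.aleph0_lt_continuum
  have hcard := IsAlgClosed.cardinal_eq_cardinal_transcendence_basis_of_aleph0_lt'
    (Subtype.val : t → ℂ) ht hKc hC
  have hst : #s ≤ #t := by
    rw [← hcard]
    exact (Cardinal.mk_le_aleph0).trans hC.le
  obtain ⟨j⟩ := (Cardinal.le_def s t).1 hst
  -- the family of elements of `ℂ`
  have hj : AlgebraicIndependent K (fun x : s => ((j x : t) : ℂ)) := ht.1.comp _ j.injective
  let R := Algebra.adjoin K (Set.range (Subtype.val : s → F))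
  let g : R →ₐ[K] ℂ := (MvPolynomial.aeval (fun x : s => ((j x : t) : ℂ))).comp
    hs.1.aevalEquiv.symm.toAlgHom
  have hg : Function.Injective g := by
    have h1 : Function.Injective (MvPolynomial.aeval (R := K) (fun x : s => ((j x : t) : ℂ))) := hj
    exact h1.comp hs.1.aevalEquiv.symm.injective
  letI : Algebra R ℂ := g.toRingHom.toAlgebra
  haveI : IsScalarTower K R ℂ := IsScalarTower.of_algebraMap_eq fun x => (g.commutes x).symm
  haveI : Algebra.IsAlgebraic R F := hs.isAlgebraic
  haveI : Module.IsTorsionFree R ℂ := by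
    have : FaithfulSMul R ℂ := (faithfulSMul_iff_algebraMap_injective R ℂ).2 hg
    infer_instance
  haveI : Module.IsTorsionFree R F := by
    have : FaithfulSMul R F := (faithfulSMul_iff_algebraMap_injective R F).2 Subtype.val_injective
    infer_instance
  exact ⟨(IsAlgClosed.lift (R := R) (S := F) (M := ℂ)).restrictScalars K⟩

/-- coefficientwise application of a `K`-linear functional on `ℂ` -/
noncomputable def cf {K : Type} [Field K] [Algebra K ℂ] {n : ℕ} (l : ℂ →ₗ[K] K)
    (f : MvPolynomial (Fin n) ℂ) : MvPolynomial (Fin n) K :=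
  ∑ m ∈ f.support, MvPolynomial.monomial m (l (f.coeff m))

lemma coeff_cf {K : Type} [Field K] [Algebra K ℂ] {n : ℕ} (l : ℂ →ₗ[K] K)
    (f : MvPolynomial (Fin n) ℂ) (m : Fin n →₀ ℕ) : (cf l f).coeff m = l (f.coeff m) := by
  classical
  unfold cf
  rw [MvPolynomial.coeff_sum]
  simp only [MvPolynomial.coeff_monomial]
  rw [Finset.sum_ite_eq' f.support m]
  split_ifs with h
  · rfl
  · rw [MvPolynomial.notMem_support_iff.1 h, map_zero]

lemma cf_add {K : Type} [Field K] [Algebra K ℂ] {n : ℕ} (l : ℂ →ₗ[K] K)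
    (f g : MvPolynomial (Fin n) ℂ) : cf l (f + g) = cf l f + cf l g := by
  ext m
  simp only [coeff_cf, MvPolynomial.coeff_add, map_add]

lemma cf_sub {K : Type} [Field K] [Algebra K ℂ] {n : ℕ} (l : ℂ →ₗ[K] K)
    (f g : MvPolynomial (Fin n) ℂ) : cf l (f - g) = cf l f - cf l g := by
  ext m
  simp only [coeff_cf, MvPolynomial.coeff_sub, map_sub]

lemma cf_zero {K : Type} [Field K] [Algebra K ℂ] {n : ℕ} (l : ℂ →ₗ[K] K) :
    cf l (0 : MvPolynomial (Fin n) ℂ) = 0 := by
  ext m
  simp only [coeff_cf, MvPolynomial.coeff_zero, map_zero]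

lemma cf_mul {K : Type} [Field K] [Algebra K ℂ] {n : ℕ} (l : ℂ →ₗ[K] K)
    (f : MvPolynomial (Fin n) ℂ) (s : MvPolynomial (Fin n) K) :
    cf l (f * MvPolynomial.map (algebraMap K ℂ) s) = cf l f * s := by
  classical
  ext m
  rw [coeff_cf, MvPolynomial.coeff_mul, MvPolynomial.coeff_mul, map_sum]
  refine Finset.sum_congr rfl fun x _ => ?_
  rw [MvPolynomial.coeff_map, coeff_cf, mul_comm, ← Algebra.smul_def, map_smul, smul_eq_mul, mul_comm]

/-- Let `S` be a set of polynomials over `K`. If `θ h - g` is in the ideal of `ℂ[X]` generated by `S`,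
where `h`, `g` have coefficients in `K`, and `h` is not in this ideal, then `θ` is in `K`. -/
lemma mem_of_mem_span {K : Type} [Field K] [Algebra K ℂ] {n : ℕ}
    (S : Set (MvPolynomial (Fin n) K)) (g h : MvPolynomial (Fin n) K) (θ : ℂ)
    (hθ : MvPolynomial.C θ * MvPolynomial.map (algebraMap K ℂ) h - MvPolynomial.map (algebraMap K ℂ) g ∈
      Ideal.span (MvPolynomial.map (algebraMap K ℂ) '' S))
    (hh : MvPolynomial.map (algebraMap K ℂ) h ∉ Ideal.span (MvPolynomial.map (algebraMap K ℂ) '' S)) :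
    ∃ x : K, algebraMap K ℂ x = θ := by
  by_contra hcon
  push Not at hcon
  -- a functional with `l 1 = 0`, `l θ = 1`
  have hli : θ ∉ Submodule.span K {(1 : ℂ)} := by
    intro hmem
    obtain ⟨a, ha⟩ := Submodule.mem_span_singleton.1 hmem
    exact hcon a (by rw [← ha, Algebra.smul_def, mul_one])
  obtain ⟨l, hl1, hl2⟩ := Submodule.exists_le_ker_of_notMem hli
  obtain ⟨l', hl1', hl2'⟩ : ∃ l' : ℂ →ₗ[K] K, l' 1 = 0 ∧ l' θ = 1 := by
    refine ⟨(l θ)⁻¹ • l, ?_, ?_⟩
    · have : (1 : ℂ) ∈ LinearMap.ker l := hl2 (Submodule.mem_span_singleton_self _)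
      rw [LinearMap.mem_ker] at this
      rw [LinearMap.smul_apply, this, smul_zero]
    · rw [LinearMap.smul_apply, smul_eq_mul, inv_mul_cancel₀ hl1]
  have key : ∀ f ∈ Ideal.span (MvPolynomial.map (algebraMap K ℂ) '' S),
      ∀ a, cf l' (a * f) ∈ Ideal.span S := by
    intro f hf
    refine Submodule.span_induction (p := fun f _ => ∀ a, cf l' (a * f) ∈ Ideal.span S) ?_ ?_ ?_ ?_ hf
    · rintro _ ⟨s, hs, rfl⟩ a
      rw [cf_mul]
      exact Ideal.mul_mem_left _ _ (Ideal.subset_span hs)
    · intro a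
      rw [mul_zero, cf_zero]; exact Ideal.zero_mem _
    · intro x y _ _ hx hy a
      rw [mul_add, cf_add]; exact Ideal.add_mem _ (hx a) (hy a)
    · intro a x _ hx b
      rw [smul_eq_mul, ← mul_assoc]
      exact hx _
  have h1 := key _ hθ 1
  rw [one_mul, cf_sub, cf_mul] at h1
  have h2 : cf l' (MvPolynomial.C θ) = (1 : MvPolynomial (Fin n) K) := by
    classical
    ext m
    rw [coeff_cf, MvPolynomial.coeff_C, MvPolynomial.coeff_one]
    split_ifs
    · exact hl2'
    · exact map_zero _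
  have h3 : cf l' (MvPolynomial.map (algebraMap K ℂ) g) = 0 := by
    have := cf_mul l' (1 : MvPolynomial (Fin n) ℂ) g
    rw [one_mul] at this
    rw [this]
    have h4 : cf l' (1 : MvPolynomial (Fin n) ℂ) = 0 := by
      classical
      ext m
      rw [coeff_cf, MvPolynomial.coeff_one, MvPolynomial.coeff_zero]
      split_ifs
      · exact hl1'
      · exact map_zero _
    rw [h4, zero_mul]
  rw [h2, h3, one_mul, sub_zero] at h1
  apply hh
  rw [← Ideal.map_span]
  exact Ideal.mem_map_of_mem _ h1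

end Pool.Agent.Q10.PAC
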