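import Pool.Agent.Q10.PAC1

set_option autoImplicit false

namespace Pool.Agent.Q10.PAC

open Cardinal

/-- `K'` is a countable extension of `K` inside `ℂ` in which `K` is algebraically closed -/
structure Ext (K K' : IntermediateField ℚ ℂ) : Prop where
  le : K ≤ K'
  cou : Countable K'
  alg : ∀ x ∈ K', IsAlgebraic K x → x ∈ K

lemma step (K : IntermediateField ℚ ℂ) [Countable K] {n : ℕ} (S : Set (MvPolynomial (Fin n) K))
    (hS : (Ideal.span (MvPolynomial.map (algebraMap K ℂ) '' S)).IsPrime) :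
    ∃ K' : IntermediateField ℚ ℂ, Ext K K' ∧ ∃ x : Fin n → ℂ, (∀ i, x i ∈ K') ∧
      ∀ s ∈ S, MvPolynomial.aeval x s = 0 := by
  set I := Ideal.span (MvPolynomial.map (algebraMap K ℂ) '' S) with hI
  let R := MvPolynomial (Fin n) ℂ ⧸ I
  let F' := FractionRing R
  let ξ : Fin n → F' := fun i => algebraMap R F' (Ideal.Quotient.mk I (MvPolynomial.X i))
  let F := IntermediateField.adjoin K (Set.range ξ)
  have hξ : ∀ s : MvPolynomial (Fin n) K, MvPolynomial.aeval ξ s =
      algebraMap R F' (Ideal.Quotient.mk I (MvPolynomial.map (algebraMap K ℂ) s)) := by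
    intro s
    induction s using MvPolynomial.induction_on with
    | C a =>
      rw [MvPolynomial.algHom_C, MvPolynomial.map_C]
      rfl
    | add p q hp hq => rw [map_add, hp, hq, map_add, map_add, map_add]
    | mul_X p i hp => 
      rw [map_mul, hp, MvPolynomial.aeval_X, map_mul, MvPolynomial.map_X, map_mul, map_mul]
  have hcouMv : Countable (MvPolynomial (Fin n) K) := by
    rw [← Cardinal.mk_le_aleph0_iff]
    refine (MvPolynomial.cardinalMk_le_max).trans ?_
    simp
  have hcouF : Countable F := by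
    have : Function.Surjective (fun p : {p : MvPolynomial (Fin n) K × MvPolynomial (Fin n) K //
        MvPolynomial.aeval ξ p.1 / MvPolynomial.aeval ξ p.2 ∈ F} =>
        (⟨MvPolynomial.aeval ξ p.1.1 / MvPolynomial.aeval ξ p.1.2, p.2⟩ : F)) := by
      rintro ⟨y, hy⟩
      obtain ⟨r, s, hrs⟩ := (IntermediateField.mem_adjoin_range_iff K ξ y).1 hy
      exact ⟨⟨(r, s), by rw [← hrs]; exact hy⟩, Subtype.ext hrs.symm⟩
    exact this.countable
  have htow : IsScalarTower ℚ K F := IsScalarTower.of_algebraMap_eq fun x => by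
    rw [eq_ratCast, eq_ratCast, map_ratCast]
  obtain ⟨ψ⟩ := exists_embedding K F
  refine ⟨(ψ.restrictScalars ℚ).fieldRange, ⟨?_, ?_, ?_⟩, ?_⟩
  · intro x hx
    refine ⟨algebraMap K F ⟨x, hx⟩, ?_⟩
    exact ψ.commutes ⟨x, hx⟩
  · have : Function.Surjective (fun y : F => (⟨ψ y, ⟨y, rfl⟩⟩ : (ψ.restrictScalars ℚ).fieldRange)) := by
      rintro ⟨_, ⟨y, rfl⟩⟩
      exact ⟨y, rfl⟩
    exact this.countable
  · rintro _ ⟨y, rfl⟩ hy
    change IsAlgebraic K (ψ y) at hy
    have hy1 : IsAlgebraic K y := (isAlgebraic_algHom_iff ψ ψ.toRingHom.injective).1 hy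
    have hy2 : IsAlgebraic K (y : F') := by
      have := hy1.algHom (F.val)
      exact this
    have hy3 : IsAlgebraic ℂ (y : F') := hy2.tower_top ℂ
    obtain ⟨θ, hθ⟩ : ∃ θ : ℂ, algebraMap ℂ F' θ = y := by
      have := IsAlgClosed.degree_eq_one_of_irreducible ℂ (minpoly.irreducible hy3.isIntegral)
      exact minpoly.mem_range_of_degree_eq_one ℂ _ this
    obtain ⟨r, s, hrs⟩ := (IntermediateField.mem_adjoin_range_iff K ξ (y : F')).1 y.2
    by_cases hs0 : MvPolynomial.aeval ξ s = 0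
    · rw [hs0, div_zero] at hrs
      have : y = 0 := Subtype.ext hrs
      rw [this]
      change ψ 0 ∈ K
      rw [map_zero]
      exact K.zero_mem
    have h1 : MvPolynomial.map (algebraMap K ℂ) s ∉ I := by
      intro hmem
      apply hs0
      rw [hξ, Ideal.Quotient.eq_zero_iff_mem.2 hmem, map_zero]
    have h2 : MvPolynomial.C θ * MvPolynomial.map (algebraMap K ℂ) s -
        MvPolynomial.map (algebraMap K ℂ) r ∈ I := by
      rw [← Ideal.Quotient.eq_zero_iff_mem]
      apply IsFractionRing.injective R F'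
      rw [map_sub, map_sub, map_mul, map_mul, ← hξ, ← hξ, map_zero]
      have h3 : algebraMap R F' (Ideal.Quotient.mk I (MvPolynomial.C θ)) = algebraMap ℂ F' θ := rfl
      rw [h3, hθ, hrs, div_mul_cancel₀ _ hs0, sub_self]
    obtain ⟨x₀, hx₀⟩ := mem_of_mem_span S r s θ h2 h1
    have h4 : y = algebraMap K F x₀ := by
      apply Subtype.ext
      rw [← hθ, ← hx₀]
      rfl
    rw [h4]
    change ψ (algebraMap K F x₀) ∈ K
    rw [ψ.commutes]
    exact x₀.2
  · have hξF : ∀ i, ξ i ∈ F := fun i => IntermediateField.subset_adjoin K _ (Set.mem_range_self i)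
    refine ⟨fun i => ψ ⟨ξ i, hξF i⟩, fun i => ⟨(⟨ξ i, hξF i⟩ : F), rfl⟩, fun s hs => ?_⟩
    have h1 : MvPolynomial.aeval (fun i => ψ ⟨ξ i, hξF i⟩) s =
        ψ (MvPolynomial.aeval (fun i => (⟨ξ i, hξF i⟩ : F)) s) := by
      rw [← MvPolynomial.comp_aeval_apply]
    have h2 : MvPolynomial.aeval (fun i => (⟨ξ i, hξF i⟩ : F)) s = 0 := by
      apply Subtype.ext
      have h3 : ((MvPolynomial.aeval (fun i => (⟨ξ i, hξF i⟩ : F)) s : F) : F') =
          MvPolynomial.aeval ξ s := by
        have := MvPolynomial.comp_aeval_apply (fun i => (⟨ξ i, hξF i⟩ : F)) F.val s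
        exact this
      have h5 : MvPolynomial.map (algebraMap K ℂ) s ∈ I := Ideal.subset_span (Set.mem_image_of_mem _ hs)
      rw [h3, hξ, Ideal.Quotient.eq_zero_iff_mem.2 h5, map_zero]
      rfl
    rw [h1, h2, map_zero]

end Pool.Agent.Q10.PAC
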