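import Pool.Agent.Q10.PAC2

set_option autoImplicit false

namespace Pool.Agent.Q10.PAC

/-- the elements of the finite set `S` have coefficients in `K` -/
def Over (K : IntermediateField ℚ ℂ) (n : ℕ) (S : Finset (MvPolynomial (Fin n) ℂ)) : Prop :=
  ∀ s ∈ S, ∃ s₀ : MvPolynomial (Fin n) K, MvPolynomial.map (algebraMap K ℂ) s₀ = s

/-- the polynomials in `S` have a common zero with coordinates in `K` -/
def Solved (K : IntermediateField ℚ ℂ) (n : ℕ) (S : Finset (MvPolynomial (Fin n) ℂ)) : Prop :=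
  ∃ x : Fin n → ℂ, (∀ i, x i ∈ K) ∧ ∀ s ∈ S, MvPolynomial.aeval x s = 0

lemma alg_mono {K K' : IntermediateField ℚ ℂ} (h : K ≤ K') {x : ℂ} (hx : IsAlgebraic K x) :
    IsAlgebraic K' x := by
  let _ := (IntermediateField.inclusion h).toAlgebra
  have : IsScalarTower K K' ℂ := IsScalarTower.of_algebraMap_eq fun _ => rfl
  exact hx.tower_top K'

lemma Over.mono {K K' : IntermediateField ℚ ℂ} (h : K ≤ K') {n : ℕ}
    {S : Finset (MvPolynomial (Fin n) ℂ)} (hS : Over K n S) : Over K' n S := by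
  intro s hs
  obtain ⟨s₀, hs₀⟩ := hS s hs
  refine ⟨MvPolynomial.map (IntermediateField.inclusion h).toRingHom s₀, ?_⟩
  rw [MvPolynomial.map_map, ← hs₀]
  rfl

lemma Solved.mono {K K' : IntermediateField ℚ ℂ} (h : K ≤ K') {n : ℕ}
    {S : Finset (MvPolynomial (Fin n) ℂ)} (hS : Solved K n S) : Solved K' n S := by
  obtain ⟨x, hx, hx'⟩ := hS
  exact ⟨x, fun i => h (hx i), hx'⟩

lemma Ext.trans {K K' K'' : IntermediateField ℚ ℂ} (h : Ext K K') (h' : Ext K' K'') :
    Ext K K'' :=
  ⟨h.le.trans h'.le, h'.cou, fun x hx ha => h.alg x (h'.alg x hx (alg_mono h.le ha)) ha⟩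

lemma step' (K : IntermediateField ℚ ℂ) (hK : Countable K) {n : ℕ}
    (S : Finset (MvPolynomial (Fin n) ℂ)) (hO : Over K n S)
    (hS : (Ideal.span (S : Set (MvPolynomial (Fin n) ℂ))).IsPrime) :
    ∃ K' : IntermediateField ℚ ℂ, Ext K K' ∧ Solved K' n S := by
  have h1 : MvPolynomial.map (algebraMap K ℂ) '' {s₀ | MvPolynomial.map (algebraMap K ℂ) s₀ ∈ S} =
      (S : Set (MvPolynomial (Fin n) ℂ)) := by
    ext s
    constructor
    · rintro ⟨s₀, hs₀, rfl⟩
      exact hs₀
    · intro hs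
      obtain ⟨s₀, hs₀⟩ := hO s hs
      exact ⟨s₀, by rw [Set.mem_ofPred_eq, hs₀]; exact hs, hs₀⟩
  obtain ⟨K', hK', x, hx, hx'⟩ := step K
    {s₀ : MvPolynomial (Fin n) K | MvPolynomial.map (algebraMap K ℂ) s₀ ∈ S} (by rw [h1]; exact hS)
  refine ⟨K', hK', x, hx, fun s hs => ?_⟩
  obtain ⟨s₀, hs₀⟩ := hO s hs
  have := hx' s₀ (by rw [Set.mem_ofPred_eq, hs₀]; exact hs)
  rw [← hs₀, MvPolynomial.aeval_map_algebraMap]
  exact this

/-- construction of chains of countable subfields of `ℂ` -/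
lemma chain (P : ℕ → IntermediateField ℚ ℂ → IntermediateField ℚ ℂ → Prop)
    (K : IntermediateField ℚ ℂ) (hK : Countable K)
    (h : ∀ i K₁, K ≤ K₁ → Countable K₁ → ∃ K₂, Ext K₁ K₂ ∧ P i K₁ K₂) :
    ∃ L : ℕ → IntermediateField ℚ ℂ, L 0 = K ∧ ∀ i, Ext (L i) (L (i + 1)) ∧ P i (L i) (L (i + 1)) := by
  choose! g hg using h
  let f : ℕ → IntermediateField ℚ ℂ := fun i => Nat.rec K (fun i K₁ => g i K₁) i
  have hf : ∀ i, K ≤ f i ∧ Countable ↥(f i) := by
    intro i
    induction i with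
    | zero => exact ⟨le_refl _, hK⟩
    | succ i ih =>
      have := (hg i (f i) ih.1 ih.2).1
      exact ⟨ih.1.trans this.le, this.cou⟩
  exact ⟨f, rfl, fun i => hg i (f i) (hf i).1 (hf i).2⟩

lemma chain_mono {L : ℕ → IntermediateField ℚ ℂ} (hL : ∀ i, Ext (L i) (L (i + 1))) : Monotone L :=
  monotone_nat_of_le_succ fun i => (hL i).le

lemma mem_union {L : ℕ → IntermediateField ℚ ℂ} (hL : Monotone L) {x : ℂ} (hx : x ∈ ⨆ i, L i) :
    ∃ i, x ∈ L i := by
  have hd : Directed (· ≤ ·) L := hL.directed_le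
  have := IntermediateField.coe_iSup_of_directed hd
  have h2 : x ∈ ((⨆ i, L i : IntermediateField ℚ ℂ) : Set ℂ) := hx
  rw [this] at h2
  exact Set.mem_iUnion.1 h2

lemma union_ext {L : ℕ → IntermediateField ℚ ℂ} (h0 : Countable ↥(L 0))
    (hL : ∀ i, Ext (L i) (L (i + 1))) : Ext (L 0) (⨆ i, L i) := by
  have hm := chain_mono hL
  have hall : ∀ i, Ext (L 0) (L i) := by
    intro i
    induction i with
    | zero => exact ⟨le_refl _, h0, fun x hx _ => hx⟩
    | succ i ih => exact ih.trans (hL i)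
  refine ⟨le_iSup L 0, ?_, ?_⟩
  · have hc : ∀ i, (L i : Set ℂ).Countable := fun i => by
      have := (hall i).cou
      exact Set.countable_coe_iff.1 this
    have : ((⨆ i, L i : IntermediateField ℚ ℂ) : Set ℂ).Countable := by
      refine (Set.countable_iUnion hc).mono fun x hx => ?_
      exact Set.mem_iUnion.2 (mem_union hm hx)
    exact Set.countable_coe_iff.2 this
  · intro x hx ha
    obtain ⟨i, hi⟩ := mem_union hm hx
    exact (hall i).alg x hi ha

/-- all tasks over `K` are solved in one countable extension -/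
lemma level (K : IntermediateField ℚ ℂ) (hK : Countable K) :
    ∃ K' : IntermediateField ℚ ℂ, Ext K K' ∧ ∀ (n : ℕ) (S : Finset (MvPolynomial (Fin n) ℂ)),
      Over K n S → (Ideal.span (S : Set (MvPolynomial (Fin n) ℂ))).IsPrime → Solved K' n S := by
  classical
  have hcou : ∀ n, Countable (MvPolynomial (Fin n) K) := by
    intro n
    rw [← Cardinal.mk_le_aleph0_iff]
    refine (MvPolynomial.cardinalMk_le_max).trans ?_
    simp
  obtain ⟨e, he⟩ := exists_surjective_nat (Σ n : ℕ, Finset (MvPolynomial (Fin n) K))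
  let tk : (Σ n : ℕ, Finset (MvPolynomial (Fin n) K)) → Σ n : ℕ, Finset (MvPolynomial (Fin n) ℂ) :=
    fun t => ⟨t.1, t.2.image (MvPolynomial.map (algebraMap K ℂ))⟩
  obtain ⟨L, hL0, hL⟩ := chain (fun i _ K₂ =>
    (Ideal.span ((tk (e i)).2 : Set (MvPolynomial (Fin (e i).1) ℂ))).IsPrime →
      Solved K₂ (e i).1 (tk (e i)).2) K hK (by
    intro i K₁ hle hc
    by_cases hp : (Ideal.span ((tk (e i)).2 : Set (MvPolynomial (Fin (e i).1) ℂ))).IsPrime
    · have hO : Over K (e i).1 (tk (e i)).2 := by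
        intro s hs
        obtain ⟨s₀, -, hs₀⟩ := Finset.mem_image.1 hs
        exact ⟨s₀, hs₀⟩
      obtain ⟨K₂, h1, h2⟩ := step' K₁ hc _ (hO.mono hle) hp
      exact ⟨K₂, h1, fun _ => h2⟩
    · exact ⟨K₁, ⟨le_refl _, hc, fun x hx _ => hx⟩, fun h => absurd h hp⟩)
  refine ⟨⨆ i, L i, ?_, ?_⟩
  · have := union_ext (L := L) (by rw [hL0]; exact hK) (fun i => (hL i).1)
    rw [hL0] at this
    exact this
  · intro n S hO hp
    choose! s₀ hs₀ using hO
    obtain ⟨i, hi⟩ := he ⟨n, S.image s₀⟩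
    have h1 : tk (e i) = ⟨n, S⟩ := by
      rw [hi]
      change (⟨n, (S.image s₀).image (MvPolynomial.map (algebraMap K ℂ))⟩ :
        Σ n : ℕ, Finset (MvPolynomial (Fin n) ℂ)) = ⟨n, S⟩
      congr 1
      rw [Finset.image_image]
      ext s
      rw [Finset.mem_image]
      constructor
      · rintro ⟨t, ht, rfl⟩
        rw [Function.comp_apply, hs₀ t ht]
        exact ht
      · intro hs
        exact ⟨s, hs, hs₀ s hs⟩
    have h2 := (hL i).2
    have h3 : ∀ t : Σ n : ℕ, Finset (MvPolynomial (Fin n) ℂ), t = ⟨n, S⟩ →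
        ((Ideal.span (t.2 : Set (MvPolynomial (Fin t.1) ℂ))).IsPrime → Solved (L (i + 1)) t.1 t.2) →
        Solved (L (i + 1)) n S := by
      rintro t rfl h
      exact h hp
    exact (h3 (tk (e i)) h1 h2).mono (le_iSup L (i + 1))

/-- There is a countable subfield `K` of `ℂ`, in which `ℚ` is algebraically closed, such that all
prime ideals of `ℂ[X]` which are generated by finitely many polynomials over `K` have a zero over `K`. -/
lemma exists_pac : ∃ K : IntermediateField ℚ ℂ, Countable K ∧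
    (∀ x ∈ K, IsAlgebraic ℚ x → ∃ q : ℚ, (q : ℂ) = x) ∧
    ∀ (n : ℕ) (S : Finset (MvPolynomial (Fin n) ℂ)), Over K n S →
      (Ideal.span (S : Set (MvPolynomial (Fin n) ℂ))).IsPrime → Solved K n S := by
  classical
  have hbot : Countable (⊥ : IntermediateField ℚ ℂ) :=
    (IntermediateField.botEquiv ℚ ℂ).symm.surjective.countable
  obtain ⟨L, hL0, hL⟩ := chain (fun _ K₁ K₂ => ∀ (n : ℕ) (S : Finset (MvPolynomial (Fin n) ℂ)),
      Over K₁ n S → (Ideal.span (S : Set (MvPolynomial (Fin n) ℂ))).IsPrime → Solved K₂ n S)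
      ⊥ hbot (fun _ K₁ _ hc => level K₁ hc)
  have hm := chain_mono fun i => (hL i).1
  have hE := union_ext (L := L) (by rw [hL0]; exact hbot) (fun i => (hL i).1)
  refine ⟨⨆ i, L i, hE.cou, ?_, ?_⟩
  · intro x hx ha
    rw [hL0] at hE
    have := hE.alg x hx (ha.tower_top _)
    obtain ⟨q, hq⟩ := IntermediateField.mem_bot.1 this
    exact ⟨q, by rw [← hq]; rfl⟩
  · intro n S hO hp
    -- all the coefficients lie in one member of the chain
    have h1 : ∀ s ∈ S, ∃ i, ∃ s₀ : MvPolynomial (Fin n) (L i),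
        MvPolynomial.map (algebraMap (L i) ℂ) s₀ = s := by
      intro s hs
      obtain ⟨s₀, hs₀⟩ := hO s hs
      have h2 : ∀ m ∈ s.support, ∃ i, s.coeff m ∈ L i := by
        intro m _
        refine mem_union hm ?_
        rw [← hs₀, MvPolynomial.coeff_map]
        exact (s₀.coeff m).2
      choose! j hj using h2
      refine ⟨s.support.sup j, ?_⟩
      have h3 : ∀ m, s.coeff m ∈ L (s.support.sup j) := by
        intro m
        by_cases hmm : m ∈ s.support
        · exact hm (Finset.le_sup hmm) (hj m hmm)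
        · rw [MvPolynomial.notMem_support_iff.1 hmm]
          exact (L _).zero_mem
      refine ⟨∑ m ∈ s.support, MvPolynomial.monomial m ⟨s.coeff m, h3 m⟩, ?_⟩
      rw [map_sum]
      simp only [MvPolynomial.map_monomial]
      exact (MvPolynomial.support_sum_monomial_coeff s)
    choose! j hj using h1
    have h4 : Over (L (S.sup j)) n S := by
      intro s hs
      have h5 : Over (L (j s)) n {s} := by
        intro t ht
        rw [Finset.mem_singleton.1 ht]
        exact hj s hs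
      exact (h5.mono (hm (Finset.le_sup hs))) s (Finset.mem_singleton_self s)
    exact ((hL (S.sup j)).2 n S h4 hp).mono (le_iSup L _)

end Pool.Agent.Q10.PAC
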