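import Pool.Agent.Q10.PAC3

set_option autoImplicit false

namespace Pool.Agent.Q10.PAC

open TensorProduct

/-- every system over `K` which generates a prime ideal over `ℂ` has a zero over `K` -/
def AllSolved (K : IntermediateField ℚ ℂ) : Prop :=
  ∀ (n : ℕ) (S : Finset (MvPolynomial (Fin n) ℂ)), Over K n S →
      (Ideal.span (S : Set (MvPolynomial (Fin n) ℂ))).IsPrime → Solved K n S

lemma exists_algHom (K : IntermediateField ℚ ℂ) (hK : AllSolved K) (A : Type) [CommRing A]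
    [Algebra K A] [Algebra.FiniteType K A] (hdom : IsDomain (ℂ ⊗[K] A)) : Nonempty (A →ₐ[K] K) := by
  classical
  obtain ⟨n, f, hf⟩ := Algebra.FiniteType.iff_quotient_mvPolynomial''.1
    (inferInstance : Algebra.FiniteType K A)
  obtain ⟨T, hT⟩ := (isNoetherianRing_iff_ideal_fg _).1
    (inferInstance : IsNoetherianRing (MvPolynomial (Fin n) K)) (RingHom.ker f)
  let S : Finset (MvPolynomial (Fin n) ℂ) := T.image (MvPolynomial.map (algebraMap K ℂ))
  have hO : Over K n S := by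
    intro s hs
    obtain ⟨s₀, -, hs₀⟩ := Finset.mem_image.1 hs
    exact ⟨s₀, hs₀⟩
  have hspan : Ideal.span (S : Set (MvPolynomial (Fin n) ℂ)) =
      (RingHom.ker f).map (MvPolynomial.map (algebraMap K ℂ)) := by
    rw [← hT, Ideal.map_span, Finset.coe_image]
  let g : ℂ ⊗[K] MvPolynomial (Fin n) K →ₐ[ℂ] ℂ ⊗[K] A := Algebra.TensorProduct.map (AlgHom.id ℂ ℂ) f
  let e := (MvPolynomial.algebraTensorAlgEquiv (σ := Fin n) K ℂ).symm
  have hg : RingHom.ker g = (RingHom.ker f).map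
      (Algebra.TensorProduct.includeRight : MvPolynomial (Fin n) K →ₐ[K] ℂ ⊗[K] MvPolynomial (Fin n) K) := by
    have := Algebra.TensorProduct.lTensor_ker (A := ℂ) f hf
    rw [← this]
    rfl
  have hker : RingHom.ker (g.toRingHom.comp (e : MvPolynomial (Fin n) ℂ →+* _)) =
      Ideal.span (S : Set (MvPolynomial (Fin n) ℂ)) := by
    rw [hspan]
    have h1 : RingHom.ker (g.toRingHom.comp (e : MvPolynomial (Fin n) ℂ →+* _)) =
        Ideal.comap (e : MvPolynomial (Fin n) ℂ →+* _) (RingHom.ker g) := rfl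
    rw [h1, hg]
    have h2 : Ideal.comap (e : MvPolynomial (Fin n) ℂ →+* ℂ ⊗[K] MvPolynomial (Fin n) K) =
        Ideal.map ((e.symm : ℂ ⊗[K] MvPolynomial (Fin n) K ≃ₐ[ℂ] MvPolynomial (Fin n) ℂ) :
          ℂ ⊗[K] MvPolynomial (Fin n) K →+* MvPolynomial (Fin n) ℂ) := by
      funext J
      exact (Ideal.map_comap_of_equiv (I := J) (f := (e.symm.toRingEquiv))).symm
    rw [h2]
    change Ideal.map _ (Ideal.map (Algebra.TensorProduct.includeRight : MvPolynomial (Fin n) K →ₐ[K]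
      ℂ ⊗[K] MvPolynomial (Fin n) K).toRingHom (RingHom.ker f)) = _
    rw [Ideal.map_map]
    congr 1
    apply RingHom.ext
    intro x
    change e.symm ((1 : ℂ) ⊗ₜ[K] x) = _
    change (MvPolynomial.algebraTensorAlgEquiv (σ := Fin n) K ℂ) ((1 : ℂ) ⊗ₜ[K] x) = _
    rw [MvPolynomial.algebraTensorAlgEquiv_tmul, one_smul]
  have hp : (Ideal.span (S : Set (MvPolynomial (Fin n) ℂ))).IsPrime := by
    rw [← hker]
    exact RingHom.ker_isPrime _
  obtain ⟨x, hx, hx'⟩ := hK n S hO hp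
  let φ : MvPolynomial (Fin n) K →ₐ[K] K := MvPolynomial.aeval (fun i => (⟨x i, hx i⟩ : K))
  have hφ : RingHom.ker f ≤ RingHom.ker φ := by
    rw [← hT, Ideal.span_le]
    intro t ht
    rw [SetLike.mem_coe, RingHom.mem_ker]
    have h1 := hx' _ (Finset.mem_image_of_mem _ ht)
    rw [MvPolynomial.aeval_map_algebraMap] at h1
    apply Subtype.ext
    have h3 : ((φ t : K) : ℂ) = MvPolynomial.aeval x t :=
      MvPolynomial.comp_aeval_apply (fun i => (⟨x i, hx i⟩ : K)) (Algebra.ofId K ℂ) t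
    rw [h3, h1]
    rfl
  exact ⟨(Ideal.Quotient.liftₐ _ φ hφ).comp (Ideal.quotientKerAlgEquivOfSurjective hf).symm.toAlgHom⟩

end Pool.Agent.Q10.PAC
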