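import Pool.Agent.Q10.PAC4

set_option autoImplicit false

namespace Pool.Agent.Q10.PAC

open TensorProduct CategoryTheory CategoryTheory.Limits AlgebraicGeometry

/-- every geometrically integral scheme locally of finite type over `K` has a point over `K` -/
lemma exists_section (K : IntermediateField ℚ ℂ) (hK : AllSolved K) (X : Scheme.{0})
    (f : X ⟶ Spec (CommRingCat.of K)) [LocallyOfFiniteType f] [GeometricallyIntegral f] :
    ∃ s : Spec (CommRingCat.of K) ⟶ X, s ≫ f = 𝟙 _ := by
  -- a nonempty affine open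
  have hne : Nonempty X := by
    obtain ⟨y⟩ := (inferInstance : Nonempty (Spec (CommRingCat.of K)))
    obtain ⟨x, -⟩ := f.surjective y
    exact ⟨x⟩
  obtain ⟨x⟩ := hne
  obtain ⟨R, j, hj, z, -⟩ := Scheme.exists_Spec_apply_eq x
  have hRne : Nonempty (Spec R) := ⟨z⟩
  obtain ⟨φ, hφ⟩ := Spec.map_surjective (j ≫ f)
  algebraize [φ.hom]
  have hft : Algebra.FiniteType K R := by
    have h1 : LocallyOfFiniteType (Spec.map φ) := by rw [hφ]; infer_instance
    have h2 : RingHom.FiniteType φ.hom := HasRingHomProperty.Spec_iff.mp h1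
    exact h2
  have hdom : IsDomain (ℂ ⊗[K] R) := by
    let y : Spec (CommRingCat.of ℂ) ⟶ Spec (CommRingCat.of K) :=
      Spec.map (CommRingCat.ofHom (algebraMap K ℂ))
    have hint : IsIntegral (pullback y f) :=
      pullback_of_geometrically' GeometricallyIntegral.geometrically_isIntegral ℂ y
    let m : pullback y (Spec.map φ) ⟶ pullback y f :=
      pullback.map y (Spec.map φ) y f (𝟙 _) j (𝟙 _) (by simp) (by simp [hφ])
    have hm : IsOpenImmersion m := inferInstance
    have hsurj : Surjective (pullback.snd y (Spec.map φ)) := by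
      have : Surjective y := inferInstance
      infer_instance
    have hn : Nonempty (pullback y (Spec.map φ) : Scheme) := by
      obtain ⟨w, -⟩ := (pullback.snd y (Spec.map φ)).surjective z
      exact ⟨w⟩
    have hint2 : IsIntegral (pullback y (Spec.map φ)) := isIntegral_of_isOpenImmersion m
    have hint3 : IsIntegral (Spec (CommRingCat.of (ℂ ⊗[K] R))) := by
      let e := pullbackSpecIso K ℂ R
      have : Nonempty (Spec (CommRingCat.of (ℂ ⊗[K] R))) := by
        obtain ⟨w⟩ := hn
        exact ⟨e.hom w⟩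
      exact isIntegral_of_isOpenImmersion e.inv
    exact (affine_isIntegral_iff (CommRingCat.of (ℂ ⊗[K] R))).1 hint3
  obtain ⟨ψ⟩ := exists_algHom K hK R hdom
  refine ⟨Spec.map (CommRingCat.ofHom ψ.toRingHom) ≫ j, ?_⟩
  rw [Category.assoc, ← hφ, ← Spec.map_comp, ← Spec.map_id]
  congr 1
  ext a
  exact congrArg Subtype.val (ψ.commutes a)

end Pool.Agent.Q10.PAC
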