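import Pool.Agent.Q10.PAC5

set_option autoImplicit false

namespace Pool.Agent.Q10.PAC

open scoped Topology

/-- the absolute Galois group of a field of characteristic zero in which no product of two different
prime numbers is a square is not topologically finitely generated -/
lemma not_fg (K : Type) [Field K] [CharZero K]
    (hsq : ∀ p q : ℕ, p.Prime → q.Prime → p ≠ q → ∀ x : K, x ^ 2 ≠ (p * q : ℕ))
    (T : Set Gal(SeparableClosure K/K)) (hT : T.Finite) :
    (Subgroup.closure T).topologicalClosure ≠ ⊤ := by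
  classical
  intro htop
  have hroot : ∀ p : ℕ, ∃ r : SeparableClosure K, r ^ 2 = p := by
    intro p
    obtain ⟨z, hz⟩ := IsSepClosed.exists_pow_nat_eq (k := SeparableClosure K) (p : SeparableClosure K) 2
    exact ⟨z, hz⟩
  choose r hr using hroot
  -- patterns
  have : Finite T := hT
  let P : {p : ℕ // p.Prime} → (T → Prop) := fun p σ => σ.1 (r p) = r p
  have hinf : Infinite {p : ℕ // p.Prime} := Nat.infinite_setOfPred_prime.to_subtype
  obtain ⟨p, q, hpq, hP⟩ := Finite.exists_ne_map_eq_of_infinite P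
  have hpq' : (p : ℕ) ≠ q := fun h => hpq (Subtype.ext h)
  -- signs
  have hsign : ∀ (σ : Gal(SeparableClosure K/K)) (p : ℕ), σ (r p) = r p ∨ σ (r p) = - r p := by
    intro σ p
    have h1 : (σ (r p)) ^ 2 = (r p) ^ 2 := by
      rw [← map_pow, hr, map_natCast]
    exact sq_eq_sq_iff_eq_or_eq_neg.1 h1
  set x : SeparableClosure K := r p * r q with hx
  have hfix : ∀ σ ∈ T, σ x = x := by
    intro σ hσ
    have h1 : (σ (r p) = r p) = (σ (r q) = r q) := congrFun hP ⟨σ, hσ⟩
    rw [hx, map_mul]
    rcases hsign σ p with h2 | h2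
    · rw [h2, (h1.mp h2 : σ (r q) = r q)]
    · rcases hsign σ q with h3 | h3
      · rw [h3, (h1.mpr h3 : σ (r p) = r p)]
      · rw [h2, h3]; ring
  -- all automorphisms fix `x`
  have hall : ∀ σ : Gal(SeparableClosure K/K), σ x = x := by
    let E := IntermediateField.adjoin K {x}
    have hfd : FiniteDimensional K E :=
      IntermediateField.adjoin.finiteDimensional (Algebra.IsIntegral.isIntegral x)
    have hop : IsOpen (E.fixingSubgroup : Set Gal(SeparableClosure K/K)) :=
      IntermediateField.fixingSubgroup_isOpen E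
    have hcl : IsClosed (E.fixingSubgroup : Set Gal(SeparableClosure K/K)) :=
      Subgroup.isClosed_of_isOpen _ hop
    have hle : Subgroup.closure T ≤ E.fixingSubgroup := by
      rw [Subgroup.closure_le]
      intro σ hσ
      rw [SetLike.mem_coe, IntermediateField.mem_fixingSubgroup_iff]
      intro y hy
      have h1 : E ≤ IntermediateField.fixedField (Subgroup.zpowers σ) := by
        rw [IntermediateField.adjoin_le_iff, Set.singleton_subset_iff]
        rintro ⟨τ, hτ⟩
        have h2 : Subgroup.zpowers σ ≤ MulAction.stabilizer Gal(SeparableClosure K/K) x := by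
          rw [Subgroup.zpowers_le, MulAction.mem_stabilizer_iff]
          exact hfix σ hσ
        exact MulAction.mem_stabilizer_iff.1 (h2 hτ)
      exact h1 hy ⟨σ, Subgroup.mem_zpowers σ⟩
    have h3 : (Subgroup.closure T).topologicalClosure ≤ E.fixingSubgroup :=
      Subgroup.topologicalClosure_minimal _ hle hcl
    rw [htop] at h3
    intro σ
    exact (IntermediateField.mem_fixingSubgroup_iff _ _).1 (h3 (Subgroup.mem_top σ)) x
      (IntermediateField.mem_adjoin_simple_self K x)
  obtain ⟨x₀, hx₀⟩ := (InfiniteGalois.mem_range_algebraMap_iff_fixed x).2 hall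
  refine hsq p q p.2 q.2 hpq' x₀ ?_
  apply (algebraMap K (SeparableClosure K)).injective
  rw [map_pow, hx₀, hx, mul_pow, hr, hr, map_natCast, Nat.cast_mul]

lemma rat_sq (p q : ℕ) (hp : p.Prime) (hq : q.Prime) (hpq : p ≠ q) (x : ℚ) :
    x ^ 2 ≠ (p * q : ℕ) := by
  intro h
  have h1 : IsSquare ((p * q : ℕ) : ℚ) := ⟨x, by rw [← h, sq]⟩
  rw [Rat.isSquare_natCast_iff] at h1
  obtain ⟨r, hr⟩ := h1
  have h2 : p ∣ r := by
    have : p ∣ r * r := ⟨q, hr.symm⟩
    rcases hp.dvd_mul.1 this with h | h <;> exact h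
  obtain ⟨t, rfl⟩ := h2
  have h3 : q = p * (t * t) := by
    have h4 : p * q = p * (p * (t * t)) := by rw [hr]; ring
    exact Nat.eq_of_mul_eq_mul_left hp.pos h4
  have h5 : p ∣ q := ⟨_, h3⟩
  exact hpq ((Nat.prime_dvd_prime_iff_eq hp hq).1 h5)

end Pool.Agent.Q10.PAC
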