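import Pool.Agent.Q10.PAC6

/-!
# Fields over which all `𝒪`-acyclic varieties have points: `G_K` need not be topologically generated by one element

Negative answer to Q1.  There is a (countable) field `K` of characteristic zero with property (A), whose absolute
Galois group is not topologically generated by one element.  In fact it is not topologically finitely generated,
and ALL geometrically integral `K`-schemes locally of finite type have a `K`-rational point.
-/

set_option autoImplicit false

namespace Pool.Agent.Q10.PAC7

open CategoryTheory CategoryTheory.Limits AlgebraicGeometry TopologicalSpace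

/-- The forms of degree `d` in `K[X₀, …, X_n]`. -/
noncomputable def forms (K : Type) [Field K] (n : ℕ) :
    ℕ → Submodule K (MvPolynomial (Fin (n + 1)) K) :=
  MvPolynomial.homogeneousSubmodule (Fin (n + 1)) K

noncomputable instance grading (K : Type) [Field K] (n : ℕ) : GradedAlgebra (forms K n) :=
  MvPolynomial.gradedAlgebra

/-- The projective space `ℙⁿ = Proj K[X₀, …, X_n]`. -/
noncomputable def projSpace (K : Type) [Field K] (n : ℕ) : Scheme.{0} := Proj (forms K n)

/-- The forms of degree zero, as a ring. -/
noncomputable def zeroForms (K : Type) [Field K] (n : ℕ) : CommRingCat.{0} :=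
  CommRingCat.of (forms K n 0)

/-- The ring homomorphism `c ↦ c` from `K` to the forms of degree zero. -/
noncomputable def constants (K : Type) [Field K] (n : ℕ) : CommRingCat.of K ⟶ zeroForms K n :=
  CommRingCat.ofHom (algebraMap K (forms K n 0))

/-- The morphism from `ℙⁿ` to the spectrum of the ring of forms of degree zero. -/
noncomputable def toSpecZeroForms (K : Type) [Field K] (n : ℕ) :
    projSpace K n ⟶ Spec (zeroForms K n) := Proj.toSpecZero (forms K n)

/-- The structure morphism `ℙⁿ ⟶ Spec K`. -/
noncomputable def projStructure (K : Type) [Field K] (n : ℕ) :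
    projSpace K n ⟶ Spec (CommRingCat.of K) :=
  toSpecZeroForms K n ≫ Spec.map (constants K n)

/-- `X` is projective over `K`: a closed subscheme of some projective space over `K`. -/
def IsProjective {K : Type} [Field K] {X : Scheme.{0}} (f : X ⟶ Spec (CommRingCat.of K)) : Prop :=
  ∃ (n : ℕ) (i : X ⟶ projSpace K n), IsClosedImmersion i ∧ i ≫ projStructure K n = f

/-- The forgetful functor from commutative rings to abelian groups. -/
noncomputable def toAb : CommRingCat.{0} ⥤ AddCommGrpCat.{0} :=
  forget₂ CommRingCat RingCat ⋙ forget₂ RingCat AddCommGrpCat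

/-- The structure sheaf of `X`, as a sheaf of abelian groups on the topological space `X`. -/
noncomputable def structureSheafAb (X : Scheme.{0}) :
    Sheaf (Opens.grothendieckTopology X) AddCommGrpCat.{0} :=
  ⟨X.presheaf ⋙ toAb, by
    have h := ((sheafCompose (Opens.grothendieckTopology X)
      (forget₂ CommRingCat.{0} RingCat.{0} ⋙ forget₂ RingCat.{0} AddCommGrpCat.{0})).obj X.sheaf).property
    exact h⟩

/-- The cohomology group `Hⁱ(X, 𝒪_X)` (sheaf cohomology). -/
noncomputable def cohomology (X : Scheme.{0}) (i : ℕ) : Type := (structureSheafAb X).H i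

/-- `X` is `𝒪`-acyclic over `K`: the map `K → H⁰(X, 𝒪_X)` is bijective (that is, `H⁰(X, 𝒪_X)` is of dimension one
over `K`), and `Hⁱ(X, 𝒪_X) = 0` for all `i > 0`. -/
def IsAcyclic {K : Type} [Field K] {X : Scheme.{0}} (f : X ⟶ Spec (CommRingCat.of K)) : Prop :=
  IsIso (Scheme.Γ.map f.op) ∧ ∀ i : ℕ, 0 < i → Subsingleton (cohomology X i)

/-- `X` has a `K`-rational point. -/
def HasPoint {K : Type} [Field K] {X : Scheme.{0}} (f : X ⟶ Spec (CommRingCat.of K)) : Prop :=
  ∃ s : Spec (CommRingCat.of K) ⟶ X, s ≫ f = 𝟙 _

/-- Property (A): every `𝒪`-acyclic variety over `K` has a `K`-rational point (a variety is a smooth, projective,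
geometrically integral `K`-scheme). -/
def PropertyA (K : Type) [Field K] : Prop :=
  ∀ (X : Scheme.{0}) (f : X ⟶ Spec (CommRingCat.of K)),
    Smooth f → IsProjective f → GeometricallyIntegral f → IsAcyclic f → HasPoint f

/-- The set `T` generates the absolute Galois group of `K` topologically. -/
def Generates (K : Type) [Field K] (T : Set Gal(SeparableClosure K/K)) : Prop :=
  (Subgroup.closure T).topologicalClosure = ⊤

/-- The absolute Galois group of `K` is procyclic. -/
def IsProcyclic (K : Type) [Field K] : Prop :=
  ∃ g : Gal(SeparableClosure K/K), Generates K {g}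

/-- The absolute Galois group of `K` is topologically finitely generated. -/
def IsTopFG (K : Type) [Field K] : Prop :=
  ∃ T : Set Gal(SeparableClosure K/K), T.Finite ∧ Generates K T

/-- **Negative answer to Q1.** There is a countable field `K` of characteristic zero such that
* `K` has property (A), while the absolute Galois group of `K` is not topologically generated by one element;
* in fact every geometrically integral `K`-scheme locally of finite type has a `K`-rational point, and the absolute
  Galois group of `K` is not even topologically finitely generated. -/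
theorem result : ∃ (K : Type) (_ : Field K), CharZero K ∧ Countable K ∧
    PropertyA K ∧ ¬ IsProcyclic K ∧
    (∀ (X : Scheme.{0}) (f : X ⟶ Spec (CommRingCat.of K)) [LocallyOfFiniteType f]
      [GeometricallyIntegral f], HasPoint f) ∧
    ¬ IsTopFG K := by
  obtain ⟨K, hc, halg, hK⟩ := Pool.Agent.Q10.PAC.exists_pac
  have hfg : ∀ T : Set Gal(SeparableClosure K/K), T.Finite →
      (Subgroup.closure T).topologicalClosure ≠ ⊤ := by
    intro T hT
    refine Pool.Agent.Q10.PAC.not_fg K ?_ T hT
    intro p q hp hq hpq x hx
    have h1 : (x : ℂ) ^ 2 = ((p * q : ℕ) : ℂ) := by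
      rw [← IntermediateField.coe_pow, hx]
      simp
    have h2 : IsAlgebraic ℚ (x : ℂ) := by
      refine IsAlgebraic.of_pow (n := 2) (by norm_num) ?_
      rw [h1]
      have h3 : IsAlgebraic ℚ (algebraMap ℚ ℂ ((p * q : ℕ) : ℚ)) := isAlgebraic_algebraMap _
      rw [map_natCast] at h3
      exact h3
    obtain ⟨t, ht⟩ := halg _ x.2 h2
    refine Pool.Agent.Q10.PAC.rat_sq p q hp hq hpq t ?_
    have h3 : ((t ^ 2 : ℚ) : ℂ) = (((p * q : ℕ) : ℚ) : ℂ) := by
      push_cast
      rw [ht]
      rw [h1]
      push_cast
      ring
    exact_mod_cast h3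
  refine ⟨K, inferInstance, inferInstance, hc, ?_, ?_, ?_, ?_⟩
  · intro X f h1 _ h2 _
    exact Pool.Agent.Q10.PAC.exists_section K hK X f
  · rintro ⟨g, hg⟩
    exact hfg _ (Set.finite_singleton g) hg
  · intro X f _ _
    exact Pool.Agent.Q10.PAC.exists_section K hK X f
  · rintro ⟨T, hT, hg⟩
    exact hfg T hT hg

end Pool.Agent.Q10.PAC7
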