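import Mathlib

set_option autoImplicit false

/-! Linear Noether normalisation of homogeneous primes of `ℚ[X₀,…,Xₙ]`. -/

namespace Pool.Agent.Q10.SZ

open MvPolynomial

attribute [local instance] MvPolynomial.gradedAlgebra

/-- The homogeneous coordinate ring of `ℙⁿ` over `ℚ`. -/
abbrev CR (n : ℕ) := MvPolynomial (Fin (n + 1)) ℚ

/-- Homogeneous ideals. -/
abbrev HomI {n : ℕ} (P : Ideal (CR n)) : Prop :=
  P.IsHomogeneous (homogeneousSubmodule (Fin (n + 1)) ℚ)

/-- `w` is a linear Noether normalisation of the coordinate ring modulo `P`. -/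
structure LN {n : ℕ} (P : Ideal (CR n)) (e : ℕ) (w : Fin e → CR n) : Prop where
  lin : ∀ i, (w i).IsHomogeneous 1
  ind : ∀ F : MvPolynomial (Fin e) ℚ, aeval w F ∈ P → F = 0
  rad : ∀ i, (X i : CR n) ∈ (P ⊔ Ideal.span (Set.range w)).radical

theorem hc_mul {n t : ℕ} {a b : CR n} (hb : b.IsHomogeneous 1) :
    homogeneousComponent (t + 1) (a * b) = homogeneousComponent t a * b := by
  rw [← decomposition.decompose'_apply, ← decomposition.decompose'_apply]
  exact DirectSum.coe_decompose_mul_add_of_right_mem (homogeneousSubmodule (Fin (n + 1)) ℚ) hb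

theorem aeval_hom {n e s : ℕ} {w : Fin e → CR n} (hw : ∀ i, (w i).IsHomogeneous 1)
    {F : MvPolynomial (Fin e) ℚ} (hF : F.IsHomogeneous s) : (aeval w F).IsHomogeneous s := by
  have := hF.aeval w hw
  simpa using this

theorem hc_aeval {n e : ℕ} {w : Fin e → CR n} (hw : ∀ i, (w i).IsHomogeneous 1)
    (F : MvPolynomial (Fin e) ℚ) (t : ℕ) :
    homogeneousComponent t (aeval w F) = aeval w (homogeneousComponent t F) := by
  have h1 : ∀ s, (aeval w (homogeneousComponent s F)).IsHomogeneous s :=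
    fun s => aeval_hom hw (homogeneousComponent_isHomogeneous s F)
  conv_lhs => rw [← sum_homogeneousComponent F]
  rw [map_sum, map_sum, Finset.sum_eq_single t]
  · rw [homogeneousComponent_of_mem (h1 t), if_pos rfl]
  · intro b _ hb
    rw [homogeneousComponent_of_mem (h1 b), if_neg (Ne.symm hb)]
  · intro ht
    have : homogeneousComponent t F = 0 := by
      apply homogeneousComponent_eq_zero
      simpa [Nat.lt_succ_iff] using ht
    rw [this, map_zero, map_zero]

/-- evaluation of a homogeneous polynomial at a multiple of a rational vector -/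
theorem aeval_scal {A : Type*} [CommRing A] [Algebra ℚ A] {e D : ℕ} (F : MvPolynomial (Fin e) ℚ)
    (hF : F.IsHomogeneous D) (c : Fin e → ℚ) (z : A) :
    aeval (fun i => algebraMap ℚ A (c i) * z) F = algebraMap ℚ A (eval c F) * z ^ D := by
  rw [aeval_def, eval₂_eq, eval_eq, map_sum, Finset.sum_mul]
  refine Finset.sum_congr rfl fun d hd => ?_
  have h1 := hF.degree_eq_sum_deg_support hd
  rw [map_mul, map_prod, mul_assoc]
  congr 1
  simp only [mul_pow, map_pow]
  rw [Finset.prod_mul_distrib, Finset.prod_pow_eq_pow_sum]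
  congr 2
  exact h1.symm

/-- Constant coefficient in the first variable. -/
theorem coeff_zero_finSuccEquiv {r : ℕ} (F : MvPolynomial (Fin (r + 1)) ℚ) :
    (finSuccEquiv ℚ r F).coeff 0 = aeval (Fin.cons 0 X : Fin (r + 1) → MvPolynomial (Fin r) ℚ) F := by
  let φ : MvPolynomial (Fin (r + 1)) ℚ →ₐ[ℚ] MvPolynomial (Fin r) ℚ :=
    (Polynomial.aeval (0 : MvPolynomial (Fin r) ℚ) |>.restrictScalars ℚ).comp
      (finSuccEquiv ℚ r).toAlgHom
  have h : φ = aeval (Fin.cons 0 X : Fin (r + 1) → MvPolynomial (Fin r) ℚ) := by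
    apply algHom_ext
    intro i
    refine Fin.cases ?_ (fun j => ?_) i
    · simp [φ, finSuccEquiv_X_zero]
    · simp [φ, finSuccEquiv_X_succ]
  rw [← h]
  simp [φ, Polynomial.coeff_zero_eq_eval_zero]

/-- Two families congruent modulo an ideal give congruent values. -/
theorem aeval_congr_mod {n r : ℕ} (I : Ideal (CR n)) (u v : Fin r → CR n)
    (h : ∀ i, u i - v i ∈ I) (F : MvPolynomial (Fin r) ℚ) : aeval u F - aeval v F ∈ I := by
  rw [← Ideal.Quotient.eq]
  have h1 : (Ideal.Quotient.mkₐ ℚ I).comp (aeval u) = (Ideal.Quotient.mkₐ ℚ I).comp (aeval v) := by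
    apply algHom_ext
    intro i
    simpa [Ideal.Quotient.eq] using h i
  exact DFunLike.congr_fun h1 F

/-- the reduction step in linear Noether normalisation -/
theorem reduce_step {n r : ℕ} (P : Ideal (CR n)) (hP : P.IsPrime) (hh : HomI P) (l : CR n)
    (hl : l.IsHomogeneous 1) (hlP : l ∉ P) (w : Fin r → CR n) (hw : ∀ i, (w i).IsHomogeneous 1)
    (hrad : ∀ i, (X i : CR n) ∈
      (P ⊔ Ideal.span (Set.range (Fin.cons l w : Fin (r + 1) → CR n))).radical)
    (F : MvPolynomial (Fin (r + 1)) ℚ) (hF : F ≠ 0)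
    (hFP : aeval (Fin.cons l w : Fin (r + 1) → CR n) F ∈ P) :
    ∃ (r' : ℕ), r' < r ∧ ∃ w' : Fin r' → CR n, (∀ i, (w' i).IsHomogeneous 1) ∧
      ∀ i, (X i : CR n) ∈
        (P ⊔ Ideal.span (Set.range (Fin.cons l w' : Fin (r' + 1) → CR n))).radical := by
  classical
  have hlw : ∀ i, ((Fin.cons l w : Fin (r + 1) → CR n) i).IsHomogeneous 1 := by
    intro i
    refine Fin.cases ?_ (fun j => ?_) i
    · simpa using hl
    · simpa using hw j
  -- a homogeneous relation of minimal degree
  have hex : ∃ D : ℕ, ∃ G : MvPolynomial (Fin (r + 1)) ℚ, G.IsHomogeneous D ∧ G ≠ 0 ∧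
      aeval (Fin.cons l w : Fin (r + 1) → CR n) G ∈ P := by
    have : ∃ D, homogeneousComponent D F ≠ 0 := by
      by_contra hcon
      push Not at hcon
      apply hF
      rw [← sum_homogeneousComponent F]
      exact Finset.sum_eq_zero fun i _ => hcon i
    obtain ⟨D, hD⟩ := this
    refine ⟨D, homogeneousComponent D F, homogeneousComponent_isHomogeneous D F, hD, ?_⟩
    rw [← hc_aeval hlw]
    exact homogeneousComponent_mem_of_mem hh hFP D
  obtain ⟨G, hG1, hG2, hG3⟩ := Nat.find_spec hex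
  set D := Nat.find hex with hDdef
  have hmin : ∀ D' < D, ¬ ∃ G : MvPolynomial (Fin (r + 1)) ℚ, G.IsHomogeneous D' ∧ G ≠ 0 ∧
      aeval (Fin.cons l w : Fin (r + 1) → CR n) G ∈ P := fun D' h => Nat.find_min hex h
  -- degree is positive
  have hD0 : D ≠ 0 := by
    intro h0
    rw [h0] at hG1
    obtain ⟨c, hc⟩ : ∃ c : ℚ, G = C c := by
      have := (totalDegree_zero_iff_isHomogeneous _).2 hG1
      exact ⟨_, totalDegree_eq_zero_iff_eq_C.1 this⟩
    have hc0 : c ≠ 0 := by
      rintro rfl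
      exact hG2 (by rw [hc, map_zero])
    apply hP.ne_top
    rw [Ideal.eq_top_iff_one]
    have h2 : (C c : CR n) ∈ P := by
      rw [hc] at hG3
      simpa [algebraMap_eq] using hG3
    have h3 := P.mul_mem_left (C c⁻¹) h2
    rwa [← C_mul, inv_mul_cancel₀ hc0, C_1] at h3
  -- not divisible by the first variable
  set G0 : MvPolynomial (Fin r) ℚ :=
    aeval (Fin.cons 0 X : Fin (r + 1) → MvPolynomial (Fin r) ℚ) G with hG0
  have hG0ne : G0 ≠ 0 := by
    intro h0
    rw [hG0, ← coeff_zero_finSuccEquiv, ← Polynomial.X_dvd_iff] at h0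
    obtain ⟨q, hq⟩ := h0
    have hGX : G = X 0 * (finSuccEquiv ℚ r).symm q := by
      apply (finSuccEquiv ℚ r).injective
      rw [map_mul, AlgEquiv.apply_symm_apply, finSuccEquiv_X_zero, hq]
    set G' := (finSuccEquiv ℚ r).symm q with hG'
    have hG'ne : G' ≠ 0 := by
      rintro h
      exact hG2 (by rw [hGX, h, mul_zero])
    have hG'hom : G'.IsHomogeneous (D - 1) := by
      intro d hd
      have h1 : coeff (Finsupp.single 0 1 + d) G ≠ 0 := by
        rw [hGX, coeff_X_mul]
        exact hd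
      have h2 := hG1 h1
      rw [map_add, Finsupp.weight_single] at h2
      have h4 : (Pi.single 0 1 : Fin (r + 1) → ℕ) 0 = 1 := by simp
      simp only [Pi.one_apply, smul_eq_mul, mul_one] at h2
      change (Finsupp.weight 1) d = D - 1
      omega
    refine hmin (D - 1) (by omega) ⟨G', hG'hom, hG'ne, ?_⟩
    rw [hGX, map_mul, aeval_X] at hG3
    exact (hP.mem_or_mem hG3).resolve_left (by simpa using hlP)
  have hG0hom : G0.IsHomogeneous D := by
    rw [hG0, ← coeff_zero_finSuccEquiv]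
    exact hG1.finSuccEquiv_coeff_isHomogeneous 0 D (by omega)
  -- there is at least one further form
  obtain ⟨s, rfl⟩ : ∃ s, r = s + 1 := by
    rcases r with _ | s
    · exfalso
      have h1 : G0.IsHomogeneous 0 := isHomogeneous_of_isEmpty _ (f := G0)
      exact hD0 (hG0hom.inj_right h1 hG0ne)
    · exact ⟨s, rfl⟩
  obtain ⟨c, hc⟩ : ∃ c : Fin (s + 1) → ℚ, eval c (G0 * X (Fin.last s)) ≠ 0 := by
    by_contra hcon
    push Not at hcon
    have : G0 * X (Fin.last s) = 0 := by
      apply MvPolynomial.funext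
      intro x
      rw [hcon x, map_zero]
    exact hG0ne ((mul_eq_zero.1 this).resolve_right (X_ne_zero _))
  rw [map_mul, eval_X] at hc
  have hcl : c (Fin.last s) ≠ 0 := right_ne_zero_of_mul hc
  have hcG : eval c G0 ≠ 0 := left_ne_zero_of_mul hc
  set c' : Fin (s + 1) → ℚ := fun i => c i / c (Fin.last s) with hc'
  have hcG' : eval c' G0 ≠ 0 := by
    intro h0
    apply hcG
    have h1 := aeval_scal G0 hG0hom c' (c (Fin.last s))
    have h2 : (fun i => algebraMap ℚ ℚ (c' i) * c (Fin.last s)) = c := by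
      funext i
      simp [hc', hcl]
    rw [h2, h0, map_zero, zero_mul] at h1
    simpa [aeval_eq_eval] using h1
  set z := w (Fin.last s) with hz
  refine ⟨s, Nat.lt_succ_self s, fun i => w i.castSucc - C (c' i.castSucc) * z, fun i => ?_, ?_⟩
  · exact (hw _).sub ((hw _).C_mul _)
  set w' : Fin s → CR n := fun i => w i.castSucc - C (c' i.castSucc) * z with hw'
  set I' := P ⊔ Ideal.span (Set.range (Fin.cons l w' : Fin (s + 1) → CR n)) with hI'
  have hlI : l ∈ I' := Ideal.mem_sup_right (Ideal.subset_span ⟨0, by simp⟩)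
  have hwI : ∀ i : Fin s, w' i ∈ I' := fun i =>
    Ideal.mem_sup_right (Ideal.subset_span ⟨i.succ, by simp⟩)
  have hcong : ∀ i : Fin (s + 1), w i - algebraMap ℚ (CR n) (c' i) * z ∈ I' := by
    intro i
    refine Fin.lastCases ?_ (fun j => ?_) i
    · have : c' (Fin.last s) = 1 := by simp [hc', hcl]
      rw [this, map_one, one_mul, ← hz, sub_self]
      exact I'.zero_mem
    · exact hwI j
  have hcong2 : ∀ i : Fin (s + 1 + 1), (Fin.cons l w : Fin (s + 1 + 1) → CR n) i -
      (fun i => algebraMap ℚ (CR n) ((Fin.cons 0 c' : Fin (s + 1 + 1) → ℚ) i) * z) i ∈ I' := by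
    intro i
    refine Fin.cases ?_ (fun j => ?_) i
    · simpa using hlI
    · simpa using hcong j
  have h1 := aeval_congr_mod I' _ _ hcong2 G
  rw [aeval_scal G hG1] at h1
  have h2 : eval (Fin.cons 0 c' : Fin (s + 1 + 1) → ℚ) G = eval c' G0 := by
    rw [hG0, ← coe_aeval_eq_eval, ← coe_aeval_eq_eval]
    have : (aeval (Fin.cons 0 c' : Fin (s + 1 + 1) → ℚ) : MvPolynomial (Fin (s + 1 + 1)) ℚ →ₐ[ℚ] ℚ) =
        (aeval c').comp (aeval (Fin.cons 0 X : Fin (s + 1 + 1) → MvPolynomial (Fin (s + 1)) ℚ)) := by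
      apply algHom_ext
      intro i
      refine Fin.cases ?_ (fun j => ?_) i
      · simp
      · simp
    rw [this]
    rfl
  rw [h2] at h1
  have h3 : algebraMap ℚ (CR n) (eval c' G0) * z ^ D ∈ I' := by
    have h4 : aeval (Fin.cons l w : Fin (s + 1 + 1) → CR n) G ∈ I' := Ideal.mem_sup_left hG3
    have h5 := I'.sub_mem h4 h1
    simpa using h5
  have hzr : z ∈ I'.radical := by
    refine ⟨D, ?_⟩
    have h6 := I'.mul_mem_left (algebraMap ℚ (CR n) (eval c' G0)⁻¹) h3
    rwa [← mul_assoc, ← map_mul, inv_mul_cancel₀ hcG', map_one, one_mul] at h6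
  have hle : P ⊔ Ideal.span (Set.range (Fin.cons l w : Fin (s + 1 + 1) → CR n)) ≤ I'.radical := by
    refine sup_le (le_trans le_sup_left Ideal.le_radical) ?_
    rw [Ideal.span_le]
    rintro _ ⟨i, rfl⟩
    refine Fin.cases ?_ (fun j => ?_) i
    · simpa using Ideal.le_radical hlI
    · have h7 := Ideal.le_radical (hcong j)
      have h8 := I'.radical.add_mem h7 (I'.radical.mul_mem_left (algebraMap ℚ (CR n) (c' j)) hzr)
      simpa using h8
  intro i
  have h9 := Ideal.radical_mono hle (hrad i)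
  rwa [Ideal.radical_idem] at h9

/-- Linear Noether normalisation with a prescribed first form. -/
theorem exists_LN {n : ℕ} (P : Ideal (CR n)) (hP : P.IsPrime) (hh : HomI P) (l : CR n)
    (hl : l.IsHomogeneous 1) (hlP : l ∉ P) :
    ∃ (e : ℕ) (w : Fin e → CR n), LN P (e + 1) (Fin.cons l w : Fin (e + 1) → CR n) := by
  classical
  have hex : ∃ r : ℕ, ∃ w : Fin r → CR n, (∀ i, (w i).IsHomogeneous 1) ∧ ∀ i, (X i : CR n) ∈
      (P ⊔ Ideal.span (Set.range (Fin.cons l w : Fin (r + 1) → CR n))).radical := by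
    refine ⟨n + 1, X, fun i => isHomogeneous_X _ _, fun i => Ideal.le_radical ?_⟩
    exact Ideal.mem_sup_right (Ideal.subset_span ⟨i.succ, by simp⟩)
  obtain ⟨w, hw1, hw2⟩ := Nat.find_spec hex
  refine ⟨Nat.find hex, w, ?_, ?_, hw2⟩
  · intro i
    refine Fin.cases ?_ (fun j => ?_) i
    · simpa using hl
    · simpa using hw1 j
  · intro F hF
    by_contra hne
    obtain ⟨r', hr', w', hw'1, hw'2⟩ := reduce_step P hP hh l hl hlP w hw1 hw2 F hne hF
    exact Nat.find_min hex hr' ⟨w', hw'1, hw'2⟩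

end Pool.Agent.Q10.SZ
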