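import Pool.Agent.Q10.SZ1

set_option autoImplicit false

/-! Integrality, Krull dimension, going down for linear Noether normalisations. -/

namespace Pool.Agent.Q10.SZ

open MvPolynomial

attribute [local instance] MvPolynomial.gradedAlgebra

/-- The structure map of a normalisation. -/
noncomputable def nmap {n e : ℕ} (P : Ideal (CR n)) (w : Fin e → CR n) :
    MvPolynomial (Fin e) ℚ →ₐ[ℚ] CR n ⧸ P := (Ideal.Quotient.mkₐ ℚ P).comp (aeval w)

theorem nmap_apply {n e : ℕ} (P : Ideal (CR n)) (w : Fin e → CR n) (F : MvPolynomial (Fin e) ℚ) :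
    nmap P w F = Ideal.Quotient.mk P (aeval w F) := rfl

theorem hom_mem_pow {n t N : ℕ} (f : CR n) (hf : f.IsHomogeneous t) (ht : N ≤ t) :
    f ∈ (Ideal.span (Set.range (X : Fin (n + 1) → CR n))) ^ N := by
  apply Ideal.pow_le_pow_right ht
  rw [Ideal.mem_span_pow_iff_exists_isHomogeneous]
  refine ⟨map C f, hf.map C, ?_⟩
  rw [eval_map]
  exact eval₂_eta f

theorem mem_of_large {n : ℕ} (J : Ideal (CR n)) (h : ∀ i, (X i : CR n) ∈ J.radical) :
    ∃ N, ∀ t, N ≤ t → ∀ f : CR n, f.IsHomogeneous t → f ∈ J := by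
  have h1 : Ideal.span (Set.range (X : Fin (n + 1) → CR n)) ≤ J.radical := by
    rw [Ideal.span_le]
    rintro _ ⟨i, rfl⟩
    exact h i
  obtain ⟨N, hN⟩ := Ideal.exists_pow_le_of_le_radical_of_fg h1 (IsNoetherian.noetherian _)
  exact ⟨N, fun t ht f hf => hN (hom_mem_pow f hf ht)⟩

theorem nmap_finite {n e : ℕ} {P : Ideal (CR n)} (hh : HomI P) {w : Fin e → CR n}
    (hw : ∀ i, (w i).IsHomogeneous 1)
    (hr : ∀ i, (X i : CR n) ∈ (P ⊔ Ideal.span (Set.range w)).radical) :
    (nmap P w).toRingHom.Finite := by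
  classical
  let _ : Algebra (MvPolynomial (Fin e) ℚ) (CR n ⧸ P) := (nmap P w).toRingHom.toAlgebra
  have hsm : ∀ (a : MvPolynomial (Fin e) ℚ) (b : CR n ⧸ P), a • b = nmap P w a * b :=
    fun a b => rfl
  obtain ⟨N, hN⟩ := mem_of_large _ hr
  let S : Finset (Fin (n + 1) →₀ ℕ) :=
    (Finset.range (N + 1)).biUnion fun t => Finset.univ.finsuppAntidiag t
  have hS : ∀ d : Fin (n + 1) →₀ ℕ, d.degree ≤ N → d ∈ S := by
    intro d hd
    simp only [S, Finset.mem_biUnion, Finset.mem_range, Finset.mem_finsuppAntidiag]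
    refine ⟨d.degree, by omega, ?_, by simp⟩
    exact (Finsupp.degree_eq_sum d).symm
  let M : Submodule (MvPolynomial (Fin e) ℚ) (CR n ⧸ P) :=
    Submodule.span _ ((fun d => Ideal.Quotient.mk P (monomial d 1)) '' (S : Set _))
  have key : ∀ t, ∀ f : CR n, f.IsHomogeneous t → Ideal.Quotient.mk P f ∈ M := by
    intro t
    induction t using Nat.strong_induction_on with
    | _ t ih =>
      intro f hf
      by_cases ht : t ≤ N
      · rw [f.as_sum, map_sum]
        refine M.sum_mem fun d hd => ?_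
        have h1 : monomial d (coeff d f) = aeval w (C (coeff d f)) * monomial d (1 : ℚ) := by
          rw [aeval_C, algebraMap_eq, C_mul_monomial, mul_one]
        rw [h1, map_mul, ← nmap_apply, ← hsm]
        refine M.smul_mem _ (Submodule.subset_span ⟨d, hS d ?_, rfl⟩)
        have h2 := hf.degree_eq_sum_deg_support hd
        rw [Finsupp.degree_apply, ← h2]
        exact ht
      · obtain ⟨s, rfl⟩ : ∃ s, t = s + 1 := ⟨t - 1, by omega⟩
        have h1 := hN (s + 1) (by omega) f hf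
        obtain ⟨p, hp, q, hq, hpq⟩ := Submodule.mem_sup.1 h1
        obtain ⟨c, hc⟩ := Ideal.mem_span_range_iff_exists_fun.1 hq
        have h2 : f = homogeneousComponent (s + 1) p +
            ∑ i, homogeneousComponent s (c i) * w i := by
          rw [← homogeneousComponent_eq_self hf]
          conv_lhs => rw [← hpq, ← hc]
          rw [map_add, map_sum]
          congr 1
          exact Finset.sum_congr rfl fun i _ => hc_mul (hw i)
        rw [h2, map_add, map_sum]
        refine M.add_mem ?_ (M.sum_mem fun i _ => ?_)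
        · rw [Ideal.Quotient.eq_zero_iff_mem.2 (homogeneousComponent_mem_of_mem hh hp _)]
          exact M.zero_mem
        · have h3 : Ideal.Quotient.mk P (homogeneousComponent s (c i) * w i) =
              (X i : MvPolynomial (Fin e) ℚ) • Ideal.Quotient.mk P (homogeneousComponent s (c i)) := by
            rw [hsm, nmap_apply, aeval_X, ← map_mul, mul_comm]
          rw [h3]
          exact M.smul_mem _ (ih s (by omega) _ (homogeneousComponent_isHomogeneous _ _))
  have htop : M = ⊤ := by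
    rw [eq_top_iff]
    intro b _
    obtain ⟨f, rfl⟩ := Ideal.Quotient.mk_surjective b
    rw [← sum_homogeneousComponent f, map_sum]
    exact M.sum_mem fun i _ => key i _ (homogeneousComponent_isHomogeneous _ _)
  refine ⟨?_⟩
  rw [← htop]
  exact Submodule.fg_span (S.finite_toSet.image _)

theorem LN.integral {n e : ℕ} {P : Ideal (CR n)} (hh : HomI P) {w : Fin e → CR n}
    (hL : LN P e w) : (nmap P w).toRingHom.IsIntegral :=
  (nmap_finite hh hL.lin hL.rad).to_isIntegral

theorem LN.inj {n e : ℕ} {P : Ideal (CR n)} {w : Fin e → CR n}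
    (hL : LN P e w) : Function.Injective (nmap P w) := by
  rw [injective_iff_map_eq_zero]
  intro F hF
  rw [nmap_apply, Ideal.Quotient.eq_zero_iff_mem] at hF
  exact hL.ind F hF

/-- An integral extension has the same Krull dimension. -/
theorem ringKrullDim_eq_of_integral' (A B : Type) [CommRing A] [CommRing B] [Algebra A B]
    [Algebra.IsIntegral A B] (hinj : Function.Injective (algebraMap A B)) :
    ringKrullDim B = ringKrullDim A := by
  apply le_antisymm
  · refine Order.krullDim_le_of_strictMono (PrimeSpectrum.comap (algebraMap A B)) ?_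
    intro P Q hPQ
    exact Ideal.IsIntegral.comap_lt_comap (I := P.asIdeal) (J := Q.asIdeal) hPQ
  · refine iSup_le fun l => ?_
    have : FaithfulSMul A B := (faithfulSMul_iff_algebraMap_injective A B).2 hinj
    obtain ⟨P, hP⟩ := Algebra.IsIntegral.comap_surjective A B l.head
    have : P.asIdeal.LiesOver l.head.asIdeal := ⟨by rw [← hP]; rfl⟩
    obtain ⟨L, hL, -, -⟩ := Ideal.exists_ltSeries_of_hasGoingUp l P.asIdeal
    rw [← hL]
    exact Order.LTSeries.length_le_krullDim L

theorem LN.dim {n e : ℕ} {P : Ideal (CR n)} (hh : HomI P) {w : Fin e → CR n}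
    (hL : LN P e w) : ringKrullDim (CR n ⧸ P) = e := by
  let _ : Algebra (MvPolynomial (Fin e) ℚ) (CR n ⧸ P) := (nmap P w).toRingHom.toAlgebra
  have : Algebra.IsIntegral (MvPolynomial (Fin e) ℚ) (CR n ⧸ P) := ⟨hL.integral hh⟩
  rw [ringKrullDim_eq_of_integral' (MvPolynomial (Fin e) ℚ) (CR n ⧸ P) hL.inj,
    MvPolynomial.ringKrullDim_of_isNoetherianRing, ringKrullDim_eq_zero_of_field]
  simp

/-- Incomparability. -/
theorem LN.incomp {n e : ℕ} {Q Q' : Ideal (CR n)} (hh : HomI Q) (hQ : Q.IsPrime)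
    {w : Fin e → CR n} (hL : LN Q e w) (hL' : LN Q' e w) (hle : Q ≤ Q') : Q = Q' := by
  let _ : Algebra (MvPolynomial (Fin e) ℚ) (CR n ⧸ Q) := (nmap Q w).toRingHom.toAlgebra
  have : Algebra.IsIntegral (MvPolynomial (Fin e) ℚ) (CR n ⧸ Q) := ⟨hL.integral hh⟩
  by_contra hne
  obtain ⟨x, hx1, hx2⟩ := SetLike.exists_of_lt (lt_of_le_of_ne hle hne)
  have h1 : Ideal.Quotient.mk Q x ≠ 0 := by
    rw [Ne, Ideal.Quotient.eq_zero_iff_mem]
    exact hx2
  have h2 : Ideal.Quotient.mk Q x ∈ Q'.map (Ideal.Quotient.mk Q) := Ideal.mem_map_of_mem _ hx1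
  have h3 := Ideal.comap_ne_bot_of_integral_mem (R := MvPolynomial (Fin e) ℚ) h1 h2
    (Algebra.IsIntegral.isIntegral _)
  apply h3
  rw [eq_bot_iff]
  intro F hF
  have h4 : nmap Q w F ∈ Q'.map (Ideal.Quotient.mk Q) := hF
  rw [nmap_apply, Ideal.mem_quotient_iff_mem hle] at h4
  exact hL'.ind F h4

/-- The hyperplane section through a given prime. -/
theorem section_point {n e : ℕ} {P : Ideal (CR n)} (hP : P.IsPrime) (hh : HomI P) {l : CR n}
    {w : Fin e → CR n} (hL : LN P (e + 1) (Fin.cons l w : Fin (e + 1) → CR n))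
    (M : Ideal (CR n)) (hM : M.IsPrime) (hPM : P ≤ M) (hlM : l ∈ M) :
    ∃ Q : Ideal (CR n), Q.IsPrime ∧ HomI Q ∧ P ≤ Q ∧ l ∈ Q ∧ Q ≤ M ∧ LN Q e w := by
  classical
  let _ : Algebra (MvPolynomial (Fin (e + 1)) ℚ) (CR n ⧸ P) :=
    (nmap P (Fin.cons l w : Fin (e + 1) → CR n)).toRingHom.toAlgebra
  have : Algebra.IsIntegral (MvPolynomial (Fin (e + 1)) ℚ) (CR n ⧸ P) := ⟨hL.integral hh⟩
  have : FaithfulSMul (MvPolynomial (Fin (e + 1)) ℚ) (CR n ⧸ P) :=
    (faithfulSMul_iff_algebraMap_injective _ _).2 hL.inj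
  have halg : ∀ F : MvPolynomial (Fin (e + 1)) ℚ,
      algebraMap (MvPolynomial (Fin (e + 1)) ℚ) (CR n ⧸ P) F =
      Ideal.Quotient.mk P (aeval (Fin.cons l w : Fin (e + 1) → CR n) F) := fun F => rfl
  let M' : Ideal (CR n ⧸ P) := M.map (Ideal.Quotient.mk P)
  have hM' : M'.IsPrime := by
    refine Ideal.map_isPrime_of_surjective Ideal.Quotient.mk_surjective ?_
    rw [Ideal.mk_ker]
    exact hPM
  let p : Ideal (MvPolynomial (Fin (e + 1)) ℚ) := Ideal.span {X 0}
  have hp : p.IsPrime := by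
    rw [Ideal.span_singleton_prime (X_ne_zero _)]
    exact MvPolynomial.X_prime
  have hpM : p ≤ M'.under (MvPolynomial (Fin (e + 1)) ℚ) := by
    rw [Ideal.span_le, Set.singleton_subset_iff]
    change algebraMap (MvPolynomial (Fin (e + 1)) ℚ) (CR n ⧸ P) (X 0) ∈ M'
    rw [halg, aeval_X, Fin.cons_zero]
    exact Ideal.mem_map_of_mem _ hlM
  obtain ⟨P', hP'1, hP'2, hP'3⟩ := Ideal.exists_ideal_le_liesOver_of_le (p := p)
    (q := M'.under (MvPolynomial (Fin (e + 1)) ℚ)) M' hpM
  let Q' : Ideal (CR n) := P'.comap (Ideal.Quotient.mk P)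
  have hQ' : Q'.IsPrime := Ideal.comap_isPrime _ _
  have hPQ' : P ≤ Q' := by
    intro x hx
    change Ideal.Quotient.mk P x ∈ P'
    rw [Ideal.Quotient.eq_zero_iff_mem.2 hx]
    exact P'.zero_mem
  have hlQ' : l ∈ Q' := by
    change Ideal.Quotient.mk P l ∈ P'
    have h1 : (X 0 : MvPolynomial (Fin (e + 1)) ℚ) ∈ P'.under (MvPolynomial (Fin (e + 1)) ℚ) := by
      rw [← hP'3.over]
      exact Ideal.mem_span_singleton_self _
    have h2 : algebraMap (MvPolynomial (Fin (e + 1)) ℚ) (CR n ⧸ P) (X 0) ∈ P' := h1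
    rwa [halg, aeval_X, Fin.cons_zero] at h2
  have hQ'M : Q' ≤ M := by
    intro x hx
    have h1 : Ideal.Quotient.mk P x ∈ M' := hP'1 hx
    rwa [Ideal.mem_quotient_iff_mem hPM] at h1
  let Q := (Q'.homogeneousCore (homogeneousSubmodule (Fin (n + 1)) ℚ)).toIdeal
  have hQQ' : Q ≤ Q' := Ideal.toIdeal_homogeneousCore_le _ _
  have hl1 : l.IsHomogeneous 1 := by simpa using hL.lin 0
  have hPQ : P ≤ Q := by
    have h1 : (P.homogeneousCore (homogeneousSubmodule (Fin (n + 1)) ℚ)).toIdeal ≤ Q :=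
      Ideal.homogeneousCore_mono _ hPQ'
    rwa [hh.toIdeal_homogeneousCore_eq_self] at h1
  have hlQ : l ∈ Q := Ideal.mem_homogeneousCore_of_homogeneous_of_mem ⟨1, hl1⟩ hlQ'
  refine ⟨Q, hQ'.homogeneousCore, (Q'.homogeneousCore _).isHomogeneous, hPQ, hlQ,
    hQQ'.trans hQ'M, ?_, ?_, ?_⟩
  · intro i
    simpa using hL.lin i.succ
  · intro F hF
    have h1 : aeval (Fin.cons l w : Fin (e + 1) → CR n) (rename Fin.succ F) = aeval w F := by
      rw [aeval_rename]
      congr 1
    have h2 : algebraMap (MvPolynomial (Fin (e + 1)) ℚ) (CR n ⧸ P) (rename Fin.succ F) ∈ P' := by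
      rw [halg, h1]
      exact hQQ' hF
    have h3 : rename Fin.succ F ∈ p := by
      rw [hP'3.over]
      exact h2
    obtain ⟨G, hG⟩ := Ideal.mem_span_singleton'.1 h3
    have h4 := congrArg (aeval (Fin.cons 0 X : Fin (e + 1) → MvPolynomial (Fin e) ℚ)) hG
    rw [map_mul, aeval_X, Fin.cons_zero, mul_zero, aeval_rename] at h4
    have h5 : (Fin.cons 0 X : Fin (e + 1) → MvPolynomial (Fin e) ℚ) ∘ Fin.succ = X := by
      funext i
      simp
    rw [h5, aeval_X_left_apply] at h4
    exact h4.symm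
  · have hle : P ⊔ Ideal.span (Set.range (Fin.cons l w : Fin (e + 1) → CR n)) ≤
        Q ⊔ Ideal.span (Set.range w) := by
      refine sup_le (hPQ.trans le_sup_left) ?_
      rw [Ideal.span_le]
      rintro _ ⟨i, rfl⟩
      refine Fin.cases ?_ (fun j => ?_) i
      · have h6 : l ∈ Q ⊔ Ideal.span (Set.range w) := Ideal.mem_sup_left hlQ
        simpa using h6
      · have h6 : w j ∈ Q ⊔ Ideal.span (Set.range w) :=
          Ideal.mem_sup_right (Ideal.subset_span (Set.mem_range_self j))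
        simpa using h6
    exact fun i => Ideal.radical_mono hle (hL.rad i)

end Pool.Agent.Q10.SZ
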