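import Pool.Agent.Q10.SZ2

set_option autoImplicit false

/-! Hilbert functions and hyperplane sections. -/

namespace Pool.Agent.Q10.SZ

open MvPolynomial

attribute [local instance] MvPolynomial.gradedAlgebra

/-- The Hilbert function of `ℚ[X₀,…,Xₙ]/I`: the dimension of the degree `t` part. -/
noncomputable def hilb {n : ℕ} (I : Ideal (CR n)) (t : ℕ) : ℕ :=
  Module.finrank ℚ
    ((homogeneousSubmodule (Fin (n + 1)) ℚ t).map (Ideal.Quotient.mkₐ ℚ I).toLinearMap)

/-- the degree `t` part of the quotient -/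
noncomputable abbrev part {n : ℕ} (I : Ideal (CR n)) (t : ℕ) : Submodule ℚ (CR n ⧸ I) :=
  (homogeneousSubmodule (Fin (n + 1)) ℚ t).map (Ideal.Quotient.mkₐ ℚ I).toLinearMap

instance {n t : ℕ} : Module.Finite ℚ (homogeneousSubmodule (Fin (n + 1)) ℚ t) :=
  Module.Finite.iff_fg.2 (homogeneousSubmodule_fg _ _ t)

theorem exists_section {n : ℕ} (I : Ideal (CR n)) (t : ℕ) :
    ∃ s : part I t →ₗ[ℚ] CR n, (∀ v, (s v).IsHomogeneous t) ∧
      ∀ v, Ideal.Quotient.mk I (s v) = (v : CR n ⧸ I) := by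
  let φ : homogeneousSubmodule (Fin (n + 1)) ℚ t →ₗ[ℚ] part I t :=
    (Ideal.Quotient.mkₐ ℚ I).toLinearMap.submoduleMap _
  have hφ : Function.Surjective φ := LinearMap.submoduleMap_surjective _ _
  obtain ⟨g, hg⟩ := φ.exists_rightInverse_of_surjective (LinearMap.range_eq_top.2 hφ)
  refine ⟨(homogeneousSubmodule (Fin (n + 1)) ℚ t).subtype.comp g, fun v => (g v).2, fun v => ?_⟩
  have h1 := LinearMap.congr_fun hg v
  exact congrArg Subtype.val h1

theorem hilb_ge {n : ℕ} (I : Ideal (CR n)) (t : ℕ) {V : Type} [AddCommGroup V] [Module ℚ V]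
    (φ : V →ₗ[ℚ] CR n) (h1 : ∀ v, (φ v).IsHomogeneous t) (h2 : ∀ v, φ v ∈ I → v = 0) :
    Module.finrank ℚ V ≤ hilb I t := by
  let ψ : V →ₗ[ℚ] part I t :=
    ((Ideal.Quotient.mkₐ ℚ I).toLinearMap.comp φ).codRestrict _ (fun v => ⟨φ v, h1 v, rfl⟩)
  have hψ : Function.Injective ψ := by
    rw [injective_iff_map_eq_zero]
    intro v hv
    apply h2
    rw [← Ideal.Quotient.eq_zero_iff_mem]
    exact congrArg Subtype.val hv
  exact LinearMap.finrank_le_finrank_of_injective hψ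

theorem finrank_hom (e t : ℕ) :
    Module.finrank ℚ (homogeneousSubmodule (Fin (e + 1)) ℚ t) = (t + e).choose e := by
  classical
  have h1 : {d : Fin (e + 1) →₀ ℕ | d.degree = t} =
      ((Finset.univ.finsuppAntidiag t : Finset (Fin (e + 1) →₀ ℕ)) : Set _) := by
    ext d
    simp [Finset.mem_finsuppAntidiag, Finsupp.degree_eq_sum]
  rw [homogeneousSubmodule_eq_finsupp_supported, h1,
    (AddMonoidAlgebra.supportedEquivFinsupp (R := ℚ) (S := ℚ) _).finrank_eq,
    Module.finrank_finsupp_self]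
  have h2 : Fintype.card ↑((Finset.univ.finsuppAntidiag t : Finset (Fin (e + 1) →₀ ℕ)) :
      Set (Fin (e + 1) →₀ ℕ)) = (Finset.univ.finsuppAntidiag t : Finset (Fin (e + 1) →₀ ℕ)).card := by
    rw [← Nat.card_eq_fintype_card]
    exact Nat.card_eq_card_toFinset _ |>.trans (by simp)
  rw [h2, Finset.card_finsuppAntidiag_nat_eq_choose, Finset.card_univ, Fintype.card_fin]
  rw [show e + 1 + t - 1 = t + e by omega]
  rw [Nat.choose_symm_of_eq_add]
  omega

/-- the degree `t` part of a ring with a normalisation by `e + 1` forms -/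
theorem LN.hilb_lower {n e : ℕ} {P : Ideal (CR n)} {w : Fin (e + 1) → CR n}
    (hL : LN P (e + 1) w) (t : ℕ) : (t + e).choose e ≤ hilb P t := by
  rw [← finrank_hom]
  refine hilb_ge P t ((aeval w).toLinearMap.comp
    (homogeneousSubmodule (Fin (e + 1)) ℚ t).subtype) (fun v => ?_) (fun v hv => ?_)
  · exact aeval_hom hL.lin v.2
  · exact Subtype.ext (hL.ind _ hv)

/-- separating forms of a common degree -/
theorem exists_sep {n : ℕ} {ι : Type} [Fintype ι] [DecidableEq ι] (Q : ι → Ideal (CR n))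
    (hQ : ∀ i, (Q i).IsPrime) (hh : ∀ i, HomI (Q i)) (hne : ∀ i j, i ≠ j → ¬ Q i ≤ Q j)
    (l : ι → CR n) (hl : ∀ i, (l i).IsHomogeneous 1) (hlQ : ∀ i, l i ∉ Q i) :
    ∃ (m : ℕ) (f : ι → CR n), (∀ i, (f i).IsHomogeneous m) ∧ (∀ i, f i ∉ Q i) ∧
      ∀ i j, i ≠ j → f i ∈ Q j := by
  have h1 : ∀ i j, i ≠ j → ∃ (s : ℕ) (g : CR n), g.IsHomogeneous s ∧ g ∈ Q j ∧ g ∉ Q i := by
    intro i j hij
    obtain ⟨x, hx1, hx2⟩ := SetLike.not_le_iff_exists.1 (hne j i (Ne.symm hij))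
    have h2 : ∃ s, homogeneousComponent s x ∉ Q i := by
      by_contra hcon
      push Not at hcon
      exact hx2 ((mem_iff_homogeneousComponent_mem (hh i) x).2 hcon)
    obtain ⟨s, hs⟩ := h2
    exact ⟨s, _, homogeneousComponent_isHomogeneous _ _,
      homogeneousComponent_mem_of_mem (hh j) hx1 s, hs⟩
  have h3 : ∀ i, ∃ (s : ℕ) (g : CR n), g.IsHomogeneous s ∧ g ∉ Q i ∧ ∀ j, i ≠ j → g ∈ Q j := by
    intro i
    choose s g hg1 hg2 hg3 using h1 i
    refine ⟨∑ j ∈ (Finset.univ.filter fun j => i ≠ j).attach,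
        s j.1 (Finset.mem_filter.1 j.2).2,
      ∏ j ∈ (Finset.univ.filter fun j => i ≠ j).attach, g j.1 (Finset.mem_filter.1 j.2).2,
      IsHomogeneous.prod _ _ _ fun j _ => hg1 _ _, ?_, ?_⟩
    · intro hmem
      have := (hQ i).prod_mem_iff.1 hmem
      obtain ⟨j, _, hj⟩ := this
      exact hg3 _ _ hj
    · intro j hj
      have hjm : j ∈ Finset.univ.filter fun j => i ≠ j := by simp [hj]
      exact Ideal.mem_of_dvd _ (Finset.dvd_prod_of_mem _ (Finset.mem_attach _ ⟨j, hjm⟩)) (hg2 j hj)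
  choose s g hg1 hg2 hg3 using h3
  refine ⟨∑ i, s i, fun i => g i * l i ^ (∑ j, s j - s i), fun i => ?_, fun i => ?_,
    fun i j hij => ?_⟩
  · have h4 : s i ≤ ∑ j, s j := Finset.single_le_sum (fun _ _ => Nat.zero_le _) (Finset.mem_univ i)
    have h5 := (hg1 i).mul ((hl i).pow (∑ j, s j - s i))
    rw [one_mul, Nat.add_sub_cancel' h4] at h5
    exact h5
  · intro hmem
    rcases (hQ i).mem_or_mem hmem with h | h
    · exact hg2 i h
    · exact hlQ i ((hQ i).mem_of_pow_mem _ h)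
  · exact Ideal.mul_mem_right _ _ (hg3 i j hij)

/-- The Hilbert function of a hyperplane section. -/
theorem hilb_step {n : ℕ} {ι : Type} [Fintype ι] [DecidableEq ι] (P : Ideal (CR n))
    (hP : P.IsPrime) (l : CR n) (hl : l.IsHomogeneous 1) (hlP : l ∉ P)
    (Q : ι → Ideal (CR n)) (hQ : ∀ i, (Q i).IsPrime) (hPQ : ∀ i, P ≤ Q i) (hlQ : ∀ i, l ∈ Q i)
    (m : ℕ) (f : ι → CR n) (hf : ∀ i, (f i).IsHomogeneous m) (hfi : ∀ i, f i ∉ Q i)
    (hfj : ∀ i j, i ≠ j → f i ∈ Q j) (t : ℕ) :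
    hilb P (m + t) + ∑ i, hilb (Q i) (t + 1) ≤ hilb P (m + t + 1) := by
  choose s hs1 hs2 using fun i => exists_section (Q i) (t + 1)
  obtain ⟨s0, hs01, hs02⟩ := exists_section P (m + t)
  let φ : (part P (m + t) × ∀ i, part (Q i) (t + 1)) →ₗ[ℚ] CR n :=
    LinearMap.coprod ((LinearMap.mulLeft ℚ l).comp s0)
      (LinearMap.lsum ℚ (fun i => part (Q i) (t + 1)) ℚ
        (fun i => (LinearMap.mulLeft ℚ (f i)).comp (s i)))
  have hφ : ∀ v, φ v = l * s0 v.1 + ∑ i, f i * s i (v.2 i) := by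
    intro v
    simp [φ, LinearMap.lsum_apply]
  have hfr : ∀ i, Module.Free ℚ (part (Q i) (t + 1)) := fun i => Module.Free.of_divisionRing ℚ _
  have hfr0 : Module.Free ℚ (part P (m + t)) := Module.Free.of_divisionRing ℚ _
  have h := hilb_ge P (m + t + 1) (V := part P (m + t) × ∀ i, part (Q i) (t + 1)) φ ?_ ?_
  · have h1 : Module.finrank ℚ (part P (m + t) × ∀ i, part (Q i) (t + 1)) =
        hilb P (m + t) + ∑ i, hilb (Q i) (t + 1) := by
      rw [Module.finrank_prod, Module.finrank_pi_fintype]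
      rfl
    rwa [h1] at h
  · intro v
    rw [hφ]
    refine IsHomogeneous.add ?_ (IsHomogeneous.sum _ _ _ fun i _ => ?_)
    · have := hl.mul (hs01 v.1)
      rwa [show 1 + (m + t) = m + t + 1 by ring] at this
    · exact (hf i).mul (hs1 i (v.2 i))
  · intro v hv
    rw [hφ] at hv
    have h2 : ∀ i, v.2 i = 0 := by
      intro j
      have h3 : f j * s j (v.2 j) ∈ Q j := by
        have h4 : ∑ i ∈ Finset.univ.erase j, f i * s i (v.2 i) ∈ Q j :=
          (Q j).sum_mem fun i hi => Ideal.mul_mem_right _ _ (hfj i j (Finset.ne_of_mem_erase hi))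
        have h5 : l * s0 v.1 ∈ Q j := Ideal.mul_mem_right _ _ (hlQ j)
        have h6 := hPQ j hv
        rw [← Finset.add_sum_erase _ _ (Finset.mem_univ j)] at h6
        have h7 := (Q j).sub_mem ((Q j).sub_mem h6 h5) h4
        have h8 : l * s0 v.1 + (f j * s j (v.2 j) + ∑ i ∈ Finset.univ.erase j, f i * s i (v.2 i)) -
            l * s0 v.1 - ∑ i ∈ Finset.univ.erase j, f i * s i (v.2 i) = f j * s j (v.2 j) := by ring
        rwa [h8] at h7
      have h9 := ((hQ j).mem_or_mem h3).resolve_left (hfi j)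
      rw [← Ideal.Quotient.eq_zero_iff_mem, hs2] at h9
      exact Subtype.ext h9
    have h10 : s0 v.1 ∈ P := by
      have h11 : ∑ i, f i * s i (v.2 i) = 0 :=
        Finset.sum_eq_zero fun i _ => by rw [h2 i, map_zero, mul_zero]
      rw [h11, add_zero] at hv
      exact (hP.mem_or_mem hv).resolve_left hlP
    rw [← Ideal.Quotient.eq_zero_iff_mem, hs02] at h10
    exact Prod.ext (Subtype.ext h10) (funext h2)

/-- `P` has degree at least `δ` in dimension `e`. -/
def LB {n : ℕ} (P : Ideal (CR n)) (e : ℕ) (δ : ℝ) : Prop :=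
  ∃ c : ℕ, ∀ t : ℕ, δ * ((t + e).choose e : ℕ) ≤ hilb P (t + c)

theorem LB.mono {n e : ℕ} {P : Ideal (CR n)} {δ δ' : ℝ} (h : LB P e δ) (hd : δ' ≤ δ) :
    LB P e δ' := by
  obtain ⟨c, hc⟩ := h
  exact ⟨c, fun t => (mul_le_mul_of_nonneg_right hd (Nat.cast_nonneg _)).trans (hc t)⟩

theorem LN.LB_one {n e : ℕ} {P : Ideal (CR n)} {w : Fin (e + 1) → CR n}
    (hL : LN P (e + 1) w) : LB P e 1 := by
  refine ⟨0, fun t => ?_⟩
  rw [one_mul, add_zero]
  exact_mod_cast hL.hilb_lower t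

/-- Bezout's inequality for a hyperplane section. -/
theorem LB_section {n e : ℕ} {ι : Type} [Fintype ι] [DecidableEq ι] (P : Ideal (CR n))
    (hP : P.IsPrime) (l : CR n) (hl : l.IsHomogeneous 1) (hlP : l ∉ P)
    (Q : ι → Ideal (CR n)) (hQ : ∀ i, (Q i).IsPrime) (hh : ∀ i, HomI (Q i))
    (hinj : Function.Injective Q)
    (hPQ : ∀ i, P ≤ Q i) (hlQ : ∀ i, l ∈ Q i) (w : Fin (e + 1) → CR n)
    (hL : ∀ i, LN (Q i) (e + 1) w) (δ : ι → ℝ) (hδ : ∀ i, 0 ≤ δ i)
    (hLB : ∀ i, LB (Q i) e (δ i)) : LB P (e + 1) (∑ i, δ i) := by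
  obtain ⟨m, f, hf1, hf2, hf3⟩ := exists_sep Q hQ hh
    (fun i j hij hle => hij (hinj ((hL i).incomp (hh i) (hQ i) (hL j) hle)))
    (fun _ => w 0) (fun i => (hL i).lin 0) (fun i hmem => by
      have := (hL i).ind (X 0) (by rwa [aeval_X])
      exact X_ne_zero _ this)
  choose c hc using hLB
  -- a common constant
  obtain ⟨C, hC⟩ : ∃ C : ℕ, ∀ i, c i ≤ C := ⟨∑ i, c i, fun i =>
    Finset.single_le_sum (f := c) (fun _ _ => Nat.zero_le _) (Finset.mem_univ i)⟩
  have hc' : ∀ i, ∀ t, δ i * ((t + e).choose e : ℕ) ≤ hilb (Q i) (t + C) := by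
    intro i t
    have h1 := hc i (t + (C - c i))
    rw [show t + (C - c i) + c i = t + C by have := hC i; omega] at h1
    refine le_trans (mul_le_mul_of_nonneg_left ?_ (hδ i)) h1
    exact_mod_cast Nat.choose_le_choose e (by omega)
  have hstep : ∀ t, (hilb P (m + t) : ℝ) + ∑ i, (hilb (Q i) (t + 1) : ℝ) ≤
      hilb P (m + t + 1) := by
    intro t
    exact_mod_cast hilb_step P hP l hl hlP Q hQ hPQ hlQ m f hf1 hf2 hf3 t
  refine ⟨C + m + 1, fun t => ?_⟩
  have hsum : ∀ t, (hilb P (m + (t + C)) : ℝ) + (∑ i, δ i) * ((t + e).choose e : ℕ) ≤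
      hilb P (m + (t + C) + 1) := by
    intro t
    refine le_trans ?_ (hstep (t + C))
    gcongr
    rw [Finset.sum_mul]
    refine Finset.sum_le_sum fun i _ => ?_
    refine (hc' i (t + 1)).trans' ?_ |>.trans_eq ?_
    · refine mul_le_mul_of_nonneg_left ?_ (hδ i)
      exact_mod_cast Nat.choose_le_choose e (by omega)
    · rw [show t + 1 + C = t + C + 1 by ring]
  induction t with
  | zero =>
    have h1 := hsum 0
    have h2 : (0 : ℝ) ≤ hilb P (m + (0 + C)) := Nat.cast_nonneg _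
    simp only [zero_add, Nat.choose_self, Nat.cast_one, mul_one] at h1 h2 ⊢
    rw [show C + m + 1 = m + C + 1 by ring]
    linarith
  | succ t ih =>
    have h1 := hsum (t + 1)
    have h2 : ((t + 1 + (e + 1)).choose (e + 1) : ℕ) =
        (t + 1 + e).choose e + (t + (e + 1)).choose (e + 1) := by
      rw [show t + 1 + (e + 1) = (t + 1 + e) + 1 by ring, Nat.choose_succ_succ]
      rw [show t + (e + 1) = t + 1 + e by ring]
    rw [h2]
    push_cast
    rw [mul_add]
    have h3 : m + (t + 1 + C) = t + (C + m + 1) := by ring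
    have h4 : m + (t + 1 + C) + 1 = t + 1 + (C + m + 1) := by ring
    rw [h4, h3] at h1
    linarith

end Pool.Agent.Q10.SZ
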