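import Mathlib

set_option autoImplicit false

/-! Successive minima of `z^⊥ ∩ ℤ^{n+1}`: the product bound. -/

namespace Pool.Agent.Q10.SZ

open MeasureTheory Module

/-- an integer vector in Euclidean space -/
noncomputable def ev {n : ℕ} (v : Fin (n + 1) → ℤ) : EuclideanSpace ℝ (Fin (n + 1)) :=
  WithLp.toLp 2 (fun i => (v i : ℝ))

theorem ev_apply {n : ℕ} (v : Fin (n + 1) → ℤ) (i : Fin (n + 1)) : ev v i = (v i : ℝ) := rfl

theorem ev_norm_sq {n : ℕ} (v : Fin (n + 1) → ℤ) :
    ‖ev v‖ ^ 2 = ((∑ i, (v i).natAbs ^ 2 : ℕ) : ℝ) := by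
  rw [EuclideanSpace.norm_sq_eq]
  push_cast
  refine Finset.sum_congr rfl fun i _ => ?_
  rw [ev_apply, Real.norm_eq_abs, sq_abs, Nat.cast_natAbs, Int.cast_abs, sq_abs]

theorem ev_inner {n : ℕ} (u v : Fin (n + 1) → ℤ) :
    inner ℝ (ev u) (ev v) = ((∑ i, u i * v i : ℤ) : ℝ) := by
  rw [PiLp.inner_apply]
  push_cast
  refine Finset.sum_congr rfl fun i _ => ?_
  simp [ev_apply, mul_comm]

theorem ev_ne_zero {n : ℕ} {v : Fin (n + 1) → ℤ} (hv : v ≠ 0) : ev v ≠ 0 := by
  intro h
  apply hv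
  funext i
  have := congrArg (fun x : EuclideanSpace ℝ (Fin (n + 1)) => x i) h
  simpa [ev_apply] using this

theorem ev_one_le_norm {n : ℕ} {v : Fin (n + 1) → ℤ} (hv : v ≠ 0) : 1 ≤ ‖ev v‖ := by
  have h1 := ev_norm_sq v
  have h2 : 0 < ‖ev v‖ := norm_pos_iff.2 (ev_ne_zero hv)
  have h3 : (0 : ℝ) < ((∑ i, (v i).natAbs ^ 2 : ℕ) : ℝ) := by
    rw [← h1]; positivity
  have h4 : 1 ≤ ∑ i, (v i).natAbs ^ 2 := by exact_mod_cast h3
  have h5 : (1 : ℝ) ≤ ‖ev v‖ ^ 2 := by rw [h1]; exact_mod_cast h4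
  nlinarith

/-- The vectors orthogonal to `z` are spanned by the integral ones. -/
theorem orth_le_span {n : ℕ} (z : Fin (n + 1) → ℤ) (hz : z ≠ 0)
    (y : EuclideanSpace ℝ (Fin (n + 1))) (hy : inner ℝ y (ev z) = 0)
    (V : Submodule ℝ (EuclideanSpace ℝ (Fin (n + 1))))
    (hV : ∀ v : Fin (n + 1) → ℤ, ∑ i, v i * z i = 0 → ev v ∈ V) : y ∈ V := by
  classical
  obtain ⟨j, hj⟩ := Function.ne_iff.1 hz
  have hj' : (z j : ℝ) ≠ 0 := by simpa using hj
  let v : Fin (n + 1) → Fin (n + 1) → ℤ := fun k =>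
    z j • Pi.single k 1 - z k • Pi.single j 1
  have hv : ∀ k, ∑ i, v k i * z i = 0 := by
    intro k
    have h1 : ∀ i, v k i * z i = (if i = k then z j * z i else 0) -
        (if i = j then z k * z i else 0) := by
      intro i
      simp only [v, Pi.sub_apply, Pi.smul_apply, smul_eq_mul, Pi.single_apply]
      split_ifs <;> ring
    simp only [h1]
    rw [Finset.sum_sub_distrib, Finset.sum_ite_eq', Finset.sum_ite_eq']
    simp [mul_comm]
  have hy2 : ∑ i, y i * (z i : ℝ) = 0 := by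
    rw [PiLp.inner_apply] at hy
    rw [← hy]
    refine Finset.sum_congr rfl fun i _ => ?_
    simp [ev_apply, mul_comm]
  have hyv : y = ∑ k, (y k / z j) • ev (v k) := by
    ext i
    have h1 : (∑ k, (y k / z j) • ev (v k)) i = ∑ k, (y k / z j) * (v k i : ℝ) := by
      simp [ev_apply]
    rw [h1]
    have h2 : ∀ k, (y k / z j) * (v k i : ℝ) =
        (if i = k then y k else 0) - (if i = j then y k * z k / z j else 0) := by
      intro k
      simp only [v, Pi.sub_apply, Pi.smul_apply, smul_eq_mul, Pi.single_apply]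
      push_cast
      split_ifs <;> field_simp <;> ring
    simp only [h2]
    rw [Finset.sum_sub_distrib, Finset.sum_ite_eq, if_pos (Finset.mem_univ _)]
    by_cases hij : i = j
    · simp only [if_pos hij]
      rw [← Finset.sum_div, hy2]
      simp
    · simp [hij]
  rw [hyv]
  exact V.sum_mem fun k _ => V.smul_mem _ (hV _ (hv k))

theorem li_of_notMem {K V : Type*} [Field K] [AddCommGroup V] [Module K V] (u : ℕ → V) (N : ℕ)
    (h : ∀ m < N, u m ∉ Submodule.span K (u '' Set.Iio m)) :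
    LinearIndependent K (fun m : Fin N => u m) := by
  induction N with
  | zero => exact linearIndependent_empty_type
  | succ N ih =>
    rw [linearIndependent_finSucc']
    refine ⟨ih fun m hm => h m (by omega), ?_⟩
    have h1 := h N (Nat.lt_succ_self N)
    have h2 : Set.range (fun i : Fin N => u (i : ℕ)) = u '' Set.Iio N := by
      ext x
      constructor
      · rintro ⟨i, rfl⟩
        exact ⟨i, i.2, rfl⟩
      · rintro ⟨i, hi, rfl⟩
        exact ⟨⟨i, hi⟩, rfl⟩
    have h3 : Set.range (Fin.init fun m : Fin (N + 1) => u (m : ℕ)) =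
        Set.range (fun i : Fin N => u (i : ℕ)) := rfl
    simpa [h2, h3] using h1

/-- Successive minima vectors. -/
theorem exists_minima {n : ℕ} (z : Fin (n + 1) → ℤ) (hz : z ≠ 0) (N : ℕ) (hN : N ≤ n) :
    ∃ a : ℕ → Fin (n + 1) → ℤ, ∀ m < N, ∑ i, a m i * z i = 0 ∧
      ev (a m) ∉ Submodule.span ℝ ((fun k => ev (a k)) '' Set.Iio m) ∧
      ∀ v : Fin (n + 1) → ℤ, ∑ i, v i * z i = 0 →
        ev v ∉ Submodule.span ℝ ((fun k => ev (a k)) '' Set.Iio m) → ‖ev (a m)‖ ≤ ‖ev v‖ := by
  classical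
  induction N with
  | zero => exact ⟨fun _ => 0, fun m hm => absurd hm (Nat.not_lt_zero m)⟩
  | succ N ih =>
    obtain ⟨a, ha⟩ := ih (by omega)
    set W := Submodule.span ℝ ((fun k => ev (a k)) '' Set.Iio N) with hW
    have hli : LinearIndependent ℝ (fun m : Fin N => ev (a m)) :=
      li_of_notMem (fun k => ev (a k)) N fun m hm => (ha m hm).2.1
    have hex : ∃ s : ℕ, ∃ v : Fin (n + 1) → ℤ, ∑ i, v i * z i = 0 ∧ ev v ∉ W ∧
        ∑ i, (v i).natAbs ^ 2 = s := by
      by_contra hcon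
      push Not at hcon
      have h1 : ∀ v : Fin (n + 1) → ℤ, ∑ i, v i * z i = 0 → ev v ∈ W := by
        intro v hv
        by_contra hvW
        exact hcon _ v hv hvW rfl
      have h2 : (Submodule.span ℝ {ev z})ᗮ ≤ W := by
        intro y hy
        refine orth_le_span z hz y ?_ W h1
        rw [real_inner_comm]
        exact Submodule.mem_orthogonal_singleton_iff_inner_right.1 hy
      have h3 := Submodule.finrank_mono h2
      have hfact : Fact (finrank ℝ (EuclideanSpace ℝ (Fin (n + 1))) = n + 1) := ⟨by simp⟩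
      rw [Submodule.finrank_orthogonal_span_singleton (n := n) (ev_ne_zero hz)] at h3
      have h4 : finrank ℝ W ≤ N := by
        have h5 : (fun k => ev (a k)) '' Set.Iio N = Set.range (fun m : Fin N => ev (a m)) := by
          ext x
          constructor
          · rintro ⟨i, hi, rfl⟩
            exact ⟨⟨i, hi⟩, rfl⟩
          · rintro ⟨i, rfl⟩
            exact ⟨i, i.2, rfl⟩
        rw [hW, h5]
        exact (finrank_range_le_card _).trans (by simp)
      omega
    obtain ⟨v, hv1, hv2, hv3⟩ := Nat.find_spec hex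
    have hmin : ∀ u : Fin (n + 1) → ℤ, ∑ i, u i * z i = 0 → ev u ∉ W → ‖ev v‖ ≤ ‖ev u‖ := by
      intro u hu1 hu2
      have h1 : Nat.find hex ≤ ∑ i, (u i).natAbs ^ 2 := Nat.find_min' hex ⟨u, hu1, hu2, rfl⟩
      have h2 : ‖ev v‖ ^ 2 ≤ ‖ev u‖ ^ 2 := by
        rw [ev_norm_sq, ev_norm_sq, hv3]
        exact_mod_cast h1
      exact (sq_le_sq₀ (norm_nonneg _) (norm_nonneg _)).1 h2
    refine ⟨Function.update a N v, fun m hm => ?_⟩
    have himg : (fun k => ev (Function.update a N v k)) '' Set.Iio m =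
        (fun k => ev (a k)) '' Set.Iio m := by
      refine Set.image_congr fun k hk => ?_
      have : k ≠ N := by
        have : k < m := hk
        omega
      simp [this]
    rw [himg]
    rcases Nat.lt_succ_iff_lt_or_eq.1 hm with h | h
    · rw [Function.update_of_ne (by omega)]
      exact ha m h
    · subst h
      rw [Function.update_self]
      exact ⟨hv1, hv2, hmin⟩

/-- the volume of a rotated box -/
theorem volume_box {n : ℕ} (b : OrthonormalBasis (Fin (n + 1)) ℝ (EuclideanSpace ℝ (Fin (n + 1))))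
    (r : Fin (n + 1) → ℝ) (hr : ∀ i, 0 < r i) :
    volume {y : Fin (n + 1) → ℝ | ∀ i, |b.repr (WithLp.toLp 2 y) i| < r i} =
      ENNReal.ofReal (2 ^ (n + 1) * ∏ i, r i) := by
  have h1 : MeasurePreserving (fun y : Fin (n + 1) → ℝ =>
      WithLp.ofLp (b.repr (WithLp.toLp 2 y))) volume volume :=
    (PiLp.volume_preserving_ofLp (Fin (n + 1))).comp
      (b.measurePreserving_repr.comp (PiLp.volume_preserving_toLp (Fin (n + 1))))
  have h2 : {y : Fin (n + 1) → ℝ | ∀ i, |b.repr (WithLp.toLp 2 y) i| < r i} =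
      (fun y : Fin (n + 1) → ℝ => WithLp.ofLp (b.repr (WithLp.toLp 2 y))) ⁻¹'
        (Set.pi Set.univ fun i => Set.Ioo (-r i) (r i)) := by
    ext y
    simp [abs_lt]
  have h3 : MeasurableSet (Set.pi Set.univ fun i : Fin (n + 1) => Set.Ioo (-r i) (r i)) :=
    MeasurableSet.univ_pi fun i => measurableSet_Ioo
  rw [h2, h1.measure_preimage h3.nullMeasurableSet, volume_pi, Measure.pi_pi]
  simp only [Real.volume_Ioo]
  rw [← ENNReal.ofReal_prod_of_nonneg fun i _ => by have := hr i; linarith]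
  congr 1
  rw [← Fin.prod_const, ← Finset.prod_mul_distrib]
  exact Finset.prod_congr rfl fun i _ => by ring

/-- Minkowski's theorem for a rotated box. -/
theorem mink_box {n : ℕ} (b : OrthonormalBasis (Fin (n + 1)) ℝ (EuclideanSpace ℝ (Fin (n + 1))))
    (r : Fin (n + 1) → ℝ) (hr : ∀ i, 0 < r i) (h : 1 < ∏ i, r i) :
    ∃ u : Fin (n + 1) → ℤ, u ≠ 0 ∧ ∀ i, |b.repr (ev u) i| < r i := by
  classical
  let L := (Submodule.span ℤ (Set.range (Pi.basisFun ℝ (Fin (n + 1))))).toAddSubgroup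
  have hcount : Countable L :=
    inferInstanceAs (Countable (Submodule.span ℤ (Set.range (Pi.basisFun ℝ (Fin (n + 1))))))
  have hfund := ZSpan.isAddFundamentalDomain' (Pi.basisFun ℝ (Fin (n + 1)))
    (volume : Measure (Fin (n + 1) → ℝ))
  have hvol : volume (ZSpan.fundamentalDomain (Pi.basisFun ℝ (Fin (n + 1)))) = 1 := by
    rw [ZSpan.fundamentalDomain_pi_basisFun, volume_pi, Measure.pi_pi]
    simp
  set S : Set (Fin (n + 1) → ℝ) := {y | ∀ i, |b.repr (WithLp.toLp 2 y) i| < r i} with hS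
  have hsymm : ∀ x ∈ S, -x ∈ S := by
    intro x hx i
    have := hx i
    rw [WithLp.toLp_neg, map_neg]
    simpa using this
  have hconv : Convex ℝ S := by
    intro x hx y hy s t hs ht hst i
    have hx' := abs_lt.1 (hx i)
    have hy' := abs_lt.1 (hy i)
    rw [WithLp.toLp_add, WithLp.toLp_smul, WithLp.toLp_smul, map_add, map_smul, map_smul]
    simp only [PiLp.add_apply, PiLp.smul_apply, smul_eq_mul]
    rw [abs_lt]
    rcases hs.eq_or_lt with h0 | h0
    · subst h0
      have : t = 1 := by linarith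
      subst this
      constructor <;> linarith [hy'.1, hy'.2]
    · constructor
      · nlinarith [mul_lt_mul_of_pos_left hx'.1 h0, mul_le_mul_of_nonneg_left hy'.1.le ht]
      · nlinarith [mul_lt_mul_of_pos_left hx'.2 h0, mul_le_mul_of_nonneg_left hy'.2.le ht]
  have hlt : volume (ZSpan.fundamentalDomain (Pi.basisFun ℝ (Fin (n + 1)))) *
      2 ^ finrank ℝ (Fin (n + 1) → ℝ) < volume S := by
    rw [hvol, hS, volume_box b r hr, finrank_fin_fun, one_mul]
    have e2 : (2 : ENNReal) ^ (n + 1) = ENNReal.ofReal (2 ^ (n + 1)) := by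
      rw [ENNReal.ofReal_pow (by norm_num)]
      norm_num
    rw [e2, ENNReal.ofReal_lt_ofReal_iff (by positivity)]
    have : (0 : ℝ) < 2 ^ (n + 1) := by positivity
    nlinarith
  obtain ⟨x, hx0, hxS⟩ := exists_ne_zero_mem_lattice_of_measure_mul_two_pow_lt_measure
    hfund hsymm hconv hlt
  have hx1 : (x : Fin (n + 1) → ℝ) ∈ Submodule.span ℤ (Set.range (Pi.basisFun ℝ (Fin (n + 1)))) :=
    x.2
  rw [Basis.mem_span_iff_repr_mem] at hx1
  choose u hu using hx1
  have hxu : (x : Fin (n + 1) → ℝ) = fun i => (u i : ℝ) := by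
    funext i
    have := hu i
    simpa using this.symm
  refine ⟨u, ?_, ?_⟩
  · rintro rfl
    apply hx0
    apply Subtype.ext
    rw [hxu]
    funext i
    simp
  · intro i
    have := hxS i
    rw [hxu] at this
    exact this

end Pool.Agent.Q10.SZ
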