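import Pool.Agent.Q10.SZ4

set_option autoImplicit false

/-! Types of integer points and counting of cosets. -/

namespace Pool.Agent.Q10.SZ

open MeasureTheory Module

theorem gs_finrank (n : ℕ) :
    finrank ℝ (EuclideanSpace ℝ (Fin (n + 1))) = Fintype.card (Fin (n + 1)) := by simp

/-- The product of the successive minima. -/
theorem prod_minima {n : ℕ} (z : Fin (n + 1) → ℤ) (hz : z ≠ 0) (a : ℕ → Fin (n + 1) → ℤ)
    (ha : ∀ m < n, ∑ i, a m i * z i = 0 ∧
      ev (a m) ∉ Submodule.span ℝ ((fun k => ev (a k)) '' Set.Iio m) ∧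
      ∀ v : Fin (n + 1) → ℤ, ∑ i, v i * z i = 0 →
        ev v ∉ Submodule.span ℝ ((fun k => ev (a k)) '' Set.Iio m) → ‖ev (a m)‖ ≤ ‖ev v‖) :
    ∏ m : Fin n, ‖ev (a m)‖ ≤ (n + 1) ^ n * ‖ev z‖ := by
  classical
  have hzn : 0 < ‖ev z‖ := norm_pos_iff.2 (ev_ne_zero hz)
  have hfact : Fact (finrank ℝ (EuclideanSpace ℝ (Fin (n + 1))) = n + 1) := ⟨by simp⟩
  have hli : LinearIndependent ℝ (fun m : Fin n => ev (a m)) :=
    li_of_notMem (fun k => ev (a k)) n fun m hm => (ha m hm).2.1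
  have hapos : ∀ m < n, 0 < ‖ev (a m)‖ := by
    intro m hm
    refine norm_pos_iff.2 fun h => (ha m hm).2.1 ?_
    rw [h]
    exact Submodule.zero_mem _
  let W : ℕ → Submodule ℝ (EuclideanSpace ℝ (Fin (n + 1))) := fun m =>
    Submodule.span ℝ ((fun k => ev (a k)) '' Set.Iio m)
  have hWmono : ∀ k m, k ≤ m → W k ≤ W m := fun k m hkm =>
    Submodule.span_mono (Set.image_mono (Set.Iio_subset_Iio hkm))
  have hlam : ∀ k m, k ≤ m → m < n → ‖ev (a k)‖ ≤ ‖ev (a m)‖ := by
    intro k m hkm hm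
    exact (ha k (by omega)).2.2 _ (ha m hm).1 fun h => (ha m hm).2.1 (hWmono k m hkm h)
  have hWn : W n = (Submodule.span ℝ {ev z})ᗮ := by
    refine Submodule.eq_of_le_of_finrank_eq ?_ ?_
    · rw [Submodule.span_le]
      rintro _ ⟨k, hk, rfl⟩
      rw [SetLike.mem_coe, Submodule.mem_orthogonal_singleton_iff_inner_left, ev_inner]
      exact_mod_cast (ha k hk).1
    · rw [Submodule.finrank_orthogonal_span_singleton (n := n) (ev_ne_zero hz)]
      have h5 : (fun k => ev (a k)) '' Set.Iio n = Set.range (fun m : Fin n => ev (a m)) := by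
        ext x
        constructor
        · rintro ⟨i, hi, rfl⟩
          exact ⟨⟨i, hi⟩, rfl⟩
        · rintro ⟨i, rfl⟩
          exact ⟨i, i.2, rfl⟩
      change finrank ℝ (Submodule.span ℝ ((fun k => ev (a k)) '' Set.Iio n)) = n
      rw [h5, finrank_span_eq_card hli, Fintype.card_fin]
  let f : Fin (n + 1) → EuclideanSpace ℝ (Fin (n + 1)) := fun i =>
    if (i : ℕ) < n then ev (a i) else ev z
  let b := InnerProductSpace.gramSchmidtOrthonormalBasis (gs_finrank n) f
  have hb0 : ∀ (i : Fin (n + 1)) (k : ℕ), k < (i : ℕ) → inner ℝ (b i) (ev (a k)) = 0 := by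
    intro i k hk
    have hk' : k < n + 1 := by have := i.2; omega
    have h1 := InnerProductSpace.gramSchmidtOrthonormalBasis_inv_triangular (gs_finrank n) f
      (i := ⟨k, hk'⟩) (j := i) hk
    have h2 : f ⟨k, hk'⟩ = ev (a k) := by
      simp only [f]
      rw [if_pos (by have := i.2; omega)]
    rw [h2] at h1
    exact h1
  have hbW : ∀ (i : Fin (n + 1)) (m : ℕ), m ≤ (i : ℕ) → ∀ y ∈ W m, inner ℝ (b i) y = 0 := by
    intro i m hm y hy
    induction hy using Submodule.span_induction with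
    | mem x hx =>
      obtain ⟨k, hk, rfl⟩ := hx
      exact hb0 i k (lt_of_lt_of_le hk hm)
    | zero => exact inner_zero_right _
    | add x y _ _ hx hy => rw [inner_add_right, hx, hy, add_zero]
    | smul c x _ hx => rw [inner_smul_right, hx, mul_zero]
  -- the last vector of the basis is parallel to `z`
  obtain ⟨c, hc⟩ : ∃ c : ℝ, b (Fin.last n) = c • ev z := by
    have h1 : b (Fin.last n) ∈ (W n)ᗮ := by
      rw [Submodule.mem_orthogonal']
      intro y hy
      exact hbW (Fin.last n) n (by simp) y hy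
    rw [hWn, Submodule.orthogonal_orthogonal, Submodule.mem_span_singleton] at h1
    obtain ⟨c, hc⟩ := h1
    exact ⟨c, hc.symm⟩
  have hcn : |c| * ‖ev z‖ = 1 := by
    have h1 : ‖b (Fin.last n)‖ = 1 := b.orthonormal.1 _
    rw [hc, norm_smul, Real.norm_eq_abs] at h1
    exact h1
  -- the box
  let r : Fin (n + 1) → ℝ := fun i =>
    if (i : ℕ) < n then ‖ev (a i)‖ / (n + 1) else 1 / ‖ev z‖
  have hr : ∀ i, 0 < r i := by
    intro i
    simp only [r]
    split_ifs with h
    · exact div_pos (hapos _ h) (by positivity)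
    · positivity
  have hprod : ∏ i, r i ≤ 1 := by
    by_contra hcon
    push Not at hcon
    obtain ⟨u, hu0, hu⟩ := mink_box b r hr hcon
    have hu' : ∀ i, |inner ℝ (b i) (ev u)| < r i := by
      intro i
      have := hu i
      rwa [OrthonormalBasis.repr_apply_apply] at this
    have huz : ∑ i, u i * z i = 0 := by
      have h1 := hu' (Fin.last n)
      rw [hc, inner_smul_left, ev_inner] at h1
      have h2 : r (Fin.last n) = 1 / ‖ev z‖ := by simp [r]
      rw [h2] at h1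
      simp only [conj_trivial, abs_mul] at h1
      have h3 : |c| = 1 / ‖ev z‖ := by
        rw [eq_div_iff hzn.ne']
        exact hcn
      rw [h3] at h1
      have h4 : |((∑ i, z i * u i : ℤ) : ℝ)| < 1 := by
        have h5 : 0 < 1 / ‖ev z‖ := by positivity
        by_contra h6
        push Not at h6
        nlinarith
      have h7 : |∑ i, z i * u i| < 1 := by exact_mod_cast h4
      have h8 := Int.abs_lt_one_iff.1 h7
      rw [← h8]
      exact Finset.sum_congr rfl fun i _ => mul_comm _ _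
    have hdesc : ∀ k ≤ n, ev u ∈ W (n - k) := by
      intro k
      induction k with
      | zero =>
        intro _
        rw [Nat.sub_zero, hWn, Submodule.mem_orthogonal_singleton_iff_inner_left, ev_inner]
        exact_mod_cast huz
      | succ k ih =>
        intro hk
        have h1 := ih (by omega)
        set m := n - (k + 1) with hm
        have hm1 : n - k = m + 1 := by omega
        have hmn : m < n := by omega
        rw [hm1] at h1
        by_contra hnot
        have h2 := (ha m hmn).2.2 u huz hnot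
        have h3 : ‖ev u‖ ^ 2 = ∑ i, (inner ℝ (b i) (ev u)) ^ 2 := by
          rw [← b.sum_sq_norm_inner_right (ev u)]
          exact Finset.sum_congr rfl fun i _ => by rw [Real.norm_eq_abs, sq_abs]
        have h4 : ∀ i, (inner ℝ (b i) (ev u)) ^ 2 ≤ (‖ev (a m)‖ / (n + 1)) ^ 2 := by
          intro i
          by_cases hi : m + 1 ≤ (i : ℕ)
          · rw [hbW i (m + 1) hi _ h1, zero_pow two_ne_zero]
            positivity
          · have hi' : (i : ℕ) < n := by omega
            have h5 := hu' i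
            have h6 : r i = ‖ev (a i)‖ / (n + 1) := by simp [r, hi']
            rw [h6] at h5
            have h7 : ‖ev (a i)‖ ≤ ‖ev (a m)‖ := hlam i m (by omega) hmn
            rw [← sq_abs]
            refine pow_le_pow_left₀ (abs_nonneg _) (h5.le.trans ?_) 2
            gcongr
        have h5 : ‖ev u‖ ^ 2 ≤ (n + 1) * (‖ev (a m)‖ / (n + 1)) ^ 2 := by
          rw [h3]
          refine (Finset.sum_le_sum fun i _ => h4 i).trans_eq ?_
          simp
        have h6 : ‖ev (a m)‖ ^ 2 ≤ ‖ev u‖ ^ 2 := pow_le_pow_left₀ (norm_nonneg _) h2 2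
        have h7 : (n + 1) * (‖ev (a m)‖ / (n + 1)) ^ 2 = ‖ev (a m)‖ ^ 2 / (n + 1) := by
          field_simp
        rw [h7] at h5
        have h8 : (1 : ℝ) < n + 1 := by
          have : 0 < n := by omega
          have : (0 : ℝ) < n := by exact_mod_cast this
          linarith
        have h9 : 0 < ‖ev (a m)‖ ^ 2 := pow_pos (hapos m hmn) 2
        have h10 := h6.trans h5
        rw [le_div_iff₀ (by linarith)] at h10
        nlinarith
    have h0 := hdesc n le_rfl
    rw [Nat.sub_self] at h0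
    have h1 : W 0 = ⊥ := by simp [W]
    rw [h1, Submodule.mem_bot] at h0
    exact ev_ne_zero hu0 h0
  rw [Fin.prod_univ_castSucc] at hprod
  have h1 : r (Fin.last n) = 1 / ‖ev z‖ := by simp [r]
  have h2 : ∀ i : Fin n, r i.castSucc = ‖ev (a i)‖ / (n + 1) := fun i => by simp [r]
  rw [h1] at hprod
  simp only [h2] at hprod
  rw [Finset.prod_div_distrib, Finset.prod_const, Finset.card_univ, Fintype.card_fin,
    div_mul_div_comm, mul_one, div_le_one (by positivity)] at hprod
  exact hprod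

/-- The type of an integer point. -/
theorem exists_type {n : ℕ} (z : Fin (n + 1) → ℤ) (hz : z ≠ 0) (B : ℝ)
    (hB : ∀ i, |(z i : ℝ)| ≤ B) :
    ∃ (a : Fin n → Fin (n + 1) → ℤ) (e : Fin n → ℕ), LinearIndependent ℝ (fun i => ev (a i)) ∧
      (∀ i, ∑ j, a i j * z j = 0) ∧ Monotone e ∧ (∀ i j, |a i j| ≤ 2 ^ (e i)) ∧
      (2 : ℝ) ^ (∑ i, e i) ≤ 4 ^ n * (n + 1) ^ (n + 1) * B := by
  obtain ⟨a, ha⟩ := exists_minima z hz n le_rfl
  have hprod := prod_minima z hz a ha
  have hB0 : 0 ≤ B := (abs_nonneg _).trans (hB 0)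
  have hzB : ‖ev z‖ ≤ (n + 1) * B := by
    rw [← sq_le_sq₀ (norm_nonneg _) (by positivity), EuclideanSpace.norm_sq_eq]
    have h1 : ∀ i, ‖ev z i‖ ^ 2 ≤ B ^ 2 := fun i => by
      rw [ev_apply, Real.norm_eq_abs]
      exact pow_le_pow_left₀ (abs_nonneg _) (hB i) 2
    refine (Finset.sum_le_sum fun i _ => h1 i).trans ?_
    rw [Finset.sum_const, Finset.card_univ, Fintype.card_fin, nsmul_eq_mul]
    push_cast
    rw [mul_pow]
    gcongr
    nlinarith [Nat.cast_nonneg (α := ℝ) n]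
  have hne : ∀ m < n, a m ≠ 0 := by
    intro m hm h
    apply (ha m hm).2.1
    have : ev (a m) = 0 := by
      rw [h]
      ext i
      simp [ev_apply]
    rw [this]
    exact Submodule.zero_mem _
  have hlam : ∀ k m, k ≤ m → m < n → ‖ev (a k)‖ ≤ ‖ev (a m)‖ := by
    intro k m hkm hm
    refine (ha k (by omega)).2.2 _ (ha m hm).1 fun h => (ha m hm).2.1 ?_
    exact Submodule.span_mono (Set.image_mono (Set.Iio_subset_Iio hkm)) h
  have hle : ∀ m, ‖ev (a m)‖ ≤ 2 ^ (Nat.clog 2 ⌈‖ev (a m)‖⌉₊) := by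
    intro m
    have h1 := Nat.le_pow_clog (b := 2) (by norm_num) ⌈‖ev (a m)‖⌉₊
    have h2 : ((⌈‖ev (a m)‖⌉₊ : ℕ) : ℝ) ≤ 2 ^ (Nat.clog 2 ⌈‖ev (a m)‖⌉₊) := by exact_mod_cast h1
    exact (Nat.le_ceil _).trans h2
  have hge : ∀ m < n, (2 : ℝ) ^ (Nat.clog 2 ⌈‖ev (a m)‖⌉₊) ≤ 4 * ‖ev (a m)‖ := by
    intro m hm
    have h1 := ev_one_le_norm (hne m hm)
    by_cases h0 : Nat.clog 2 ⌈‖ev (a m)‖⌉₊ = 0
    · rw [h0, pow_zero]
      linarith
    · have h2 : 1 < ⌈‖ev (a m)‖⌉₊ := by
        by_contra h3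
        exact h0 (Nat.clog_of_right_le_one (by omega) 2)
      have h3 := Nat.pow_pred_clog_lt_self (b := 2) (by norm_num) h2
      have h4 : (2 : ℝ) ^ (Nat.clog 2 ⌈‖ev (a m)‖⌉₊ - 1) < ⌈‖ev (a m)‖⌉₊ := by exact_mod_cast h3
      have h5 := Nat.ceil_lt_add_one (norm_nonneg (ev (a m)))
      have h6 : (2 : ℝ) ^ (Nat.clog 2 ⌈‖ev (a m)‖⌉₊) =
          2 * 2 ^ (Nat.clog 2 ⌈‖ev (a m)‖⌉₊ - 1) := by
        rw [← pow_succ']
        congr 1
        omega
      rw [h6]
      linarith
  refine ⟨fun i => a i, fun i => Nat.clog 2 ⌈‖ev (a i)‖⌉₊,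
    li_of_notMem (fun k => ev (a k)) n fun m hm => (ha m hm).2.1, fun i => (ha i i.2).1, ?_, ?_, ?_⟩
  · intro i j hij
    exact Nat.clog_mono_right 2 (Nat.ceil_mono (hlam i j hij j.2))
  · intro i j
    have h1 : ‖ev (a i) j‖ ≤ ‖ev (a i)‖ := PiLp.norm_apply_le _ _
    have h2 := h1.trans (hle i)
    rw [ev_apply, Real.norm_eq_abs] at h2
    exact_mod_cast h2
  · rw [← Finset.prod_pow_eq_pow_sum]
    calc ∏ i : Fin n, (2 : ℝ) ^ (Nat.clog 2 ⌈‖ev (a i)‖⌉₊) ≤ ∏ i : Fin n, (4 * ‖ev (a i)‖) :=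
          Finset.prod_le_prod (fun i _ => by positivity) fun i _ => hge i i.2
      _ = 4 ^ n * ∏ i : Fin n, ‖ev (a i)‖ := by
          rw [Finset.prod_mul_distrib]
          simp
      _ ≤ 4 ^ n * ((n + 1) ^ n * ((n + 1) * B)) := by
          gcongr
          exact hprod.trans (by gcongr)
      _ = 4 ^ n * (n + 1) ^ (n + 1) * B := by ring

/-- Counting cosets of a lattice containing short independent vectors. -/
theorem coset_count {n j : ℕ} (hj : j ≤ n + 1) (W : AddSubgroup (Fin (n + 1) → ℤ))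
    (b : Fin j → Fin (n + 1) → ℤ) (hb : LinearIndependent ℤ b) (hbW : ∀ i, b i ∈ W)
    (e : Fin j → ℕ) (E : ℕ) (he : ∀ i, e i ≤ E) (hbe : ∀ i l, |b i l| ≤ 2 ^ (e i))
    (T : Finset (Fin (n + 1) → ℤ)) (hT : ∀ t ∈ T, ∀ l, |t l| ≤ 2 ^ E)
    (hTW : ∀ t ∈ T, ∀ t' ∈ T, t - t' ∈ W → t = t') :
    T.card ≤ (2 * (n + 2) + 1) ^ (n + 1) * 2 ^ ((n + 1 - j) * E + ∑ i, e i) := by
  classical
  let M : ℤ := (j + 1) * 2 ^ E
  let box : Finset (Fin (n + 1) → ℤ) := Fintype.piFinset fun _ => Finset.Icc (-M) M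
  let D : Finset ((Fin (n + 1) → ℤ) × (Fin j → ℕ)) :=
    T ×ˢ Fintype.piFinset fun i => Finset.range (2 ^ (E - e i))
  let φ : (Fin (n + 1) → ℤ) × (Fin j → ℕ) → (Fin (n + 1) → ℤ) := fun p =>
    p.1 + ∑ i, (p.2 i : ℤ) • b i
  have hmaps : ∀ p ∈ D, φ p ∈ box := by
    intro p hp
    simp only [D, Finset.mem_product, Fintype.mem_piFinset, Finset.mem_range] at hp
    simp only [box, Fintype.mem_piFinset, Finset.mem_Icc]
    intro l
    rw [← abs_le]
    have h1 : φ p l = p.1 l + ∑ i, (p.2 i : ℤ) * b i l := by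
      simp [φ, Finset.sum_apply]
    rw [h1]
    refine (abs_add_le _ _).trans ?_
    have h2 : |∑ i, (p.2 i : ℤ) * b i l| ≤ j * 2 ^ E := by
      refine (Finset.abs_sum_le_sum_abs _ _).trans ?_
      have h3 : ∀ i, |(p.2 i : ℤ) * b i l| ≤ 2 ^ E := by
        intro i
        rw [abs_mul, Nat.abs_cast]
        have h4 : (p.2 i : ℤ) ≤ 2 ^ (E - e i) := by exact_mod_cast (hp.2 i).le
        calc (p.2 i : ℤ) * |b i l| ≤ 2 ^ (E - e i) * 2 ^ (e i) :=
              mul_le_mul h4 (hbe i l) (abs_nonneg _) (by positivity)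
          _ = 2 ^ E := by rw [← pow_add, Nat.sub_add_cancel (he i)]
      refine (Finset.sum_le_sum fun i _ => h3 i).trans_eq ?_
      simp
    have h5 := hT _ hp.1 l
    have h6 : M = (j : ℤ) * 2 ^ E + 2 ^ E := by simp only [M]; ring
    rw [h6]
    linarith
  have hinj : Set.InjOn φ D := by
    intro p hp q hq hpq
    simp only [D, Finset.coe_product, Set.mem_prod, Finset.mem_coe] at hp hq
    have h1 : p.1 - q.1 = ∑ i, ((q.2 i : ℤ) - (p.2 i : ℤ)) • b i := by
      simp only [φ] at hpq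
      simp only [sub_smul, Finset.sum_sub_distrib]
      rw [sub_eq_sub_iff_add_eq_add, hpq]
      abel
    have h2 : p.1 = q.1 := by
      apply hTW _ hp.1 _ hq.1
      rw [h1]
      exact W.sum_mem fun i _ => W.zsmul_mem (hbW i) _
    rw [h2, sub_self] at h1
    have h3 := Fintype.linearIndependent_iff.1 hb _ h1.symm
    refine Prod.ext h2 (funext fun i => ?_)
    have := h3 i
    omega
  have hcard : D.card ≤ box.card := Finset.card_le_card_of_injOn φ hmaps hinj
  have hD : D.card = T.card * 2 ^ (∑ i, (E - e i)) := by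
    rw [Finset.card_product, Fintype.card_piFinset]
    simp only [Finset.card_range]
    rw [Finset.prod_pow_eq_pow_sum]
  have hbox : box.card ≤ ((2 * (n + 2) + 1) * 2 ^ E) ^ (n + 1) := by
    rw [Fintype.card_piFinset]
    simp only [Int.card_Icc, Finset.prod_const, Finset.card_univ, Fintype.card_fin]
    refine Nat.pow_le_pow_left ?_ _
    have h1 : (M + 1 - -M).toNat = 2 * ((j + 1) * 2 ^ E) + 1 := by
      simp only [M]
      have : (((j : ℤ) + 1) * 2 ^ E + 1 - -(((j : ℤ) + 1) * 2 ^ E)) =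
          ((2 * ((j + 1) * 2 ^ E) + 1 : ℕ) : ℤ) := by push_cast; ring
      rw [this, Int.toNat_natCast]
    rw [h1]
    have h2 : 1 ≤ 2 ^ E := Nat.one_le_two_pow
    nlinarith
  rw [hD] at hcard
  have h1 := hcard.trans hbox
  have h2 : ((2 * (n + 2) + 1) * 2 ^ E) ^ (n + 1) =
      ((2 * (n + 2) + 1) ^ (n + 1) * 2 ^ ((n + 1 - j) * E + ∑ i, e i)) *
        2 ^ (∑ i, (E - e i)) := by
    rw [mul_pow, mul_assoc, ← pow_add, ← pow_mul]
    congr 2
    have h3 : ∑ i, e i + ∑ i, (E - e i) = j * E := by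
      rw [← Finset.sum_add_distrib]
      have : ∀ i, e i + (E - e i) = E := fun i => by have := he i; omega
      simp [this]
    rw [add_assoc, h3, ← add_mul, Nat.sub_add_cancel hj, mul_comm]
  rw [h2] at h1
  exact Nat.le_of_mul_le_mul_right h1 (by positivity)

/-- The pigeonhole version. -/
theorem coset_pigeon {n j : ℕ} (hj : j ≤ n + 1) (W : AddSubgroup (Fin (n + 1) → ℤ))
    (b : Fin j → Fin (n + 1) → ℤ) (hb : LinearIndependent ℤ b) (hbW : ∀ i, b i ∈ W)
    (e : Fin j → ℕ) (E : ℕ) (he : ∀ i, e i ≤ E) (hbe : ∀ i l, |b i l| ≤ 2 ^ (e i))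
    {α : Type*} (S : Finset α) (hS : S.Nonempty) (A : α → Fin (n + 1) → ℤ)
    (hA : ∀ x ∈ S, ∀ l, |A x l| ≤ 2 ^ E) :
    ∃ x₀ ∈ S, ∃ S' ⊆ S, (∀ x ∈ S', A x - A x₀ ∈ W) ∧
      S.card ≤ ((2 * (n + 2) + 1) ^ (n + 1) * 2 ^ ((n + 1 - j) * E + ∑ i, e i)) * S'.card := by
  classical
  let q : α → (Fin (n + 1) → ℤ) ⧸ W := fun x => QuotientAddGroup.mk (A x)
  have hq : ∀ x y, q x = q y ↔ A x - A y ∈ W := by
    intro x y
    rw [QuotientAddGroup.eq, ← neg_sub, neg_mem_iff]
    constructor <;> intro h <;> convert h using 1 <;> abel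
  obtain ⟨x₀, hx₀, hmax⟩ := S.exists_max_image (fun x => (S.filter fun y => q y = q x).card) hS
  refine ⟨x₀, hx₀, S.filter fun y => q y = q x₀, Finset.filter_subset _ _, ?_, ?_⟩
  · intro x hx
    exact (hq _ _).1 (Finset.mem_filter.1 hx).2
  have h1 : S.card ≤ (S.filter fun y => q y = q x₀).card * (S.image q).card := by
    refine Finset.card_le_mul_card_image S _ fun c hc => ?_
    obtain ⟨x, hx, rfl⟩ := Finset.mem_image.1 hc
    exact hmax x hx
  -- representatives
  have hrep : ∀ c ∈ S.image q, ∃ x ∈ S, q x = c := fun c hc => by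
    obtain ⟨x, hx, h⟩ := Finset.mem_image.1 hc
    exact ⟨x, hx, h⟩
  have : Nonempty α := ⟨x₀⟩
  choose! g hg1 hg2 using hrep
  let T : Finset (Fin (n + 1) → ℤ) := (S.image q).image fun c => A (g c)
  have hTcard : T.card = (S.image q).card := by
    refine Finset.card_image_of_injOn fun c hc d hd hcd => ?_
    have h2 : q (g c) = q (g d) := by
      rw [hq]
      have : A (g c) = A (g d) := hcd
      rw [this, sub_self]
      exact W.zero_mem
    rw [hg2 c hc, hg2 d hd] at h2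
    exact h2
  have h2 := coset_count hj W b hb hbW e E he hbe T ?_ ?_
  · rw [hTcard] at h2
    calc S.card ≤ (S.filter fun y => q y = q x₀).card * (S.image q).card := h1
      _ ≤ (S.filter fun y => q y = q x₀).card * _ := Nat.mul_le_mul_left _ h2
      _ = _ := mul_comm _ _
  · intro t ht l
    obtain ⟨c, hc, rfl⟩ := Finset.mem_image.1 ht
    exact hA _ (hg1 c hc) l
  · intro t ht t' ht' htt
    obtain ⟨c, hc, rfl⟩ := Finset.mem_image.1 ht
    obtain ⟨d, hd, rfl⟩ := Finset.mem_image.1 ht'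
    have h3 := (hq _ _).2 htt
    rw [hg2 c hc, hg2 d hd] at h3
    rw [h3]

end Pool.Agent.Q10.SZ
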