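import Pool.Agent.Q10.SZ3
import Pool.Agent.Q10.SZ5

set_option autoImplicit false

/-! The tree argument. -/

namespace Pool.Agent.Q10.SZ

open MvPolynomial

attribute [local instance] MvPolynomial.gradedAlgebra

/-- the linear form of an integer vector -/
noncomputable def linZ (n : ℕ) : (Fin (n + 1) → ℤ) →+ CR n where
  toFun a := ∑ i, C (a i : ℚ) * X i
  map_zero' := by simp
  map_add' a b := by simp [add_mul, Finset.sum_add_distrib]

theorem linZ_apply {n : ℕ} (a : Fin (n + 1) → ℤ) : linZ n a = ∑ i, C (a i : ℚ) * X i := rfl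

theorem linZ_hom {n : ℕ} (a : Fin (n + 1) → ℤ) : (linZ n a).IsHomogeneous 1 := by
  rw [linZ_apply]
  exact IsHomogeneous.sum _ _ _ fun i _ => isHomogeneous_C_mul_X _ _

/-- integral linear forms in `P` -/
noncomputable def Wp {n : ℕ} (P : Ideal (CR n)) : AddSubgroup (Fin (n + 1) → ℤ) :=
  (Submodule.toAddSubgroup P).comap (linZ n)

theorem mem_Wp {n : ℕ} {P : Ideal (CR n)} {a : Fin (n + 1) → ℤ} : a ∈ Wp P ↔ linZ n a ∈ P :=
  Iff.rfl

/-- polynomials vanishing at `z` -/
noncomputable def Mx {n : ℕ} (z : Fin (n + 1) → ℤ) : Ideal (CR n) :=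
  RingHom.ker (aeval (fun i => (z i : ℚ)) : CR n →ₐ[ℚ] ℚ)

theorem mem_Mx {n : ℕ} {z : Fin (n + 1) → ℤ} {f : CR n} :
    f ∈ Mx z ↔ aeval (fun i => (z i : ℚ)) f = 0 := Iff.rfl

theorem Mx_prime {n : ℕ} (z : Fin (n + 1) → ℤ) : (Mx z).IsPrime := RingHom.ker_isPrime _

theorem linZ_mem_Mx {n : ℕ} {z a : Fin (n + 1) → ℤ} :
    linZ n a ∈ Mx z ↔ ∑ i, a i * z i = 0 := by
  rw [mem_Mx, linZ_apply, map_sum]
  simp only [map_mul, aeval_C, aeval_X, eq_ratCast, Rat.cast_id]
  rw [← Int.cast_inj (α := ℚ)]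
  push_cast
  rfl

theorem eval_linZ {n : ℕ} (a : Fin (n + 1) → ℤ) (l : Fin (n + 1)) :
    aeval (Pi.single l 1 : Fin (n + 1) → ℚ) (linZ n a) = (a l : ℚ) := by
  rw [linZ_apply, map_sum]
  simp [Pi.single_apply]

theorem li_int {n j : ℕ} {b : Fin j → Fin (n + 1) → ℤ}
    (hb : LinearIndependent ℝ (fun i => ev (b i))) : LinearIndependent ℤ b := by
  rw [Fintype.linearIndependent_iff] at hb ⊢
  intro g hg i
  have h1 : ∑ i, (g i : ℝ) • ev (b i) = 0 := by
    ext l
    have h2 := congrArg (fun f : Fin (n + 1) → ℤ => ((f l : ℤ) : ℝ)) hg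
    simp only [Finset.sum_apply, Pi.smul_apply, smul_eq_mul, Pi.zero_apply, Int.cast_zero] at h2
    push_cast at h2
    simpa [ev_apply] using h2
  exact_mod_cast hb (fun i => (g i : ℝ)) h1 i

theorem li_rat {n j : ℕ} {b : Fin j → Fin (n + 1) → ℤ}
    (hb : LinearIndependent ℝ (fun i => ev (b i))) :
    LinearIndependent ℚ (fun i => linZ n (b i)) := by
  rw [Fintype.linearIndependent_iff] at hb ⊢
  intro g hg i
  have h1 : ∑ i, (g i : ℝ) • ev (b i) = 0 := by
    ext l
    have h2 := congrArg (aeval (Pi.single l 1 : Fin (n + 1) → ℚ)) hg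
    rw [map_sum, map_zero] at h2
    simp only [map_smul, eval_linZ, smul_eq_mul] at h2
    have h3 : ((∑ i, g i * (b i l : ℚ) : ℚ) : ℝ) = 0 := by rw [h2]; simp
    push_cast at h3
    simpa [ev_apply] using h3
  exact_mod_cast hb (fun i => (g i : ℝ)) h1 i

/-- linear independent forms in `P` bound the dimension -/
theorem dim_le {n k j : ℕ} {P : Ideal (CR n)} {w : Fin (k + 1) → CR n} (hL : LN P (k + 1) w)
    {b : Fin j → Fin (n + 1) → ℤ} (hb : LinearIndependent ℝ (fun i => ev (b i)))
    (hbP : ∀ i, linZ n (b i) ∈ P) : j + k ≤ n := by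
  have hwP : ∀ g : Fin (k + 1) → ℚ, ∑ i, g i • w i ∈ P → g = 0 := by
    intro g hg
    have h1 : aeval w (∑ i, C (g i) * X i : MvPolynomial (Fin (k + 1)) ℚ) = ∑ i, g i • w i := by
      rw [map_sum]
      refine Finset.sum_congr rfl fun i _ => ?_
      rw [map_mul, aeval_C, aeval_X, Algebra.smul_def]
    have h2 := hL.ind _ (by rw [h1]; exact hg)
    funext i
    have h3 := congrArg (aeval (Pi.single i 1 : Fin (k + 1) → ℚ)) h2
    rw [map_sum, map_zero] at h3
    simpa [Pi.single_apply] using h3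
  have hw : LinearIndependent ℚ w := by
    rw [Fintype.linearIndependent_iff]
    intro g hg i
    have := hwP g (by rw [hg]; exact P.zero_mem)
    rw [this]; rfl
  have hdisj : Disjoint (Submodule.span ℚ (Set.range fun i => linZ n (b i)))
      (Submodule.span ℚ (Set.range w)) := by
    rw [Submodule.disjoint_def]
    intro x hx1 hx2
    have hxP : x ∈ P.restrictScalars ℚ := by
      refine Submodule.span_le.2 ?_ hx1
      rintro _ ⟨i, rfl⟩
      exact hbP i
    obtain ⟨g, hg⟩ := (Submodule.mem_span_range_iff_exists_fun ℚ).1 hx2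
    have h1 := hwP g (by rw [hg]; exact hxP)
    rw [← hg, h1]
    simp
  have hsum := (li_rat hb).sum_type hw hdisj
  have hspan : Submodule.span ℚ (Set.range (Sum.elim (fun i => linZ n (b i)) w)) ≤
      homogeneousSubmodule (Fin (n + 1)) ℚ 1 := by
    rw [Submodule.span_le]
    rintro _ ⟨i, rfl⟩
    rcases i with i | i
    · exact linZ_hom (b i)
    · exact hL.lin i
  have h1 := Submodule.finrank_mono hspan
  rw [finrank_span_eq_card hsum, finrank_hom, Fintype.card_sum, Fintype.card_fin,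
    Fintype.card_fin, add_comm 1 n, Nat.choose_succ_self_right] at h1
  omega

/-- the constant -/
def kap (n : ℕ) : ℕ := (2 * (n + 2) + 1) ^ (n + 1)

/-- the exponents -/
def cexp {n : ℕ} (e : Fin n → ℕ) (i : Fin n) : ℕ :=
  (n + 1 - i) * e i + ∑ l : Fin i, e (Fin.castLE i.2.le l)

/-- the bound for one step -/
def Cst {n : ℕ} (e : Fin n → ℕ) (i : Fin n) : ℕ := kap n * 2 ^ cexp e i

/-- the bound for the last `k` steps -/
def Tk {n : ℕ} (e : Fin n → ℕ) (k : ℕ) : ℕ :=
  ∏ i ∈ Finset.univ.filter (fun i : Fin n => n - k ≤ (i : ℕ)), Cst e i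

theorem kap_pos (n : ℕ) : 0 < kap n := by unfold kap; positivity

theorem Cst_pos {n : ℕ} (e : Fin n → ℕ) (i : Fin n) : 0 < Cst e i :=
  Nat.mul_pos (kap_pos n) (by positivity)

theorem Tk_pos {n : ℕ} (e : Fin n → ℕ) (k : ℕ) : 0 < Tk e k :=
  Finset.prod_pos fun i _ => Cst_pos e i

theorem cexp_mono {n : ℕ} {e : Fin n → ℕ} (he : Monotone e) : Monotone (cexp e) := by
  have hstep : ∀ (i : ℕ) (hi : i + 1 < n), cexp e ⟨i, by omega⟩ ≤ cexp e ⟨i + 1, hi⟩ := by
    intro i hi
    unfold cexp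
    have h1 : ∑ l : Fin (i + 1), e (Fin.castLE (by omega : i + 1 ≤ n) l) =
        ∑ l : Fin i, e (Fin.castLE (by omega : i ≤ n) l) + e ⟨i, by omega⟩ := by
      rw [Fin.sum_univ_castSucc]
      rfl
    have h2 : e ⟨i, by omega⟩ ≤ e ⟨i + 1, hi⟩ := he (by simp [Fin.le_def])
    change (n + 1 - i) * e ⟨i, _⟩ + ∑ l : Fin i, e (Fin.castLE _ l) ≤
      (n + 1 - (i + 1)) * e ⟨i + 1, hi⟩ + ∑ l : Fin (i + 1), e (Fin.castLE _ l)
    rw [h1]
    have h3 : n + 1 - i = (n + 1 - (i + 1)) + 1 := by omega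
    rw [h3, add_mul, one_mul]
    have h4 : (n + 1 - (i + 1)) * e ⟨i, by omega⟩ ≤ (n + 1 - (i + 1)) * e ⟨i + 1, hi⟩ :=
      Nat.mul_le_mul_left _ h2
    omega
  intro i j hij
  obtain ⟨i, hi⟩ := i
  obtain ⟨j, hj⟩ := j
  have hij' : i ≤ j := hij
  induction j, hij' using Nat.le_induction with
  | base => exact le_rfl
  | succ j hij' ih => exact (ih (by omega) hij').trans (hstep j hj)

theorem Cst_mono {n : ℕ} {e : Fin n → ℕ} (he : Monotone e) : Monotone (Cst e) := fun _ _ hij =>
  Nat.mul_le_mul_left _ (Nat.pow_le_pow_right (by norm_num) (cexp_mono he hij))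

theorem Tk_step {n : ℕ} {e : Fin n → ℕ} (he : Monotone e) {k : ℕ} (j : Fin n)
    (hjk : (j : ℕ) + (k + 1) ≤ n) : Cst e j * Tk e k ≤ Tk e (k + 1) := by
  have h1 : Finset.univ.filter (fun i : Fin n => n - (k + 1) ≤ (i : ℕ)) =
      insert ⟨n - (k + 1), by omega⟩ (Finset.univ.filter (fun i : Fin n => n - k ≤ (i : ℕ))) := by
    ext i
    simp only [Finset.mem_filter, Finset.mem_univ, true_and, Finset.mem_insert, Fin.ext_iff]
    omega
  unfold Tk
  rw [h1, Finset.prod_insert]
  · exact Nat.mul_le_mul_right _ (Cst_mono he (by simp only [Fin.le_def]; omega))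
  · simp only [Finset.mem_filter, Finset.mem_univ, true_and]
    omega

open Classical in
/-- The tree argument. -/
theorem tree {n : ℕ} {α : Type} (z : α → Fin (n + 1) → ℤ) (hz : ∀ x, z x ≠ 0)
    (a : α → Fin n → Fin (n + 1) → ℤ) (ha : ∀ x, LinearIndependent ℝ (fun i => ev (a x i)))
    (haz : ∀ x i, ∑ l, a x i l * z x l = 0)
    (hsep : ∀ x y, (∀ i, ∑ l, a x i l * z y l = 0) → x = y)
    (e : Fin n → ℕ) (he : Monotone e) (hae : ∀ x i l, |a x i l| ≤ 2 ^ (e i)) :
    ∀ d j : ℕ, j + d = n → ∀ (P : Ideal (CR n)) (_ : P.IsPrime) (_ : HomI P) (k : ℕ)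
      (w : Fin (k + 1) → CR n) (_ : LN P (k + 1) w) (S : Finset α) (_ : ∀ x ∈ S, P ≤ Mx (z x))
      (_ : ∀ x ∈ S, ∀ i : Fin n, (i : ℕ) < j → linZ n (a x i) ∈ P),
      LB P k ((S.card : ℝ) / (2 ^ d * Tk e k)) := by
  intro d
  induction d with
  | zero =>
    intro j hj P hP hh k w hL S hSM hSP
    have h1 : S.card ≤ 1 := by
      rw [Finset.card_le_one]
      intro x hx y hy
      apply hsep
      intro i
      have h2 := hSM y hy (hSP x hx i (by have := i.2; omega))
      exact linZ_mem_Mx.1 h2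
    refine hL.LB_one.mono ?_
    have h2 : (1 : ℝ) ≤ Tk e k := by exact_mod_cast Tk_pos e k
    have h3 : (S.card : ℝ) ≤ 1 := by exact_mod_cast h1
    rw [pow_zero, one_mul, div_le_one (by linarith)]
    linarith
  | succ d ih =>
    intro j hj P hP hh k w hL S hSM hSP
    have hjn : j < n := by omega
    let jj : Fin n := ⟨j, hjn⟩
    set S0 := S.filter fun x => linZ n (a x jj) ∈ P with hS0
    set S1 := S.filter fun x => ¬ linZ n (a x jj) ∈ P with hS1
    have hcard : S0.card + S1.card = S.card := Finset.card_filter_add_card_filter_not _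
    have hTpos : (0 : ℝ) < Tk e k := by exact_mod_cast Tk_pos e k
    rcases le_or_gt S1.card S0.card with hle | hlt
    · have h1 := ih (j + 1) (by omega) P hP hh k w hL S0
        (fun x hx => hSM x (Finset.mem_of_mem_filter x hx)) (fun x hx i hi => by
          rcases Nat.lt_succ_iff_lt_or_eq.1 hi with h | h
          · exact hSP x (Finset.mem_of_mem_filter x hx) i h
          · have : i = jj := Fin.ext h
            rw [this]
            exact (Finset.mem_filter.1 hx).2)
      refine h1.mono ?_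
      have h2 : (S.card : ℝ) ≤ 2 * S0.card := by
        have : S.card ≤ 2 * S0.card := by omega
        exact_mod_cast this
      rw [div_le_div_iff₀ (by positivity) (by positivity)]
      calc (S.card : ℝ) * (2 ^ d * Tk e k) ≤ (2 * S0.card) * (2 ^ d * Tk e k) := by gcongr
        _ = S0.card * (2 ^ (d + 1) * Tk e k) := by ring
    · have hS1ne : S1.Nonempty := Finset.card_pos.1 (by omega)
      obtain ⟨x1, hx1⟩ := hS1ne
      have hx1S : x1 ∈ S := Finset.mem_of_mem_filter x1 hx1
      -- the first `j` vectors of `x1`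
      let b : Fin j → Fin (n + 1) → ℤ := fun i => a x1 (Fin.castLE hjn.le i)
      have hbR : LinearIndependent ℝ (fun i => ev (b i)) :=
        (ha x1).comp _ (Fin.castLE_injective hjn.le)
      have hbP : ∀ i, linZ n (b i) ∈ P := fun i => hSP x1 hx1S _ (by simp)
      have hdim : j + k ≤ n := dim_le hL hbR hbP
      obtain ⟨x₀, hx₀, S', hS'sub, hS'W, hS'card⟩ := coset_pigeon (n := n) (j := j) (by omega)
        (Wp P) b (li_int hbR) hbP (fun i => e (Fin.castLE hjn.le i)) (e jj)
        (fun i => he (by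
          rw [Fin.le_def]
          have := i.2
          simp only [Fin.val_castLE, jj]
          omega)) (fun i l => hae x1 _ l) S1 ⟨x1, hx1⟩
        (fun x => a x jj) (fun x _ l => hae x jj l)
      have hCst : (2 * (n + 2) + 1) ^ (n + 1) * 2 ^ ((n + 1 - j) * e jj +
          ∑ i : Fin j, e (Fin.castLE hjn.le i)) = Cst e jj := rfl
      rw [hCst] at hS'card
      set l := linZ n (a x₀ jj) with hl
      have hlP : l ∉ P := (Finset.mem_filter.1 hx₀).2
      have hl1 : l.IsHomogeneous 1 := linZ_hom _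
      obtain ⟨k', w', hL'⟩ := exists_LN P hP hh l hl1 hlP
      have hkk : k' = k := by
        have h1 := hL'.dim hh
        rw [hL.dim hh] at h1
        have : k + 1 = k' + 1 := by exact_mod_cast h1
        omega
      subst hkk
      have hdiff : ∀ x ∈ S', linZ n (a x jj) - l ∈ P := by
        intro x hx
        have := hS'W x hx
        rw [mem_Wp, map_sub] at this
        exact this
      have hlM : ∀ x ∈ S', l ∈ Mx (z x) := by
        intro x hx
        have h1 : linZ n (a x jj) ∈ Mx (z x) := linZ_mem_Mx.2 (haz x jj)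
        have h2 := hSM x (Finset.mem_of_mem_filter x (hS'sub hx)) (hdiff x hx)
        have h3 := (Mx (z x)).sub_mem h1 h2
        simpa using h3
      have hsec : ∀ x, ∃ Q : Ideal (CR n), x ∈ S' → (Q.IsPrime ∧ HomI Q ∧ P ≤ Q ∧ l ∈ Q ∧
          Q ≤ Mx (z x) ∧ LN Q k' w') := by
        intro x
        by_cases hx : x ∈ S'
        · obtain ⟨Q, hQ⟩ := section_point hP hh hL' (Mx (z x)) (Mx_prime _)
            (hSM x (Finset.mem_of_mem_filter x (hS'sub hx))) (hlM x hx)
          exact ⟨Q, fun _ => hQ⟩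
        · exact ⟨⊥, fun h => absurd h hx⟩
      choose Qx hQx using hsec
      have hS'ne : S'.Nonempty := by
        rw [Finset.nonempty_iff_ne_empty]
        rintro rfl
        rw [Finset.card_empty, mul_zero] at hS'card
        have := Finset.card_pos.2 ⟨x1, hx1⟩
        omega
      obtain ⟨k, rfl⟩ : ∃ k, k' = k + 1 := by
        rcases k' with _ | k
        · exfalso
          obtain ⟨x, hx⟩ := hS'ne
          obtain ⟨h1, h2, h3, h4, h5, h6⟩ := hQx x hx
          apply hz x
          funext i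
          have h7 := h6.rad i
          have h8 : Ideal.span (Set.range w') = (⊥ : Ideal (CR n)) := by
            rw [Set.range_eq_empty, Ideal.span_empty]
          rw [h8, sup_bot_eq, h1.radical] at h7
          have h9 := h5 h7
          rw [mem_Mx, aeval_X] at h9
          exact_mod_cast h9
        · exact ⟨k, rfl⟩
      -- the components
      let 𝒬 := S'.image Qx
      have hQ : ∀ Q : 𝒬, (Q : Ideal (CR n)).IsPrime ∧ HomI (Q : Ideal (CR n)) ∧
          P ≤ (Q : Ideal (CR n)) ∧ l ∈ (Q : Ideal (CR n)) ∧ LN (Q : Ideal (CR n)) (k + 1) w' := by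
        rintro ⟨Q, hQ⟩
        obtain ⟨x, hx, rfl⟩ := Finset.mem_image.1 hQ
        obtain ⟨h1, h2, h3, h4, h5, h6⟩ := hQx x hx
        exact ⟨h1, h2, h3, h4, h6⟩
      have hLBQ : ∀ Q : 𝒬, LB (Q : Ideal (CR n)) k
          (((S'.filter fun x => Qx x = Q).card : ℝ) / (2 ^ d * Tk e k)) := by
        intro Q
        refine ih (j + 1) (by omega) Q (hQ Q).1 (hQ Q).2.1 k w' (hQ Q).2.2.2.2 _ ?_ ?_
        · intro x hx
          obtain ⟨hx1, hx2⟩ := Finset.mem_filter.1 hx
          rw [← hx2]
          exact (hQx x hx1).2.2.2.2.1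
        · intro x hx i hi
          obtain ⟨hx1, hx2⟩ := Finset.mem_filter.1 hx
          rcases Nat.lt_succ_iff_lt_or_eq.1 hi with h | h
          · exact (hQ Q).2.2.1 (hSP x (Finset.mem_of_mem_filter x (hS'sub hx1)) i h)
          · have : i = jj := Fin.ext h
            rw [this]
            have h1 := (hQ Q).2.2.1 (hdiff x hx1)
            have h2 := Ideal.add_mem _ h1 (hQ Q).2.2.2.1
            simpa using h2
      have hmain := LB_section P hP l hl1 hlP (fun Q : 𝒬 => (Q : Ideal (CR n)))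
        (fun Q => (hQ Q).1) (fun Q => (hQ Q).2.1) Subtype.val_injective
        (fun Q => (hQ Q).2.2.1) (fun Q => (hQ Q).2.2.2.1) w' (fun Q => (hQ Q).2.2.2.2)
        (fun Q => ((S'.filter fun x => Qx x = Q).card : ℝ) / (2 ^ d * Tk e k))
        (fun Q => by positivity) hLBQ
      refine hmain.mono ?_
      have hsumcard : ∑ Q : 𝒬, ((S'.filter fun x => Qx x = Q).card : ℝ) = S'.card := by
        rw [Finset.sum_coe_sort 𝒬 (fun Q => ((S'.filter fun x => Qx x = Q).card : ℝ))]
        rw [Finset.card_eq_sum_card_image Qx S']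
        push_cast
        rfl
      rw [← Finset.sum_div, hsumcard]
      have hT1 : (Cst e jj : ℝ) * Tk e k ≤ Tk e (k + 1) := by
        exact_mod_cast Tk_step he jj (by simp only [jj]; omega)
      have hTk : (0 : ℝ) < Tk e k := by exact_mod_cast Tk_pos e k
      have h1 : (S.card : ℝ) ≤ 2 * (Cst e jj * S'.card) := by
        have : S.card ≤ 2 * (Cst e jj * S'.card) := by omega
        exact_mod_cast this
      rw [div_le_div_iff₀ (by positivity) (by positivity)]
      calc (S.card : ℝ) * (2 ^ d * Tk e k) ≤ (2 * (Cst e jj * S'.card)) * (2 ^ d * Tk e k) := by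
            gcongr
        _ = S'.card * (2 ^ (d + 1) * (Cst e jj * Tk e k)) := by ring
        _ ≤ S'.card * (2 ^ (d + 1) * Tk e (k + 1)) := by gcongr

end Pool.Agent.Q10.SZ
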