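import Pool.Agent.Q10.SZ6

set_option autoImplicit false

/-! The sum over all types. -/

namespace Pool.Agent.Q10.SZ

/-- the ratio -/
noncomputable def rr (q : ℕ) : ℝ := (2 : ℝ) ^ (-(1 : ℝ) / q)

theorem rr_pos (q : ℕ) : 0 < rr q := Real.rpow_pos_of_pos (by norm_num) _

theorem rr_lt_one {q : ℕ} (hq : 0 < q) : rr q < 1 := by
  apply Real.rpow_lt_one_of_one_lt_of_neg (by norm_num)
  have : (0 : ℝ) < q := by exact_mod_cast hq
  rw [neg_div]
  have : 0 < 1 / (q : ℝ) := by positivity
  linarith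

theorem rr_pow (q t : ℕ) : rr q ^ t = (2 : ℝ) ^ (-(t : ℝ) / q) := by
  unfold rr
  rw [← Real.rpow_natCast, ← Real.rpow_mul (by norm_num)]
  congr 1
  ring

theorem geom_le {r : ℝ} (h0 : 0 < r) (h1 : r < 1) (N : ℕ) :
    ∑ t ∈ Finset.range N, r ^ t ≤ (1 - r)⁻¹ := by
  rw [← tsum_geometric_of_lt_one h0.le h1]
  exact (summable_geometric_of_lt_one h0.le h1).sum_le_tsum _ fun _ _ => by positivity

/-- two-sided geometric sums -/
theorem geom_abs {q : ℕ} (hq : 0 < q) (D : ℝ) (hD : 0 ≤ D) (N : ℕ) :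
    ∑ t ∈ Finset.range N, (2 : ℝ) ^ (-|(t : ℝ) - D| / q) ≤ 2 * (1 - rr q)⁻¹ := by
  have hq' : (0 : ℝ) < q := by exact_mod_cast hq
  set K := ⌊D⌋₊ with hK
  have hK1 : (K : ℝ) ≤ D := Nat.floor_le hD
  have hK2 : D < K + 1 := Nat.lt_floor_add_one D
  have h1 : ∑ t ∈ Finset.range N, (2 : ℝ) ^ (-|(t : ℝ) - D| / q) ≤
      ∑ t ∈ Finset.range (K + 1 + N), (2 : ℝ) ^ (-|(t : ℝ) - D| / q) :=
    Finset.sum_le_sum_of_subset_of_nonneg (Finset.range_mono (by omega))
      fun _ _ _ => by positivity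
  refine h1.trans ?_
  rw [Finset.sum_range_add, two_mul]
  refine add_le_add ?_ ?_
  · rw [← Finset.sum_range_reflect]
    refine (Finset.sum_le_sum fun j hj => ?_).trans (geom_le (rr_pos q) (rr_lt_one hq) (K + 1))
    have hjK : j ≤ K := by have := Finset.mem_range.1 hj; omega
    rw [rr_pow]
    apply Real.rpow_le_rpow_of_exponent_le (by norm_num)
    have h2 : ((K + 1 - 1 - j : ℕ) : ℝ) = K - j := by
      rw [Nat.add_sub_cancel, Nat.cast_sub hjK]
    rw [h2]
    gcongr
    rw [abs_sub_comm]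
    exact le_trans (by linarith) (le_abs_self _)
  · refine (Finset.sum_le_sum fun j _ => ?_).trans (geom_le (rr_pos q) (rr_lt_one hq) N)
    rw [rr_pow]
    apply Real.rpow_le_rpow_of_exponent_le (by norm_num)
    gcongr
    refine le_trans ?_ (le_abs_self _)
    push_cast
    linarith

/-- the weights -/
def tau (n k : ℕ) (g : Fin n → ℕ) : ℕ := ∑ m : Fin n, min (n - m) k * (n + 1 - m) * g m

/-- the difference of the two exponents -/
def vv (n k : ℕ) (g : Fin n → ℕ) : ℕ := ∑ m : Fin n, (n - m - k) * (n + 1 - m) * g m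

theorem tau_add_vv (n k : ℕ) (g : Fin n → ℕ) : tau n k g + vv n k g = tau n n g := by
  unfold tau vv
  rw [← Finset.sum_add_distrib]
  refine Finset.sum_congr rfl fun m _ => ?_
  rw [← add_mul, ← add_mul]
  congr 2
  omega

/-- the coefficientwise inequality behind the exponent `n/(n+1)` -/
theorem coef_ineq {n k s : ℕ} (hk : k ≤ n) (hs1 : 1 ≤ s) (hsn : s ≤ n) :
    n * (min s k * (s + 1)) + s * (s + 1) + (if s = n ∨ s = k then 0 else 1) ≤
      (n + 1) * (k + 1) * s := by
  rcases le_or_gt s k with h | h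
  · rw [min_eq_left h]
    by_cases h2 : s = n ∨ s = k
    · rw [if_pos h2, add_zero]
      nlinarith [Nat.mul_le_mul_left ((n + 1) * s) h]
    · rw [if_neg h2]
      push Not at h2
      have h3 : s + 1 ≤ k := by omega
      obtain ⟨c, rfl⟩ := Nat.exists_eq_add_of_le h3
      nlinarith [Nat.zero_le (n * s), Nat.zero_le (n * s * c), Nat.zero_le (s * c)]
  · rw [min_eq_right h.le]
    obtain ⟨c, rfl⟩ := Nat.exists_eq_add_of_le h.le
    have hc : 1 ≤ c := by omega
    obtain ⟨d, rfl⟩ := Nat.exists_eq_add_of_le hsn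
    by_cases h2 : k + c = k + c + d ∨ k + c = k
    · rw [if_pos h2, add_zero]
      nlinarith [Nat.zero_le (c * d)]
    · rw [if_neg h2]
      push Not at h2
      have hd : 1 ≤ d := by omega
      nlinarith [Nat.mul_le_mul hc hd]

/-- The sum over all types. -/
theorem sum_types (n k : ℕ) (hk : 1 ≤ k) (hkn : k < n) : ∃ C : ℝ, 0 ≤ C ∧
    ∀ (β : ℕ) (D : ℝ) (𝒢 : Finset (Fin n → ℕ)), 0 ≤ D →
      (∀ g ∈ 𝒢, ∑ m : Fin n, (n - m) * g m ≤ β) →
      ∑ g ∈ 𝒢, min ((2 : ℝ) ^ (D + tau n k g)) ((2 : ℝ) ^ ((tau n n g : ℕ) : ℝ)) ≤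
        C * (2 : ℝ) ^ ((n : ℝ) / (n + 1) * D) * (2 : ℝ) ^ (((k : ℝ) + 1) * β) := by
  classical
  refine ⟨(2 * (1 - rr (n + 1))⁻¹) ^ n, ?_, ?_⟩
  · have := rr_lt_one (q := n + 1) (by omega)
    have h2 : 0 ≤ (1 - rr (n + 1))⁻¹ := inv_nonneg.2 (by linarith)
    positivity
  intro β D 𝒢 hD hβ
  have hn0 : 0 < n := by omega
  let i0 : Fin n := ⟨0, hn0⟩
  let ik : Fin n := ⟨n - k, by omega⟩
  have hik : ik ≠ i0 := by
    intro h
    have := congrArg Fin.val h
    simp only [ik, i0] at this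
    omega
  let y : (Fin n → ℕ) → (Fin n → ℕ) := fun g m =>
    if m = i0 then vv n k g else if m = ik then β - ∑ m : Fin n, (n - m) * g m else g m
  let H : Fin n → ℕ → ℝ := fun m t =>
    if m = i0 then (2 : ℝ) ^ (-|(t : ℝ) - D| / ((n + 1 : ℕ) : ℝ)) else
      (2 : ℝ) ^ (-(t : ℝ) / ((n + 1 : ℕ) : ℝ))
  have hHpos : ∀ m t, 0 ≤ H m t := by
    intro m t
    simp only [H]
    split_ifs <;> positivity
  -- injectivity
  have hyinj : Set.InjOn y 𝒢 := by
    intro g hg g' hg' hgg
    have h1 : ∀ m, m ≠ i0 → m ≠ ik → g m = g' m := by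
      intro m hm1 hm2
      have := congrFun hgg m
      simpa [y, hm1, hm2] using this
    have h2 : vv n k g = vv n k g' := by
      have := congrFun hgg i0
      simpa [y] using this
    have h3 : ∑ m : Fin n, (n - m) * g m = ∑ m : Fin n, (n - m) * g' m := by
      have := congrFun hgg ik
      simp only [y, if_neg hik, if_true] at this
      have h4 := hβ g hg
      have h5 := hβ g' hg'
      omega
    have h4 : g i0 = g' i0 := by
      unfold vv at h2
      rw [← Finset.add_sum_erase _ _ (Finset.mem_univ i0),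
        ← Finset.add_sum_erase _ _ (Finset.mem_univ i0)] at h2
      have h5 : ∑ m ∈ Finset.univ.erase i0, (n - (m : ℕ) - k) * (n + 1 - m) * g m =
          ∑ m ∈ Finset.univ.erase i0, (n - (m : ℕ) - k) * (n + 1 - m) * g' m := by
        refine Finset.sum_congr rfl fun m hm => ?_
        by_cases hmk : m = ik
        · subst hmk
          have : n - (ik : ℕ) - k = 0 := by simp only [ik]; omega
          rw [this, zero_mul, zero_mul, zero_mul]
        · rw [h1 m (Finset.ne_of_mem_erase hm) hmk]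
      rw [h5] at h2
      have h6 := Nat.add_right_cancel h2
      have h7 : 0 < (n - (i0 : ℕ) - k) * (n + 1 - i0) := by
        simp only [i0]
        exact Nat.mul_pos (by omega) (by omega)
      exact Nat.eq_of_mul_eq_mul_left h7 h6
    have h5 : g ik = g' ik := by
      rw [← Finset.add_sum_erase _ _ (Finset.mem_univ ik),
        ← Finset.add_sum_erase _ _ (Finset.mem_univ ik)] at h3
      have h6 : ∑ m ∈ Finset.univ.erase ik, (n - (m : ℕ)) * g m =
          ∑ m ∈ Finset.univ.erase ik, (n - (m : ℕ)) * g' m := by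
        refine Finset.sum_congr rfl fun m hm => ?_
        by_cases hm0 : m = i0
        · rw [hm0, h4]
        · rw [h1 m hm0 (Finset.ne_of_mem_erase hm)]
      rw [h6] at h3
      have h7 := Nat.add_right_cancel h3
      have h8 : 0 < n - (ik : ℕ) := by simp only [ik]; omega
      exact Nat.eq_of_mul_eq_mul_left h8 h7
    funext m
    by_cases hm0 : m = i0
    · rw [hm0, h4]
    · by_cases hmk : m = ik
      · rw [hmk, h5]
      · exact h1 m hm0 hmk
  -- the pointwise bound
  have hpoint : ∀ g ∈ 𝒢, min ((2 : ℝ) ^ (D + tau n k g)) ((2 : ℝ) ^ ((tau n n g : ℕ) : ℝ)) ≤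
      (2 : ℝ) ^ ((n : ℝ) / (n + 1) * D) * (2 : ℝ) ^ (((k : ℝ) + 1) * β) * ∏ m, H m (y g m) := by
    intro g hg
    -- product of the `H`'s
    have hprod : ∏ m, H m (y g m) = (2 : ℝ) ^ (-|(vv n k g : ℝ) - D| / ((n + 1 : ℕ) : ℝ) +
        ∑ m ∈ Finset.univ.erase i0, -((y g m : ℕ) : ℝ) / ((n + 1 : ℕ) : ℝ)) := by
      rw [← Finset.mul_prod_erase _ _ (Finset.mem_univ i0), Real.rpow_add (by norm_num),
        Real.rpow_sum_of_pos (by norm_num)]
      have hA : H i0 (y g i0) = (2 : ℝ) ^ (-|(vv n k g : ℝ) - D| / ((n + 1 : ℕ) : ℝ)) := by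
        have : y g i0 = vv n k g := by simp only [y, if_true]
        rw [this]
        simp only [H, if_true]
      have hB : ∏ m ∈ Finset.univ.erase i0, H m (y g m) =
          ∏ m ∈ Finset.univ.erase i0, (2 : ℝ) ^ (-((y g m : ℕ) : ℝ) / ((n + 1 : ℕ) : ℝ)) := by
        refine Finset.prod_congr rfl fun m hm => ?_
        simp only [H]
        rw [if_neg (Finset.ne_of_mem_erase hm)]
      rw [hA, hB]
    rw [hprod, ← Real.rpow_add (by norm_num), ← Real.rpow_add (by norm_num)]
    set σ := β - ∑ m : Fin n, (n - m) * g m with hσ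
    have hβσ : β = σ + ∑ m : Fin n, (n - m) * g m := by have := hβ g hg; omega
    -- the combinatorial inequality
    have hcomb : n * tau n k g + tau n n g + ∑ m ∈ Finset.univ.erase i0, y g m ≤
        (n + 1) * (k + 1) * β := by
      have hy : ∑ m ∈ Finset.univ.erase i0, y g m = σ +
          ∑ m : Fin n, (if n - (m : ℕ) = n ∨ n - (m : ℕ) = k then 0 else 1) * g m := by
        have h1 : ik ∈ (Finset.univ.erase i0 : Finset (Fin n)) :=
          Finset.mem_erase.2 ⟨hik, Finset.mem_univ _⟩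
        rw [← Finset.add_sum_erase _ _ h1]
        congr 1
        · simp only [y]
          rw [if_neg hik, if_true]
        · rw [← Finset.add_sum_erase (Finset.univ : Finset (Fin n)) _ (Finset.mem_univ i0),
            ← Finset.add_sum_erase (Finset.univ.erase i0) _ h1]
          have h2 : (if n - (i0 : ℕ) = n ∨ n - (i0 : ℕ) = k then 0 else 1) * g i0 = 0 := by
            simp [i0]
          have h3 : (if n - (ik : ℕ) = n ∨ n - (ik : ℕ) = k then 0 else 1) * g ik = 0 := by
            have : n - (ik : ℕ) = k := by simp only [ik]; omega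
            simp [this]
          rw [h2, h3, zero_add, zero_add]
          refine Finset.sum_congr rfl fun m hm => ?_
          have hm1 : m ≠ ik := Finset.ne_of_mem_erase hm
          have hm0 : m ≠ i0 := Finset.ne_of_mem_erase (Finset.mem_of_mem_erase hm)
          simp only [y]
          rw [if_neg hm0, if_neg hm1, if_neg, one_mul]
          rintro (h | h)
          · apply hm0
            apply Fin.ext
            simp only [i0]
            have := m.2
            omega
          · apply hm1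
            apply Fin.ext
            simp only [ik]
            have := m.2
            omega
      rw [hy, hβσ, mul_add]
      unfold tau
      have h1 : σ ≤ (n + 1) * (k + 1) * σ := Nat.le_mul_of_pos_left _ (by positivity)
      have h2 : n * ∑ m : Fin n, min (n - (m : ℕ)) k * (n + 1 - m) * g m +
          ∑ m : Fin n, min (n - (m : ℕ)) n * (n + 1 - m) * g m +
          ∑ m : Fin n, (if n - (m : ℕ) = n ∨ n - (m : ℕ) = k then 0 else 1) * g m ≤
          (n + 1) * (k + 1) * ∑ m : Fin n, (n - (m : ℕ)) * g m := by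
        rw [Finset.mul_sum, Finset.mul_sum, ← Finset.sum_add_distrib, ← Finset.sum_add_distrib]
        refine Finset.sum_le_sum fun m _ => ?_
        have h3 := coef_ineq (n := n) (k := k) (s := n - m) hkn.le (by have := m.2; omega)
          (by omega)
        have h4 : n + 1 - (m : ℕ) = n - m + 1 := by have := m.2; omega
        rw [h4, min_eq_left (by omega : n - (m : ℕ) ≤ n)]
        calc _ = (n * (min (n - (m : ℕ)) k * (n - m + 1)) + (n - m) * (n - m + 1) +
              (if n - (m : ℕ) = n ∨ n - (m : ℕ) = k then 0 else 1)) * g m := by ring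
          _ ≤ ((n + 1) * (k + 1) * (n - m)) * g m := Nat.mul_le_mul_right _ h3
          _ = _ := by ring
      omega
    have hcombR : (n : ℝ) * tau n k g + tau n n g +
        ∑ m ∈ Finset.univ.erase i0, ((y g m : ℕ) : ℝ) ≤ (n + 1) * (k + 1) * β := by
      exact_mod_cast hcomb
    have hsumy : ∑ m ∈ Finset.univ.erase i0, -((y g m : ℕ) : ℝ) / ((n + 1 : ℕ) : ℝ) =
        -(∑ m ∈ Finset.univ.erase i0, ((y g m : ℕ) : ℝ)) / ((n + 1 : ℕ) : ℝ) := by
      rw [← Finset.sum_div, Finset.sum_neg_distrib]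
    rw [hsumy]
    set Y : ℝ := ∑ m ∈ Finset.univ.erase i0, ((y g m : ℕ) : ℝ) with hY
    have htv : (tau n n g : ℝ) = tau n k g + vv n k g := by
      have := tau_add_vv n k g
      exact_mod_cast this.symm
    have hn1 : (0 : ℝ) < (n : ℝ) + 1 := by positivity
    have hnn : (1 : ℝ) ≤ n := by exact_mod_cast hn0
    push_cast
    -- compare with one of the two
    have hexp : min (D + tau n k g) ((tau n n g : ℕ) : ℝ) ≤
        (n : ℝ) / (n + 1) * D + ((k : ℝ) + 1) * β +
          (-|(vv n k g : ℝ) - D| / ((n : ℝ) + 1) + -Y / ((n : ℝ) + 1)) := by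
      rw [show (n : ℝ) / (n + 1) * D + ((k : ℝ) + 1) * β +
          (-|(vv n k g : ℝ) - D| / ((n : ℝ) + 1) + -Y / ((n : ℝ) + 1)) =
          (n * D + (n + 1) * (k + 1) * β - |(vv n k g : ℝ) - D| - Y) / (n + 1) by
        field_simp
        ring]
      rw [le_div_iff₀ hn1]
      rcases le_or_gt D (vv n k g : ℝ) with h | h
      · rw [abs_of_nonneg (by linarith)]
        have h1 : min (D + tau n k g) ((tau n n g : ℕ) : ℝ) ≤ D + tau n k g := min_le_left _ _
        nlinarith [mul_le_mul_of_nonneg_right h1 hn1.le]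
      · rw [abs_of_neg (by linarith)]
        have h1 : min (D + tau n k g) ((tau n n g : ℕ) : ℝ) ≤ (tau n n g : ℕ) := min_le_right _ _
        nlinarith [mul_le_mul_of_nonneg_right h1 hn1.le,
          mul_nonneg (sub_nonneg.2 hnn) (sub_nonneg.2 h.le)]
    have hmin : min ((2 : ℝ) ^ (D + tau n k g)) ((2 : ℝ) ^ ((tau n n g : ℕ) : ℝ)) =
        (2 : ℝ) ^ (min (D + tau n k g) ((tau n n g : ℕ) : ℝ)) := by
      rcases le_total (D + tau n k g) ((tau n n g : ℕ) : ℝ) with h | h
      · rw [min_eq_left h, min_eq_left]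
        exact Real.rpow_le_rpow_of_exponent_le (by norm_num) h
      · rw [min_eq_right h, min_eq_right]
        exact Real.rpow_le_rpow_of_exponent_le (by norm_num) h
    rw [hmin]
    exact Real.rpow_le_rpow_of_exponent_le (by norm_num) hexp
  -- summation
  obtain ⟨N, hN⟩ : ∃ N, ∀ g ∈ 𝒢, ∀ m, y g m < N := by
    refine ⟨1 + ∑ g ∈ 𝒢, ∑ m, y g m, fun g hg m => ?_⟩
    have h1 : y g m ≤ ∑ m, y g m :=
      Finset.single_le_sum (f := fun m => y g m) (fun _ _ => Nat.zero_le _) (Finset.mem_univ m)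
    have h2 : ∑ m, y g m ≤ ∑ g ∈ 𝒢, ∑ m, y g m :=
      Finset.single_le_sum (f := fun g => ∑ m, y g m) (fun _ _ => Nat.zero_le _) hg
    omega
  have hsum : ∑ g ∈ 𝒢, ∏ m, H m (y g m) ≤ (2 * (1 - rr (n + 1))⁻¹) ^ n := by
    have h1 : ∑ g ∈ 𝒢, ∏ m, H m (y g m) = ∑ u ∈ 𝒢.image y, ∏ m, H m (u m) :=
      (Finset.sum_image (f := fun u : Fin n → ℕ => ∏ m, H m (u m)) hyinj).symm
    have h2 : 𝒢.image y ⊆ Fintype.piFinset fun _ : Fin n => Finset.range N := by
      intro u hu
      obtain ⟨g, hg, rfl⟩ := Finset.mem_image.1 hu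
      rw [Fintype.mem_piFinset]
      exact fun m => Finset.mem_range.2 (hN g hg m)
    rw [h1]
    refine (Finset.sum_le_sum_of_subset_of_nonneg h2 fun u _ _ =>
      Finset.prod_nonneg fun m _ => hHpos m _).trans ?_
    rw [← Finset.prod_univ_sum]
    have h3 : ∀ m, ∑ t ∈ Finset.range N, H m t ≤ 2 * (1 - rr (n + 1))⁻¹ := by
      intro m
      by_cases hm : m = i0
      · simp only [H, if_pos hm]
        exact geom_abs (by omega) D hD N
      · simp only [H, if_neg hm]
        have h4 := geom_le (rr_pos (n + 1)) (rr_lt_one (q := n + 1) (by omega)) N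
        have h5 : 0 ≤ (1 - rr (n + 1))⁻¹ := by
          have := rr_lt_one (q := n + 1) (by omega)
          exact inv_nonneg.2 (by linarith)
        refine le_trans ?_ (h4.trans (by linarith))
        exact (Finset.sum_congr rfl fun t _ => (rr_pow (n + 1) t).symm).le
    calc ∏ m, ∑ t ∈ Finset.range N, H m t ≤ ∏ _m : Fin n, 2 * (1 - rr (n + 1))⁻¹ :=
          Finset.prod_le_prod (fun m _ => Finset.sum_nonneg fun t _ => hHpos m t) fun m _ => h3 m
      _ = _ := by simp
  calc _ ≤ ∑ g ∈ 𝒢, (2 : ℝ) ^ ((n : ℝ) / (n + 1) * D) * (2 : ℝ) ^ (((k : ℝ) + 1) * β) *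
        ∏ m, H m (y g m) := Finset.sum_le_sum hpoint
    _ = (2 : ℝ) ^ ((n : ℝ) / (n + 1) * D) * (2 : ℝ) ^ (((k : ℝ) + 1) * β) *
        ∑ g ∈ 𝒢, ∏ m, H m (y g m) := by rw [Finset.mul_sum]
    _ ≤ (2 : ℝ) ^ ((n : ℝ) / (n + 1) * D) * (2 : ℝ) ^ (((k : ℝ) + 1) * β) *
        (2 * (1 - rr (n + 1))⁻¹) ^ n := by gcongr
    _ = _ := by ring

end Pool.Agent.Q10.SZ
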