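import Pool.Agent.Q10.SZ7

set_option autoImplicit false

/-! Parametrisation of the types; limits of binomial coefficients. -/

namespace Pool.Agent.Q10.SZ

open Filter Topology

/-- the exponents attached to increments -/
def efun {n : ℕ} (g : Fin n → ℕ) (i : Fin n) : ℕ := ∑ m ∈ Finset.univ.filter (· ≤ i), g m

theorem efun_mono {n : ℕ} (g : Fin n → ℕ) : Monotone (efun g) := by
  intro i j hij
  unfold efun
  refine Finset.sum_le_sum_of_subset fun m hm => ?_
  simp only [Finset.mem_filter, Finset.mem_univ, true_and] at hm ⊢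
  exact hm.trans hij

theorem exists_efun {n : ℕ} (e : Fin n → ℕ) (he : Monotone e) : ∃ g, efun g = e := by
  let g : Fin n → ℕ := fun m => e m - (if h : (m : ℕ) = 0 then 0 else e ⟨m - 1, by omega⟩)
  refine ⟨g, ?_⟩
  have key : ∀ (i : ℕ) (hi : i < n), efun g ⟨i, hi⟩ = e ⟨i, hi⟩ := by
    intro i
    induction i with
    | zero =>
      intro hi
      unfold efun
      have h1 : Finset.univ.filter (· ≤ (⟨0, hi⟩ : Fin n)) = {⟨0, hi⟩} := by
        ext m
        simp [Fin.ext_iff, Fin.le_def]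
      rw [h1, Finset.sum_singleton]
      simp [g]
    | succ i ih =>
      intro hi
      have h1 := ih (by omega)
      unfold efun at h1 ⊢
      have h2 : Finset.univ.filter (· ≤ (⟨i + 1, hi⟩ : Fin n)) =
          insert ⟨i + 1, hi⟩ (Finset.univ.filter (· ≤ (⟨i, by omega⟩ : Fin n))) := by
        ext m
        simp only [Finset.mem_filter, Finset.mem_univ, true_and, Finset.mem_insert, Fin.ext_iff,
          Fin.le_def]
        omega
      rw [h2, Finset.sum_insert, h1]
      · have h3 : g ⟨i + 1, hi⟩ = e ⟨i + 1, hi⟩ - e ⟨i, by omega⟩ := by simp [g]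
        have h4 : e ⟨i, by omega⟩ ≤ e ⟨i + 1, hi⟩ := he (by simp [Fin.le_def])
        rw [h3]
        omega
      · simp [Fin.le_def]
  funext i
  exact key i i.2

theorem card_filter_ge (n c : ℕ) :
    (Finset.univ.filter fun i : Fin n => c ≤ (i : ℕ)).card = n - c := by
  have h1 : (Finset.univ.filter fun i : Fin n => c ≤ (i : ℕ)).image Fin.val = Finset.Ico c n := by
    ext x
    simp only [Finset.mem_image, Finset.mem_filter, Finset.mem_univ, true_and, Finset.mem_Ico]
    constructor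
    · rintro ⟨i, hi, rfl⟩
      exact ⟨hi, i.2⟩
    · rintro ⟨h1, h2⟩
      exact ⟨⟨x, h2⟩, h1, rfl⟩
  rw [← Finset.card_image_of_injective _ Fin.val_injective, h1, Nat.card_Ico]

theorem sum_efun {n : ℕ} (g : Fin n → ℕ) : ∑ i, efun g i = ∑ m : Fin n, (n - m) * g m := by
  unfold efun
  simp only [Finset.sum_filter]
  rw [Finset.sum_comm]
  refine Finset.sum_congr rfl fun m _ => ?_
  rw [← Finset.sum_filter, Finset.sum_const, smul_eq_mul]
  congr 1
  have := card_filter_ge n m
  rw [← this]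
  rfl

theorem cexp_efun {n : ℕ} (g : Fin n → ℕ) (i : Fin n) :
    cexp (efun g) i = ∑ m : Fin n, if m ≤ i then (n + 1 - m) * g m else 0 := by
  unfold cexp efun
  have h1 : ∑ l : Fin (i : ℕ), ∑ m ∈ Finset.univ.filter (· ≤ Fin.castLE i.2.le l), g m =
      ∑ m : Fin n, ((i : ℕ) - m) * g m := by
    simp only [Finset.sum_filter]
    rw [Finset.sum_comm]
    refine Finset.sum_congr rfl fun m _ => ?_
    rw [← Finset.sum_filter, Finset.sum_const, smul_eq_mul]
    congr 1
    have := card_filter_ge i m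
    rw [← this]
    rfl
  rw [h1, Finset.sum_filter, Finset.mul_sum, ← Finset.sum_add_distrib]
  refine Finset.sum_congr rfl fun m _ => ?_
  by_cases hm : m ≤ i
  · rw [if_pos hm, if_pos hm, ← add_mul]
    congr 1
    have h2 : (m : ℕ) ≤ i := hm
    have := i.2
    omega
  · rw [if_neg hm, if_neg hm, mul_zero, zero_add]
    have h2 : (i : ℕ) < m := by
      rw [not_le] at hm
      exact hm
    rw [Nat.sub_eq_zero_of_le h2.le, zero_mul]

theorem sum_cexp {n k : ℕ} (hk : k ≤ n) (g : Fin n → ℕ) :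
    ∑ i ∈ Finset.univ.filter (fun i : Fin n => n - k ≤ (i : ℕ)), cexp (efun g) i =
      tau n k g := by
  simp only [cexp_efun]
  rw [Finset.sum_comm]
  unfold tau
  refine Finset.sum_congr rfl fun m _ => ?_
  rw [← Finset.sum_filter, Finset.sum_const, smul_eq_mul, mul_assoc]
  congr 1
  rw [Finset.filter_filter]
  have h1 : (Finset.univ.filter fun i : Fin n => n - k ≤ (i : ℕ) ∧ m ≤ i) =
      Finset.univ.filter fun i : Fin n => max (n - k) m ≤ (i : ℕ) := by
    ext i
    simp only [Finset.mem_filter, Finset.mem_univ, true_and, Fin.le_def, max_le_iff]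
  rw [h1, card_filter_ge]
  have := m.2
  omega

theorem Tk_le {n k : ℕ} (hk : k ≤ n) (g : Fin n → ℕ) :
    Tk (efun g) k ≤ kap n ^ n * 2 ^ tau n k g := by
  unfold Tk Cst
  rw [Finset.prod_mul_distrib, Finset.prod_const, Finset.prod_pow_eq_pow_sum, sum_cexp hk]
  refine Nat.mul_le_mul_right _ (Nat.pow_le_pow_right (kap_pos n) ?_)
  rw [card_filter_ge]
  omega

/-- limits of binomial coefficients -/
theorem choose_tendsto (c k : ℕ) :
    Tendsto (fun t : ℕ => ((k.factorial : ℝ) * ((t + c + k).choose k : ℕ)) / (t : ℝ) ^ k) atTop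
      (𝓝 1) := by
  have h1 : ∀ t : ℕ, 0 < t → ((k.factorial : ℝ) * ((t + c + k).choose k : ℕ)) / (t : ℝ) ^ k =
      ∏ i ∈ Finset.range k, (1 + ((c : ℝ) + 1 + i) / t) := by
    intro t ht
    have ht' : (0 : ℝ) < t := by exact_mod_cast ht
    have h2 := Nat.ascFactorial_eq_factorial_mul_choose (t + c) k
    rw [Nat.ascFactorial_eq_prod_range] at h2
    have h3 : ((k.factorial : ℝ) * ((t + c + k).choose k : ℕ)) =
        ∏ i ∈ Finset.range k, ((t : ℝ) + c + 1 + i) := by
      have : ((k.factorial * (t + c + k).choose k : ℕ) : ℝ) =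
          ((∏ i ∈ Finset.range k, (t + c + 1 + i) : ℕ) : ℝ) := by rw [h2]
      push_cast at this
      exact this
    have h4 : (t : ℝ) ^ k = ∏ _i ∈ Finset.range k, (t : ℝ) := by simp
    rw [h3, h4, ← Finset.prod_div_distrib]
    refine Finset.prod_congr rfl fun i _ => ?_
    field_simp
    ring
  have h2 : Tendsto (fun t : ℕ => ∏ i ∈ Finset.range k, (1 + ((c : ℝ) + 1 + i) / t)) atTop
      (𝓝 (∏ i ∈ Finset.range k, (1 + 0))) := by
    refine tendsto_finsetProd _ fun i _ => ?_
    exact tendsto_const_nhds.add (tendsto_const_div_atTop_nhds_zero_nat _)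
  have h3 : ∏ _i ∈ Finset.range k, ((1 : ℝ) + 0) = 1 := by simp
  rw [h3] at h2
  refine h2.congr' ?_
  filter_upwards [eventually_gt_atTop 0] with t ht
  exact (h1 t ht).symm

/-- the degree of a component of dimension `k` -/
def IsDegree {n : ℕ} (P : Ideal (CR n)) (k : ℕ) (δ : ℝ) : Prop :=
  Tendsto (fun t : ℕ => ((k.factorial : ℝ) * (hilb P t : ℕ)) / (t : ℝ) ^ k) atTop (𝓝 δ)

theorem LB_le {n k : ℕ} {P : Ideal (CR n)} {δ D : ℝ} (h : LB P k δ) (hD : IsDegree P k D) :
    δ ≤ D := by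
  obtain ⟨c, hc⟩ := h
  have h1 : Tendsto (fun t : ℕ => ((k.factorial : ℝ) * (hilb P (t + c) : ℕ)) /
      ((t + c : ℕ) : ℝ) ^ k) atTop (𝓝 D) := hD.comp (tendsto_add_atTop_nat c)
  have h2 : Tendsto (fun t : ℕ => (t : ℝ) / ((t + c : ℕ) : ℝ)) atTop (𝓝 1) := by
    have h3 : Tendsto (fun t : ℕ => (1 : ℝ) / (1 + (c : ℝ) / t)) atTop (𝓝 (1 / (1 + 0))) :=
      tendsto_const_nhds.div (tendsto_const_nhds.add (tendsto_const_div_atTop_nhds_zero_nat _))
        (by norm_num)
    rw [add_zero, div_one] at h3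
    refine h3.congr' ?_
    filter_upwards [eventually_gt_atTop 0] with t ht
    have ht' : (0 : ℝ) < t := by exact_mod_cast ht
    push_cast
    field_simp
  have h3 : Tendsto (fun t : ℕ => δ * (((k.factorial : ℝ) * ((t + 0 + k).choose k : ℕ)) /
      (t : ℝ) ^ k) * ((t : ℝ) / ((t + c : ℕ) : ℝ)) ^ k) atTop (𝓝 (δ * 1 * 1 ^ k)) :=
    (tendsto_const_nhds.mul (choose_tendsto 0 k)).mul (h2.pow k)
  rw [one_pow, mul_one, mul_one] at h3
  refine le_of_tendsto_of_tendsto h3 h1 ?_
  filter_upwards [eventually_gt_atTop 0] with t ht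
  have ht' : (0 : ℝ) < t := by exact_mod_cast ht
  have htc : (0 : ℝ) < ((t + c : ℕ) : ℝ) := by push_cast; positivity
  have h4 : δ * (((k.factorial : ℝ) * ((t + 0 + k).choose k : ℕ)) / (t : ℝ) ^ k) *
      ((t : ℝ) / ((t + c : ℕ) : ℝ)) ^ k =
      (k.factorial : ℝ) * (δ * ((t + k).choose k : ℕ)) / ((t + c : ℕ) : ℝ) ^ k := by
    rw [add_zero, div_pow]
    field_simp
  rw [h4]
  have h5 := hc t
  gcongr

theorem hilb_bot (n t : ℕ) : hilb (⊥ : Ideal (CR n)) t = (t + n).choose n := by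
  rw [← finrank_hom]
  unfold hilb
  refine LinearEquiv.finrank_eq (LinearEquiv.symm (Submodule.equivMapOfInjective _ ?_ _))
  intro x y hxy
  have h1 : Ideal.Quotient.mk (⊥ : Ideal (CR n)) x = Ideal.Quotient.mk (⊥ : Ideal (CR n)) y := hxy
  rw [Ideal.Quotient.eq, Ideal.mem_bot, sub_eq_zero] at h1
  exact h1

theorem isDegree_bot (n : ℕ) : IsDegree (⊥ : Ideal (CR n)) n 1 := by
  unfold IsDegree
  have := choose_tendsto 0 n
  simp only [add_zero] at this
  simp only [hilb_bot]
  exact this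

theorem LN_bot (n : ℕ) : LN (⊥ : Ideal (CR n)) (n + 1) MvPolynomial.X where
  lin i := MvPolynomial.isHomogeneous_X _ _
  ind F hF := by
    rw [Ideal.mem_bot, MvPolynomial.aeval_X_left_apply] at hF
    exact hF
  rad i := Ideal.le_radical (Ideal.mem_sup_right (Ideal.subset_span ⟨i, rfl⟩))

end Pool.Agent.Q10.SZ
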