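import Pool.Agent.Q10.SZ8

set_option autoImplicit false

/-! Counting rational points. -/

namespace Pool.Agent.Q10.SZ

open MvPolynomial Module
open scoped LinearAlgebra.Projectivization

attribute [local instance] MvPolynomial.gradedAlgebra

/-- The points of height at most `B` on the union of the zero sets of the ideals in `𝒞`. -/
def ratPoints {n : ℕ} (𝒞 : Finset (Ideal (CR n))) (B : ℝ) : Set (ℙ ℚ (Fin (n + 1) → ℚ)) :=
  {x | ∃ (z : Fin (n + 1) → ℤ) (hz : (fun i => (z i : ℚ)) ≠ 0),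
      x = Projectivization.mk ℚ (fun i => (z i : ℚ)) hz ∧ (∀ i, |(z i : ℝ)| ≤ B) ∧
      ∃ P ∈ 𝒞, ∀ f ∈ P, MvPolynomial.eval (fun i => (z i : ℚ)) f = 0}

/-- Integer vectors in a box. -/
noncomputable def boxF (n : ℕ) (B : ℝ) : Finset (Fin (n + 1) → ℤ) :=
  Fintype.piFinset fun _ => Finset.Icc (-⌊B⌋) ⌊B⌋

theorem mem_boxF {n : ℕ} {B : ℝ} {z : Fin (n + 1) → ℤ} :
    z ∈ boxF n B ↔ ∀ i, |(z i : ℝ)| ≤ B := by
  simp only [boxF, Fintype.mem_piFinset, Finset.mem_Icc]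
  refine forall_congr' fun i => ?_
  rw [abs_le, Int.le_floor, neg_le, Int.le_floor]
  push_cast
  constructor <;> rintro ⟨h1, h2⟩ <;> constructor <;> linarith

theorem card_boxF {n : ℕ} {B : ℝ} (hB : 1 ≤ B) : ((boxF n B).card : ℝ) ≤ (3 * B) ^ (n + 1) := by
  unfold boxF
  rw [Fintype.card_piFinset]
  simp only [Int.card_Icc, Finset.prod_const, Finset.card_univ, Fintype.card_fin]
  push_cast
  refine pow_le_pow_left₀ (by positivity) ?_ _
  have h0 : 0 ≤ ⌊B⌋ := Int.floor_nonneg.2 (by linarith)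
  have h1 : (((⌊B⌋ + 1 - -⌊B⌋).toNat : ℕ) : ℝ) = ((⌊B⌋ + 1 - -⌊B⌋ : ℤ) : ℝ) := by
    have : ((⌊B⌋ + 1 - -⌊B⌋).toNat : ℤ) = ⌊B⌋ + 1 - -⌊B⌋ := Int.toNat_of_nonneg (by omega)
    exact_mod_cast this
  rw [h1]
  push_cast
  have := Int.floor_le B
  linarith

/-- Points orthogonal to the same vectors agree. -/
theorem sep_of_orth {n : ℕ} (z z' : Fin (n + 1) → ℤ) (hz : z ≠ 0) (a : Fin n → Fin (n + 1) → ℤ)
    (ha : LinearIndependent ℝ (fun i => ev (a i))) (haz : ∀ i, ∑ l, a i l * z l = 0)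
    (haz' : ∀ i, ∑ l, a i l * z' l = 0) (i j : Fin (n + 1)) : z' i * z j = z' j * z i := by
  have hfact : Fact (finrank ℝ (EuclideanSpace ℝ (Fin (n + 1))) = n + 1) := ⟨by simp⟩
  let W := Submodule.span ℝ (Set.range fun i => ev (a i))
  have hW : W = (Submodule.span ℝ {ev z})ᗮ := by
    refine Submodule.eq_of_le_of_finrank_eq ?_ ?_
    · rw [Submodule.span_le]
      rintro _ ⟨k, rfl⟩
      rw [SetLike.mem_coe, Submodule.mem_orthogonal_singleton_iff_inner_left, ev_inner]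
      exact_mod_cast haz k
    · rw [Submodule.finrank_orthogonal_span_singleton (n := n) (ev_ne_zero hz)]
      change finrank ℝ (Submodule.span ℝ (Set.range fun i => ev (a i))) = n
      rw [finrank_span_eq_card ha, Fintype.card_fin]
  have h1 : ev z' ∈ Wᗮ := by
    rw [Submodule.mem_orthogonal]
    intro u hu
    induction hu using Submodule.span_induction with
    | mem x hx =>
      obtain ⟨k, rfl⟩ := hx
      rw [ev_inner]
      exact_mod_cast haz' k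
    | zero => exact inner_zero_left _
    | add x y _ _ hx hy => rw [inner_add_left, hx, hy, add_zero]
    | smul c x _ hx => rw [inner_smul_left, hx, mul_zero]
  rw [hW, Submodule.orthogonal_orthogonal, Submodule.mem_span_singleton] at h1
  obtain ⟨c, hc⟩ := h1
  have h2 : ∀ i, (z' i : ℝ) = c * z i := by
    intro i
    have := congrArg (fun x : EuclideanSpace ℝ (Fin (n + 1)) => x i) hc
    simpa [ev_apply] using this.symm
  have h3 : (z' i : ℝ) * z j = z' j * z i := by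
    rw [h2 i, h2 j]; ring
  exact_mod_cast h3

open Classical in
/-- The two bounds for the points of one type. -/
theorem bound_type {n k : ℕ} {α : Type} [Fintype α] (z : α → Fin (n + 1) → ℤ)
    (hz : ∀ x, z x ≠ 0) (a : α → Fin n → Fin (n + 1) → ℤ)
    (ha : ∀ x, LinearIndependent ℝ (fun i => ev (a x i)))
    (haz : ∀ x i, ∑ l, a x i l * z x l = 0)
    (hsep : ∀ x y, (∀ i, ∑ l, a x i l * z y l = 0) → x = y)
    (e : Fin n → ℕ) (he : Monotone e) (hae : ∀ x i l, |a x i l| ≤ 2 ^ (e i))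
    (𝒞 : Finset (Ideal (CR n))) (h𝒞 : ∀ P ∈ 𝒞, P.IsPrime ∧ HomI P ∧
      ∃ w : Fin (k + 1) → CR n, LN P (k + 1) w)
    (d : Ideal (CR n) → ℝ) (hd : ∀ P ∈ 𝒞, IsDegree P k (d P))
    (comp : α → Ideal (CR n)) (hcomp : ∀ x, comp x ∈ 𝒞) (hcomp' : ∀ x, comp x ≤ Mx (z x)) :
    (Fintype.card α : ℝ) ≤ 2 ^ n * Tk e k * ∑ P ∈ 𝒞, d P := by
  have hT : (0 : ℝ) < Tk e k := by exact_mod_cast Tk_pos e k
  have h1 : ∀ P ∈ 𝒞, ((Finset.univ.filter fun x => comp x = P).card : ℝ) ≤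
      2 ^ n * Tk e k * d P := by
    intro P hP
    obtain ⟨h1, h2, w, h3⟩ := h𝒞 P hP
    have h4 := tree z hz a ha haz hsep e he hae n 0 (by omega) P h1 h2 k w h3
      (Finset.univ.filter fun x => comp x = P)
      (fun x hx => by
        rw [← (Finset.mem_filter.1 hx).2]
        exact hcomp' x)
      (fun x _ i hi => absurd hi (Nat.not_lt_zero _))
    have h5 := LB_le h4 (hd P hP)
    rw [div_le_iff₀ (by positivity)] at h5
    linarith
  have h2 : Fintype.card α = ∑ P ∈ 𝒞, (Finset.univ.filter fun x => comp x = P).card := by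
    rw [← Finset.card_univ]
    exact Finset.card_eq_sum_card_fiberwise fun x _ => hcomp x
  rw [h2]
  push_cast
  rw [Finset.mul_sum]
  exact Finset.sum_le_sum h1

theorem comp_LN {n k : ℕ} {P : Ideal (CR n)} (hP : P.IsPrime) (hh : HomI P)
    (hdim : ringKrullDim (CR n ⧸ P) = k + 1) : ∃ w : Fin (k + 1) → CR n, LN P (k + 1) w := by
  have h1 : ∃ i, (X i : CR n) ∉ P := by
    by_contra hcon
    push Not at hcon
    have h2 : LN P 0 (Fin.elim0 : Fin 0 → CR n) := by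
      refine ⟨fun i => i.elim0, fun F hF => ?_, fun i => ?_⟩
      · rw [eq_C_of_isEmpty F] at hF ⊢
        rw [aeval_C, algebraMap_eq] at hF
        by_contra hne
        have hc : coeff 0 F ≠ 0 := fun h => hne (by rw [h, map_zero])
        apply hP.ne_top
        rw [Ideal.eq_top_iff_one]
        have h3 := P.mul_mem_left (C (coeff 0 F)⁻¹) hF
        rwa [← C_mul, inv_mul_cancel₀ hc, C_1] at h3
      · exact Ideal.le_radical (Ideal.mem_sup_left (hcon i))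
    have h3 := h2.dim hh
    rw [hdim] at h3
    have h4 : ((k + 1 : ℕ) : WithBot ℕ∞) = ((0 : ℕ) : WithBot ℕ∞) := by exact_mod_cast h3
    have h5 : k + 1 = 0 := by exact_mod_cast h4
    omega
  obtain ⟨i, hi⟩ := h1
  obtain ⟨e, w, hw⟩ := exists_LN P hP hh (X i) (isHomogeneous_X _ _) hi
  have h2 := hw.dim hh
  rw [hdim] at h2
  have h3 : k + 1 = e + 1 := by
    have h4 : ((k + 1 : ℕ) : WithBot ℕ∞) = ((e + 1 : ℕ) : WithBot ℕ∞) := by exact_mod_cast h2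
    exact_mod_cast h4
  obtain rfl : k = e := by omega
  exact ⟨_, hw⟩

theorem one_le_degree {n k : ℕ} {P : Ideal (CR n)} {w : Fin (k + 1) → CR n}
    (hL : LN P (k + 1) w) {δ : ℝ} (hd : IsDegree P k δ) : 1 ≤ δ := LB_le hL.LB_one hd

/-- the data attached to the rational points -/
theorem exists_data {n : ℕ} (𝒞 : Finset (Ideal (CR n))) (B : ℝ)
    (x : ℙ ℚ (Fin (n + 1) → ℚ)) (hx : x ∈ ratPoints 𝒞 B) :
    ∃ (z : Fin (n + 1) → ℤ) (P : Ideal (CR n)) (a : Fin n → Fin (n + 1) → ℤ) (g : Fin n → ℕ),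
      z ≠ 0 ∧ (∃ hz : (fun i => (z i : ℚ)) ≠ 0,
        x = Projectivization.mk ℚ (fun i => (z i : ℚ)) hz) ∧ z ∈ boxF n B ∧ P ∈ 𝒞 ∧ P ≤ Mx z ∧
      LinearIndependent ℝ (fun i => ev (a i)) ∧ (∀ i, ∑ l, a i l * z l = 0) ∧
      (∀ i l, |a i l| ≤ 2 ^ (efun g i)) ∧
      (2 : ℝ) ^ (∑ m : Fin n, (n - m) * g m) ≤ 4 ^ n * (n + 1) ^ (n + 1) * B := by
  obtain ⟨z, hz, hxz, hzB, P, hP, hPz⟩ := hx
  have hz0 : z ≠ 0 := by
    rintro rfl
    apply hz
    funext i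
    simp
  obtain ⟨a, e, ha, haz, hmono, hae, hprod⟩ := exists_type z hz0 B hzB
  obtain ⟨g, rfl⟩ := exists_efun e hmono
  rw [sum_efun] at hprod
  refine ⟨z, P, a, g, hz0, ⟨hz, hxz⟩, mem_boxF.2 hzB, hP, ?_, ha, haz, hae, hprod⟩
  intro f hf
  rw [mem_Mx]
  have := hPz f hf
  rwa [← coe_aeval_eq_eval] at this

theorem mk_eq_of_cross {n : ℕ} {z z' : Fin (n + 1) → ℤ} (hz : (fun i => (z i : ℚ)) ≠ 0)
    (hz' : (fun i => (z' i : ℚ)) ≠ 0) (h : ∀ i j, z' i * z j = z' j * z i) :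
    Projectivization.mk ℚ (fun i => (z i : ℚ)) hz =
      Projectivization.mk ℚ (fun i => (z' i : ℚ)) hz' := by
  rw [Projectivization.mk_eq_mk_iff']
  obtain ⟨j, hj⟩ := Function.ne_iff.1 hz'
  have hj' : (z' j : ℚ) ≠ 0 := by simpa using hj
  refine ⟨(z j : ℚ) / z' j, ?_⟩
  funext i
  have h1 : (z' i : ℚ) * z j = z' j * z i := by exact_mod_cast h i j
  simp only [Pi.smul_apply, smul_eq_mul]
  field_simp
  linarith

theorem ratPoints_finite {n : ℕ} (𝒞 : Finset (Ideal (CR n))) (B : ℝ) :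
    (ratPoints 𝒞 B).Finite := by
  classical
  choose! z P a g h1 h2 h3 using exists_data 𝒞 B
  refine Set.Finite.of_finite_image (f := z) ((boxF n B).finite_toSet.subset ?_) ?_
  · rintro _ ⟨x, hx, rfl⟩
    exact (h3 x hx).1
  · intro x hx y hy hxy
    obtain ⟨_, hx2⟩ := h2 x hx
    obtain ⟨_, hy2⟩ := h2 y hy
    rw [hx2, hy2]
    congr 1
    rw [hxy]

theorem ratPoints_card_le {n : ℕ} (𝒞 : Finset (Ideal (CR n))) {B : ℝ} (hB : 1 ≤ B) :
    ((ratPoints 𝒞 B).ncard : ℝ) ≤ (3 * B) ^ (n + 1) := by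
  classical
  choose! z P a g h1 h2 h3 using exists_data 𝒞 B
  refine le_trans ?_ (card_boxF hB)
  have : (ratPoints 𝒞 B).ncard ≤ ((boxF n B : Finset _) : Set (Fin (n + 1) → ℤ)).ncard := by
    refine Set.ncard_le_ncard_of_injOn z (fun x hx => (h3 x hx).1) ?_ (Finset.finite_toSet _)
    intro x hx y hy hxy
    obtain ⟨_, hx2⟩ := h2 x hx
    obtain ⟨_, hy2⟩ := h2 y hy
    rw [hx2, hy2]
    congr 1
    rw [hxy]
  rw [Set.ncard_coe_finset] at this
  exact_mod_cast this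

/-- dimension zero -/
theorem bound_zero {n : ℕ} (𝒞 : Finset (Ideal (CR n))) (h𝒞 : ∀ P ∈ 𝒞, P.IsPrime ∧ HomI P ∧
      ∃ w : Fin (0 + 1) → CR n, LN P (0 + 1) w)
    (d : Ideal (CR n) → ℝ) (hd : ∀ P ∈ 𝒞, IsDegree P 0 (d P)) (B : ℝ) :
    ((ratPoints 𝒞 B).ncard : ℝ) ≤ 2 ^ n * ∑ P ∈ 𝒞, d P := by
  classical
  have hfin := ratPoints_finite 𝒞 B
  have := hfin.fintype
  choose! z P a g h1 h2 h3 h4 h5 h6 h7 h8 h9 using exists_data 𝒞 B
  let E : ℕ := ∑ x : ratPoints 𝒞 B, ∑ i, efun (g x) i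
  have hE : ∀ (x : ratPoints 𝒞 B) i, efun (g x) i ≤ E := by
    intro x i
    have h10 : efun (g x) i ≤ ∑ i, efun (g x) i :=
      Finset.single_le_sum (f := fun i => efun (g x) i) (fun _ _ => Nat.zero_le _)
        (Finset.mem_univ i)
    have h11 : ∑ i, efun (g x) i ≤ E :=
      Finset.single_le_sum (f := fun x : ratPoints 𝒞 B => ∑ i, efun (g x) i)
        (fun _ _ => Nat.zero_le _) (Finset.mem_univ x)
    exact h10.trans h11
  have hmain := bound_type (k := 0) (α := ratPoints 𝒞 B) (fun x => z x) (fun x => h1 x x.2)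
    (fun x => a x) (fun x => h6 x x.2) (fun x => h7 x x.2) (fun x y hxy => by
      obtain ⟨hzx, hx2⟩ := h2 x x.2
      obtain ⟨hzy, hy2⟩ := h2 y y.2
      apply Subtype.ext
      rw [hx2, hy2]
      exact mk_eq_of_cross hzx hzy fun i j =>
        sep_of_orth (z x) (z y) (h1 x x.2) (a x) (h6 x x.2) (h7 x x.2) hxy i j)
    (fun _ => E) monotone_const (fun x i l => (h8 x x.2 i l).trans
      (pow_le_pow_right₀ (by norm_num) (hE x i))) 𝒞 h𝒞 d hd (fun x => P x) (fun x => h4 x x.2)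
    (fun x => h5 x x.2)
  have hT : Tk (fun _ : Fin n => E) 0 = 1 := by
    unfold Tk
    have : Finset.univ.filter (fun i : Fin n => n - 0 ≤ (i : ℕ)) = ∅ := by
      rw [Finset.filter_eq_empty_iff]
      intro i _
      have := i.2
      omega
    rw [this, Finset.prod_empty]
  rw [hT] at hmain
  rw [← Nat.card_coe_set_eq, Nat.card_eq_fintype_card]
  simpa using hmain

/-- the main case -/
theorem bound_main {n k : ℕ} (hk : 1 ≤ k) (hkn : k < n) : ∃ c : ℝ, 0 ≤ c ∧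
    ∀ (𝒞 : Finset (Ideal (CR n))), (∀ P ∈ 𝒞, P.IsPrime ∧ HomI P ∧
      ∃ w : Fin (k + 1) → CR n, LN P (k + 1) w) →
    ∀ (d : Ideal (CR n) → ℝ), (∀ P ∈ 𝒞, IsDegree P k (d P)) → ∀ B : ℝ, 1 ≤ B →
    ((ratPoints 𝒞 B).ncard : ℝ) ≤ c * (∑ P ∈ 𝒞, d P) ^ ((n : ℝ) / (n + 1)) * B ^ (k + 1) := by
  classical
  obtain ⟨C, hC0, hC⟩ := sum_types n k hk hkn
  set c' : ℝ := 4 ^ n * (n + 1) ^ (n + 1) with hc'
  have hc'1 : 1 ≤ c' := by
    have h1 : (1 : ℝ) ≤ 4 ^ n := one_le_pow₀ (by norm_num)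
    have h2 : (1 : ℝ) ≤ (n + 1) ^ (n + 1) :=
      one_le_pow₀ (by have := Nat.cast_nonneg (α := ℝ) n; linarith)
    nlinarith
  refine ⟨2 ^ n * kap n ^ n * C * c' ^ (k + 1), by positivity, fun 𝒞 h𝒞 d hd B hB => ?_⟩
  have hB0 : 0 < B := by linarith
  -- the empty case
  rcases Finset.eq_empty_or_nonempty 𝒞 with h0 | hne
  · have h1 : ratPoints 𝒞 B = ∅ := by
      rw [Set.eq_empty_iff_forall_notMem]
      rintro x ⟨z, hz, _, _, P, hP, _⟩
      rw [h0] at hP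
      exact absurd hP (Finset.notMem_empty _)
    rw [h1, Set.ncard_empty, Nat.cast_zero]
    have h2 : (0 : ℝ) ≤ ∑ P ∈ 𝒞, d P := by rw [h0]; simp
    positivity
  have hd1 : ∀ P ∈ 𝒞, 1 ≤ d P := by
    intro P hP
    obtain ⟨_, _, w, hw⟩ := h𝒞 P hP
    exact one_le_degree hw (hd P hP)
  set δ := ∑ P ∈ 𝒞, d P with hδ
  have hδ1 : 1 ≤ δ := by
    obtain ⟨P, hP⟩ := hne
    exact (hd1 P hP).trans (Finset.single_le_sum (fun Q hQ => by linarith [hd1 Q hQ]) hP)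
  have hδ0 : 0 < δ := by linarith
  set D := Real.logb 2 δ with hD
  have hD0 : 0 ≤ D := Real.logb_nonneg (by norm_num) hδ1
  have h2D : (2 : ℝ) ^ D = δ := Real.rpow_logb (by norm_num) (by norm_num) hδ0
  -- the data
  have hfin := ratPoints_finite 𝒞 B
  have := hfin.fintype
  choose! z P a g h1 h2 h3 h4 h5 h6 h7 h8 h9 using exists_data 𝒞 B
  let 𝒢 : Finset (Fin n → ℕ) := Finset.univ.image fun x : ratPoints 𝒞 B => g x
  set β := Nat.log 2 ⌊c' * B⌋₊ with hβ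
  have hcB : 1 ≤ c' * B := by nlinarith
  have hfl : ⌊c' * B⌋₊ ≠ 0 := by
    have := (Nat.one_le_floor_iff _).2 hcB
    omega
  have hβle : (2 : ℝ) ^ β ≤ c' * B := by
    have h10 : 2 ^ β ≤ ⌊c' * B⌋₊ := Nat.pow_log_le_self 2 hfl
    have h11 : ((2 ^ β : ℕ) : ℝ) ≤ ⌊c' * B⌋₊ := by exact_mod_cast h10
    push_cast at h11
    exact h11.trans (Nat.floor_le (by linarith))
  have h𝒢 : ∀ u ∈ 𝒢, ∑ m : Fin n, (n - m) * u m ≤ β := by
    intro u hu
    obtain ⟨x, _, rfl⟩ := Finset.mem_image.1 hu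
    have h10 := h9 x x.2
    rw [hβ]
    apply Nat.le_log_of_pow_le (by norm_num)
    apply Nat.le_floor
    push_cast
    exact h10
  -- bound for one type
  have htype : ∀ u ∈ 𝒢, ((Finset.univ.filter fun x : ratPoints 𝒞 B => g x = u).card : ℝ) ≤
      2 ^ n * kap n ^ n * min ((2 : ℝ) ^ (D + tau n k u)) ((2 : ℝ) ^ ((tau n n u : ℕ) : ℝ)) := by
    intro u _
    let α := {x : ratPoints 𝒞 B // g x = u}
    have hcard : ((Finset.univ.filter fun x : ratPoints 𝒞 B => g x = u).card : ℝ) =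
        Fintype.card α := by
      rw [Fintype.card_subtype]
    rw [hcard]
    have hsep : ∀ x y : α, (∀ i, ∑ l, a x.1 i l * z y.1 l = 0) → x = y := by
      intro x y hxy
      obtain ⟨hzx, hx2⟩ := h2 x.1 x.1.2
      obtain ⟨hzy, hy2⟩ := h2 y.1 y.1.2
      apply Subtype.ext
      apply Subtype.ext
      rw [hx2, hy2]
      exact mk_eq_of_cross hzx hzy fun i j =>
        sep_of_orth (z x.1) (z y.1) (h1 x.1 x.1.2) (a x.1) (h6 x.1 x.1.2) (h7 x.1 x.1.2) hxy i j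
    have hae : ∀ (x : α) i l, |a x.1 i l| ≤ 2 ^ (efun u i) := by
      intro x i l
      have := h8 x.1 x.1.2 i l
      rwa [x.2] at this
    have hA := bound_type (k := k) (α := α) (fun x => z x.1) (fun x => h1 x.1 x.1.2)
      (fun x => a x.1) (fun x => h6 x.1 x.1.2) (fun x => h7 x.1 x.1.2) hsep (efun u)
      (efun_mono u) hae 𝒞 h𝒞 d hd (fun x => P x.1) (fun x => h4 x.1 x.1.2)
      (fun x => h5 x.1 x.1.2)
    have hBt := bound_type (k := n) (α := α) (fun x => z x.1) (fun x => h1 x.1 x.1.2)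
      (fun x => a x.1) (fun x => h6 x.1 x.1.2) (fun x => h7 x.1 x.1.2) hsep (efun u)
      (efun_mono u) hae {⊥} (fun Q hQ => by
        rw [Finset.mem_singleton.1 hQ]
        exact ⟨Ideal.isPrime_bot, Ideal.IsHomogeneous.bot _, _, LN_bot n⟩) (fun _ => 1)
      (fun Q hQ => by
        rw [Finset.mem_singleton.1 hQ]
        exact isDegree_bot n) (fun _ => ⊥) (fun x => Finset.mem_singleton_self _)
      (fun x => bot_le)
    rw [Finset.sum_singleton, mul_one] at hBt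
    have hTk : (Tk (efun u) k : ℝ) ≤ kap n ^ n * 2 ^ tau n k u := by
      exact_mod_cast Tk_le hkn.le u
    have hTn : (Tk (efun u) n : ℝ) ≤ kap n ^ n * 2 ^ tau n n u := by
      exact_mod_cast Tk_le le_rfl u
    rw [mul_min_of_nonneg _ _ (by positivity)]
    refine le_min ?_ ?_
    · rw [Real.rpow_add (by norm_num), h2D, Real.rpow_natCast]
      calc (Fintype.card α : ℝ) ≤ 2 ^ n * Tk (efun u) k * δ := hA
        _ ≤ 2 ^ n * (kap n ^ n * 2 ^ tau n k u) * δ := by gcongr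
        _ = _ := by ring
    · rw [Real.rpow_natCast]
      calc (Fintype.card α : ℝ) ≤ 2 ^ n * Tk (efun u) n := hBt
        _ ≤ 2 ^ n * (kap n ^ n * 2 ^ tau n n u) := by gcongr
        _ = _ := by ring
  have htotal : ((ratPoints 𝒞 B).ncard : ℝ) =
      ∑ u ∈ 𝒢, ((Finset.univ.filter fun x : ratPoints 𝒞 B => g x = u).card : ℝ) := by
    rw [← Nat.card_coe_set_eq, Nat.card_eq_fintype_card, ← Finset.card_univ,
      Finset.card_eq_sum_card_image (fun x : ratPoints 𝒞 B => g x) Finset.univ]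
    push_cast
    rfl
  have hs := hC β D 𝒢 hD0 h𝒢
  have hpow1 : (2 : ℝ) ^ ((n : ℝ) / (n + 1) * D) = δ ^ ((n : ℝ) / (n + 1)) := by
    rw [mul_comm, Real.rpow_mul (by norm_num), h2D]
  have hpow2 : (2 : ℝ) ^ (((k : ℝ) + 1) * β) ≤ (c' * B) ^ (k + 1) := by
    have : (2 : ℝ) ^ (((k : ℝ) + 1) * β) = ((2 : ℝ) ^ β) ^ (k + 1) := by
      rw [← pow_mul, ← Real.rpow_natCast]
      congr 1
      push_cast
      ring
    rw [this]
    exact pow_le_pow_left₀ (by positivity) hβle _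
  rw [htotal]
  calc _ ≤ ∑ u ∈ 𝒢, 2 ^ n * kap n ^ n *
        min ((2 : ℝ) ^ (D + tau n k u)) ((2 : ℝ) ^ ((tau n n u : ℕ) : ℝ)) :=
        Finset.sum_le_sum htype
    _ = 2 ^ n * kap n ^ n * ∑ u ∈ 𝒢,
        min ((2 : ℝ) ^ (D + tau n k u)) ((2 : ℝ) ^ ((tau n n u : ℕ) : ℝ)) := by
        rw [Finset.mul_sum]
    _ ≤ 2 ^ n * kap n ^ n * (C * (2 : ℝ) ^ ((n : ℝ) / (n + 1) * D) *
        (2 : ℝ) ^ (((k : ℝ) + 1) * β)) := by gcongr
    _ ≤ 2 ^ n * kap n ^ n * (C * δ ^ ((n : ℝ) / (n + 1)) * (c' * B) ^ (k + 1)) := by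
        rw [hpow1]
        gcongr
    _ = _ := by rw [mul_pow]; ring

/-- All cases. -/
theorem bound_all {n k : ℕ} (hn : 1 ≤ n) (hkn : k ≤ n) : ∃ c : ℝ, 0 ≤ c ∧
    ∀ (𝒞 : Finset (Ideal (CR n))), (∀ P ∈ 𝒞, P.IsPrime ∧ HomI P ∧
      ringKrullDim (CR n ⧸ P) = k + 1) →
    ∀ (d : Ideal (CR n) → ℝ), (∀ P ∈ 𝒞, IsDegree P k (d P)) → ∀ B : ℝ, 1 ≤ B →
    ((ratPoints 𝒞 B).ncard : ℝ) ≤ c * (∑ P ∈ 𝒞, d P) ^ ((n : ℝ) / (n + 1)) * B ^ (k + 1) := by
  have hconv : ∀ 𝒞 : Finset (Ideal (CR n)), (∀ P ∈ 𝒞, P.IsPrime ∧ HomI P ∧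
      ringKrullDim (CR n ⧸ P) = k + 1) → (∀ P ∈ 𝒞, P.IsPrime ∧ HomI P ∧
      ∃ w : Fin (k + 1) → CR n, LN P (k + 1) w) := fun 𝒞 h P hP =>
    ⟨(h P hP).1, (h P hP).2.1, comp_LN (h P hP).1 (h P hP).2.1 (h P hP).2.2⟩
  have hempty : ∀ (𝒞 : Finset (Ideal (CR n))) (B : ℝ), 𝒞 = ∅ → (ratPoints 𝒞 B).ncard = 0 := by
    intro 𝒞 B h0
    have h1 : ratPoints 𝒞 B = ∅ := by
      rw [Set.eq_empty_iff_forall_notMem]
      rintro x ⟨z, hz, _, _, P, hP, _⟩
      rw [h0] at hP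
      exact absurd hP (Finset.notMem_empty _)
    rw [h1, Set.ncard_empty]
  have hδ1 : ∀ (𝒞 : Finset (Ideal (CR n))), (∀ P ∈ 𝒞, P.IsPrime ∧ HomI P ∧
      ∃ w : Fin (k + 1) → CR n, LN P (k + 1) w) → ∀ (d : Ideal (CR n) → ℝ),
      (∀ P ∈ 𝒞, IsDegree P k (d P)) → 𝒞.Nonempty → 1 ≤ ∑ P ∈ 𝒞, d P := by
    intro 𝒞 h𝒞 d hd hne
    have hd1 : ∀ P ∈ 𝒞, 1 ≤ d P := by
      intro P hP
      obtain ⟨_, _, w, hw⟩ := h𝒞 P hP
      exact one_le_degree hw (hd P hP)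
    obtain ⟨P, hP⟩ := hne
    exact (hd1 P hP).trans (Finset.single_le_sum (fun Q hQ => by linarith [hd1 Q hQ]) hP)
  have hn1 : (0 : ℝ) < (n : ℝ) + 1 := by positivity
  rcases Nat.eq_zero_or_pos k with rfl | hk
  · -- dimension zero
    refine ⟨2 ^ n * 3, by positivity, fun 𝒞 h𝒞 d hd B hB => ?_⟩
    have hB0 : 0 < B := by linarith
    rcases Finset.eq_empty_or_nonempty 𝒞 with h0 | hne
    · rw [hempty 𝒞 B h0, Nat.cast_zero]
      have h2 : (0 : ℝ) ≤ ∑ P ∈ 𝒞, d P := by rw [h0]; simp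
      positivity
    have hδ := hδ1 𝒞 (hconv 𝒞 h𝒞) d hd hne
    set δ := ∑ P ∈ 𝒞, d P
    have hδ0 : 0 < δ := by linarith
    set N : ℝ := ((ratPoints 𝒞 B).ncard : ℝ) with hN
    have hN0 : 0 ≤ N := Nat.cast_nonneg _
    have hA : N ≤ 2 ^ n * δ := bound_zero 𝒞 (hconv 𝒞 h𝒞) d hd B
    have hBd : N ≤ (3 * B) ^ (n + 1) := ratPoints_card_le 𝒞 hB
    have h1 : N = N ^ ((n : ℝ) / (n + 1)) * N ^ (1 / ((n : ℝ) + 1)) := by
      rw [← Real.rpow_add_of_nonneg hN0 (by positivity) (by positivity)]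
      rw [← add_div, div_self hn1.ne', Real.rpow_one]
    have h2 : N ^ ((n : ℝ) / (n + 1)) ≤ (2 ^ n * δ) ^ ((n : ℝ) / (n + 1)) :=
      Real.rpow_le_rpow hN0 hA (by positivity)
    have h3 : N ^ (1 / ((n : ℝ) + 1)) ≤ 3 * B := by
      refine (Real.rpow_le_rpow hN0 hBd (by positivity)).trans_eq ?_
      rw [← Real.rpow_natCast, ← Real.rpow_mul (by positivity)]
      have : (((n + 1 : ℕ) : ℝ)) * (1 / ((n : ℝ) + 1)) = 1 := by
        push_cast
        field_simp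
      rw [this, Real.rpow_one]
    have h4 : (2 ^ n * δ) ^ ((n : ℝ) / (n + 1)) ≤ 2 ^ n * δ ^ ((n : ℝ) / (n + 1)) := by
      rw [Real.mul_rpow (by positivity) hδ0.le]
      gcongr
      have h5 : (1 : ℝ) ≤ 2 ^ n := one_le_pow₀ (by norm_num)
      calc ((2 : ℝ) ^ n) ^ ((n : ℝ) / (n + 1)) ≤ ((2 : ℝ) ^ n) ^ (1 : ℝ) :=
            Real.rpow_le_rpow_of_exponent_le h5 (by
              rw [div_le_one hn1]
              linarith)
        _ = 2 ^ n := Real.rpow_one _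
    rw [h1, zero_add, pow_one]
    calc N ^ ((n : ℝ) / (n + 1)) * N ^ (1 / ((n : ℝ) + 1)) ≤
          (2 ^ n * δ ^ ((n : ℝ) / (n + 1))) * (3 * B) := by
          gcongr
          exact h2.trans h4
      _ = _ := by ring
  · rcases hkn.eq_or_lt with rfl | hlt
    · -- the whole space
      refine ⟨3 ^ (k + 1), by positivity, fun 𝒞 h𝒞 d hd B hB => ?_⟩
      have hB0 : 0 < B := by linarith
      rcases Finset.eq_empty_or_nonempty 𝒞 with h0 | hne
      · rw [hempty 𝒞 B h0, Nat.cast_zero]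
        have h2 : (0 : ℝ) ≤ ∑ P ∈ 𝒞, d P := by rw [h0]; simp
        positivity
      have hδ := hδ1 𝒞 (hconv 𝒞 h𝒞) d hd hne
      have h1 : 1 ≤ (∑ P ∈ 𝒞, d P) ^ ((k : ℝ) / (k + 1)) :=
        Real.one_le_rpow hδ (by positivity)
      have h2 := ratPoints_card_le (n := k) 𝒞 hB
      rw [mul_pow] at h2
      calc ((ratPoints 𝒞 B).ncard : ℝ) ≤ 3 ^ (k + 1) * B ^ (k + 1) := h2
        _ = 3 ^ (k + 1) * 1 * B ^ (k + 1) := by ring
        _ ≤ _ := by gcongr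
    · obtain ⟨c, hc0, hc⟩ := bound_main hk hlt
      exact ⟨c, hc0, fun 𝒞 h𝒞 d hd B hB => hc 𝒞 (hconv 𝒞 h𝒞) d hd B hB⟩

end Pool.Agent.Q10.SZ
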