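import Pool.Agent.Q10.SZ9

set_option autoImplicit false

/-! Existence of the degree: Hilbert functions are eventually polynomial. -/

namespace Pool.Agent.Q10.SZ

open MvPolynomial Module Filter Topology

attribute [local instance] MvPolynomial.gradedAlgebra

/-- eventually a numerical polynomial -/
def EP (H : ℕ → ℕ) : Prop :=
  ∃ (T m : ℕ) (c : ℕ → ℤ), ∀ t, (H (t + T) : ℤ) = ∑ j ∈ Finset.range m, c j * (t.choose j : ℕ)

theorem shift_sum (m : ℕ) (c : ℕ → ℤ) : ∃ c' : ℕ → ℤ, ∀ t : ℕ,
    ∑ j ∈ Finset.range m, c j * ((t + 1).choose j : ℕ) =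
      ∑ j ∈ Finset.range m, c' j * (t.choose j : ℕ) := by
  refine ⟨fun j => c j + (if j + 1 < m then c (j + 1) else 0), fun t => ?_⟩
  rcases m with _ | m
  · simp
  rw [Finset.sum_range_succ' _ m]
  have h1 : ∀ j, c (j + 1) * (((t + 1).choose (j + 1) : ℕ) : ℤ) =
      c (j + 1) * (t.choose (j + 1) : ℕ) + c (j + 1) * (t.choose j : ℕ) := by
    intro j
    rw [Nat.choose_succ_succ]
    push_cast
    ring
  simp only [h1, Finset.sum_add_distrib, add_mul]
  have h2 : ∑ j ∈ Finset.range (m + 1), c j * (t.choose j : ℤ) =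
      ∑ j ∈ Finset.range m, c (j + 1) * (t.choose (j + 1) : ℤ) + c 0 * (t.choose 0 : ℤ) :=
    Finset.sum_range_succ' _ m
  have h3 : ∑ j ∈ Finset.range (m + 1), (if j + 1 < m + 1 then c (j + 1) else 0) *
      (t.choose j : ℤ) = ∑ j ∈ Finset.range m, c (j + 1) * (t.choose j : ℤ) := by
    rw [Finset.sum_range_succ, if_neg (lt_irrefl _), zero_mul, add_zero]
    refine Finset.sum_congr rfl fun j hj => ?_
    rw [if_pos (by have := Finset.mem_range.1 hj; omega)]
  rw [h2, h3]
  simp
  ring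

theorem EP.lift {H : ℕ → ℕ} (h : EP H) : ∃ T0 m : ℕ, ∀ T, T0 ≤ T → ∃ c : ℕ → ℤ,
    ∀ t, (H (t + T) : ℤ) = ∑ j ∈ Finset.range m, c j * (t.choose j : ℕ) := by
  obtain ⟨T, m, c, hc⟩ := h
  refine ⟨T, m, fun T' hT' => ?_⟩
  induction T', hT' using Nat.le_induction with
  | base => exact ⟨c, hc⟩
  | succ T' _ ih =>
    obtain ⟨c1, hc1⟩ := ih
    obtain ⟨c2, hc2⟩ := shift_sum m c1
    refine ⟨c2, fun t => ?_⟩
    rw [← hc2, ← hc1]
    congr 2
    ring

theorem extend_sum {m m' : ℕ} (h : m ≤ m') (c : ℕ → ℤ) (t : ℕ) :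
    ∑ j ∈ Finset.range m, c j * (t.choose j : ℕ) =
      ∑ j ∈ Finset.range m', (if j < m then c j else 0) * (t.choose j : ℕ) := by
  have h1 : ∑ j ∈ Finset.range m, c j * (t.choose j : ℕ) =
      ∑ j ∈ Finset.range m, (if j < m then c j else 0) * ((t.choose j : ℕ) : ℤ) :=
    Finset.sum_congr rfl fun j hj => by rw [if_pos (Finset.mem_range.1 hj)]
  rw [h1]
  refine Finset.sum_subset (Finset.range_mono h) fun j _ hj => ?_
  rw [if_neg (by simpa using hj), zero_mul]

theorem EP.add {H G : ℕ → ℕ} (h : EP H) (g : EP G) : EP (fun t => H t + G t) := by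
  obtain ⟨T1, m1, h1⟩ := h.lift
  obtain ⟨T2, m2, h2⟩ := g.lift
  obtain ⟨c1, hc1⟩ := h1 (max T1 T2) (le_max_left _ _)
  obtain ⟨c2, hc2⟩ := h2 (max T1 T2) (le_max_right _ _)
  refine ⟨max T1 T2, max m1 m2, fun j => (if j < m1 then c1 j else 0) +
    (if j < m2 then c2 j else 0), fun t => ?_⟩
  push_cast
  rw [hc1, hc2, extend_sum (le_max_left m1 m2) c1, extend_sum (le_max_right m1 m2) c2,
    ← Finset.sum_add_distrib]
  exact Finset.sum_congr rfl fun j _ => by ring

theorem EP.shift {H : ℕ → ℕ} (h : EP H) (a : ℕ) : EP (fun t => H (t + a)) := by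
  obtain ⟨T, m, h1⟩ := h.lift
  obtain ⟨c, hc⟩ := h1 (T + a) (by omega)
  exact ⟨T, m, c, fun t => by rw [← hc]; exact congrArg (fun s => (H s : ℤ)) (by ring)⟩

theorem EP.unshift {H : ℕ → ℕ} {a : ℕ} (h : EP (fun t => H (t + a))) : EP H := by
  obtain ⟨T, m, c, hc⟩ := h
  exact ⟨T + a, m, c, fun t => by rw [← hc]; exact congrArg (fun s => (H s : ℤ)) (by ring)⟩

theorem EP.sum {H G : ℕ → ℕ} (g : EP G) (h : ∀ t, H (t + 1) = H t + G (t + 1)) : EP H := by
  obtain ⟨T0, m, h1⟩ := g.lift
  obtain ⟨c, hc⟩ := h1 (T0 + 1) (by omega)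
  refine ⟨T0, m + 1, fun j => if j = 0 then (H T0 : ℤ) else c (j - 1), fun t => ?_⟩
  rw [Finset.sum_range_succ']
  simp only [Nat.add_eq_zero_iff, one_ne_zero, and_false, if_false, Nat.add_sub_cancel, if_true,
    Nat.choose_zero_right, Nat.cast_one, mul_one]
  induction t with
  | zero => simp
  | succ t ih =>
    have h2 : H (t + 1 + T0) = H (t + T0) + G (t + (T0 + 1)) := by
      have := h (t + T0)
      rw [show t + 1 + T0 = t + T0 + 1 by ring, this]
      rfl
    rw [h2]
    push_cast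
    rw [ih, hc]
    have h3 : ∀ j, c j * (((t + 1).choose (j + 1) : ℕ) : ℤ) =
        c j * (t.choose j : ℕ) + c j * (t.choose (j + 1) : ℕ) := by
      intro j
      rw [Nat.choose_succ_succ]
      push_cast
      ring
    simp only [h3, Finset.sum_add_distrib]
    ring

theorem EP.of_eq {H G : ℕ → ℕ} (h : EP H) (hg : ∀ t, H t = G t) : EP G := by
  have : H = G := funext hg
  rwa [← this]

theorem EP.zero_of {H : ℕ → ℕ} (h : ∀ t, H (t + 1) = 0) : EP H :=
  ⟨1, 0, fun _ => 0, fun t => by rw [h]; simp⟩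

theorem hc_mul' {n a t : ℕ} {f g : CR n} (hf : f.IsHomogeneous a) :
    homogeneousComponent (t + a) (g * f) = homogeneousComponent t g * f := by
  rw [← decomposition.decompose'_apply, ← decomposition.decompose'_apply]
  exact DirectSum.coe_decompose_mul_add_of_right_mem (homogeneousSubmodule (Fin (n + 1)) ℚ) hf

/-- the ideal quotient by one element -/
noncomputable def colon1 {n : ℕ} (J : Ideal (CR n)) (f : CR n) : Ideal (CR n) :=
  Submodule.comap (LinearMap.mulRight (CR n) f) J

theorem mem_colon1 {n : ℕ} {J : Ideal (CR n)} {f g : CR n} : g ∈ colon1 J f ↔ g * f ∈ J := Iff.rfl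

theorem homI_iff {n : ℕ} {J : Ideal (CR n)} :
    HomI J ↔ ∀ t, ∀ g ∈ J, homogeneousComponent t g ∈ J := by
  constructor
  · intro h t g hg
    exact homogeneousComponent_mem_of_mem h hg t
  · intro h i g hg
    have := h i g hg
    rwa [← decomposition.decompose'_apply] at this

theorem colon1_hom {n a : ℕ} {J : Ideal (CR n)} (hJ : HomI J) {f : CR n}
    (hf : f.IsHomogeneous a) : HomI (colon1 J f) := by
  rw [homI_iff]
  intro t g hg
  rw [mem_colon1] at hg ⊢
  rw [← hc_mul' hf]
  exact homogeneousComponent_mem_of_mem hJ hg _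

theorem sup_hom {n a : ℕ} {J : Ideal (CR n)} (hJ : HomI J) {f : CR n}
    (hf : f.IsHomogeneous a) : HomI (J ⊔ Ideal.span {f}) := by
  refine Ideal.IsHomogeneous.sup hJ ?_
  refine Ideal.homogeneous_span _ _ ?_
  rintro x rfl
  exact ⟨a, hf⟩

/-- The exact sequence for multiplication by `f`. -/
theorem hilb_exact {n a : ℕ} {J : Ideal (CR n)} (hJ : HomI J) {f : CR n}
    (hf : f.IsHomogeneous a) (t : ℕ) :
    hilb J (t + a) = hilb (colon1 J f) t + hilb (J ⊔ Ideal.span {f}) (t + a) := by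
  set K := J ⊔ Ideal.span {f} with hK
  have hfK : f ∈ K := Ideal.mem_sup_right (Ideal.mem_span_singleton_self f)
  obtain ⟨s1, hs1, hs1'⟩ := exists_section (colon1 J f) t
  obtain ⟨s2, hs2, hs2'⟩ := exists_section K (t + a)
  let φ : (part (colon1 J f) t × part K (t + a)) →ₗ[ℚ] CR n :=
    LinearMap.coprod ((LinearMap.mulRight ℚ f).comp s1) s2
  have hφ : ∀ v, φ v = s1 v.1 * f + s2 v.2 := fun v => by simp [φ]
  let ψ : (part (colon1 J f) t × part K (t + a)) →ₗ[ℚ] CR n ⧸ J :=
    (Ideal.Quotient.mkₐ ℚ J).toLinearMap.comp φ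
  have hψ : ∀ v, ψ v = Ideal.Quotient.mk J (φ v) := fun v => rfl
  have hhom : ∀ v, (φ v).IsHomogeneous (t + a) := by
    intro v
    rw [hφ]
    exact ((hs1 v.1).mul hf).add (hs2 v.2)
  have hinj : Function.Injective ψ := by
    rw [injective_iff_map_eq_zero]
    intro v hv
    rw [hψ, Ideal.Quotient.eq_zero_iff_mem, hφ] at hv
    have h1 : s2 v.2 ∈ K := by
      have h2 : s1 v.1 * f + s2 v.2 ∈ K := Ideal.mem_sup_left hv
      have h3 := K.sub_mem h2 (K.mul_mem_left (s1 v.1) hfK)
      simpa using h3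
    rw [← Ideal.Quotient.eq_zero_iff_mem, hs2'] at h1
    have h4 : v.2 = 0 := Subtype.ext h1
    rw [h4, map_zero, add_zero] at hv
    have h5 : s1 v.1 ∈ colon1 J f := hv
    rw [← Ideal.Quotient.eq_zero_iff_mem, hs1'] at h5
    exact Prod.ext (Subtype.ext h5) h4
  have hrange : LinearMap.range ψ = part J (t + a) := by
    apply le_antisymm
    · rintro _ ⟨v, rfl⟩
      exact ⟨φ v, hhom v, rfl⟩
    · rintro _ ⟨g, hg, rfl⟩
      let v2 : part K (t + a) := ⟨Ideal.Quotient.mk K g, ⟨g, hg, rfl⟩⟩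
      have h1 : g - s2 v2 ∈ K := by
        rw [← Ideal.Quotient.eq, hs2']
      obtain ⟨p, hp, q, hq, hpq⟩ := Submodule.mem_sup.1 h1
      obtain ⟨u, hu⟩ := Ideal.mem_span_singleton'.1 hq
      let v1 : part (colon1 J f) t :=
        ⟨Ideal.Quotient.mk _ (homogeneousComponent t u), ⟨_, homogeneousComponent_mem t u, rfl⟩⟩
      refine ⟨(v1, v2), ?_⟩
      have h2 : g - s2 v2 = homogeneousComponent (t + a) p + homogeneousComponent t u * f := by
        have h3 : (g - s2 v2).IsHomogeneous (t + a) :=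
          IsHomogeneous.sub hg (hs2 v2)
        rw [← homogeneousComponent_eq_self h3, ← hpq, ← hu, map_add, hc_mul' hf]
      rw [hψ, hφ]
      change Ideal.Quotient.mk J (s1 v1 * f + s2 v2) = Ideal.Quotient.mk J g
      rw [Ideal.Quotient.eq]
      have h4 : s1 v1 - homogeneousComponent t u ∈ colon1 J f := by
        rw [← Ideal.Quotient.eq, hs1']
      rw [mem_colon1] at h4
      have h5 : s1 v1 * f + s2 v2 - g = (s1 v1 - homogeneousComponent t u) * f -
          homogeneousComponent (t + a) p := by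
        have : g = s2 v2 + (homogeneousComponent (t + a) p + homogeneousComponent t u * f) := by
          rw [← h2]; ring
        rw [this]; ring
      rw [h5]
      exact J.sub_mem h4 (homogeneousComponent_mem_of_mem hJ hp _)
  have h1 := LinearMap.finrank_range_of_inj hinj
  rw [hrange] at h1
  have hfr1 : Module.Free ℚ (part (colon1 J f) t) := Module.Free.of_divisionRing ℚ _
  have hfr2 : Module.Free ℚ (part K (t + a)) := Module.Free.of_divisionRing ℚ _
  rw [Module.finrank_prod] at h1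
  exact h1

theorem hilb_zero_of {n : ℕ} {J : Ideal (CR n)} {t : ℕ}
    (h : ∀ f : CR n, f.IsHomogeneous t → f ∈ J) : hilb J t = 0 := by
  unfold hilb
  have : (homogeneousSubmodule (Fin (n + 1)) ℚ t).map (Ideal.Quotient.mkₐ ℚ J).toLinearMap = ⊥ := by
    rw [eq_bot_iff]
    rintro _ ⟨g, hg, rfl⟩
    rw [Submodule.mem_bot]
    exact Ideal.Quotient.eq_zero_iff_mem.2 (h g hg)
  rw [this]
  simp

/-- Hilbert functions are eventually polynomial. -/
theorem EP_hilb {n : ℕ} (J : Ideal (CR n)) : HomI J → EP (hilb J) := by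
  refine IsNoetherian.induction (P := fun J : Ideal (CR n) => HomI J → EP (hilb J)) ?_ J
  intro (J : Ideal (CR n)) ih hJ
  by_cases htop : J = ⊤
  · exact EP.zero_of fun t => hilb_zero_of fun f _ => by rw [htop]; trivial
  by_cases hprime : J.IsPrime
  · by_cases hX : ∀ i, (X i : CR n) ∈ J
    · refine EP.zero_of fun t => hilb_zero_of fun f hf => ?_
      have h1 := hom_mem_pow (N := 1) f hf (by omega)
      rw [pow_one] at h1
      refine (Ideal.span_le.2 ?_) h1
      rintro _ ⟨i, rfl⟩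
      exact hX i
    · push Not at hX
      obtain ⟨i, hi⟩ := hX
      have hXi : (X i : CR n).IsHomogeneous 1 := isHomogeneous_X _ _
      have h1 : colon1 J (X i) = J := by
        ext g
        rw [mem_colon1]
        constructor
        · intro h
          exact (hprime.mem_or_mem h).resolve_right hi
        · intro h
          exact J.mul_mem_right _ h
      have h2 : J < J ⊔ Ideal.span {(X i : CR n)} := by
        refine lt_of_le_of_ne le_sup_left fun h => hi ?_
        rw [h]
        exact Ideal.mem_sup_right (Ideal.mem_span_singleton_self _)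
      refine EP.sum (ih _ h2 (sup_hom hJ hXi)) fun t => ?_
      have h3 := hilb_exact hJ hXi t
      rw [h1] at h3
      exact h3
  · have h1 : ∃ (a b : ℕ) (f g : CR n), f.IsHomogeneous a ∧ g.IsHomogeneous b ∧ f ∉ J ∧ g ∉ J ∧
        g * f ∈ J := by
      by_contra hcon
      push Not at hcon
      apply hprime
      refine hJ.isPrime_of_homogeneous_mem_or_mem htop ?_
      rintro x y ⟨i, hx⟩ ⟨j, hy⟩ hxy
      by_contra h
      push Not at h
      exact hcon j i y x hy hx h.2 h.1 hxy
    obtain ⟨a, b, f, g, hf, hg, hfJ, hgJ, hgf⟩ := h1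
    have h2 : J < colon1 J f := by
      refine lt_of_le_of_ne (fun x hx => J.mul_mem_right _ hx) fun h => hgJ ?_
      rw [h]
      exact hgf
    have h3 : J < J ⊔ Ideal.span {f} := by
      refine lt_of_le_of_ne le_sup_left fun h => hfJ ?_
      rw [h]
      exact Ideal.mem_sup_right (Ideal.mem_span_singleton_self _)
    have h4 := (ih _ h2 (colon1_hom hJ hf)).add ((ih _ h3 (sup_hom hJ hf)).shift a)
    exact EP.unshift (a := a) (h4.of_eq fun t => (hilb_exact hJ hf t).symm)

end Pool.Agent.Q10.SZ
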