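import Pool.Agent.Q10.SZA

set_option autoImplicit false

/-! Existence of the degree, part 2. -/

namespace Pool.Agent.Q10.SZ

open MvPolynomial Module Filter Topology

attribute [local instance] MvPolynomial.gradedAlgebra

/-- products of a monomial in the normalising forms and a small monomial -/
noncomputable def gen {n e : ℕ} (P : Ideal (CR n)) (w : Fin e → CR n)
    (p : (_ : Fin (n + 1) →₀ ℕ) × (Fin e →₀ ℕ)) : CR n ⧸ P :=
  Ideal.Quotient.mk P (aeval w (monomial p.2 (1 : ℚ)) * monomial p.1 (1 : ℚ))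

theorem hilb_upper {n k : ℕ} {P : Ideal (CR n)} (hh : HomI P) {w : Fin (k + 1) → CR n}
    (hL : LN P (k + 1) w) : ∃ C : ℕ, ∀ t, hilb P t ≤ C * (t + k).choose k := by
  classical
  obtain ⟨N, hN⟩ := mem_of_large _ hL.rad
  let S : Finset (Fin (n + 1) →₀ ℕ) :=
    (Finset.range (N + 1)).biUnion fun t => Finset.univ.finsuppAntidiag t
  have hS : ∀ d : Fin (n + 1) →₀ ℕ, d.degree ≤ N → d ∈ S := by
    intro d hd
    simp only [S, Finset.mem_biUnion, Finset.mem_range, Finset.mem_finsuppAntidiag]
    refine ⟨d.degree, by omega, ?_, by simp⟩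
    exact (Finsupp.degree_eq_sum d).symm
  let G : ℕ → Set (CR n ⧸ P) := fun t =>
    {y | ∃ (d : Fin (n + 1) →₀ ℕ) (m : Fin (k + 1) →₀ ℕ), d ∈ S ∧ m.degree + d.degree = t ∧
      y = gen P w ⟨d, m⟩}
  have key : ∀ t, ∀ f : CR n, f.IsHomogeneous t →
      Ideal.Quotient.mk P f ∈ Submodule.span ℚ (G t) := by
    intro t
    induction t using Nat.strong_induction_on with
    | _ t ih =>
      intro f hf
      by_cases ht : t ≤ N
      · rw [f.as_sum, map_sum]
        refine Submodule.sum_mem _ fun d hd => ?_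
        have h2 : d.degree = t := by
          have h2 := hf.degree_eq_sum_deg_support hd
          rw [Finsupp.degree_apply, ← h2]
        have h1 : Ideal.Quotient.mk P (monomial d (coeff d f)) =
            (coeff d f) • gen P w ⟨d, 0⟩ := by
          change (Ideal.Quotient.mkₐ ℚ P) (monomial d (coeff d f)) = (coeff d f) •
            (Ideal.Quotient.mkₐ ℚ P) (aeval w (monomial (0 : Fin (k + 1) →₀ ℕ) (1 : ℚ)) *
              monomial d (1 : ℚ))
          rw [← map_smul]
          congr 1
          have : (monomial (0 : Fin (k + 1) →₀ ℕ) (1 : ℚ)) = 1 := rfl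
          rw [this, map_one, one_mul, smul_monomial, smul_eq_mul, mul_one]
        rw [h1]
        exact Submodule.smul_mem _ _ (Submodule.subset_span
          ⟨d, 0, hS d (by omega), by simp [h2], rfl⟩)
      · obtain ⟨s, rfl⟩ : ∃ s, t = s + 1 := ⟨t - 1, by omega⟩
        have h1 := hN (s + 1) (by omega) f hf
        obtain ⟨p, hp, q, hq, hpq⟩ := Submodule.mem_sup.1 h1
        obtain ⟨c, hc⟩ := Ideal.mem_span_range_iff_exists_fun.1 hq
        have h2 : f = homogeneousComponent (s + 1) p +
            ∑ i, homogeneousComponent s (c i) * w i := by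
          rw [← homogeneousComponent_eq_self hf]
          conv_lhs => rw [← hpq, ← hc]
          rw [map_add, map_sum]
          congr 1
          exact Finset.sum_congr rfl fun i _ => hc_mul (hL.lin i)
        rw [h2, map_add, map_sum]
        refine Submodule.add_mem _ ?_ (Submodule.sum_mem _ fun i _ => ?_)
        · rw [Ideal.Quotient.eq_zero_iff_mem.2 (homogeneousComponent_mem_of_mem hh hp _)]
          exact Submodule.zero_mem _
        · have h3 := ih s (by omega) _ (homogeneousComponent_isHomogeneous s (c i))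
          rw [map_mul]
          have h4 : Submodule.span ℚ (G s) ≤ (Submodule.span ℚ (G (s + 1))).comap
              (LinearMap.mulRight ℚ (Ideal.Quotient.mk P (w i))) := by
            rw [Submodule.span_le]
            rintro _ ⟨d, m, hd, hm, rfl⟩
            refine Submodule.subset_span ⟨d, m + Finsupp.single i 1, hd, ?_, ?_⟩
            · rw [map_add, Finsupp.degree_single]
              omega
            · simp only [LinearMap.mulRight_apply]
              unfold gen
              rw [← map_mul]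
              congr 1
              have h5 : (monomial (m + Finsupp.single i 1) (1 : ℚ)) =
                  monomial m (1 : ℚ) * X i := by
                rw [X, monomial_mul, mul_one]
              rw [h5, map_mul, aeval_X]
              ring
          exact h4 h3
  refine ⟨S.card, fun t => ?_⟩
  let D : Finset ((_ : Fin (n + 1) →₀ ℕ) × (Fin (k + 1) →₀ ℕ)) :=
    S.sigma fun d => Finset.univ.finsuppAntidiag (t - d.degree)
  have hGD : G t ⊆ ((D.image (gen P w) : Finset (CR n ⧸ P)) : Set (CR n ⧸ P)) := by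
    rintro _ ⟨d, m, hd, hm, rfl⟩
    rw [Finset.coe_image]
    refine ⟨⟨d, m⟩, ?_, rfl⟩
    simp only [D, Finset.coe_sigma, Set.mem_sigma_iff, Finset.mem_coe,
      Finset.mem_finsuppAntidiag]
    refine ⟨hd, ?_, by simp⟩
    rw [← Finsupp.degree_eq_sum]
    omega
  have h1 : part P t ≤ Submodule.span ℚ ((D.image (gen P w) : Finset (CR n ⧸ P)) : Set _) := by
    rintro _ ⟨f, hf, rfl⟩
    exact Submodule.span_mono hGD (key t f hf)
  have h2 : hilb P t ≤ (D.image (gen P w)).card := by
    refine (Submodule.finrank_mono h1).trans ?_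
    exact finrank_span_finset_le_card _
  refine h2.trans (Finset.card_image_le.trans ?_)
  rw [Finset.card_sigma]
  have h3 : ∀ d ∈ S, (Finset.univ.finsuppAntidiag (t - d.degree) :
      Finset (Fin (k + 1) →₀ ℕ)).card ≤ (t + k).choose k := by
    intro d _
    rw [Finset.card_finsuppAntidiag_nat_eq_choose, Finset.card_univ, Fintype.card_fin]
    rw [show k + 1 + (t - d.degree) - 1 = (t - d.degree) + k by omega,
      Nat.choose_symm_of_eq_add (b := k) rfl]
    exact Nat.choose_le_choose k (by omega)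
  refine (Finset.sum_le_sum h3).trans ?_
  rw [Finset.sum_const, smul_eq_mul]

theorem ratio_tendsto (c : ℕ) :
    Tendsto (fun t : ℕ => (t : ℝ) / ((t + c : ℕ) : ℝ)) atTop (𝓝 1) := by
  have h3 : Tendsto (fun t : ℕ => (1 : ℝ) / (1 + (c : ℝ) / t)) atTop (𝓝 (1 / (1 + 0))) :=
    tendsto_const_nhds.div (tendsto_const_nhds.add (tendsto_const_div_atTop_nhds_zero_nat _))
      (by norm_num)
  rw [add_zero, div_one] at h3
  refine h3.congr' ?_
  filter_upwards [eventually_gt_atTop 0] with t ht
  have ht' : (0 : ℝ) < t := by exact_mod_cast ht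
  push_cast
  field_simp

theorem inv_pow_tendsto {s : ℕ} (hs : 0 < s) :
    Tendsto (fun t : ℕ => (1 : ℝ) / (t : ℝ) ^ s) atTop (𝓝 0) := by
  have h1 : Tendsto (fun t : ℕ => ((1 : ℝ) / (t : ℝ)) ^ s) atTop (𝓝 (0 ^ s)) :=
    (tendsto_const_div_atTop_nhds_zero_nat (1 : ℝ)).pow s
  rw [zero_pow (by omega)] at h1
  refine h1.congr fun t => ?_
  rw [div_pow, one_pow]

theorem choose_lim (j : ℕ) :
    Tendsto (fun t : ℕ => ((t.choose j : ℕ) : ℝ) / (t : ℝ) ^ j) atTop
      (𝓝 (1 / (j.factorial : ℝ))) := by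
  rw [← tendsto_add_atTop_iff_nat j]
  have hj : (0 : ℝ) < j.factorial := by exact_mod_cast Nat.factorial_pos j
  have h1 := ((choose_tendsto 0 j).mul ((ratio_tendsto j).pow j)).div_const (j.factorial : ℝ)
  rw [one_pow, mul_one] at h1
  refine h1.congr' ?_
  filter_upwards [eventually_gt_atTop 0] with t ht
  have ht' : (0 : ℝ) < t := by exact_mod_cast ht
  have htj : (0 : ℝ) < ((t + j : ℕ) : ℝ) := by push_cast; positivity
  rw [add_zero, div_pow]
  field_simp

theorem choose_lim0 {j M : ℕ} (h : j < M) :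
    Tendsto (fun t : ℕ => ((t.choose j : ℕ) : ℝ) / (t : ℝ) ^ M) atTop (𝓝 0) := by
  have h1 := (choose_lim j).mul (inv_pow_tendsto (s := M - j) (by omega))
  rw [mul_zero] at h1
  refine h1.congr' ?_
  filter_upwards [eventually_gt_atTop 0] with t ht
  have ht' : (0 : ℝ) < t := by exact_mod_cast ht
  rw [div_mul_div_comm, mul_one, ← pow_add, Nat.add_sub_cancel' h.le]

theorem sum_lim (M : ℕ) (c : ℕ → ℤ) :
    Tendsto (fun t : ℕ => ((∑ j ∈ Finset.range (M + 1), c j * (t.choose j : ℕ) : ℤ) : ℝ) /
      (t : ℝ) ^ M) atTop (𝓝 ((c M : ℝ) / (M.factorial : ℝ))) := by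
  have h1 : Tendsto (fun t : ℕ => ∑ j ∈ Finset.range M,
      (c j : ℝ) * (((t.choose j : ℕ) : ℝ) / (t : ℝ) ^ M)) atTop
      (𝓝 (∑ j ∈ Finset.range M, (c j : ℝ) * 0)) :=
    tendsto_finsetSum _ fun j hj => tendsto_const_nhds.mul
      (choose_lim0 (Finset.mem_range.1 hj))
  simp only [mul_zero, Finset.sum_const_zero] at h1
  have h2 := h1.add ((choose_lim M).const_mul (c M : ℝ))
  rw [zero_add, mul_one_div] at h2
  refine h2.congr fun t => ?_
  push_cast
  rw [Finset.sum_range_succ, add_div, Finset.sum_div]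
  congr 1
  · exact Finset.sum_congr rfl fun j _ => by ring
  · ring

theorem reduce_deg {H : ℕ → ℕ} {k C T : ℕ} (hC : ∀ t, H t ≤ C * (t + k).choose k) (m : ℕ)
    (hm : k + 1 ≤ m) (c : ℕ → ℤ)
    (hc : ∀ t, (H (t + T) : ℤ) = ∑ j ∈ Finset.range m, c j * (t.choose j : ℕ)) :
    ∀ t, (H (t + T) : ℤ) = ∑ j ∈ Finset.range (k + 1), c j * (t.choose j : ℕ) := by
  induction m, hm using Nat.le_induction with
  | base => exact hc
  | succ m hm ih =>
    apply ih
    have h1 := sum_lim m c
    have h2 : Tendsto (fun t : ℕ => ((H (t + T) : ℕ) : ℝ) / (t : ℝ) ^ m) atTop (𝓝 0) := by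
      have h3 := (((choose_tendsto T k).mul
        (inv_pow_tendsto (s := m - k) (by omega))).const_mul ((C : ℝ) / k.factorial))
      rw [mul_zero, mul_zero] at h3
      refine tendsto_of_tendsto_of_tendsto_of_le_of_le' tendsto_const_nhds h3
        (Eventually.of_forall fun t => by positivity) ?_
      filter_upwards [eventually_gt_atTop 0] with t ht
      have ht' : (0 : ℝ) < t := by exact_mod_cast ht
      have hk : (0 : ℝ) < k.factorial := by exact_mod_cast Nat.factorial_pos k
      have h4 : (H (t + T) : ℝ) ≤ C * ((t + T + k).choose k : ℕ) := by exact_mod_cast hC (t + T)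
      have h5 : (t : ℝ) ^ m = (t : ℝ) ^ k * (t : ℝ) ^ (m - k) := by
        rw [← pow_add, Nat.add_sub_cancel' (by omega)]
      calc (H (t + T) : ℝ) / (t : ℝ) ^ m ≤ C * ((t + T + k).choose k : ℕ) / (t : ℝ) ^ m := by
            gcongr
        _ = _ := by
            rw [h5]
            field_simp
    have h3 : (c m : ℝ) / (m.factorial : ℝ) = 0 := by
      refine tendsto_nhds_unique h1 (h2.congr fun t => ?_)
      rw [← hc]
      simp
    have h4 : c m = 0 := by
      have hm' : (m.factorial : ℝ) ≠ 0 := by exact_mod_cast (Nat.factorial_pos m).ne'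
      rw [div_eq_zero_iff] at h3
      exact_mod_cast h3.resolve_right hm'
    intro t
    rw [hc, Finset.sum_range_succ, h4, zero_mul, add_zero]

/-- The degree exists and is a positive integer. -/
theorem exists_degree {n k : ℕ} {P : Ideal (CR n)} (hh : HomI P) {w : Fin (k + 1) → CR n}
    (hL : LN P (k + 1) w) : ∃ δ : ℕ, 1 ≤ δ ∧ IsDegree P k δ := by
  obtain ⟨C, hC⟩ := hilb_upper hh hL
  obtain ⟨T, m, c, hc⟩ := EP_hilb P hh
  have hc' : ∀ t, (hilb P (t + T) : ℤ) = ∑ j ∈ Finset.range (max m (k + 1)),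
      (if j < m then c j else 0) * (t.choose j : ℕ) := fun t => by
    rw [hc, extend_sum (le_max_left m (k + 1)) c]
  have h1 := reduce_deg hC _ (le_max_right m (k + 1)) _ hc'
  set b : ℕ → ℤ := fun j => if j < m then c j else 0 with hb
  have h2 := sum_lim k b
  have hk : (0 : ℝ) < k.factorial := by exact_mod_cast Nat.factorial_pos k
  have h3 : IsDegree P k (b k : ℝ) := by
    unfold IsDegree
    rw [← tendsto_add_atTop_iff_nat T]
    have h4 := (h2.mul ((ratio_tendsto T).pow k)).const_mul (k.factorial : ℝ)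
    rw [one_pow, mul_one, mul_div_cancel₀ _ hk.ne'] at h4
    refine h4.congr' ?_
    filter_upwards [eventually_gt_atTop 0] with t ht
    have ht' : (0 : ℝ) < t := by exact_mod_cast ht
    have htT : (0 : ℝ) < ((t + T : ℕ) : ℝ) := by push_cast; positivity
    rw [← h1 t, div_pow, Int.cast_natCast]
    field_simp
  have h4 := one_le_degree hL h3
  have h5 : 1 ≤ b k := by exact_mod_cast h4
  refine ⟨(b k).toNat, by omega, ?_⟩
  have h6 : (((b k).toNat : ℕ) : ℝ) = (b k : ℝ) := by
    have : ((b k).toNat : ℤ) = b k := Int.toNat_of_nonneg (by omega)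
    exact_mod_cast this
  rw [h6]
  exact h3

/-- minimal primes of homogeneous ideals are homogeneous -/
theorem minimal_hom {n : ℕ} {I P : Ideal (CR n)} (hI : HomI I) (hP : P ∈ I.minimalPrimes) :
    HomI P := by
  have hPp : P.IsPrime := hP.1.1
  let Q := (P.homogeneousCore (homogeneousSubmodule (Fin (n + 1)) ℚ)).toIdeal
  have hQP : Q ≤ P := Ideal.toIdeal_homogeneousCore_le _ _
  have hIQ : I ≤ Q := by
    have h1 : (I.homogeneousCore (homogeneousSubmodule (Fin (n + 1)) ℚ)).toIdeal ≤ Q :=
      Ideal.homogeneousCore_mono _ hP.1.2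
    rwa [hI.toIdeal_homogeneousCore_eq_self] at h1
  have hQ : Q.IsPrime := hPp.homogeneousCore
  have h2 : P ≤ Q := hP.2 ⟨hQ, hIQ⟩ hQP
  have h3 : P = Q := le_antisymm h2 hQP
  rw [h3]
  exact (P.homogeneousCore _).isHomogeneous

end Pool.Agent.Q10.SZ
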