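import Mathlib

set_option autoImplicit false

namespace Pool.Agent.Q10.XY1

open Polynomial

/-- crude growth of an integer polynomial -/
lemma growth (p : ℤ[X]) (hd : 1 ≤ p.natDegree) :
    ∃ N : ℕ, ∀ z : ℕ, N ≤ z →
      2 * |p.eval (z : ℤ) - p.leadingCoeff * (z : ℤ) ^ p.natDegree| ≤ (z : ℤ) ^ p.natDegree := by
  set d := p.natDegree with hdd
  obtain ⟨e, he⟩ : ∃ e, d = e + 1 := ⟨d - 1, by omega⟩
  set A : ℤ := ∑ i ∈ Finset.range d, |p.coeff i| with hA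
  have hA0 : 0 ≤ A := Finset.sum_nonneg fun i _ => abs_nonneg _
  refine ⟨(2 * A).toNat + 1, fun z hz => ?_⟩
  have hz1 : (1 : ℤ) ≤ z := by
    have : 1 ≤ z := by omega
    exact_mod_cast this
  have hzA : 2 * A ≤ z := by
    have h1 : (2 * A).toNat ≤ z := by omega
    have := Int.toNat_of_nonneg (show 0 ≤ 2 * A by positivity)
    calc 2 * A = ((2 * A).toNat : ℤ) := this.symm
      _ ≤ z := by exact_mod_cast h1
  have hev : p.eval (z : ℤ) - p.leadingCoeff * (z : ℤ) ^ d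
      = ∑ i ∈ Finset.range d, p.coeff i * (z : ℤ) ^ i := by
    rw [Polynomial.eval_eq_sum_range, ← hdd, Finset.sum_range_succ]
    rw [show p.coeff d = p.leadingCoeff from rfl]
    ring
  rw [hev]
  have hb : |∑ i ∈ Finset.range d, p.coeff i * (z : ℤ) ^ i| ≤ A * (z : ℤ) ^ e := by
    refine (Finset.abs_sum_le_sum_abs _ _).trans ?_
    rw [hA, Finset.sum_mul]
    refine Finset.sum_le_sum fun i hi => ?_
    rw [abs_mul, abs_of_nonneg (show (0 : ℤ) ≤ (z : ℤ) ^ i by positivity)]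
    refine mul_le_mul_of_nonneg_left ?_ (abs_nonneg _)
    refine pow_le_pow_right₀ hz1 ?_
    have := Finset.mem_range.1 hi
    omega
  calc 2 * |∑ i ∈ Finset.range d, p.coeff i * (z : ℤ) ^ i| ≤ 2 * (A * (z : ℤ) ^ e) := by linarith
    _ = (2 * A) * (z : ℤ) ^ e := by ring
    _ ≤ z * (z : ℤ) ^ e := mul_le_mul_of_nonneg_right hzA (by positivity)
    _ = (z : ℤ) ^ d := by rw [he]; ring

/-- consequences of the growth bound, in the form used below -/
lemma growth' (p : ℤ[X]) (hd : 2 ≤ p.natDegree) :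
    ∃ N : ℕ, ∀ z : ℕ, N ≤ z →
      (0 < p.leadingCoeff → (z : ℤ) ^ 2 ≤ 2 * p.eval (z : ℤ)) ∧
      (p.leadingCoeff < 0 → (z : ℤ) ^ 2 ≤ 2 * (-p.eval (z : ℤ))) ∧
      |p.eval (z : ℤ)| ≤ (z : ℤ) ^ (p.natDegree + 1) := by
  obtain ⟨N, hN⟩ := growth p (by omega)
  set d := p.natDegree with hdd
  refine ⟨N + (|p.leadingCoeff| + 2).toNat, fun z hz => ?_⟩
  have h1 := hN z (by omega)
  have hc0 : 0 ≤ |p.leadingCoeff| := abs_nonneg _
  have hzc : |p.leadingCoeff| + 2 ≤ z := by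
    have h1 : (|p.leadingCoeff| + 2).toNat ≤ z := by omega
    have := Int.toNat_of_nonneg (show 0 ≤ |p.leadingCoeff| + 2 by positivity)
    calc |p.leadingCoeff| + 2 = ((|p.leadingCoeff| + 2).toNat : ℤ) := this.symm
      _ ≤ z := by exact_mod_cast h1
  have hz1 : (1 : ℤ) ≤ z := by linarith
  have hzd : (z : ℤ) ^ 2 ≤ (z : ℤ) ^ d := pow_le_pow_right₀ hz1 hd
  have hzd0 : (0 : ℤ) ≤ (z : ℤ) ^ d := by positivity
  obtain ⟨h2, h3⟩ := abs_le.1 (show |p.eval (z : ℤ) - p.leadingCoeff * (z : ℤ) ^ d|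
    ≤ |p.eval (z : ℤ) - p.leadingCoeff * (z : ℤ) ^ d| from le_rfl)
  refine ⟨fun hp => ?_, fun hp => ?_, ?_⟩
  · have : (z : ℤ) ^ d ≤ p.leadingCoeff * (z : ℤ) ^ d := by nlinarith
    linarith
  · have : (z : ℤ) ^ d ≤ -p.leadingCoeff * (z : ℤ) ^ d := by nlinarith
    linarith
  · have h4 : |p.eval (z : ℤ)| ≤ |p.eval (z : ℤ) - p.leadingCoeff * (z : ℤ) ^ d|
        + |p.leadingCoeff * (z : ℤ) ^ d| := by
      have := abs_add_le (p.eval (z : ℤ) - p.leadingCoeff * (z : ℤ) ^ d)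
        (p.leadingCoeff * (z : ℤ) ^ d)
      simpa using this
    rw [abs_mul, abs_of_nonneg hzd0] at h4
    have h5 : (|p.leadingCoeff| + 2) * (z : ℤ) ^ d ≤ z * (z : ℤ) ^ d :=
      mul_le_mul_of_nonneg_right hzc hzd0
    have h6 : (z : ℤ) ^ (d + 1) = z * (z : ℤ) ^ d := by ring
    rw [h6]
    linarith

/-- floor of the binary logarithm -/
def ell (n : ℕ) : ℕ := Nat.log 2 n

/-- floor of four times the binary logarithm of `ell n` -/
def gg (n : ℕ) : ℕ := Nat.log 2 (ell n ^ 4)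

/-- floor of twice the binary logarithm -/
def hh (n : ℕ) : ℕ := Nat.log 2 (n ^ 2)

/-- two numbers of the same `gg`-class with `u ≥ v^2/4` are very far apart -/
lemma far (s : ℕ) (u v : ℕ) (hv : 2 ^ 8 ≤ v) (huv : v ^ 2 ≤ 4 * u)
    (hg : gg u % (4 * s + 1) = gg v % (4 * s + 1)) : 2 ^ s * ell v ≤ ell u := by
  have hv0 : v ≠ 0 := by positivity
  have hlv : 8 ≤ ell v := (Nat.le_log_iff_pow_le (by norm_num) hv0).2 hv
  have hu0 : u ≠ 0 := by rintro rfl; have : 0 < v ^ 2 := by positivity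
                         omega
  -- ell u ≥ 2 ell v - 2
  have h1 : 2 ^ (2 * ell v) ≤ 4 * u := by
    calc 2 ^ (2 * ell v) = (2 ^ ell v) ^ 2 := by rw [mul_comm, pow_mul]
      _ ≤ v ^ 2 := Nat.pow_le_pow_left (Nat.pow_log_le_self 2 hv0) 2
      _ ≤ 4 * u := huv
  have h2 : 2 * ell v - 2 ≤ ell u := by
    refine (Nat.le_log_iff_pow_le (by norm_num) hu0).2 ?_
    have : 2 ^ (2 * ell v) = 2 ^ (2 * ell v - 2) * 4 := by
      rw [show (4 : ℕ) = 2 ^ 2 by norm_num, ← pow_add]; congr 1; omega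
    omega
  -- hence 2 * ell u ≥ 3 * ell v
  have h3 : 3 * ell v ≤ 2 * ell u := by omega
  have hlu : ell u ≠ 0 := by omega
  have hlu4 : ell u ^ 4 ≠ 0 := by positivity
  have hlv4 : ell v ^ 4 ≠ 0 := by
    have : ell v ≠ 0 := by omega
    positivity
  have h4 : 2 * ell v ^ 4 ≤ ell u ^ 4 := by
    have h5 : (3 * ell v) ^ 4 ≤ (2 * ell u) ^ 4 := Nat.pow_le_pow_left h3 4
    have h6 : (3 * ell v) ^ 4 = 81 * ell v ^ 4 := by ring
    have h7 : (2 * ell u) ^ 4 = 16 * ell u ^ 4 := by ring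
    omega
  have h8 : gg v + 1 ≤ gg u := by
    refine (Nat.le_log_iff_pow_le (by norm_num) hlu4).2 ?_
    have : 2 ^ gg v ≤ ell v ^ 4 := Nat.pow_log_le_self 2 hlv4
    calc 2 ^ (gg v + 1) = 2 * 2 ^ gg v := by ring
      _ ≤ 2 * ell v ^ 4 := by omega
      _ ≤ ell u ^ 4 := h4
  have h9 : gg v + (4 * s + 1) ≤ gg u := by
    by_contra hcon
    push Not at hcon
    have e1 := Nat.div_add_mod (gg u) (4 * s + 1)
    have e2 := Nat.div_add_mod (gg v) (4 * s + 1)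
    have h10 : gg u / (4 * s + 1) = gg v / (4 * s + 1) ∨
        gg v / (4 * s + 1) + 1 ≤ gg u / (4 * s + 1) ∨
        gg u / (4 * s + 1) + 1 ≤ gg v / (4 * s + 1) := by omega
    rcases h10 with h10 | h10 | h10
    · rw [h10, hg] at e1
      omega
    · have h12 : (4 * s + 1) * (gg v / (4 * s + 1)) + (4 * s + 1)
          ≤ (4 * s + 1) * (gg u / (4 * s + 1)) := by
        calc _ = (4 * s + 1) * (gg v / (4 * s + 1) + 1) := by ring
          _ ≤ _ := Nat.mul_le_mul_left _ h10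
      omega
    · have h12 : (4 * s + 1) * (gg u / (4 * s + 1)) + (4 * s + 1)
          ≤ (4 * s + 1) * (gg v / (4 * s + 1)) := by
        calc _ = (4 * s + 1) * (gg u / (4 * s + 1) + 1) := by ring
          _ ≤ _ := Nat.mul_le_mul_left _ h10
      omega
  have h13 : 2 ^ (gg v + (4 * s + 1)) ≤ ell u ^ 4 :=
    (Nat.le_log_iff_pow_le (by norm_num) hlu4).1 h9
  have h14 : ell v ^ 4 < 2 ^ (gg v + 1) := Nat.lt_pow_succ_log_self (by norm_num) _
  have h15 : (2 ^ s * ell v) ^ 4 < ell u ^ 4 := by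
    calc (2 ^ s * ell v) ^ 4 = 2 ^ (4 * s) * ell v ^ 4 := by rw [mul_pow, ← pow_mul, mul_comm s 4]
      _ < 2 ^ (4 * s) * 2 ^ (gg v + 1) := Nat.mul_lt_mul_of_pos_left h14 (by positivity)
      _ = 2 ^ (gg v + (4 * s + 1)) := by rw [← pow_add]; congr 1; ring
      _ ≤ ell u ^ 4 := h13
  exact (lt_of_pow_lt_pow_left₀ 4 (Nat.zero_le _) h15).le

/-- if moreover `2^s ≥ 2 d + 4` then `v^(d+1)` is negligible against `u` -/
lemma negligible (s d : ℕ) (hs : 2 * d + 6 ≤ 2 ^ s) (u v : ℕ) (hv : 2 ^ 8 ≤ v)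
    (hfar : 2 ^ s * ell v ≤ ell u) (hu : u ≠ 0) : 16 * v ^ (d + 1) ≤ u := by
  have hv0 : v ≠ 0 := by positivity
  have hlv : 8 ≤ ell v := (Nat.le_log_iff_pow_le (by norm_num) hv0).2 hv
  have h1 : v ≤ 2 ^ (ell v + 1) := (Nat.lt_pow_succ_log_self (by norm_num) _).le
  have h2 : (ell v + 1) * (d + 1) + 4 ≤ 2 ^ s * ell v := by
    calc (ell v + 1) * (d + 1) + 4 ≤ (2 * ell v) * (d + 1) + 4 * ell v := by
          have : (ell v + 1) * (d + 1) ≤ (2 * ell v) * (d + 1) :=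
            Nat.mul_le_mul_right _ (by omega)
          omega
      _ = (2 * d + 6) * ell v := by ring
      _ ≤ 2 ^ s * ell v := Nat.mul_le_mul_right _ hs
  calc 16 * v ^ (d + 1) ≤ 2 ^ 4 * (2 ^ (ell v + 1)) ^ (d + 1) := by
        have := Nat.pow_le_pow_left h1 (d + 1)
        omega
    _ = 2 ^ ((ell v + 1) * (d + 1) + 4) := by rw [← pow_mul, ← pow_add]; congr 1; ring
    _ ≤ 2 ^ ell u := Nat.pow_le_pow_right (by norm_num) (h2.trans hfar)
    _ ≤ u := Nat.pow_log_le_self 2 hu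

/-- numbers whose ratio is near two have different `hh`-classes mod four -/
lemma hh_ne (x y : ℕ) (hy : y ≠ 0) (h1 : 2 * y ^ 2 ≤ x ^ 2) (hlt : x ^ 2 < 8 * y ^ 2) :
    hh x % 4 ≠ hh y % 4 := by
  have hy2 : y ^ 2 ≠ 0 := by positivity
  have hx2 : x ^ 2 ≠ 0 := by
    have : 0 < y ^ 2 := by positivity
    omega
  have h3 : hh y + 1 ≤ hh x := by
    refine (Nat.le_log_iff_pow_le (by norm_num) hx2).2 ?_
    have : 2 ^ hh y ≤ y ^ 2 := Nat.pow_log_le_self 2 hy2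
    calc 2 ^ (hh y + 1) = 2 * 2 ^ hh y := by ring
      _ ≤ 2 * y ^ 2 := by omega
      _ ≤ x ^ 2 := h1
  have h4 : hh x ≤ hh y + 3 := by
    have h5 : y ^ 2 < 2 ^ (hh y + 1) := Nat.lt_pow_succ_log_self (by norm_num) _
    have h6 : x ^ 2 < 2 ^ (hh y + 4) := by
      calc x ^ 2 < 8 * y ^ 2 := hlt
        _ ≤ 8 * 2 ^ (hh y + 1) := by omega
        _ = 2 ^ (hh y + 4) := by ring
    have h7 : hh x < hh y + 4 := (Nat.log_lt_iff_lt_pow (by norm_num) hx2).2 h6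
    omega
  omega

end Pool.Agent.Q10.XY1
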